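import Mathlib.Combinatorics.SimpleGraph.Basic
import Mathlib.GroupTheory.Perm.Cycle.Basic
import Pool.Agent.MP_42ec7b_co.Exact

-- ======== part 0: formerly Pool.Agent.MP_42ec7b_co.A.Base
section MrgPart0

/-!
Simple 4-connected maps on the sphere given by darts; connected sets of faces.
-/

set_option autoImplicit false

open Finset

namespace Pool.Agent.MP_42ec7b_co

open Classical

/-- A simple 4-connected map of genus zero. -/
class PM (D : Type) where
  V : Type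
  F : Type
  E : Type
  fD : Fintype D
  fV : Fintype V
  fF : Fintype F
  fE : Fintype E
  α : Equiv.Perm D
  ρ : Equiv.Perm D
  v : D → V
  f : D → F
  ed : D → E
  αα : ∀ d, α (α d) = d
  v_eq : ∀ d d', v d = v d' ↔ ρ.SameCycle d d'
  f_eq : ∀ d d', f d = f d' ↔ (ρ * α).SameCycle d d'
  ed_eq : ∀ d d', ed d = ed d' ↔ d' = d ∨ d' = α d
  v_surj : Function.Surjective v
  f_surj : Function.Surjective f
  ed_surj : Function.Surjective ed
  loop : ∀ d, v (α d) ≠ v d
  simple : ∀ d d', v d = v d' → v (α d) = v (α d') → d = d'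
  euler : @Fintype.card V fV + @Fintype.card F fF = @Fintype.card E fE + 2
  five : 4 < @Fintype.card V fV
  c4 : ∀ (X : Set V) (a b c : V),
    (∀ d, v d ∈ X → v (α d) ∉ X → v (α d) = a ∨ v (α d) = b ∨ v (α d) = c) →
    ∀ u ∈ X, u ≠ a → u ≠ b → u ≠ c → ∀ w, w ≠ a → w ≠ b → w ≠ c → w ∈ X

namespace PM

variable {D : Type} [PM D]

instance : Fintype D := fD
instance : Fintype (V D) := fV
instance : Fintype (F D) := fF
instance : Fintype (E D) := fE

/-- The graph of the map. -/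
def Γ (D : Type) [PM D] : SimpleGraph (V D) where
  Adj u w := ∃ d, v d = u ∧ v (α d) = w
  symm := ⟨fun _ _ ⟨d, h1, h2⟩ => ⟨α d, h2, by rw [αα, h1]⟩⟩
  loopless := ⟨fun _ ⟨d, h1, h2⟩ => loop d (h2.trans h1.symm)⟩

/-- The face permutation. -/
def φ : Equiv.Perm D := ρ * α

lemma φ_def (d : D) : φ d = ρ (α d) := rfl

@[simp] lemma αα' (d : D) : α (α d) = d := αα d

@[simp] lemma vρ (d : D) : v (ρ d) = v d :=
  ((v_eq d _).2 (Equiv.Perm.SameCycle.refl _ d).apply_right).symm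

@[simp] lemma vφ (d : D) : v (φ d) = v (α d) := vρ _

@[simp] lemma edα (d : D) : ed (α d) = ed d := ((ed_eq d _).2 (Or.inr rfl)).symm

@[simp] lemma fφ (d : D) : f (φ d) = f d :=
  ((f_eq d _).2 (Equiv.Perm.SameCycle.refl _ d).apply_right).symm

/-- The corner after `d` lies in the face on the other side of `d`. -/
@[simp] lemma fρ (d : D) : f (ρ d) = f (α d) := by rw [← fφ (α d), φ_def, αα]

lemma αne (d : D) : α d ≠ d := fun h => loop d (by rw [h])

lemma φne (d : D) : φ d ≠ d := fun h => loop d (by rw [← vφ, h])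

lemma fφpow (k : ℕ) (d : D) : f ((φ ^ k) d) = f d := by
  induction k with
  | zero => rfl
  | succ k ih => rw [pow_succ', Equiv.Perm.mul_apply, fφ, ih]

lemma vρpow (k : ℕ) (d : D) : v ((ρ ^ k) d) = v d := by
  induction k with
  | zero => rfl
  | succ k ih => rw [pow_succ', Equiv.Perm.mul_apply, vρ, ih]

lemma face_ind {Q : D → Prop} {c0 c : D} (h0 : Q c0) (hs : ∀ c, f c = f c0 → Q c → Q (φ c))
    (hc : f c = f c0) : Q c := by
  obtain ⟨n, rfl⟩ := ((f_eq _ _).1 hc.symm).exists_nat_pow_eq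
  clear hc
  induction n with
  | zero => exact h0
  | succ n ih =>
    rw [pow_succ', Equiv.Perm.mul_apply]
    exact hs _ (fφpow n c0) ih

lemma vert_ind {Q : D → Prop} {c0 c : D} (h0 : Q c0) (hs : ∀ c, v c = v c0 → Q c → Q (ρ c))
    (hc : v c = v c0) : Q c := by
  obtain ⟨n, rfl⟩ := ((v_eq _ _).1 hc.symm).exists_nat_pow_eq
  clear hc
  induction n with
  | zero => exact h0
  | succ n ih =>
    rw [pow_succ', Equiv.Perm.mul_apply]
    exact hs _ (vρpow n c0) ih

/-- A property of faces that passes all edges at a vertex holds for all corners. -/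
lemma round {P : F D → Prop} {c c' : D} (h : v c' = v c)
    (hP : ∀ d, v d = v c → P (f d) → P (f (α d))) (h0 : P (f c)) : P (f c') :=
  vert_ind (Q := fun d => P (f d)) h0 (fun d k1 k2 => by rw [fρ]; exact hP d k1 k2) h

lemma z2_cases (x : ZMod 2) : x = 0 ∨ x = 1 := by revert x; decide

lemma z2_ne {x y : ZMod 2} : x + y = 1 ↔ ¬(x = 1 ↔ y = 1) := by revert x y; decide

lemma z2_eq {x y : ZMod 2} (h : x = 1 ↔ y = 1) : x = y := by revert x y; decide

lemma z2_zero {x : ZMod 2} (h : x ≠ 1) : x = 0 := (z2_cases x).resolve_right h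

/-- A vertex outside a list of four. -/
lemma exists_ne4 (a b c e : V D) : ∃ w, w ≠ a ∧ w ≠ b ∧ w ≠ c ∧ w ≠ e := by
  by_contra k
  have h1 : (univ : Finset (V D)) ⊆ {a, b, c, e} := fun w _ => by
    by_contra h
    simp only [mem_insert, mem_singleton, not_or] at h
    exact k ⟨w, h⟩
  have h2 := (card_le_card h1).trans card_le_four
  exact absurd (five (D := D)) (not_lt.2 h2)

lemma conn_v (y : V D → ZMod 2) (h : ∀ d, y (v d) = y (v (α d))) (u u' : V D) : y u = y u' := by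
  obtain ⟨a, h1, h2, -, -⟩ := exists_ne4 u u' u u
  exact (c4 {w | y w = y u} a a a (fun d k1 k2 => absurd ((h d).symm.trans k1) k2) u rfl h1.symm
    h1.symm h1.symm u' h2.symm h2.symm h2.symm).symm

lemma conn_f (y : F D → ZMod 2) (h : ∀ d, y (f d) = y (f (α d))) (x x' : F D) : y x = y x' := by
  choose r hr using v_surj (D := D)
  have k : ∀ d, y (f (r (v d))) = y (f d) := fun d =>
    round (P := fun g => y g = y (f d)) (hr _) (fun c _ k => (h c).symm.trans k) rfl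
  obtain ⟨d, rfl⟩ := f_surj x
  obtain ⟨d', rfl⟩ := f_surj x'
  rw [← k, ← k d']
  exact conn_v (fun u => y (f (r u))) (fun d => by rw [k, k, h]) _ _

lemma orth_f (y : V D → ZMod 2) (x : F D) :
    ∑ d with f d = x, (y (v d) + y (v (α d))) = 0 := by
  rw [sum_add_distrib, z2_add_eq]
  symm
  exact sum_equiv φ (by simp) (by simp)

lemma orth_v (y : F D → ZMod 2) (u : V D) :
    ∑ d with v d = u, (y (f d) + y (f (α d))) = 0 := by
  rw [sum_add_distrib, z2_add_eq]
  symm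
  exact sum_equiv ρ (by simp) (by simp)

/-- An edge set that is even at every vertex is the boundary of a set of faces. -/
lemma exact_f (z : D → ZMod 2) (hz : ∀ d, z (α d) = z d) (hb : ∀ u, ∑ d with v d = u, z d = 0) :
    ∃ y : F D → ZMod 2, ∀ d, z d = y (f d) + y (f (α d)) :=
  (core αα αne ed_surj ed_eq conn_f conn_v orth_v).2 (by rw [add_comm]; exact euler) z hz hb

/-- An edge set that is even on every face is an edge cut. -/
lemma exact_v (z : D → ZMod 2) (hz : ∀ d, z (α d) = z d) (hb : ∀ x, ∑ d with f d = x, z d = 0) :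
    ∃ y : V D → ZMod 2, ∀ d, z d = y (v d) + y (v (α d)) :=
  (core αα αne ed_surj ed_eq conn_v conn_f orth_f).2 euler z hz hb

/-- `A` is closed under adjacency inside `S`. -/
def Cl (S A : Finset (F D)) : Prop := ∀ d, f d ∈ A → f (α d) ∈ S → f (α d) ∈ A

lemma Cl.symm {S A : Finset (F D)} (h : Cl S A) (d : D) (h1 : f (α d) ∈ A) (h2 : f d ∈ S) :
    f d ∈ A := by
  have := h (α d) h1 (by rwa [αα])
  rwa [αα] at this

/-- Connected set of faces (the empty set is connected). -/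
def Conn (S : Finset (F D)) : Prop := ∀ A, A ⊆ S → A.Nonempty → Cl S A → S ⊆ A

/-- A set of faces such that it and its complement are nonempty and connected. -/
def Disc (S : Finset (F D)) : Prop := S.Nonempty ∧ Sᶜ.Nonempty ∧ Conn S ∧ Conn Sᶜ

/-- Adjacent sets of faces. -/
def Ad (P Q : Finset (F D)) : Prop := ∃ d, f d ∈ P ∧ f (α d) ∈ Q

/-- A boundary dart of `S`. -/
def Bd (S : Finset (F D)) (d : D) : Prop := f d ∈ S ∧ f (α d) ∉ S

/-- The edge has a side in `U`. -/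
def InE (U : Finset (F D)) (c : D) : Prop := f c ∈ U ∨ f (α c) ∈ U

/-- The vertex has a corner in `U`. -/
def Tch (U : Finset (F D)) (u : V D) : Prop := ∃ c, v c = u ∧ f c ∈ U

/-- The vertex sees both colours. -/
def BV (S : Finset (F D)) (u : V D) : Prop := Tch S u ∧ Tch Sᶜ u

lemma Disc.compl {S : Finset (F D)} (h : Disc S) : Disc Sᶜ :=
  ⟨h.2.1, by rw [compl_compl]; exact h.1, h.2.2.2, by rw [compl_compl]; exact h.2.2.1⟩

lemma conn_univ : Conn (univ : Finset (F D)) := by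
  rintro A - ⟨a, ha⟩ hc x -
  have := conn_f (fun x => if x ∈ A then 1 else 0) (fun d =>
    if_congr ⟨fun h => hc d h (mem_univ _), fun h => hc.symm d h (mem_univ _)⟩ rfl rfl) x a
  by_contra h
  simp [h, ha] at this

lemma exists_bd {S : Finset (F D)} (h : S.Nonempty) (h' : Sᶜ.Nonempty) : ∃ d, Bd S d := by
  by_contra k
  obtain ⟨x, hx⟩ := h'
  exact mem_compl.1 hx (conn_univ S (subset_univ _) h
    (fun d h1 _ => by_contra fun h2 => k ⟨d, h1, h2⟩) (mem_univ x))

lemma conn_single (x : F D) : Conn {x} := by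
  rintro A hA ⟨a, ha⟩ -
  rw [singleton_subset_iff, ← mem_singleton.1 (hA ha)]
  exact ha

lemma Ad.symm {P Q : Finset (F D)} (h : Ad P Q) : Ad Q P := by
  obtain ⟨d, h1, h2⟩ := h
  exact ⟨α d, h2, by rwa [αα]⟩

lemma Ad.mono {P Q P' Q' : Finset (F D)} (h : Ad P Q) (h1 : P ⊆ P') (h2 : Q ⊆ Q') : Ad P' Q' := by
  obtain ⟨d, k1, k2⟩ := h
  exact ⟨d, h1 k1, h2 k2⟩

lemma Conn.sub {P S A : Finset (F D)} (h : Conn P) (hS : P ⊆ S) (hc : Cl S A) {x : F D}
    (h1 : x ∈ P) (h2 : x ∈ A) : P ⊆ A :=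
  (h (P ∩ A) inter_subset_left ⟨x, mem_inter.2 ⟨h1, h2⟩⟩ fun d k1 k2 =>
    mem_inter.2 ⟨k2, hc d (mem_inter.1 k1).2 (hS k2)⟩).trans inter_subset_right

/-- Induction over a connected set of faces. -/
lemma Conn.ind {S : Finset (F D)} (h : Conn S) {P : F D → Prop}
    (hP : ∀ d, f d ∈ S → f (α d) ∈ S → P (f d) → P (f (α d))) {x x' : F D} (hx : x ∈ S)
    (hx' : x' ∈ S) (h0 : P x) : P x' :=
  (mem_filter.1 (h (S.filter P) (filter_subset _ _) ⟨x, mem_filter.2 ⟨hx, h0⟩⟩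
    (fun d k1 k2 => mem_filter.2 ⟨k2, hP d (mem_filter.1 k1).1 k2 (mem_filter.1 k1).2⟩) hx')).2

lemma const_on {S : Finset (F D)} (h : Conn S) (y : F D → ZMod 2)
    (hy : ∀ d, f d ∈ S → f (α d) ∈ S → y (f d) = y (f (α d))) {x x' : F D} (hx : x ∈ S)
    (hx' : x' ∈ S) : y x = y x' :=
  h.ind (P := fun g => y g = y x') (fun d k1 k2 k => (hy d k1 k2).symm.trans k) hx' hx rfl

lemma conn_union {P Q : Finset (F D)} (hP : Conn P) (hQ : Conn Q)
    (h : Ad P Q ∨ ∃ x, x ∈ P ∧ x ∈ Q) : Conn (P ∪ Q) := by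
  rintro A hA ⟨a, ha⟩ hc
  have key : (∃ x ∈ P, x ∈ A) ↔ ∃ x ∈ Q, x ∈ A := by
    rcases h with ⟨d, h1, h2⟩ | ⟨x, h1, h2⟩
    · exact ⟨fun ⟨x, k1, k2⟩ => ⟨_, h2, hc d (hP.sub subset_union_left hc k1 k2 h1)
        (mem_union_right _ h2)⟩, fun ⟨x, k1, k2⟩ => ⟨_, h1, hc.symm d
          (hQ.sub subset_union_right hc k1 k2 h2) (mem_union_left _ h1)⟩⟩
    · exact ⟨fun ⟨y, k1, k2⟩ => ⟨_, h2, hP.sub subset_union_left hc k1 k2 h1⟩,
        fun ⟨y, k1, k2⟩ => ⟨_, h1, hQ.sub subset_union_right hc k1 k2 h2⟩⟩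
  obtain ⟨⟨x, k1, k2⟩, y, k3, k4⟩ : (∃ x ∈ P, x ∈ A) ∧ ∃ x ∈ Q, x ∈ A :=
    (mem_union.1 (hA ha)).elim (fun k => ⟨⟨a, k, ha⟩, key.1 ⟨a, k, ha⟩⟩)
      fun k => ⟨key.2 ⟨a, k, ha⟩, a, k, ha⟩
  exact union_subset (hP.sub subset_union_left hc k1 k2) (hQ.sub subset_union_right hc k3 k4)

lemma conn_insert {S : Finset (F D)} (h : Conn S) {d : D} (hd : f (α d) ∈ S) :
    Conn (insert (f d) S) := by
  rw [insert_eq]
  exact conn_union (conn_single _) h (Or.inl ⟨d, mem_singleton_self _, hd⟩)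

/-- A set all of whose faces are joined to a connected core is connected. -/
lemma conn_of_core {S P : Finset (F D)} (hP : Conn P) (hS : P ⊆ S)
    (h : ∀ Z ⊆ S, Z.Nonempty → Cl S Z → ∃ x ∈ P, x ∈ Z) : Conn S := by
  intro A hA hne hc
  obtain ⟨x, k1, k2⟩ := h A hA hne hc
  by_contra k
  obtain ⟨y, k3, k4⟩ := h (S \ A) sdiff_subset (sdiff_nonempty.2 k) fun d m1 m2 =>
    mem_sdiff.2 ⟨m2, fun m => (mem_sdiff.1 m1).2 (hc.symm d m (mem_sdiff.1 m1).1)⟩
  exact (mem_sdiff.1 k4).2 (hP.sub hS hc k1 k2 k3)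

/-- Removing a part whose neighbours lie in a connected core. -/
lemma conn_sdiff {S K P : Finset (F D)} (hS : Conn S) (hP : Conn P) (hne : P.Nonempty)
    (h1 : P ⊆ S \ K) (h2 : ∀ d, f d ∈ K → f (α d) ∈ S → f (α d) ∉ K → f (α d) ∈ P) :
    Conn (S \ K) := by
  refine conn_of_core hP h1 fun Z hZ hZ' hc => ?_
  by_contra k
  obtain ⟨x, hx⟩ := hne
  refine k ⟨x, hx, hS Z (hZ.trans sdiff_subset) hZ' (fun d m1 m2 => hc d m1 (mem_sdiff.2
    ⟨m2, fun m => k ⟨f d, ?_, m1⟩⟩)) (mem_sdiff.1 (h1 hx)).1⟩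
  have := h2 (α d) m (by rw [αα]; exact (mem_sdiff.1 (hZ m1)).1)
    (by rw [αα]; exact (mem_sdiff.1 (hZ m1)).2)
  rwa [αα] at this

/-- The component of a face. -/
lemma exists_comp {S : Finset (F D)} {x : F D} (hx : x ∈ S) :
    ∃ K ⊆ S, x ∈ K ∧ Conn K ∧ Cl S K := by
  obtain ⟨K, ⟨h1, h2, h3⟩, hm⟩ := Set.exists_max_image {K : Finset (F D) | K ⊆ S ∧ x ∈ K ∧ Conn K}
    card (Set.toFinite _) ⟨{x}, singleton_subset_iff.2 hx, mem_singleton_self x, conn_single x⟩
  refine ⟨K, h1, h2, h3, fun d k1 k2 => by_contra fun k => ?_⟩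
  have := hm (insert (f (α d)) K) ⟨insert_subset k2 h1, mem_insert_of_mem h2,
    conn_insert h3 (by rwa [αα])⟩
  rw [card_insert_of_notMem k] at this
  omega

/-- Two disjoint connected parts extend to a partition into connected parts. -/
lemma ext_two {U P Q : Finset (F D)} (hU : Conn U) (hP : Conn P) (hQ : Conn Q) (h1 : P ⊆ U)
    (h2 : Q ⊆ U) (hd : Disjoint P Q) (n1 : P.Nonempty) (n2 : Q.Nonempty) :
    ∃ K ⊆ U, P ⊆ K ∧ Q ⊆ U \ K ∧ Conn K ∧ Conn (U \ K) := by
  obtain ⟨x, hx⟩ := n1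
  have h3 : P ⊆ U \ Q := subset_sdiff.2 ⟨h1, hd⟩
  obtain ⟨K, k1, k2, k3, k4⟩ := exists_comp (h3 hx)
  have h4 : Q ⊆ U \ K := subset_sdiff.2 ⟨h2, (subset_sdiff.1 k1).2.symm⟩
  exact ⟨K, k1.trans sdiff_subset, hP.sub h3 k4 hx k2, h4, k3, conn_sdiff hU hQ n2 h4
    fun d m1 m2 m3 => by_contra fun m => m3 (k4 d m1 (mem_sdiff.2 ⟨m2, m⟩))⟩

/-- A closed proper part of a connected set has an edge to the rest. -/
lemma Conn.exit {S K : Finset (F D)} (hS : Conn S) (h1 : K ⊆ S) (h2 : K.Nonempty) (h3 : ¬S ⊆ K) :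
    ∃ d, f d ∈ K ∧ f (α d) ∈ S ∧ f (α d) ∉ K := by
  by_contra k
  exact h3 (hS K h1 h2 fun d m1 m2 => by_contra fun m3 => k ⟨d, m1, m2, m3⟩)

variable {A B U S : Finset (F D)} {u : V D} {c : D}

lemma Tch.mono (h : Tch A u) (k : A ⊆ B) : Tch B u := by
  obtain ⟨c, h1, h2⟩ := h
  exact ⟨c, h1, k h2⟩

lemma tch_v (h : f c ∈ U) : Tch U (v c) := ⟨c, rfl, h⟩

lemma tch_α (h : f c ∈ U) : Tch U (v (α c)) := ⟨φ c, vφ c, by rwa [fφ]⟩

lemma tch_v' (h : f (α c) ∈ U) : Tch U (v c) := ⟨ρ c, vρ c, by rwa [fρ]⟩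

lemma InE.tch (h : InE U c) : Tch U (v c) := h.elim tch_v tch_v'

lemma InE.symm (h : InE U c) : InE U (α c) := by
  unfold InE
  rw [αα]
  exact Or.symm h

lemma InE.tch' (h : InE U c) : Tch U (v (α c)) := h.symm.tch

lemma InE.mono (h : InE A c) (k : A ⊆ B) : InE B c := h.imp (fun h => k h) fun h => k h

lemma bv_compl : BV Sᶜ u ↔ BV S u := by rw [BV, compl_compl, and_comm, BV]

lemma bv_of {c' : D} (h : v c = v c') (k : ¬(f c ∈ S ↔ f c' ∈ S)) : BV S (v c) := by
  by_cases a : f c ∈ S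
  · exact ⟨tch_v a, c', h.symm, mem_compl.2 fun b => k (iff_of_true a b)⟩
  · exact ⟨⟨c', h.symm, by_contra fun b => k (iff_of_false a b)⟩, tch_v (mem_compl.2 a)⟩

lemma Bd.bv (h : Bd S c) : BV S (v c) := ⟨tch_v h.1, tch_v' (mem_compl.2 h.2)⟩

lemma Bd.bv' (h : Bd S c) : BV S (v (α c)) := ⟨tch_α h.1, tch_v (mem_compl.2 h.2)⟩

lemma Bd.compl (h : Bd S c) : Bd Sᶜ (α c) := ⟨mem_compl.2 h.2, by rw [αα]; simpa using h.1⟩

lemma mono_iff {c' : D} (k : ¬BV S (v c)) (h : v c = v c') : f c ∈ S ↔ f c' ∈ S :=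
  by_contra fun k' => k (bv_of h k')

lemma bv_congr {K S' : Finset (F D)} (h : ∀ g ∉ K, g ∈ S' ↔ g ∈ S) (k : ¬Tch K u) :
    BV S' u ↔ BV S u := by
  have : ∀ c, v c = u → (f c ∈ S' ↔ f c ∈ S) := fun c hc => h _ fun k' => k ⟨c, hc, k'⟩
  refine and_congr (exists_congr fun c => and_congr_right fun hc => this c hc)
    (exists_congr fun c => and_congr_right fun hc => ?_)
  rw [mem_compl, mem_compl, this c hc]

/-- A two-coloured vertex has an outgoing boundary dart. -/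
lemma BV.out (h : BV S u) : ∃ d, v d = u ∧ Bd S d := by
  obtain ⟨⟨c, rfl, h1⟩, c', h2, h3⟩ := h
  by_contra k
  exact mem_compl.1 h3 (round (P := (· ∈ S)) h2
    (fun d m1 m2 => by_contra fun m3 => k ⟨d, m1, m2, m3⟩) h1)

/-- A two-coloured vertex has an incoming boundary dart. -/
lemma BV.inn (h : BV S u) : ∃ d, v (α d) = u ∧ Bd S d := by
  obtain ⟨d, h1, h2, h3⟩ := (bv_compl.2 h).out
  exact ⟨α d, by rwa [αα], by simpa using h3, by rw [αα]; simpa using h2⟩

end PM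

end Pool.Agent.MP_42ec7b_co

end MrgPart0

-- ======== part 1: formerly Pool.Agent.MP_42ec7b_co.A.Minor
section MrgPart1

/-!
Counting links of a graph whose even subgraphs are boundaries of sets of cells.
-/

set_option autoImplicit false

open Finset Matrix

namespace Pool.Agent.MP_42ec7b_co

open Classical

variable {L I R T M X C : Type} [Fintype L] [Fintype I] [Fintype R] [Fintype T] [Fintype C]

/-- Even set of links. -/
def Ev (e1 e2 : L → I) (x : L → ZMod 2) : Prop := ∀ i, ∑ l, inc e1 e2 l i * x l = 0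

lemma abs_count [Nonempty I] (e1 e2 : L → I) (r1 r2 : L → R) (g : ℕ)
    (h1 : ∀ x, Ev e1 e2 x → ∃ y : R → ZMod 2, ∀ l, x l = y (r1 l) + y (r2 l))
    (h2 : ∀ r l, ¬(r1 l = r ↔ r2 l = r) → g ≤ #{l | ¬(r1 l = r ↔ r2 l = r)}) :
    Fintype.card L < Fintype.card I ∨
      g * (Fintype.card L + 2) ≤ g * Fintype.card I + 2 * Fintype.card L := by
  have a1 := LinearMap.finrank_range_add_finrank_ker (inc e1 e2)ᵀ.mulVecLin
  have a2 := LinearMap.finrank_range_add_finrank_ker (inc e1 e2).mulVecLin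
  have a3 : Module.finrank (ZMod 2) (LinearMap.range (inc e1 e2)ᵀ.mulVecLin) =
      Module.finrank (ZMod 2) (LinearMap.range (inc e1 e2).mulVecLin) := Matrix.rank_transpose _
  have one : ∀ {A : Type} [Fintype A] [Nonempty A] (N : Matrix L A (ZMod 2)),
      N *ᵥ (fun _ => 1) = 0 → 0 < Module.finrank (ZMod 2) (LinearMap.ker N.mulVecLin) :=
    fun N h => Module.finrank_pos_iff_exists_ne_zero.2 ⟨⟨fun _ => 1, h⟩, fun k =>
      one_ne_zero (congrFun (congrArg Subtype.val k) (Classical.arbitrary _))⟩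
  have a4 := one (inc e1 e2) (funext fun l => by rw [inc_mulVec, z2_add_self]; rfl)
  rw [Module.finrank_fintype_fun_eq_card] at a1 a2
  let P : R → Prop := fun r => ∃ l, ¬(r1 l = r ↔ r2 l = r)
  let N : Matrix L {r // P r} (ZMod 2) := fun l r => inc r1 r2 l r.1
  have hN : ∀ (y : R → ZMod 2) l, (N *ᵥ fun r => y r.1) l = y (r1 l) + y (r2 l) := fun y l => by
    rw [← inc_mulVec]
    simp only [mulVec, dotProduct, N]
    rw [← sum_subtype (univ.filter P) (by simp) fun r => inc r1 r2 l r * y r]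
    refine sum_subset (subset_univ _) fun r _ h => ?_
    have k : r1 l = r ↔ r2 l = r := by_contra fun k => h (mem_filter.2 ⟨mem_univ _, l, k⟩)
    simp only [inc, k, z2_add_self, zero_mul]
  have b1 : LinearMap.ker (inc e1 e2)ᵀ.mulVecLin ≤ LinearMap.range N.mulVecLin := fun x hx => by
    obtain ⟨y, hy⟩ := h1 x fun i => congrFun (LinearMap.mem_ker.1 hx) i
    exact ⟨fun r => y r.1, funext fun l => (hN y l).trans (hy l).symm⟩
  have b2 := Submodule.finrank_mono b1
  have b3 := LinearMap.finrank_range_add_finrank_ker N.mulVecLin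
  rw [Module.finrank_fintype_fun_eq_card] at b3
  rcases isEmpty_or_nonempty {r // P r} with k | k
  · rw [Fintype.card_eq_zero] at b3
    omega
  have b4 := one N (funext fun l => (hN (fun _ => 1) l).trans (z2_add_self _))
  have c1 : g * Fintype.card {r // P r} ≤ 2 * Fintype.card L := by
    rw [Fintype.card_subtype, mul_comm, ← smul_eq_mul, ← sum_const]
    refine (sum_le_sum fun r hr => (mem_filter.1 hr).2.elim (h2 r)).trans ?_
    refine (sum_le_sum_of_subset (filter_subset _ _)).trans ?_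
    simp only [card_filter]
    rw [sum_comm, mul_comm, ← smul_eq_mul, ← card_univ, ← sum_const]
    refine sum_le_sum fun l _ => ?_
    rw [← card_filter]
    refine (card_le_card (t := {r1 l, r2 l}) fun r hr => ?_).trans card_le_two
    have := (mem_filter.1 hr).2
    simp only [mem_insert, mem_singleton]
    by_contra m
    rw [not_or] at m
    exact this (iff_of_false (Ne.symm m.1) (Ne.symm m.2))
  have c2 : Fintype.card L + 2 ≤ Fintype.card I + Fintype.card {r // P r} := by omega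
  have := Nat.mul_le_mul_left g c2
  rw [mul_add g (Fintype.card I)] at this
  omega

omit [Fintype I] in
lemma sum_ind {A : Type} (a : T → A) (t : T) (u : A) {_ : DecidablePred fun s => a s = u}
    {_ : ∀ s, Decidable (t = s)} [Decidable (a t = u)] :
    ∑ s with a s = u, (if t = s then (1 : ZMod 2) else 0) = if a t = u then 1 else 0 := by
  rw [sum_filter, sum_eq_single t (fun s _ h => by simp [h.symm]) (by simp), if_pos rfl]
  congr

/-- Links through distinct middle nodes between classes that are joined by inner arcs. -/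
lemma mid_count [Nonempty I] [Fintype M] [Fintype X] [DecidableEq M] (mid : T → M) (fc : T → X)
    (s1 s2 : T → C)
    (ex : ∀ z : T → ZMod 2, ((∀ m, ∑ t with mid t = m, z t = 0) ∧
      ∀ x, ∑ t with fc t = x, z t = 0) ↔ ∃ y : C → ZMod 2, ∀ t, z t = y (s1 t) + y (s2 t))
    (cl : X → Option I) (t t' : L → T) (e1 e2 : L → I) (hm : ∀ l, mid (t' l) = mid (t l))
    (inj : ∀ l l', mid (t l) = mid (t l') → l = l') (k1 : ∀ l, cl (fc (t l)) = some (e1 l))
    (k2 : ∀ l, cl (fc (t' l)) = some (e2 l)) (ne : ∀ l, e1 l ≠ e2 l) (J : T → Prop)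
    (j1 : ∀ s l, J s → mid s ≠ mid (t l))
    (j2 : ∀ s s', J s → J s' → mid s = mid s' → cl (fc s) = cl (fc s'))
    (j3 : ∀ i, ∃ b, ∀ a, cl a = some i → ∃ z : T → ZMod 2, (∀ s, ¬J s → z s = 0) ∧
      (∀ m, ∑ s with mid s = m, z s = 0) ∧
      ∀ x, ∑ s with fc s = x, z s = (if a = x then 1 else 0) + if b = x then 1 else 0)
    (g : ℕ) (hg : ∀ x l, Ev e1 e2 x → x l ≠ 0 → g ≤ #{l | x l ≠ 0}) :
    Fintype.card L < Fintype.card I ∨
      g * (Fintype.card L + 2) ≤ g * Fintype.card I + 2 * Fintype.card L := by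
  let U : T → Prop := fun s => J s ∨ ∃ l, s = t l ∨ s = t' l
  let Adm : (C → ZMod 2) → Prop := fun y => ∀ s, ¬U s → y (s1 s) = y (s2 s)
  let S : Setoid C := ⟨fun c c' => ∀ y, Adm y → y c = y c', fun _ _ _ => rfl,
    fun h y k => (h y k).symm, fun h h' y k => (h y k).trans (h' y k)⟩
  have tt : ∀ l, t l ≠ t' l := fun l h => ne l (Option.some.inj (by rw [← k1, ← k2, h]))
  refine abs_count e1 e2 (fun l => Quotient.mk S (s1 (t l))) (fun l => Quotient.mk S (s2 (t l))) g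
    (fun x hx => ?_) fun r l hl => ?_
  · choose b hb using j3
    choose z1 z11 z12 z13 using fun l => hb _ _ (k1 l)
    choose z2 z21 z22 z23 using fun l => hb _ _ (k2 l)
    let w : L → T → ZMod 2 := fun l s =>
      ((if t l = s then 1 else 0) + z1 l s) + ((if t' l = s then 1 else 0) + z2 l s)
    obtain ⟨y, hy⟩ := (ex fun s => ∑ l, w l s * x l).1 ⟨fun m => by
      rw [sum_comm]
      refine sum_eq_zero fun l _ => ?_
      rw [← sum_mul]
      simp only [w, sum_add_distrib, sum_ind, z12, z22, hm, add_zero, z2_add_self, zero_mul],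
      fun u => by
      rw [sum_comm]
      have k : ∀ l, ∑ s with fc s = u, w l s * x l =
          ∑ i, (if b i = u then 1 else 0) * (inc e1 e2 l i * x l) := fun l => by
        rw [← sum_mul]
        simp only [w, sum_add_distrib, sum_ind, z13, z23, ← add_assoc, z2_add_self, zero_add,
          ← mul_assoc, ← sum_mul]
        congr 1
        rw [add_assoc (if b (e1 l) = u then (1 : ZMod 2) else 0), z2_add_self, add_zero]
        simp [inc, mul_add, sum_add_distrib]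
      simp only [k]
      rw [sum_comm]
      exact sum_eq_zero fun i _ => by rw [← mul_sum, hx i, mul_zero]⟩
    have ha : Adm y := fun s hs => by
      rw [← z2_add_eq, ← hy]
      refine sum_eq_zero fun l _ => ?_
      simp only [w]
      rw [z11 l s fun k => hs (Or.inl k), z21 l s fun k => hs (Or.inl k),
        if_neg fun k => hs (Or.inr ⟨l, Or.inl k.symm⟩),
        if_neg fun k => hs (Or.inr ⟨l, Or.inr k.symm⟩), z2_add_self, zero_mul]
    refine ⟨Quotient.lift y fun _ _ h => h y ha, fun l => ?_⟩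
    simp only [Quotient.lift_mk]
    rw [← hy, sum_eq_single l (fun l' _ h => ?_) (fun h => absurd (mem_univ _) h)]
    all_goals
      simp only [w]
      rw [z11 _ _ fun k => j1 _ l k rfl, z21 _ _ fun k => j1 _ l k rfl]
    · rw [if_neg (tt l).symm]
      simp
    · rw [if_neg fun k => h (inj _ _ (by rw [k])),
        if_neg fun k => h (inj _ _ (by rw [← hm, k]))]
      simp
  · let y : C → ZMod 2 := fun c => if Quotient.mk S c = r then 1 else 0
    have e : ∀ s, y (s1 s) + y (s2 s) ≠ 0 ↔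
        ¬(Quotient.mk S (s1 s) = r ↔ Quotient.mk S (s2 s) = r) := fun s => by
      simp only [y]
      split_ifs with a b b <;> simp [a, b, z2_add_self]
    obtain ⟨h1, h2⟩ := (ex fun s => y (s1 s) + y (s2 s)).2 ⟨y, fun _ => rfl⟩
    simp only [← e] at hl ⊢
    refine hg (fun l => y (s1 (t l)) + y (s2 (t l))) l (fun i => ?_) hl
    have h0 : ∀ s, ¬U s → y (s1 s) + y (s2 s) = 0 := fun s hs => by
      simp only [y]
      rw [Quotient.sound (s := S) (a := s1 s) (b := s2 s) fun y k => k s hs, z2_add_self]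
    obtain ⟨z, hz⟩ : ∃ z : T → ZMod 2, ∀ s, y (s1 s) + y (s2 s) = z s := ⟨_, fun _ => rfl⟩
    simp only [hz] at h0 h1 h2 ⊢
    have sup : ∀ l (w : T → ZMod 2), (∀ s, ¬U s → w s = 0) →
        ∑ s with mid s = mid (t l), w s = w (t l) + w (t' l) := fun l w hw => by
      rw [← sum_pair (tt l)]
      refine (sum_subset (fun s hs => ?_) fun s hs h => hw s ?_).symm
      · rcases mem_insert.1 hs with rfl | hs
        · simp
        · simp [mem_singleton.1 hs, hm]
      · rintro (k | ⟨l', rfl | rfl⟩)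
        · exact j1 s l k (mem_filter.1 hs).2
        · exact h (by rw [inj _ _ (mem_filter.1 hs).2]; simp)
        · exact h (by rw [inj _ _ ((hm _).symm.trans (mem_filter.1 hs).2)]; simp)
    let G : X → ZMod 2 := fun x => if cl x = some i then 1 else 0
    have a1 : ∑ s, G (fc s) * z s = 0 := by
      rw [← sum_fiberwise univ fc]
      refine sum_eq_zero fun x _ => ?_
      rw [sum_congr rfl fun s hs => by rw [(mem_filter.1 hs).2], ← mul_sum, h2, mul_zero]
    rw [← sum_fiberwise univ mid, ← sum_subset (subset_univ (univ.image fun l => mid (t l))),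
      sum_image fun l _ l' _ h => inj l l' h] at a1
    · refine Eq.trans (sum_congr rfl fun l _ => ?_) a1
      have := (sup l z h0).symm.trans (h1 _)
      rw [sup l _ fun s hs => by rw [h0 s hs, mul_zero], ← z2_add_eq.1 this, ← add_mul]
      simp [G, k1, k2, inc]
    · intro m _ h
      have a2 : ∀ s, mid s = m → ¬J s → z s = 0 := fun s a b => h0 s (by
        rintro (k | ⟨l', rfl | rfl⟩)
        exacts [b k, h (mem_image.2 ⟨l', mem_univ _, a⟩),
          h (mem_image.2 ⟨l', mem_univ _, (hm _).symm.trans a⟩)])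
      by_cases k : ∃ s0, J s0 ∧ mid s0 = m
      · obtain ⟨s0, b1, b2⟩ := k
        rw [sum_congr rfl (g := fun s => G (fc s0) * z s) fun s hs => ?_, ← mul_sum, h1, mul_zero]
        by_cases c : J s
        · simp only [G, j2 s s0 c b1 ((mem_filter.1 hs).2.trans b2.symm)]
        · rw [a2 s (mem_filter.1 hs).2 c, mul_zero, mul_zero]
      · exact sum_eq_zero fun s hs => by
          rw [a2 s (mem_filter.1 hs).2 fun c => k ⟨s, c, (mem_filter.1 hs).2⟩, mul_zero]

omit [Fintype I] in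
/-- A link of an even set has a second link at each of its ends. -/
lemma Ev.next {e1 e2 : L → I} {x : L → ZMod 2} (h : Ev e1 e2 x) (ne : ∀ l, e1 l ≠ e2 l) {l : L}
    (hl : x l ≠ 0) {i : I} (hi : e1 l = i ∨ e2 l = i) :
    ∃ l', l' ≠ l ∧ x l' ≠ 0 ∧ (e1 l' = i ∨ e2 l' = i) := by
  by_contra k
  have := h i
  rw [sum_eq_single l (fun l' _ m => ?_) (fun m => absurd (mem_univ _) m)] at this
  · rcases hi with rfl | rfl
    · simp [inc, (ne l).symm, hl] at this
    · simp [inc, ne l, hl] at this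
  · by_cases a : x l' = 0
    · rw [a, mul_zero]
    · have := not_or.1 fun b => k ⟨l', m, a, b⟩
      simp [inc, this.1, this.2]

omit [Fintype I] in
lemma girth3 {e1 e2 : L → I} (ne : ∀ l, e1 l ≠ e2 l)
    (si : ∀ l l', e1 l = e1 l' ∧ e2 l = e2 l' ∨ e1 l = e2 l' ∧ e2 l = e1 l' → l = l')
    (x : L → ZMod 2) (l : L) (h : Ev e1 e2 x) (hl : x l ≠ 0) : 3 ≤ #{l | x l ≠ 0} := by
  obtain ⟨a, a1, a2, a3⟩ := h.next ne hl (Or.inl rfl)
  obtain ⟨b, b1, b2, b3⟩ := h.next ne hl (Or.inr rfl)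
  refine two_lt_card_iff.2 ⟨l, a, b, by simpa, by simpa, by simpa, a1.symm, b1.symm, ?_⟩
  rintro rfl
  rcases a3 with a3 | a3 <;> rcases b3 with b3 | b3
  exacts [ne l (a3.symm.trans b3), a1 (si _ _ (Or.inl ⟨a3, b3⟩)), a1 (si _ _ (Or.inr ⟨b3, a3⟩)),
    ne l (a3.symm.trans b3)]

omit [Fintype I] in
lemma girth4 {e1 e2 : L → I} (ne : ∀ l l', e1 l ≠ e2 l')
    (si : ∀ l l', e1 l = e1 l' → e2 l = e2 l' → l = l')
    (x : L → ZMod 2) (l : L) (h : Ev e1 e2 x) (hl : x l ≠ 0) : 4 ≤ #{l | x l ≠ 0} := by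
  obtain ⟨a, a1, a2, a3⟩ := h.next (fun l => ne l l) hl (Or.inl rfl)
  obtain ⟨b, b1, b2, b3⟩ := h.next (fun l => ne l l) hl (Or.inr rfl)
  obtain ⟨c, c1, c2, c3⟩ := h.next (fun l => ne l l) a2 (Or.inr rfl)
  replace a3 := a3.resolve_right fun k => ne _ _ k.symm
  replace b3 := b3.resolve_left (ne _ _)
  replace c3 := c3.resolve_left (ne _ _)
  have n : e2 a ≠ e2 l := fun k => a1 (si _ _ a3 k)
  refine three_lt_card_iff.2 ⟨l, a, b, c, by simpa, by simpa, by simpa, by simpa, a1.symm, b1.symm,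
    fun k => n (by rw [← c3, ← k]), fun k => n (by rw [← b3, ← k]), c1.symm,
    fun k => n (by rw [← c3, ← k, b3])⟩

end Pool.Agent.MP_42ec7b_co

end MrgPart1

-- ======== part 2: formerly Pool.Agent.MP_42ec7b_co.A.Planar
section MrgPart2

/-!
Potentials on darts and the planar bounds for links between connected sets of faces.
-/

set_option autoImplicit false

open Finset

namespace Pool.Agent.MP_42ec7b_co

open Classical

namespace PM

variable {D : Type} [PM D]

lemma pot_v (z : D → ZMod 2) (hv : ∀ u, ∑ c with v c = u, z c = 0) :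
    ∃ y : D → ZMod 2, ∀ c, z (ρ c) = y c + y (ρ c) := by
  choose r hr using v_surj (D := D)
  have k : ∀ c : D, ∃ y : D → ZMod 2, ∀ e, y e + y (ρ e) =
      (if r (v c) = ρ e then 1 else 0) + if c = ρ e then 1 else 0 := fun c =>
    vert_ind (Q := fun c' => ∃ y : D → ZMod 2, ∀ e, y e + y (ρ e) =
      (if r (v c) = ρ e then 1 else 0) + if c' = ρ e then 1 else 0)
      ⟨fun _ => 0, fun e => by rw [z2_add_self, z2_add_self]⟩ (fun c' _ ⟨y, hy⟩ =>
        ⟨fun e => y e + if c' = e then 1 else 0, fun e => by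
          rw [add_add_add_comm, hy, add_assoc, add_comm (if c' = e then (1 : ZMod 2) else 0),
            ← add_assoc (if c' = ρ e then (1 : ZMod 2) else 0), z2_add_self, zero_add]
          simp⟩) (hr _).symm
  choose y hy using k
  refine ⟨fun e => ∑ c, z c * y c e, fun e => ?_⟩
  simp only [← sum_add_distrib, ← mul_add, hy]
  simp only [mul_add, sum_add_distrib, mul_ite, mul_one, mul_zero, sum_ite_eq', mem_univ, if_true]
  rw [← sum_filter]
  by_cases a : r (v e) = ρ e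
  · rw [filter_congr (q := fun c => v c = v e) fun c _ =>
      ⟨fun h => by rw [← hr (v c), h, vρ], fun h => by rw [h, a]⟩, hv, zero_add]
  · rw [filter_false_of_mem fun c _ h => a (by rw [← h, ← vρ e, ← h, hr]), sum_empty, zero_add]

/-- An even set of corners and crossed edges is a coboundary on darts. -/
theorem pot (z1 z2 : D → ZMod 2) (h2 : ∀ d, z2 (α d) = z2 d)
    (hv : ∀ u, ∑ c with v c = u, z1 c = 0) (hf : ∀ x, ∑ c with f c = x, (z1 c + z2 c) = 0) :
    ∃ y : D → ZMod 2, (∀ c, z1 (ρ c) = y c + y (ρ c)) ∧ ∀ d, z2 d = y d + y (α d) := by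
  obtain ⟨y, hy⟩ := pot_v z1 hv
  obtain ⟨t, ht⟩ := exact_v (fun d => z2 d + (y d + y (α d)))
    (fun d => by rw [h2, αα, add_comm (y d)]) fun x => by
      rw [← hf x, sum_add_distrib, sum_add_distrib, sum_add_distrib, add_comm]
      congr 1
      rw [← sum_equiv (s := {d | f d = x}) (t := {d | f d = x}) φ (f := fun d => y (φ d))
        (by simp) (by simp), ← sum_add_distrib]
      exact sum_equiv φ (by simp) fun d _ => by rw [φ_def, hy, add_comm]
  refine ⟨fun d => y d + t (v d), fun c => ?_, fun d => ?_⟩ <;> beta_reduce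
  · rw [hy, vρ, add_add_add_comm, z2_add_self, add_zero]
  · rw [add_add_add_comm, ← ht, add_comm (z2 d), ← add_assoc, z2_add_self, zero_add]

lemma mid_ex (z : D ⊕ D → ZMod 2) :
    ((∀ m, ∑ t with Sum.map v ed t = m, z t = 0) ∧ ∀ x, ∑ t with Sum.elim f f t = x, z t = 0) ↔
      ∃ y : D → ZMod 2, ∀ t, z t = y (Sum.elim id id t) + y (Sum.elim ρ.symm α t) := by
  have a1 : ∀ u, ∑ t with Sum.map v ed t = Sum.inl u, z t = ∑ c with v c = u, z (Sum.inl c) :=
    fun u => by simp [sum_filter]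
  have a2 : ∀ d, ∑ t with Sum.map v ed t = Sum.inr (ed d), z t =
      z (Sum.inr d) + z (Sum.inr (α d)) := fun d => by
    rw [← sum_pair (f := fun d => z (Sum.inr d)) (αne d).symm,
      show ({d, α d} : Finset D) = univ.filter (ed · = ed d) from
        ext fun c => by rw [mem_insert, mem_singleton, ← ed_eq, eq_comm]; simp]
    simp [sum_filter]
  have a3 : ∀ x, ∑ t with Sum.elim f f t = x, z t =
      ∑ c with f c = x, (z (Sum.inl c) + z (Sum.inr c)) := fun x => by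
    rw [sum_add_distrib, sum_filter, sum_filter, sum_filter, Fintype.sum_sum_type]
    rfl
  constructor
  · rintro ⟨h1, h2⟩
    obtain ⟨y, k1, k2⟩ := pot (fun c => z (Sum.inl c)) (fun c => z (Sum.inr c))
      (fun d => (z2_add_eq.1 ((a2 d).symm.trans (h1 _))).symm) (fun u => (a1 u).symm.trans (h1 _))
      fun x => (a3 x).symm.trans (h2 x)
    refine ⟨y, ?_⟩
    rintro (c | c)
    · simpa [add_comm] using k1 (ρ.symm c)
    · exact k2 c
  · rintro ⟨y, hy⟩
    refine ⟨?_, fun x => ?_⟩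
    · rintro (u | e)
      · rw [a1]
        simp only [hy, Sum.elim_inl, id]
        rw [sum_add_distrib, z2_add_eq]
        exact sum_equiv ρ (by simp) (by simp)
      · obtain ⟨d, rfl⟩ := ed_surj e
        rw [a2]
        simp only [hy, Sum.elim_inr, id, αα]
        rw [add_comm (y d), z2_add_self]
    · rw [a3]
      simp only [hy, Sum.elim_inl, Sum.elim_inr, id]
      simp only [add_add_add_comm (y _) (y _) (y _) (y (α _)), z2_add_self, zero_add]
      rw [sum_add_distrib, z2_add_eq]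
      exact (sum_equiv φ (by simp) (by simp [φ_def])).symm

section

variable {ι : Type} {I : Finset ι} {Y : ι → Finset (F D)} {P : Finset (ι × ι)}

/-- The count of links between disjoint connected sets of faces. -/
theorem links (hI : I.Nonempty) (hc : ∀ i ∈ I, Conn (Y i))
    (hd : ∀ i ∈ I, ∀ j ∈ I, ∀ x ∈ Y i, x ∈ Y j → i = j)
    (hP : ∀ p ∈ P, p.1 ∈ I ∧ p.2 ∈ I ∧ p.1 ≠ p.2 ∧ p.swap ∉ P) (u : ι × ι → V D)
    (hl : ∀ p ∈ P, Ad (Y p.1) (Y p.2) ∨ Tch (Y p.1) (u p) ∧ Tch (Y p.2) (u p))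
    (hu : ∀ p ∈ P, ∀ q ∈ P, ¬Ad (Y p.1) (Y p.2) → ¬Ad (Y q.1) (Y q.2) → u p = u q → p = q) (g : ℕ)
    (hg : ∀ (x : P → ZMod 2) l, Ev (fun l : P => l.1.1) (fun l => l.1.2) x → x l ≠ 0 →
      g ≤ #{l | x l ≠ 0}) : #P < #I ∨ g * (#P + 2) ≤ g * #I + 2 * #P := by
  have : Nonempty I := hI.to_subtype
  let cl : F D → Option I := fun x => if h : ∃ i : I, x ∈ Y i then some h.choose else none
  have hcl : ∀ x (i : I), cl x = some i ↔ x ∈ Y i := fun x i => by
    simp only [cl]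
    split_ifs with h
    · exact ⟨fun k => Option.some.inj k ▸ h.choose_spec, fun k =>
        congrArg _ (Subtype.ext (hd _ h.choose.2 _ i.2 x h.choose_spec k))⟩
    · exact iff_of_false (by simp) fun k => h ⟨i, k⟩
  have ex : ∀ l : P, ∃ t t' : D ⊕ D, Sum.elim f f t ∈ Y l.1.1 ∧ Sum.elim f f t' ∈ Y l.1.2 ∧
      ((∃ d, t = Sum.inr d ∧ t' = Sum.inr (α d)) ∨ ¬Ad (Y l.1.1) (Y l.1.2) ∧
        Sum.map v ed t = Sum.inl (u l) ∧ Sum.map v ed t' = Sum.inl (u l)) := fun l => by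
    by_cases h : Ad (Y l.1.1) (Y l.1.2)
    · obtain ⟨d, h1, h2⟩ := h
      exact ⟨Sum.inr d, Sum.inr (α d), h1, h2, Or.inl ⟨d, rfl, rfl⟩⟩
    · obtain ⟨⟨c, h1, h2⟩, c', h3, h4⟩ := (hl _ l.2).resolve_left h
      exact ⟨Sum.inl c, Sum.inl c', h2, h4, Or.inr ⟨h, congrArg _ h1, congrArg _ h3⟩⟩
  choose t t' t1 t2 t3 using ex
  have key := mid_count (Sum.map v ed) (Sum.elim f f) (Sum.elim id id) (Sum.elim ρ.symm α)
    mid_ex cl t t'
    (fun l => ⟨_, (hP _ l.2).1⟩) (fun l => ⟨_, (hP _ l.2).2.1⟩) (fun l => ?_) (fun l l' h => ?_)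
    (fun l => (hcl _ _).2 (t1 l)) (fun l => (hcl _ _).2 (t2 l))
    (fun l h => (hP _ l.2).2.2.1 (congrArg Subtype.val h))
    (fun s => ∃ d, s = Sum.inr d ∧ ∃ i : I, f d ∈ Y i ∧ f (α d) ∈ Y i) ?_ ?_ (fun i => ?_) g
    fun x l h => hg x l fun i => ?_
  · simpa using key
  · rcases t3 l with ⟨d, a, b⟩ | ⟨-, a, b⟩ <;> simp [a, b]
  · have m1 := t1 l
    have m2 := t2 l
    have m3 := t1 l'
    have m4 := t2 l'
    obtain ⟨n1, n2, -, n3⟩ := hP _ l.2
    obtain ⟨n4, n5, -⟩ := hP _ l'.2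
    rcases t3 l with ⟨d, a, b⟩ | ⟨c, a, b⟩ <;> rcases t3 l' with ⟨d', a', b'⟩ | ⟨c', a', b'⟩
    · rw [a] at m1 h
      rw [a'] at m3 h
      rw [b] at m2
      rw [b'] at m4
      rcases (ed_eq _ _).1 (Sum.inr.inj h) with rfl | rfl
      · exact Subtype.ext (Prod.ext (hd _ n1 _ n4 _ m1 m3) (hd _ n2 _ n5 _ m2 m4))
      · rw [αα] at m4
        exact absurd l'.2 (by
          rwa [← show l.1.swap = l'.1 from Prod.ext (hd _ n2 _ n4 _ m2 m3) (hd _ n1 _ n5 _ m1 m4)])
    · rw [a', a] at h; exact absurd h (by simp)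
    · rw [a', a] at h; exact absurd h (by simp)
    · exact Subtype.ext (hu _ l.2 _ l'.2 c c' (Sum.inl.inj (a.symm.trans (h.trans a'))))
  · rintro _ l ⟨d, rfl, i, h1, h2⟩ h
    have m1 := t1 l
    have m2 := t2 l
    obtain ⟨n1, n2, n3, -⟩ := hP _ l.2
    rcases t3 l with ⟨d', a, b⟩ | ⟨-, a, -⟩
    · rw [a] at m1 h
      rw [b] at m2
      rcases (ed_eq _ _).1 (Sum.inr.inj h) with rfl | rfl
      · exact n3 ((hd _ n1 _ i.2 _ m1 h1).trans (hd _ i.2 _ n2 _ h2 m2))
      · rw [αα] at m2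
        exact n3 ((hd _ n1 _ i.2 _ m1 h2).trans (hd _ i.2 _ n2 _ h1 m2))
    · rw [a] at h; exact absurd h (by simp)
  · rintro _ _ ⟨d, rfl, i, h1, h2⟩ ⟨d', rfl, -⟩ h
    rcases (ed_eq _ _).1 (Sum.inr.inj h) with rfl | rfl
    · rfl
    · exact ((hcl _ _).2 h1).trans ((hcl _ _).2 h2).symm
  · by_cases hn : (Y i).Nonempty
    swap
    · obtain ⟨w⟩ := Fintype.card_pos_iff.1 (lt_trans (by omega) (five (D := D)))
      obtain ⟨d, -⟩ := v_surj w
      exact ⟨f d, fun a h => absurd ⟨a, (hcl _ _).1 h⟩ hn⟩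
    obtain ⟨b, hb⟩ := hn
    refine ⟨b, fun a ha => (hc _ i.2).ind (P := fun a => ∃ z : D ⊕ D → ZMod 2,
      (∀ s, ¬(∃ d, s = Sum.inr d ∧ ∃ i : I, f d ∈ Y i ∧ f (α d) ∈ Y i) → z s = 0) ∧
      (∀ m, ∑ s with Sum.map v ed s = m, z s = 0) ∧ ∀ x, ∑ s with Sum.elim f f s = x, z s =
        (if a = x then 1 else 0) + if b = x then 1 else 0) ?_ hb ((hcl _ _).1 ha)
      ⟨fun _ => 0, fun _ _ => rfl, fun _ => sum_const_zero, fun _ => by
        rw [z2_add_self, sum_const_zero]⟩⟩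
    rintro d h1 h2 ⟨z, z1, z2, z3⟩
    refine ⟨fun s => z s + ((if Sum.inr d = s then 1 else 0) + if Sum.inr (α d) = s then 1 else 0),
      fun s hs => ?_, fun m => ?_, fun x => ?_⟩
    · beta_reduce
      rw [z1 s hs, if_neg fun k => hs ⟨d, k.symm, i, h1, h2⟩,
        if_neg fun k => hs ⟨α d, k.symm, i, h2, by rwa [αα]⟩, z2_add_self, z2_add_self]
    · simp only [sum_add_distrib, sum_ind, z2, Sum.map_inr, edα]
      split_ifs <;> rfl
    · simp only [sum_add_distrib, sum_ind, z3, Sum.elim_inr]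
      split_ifs <;> rfl
  · by_cases k : i ∈ I
    · simpa [inc, Subtype.ext_iff] using h ⟨i, k⟩
    · refine sum_eq_zero fun l _ => ?_
      simp only [inc]
      rw [if_neg fun m : l.1.1 = i => k (m ▸ (hP _ l.2).1),
        if_neg fun m : l.1.2 = i => k (m ▸ (hP _ l.2).2.1), add_zero, zero_mul]

/-- At most `3 v` links. -/
theorem t8 (hc : ∀ i ∈ I, Conn (Y i)) (hd : ∀ i ∈ I, ∀ j ∈ I, ∀ x ∈ Y i, x ∈ Y j → i = j)
    (hP : ∀ p ∈ P, p.1 ∈ I ∧ p.2 ∈ I ∧ p.1 ≠ p.2 ∧ p.swap ∉ P) (u : ι × ι → V D)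
    (hl : ∀ p ∈ P, Ad (Y p.1) (Y p.2) ∨ Tch (Y p.1) (u p) ∧ Tch (Y p.2) (u p))
    (hu : ∀ p ∈ P, ∀ q ∈ P, ¬Ad (Y p.1) (Y p.2) → ¬Ad (Y q.1) (Y q.2) → u p = u q → p = q) :
    #P ≤ 3 * #I := by
  rcases P.eq_empty_or_nonempty with rfl | ⟨p, hp⟩
  · simp
  have := links ⟨_, (hP p hp).1⟩ hc hd hP u hl hu 3 (girth3 (fun l => (hP _ l.2).2.2.1) (by
    rintro l l' (⟨a, b⟩ | ⟨a, b⟩)
    · exact Subtype.ext (Prod.ext a b)
    · exact absurd l'.2 (by
        rw [← show l.1.swap = l'.1 from Prod.ext b a]; exact (hP _ l.2).2.2.2)))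
  omega

/-- The bipartite bound. -/
theorem t8b {J : Finset ι} (hI : (I ∪ J).Nonempty) (hIJ : Disjoint I J)
    (hc : ∀ i ∈ I ∪ J, Conn (Y i))
    (hd : ∀ i ∈ I ∪ J, ∀ j ∈ I ∪ J, ∀ x ∈ Y i, x ∈ Y j → i = j)
    (hP : ∀ p ∈ P, p.1 ∈ I ∧ p.2 ∈ J) (u : ι × ι → V D)
    (hl : ∀ p ∈ P, Ad (Y p.1) (Y p.2) ∨ Tch (Y p.1) (u p) ∧ Tch (Y p.2) (u p))
    (hu : ∀ p ∈ P, ∀ q ∈ P, ¬Ad (Y p.1) (Y p.2) → ¬Ad (Y q.1) (Y q.2) → u p = u q → p = q) :
    #P < #I + #J ∨ #P + 4 ≤ 2 * (#I + #J) := by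
  have n : ∀ p ∈ P, ∀ q ∈ P, p.1 ≠ q.2 := fun p hp q hq h =>
    disjoint_left.1 hIJ (hP p hp).1 (h ▸ (hP q hq).2)
  have := links hI hc hd (fun p hp => ⟨mem_union_left _ (hP p hp).1, mem_union_right _ (hP p hp).2,
    n p hp p hp, fun h => n _ h p hp rfl⟩) u hl hu 4
    (girth4 (fun l l' => n _ l.2 _ l'.2) fun l l' a b => Subtype.ext (Prod.ext a b))
  rw [card_union_of_disjoint hIJ] at this
  omega

end

end PM

end Pool.Agent.MP_42ec7b_co

end MrgPart2

-- marker of a merged file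
example : 731051 + 757452 = 731051 + 757452 := rfl
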