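import Pool.Agent.MP_42ec7b_co.A.Planar
import Pool.Agent.MP_42ec7b_co.Top

-- ======== part 0: formerly Pool.Agent.MP_42ec7b_co.A.Chain
section MrgPart0

/-!
Walks, chains modulo two and the crossing lemma.
-/

set_option autoImplicit false

open Finset

namespace Pool.Agent.MP_42ec7b_co

open Classical

namespace PM

variable {D : Type} [PM D]

/-- Walks along darts in `E` that continue only from vertices in `N`. -/
def Rch (E : D → Prop) (N : V D → Prop) : V D → V D → Prop :=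
  Relation.ReflTransGen fun a b => N a ∧ ∃ d, E d ∧ v d = a ∧ v (α d) = b

section

variable {E E' : D → Prop} {N N' : V D → Prop} {a b c : V D} {d : D}

lemma Rch.refl : Rch E N a a := Relation.ReflTransGen.refl

lemma Rch.trans (h : Rch E N a b) (k : Rch E N b c) : Rch E N a c :=
  Relation.ReflTransGen.trans h k

lemma Rch.tail (h : Rch E N a (v d)) (h1 : N (v d)) (h2 : E d) : Rch E N a (v (α d)) :=
  Relation.ReflTransGen.tail h ⟨h1, d, h2, rfl, rfl⟩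

lemma Rch.one (h1 : N (v d)) (h2 : E d) : Rch E N (v d) (v (α d)) := Rch.refl.tail h1 h2

lemma Rch.ind {P : V D → Prop} (h : Rch E N a b) (h0 : P a)
    (hs : ∀ d, Rch E N a (v d) → N (v d) → E d → P (v d) → P (v (α d))) : P b := by
  induction h with
  | refl => exact h0
  | tail h1 h2 ih =>
    obtain ⟨k1, d, k2, rfl, rfl⟩ := h2
    exact hs d h1 k1 k2 ih

lemma Rch.mono (h : Rch E N a b)
    (hs : ∀ d, Rch E N a (v d) → N (v d) → E d → N' (v d) ∧ E' d) : Rch E' N' a b :=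
  h.ind (P := fun b => Rch E' N' a b) Rch.refl fun d k1 k2 k3 k4 =>
    k4.tail (hs d k1 k2 k3).1 (hs d k1 k2 k3).2

lemma Rch.last (h : Rch E N a b) :
    a = b ∨ ∃ d, Rch E N a (v d) ∧ N (v d) ∧ E d ∧ v (α d) = b :=
  h.ind (P := fun b => a = b ∨ ∃ d, Rch E N a (v d) ∧ N (v d) ∧ E d ∧ v (α d) = b) (Or.inl rfl)
    fun d k1 k2 k3 _ => Or.inr ⟨d, k1, k2, k3, rfl⟩

lemma Rch.first (h : Rch E N a b) :
    a = b ∨ N a ∧ ∃ d, E d ∧ v d = a ∧ Rch E N (v (α d)) b := by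
  rcases Relation.ReflTransGen.cases_head h with k | ⟨_, ⟨k1, d, k2, k3, rfl⟩, k4⟩
  exacts [Or.inl k, Or.inr ⟨k1, d, k2, k3, k4⟩]

lemma Rch.stop (h : Rch E N a b) (k : ¬N a) : a = b := h.first.resolve_right fun m => k m.1

/-- Reversal of a walk. -/
lemma Rch.rev (h : Rch E N a b) (hE : ∀ d, E d → E (α d)) (hN : ∀ r, N r → N' r) (hb : N' b) :
    Rch E N' b a :=
  h.ind (P := fun b => N' b → Rch E N' b a) (fun _ => Rch.refl) (fun d _ k2 k3 k4 k5 => by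
    have := Rch.one (E := E) (N := N') (d := α d) k5 (hE d k3)
    rw [αα] at this
    exact this.trans (k4 (hN _ k2))) hb

/-- Backward induction along a walk. -/
lemma Rch.back {P : V D → Prop} (h : Rch E N a b) (h0 : P b)
    (hs : ∀ d, Rch E N a (v d) → N (v d) → E d → P (v (α d)) → P (v d)) : P a :=
  h.ind (P := fun b => P b → P a) id (fun d k1 k2 k3 k4 k5 => k4 (hs d k1 k2 k3 k5)) h0

end

/-- An edge set modulo two with boundary `a + b`. -/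
def Ch (z : D → ZMod 2) (a b : V D) : Prop :=
  (∀ d, z (α d) = z d) ∧
    ∀ u, ∑ d with v d = u, z d = (if u = a then 1 else 0) + if u = b then 1 else 0

/-- The vertices are linked by a chain whose edges have a dart in `E`. -/
def Lk (E : D → Prop) (a b : V D) : Prop := ∃ z, Ch z a b ∧ ∀ d, z d = 1 → E d ∨ E (α d)

/-- Indicator of the two darts of an edge. -/
noncomputable def ind (c d : D) : ZMod 2 := (if c = d then 1 else 0) + if α c = d then 1 else 0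

lemma ind_α (c d : D) : ind c (α d) = ind c d := by
  unfold ind
  rw [add_comm]
  congr 2
  · exact propext α.injective.eq_iff
  · exact propext ⟨fun h => by rw [h, αα], fun h => by rw [← h, αα]⟩

lemma ind_self (c : D) : ind c c = 1 := by simp [ind, αne]

lemma ind_zero {c d : D} (h : c ≠ d) (h' : α c ≠ d) : ind c d = 0 := by simp [ind, h, h']

lemma ind_one {c d : D} (h : ind c d = 1) : d = c ∨ d = α c := by
  by_contra k
  rw [not_or] at k
  rw [ind_zero (Ne.symm k.1) (Ne.symm k.2)] at h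
  exact zero_ne_one h

lemma ind_sum_f (c : D) (x : F D) : ∑ d with f d = x, ind c d =
    (if f c = x then 1 else 0) + if f (α c) = x then 1 else 0 := by
  simp [ind, sum_add_distrib]

section

variable {E E' : D → Prop} {N : V D → Prop} {a b c : V D} {d : D} {z z' : D → ZMod 2}

lemma ch_ind (d : D) : Ch (ind d) (v d) (v (α d)) :=
  ⟨ind_α d, fun u => by simp [ind, sum_add_distrib, eq_comm]⟩

lemma ch_zero (a : V D) : Ch (fun _ : D => 0) a a :=
  ⟨fun _ => rfl, fun u => by rw [z2_add_self, sum_const_zero]⟩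

lemma Ch.symm (h : Ch z a b) : Ch z b a := ⟨h.1, fun u => by rw [h.2, add_comm]⟩

lemma Ch.add (h : Ch z a b) (k : Ch z' b c) : Ch (fun d => z d + z' d) a c :=
  ⟨fun d => by simp only [h.1, k.1], fun u => by
    rw [sum_add_distrib, h.2, k.2, add_assoc, ← add_assoc (if u = b then (1 : ZMod 2) else 0),
      z2_add_self, zero_add]⟩

lemma Ch.even (h : Ch z a a) (u : V D) : ∑ d with v d = u, z d = 0 := by rw [h.2, z2_add_self]

/-- A chain that is even everywhere has equal ends. -/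
lemma Ch.eq_of_even (h : Ch z a b) (k : ∑ d with v d = a, z d = 0) : a = b := by
  by_contra m
  rw [h.2, if_pos rfl, if_neg m, add_zero] at k
  exact one_ne_zero k

/-- A closed chain bounds a set of faces; the side of one face can be prescribed. -/
lemma Ch.side (h : Ch z a a) (x : F D) :
    ∃ y : F D → ZMod 2, y x = 0 ∧ ∀ d, z d = y (f d) + y (f (α d)) := by
  obtain ⟨y, hy⟩ := exact_f z h.1 h.even
  refine ⟨fun g => y g + y x, z2_add_self _, fun d => ?_⟩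
  rw [hy]
  beta_reduce
  generalize y (f d) = p
  generalize y (f (α d)) = q
  generalize y x = r
  revert p q r
  decide

/-- The crossing lemma. -/
lemma cross {R O : Finset (F D)} (hR : Conn R) (hO : Conn O) (h : Ch z a a)
    (h1 : ∀ d, f d ∈ R → f (α d) ∈ R → z d = 0) (h2 : ∀ d, f d ∈ O → f (α d) ∈ O → z d = 0)
    {d1 d2 : D} (a1 : f d1 ∈ R) (a2 : f (α d1) ∈ O) (b1 : f d2 ∈ R) (b2 : f (α d2) ∈ O) :
    z d1 = z d2 := by
  obtain ⟨y, hy⟩ := exact_f z h.1 h.even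
  rw [hy, hy, const_on hR y (fun d k1 k2 => z2_add_eq.1 ((hy d).symm.trans (h1 d k1 k2))) a1 b1,
    const_on hO y (fun d k1 k2 => z2_add_eq.1 ((hy d).symm.trans (h2 d k1 k2))) a2 b2]

lemma Lk.refl : Lk E a a := ⟨_, ch_zero a, fun _ h => absurd h zero_ne_one⟩

lemma Lk.symm (h : Lk E a b) : Lk E b a := by
  obtain ⟨z, h1, h2⟩ := h
  exact ⟨z, h1.symm, h2⟩

lemma Lk.trans (h : Lk E a b) (k : Lk E b c) : Lk E a c := by
  obtain ⟨z, h1, h2⟩ := h
  obtain ⟨z', k1, k2⟩ := k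
  refine ⟨_, h1.add k1, fun d hd => ?_⟩
  by_cases m : z d = 1
  · exact h2 d m
  · rw [z2_zero m, zero_add] at hd
    exact k2 d hd

lemma Lk.mono (h : Lk E a b) (k : ∀ d, E d → E' d ∨ E' (α d)) : Lk E' a b := by
  obtain ⟨z, h1, h2⟩ := h
  exact ⟨z, h1, fun d hd => (h2 d hd).elim (k d) fun m => by simpa [or_comm] using k _ m⟩

lemma Lk.one (h : E d) : Lk E (v d) (v (α d)) :=
  ⟨_, ch_ind d, fun c hc => by
    rcases ind_one hc with rfl | rfl
    exacts [Or.inl h, Or.inr (by rwa [αα])]⟩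

/-- The chain of a walk. -/
lemma Rch.lk (h : Rch E N a b) : Lk (fun d => E d ∧ N (v d) ∧ Rch E N a (v d)) a b :=
  h.ind (P := fun b => Lk (fun d => E d ∧ N (v d) ∧ Rch E N a (v d)) a b) Lk.refl
    fun _ k1 k2 k3 k4 => k4.trans (Lk.one ⟨k3, k2, k1⟩)

/-- The chain of a walk, with control of both ends of its edges. -/
lemma Rch.lk' (h : Rch E N a b) :
    Lk (fun d => E d ∧ N (v d) ∧ Rch E N a (v d) ∧ (N (v (α d)) ∨ v (α d) = b)) a b :=
  h.ind (P := fun b => Lk (fun d => E d ∧ N (v d) ∧ Rch E N a (v d) ∧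
    (N (v (α d)) ∨ v (α d) = b)) a b) Lk.refl fun _ k1 k2 k3 k4 =>
    (k4.mono fun _ m => Or.inl ⟨m.1, m.2.1, m.2.2.1, Or.inl (m.2.2.2.elim id fun m' => m' ▸ k2)⟩).trans
      (Lk.one ⟨k3, k2, k1, Or.inr rfl⟩)

/-- Vertices of a connected set of faces are joined along edges of these faces. -/
lemma facewalk {P : Finset (F D)} (hP : Conn P) (ha : Tch P a) (hb : Tch P b) :
    Rch (InE P) (fun _ => True) a b := by
  obtain ⟨c, rfl, h1⟩ := ha
  obtain ⟨c', rfl, h2⟩ := hb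
  have k : ∀ e e' : D, f e ∈ P → f e' = f e → Rch (InE P) (fun _ => True) (v e) (v e') :=
    fun e e' m1 m2 => face_ind (Q := fun e' => Rch (InE P) (fun _ => True) (v e) (v e')) Rch.refl
      (fun d m3 m4 => by rw [vφ]; exact m4.tail trivial (Or.inl (m3 ▸ m1))) m2
  exact hP.ind (P := fun g => ∀ e, f e = g → Rch (InE P) (fun _ => True) (v c) (v e))
    (fun d m1 m2 m3 e m4 => ((m3 d rfl).tail trivial (Or.inl m1)).trans (k _ e m2 m4)) h1 h2
    (fun e m => k c e h1 m) c' rfl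

lemma facelk {P : Finset (F D)} (hP : Conn P) (ha : Tch P a) (hb : Tch P b) :
    Lk (fun d => f d ∈ P) a b :=
  (facewalk hP ha hb).lk.mono fun _ h => h.1

/-- A closed chain on the boundary of a disc is empty or everything. -/
lemma bond {S : Finset (F D)} (hS : Disc S) (h : Ch z a a)
    (h1 : ∀ d, z d = 1 → Bd S d ∨ Bd S (α d)) {d1 d2 : D} (k1 : Bd S d1) (k2 : Bd S d2) :
    z d1 = z d2 :=
  cross hS.2.2.1 hS.2.2.2 h
    (fun d m1 m2 => z2_zero fun m => (h1 d m).elim (fun k => k.2 m2) fun k => k.2 (by rwa [αα]))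
    (fun d m1 m2 => z2_zero fun m => (h1 d m).elim (fun k => mem_compl.1 m1 k.1)
      fun k => mem_compl.1 m2 k.1) k1.1 (mem_compl.2 k1.2) k2.1 (mem_compl.2 k2.2)

end

end PM

end Pool.Agent.MP_42ec7b_co

end MrgPart0

-- ======== part 1: formerly Pool.Agent.MP_42ec7b_co.A.Frame
section MrgPart1

/-!
The boundary of a disc is a cycle.
-/

set_option autoImplicit false

open Finset

namespace Pool.Agent.MP_42ec7b_co

open Classical

namespace PM

variable {D : Type} [PM D]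

/-- The boundary darts of `S` and their ends in cyclic order (in one of the two directions). -/
structure Frm (S : Finset (F D)) (L : ℕ) (p : ℕ → V D) (dd : ℕ → D) : Prop where
  three : 3 ≤ L
  bd : ∀ i < L, Bd S (dd i)
  ends : ∀ i < L, v (dd i) = p i ∧ v (α (dd i)) = p (i + 1) ∨
    v (dd i) = p (i + 1) ∧ v (α (dd i)) = p i
  inj : ∀ i < L, ∀ j < L, p i = p j → i = j
  dinj : ∀ i < L, ∀ j < L, dd i = dd j → i = j
  per : p L = p 0
  sur : ∀ d, Bd S d → ∃ i < L, dd i = d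

variable {S R P : Finset (F D)} {L i j n : ℕ} {p : ℕ → V D} {dd : ℕ → D} {c c' d : D} {r t : V D}

lemma Bd.ne (h1 : Bd S c) (h2 : Bd S c') : c ≠ α c' := fun k => h2.2 (k ▸ h1.1)

lemma seg_aux (h1 : i ≤ j) (bd : ∀ n < j, Bd S (dd n))
    (ends : ∀ n < j, v (dd n) = p n ∧ v (α (dd n)) = p (n + 1) ∨
      v (dd n) = p (n + 1) ∧ v (α (dd n)) = p n)
    (dinj : ∀ a < j, ∀ b < j, dd a = dd b → a = b) : ∃ z, Ch z (p i) (p j) ∧
      ∀ d, z d = 1 ↔ ∃ n, i ≤ n ∧ n < j ∧ (d = dd n ∨ d = α (dd n)) := by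
  induction j, h1 using Nat.le_induction with
  | base => exact ⟨_, ch_zero _, fun d => iff_of_false zero_ne_one fun ⟨n, a, b, _⟩ => by omega⟩
  | succ j h1 ih =>
    obtain ⟨z, k1, k2⟩ := ih (fun n h => bd n (by omega)) (fun n h => ends n (by omega))
      fun a h b h' => dinj a (by omega) b (by omega)
    have k3 : Ch (ind (dd j)) (p j) (p (j + 1)) := by
      rcases ends j j.lt_succ_self with ⟨a, b⟩ | ⟨a, b⟩
      · rw [← a, ← b]; exact ch_ind _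
      · rw [← a, ← b]; exact (ch_ind _).symm
    refine ⟨_, k1.add k3, fun d => ?_⟩
    by_cases m : d = dd j ∨ d = α (dd j)
    · have m1 : z d = 0 := z2_zero fun k => by
        obtain ⟨n, a, b, k⟩ := (k2 d).1 k
        have b1 := bd n (by omega)
        have b2 := bd j j.lt_succ_self
        rcases m with rfl | rfl <;> rcases k with k | k
        · exact b.ne' (dinj _ j.lt_succ_self _ (by omega) k)
        · exact b2.ne b1 k
        · exact b1.ne b2 k.symm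
        · exact b.ne' (dinj _ j.lt_succ_self _ (by omega) (α.injective k))
      have m2 : ind (dd j) d = 1 := by
        rcases m with rfl | rfl
        exacts [ind_self _, (ind_α _ _).trans (ind_self _)]
      exact iff_of_true (by simp only [m1, m2, zero_add]) ⟨j, h1, j.lt_succ_self, m⟩
    · have m2 : ind (dd j) d = 0 := z2_zero fun k => m (ind_one k)
      simp only [m2, add_zero, k2]
      refine exists_congr fun n => and_congr_right fun _ => ⟨fun k => ⟨by omega, k.2⟩, fun k =>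
        ⟨(Nat.lt_succ_iff.1 k.1).lt_of_ne fun e => m (e ▸ k.2), k.2⟩⟩

lemma orient (hS : Disc S) (h : Bd S d) : ∃ L dd, Frm S L (fun n => v (dd n)) dd ∧ dd 0 = d ∧
    ∀ n, v (dd (n + 1)) = v (α (dd n)) := by
  have ex : ∀ c : {c : D // Bd S c}, ∃ c' : {c : D // Bd S c}, v c'.1 = v (α c.1) := fun c =>
    c.2.bv'.out.elim fun c' k => ⟨⟨c', k.2⟩, k.1⟩
  choose nx hn using ex
  obtain ⟨s, s0, s1, s2⟩ : ∃ s : ℕ → D, s 0 = d ∧ (∀ n, Bd S (s n)) ∧
      ∀ n, v (s (n + 1)) = v (α (s n)) :=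
    ⟨fun n => (nx^[n] ⟨d, h⟩).1, rfl, fun n => (nx^[n] ⟨d, h⟩).2, fun n => by
      simp only [Function.iterate_succ_apply', hn]⟩
  have ex : ∃ j, ∃ i < j, v (s i) = v (s j) := by
    obtain ⟨i, j, h1, h2⟩ := Set.Finite.exists_lt_map_eq_of_forall_mem (f := fun n => v (s n))
      (fun n => Set.mem_univ _) Set.finite_univ
    exact ⟨j, i, h1, h2⟩
  obtain ⟨i, h1, h2⟩ := Nat.find_spec ex
  have hm := fun n => Nat.find_min ex (m := n)
  generalize Nat.find ex = L at h1 h2 hm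
  have inj : ∀ a < L, ∀ b < L, v (s a) = v (s b) → a = b := fun a k1 b k2 k => by
    rcases lt_trichotomy a b with m | m | m
    exacts [absurd ⟨a, m, k⟩ (hm b k2), m, absurd ⟨b, m, k.symm⟩ (hm a k1)]
  have dinj : ∀ a < L, ∀ b < L, s a = s b → a = b := fun a k1 b k2 k => inj a k1 b k2 (by rw [k])
  obtain ⟨z, z1, z2⟩ := seg_aux (p := fun n => v (s n)) h1.le (fun n _ => s1 n)
    (fun n _ => Or.inl ⟨rfl, (s2 n).symm⟩) dinj
  simp only [← h2] at z1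
  have sur : ∀ c, Bd S c → ∃ n, i ≤ n ∧ n < L ∧ s n = c := fun c hc => by
    obtain ⟨n, a, b, k⟩ := (z2 c).1 ((bond hS z1 (fun e he => by
      obtain ⟨n, -, -, rfl | rfl⟩ := (z2 e).1 he
      exacts [Or.inl (s1 n), Or.inr (by rw [αα]; exact s1 n)]) hc (s1 i)).trans
      ((z2 _).2 ⟨i, le_rfl, h1, Or.inl rfl⟩))
    exact ⟨n, a, b, (k.resolve_right (hc.ne (s1 n))).symm⟩
  obtain rfl : i = 0 := by
    obtain ⟨n, a, b, k⟩ := sur _ (s1 0)
    have := dinj n b 0 (by omega) k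
    omega
  refine ⟨L, s, ⟨?_, fun n _ => s1 n, fun n _ => Or.inl ⟨rfl, (s2 n).symm⟩, inj, dinj, h2.symm,
    fun c hc => (sur c hc).imp fun n k => k.2⟩, s0, s2⟩
  by_contra k
  obtain rfl | rfl : L = 1 ∨ L = 2 := by omega
  · exact loop (s 0) ((s2 0).symm.trans h2.symm)
  · exact (s1 0).ne (s1 1) (simple _ _ (h2.trans (s2 1)) (by rw [αα]; exact (s2 0).symm))

/-- At most one boundary dart starts at a vertex. -/
theorem uniq (hS : Disc S) (h1 : Bd S c) (h2 : Bd S c') (h : v c = v c') : c = c' := by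
  obtain ⟨L, dd, fr, -⟩ := orient hS h1
  obtain ⟨a, k1, rfl⟩ := fr.sur c h1
  obtain ⟨b, k2, rfl⟩ := fr.sur c' h2
  rw [fr.inj a k1 b k2 h]

/-- The corners of a disc at a vertex form an interval. -/
theorem ivl (hS : Disc S) {Q : F D → Prop} (h : v c' = v c) (h1 : f c ∈ S) (h2 : f c' ∈ S)
    (hQ : ∀ d, v d = v c → f d ∈ S → f (α d) ∈ S → (Q (f d) ↔ Q (f (α d)))) :
    Q (f c) ↔ Q (f c') := by
  by_cases k : ∃ b, v b = v c ∧ Bd S b
  · obtain ⟨b, b1, b2⟩ := k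
    have key : ∀ e, v e = v c → f e ∈ S → (Q (f e) ↔ Q (f b)) := fun e m1 m2 =>
      (vert_ind (Q := fun d => f d ∈ S ∧ (Q (f e) ↔ Q (f d)) ∨ (Q (f e) ↔ Q (f b)))
        (Or.inl ⟨m2, Iff.rfl⟩) (fun d m3 m4 => m4.elim (fun m4 => by
          by_cases m5 : f (α d) ∈ S
          · rw [fρ]
            exact Or.inl ⟨m5, m4.2.trans (hQ d (m3.trans m1) m4.1 m5)⟩
          · exact Or.inr (uniq hS ⟨m4.1, m5⟩ b2 ((m3.trans m1).trans b1.symm) ▸ m4.2)) Or.inr)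
        (b1.trans m1.symm)).elim And.right id
    exact (key c rfl h1).trans (key c' h h2).symm
  · exact (round (P := fun g => g ∈ S ∧ (Q (f c) ↔ Q g)) h (fun d m1 m2 => by
      have m3 : f (α d) ∈ S := by_contra fun m => k ⟨d, m1, m2.1, m⟩
      exact ⟨m3, m2.2.trans (hQ d m1 m2.1 m3)⟩) ⟨h1, Iff.rfl⟩).2

/-- A frame that starts with a given boundary dart at a given end. -/
theorem exists_frm (hS : Disc S) (h : Bd S d) (ht : t = v d ∨ t = v (α d)) :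
    ∃ L p dd, Frm S L p dd ∧ dd 0 = d ∧ p 0 = t := by
  rcases ht with rfl | rfl
  · obtain ⟨L, dd, fr, k, -⟩ := orient hS h
    exact ⟨L, _, dd, fr, k, by rw [k]⟩
  · obtain ⟨L, dd, fr, k, k'⟩ := orient hS.compl h.compl
    refine ⟨L, fun n => v (dd n), fun n => α (dd n), ⟨fr.three, fun n m => ?_, fun n _ =>
      Or.inr ⟨(k' n).symm, by rw [αα]⟩, fr.inj, fun a m b m' e => fr.dinj a m b m' (α.injective e),
      fr.per, fun c hc => ?_⟩, by simp only [k, αα], by simp only [k]⟩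
    · simpa using (fr.bd n m).compl
    · obtain ⟨n, m, e⟩ := fr.sur _ hc.compl
      exact ⟨n, m, by simp only [e, αα]⟩

namespace Frm

variable (fr : Frm S L p dd)

include fr

lemma tch (h : i < L) (k : InE P (dd i)) : Tch P (p i) ∧ Tch P (p (i + 1)) := by
  rcases fr.ends i h with ⟨a, b⟩ | ⟨a, b⟩ <;> rw [← a, ← b]
  exacts [⟨k.tch, k.tch'⟩, ⟨k.tch', k.tch⟩]

lemma bv (h : i ≤ L) : BV S (p i) := by
  have k : ∀ i < L, BV S (p i) := fun i h => ⟨(fr.tch h (Or.inl (fr.bd i h).1)).1,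
    (fr.tch h (Or.inr (mem_compl.2 (fr.bd i h).2))).1⟩
  rcases h.lt_or_eq with h | rfl
  · exact k i h
  · rw [fr.per]; exact k 0 (by have := fr.three; omega)

lemma vs (h : BV S r) : ∃ i < L, p i = r := by
  obtain ⟨d, rfl, k⟩ := h.out
  obtain ⟨i, k1, rfl⟩ := fr.sur d k
  rcases fr.ends i k1 with ⟨a, -⟩ | ⟨a, -⟩
  · exact ⟨i, k1, a.symm⟩
  · rcases (Nat.succ_le_of_lt k1).lt_or_eq with m | m
    · exact ⟨_, m, a.symm⟩
    · exact ⟨0, by omega, by rw [a, ← fr.per, ← m]⟩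

/-- Injectivity on the indices `1, ..., L`. -/
lemma inj' (h1 : 0 < i) (h2 : i ≤ L) (h3 : 0 < j) (h4 : j ≤ L) (h : p i = p j) : i = j := by
  rcases h2.lt_or_eq with a | rfl <;> rcases h4.lt_or_eq with b | rfl
  · exact fr.inj i a j b h
  · have := fr.inj i a 0 (by omega) (h.trans fr.per); omega
  · have := fr.inj j b 0 (by omega) (h.symm.trans fr.per); omega
  · rfl

/-- An end of the edge number `n`. -/
lemma vend (h : n < L) (k : d = dd n ∨ d = α (dd n)) : v d = p n ∨ v d = p (n + 1) := by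
  rcases k with rfl | rfl <;> rcases fr.ends n h with ⟨a, b⟩ | ⟨a, b⟩
  exacts [Or.inl a, Or.inr a, Or.inr b, Or.inl b]

lemma fwd {E : D → Prop} {N : V D → Prop} (h : i < L) (h1 : E (dd i)) (h2 : E (α (dd i)))
    (h3 : N (p i)) : Rch E N (p i) (p (i + 1)) := by
  rcases fr.ends i h with ⟨a, b⟩ | ⟨a, b⟩
  · rw [← a, ← b]; exact Rch.one (a ▸ h3) h1
  · have := Rch.one (E := E) (N := N) (b ▸ h3) h2
    rwa [αα, a, b] at this

lemma bwd {E : D → Prop} {N : V D → Prop} (h : i < L) (h1 : E (dd i)) (h2 : E (α (dd i)))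
    (h3 : N (p (i + 1))) : Rch E N (p (i + 1)) (p i) := by
  rcases fr.ends i h with ⟨a, b⟩ | ⟨a, b⟩
  · have := Rch.one (E := E) (N := N) (b ▸ h3) h2
    rwa [αα, a, b] at this
  · rw [← a, ← b]; exact Rch.one (a ▸ h3) h1

/-- The chain of a segment. -/
lemma seg (h1 : i ≤ j) (h2 : j ≤ L) : ∃ z, Ch z (p i) (p j) ∧
    ∀ d, z d = 1 ↔ ∃ n, i ≤ n ∧ n < j ∧ (d = dd n ∨ d = α (dd n)) :=
  seg_aux h1 (fun n h => fr.bd n (by omega)) (fun n h => fr.ends n (by omega))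
    fun a h b h' => fr.dinj a (by omega) b (by omega)

lemma arc_aux {E : D → Prop} {n1 n2 : ℕ} (a1 : i ≤ n1) (a2 : n1 < j) (a3 : j ≤ L)
    (a4 : n2 < i ∨ j ≤ n2) (a5 : n2 < L) (h : Lk E (p i) (p j))
    (b1 : ¬(E (dd n1) ∨ E (α (dd n1)))) (b2 : ¬(E (dd n2) ∨ E (α (dd n2)))) :
    ∃ z a, Ch z a a ∧ z (dd n1) ≠ z (dd n2) ∧
      ∀ d, ¬(E d ∨ E (α d)) → (f d ∈ S ↔ f (α d) ∈ S) → z d = 0 := by
  obtain ⟨z, z1, z2⟩ := fr.seg (a1.trans a2.le) a3
  obtain ⟨w, w1, w2⟩ := h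
  have k : ∀ d, ¬(E d ∨ E (α d)) → w d = 0 := fun d m => z2_zero fun m' => m (w2 d m')
  refine ⟨_, _, z1.add w1.symm, ?_, fun d m1 m2 => ?_⟩
  · have e1 : z (dd n1) = 1 := (z2 _).2 ⟨n1, a1, a2, Or.inl rfl⟩
    have e2 : z (dd n2) = 0 := z2_zero fun m => by
      obtain ⟨n, m1, m2, m3 | m3⟩ := (z2 _).1 m
      · have := fr.dinj _ a5 _ (by omega) m3; omega
      · exact (fr.bd _ a5).ne (fr.bd n (by omega)) m3
    simp only [e1, e2, k _ b1, k _ b2, add_zero]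
    exact one_ne_zero
  · have e : z d = 0 := z2_zero fun m => by
      obtain ⟨n, -, m4, rfl | rfl⟩ := (z2 _).1 m
      · exact (fr.bd n (by omega)).2 (m2.1 (fr.bd n (by omega)).1)
      · rw [αα] at m2
        exact (fr.bd n (by omega)).2 (m2.2 (fr.bd n (by omega)).1)
    simp only [e, k d m1, add_zero]

/-- No crossing inside the disc. -/
lemma arc_in (hS : Conn Sᶜ) (hR : Conn R) (k : R ⊆ S) {n1 n2 : ℕ} (a1 : i ≤ n1) (a2 : n1 < j)
    (a3 : j ≤ L) (a4 : n2 < i ∨ j ≤ n2) (a5 : n2 < L) (b1 : f (dd n1) ∈ R) (b2 : f (dd n2) ∈ R)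
    (h : Lk (fun d => f d ∈ S ∧ f d ∉ R) (p i) (p j)) : False := by
  have c1 := (fr.bd n1 (by omega)).2
  have c2 := (fr.bd n2 a5).2
  obtain ⟨z, a, z1, z2, z3⟩ := fr.arc_aux a1 a2 a3 a4 a5 h
    (fun m => m.elim (fun m => m.2 b1) fun m => c1 m.1)
    fun m => m.elim (fun m => m.2 b2) fun m => c2 m.1
  exact z2 (cross hR hS z1 (fun d m1 m2 => z3 d (fun m => m.elim (fun m => m.2 m1) fun m => m.2 m2)
    (iff_of_true (k m1) (k m2))) (fun d m1 m2 => z3 d (fun m => m.elim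
      (fun m => mem_compl.1 m1 m.1) fun m => mem_compl.1 m2 m.1)
      (iff_of_false (mem_compl.1 m1) (mem_compl.1 m2))) b1 (mem_compl.2 c1) b2 (mem_compl.2 c2))

/-- No crossing outside the disc. -/
lemma arc_out (hS : Conn S) (hR : Conn R) (k : R ⊆ Sᶜ) {n1 n2 : ℕ} (a1 : i ≤ n1) (a2 : n1 < j)
    (a3 : j ≤ L) (a4 : n2 < i ∨ j ≤ n2) (a5 : n2 < L) (b1 : f (α (dd n1)) ∈ R)
    (b2 : f (α (dd n2)) ∈ R) (h : Lk (fun d => f d ∉ S ∧ f d ∉ R) (p i) (p j)) : False := by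
  have c1 := (fr.bd n1 (by omega)).1
  have c2 := (fr.bd n2 a5).1
  obtain ⟨z, a, z1, z2, z3⟩ := fr.arc_aux a1 a2 a3 a4 a5 h
    (fun m => m.elim (fun m => m.1 c1) fun m => m.2 b1)
    fun m => m.elim (fun m => m.1 c2) fun m => m.2 b2
  exact z2 (cross hS hR z1 (fun d m1 m2 => z3 d (fun m => m.elim (fun m => m.1 m1) fun m => m.1 m2)
    (iff_of_true m1 m2)) (fun d m1 m2 => z3 d (fun m => m.elim (fun m => m.2 m1) fun m => m.2 m2)
      (iff_of_false (mem_compl.1 (k m1)) (mem_compl.1 (k m2)))) c1 b1 c2 b2)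

end Frm

end PM

end Pool.Agent.MP_42ec7b_co

end MrgPart1

-- ======== part 2: formerly Pool.Agent.MP_42ec7b_co.A.Face
section MrgPart2

/-!
Faces are discs; cycles around discs.
-/

set_option autoImplicit false

open Finset

namespace Pool.Agent.MP_42ec7b_co

open Classical

namespace PM

variable {D : Type} [PM D] {d d' : D}

/-- Every vertex has degree at least four. -/
lemma face_deg (d : D) : ¬(ρ (ρ (ρ d)) = d ∨ ρ (ρ (ρ d)) = ρ d) := fun h => by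
  have k : ∀ c, v c = v d → c = d ∨ c = ρ d ∨ c = ρ (ρ d) := fun c hc =>
    vert_ind (Q := fun c => c = d ∨ c = ρ d ∨ c = ρ (ρ d)) (Or.inl rfl) (fun c _ m => by
      rcases m with rfl | rfl | rfl
      exacts [Or.inr (Or.inl rfl), Or.inr (Or.inr rfl), h.imp_right Or.inl]) hc
  obtain ⟨w, h1, h2, h3, h4⟩ := exists_ne4 (v d) (v (α d)) (v (α (ρ d))) (v (α (ρ (ρ d))))
  refine h1 (c4 {v d} _ _ _ (fun c m _ => ?_) (v d) rfl (loop d).symm
    (by simpa using (loop (ρ d)).symm) (by simpa using (loop (ρ (ρ d))).symm) w h2 h3 h4)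
  rcases k c m with rfl | rfl | rfl
  exacts [Or.inl rfl, Or.inr (Or.inl rfl), Or.inr (Or.inr rfl)]

lemma ρne (d : D) : ρ d ≠ d := fun h => face_deg d (Or.inl (by rw [h, h, h]))

lemma ρρne (d : D) : ρ (ρ d) ≠ d := fun h => face_deg d (Or.inr (by rw [h]))

lemma ρρρne (d : D) : ρ (ρ (ρ d)) ≠ d := fun h => face_deg d (Or.inl h)

/-- A face meets a vertex at most once. -/
theorem eq_of_fv (h : f d = f d') (h' : v d = v d') : d = d' := by
  by_contra hne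
  have ex := ((v_eq _ _).1 h').exists_nat_pow_eq
  have hk := Nat.find_spec ex
  have hm := fun i => Nat.find_min ex (m := i)
  generalize Nat.find ex = k at hk hm
  have k0 : 0 < k := Nat.pos_of_ne_zero fun m => hne (by rw [← hk, m]; rfl)
  have na : ∀ (i : ℕ) (c : D), v c = v d → α ((ρ ^ i) d) ≠ c := fun i c m m' =>
    loop ((ρ ^ i) d) (by rw [m', m, vρpow])
  have tel : ∀ (x : F D) (n : ℕ), ∑ c with f c = x, ∑ i ∈ range n, ind ((ρ ^ i) d) c =
      (if f d = x then 1 else 0) + if f ((ρ ^ n) d) = x then 1 else 0 := fun x n => by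
    induction n with
    | zero => simp [z2_add_self]
    | succ n ih =>
      simp only [sum_range_succ]
      rw [sum_add_distrib, ih, ind_sum_f, pow_succ', Equiv.Perm.mul_apply, fρ, add_assoc,
        ← add_assoc (if f ((ρ ^ n) d) = x then (1 : ZMod 2) else 0), z2_add_self, zero_add]
  obtain ⟨y, hy⟩ := exact_v (fun c => ∑ i ∈ range k, ind ((ρ ^ i) d) c)
    (fun c => sum_congr rfl fun i _ => ind_α _ _) fun x => by rw [tel, hk, h, z2_add_self]
  have e1 : y (v d) + y (v (α d)) = 1 := by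
    rw [← hy, sum_eq_single 0 (fun i hi hi' => ind_zero (fun m => ?_) (na i d rfl))
      fun m => absurd (mem_range.2 k0) m]
    · exact ind_self d
    · have := mem_range.1 hi
      refine hm (k - i) (by omega) ?_
      rw [← hk]
      conv_lhs => rw [← m, ← Equiv.Perm.mul_apply, ← pow_add, Nat.sub_add_cancel this.le]
  have e2 : y (v d') + y (v (α d')) = 0 := by
    rw [← hy]
    exact sum_eq_zero fun i hi => ind_zero (hm i (mem_range.1 hi)) (na i d' h'.symm)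
  refine c4 {r | y r ≠ y (v d)} (v d) (v d) (v d) (fun c m1 m2 => Or.inl ?_) (v (α d))
    (fun m => ?_) (loop d) (loop d) (loop d) (v (α d')) (h' ▸ loop d') (h' ▸ loop d')
    (h' ▸ loop d') (by rw [h']; exact (z2_add_eq.1 e2).symm)
  · have m3 : ∑ i ∈ range k, ind ((ρ ^ i) d) c ≠ 0 := fun m =>
      m1 ((z2_add_eq.1 ((hy c).symm.trans m)).trans (not_not.1 m2))
    obtain ⟨i, -, m4⟩ := exists_ne_zero_of_sum_ne_zero m3
    rcases ind_one ((z2_cases _).resolve_left m4) with rfl | rfl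
    · exact absurd (congrArg y (vρpow i d)) m1
    · rw [αα, vρpow]
  · rw [m, z2_add_self] at e1
    exact zero_ne_one e1

/-- No face is adjacent to itself. -/
theorem s0 (d : D) : f (α d) ≠ f d := fun h => ρne d (eq_of_fv ((fρ d).trans h) (vρ d))

theorem conn_erase (x : F D) : Conn (univ.erase x) := by
  intro A hA hne hc
  by_cases h : ∃ c, f c = x ∧ f (α c) ∈ A
  · obtain ⟨c0, rfl, h0⟩ := h
    have key : ∀ c, f c = f c0 → f (α c) ∈ A := fun c m =>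
      face_ind (Q := fun c => f (α c) ∈ A) h0 (fun c m1 m2 => by
        by_contra m3
        refine (vert_ind (Q := fun e => e = φ c ∨ f e ∉ A) (c0 := φ c) (c := α c) (Or.inl rfl)
          (fun e k1 k2 => Or.inr ?_) (vφ c).symm).elim (fun k => ρne (α c) k.symm) fun k => k m2
        rw [fρ]
        by_cases k3 : e = φ c
        · rwa [k3]
        · exact fun k4 => k2.resolve_left k3 (hc.symm e k4 (mem_erase.2
            ⟨fun k5 => k3 (eq_of_fv (by rw [k5, fφ, m1]) k1), mem_univ _⟩))) m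
    intro g hg
    refine (mem_insert.1 (conn_univ (insert (f c0) A) (subset_univ _) (insert_nonempty _ _)
      (fun d k1 _ => ?_) (mem_univ g))).resolve_left (mem_erase.1 hg).1
    rcases mem_insert.1 k1 with k | k
    · exact mem_insert_of_mem (key d k)
    · by_cases k2 : f (α d) = f c0
      · exact mem_insert.2 (Or.inl k2)
      · exact mem_insert_of_mem (hc d k (mem_erase.2 ⟨k2, mem_univ _⟩))
  · exact (subset_univ _).trans (conn_univ A (subset_univ _) hne fun d k _ =>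
      hc d k (mem_erase.2 ⟨fun m => h ⟨α d, m, by rwa [αα]⟩, mem_univ _⟩))

theorem disc_single (x : F D) : Disc {x} := by
  obtain ⟨d, rfl⟩ := f_surj x
  exact ⟨singleton_nonempty _, ⟨f (α d), by simpa using s0 d⟩, conn_single _,
    by rw [compl_singleton]; exact conn_erase _⟩

lemma face_v1 (d : D) : v (φ d) ≠ v d := by rw [vφ]; exact loop d

lemma face_v2 (d : D) : v (φ (φ d)) ≠ v d := fun h =>
  ρne (α d) (simple (φ d) (α d) (vφ d) (by rw [αα, ← vφ, h]))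

lemma face_pick {X : Type} {P : X → Prop} {p q r s : X} (h1 : P p) (h2 : P q) (h3 : P r)
    (h4 : P s) (n1 : q ≠ p) (n2 : r ≠ p) (n3 : s ≠ p) (n4 : r ≠ q) (n5 : s ≠ q) (n6 : s ≠ r)
    (a b c : X) : ∃ t, P t ∧ t ≠ a ∧ t ≠ b ∧ t ≠ c := by
  by_contra k
  have m : ∀ t, P t → t = a ∨ t = b ∨ t = c := fun t ht => by
    by_contra m
    simp only [not_or] at m
    exact k ⟨t, ht, m⟩
  have := m p h1
  have := m q h2
  have := m r h3
  have := m s h4
  grind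

/-- Four vertices touch two adjacent faces. -/
theorem four_pair (d : D) (a b c : V D) :
    ∃ r, Tch {f d, f (α d)} r ∧ r ≠ a ∧ r ≠ b ∧ r ≠ c := by
  have t : ∀ e, f e = f d → Tch {f d, f (α d)} (v e) := fun e h => tch_v (by simp [h])
  by_cases h : φ (φ (φ d)) = d
  · refine face_pick (t d rfl) (t (φ d) (by simp)) (t (φ (φ d)) (by simp))
      (tch_α (c := ρ d) (by simp)) (face_v1 d) (face_v2 d) (by simpa using loop (ρ d))
      (face_v1 _) (fun k => ρne d (simple _ _ (vρ d) (k.trans (vφ d)))) (fun k => ρρne d ?_) a b c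
    rw [simple (ρ d) (α (φ (φ d))) (by rw [vρ, ← vφ, h]) (by rw [αα, k])]
    exact h
  · exact face_pick (t d rfl) (t (φ d) (by simp)) (t (φ (φ d)) (by simp))
      (t (φ (φ (φ d))) (by simp)) (face_v1 d) (face_v2 d) (fun k => h (eq_of_fv (by simp) k))
      (face_v1 _) (face_v2 _) (face_v1 _) a b c

/-- The boundary of a disc is a cycle of the graph. -/
theorem cyc {S : Finset (F D)} (hS : Disc S) : HasCyc (Γ D) #(univ.filter (Bd S)) := by
  obtain ⟨d, hd⟩ := exists_bd hS.1 hS.2.1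
  obtain ⟨L, p, dd, fr, -⟩ := exists_frm hS hd (Or.inl rfl)
  have e : univ.filter (Bd S) = (range L).image dd := by
    ext c
    simp only [mem_filter, mem_univ, true_and, mem_image, mem_range]
    exact ⟨fr.sur c, fun ⟨i, h1, h2⟩ => h2 ▸ fr.bd i h1⟩
  rw [e, card_image_of_injOn fun i hi j hj => fr.dinj i (by simpa using hi) j (by simpa using hj),
    card_range]
  obtain ⟨n, rfl⟩ := Nat.exists_eq_add_of_le' fr.three
  refine (hasCyc_iff _ _).2 ⟨fun i => p i, fun i j h => Fin.ext (fr.inj i i.2 j j.2 h), fun i => ?_⟩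
  have e' : p ((i + 1 : Fin (n + 3)) : ℕ) = p (i + 1) := by
    rw [Fin.val_add, Fin.val_one]
    rcases (Nat.succ_le_of_lt i.2).lt_or_eq with k | k
    · rw [Nat.mod_eq_of_lt k]
    · rw [show (i : ℕ) + 1 = n + 3 from k, Nat.mod_self, fr.per]
  simp only [e']
  rcases fr.ends i i.2 with k | k
  exacts [⟨_, k⟩, ⟨α (dd i), k.2, by rw [αα, k.1]⟩]

end PM

end Pool.Agent.MP_42ec7b_co

end MrgPart2

-- ======== part 3: formerly Pool.Agent.MP_42ec7b_co.A.Split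
section MrgPart3

/-!
A connected set of faces is covered by at most as many discs as it has holes.
-/

set_option autoImplicit false

open Finset

namespace Pool.Agent.MP_42ec7b_co

open Classical

namespace PM

variable {D : Type} [PM D] {K O O' K1 K2 S Z : Finset (F D)} {x y : F D}

/-- A component of `S`. -/
def Cmp (S Z : Finset (F D)) : Prop := Z ⊆ S ∧ Z.Nonempty ∧ Conn Z ∧ Cl S Z

/-- The components of the complement. -/
noncomputable def holes (K : Finset (F D)) : Finset (Finset (F D)) := univ.filter (Cmp Kᶜ)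

lemma mem_holes : O ∈ holes K ↔ Cmp Kᶜ O := by simp [holes]

lemma exists_cmp (hx : x ∈ S) : ∃ Z, Cmp S Z ∧ x ∈ Z := by
  obtain ⟨Z, h1, h2, h3, h4⟩ := exists_comp hx
  exact ⟨Z, ⟨h1, ⟨x, h2⟩, h3, h4⟩, h2⟩

lemma Cmp.eq (h : Cmp S O) (h' : Cmp S O') (k : x ∈ O) (k' : x ∈ O') : O = O' :=
  (h.2.2.1.sub h.1 h'.2.2.2 k k').antisymm (h'.2.2.1.sub h'.1 h.2.2.2 k' k)

lemma Cmp.nK (h : Cmp Kᶜ O) (k : x ∈ O) : x ∉ K := mem_compl.1 (h.1 k)

lemma Cmp.out (h : Cmp Kᶜ O) {d : D} (k : f d ∈ O) (k' : f (α d) ∉ O) : f (α d) ∈ K :=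
  by_contra fun m => k' (h.2.2.2 d k (mem_compl.2 m))

/-- Every hole is adjacent to the set. -/
lemma Cmp.ad (h : Cmp Kᶜ O) (hK : K.Nonempty) : Ad O K := by
  obtain ⟨d, k1, k2⟩ := exists_bd h.2.1 (hK.mono fun g hg => mem_compl.2 fun m => h.nK m hg)
  exact ⟨d, k1, h.out k1 k2⟩

/-- A hole has at least two neighbours. -/
lemma Cmp.nb2 (h : Cmp Kᶜ O) (h' : Cmp Kᶜ O') (hne : O ≠ O') (hx : x ∈ K) : Ad O (K.erase x) := by
  obtain ⟨w, hw⟩ := h'.2.1
  obtain ⟨d, k1, k2, k3⟩ := (conn_erase x).exit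
    (fun g hg => mem_erase.2 ⟨fun m => h.nK hg (m ▸ hx), mem_univ _⟩) h.2.1
    fun m => hne (h.eq h' (m (mem_erase.2 ⟨fun m' : w = x => h'.nK hw (m' ▸ hx), mem_univ _⟩)) hw)
  exact ⟨d, k1, mem_erase.2 ⟨(mem_erase.1 k2).1, h.out k1 k3⟩⟩

/-- A connected set with two faces has a face that is not a cut face. -/
lemma exists_noncut (hK : Conn K) (hx : x ∈ K) (hy : y ∈ K) (hne : x ≠ y) :
    ∃ g ∈ K, Conn (K.erase g) := by
  obtain ⟨J, ⟨h1, h2, h3, h4⟩, hm⟩ := Set.exists_max_image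
    {J : Finset (F D) | J ⊆ K ∧ J.Nonempty ∧ Conn J ∧ ¬K ⊆ J} card (Set.toFinite _)
    ⟨{x}, singleton_subset_iff.2 hx, singleton_nonempty x, conn_single x,
      fun m => hne (mem_singleton.1 (m hy)).symm⟩
  obtain ⟨d, k1, k2, k3⟩ := hK.exit h1 h2 h4
  refine ⟨_, k2, ?_⟩
  have e : K ⊆ insert (f (α d)) J := by
    by_contra m
    have := hm _ ⟨insert_subset k2 h1, insert_nonempty _ _, conn_insert h3 (by rwa [αα]), m⟩
    rw [card_insert_of_notMem k3] at this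
    omega
  have e' : K.erase (f (α d)) = J := (subset_insert_iff.1 e).antisymm fun g hg =>
    mem_erase.2 ⟨fun m => k3 (m ▸ hg), h1 hg⟩
  rwa [e']

/-- Removing a component of `S - y` from a larger connected set. -/
lemma conn_cut {P T : Finset (F D)} (hT : Conn T) (hP : Conn P) (hy : y ∈ P) (h : Cmp (S.erase y) Z)
    (h1 : P ⊆ T \ Z) (h2 : T ⊆ S ∪ P) : Conn (T \ Z) :=
  conn_sdiff hT hP ⟨y, hy⟩ h1 fun d k1 k2 k3 => (mem_union.1 (h2 k2)).elim
    (fun m => by_contra fun m' =>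
      k3 (h.2.2.2 d k1 (mem_erase.2 ⟨fun e => m' (e ▸ hy), m⟩))) id

/-- A connected set with two holes has two connected parts that both see two holes. -/
theorem split_holes (hK : Conn K) (hne : K.Nonempty) (h : Cmp Kᶜ O) (h' : Cmp Kᶜ O')
    (hO : O ≠ O') : ∃ K2 ⊆ K, Conn K2 ∧ Conn (K \ K2) ∧ ∃ O1 O2, Cmp Kᶜ O1 ∧ Cmp Kᶜ O2 ∧ O1 ≠ O2 ∧
      Ad O1 K2 ∧ Ad O2 K2 ∧ Ad O1 (K \ K2) ∧ Ad O2 (K \ K2) := by
  obtain ⟨K2, ⟨a1, a2, a3, a4, O1, O2, b1, b2, b3, b4, b5⟩, hm⟩ := Set.exists_max_image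
    {J : Finset (F D) | J ⊆ K ∧ J.Nonempty ∧ Conn J ∧ Conn (K \ J) ∧ ∃ O1 O2, Cmp Kᶜ O1 ∧
      Cmp Kᶜ O2 ∧ O1 ≠ O2 ∧ Ad O1 (K \ J) ∧ Ad O2 (K \ J)} card (Set.toFinite _) (by
    obtain ⟨x, hx⟩ := hne
    obtain ⟨d, -, k⟩ := h.nb2 h' hO hx
    obtain ⟨g, k1, k2⟩ := exists_noncut hK hx (mem_erase.1 k).2 (mem_erase.1 k).1.symm
    exact ⟨{g}, singleton_subset_iff.2 k1, singleton_nonempty g, conn_single g,
      by rwa [sdiff_singleton_eq_erase], O, O', h, h', hO,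
      by rw [sdiff_singleton_eq_erase]; exact h.nb2 h' hO k1,
      by rw [sdiff_singleton_eq_erase]; exact h'.nb2 h hO.symm k1⟩)
  by_contra hn
  have key : ∀ y ∈ K \ K2, Ad {y} K2 → ∀ Z, Cmp ((K \ K2).erase y) Z → ∀ P1 P2, Cmp Kᶜ P1 →
      Cmp Kᶜ P2 → Ad P1 Z → Ad P2 Z → P1 = P2 := fun y y1 y2 Z z P1 P2 p1 p2 p3 p4 => by
    by_contra p5
    have zs : Z ⊆ K \ K2 := z.1.trans (erase_subset _ _)
    have s : insert y K2 ⊆ K \ Z := insert_subset
      (mem_sdiff.2 ⟨(mem_sdiff.1 y1).1, fun m => (mem_erase.1 (z.1 m)).1 rfl⟩)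
      fun g hg => mem_sdiff.2 ⟨a1 hg, fun m => (mem_sdiff.1 (zs m)).2 hg⟩
    have e : K \ (K \ Z) = Z := Finset.sdiff_sdiff_eq_self (zs.trans sdiff_subset)
    have c : Conn (insert y K2) := by
      obtain ⟨d, d1, d2⟩ := y2
      rw [← mem_singleton.1 d1]
      exact conn_insert a3 d2
    have := hm (K \ Z) ⟨sdiff_subset, ⟨y, s (mem_insert_self _ _)⟩,
      conn_cut hK c (mem_insert_self _ _) z s fun g hg => by
        by_cases m : g ∈ K2
        exacts [mem_union_right _ (mem_insert_of_mem m), mem_union_left _ (mem_sdiff.2 ⟨hg, m⟩)],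
      by rw [e]; exact z.2.2.1, P1, P2, p1, p2, p5, by rwa [e], by rwa [e]⟩
    have := card_le_card s
    rw [card_insert_of_notMem (mem_sdiff.1 y1).2] at this
    omega
  have main : ∀ P P', Cmp Kᶜ P → Cmp Kᶜ P' → P ≠ P' → Ad P' (K \ K2) → Ad P K2 := by
    intro P P' p p' pn pa
    by_contra pk
    have cA : ∀ y ∈ K \ K2, Ad {y} K2 → ∃ Z, Cmp ((K \ K2).erase y) Z ∧ Ad P Z ∧ Ad Z K2 := by
      intro y y1 y2
      obtain ⟨w, hw⟩ := p'.2.1
      obtain ⟨d, k1, k2, k3⟩ := (conn_erase y).exit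
        (K := P ∪ univ.filter fun g => ∃ Z, Cmp ((K \ K2).erase y) Z ∧ Ad P Z ∧ g ∈ Z)
        (fun g hg => mem_erase.2 ⟨(mem_union.1 hg).elim
          (fun m e => p.nK m (e ▸ (mem_sdiff.1 y1).1))
          fun m => (mem_filter.1 m).2.elim fun Z z => (mem_erase.1 (z.1.1 z.2.2)).1, mem_univ _⟩)
        (p.2.1.mono subset_union_left) fun m => by
          rcases mem_union.1 (m (mem_erase.2 ⟨fun e : w = y => p'.nK hw (e ▸ (mem_sdiff.1 y1).1),
            mem_univ w⟩)) with m | m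
          · exact pn (p.eq p' m hw)
          · obtain ⟨Z, z1, -, z3⟩ := (mem_filter.1 m).2
            exact p'.nK hw (mem_sdiff.1 (mem_erase.1 (z1.1 z3)).2).1
      simp only [mem_union, mem_filter, mem_univ, true_and, not_or] at k1 k3
      rcases k1 with k1 | ⟨Z, z1, z2, z3⟩
      · obtain ⟨Z, z1, z2⟩ := exists_cmp (mem_erase.2 ⟨(mem_erase.1 k2).1,
          mem_sdiff.2 ⟨p.out k1 k3.1, fun m => pk ⟨d, k1, m⟩⟩⟩)
        exact absurd ⟨Z, z1, ⟨d, k1, z2⟩, z2⟩ k3.2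
      · refine ⟨Z, z1, z2, d, z3, by_contra fun m => ?_⟩
        by_cases m' : f (α d) ∈ K
        · exact k3.2 ⟨Z, z1, z2, z1.2.2.2 d z3
            (mem_erase.2 ⟨(mem_erase.1 k2).1, mem_sdiff.2 ⟨m', m⟩⟩)⟩
        · obtain ⟨P3, q1, q2⟩ := exists_cmp (mem_compl.2 m')
          exact k3.1 (key y y1 y2 Z z1 P P3 p q1 z2 (Ad.symm ⟨d, z3, q2⟩) ▸ q2)
    obtain ⟨Z, ⟨y, y1, y2, z1, z2, d, z3, z4⟩, hz⟩ := Set.exists_min_image
      {Z : Finset (F D) | ∃ y ∈ K \ K2, Ad {y} K2 ∧ Cmp ((K \ K2).erase y) Z ∧ Ad P Z ∧ Ad Z K2}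
      card (Set.toFinite _) (by
      obtain ⟨c, -, c2⟩ := pa
      obtain ⟨d, d1, d2, d3⟩ := hK.exit a1 a2 fun m => (mem_sdiff.1 c2).2 (m (mem_sdiff.1 c2).1)
      have d4 : Ad {f (α d)} K2 := Ad.symm ⟨d, d1, mem_singleton_self _⟩
      obtain ⟨Z, z⟩ := cA _ (mem_sdiff.2 ⟨d2, d3⟩) d4
      exact ⟨Z, _, mem_sdiff.2 ⟨d2, d3⟩, d4, z⟩)
    have y3 : f d ∈ K \ K2 := (mem_erase.1 (z1.1 z3)).2
    have y4 : Ad {f d} K2 := ⟨d, mem_singleton_self _, z4⟩
    obtain ⟨Z', w1, w2, w3⟩ := cA _ y3 y4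
    have s : Z' ⊆ Z.erase (f d) := fun g hg => mem_erase.2 ⟨(mem_erase.1 (w1.1 hg)).1,
      by_contra fun m => by
        have c : Conn ((K \ K2) \ Z) := conn_cut a4 (conn_single y) (mem_singleton_self y) z1
          (singleton_subset_iff.2 (mem_sdiff.2 ⟨y1, fun m => (mem_erase.1 (z1.1 m)).1 rfl⟩))
          subset_union_left
        have s' : (K \ K2) \ Z ⊆ Z' := c.sub (fun g hg => mem_erase.2
          ⟨fun e => (mem_sdiff.1 hg).2 (e ▸ z3), (mem_sdiff.1 hg).1⟩) w1.2.2.2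
          (mem_sdiff.2 ⟨(mem_erase.1 (w1.1 hg)).2, m⟩) hg
        obtain ⟨c, c1, c2⟩ := pa
        exact pn (key _ y3 y4 Z' w1 P P' p p' w2 ⟨c, c1, s' (mem_sdiff.2
          ⟨c2, fun m => pn (key y y1 y2 Z z1 P P' p p' z2 ⟨c, c1, m⟩)⟩)⟩)⟩
    have := hz Z' ⟨_, y3, y4, w1, w2, w3⟩
    have := card_le_card s
    have := card_erase_lt_of_mem z3
    omega
  exact hn ⟨K2, a1, a3, a4, O1, O2, b1, b2, b3, main _ _ b1 b2 b3 b5, main _ _ b2 b1 b3.symm b4,
    b4, b5⟩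

lemma holes_part (h1 : K1 ⊆ K) (h2 : Conn (K \ K1)) :
    #(holes K1) ≤ 1 + #((holes K).filter fun O => ¬Ad O (K \ K1)) := by
  have s : K \ K1 ⊆ K1ᶜ := fun g hg => mem_compl.2 (mem_sdiff.1 hg).2
  refine (card_le_card (t := (holes K1).filter (fun O => ¬Disjoint O (K \ K1)) ∪
    (holes K).filter fun O => ¬Ad O (K \ K1)) fun O hO => ?_).trans
    ((card_union_le _ _).trans (Nat.add_le_add_right (card_le_one.2 fun O hO O' hO' => ?_) _))
  · have o := mem_holes.1 hO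
    by_cases k : Disjoint O (K \ K1)
    · refine mem_union_right _ (mem_filter.2 ⟨mem_holes.2 ⟨fun g hg => mem_compl.2 fun m =>
        disjoint_left.1 k hg (mem_sdiff.2 ⟨m, o.nK hg⟩), o.2.1, o.2.2.1,
        fun d d1 d2 => o.2.2.2 d d1 (compl_subset_compl.2 h1 d2)⟩, ?_⟩)
      rintro ⟨d, d1, d2⟩
      exact disjoint_left.1 k (o.2.2.2 d d1 (s d2)) d2
    · exact mem_union_left _ (mem_filter.2 ⟨hO, k⟩)
  · obtain ⟨x, x1, x2⟩ := not_disjoint_iff.1 (mem_filter.1 hO).2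
    obtain ⟨y, y1, y2⟩ := not_disjoint_iff.1 (mem_filter.1 hO').2
    have o := mem_holes.1 (mem_filter.1 hO).1
    exact o.eq (mem_holes.1 (mem_filter.1 hO').1) (h2.sub s o.2.2.2 x2 x1 y2) y1

/-- A connected set of faces is covered by at most as many discs as it has holes. -/
theorem cover_discs (K : Finset (F D)) (hK : Conn K) (hne : K.Nonempty) (hc : Kᶜ.Nonempty) :
    ∃ P : Finset (Finset (F D)), (∀ A ∈ P, Disc A ∧ A ⊆ K) ∧ (∀ g ∈ K, ∃ A ∈ P, g ∈ A) ∧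
      #P ≤ #(holes K) := by
  induction K using Finset.strongInduction with
  | H K ih =>
    obtain ⟨x, hx⟩ := hc
    obtain ⟨O, o, ox⟩ := exists_cmp hx
    by_cases k : ∃ O', Cmp Kᶜ O' ∧ O ≠ O'
    · obtain ⟨O', o', on⟩ := k
      obtain ⟨K2, a1, a2, a3, O1, O2, b1, b2, b3, b4, b5, b6, b7⟩ := split_holes hK hne o o' on
      obtain ⟨g2, n2⟩ : K2.Nonempty := b4.elim fun _ m => ⟨_, m.2⟩
      obtain ⟨g1, n1⟩ : (K \ K2).Nonempty := b6.elim fun _ m => ⟨_, m.2⟩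
      obtain ⟨P2, p1, p2, p3⟩ := ih K2 ⟨a1, fun m => (mem_sdiff.1 n1).2 (m (mem_sdiff.1 n1).1)⟩ a2
        ⟨g2, n2⟩ ⟨x, compl_subset_compl.2 a1 hx⟩
      obtain ⟨P1, q1, q2, q3⟩ := ih (K \ K2) (sdiff_ssubset a1 ⟨g2, n2⟩) a3 ⟨g1, n1⟩
        ⟨x, compl_subset_compl.2 sdiff_subset hx⟩
      have e : K \ (K \ K2) = K2 := Finset.sdiff_sdiff_eq_self a1
      have t2 := holes_part a1 a3
      have t1 := holes_part (K1 := K \ K2) (K := K) sdiff_subset (by rwa [e])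
      rw [e] at t1
      refine ⟨P2 ∪ P1, fun A hA => (mem_union.1 hA).elim
        (fun m => ⟨(p1 A m).1, (p1 A m).2.trans a1⟩)
        fun m => ⟨(q1 A m).1, (q1 A m).2.trans sdiff_subset⟩, fun g hg => ?_, ?_⟩
      · by_cases m : g ∈ K2
        · exact (p2 g m).imp fun A a => ⟨mem_union_left _ a.1, a.2⟩
        · exact (q2 g (mem_sdiff.2 ⟨hg, m⟩)).imp fun A a => ⟨mem_union_right _ a.1, a.2⟩
      · have u := card_union_le P2 P1
        have c1 := card_filter_add_card_filter_not (s := holes K) fun O => Ad O (K \ K2)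
        have c2 : {O1, O2} ∪ (holes K).filter (fun O => ¬Ad O K2) ⊆
            (holes K).filter fun O => Ad O (K \ K2) := union_subset
          (insert_subset (mem_filter.2 ⟨mem_holes.2 b1, b6⟩)
            (singleton_subset_iff.2 (mem_filter.2 ⟨mem_holes.2 b2, b7⟩))) fun O hO => by
          obtain ⟨m1, m2⟩ := mem_filter.1 hO
          obtain ⟨d, d1, d2⟩ := (mem_holes.1 m1).ad hne
          exact mem_filter.2 ⟨m1, d, d1, mem_sdiff.2 ⟨d2, fun m => m2 ⟨d, d1, m⟩⟩⟩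
        have c3 := card_le_card c2
        rw [card_union_of_disjoint (disjoint_left.2 fun O m m' => by
          rcases mem_insert.1 m with rfl | m
          · exact (mem_filter.1 m').2 b4
          · exact (mem_filter.1 m').2 (mem_singleton.1 m ▸ b5)), card_pair b3] at c3
        omega
    · have e : Kᶜ = O := Subset.antisymm (fun g hg => by
        obtain ⟨O', o', og⟩ := exists_cmp hg
        exact (by_contra fun m => k ⟨O', o', m⟩ : O = O') ▸ og) o.1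
      exact ⟨{K}, fun A hA => by
        rw [mem_singleton.1 hA]
        exact ⟨⟨hne, ⟨x, hx⟩, hK, e ▸ o.2.2.1⟩, Subset.rfl⟩,
        fun g hg => ⟨K, mem_singleton_self K, hg⟩, card_pos.2 ⟨O, mem_holes.2 o⟩⟩

end PM

end Pool.Agent.MP_42ec7b_co

end MrgPart3

-- ======== part 4: formerly Pool.Agent.MP_42ec7b_co.A.TDef
section MrgPart4

/-!
Extension of a two-colouring of faces: definitions.
-/

set_option autoImplicit false

open Finset

namespace Pool.Agent.MP_42ec7b_co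

open Classical

namespace PM

variable {D : Type} [PM D]

/-- The condition of Tutte: every one-coloured bridge has at most two attachments. -/
def TGood (U S : Finset (F D)) : Prop :=
  ∀ u, ∃ a b, ∀ w, Rch (InE U) (fun r => ¬BV S r) u w → BV S w → w = a ∨ w = b

/-- At least four vertices touch the complement. -/
def Big (U : Finset (F D)) : Prop := ∀ a b c : V D, ∃ r, Tch Uᶜ r ∧ r ≠ a ∧ r ≠ b ∧ r ≠ c

/-- Red faces, blue faces and uncoloured faces. -/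
structure Inst (A B U : Finset (F D)) : Prop where
  part : ∀ g, (g ∈ A ∧ g ∉ B ∧ g ∉ U) ∨ (g ∉ A ∧ g ∈ B ∧ g ∉ U) ∨ (g ∉ A ∧ g ∉ B ∧ g ∈ U)
  cA : Conn A
  cB : Conn B
  ad : Ad A B
  both : ∀ g ∈ U, ∃ J ⊆ U, Conn J ∧ g ∈ J ∧ Ad J A ∧ Ad J B
  big : Big U

/-- Admissible prescribed edges. -/
def Pre (U : Finset (F D)) (W : D → Prop) : Prop :=
  (∀ e, W e → Bd U e) ∧
    ∀ e e' J, W e → W e' → J ⊆ U → Conn J → f e ∈ J → f e' ∈ J → e = e'

/-- A solution. -/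
structure Sol (A B U : Finset (F D)) (W : D → Prop) (S : Finset (F D)) : Prop where
  sA : A ⊆ S
  sB : B ⊆ Sᶜ
  cS : Conn S
  cT : Conn Sᶜ
  pre : ∀ e, W e → ¬(f e ∈ S ↔ f (α e) ∈ S)
  good : TGood U S

/-- Solvability of all smaller instances. -/
def IH (D : Type) [PM D] (n : ℕ) : Prop :=
  ∀ (A B U : Finset (F D)) (W : D → Prop), #U < n → Inst A B U → Pre U W → ∃ S, Sol A B U W S

/-- The frame of an instance: first the red edges, then the blue edges. -/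
structure IFr (A B U : Finset (F D)) (L k : ℕ) (p : ℕ → V D) (dd : ℕ → D) : Prop
    extends Frm U L p dd where
  k0 : 0 < k
  kL : k < L
  red : ∀ i < k, f (α (dd i)) ∈ A
  blue : ∀ i, k ≤ i → i < L → f (α (dd i)) ∈ B
  nB : ∀ i, 0 < i → i < k → ¬Tch B (p i)
  nA : ∀ i, k < i → i < L → ¬Tch A (p i)

/-- The faces of `Ω` that touch a deleted vertex. -/
noncomputable def Nb (Ω : Finset (F D)) (Dl : V D → Prop) : Finset (F D) :=
  Ω.filter fun g => ∃ c, f c = g ∧ Dl (v c)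

/-- The components of the other faces that meet a dart of `E0`. -/
noncomputable def Cp (Ω : Finset (F D)) (Dl : V D → Prop) (E0 : D → Prop) : Finset (F D) :=
  univ.filter fun g => ∃ J ⊆ Ω \ Nb Ω Dl, Conn J ∧ g ∈ J ∧ ∃ d, E0 d ∧ f d ∈ J

/-- The edges of the core. -/
def HE (Ω : Finset (F D)) (Dl : V D → Prop) (E0 : D → Prop) (d : D) : Prop :=
  E0 d ∨ E0 (α d) ∨ InE (Cp Ω Dl E0) d

/-- The vertices of the core. -/
def VH (Ω : Finset (F D)) (Dl X0 : V D → Prop) (E0 : D → Prop) (r : V D) : Prop :=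
  X0 r ∨ Tch (Cp Ω Dl E0) r

/-- Hypotheses of the lemma on pendant pieces. -/
structure PD (Ω : Finset (F D)) (Dl X0 : V D → Prop) (E0 : D → Prop) : Prop where
  ne : Ωᶜ.Nonempty
  cO : Conn Ωᶜ
  dl : ∀ r, Dl r → Tch Ωᶜ r
  x0 : ∀ r, X0 r → ¬Dl r
  e0 : ∀ d, E0 d → Bd Ω d ∧ X0 (v d) ∧ X0 (v (α d))
  lk : ∀ a b, X0 a → X0 b → Lk E0 a b

/-- A connected instance with its frame; the prescribed edge is `dd m`. -/
structure Cfg (D : Type) [PM D] where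
  A : Finset (F D)
  B : Finset (F D)
  U : Finset (F D)
  L : ℕ
  k : ℕ
  m : ℕ
  j : ℕ
  p : ℕ → V D
  dd : ℕ → D
  h : Inst A B U
  hU : Conn U
  fr : IFr A B U L k p dd
  mk1 : m + 1 < k
  kj : k ≤ j
  jL : j < L
  jN : Tch (Nb U fun r => ∃ i ≤ m, p i = r) (p j)
  jmin : ∀ i, k ≤ i → i < j → ¬Tch (Nb U fun r => ∃ i ≤ m, p i = r) (p i)

namespace Cfg

variable (X : Cfg D)

/-- The vertices before the prescribed edge. -/
def Q (r : V D) : Prop := ∃ i ≤ X.m, X.p i = r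

/-- The faces at these vertices. -/
noncomputable def N : Finset (F D) := Nb X.U X.Q

/-- The boundary darts of the first core. -/
def E1 (d : D) : Prop := ∃ i, X.m < i ∧ i < X.j ∧ X.dd i = d

/-- Their ends. -/
def X1 (r : V D) : Prop := ∃ i, X.m < i ∧ i ≤ X.j ∧ X.p i = r

/-- The uncoloured faces of the first stage. -/
noncomputable def O : Finset (F D) := Cp X.U X.Q X.E1

/-- The blue faces of the first stage. -/
noncomputable def B1 : Finset (F D) := X.B ∪ X.U \ X.O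

/-- The prescribed edge of the first stage. -/
def W1 (d : D) : Prop := X.k < X.j ∧ d = X.dd (X.j - 1)

/-- A solution of the first stage. -/
abbrev St (S : Finset (F D)) : Prop := Sol X.A X.B1 X.O X.W1 S

/-- The blue inner faces. -/
noncomputable def Ω (S : Finset (F D)) : Finset (F D) := X.U \ S

/-- The deleted vertices of the second stage. -/
def D2 (S : Finset (F D)) (r : V D) : Prop := BV S r ∧ ¬X.Q r

/-- The boundary darts of the second core. -/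
def E2 (d : D) : Prop := ∃ i < X.m, X.dd i = d

/-- The uncoloured faces of the second stage. -/
noncomputable def M (S : Finset (F D)) : Finset (F D) := Cp (X.Ω S) (X.D2 S) X.E2

/-- Edges of the second core. -/
def H2 (S : Finset (F D)) : D → Prop := HE (X.Ω S) (X.D2 S) X.E2

/-- Vertices of the second core. -/
def V2 (S : Finset (F D)) : V D → Prop := VH (X.Ω S) (X.D2 S) X.Q X.E2

/-- Walks in pendant pieces of the second core. -/
def pr (S : Finset (F D)) : V D → V D → Prop :=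
  Rch (fun d => InE (X.Ω S) d ∧ ¬X.H2 S d) fun r => ¬BV S r

/-- A component of the uncoloured faces of the second stage. -/
def Cm (S K : Finset (F D)) : Prop := K ⊆ X.M S ∧ Conn K ∧ Cl (X.M S) K ∧ K.Nonempty

/-- A blue bridge at `K` does not see two different things outside. -/
def ZP (S T K : Finset (F D)) : Prop :=
  ∀ r r', Tch K r → ¬Tch T r → ¬Tch T r' → Rch (InE (X.M S)) (fun s => ¬BV T s) r r' →
    (∀ a b, X.D2 S a → X.D2 S b → X.pr S r a → X.pr S r' b → a = b) ∧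
      ∀ a b, X.D2 S a → Tch X.B b → ¬BV S b → X.pr S r a → X.pr S r' b → False

end Cfg

variable {A B U K S T Ω : Finset (F D)} {W E0 : D → Prop} {Dl X0 : V D → Prop} {g : F D} {d : D}
  {r : V D}

lemma TGood.compl (h : TGood U S) : TGood U Sᶜ := by simpa only [TGood, bv_compl] using h

lemma Big.mono (h : Big U) (k : K ⊆ U) : Big K := fun a b c => by
  obtain ⟨r, h1, h2⟩ := h a b c
  exact ⟨r, h1.mono (compl_subset_compl.2 k), h2⟩

lemma Inst.symm (h : Inst A B U) : Inst B A U :=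
  ⟨fun g => by have := h.part g; tauto, h.cB, h.cA, h.ad.symm, fun g hg => by
    obtain ⟨J, h1, h2, h3, h4, h5⟩ := h.both g hg
    exact ⟨J, h1, h2, h3, h5, h4⟩, h.big⟩

lemma Sol.symm (h : Sol B A U W S) : Sol A B U W Sᶜ :=
  ⟨h.sB, by rw [compl_compl]; exact h.sA, h.cT, by rw [compl_compl]; exact h.cS, fun e he => by
    rw [mem_compl, mem_compl, not_iff_not]; exact h.pre e he, h.good.compl⟩

lemma Inst.AB (h : Inst A B U) (k : g ∈ A) : g ∉ B := by have := h.part g; tauto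

lemma Inst.AU (h : Inst A B U) (k : g ∈ A) : g ∉ U := by have := h.part g; tauto

lemma Inst.BU (h : Inst A B U) (k : g ∈ B) : g ∉ U := by have := h.part g; tauto

lemma Inst.or (h : Inst A B U) (k : g ∉ U) : g ∈ A ∨ g ∈ B := by have := h.part g; tauto

lemma Inst.nA (h : Inst A B U) : A.Nonempty := h.ad.elim fun _ k => ⟨_, k.1⟩

lemma Inst.nB (h : Inst A B U) : B.Nonempty := h.ad.elim fun _ k => ⟨_, k.2⟩

lemma Inst.compl (h : Inst A B U) : Uᶜ = A ∪ B :=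
  ext fun g => by have := h.part g; simp only [mem_compl, mem_union]; tauto

lemma Inst.cU (h : Inst A B U) : Conn Uᶜ := h.compl ▸ conn_union h.cA h.cB (Or.inl h.ad)

lemma Inst.disc (h : Inst A B U) (hU : Conn U) (k : U.Nonempty) : Disc U :=
  ⟨k, h.compl ▸ h.nA.mono subset_union_left, hU, h.cU⟩

lemma Sol.disc (s : Sol A B U W S) (h : Inst A B U) : Disc S :=
  ⟨h.nA.mono s.sA, h.nB.mono s.sB, s.cS, s.cT⟩

/-- A face of `K` in the connected set `T` is joined inside `K` to an exit. -/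
lemma exit_in (hT : Conn T) (h1 : g ∈ K) (h2 : g ∈ T) (h3 : ¬T ⊆ K) :
    ∃ R ⊆ K, R ⊆ T ∧ Conn R ∧ g ∈ R ∧ ∃ d, f d ∈ R ∧ f (α d) ∈ T ∧ f (α d) ∉ K := by
  obtain ⟨R, k1, k2, k3, k4⟩ := exists_comp (mem_inter.2 ⟨h1, h2⟩)
  obtain ⟨d, m1, m2, m3⟩ := hT.exit (k1.trans inter_subset_right) ⟨g, k2⟩
    fun m => h3 (m.trans (k1.trans inter_subset_left))
  exact ⟨R, k1.trans inter_subset_left, k1.trans inter_subset_right, k3, k2, d, m1, m2,
    fun m => m3 (k4 d m1 (mem_inter.2 ⟨m, m2⟩))⟩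

lemma mem_Nb : g ∈ Nb Ω Dl ↔ g ∈ Ω ∧ ∃ c, f c = g ∧ Dl (v c) := mem_filter

lemma mem_Cp : g ∈ Cp Ω Dl E0 ↔
    ∃ J ⊆ Ω \ Nb Ω Dl, Conn J ∧ g ∈ J ∧ ∃ d, E0 d ∧ f d ∈ J := by simp [Cp]

lemma Cp_sub (h : g ∈ Cp Ω Dl E0) : g ∈ Ω ∧ g ∉ Nb Ω Dl := by
  obtain ⟨J, h1, -, h2, -⟩ := mem_Cp.1 h
  exact mem_sdiff.1 (h1 h2)

lemma Cp_cl : Cl (Ω \ Nb Ω Dl) (Cp Ω Dl E0) := fun d h1 h2 => by
  obtain ⟨J, k1, k2, k3, e, k4, k5⟩ := mem_Cp.1 h1
  exact mem_Cp.2 ⟨insert (f (α d)) J, insert_subset h2 k1, conn_insert k2 (by rwa [αα]),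
    mem_insert_self _ _, e, k4, mem_insert_of_mem k5⟩

lemma Cp_of (h : E0 d) (h1 : f d ∈ Ω) (h2 : f d ∉ Nb Ω Dl) : f d ∈ Cp Ω Dl E0 :=
  mem_Cp.2 ⟨{f d}, singleton_subset_iff.2 (mem_sdiff.2 ⟨h1, h2⟩), conn_single _,
    mem_singleton_self _, d, h, mem_singleton_self _⟩

lemma Cp_ntch (h : Tch (Cp Ω Dl E0) r) : ¬Dl r := fun k => by
  obtain ⟨c, rfl, h1⟩ := h
  exact (Cp_sub h1).2 (mem_Nb.2 ⟨(Cp_sub h1).1, c, rfl, k⟩)

/-- A closed subset of `Cp` that is not empty contains the face of a dart of `E0`. -/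
lemma Cp_root (h1 : Cl (Cp Ω Dl E0) K) (h2 : g ∈ K) (h3 : g ∈ Cp Ω Dl E0) :
    ∃ d, E0 d ∧ f d ∈ K := by
  obtain ⟨J, k1, k2, k3, e, k4, k5⟩ := mem_Cp.1 h3
  exact ⟨e, k4, k2.sub (fun x hx => mem_Cp.2 ⟨J, k1, k2, hx, e, k4, k5⟩) h1 k3 h2 k5⟩

lemma HE.symm (h : HE Ω Dl E0 d) : HE Ω Dl E0 (α d) :=
  h.elim (fun k => Or.inr (Or.inl (by rwa [αα]))) fun k =>
    k.elim Or.inl fun k => Or.inr (Or.inr k.symm)

lemma nHE_symm (h : InE Ω d ∧ ¬HE Ω Dl E0 d) : InE Ω (α d) ∧ ¬HE Ω Dl E0 (α d) :=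
  ⟨h.1.symm, fun k => h.2 (by simpa using k.symm)⟩

lemma PD.he (h : PD Ω Dl X0 E0) (k : HE Ω Dl E0 d) : VH Ω Dl X0 E0 (v d) :=
  k.elim (fun k => Or.inl (h.e0 d k).2.1) fun k =>
    k.elim (fun k => Or.inl (by simpa using (h.e0 _ k).2.2)) fun k => Or.inr k.tch

lemma PD.vh (h : PD Ω Dl X0 E0) (k : VH Ω Dl X0 E0 r) : ¬Dl r := k.elim (h.x0 r) Cp_ntch

end PM

end Pool.Agent.MP_42ec7b_co

end MrgPart4

-- ======== part 5: formerly Pool.Agent.MP_42ec7b_co.A.TIfr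
section MrgPart5

/-!
The frame of an instance; components of an instance.
-/

set_option autoImplicit false

open Finset

namespace Pool.Agent.MP_42ec7b_co

open Classical

namespace PM

variable {D : Type} [PM D] {A B U K : Finset (F D)} {d : D} {r t : V D}

/-- The first blue dart of a frame that starts with a red dart. -/
lemma tifr_k {L : ℕ} {p : ℕ → V D} {dd : ℕ → D} (h : Inst A B U) (fr : Frm U L p dd)
    (h2 : f (α (dd 0)) ∈ A) :
    ∃ k, 0 < k ∧ k < L ∧ f (α (dd k)) ∈ B ∧ ∀ i < k, f (α (dd i)) ∈ A := by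
  have ex : ∃ i, i < L ∧ f (α (dd i)) ∈ B := by
    obtain ⟨J, j1, -, -, -, e, j2, j3⟩ := h.both _ (fr.bd 0 (by have := fr.three; omega)).1
    obtain ⟨i, i1, rfl⟩ := fr.sur e ⟨j1 j2, h.BU j3⟩
    exact ⟨i, i1, j3⟩
  obtain ⟨k1, k2⟩ := Nat.find_spec ex
  refine ⟨Nat.find ex, Nat.pos_of_ne_zero fun e => h.AB h2 (e ▸ k2), k1, k2, fun i hi => ?_⟩
  exact (h.or (fr.bd i (hi.trans k1)).2).resolve_right fun m => Nat.find_min ex hi ⟨hi.trans k1, m⟩

lemma tifr_lk (h : Inst A B U) {a b : V D} (ha : Tch B a) (hb : Tch B b) :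
    Lk (fun d => f d ∉ U ∧ f d ∉ A) a b :=
  (facelk h.cB ha hb).mono fun _ m => Or.inl ⟨h.BU m, fun k => h.AB k m⟩

lemma tifr_sub (h : Inst A B U) : A ⊆ Uᶜ := fun _ m => mem_compl.2 (h.AU m)

lemma tifr_cl (k : Cl U K) : Cl U (U \ K) := fun d m1 m2 =>
  mem_sdiff.2 ⟨m2, fun m => (mem_sdiff.1 m1).2 (k.symm d m (mem_sdiff.1 m1).1)⟩

theorem exists_ifr (h : Inst A B U) (hU : Conn U) (h1 : f d ∈ U) (h2 : f (α d) ∈ A)
    (ht : t = v d ∨ t = v (α d)) (hB : Tch B t) :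
    ∃ L k p dd, IFr A B U L k p dd ∧ dd 0 = d ∧ p 0 = t := by
  obtain ⟨L, p, dd, fr, rfl, rfl⟩ := exists_frm (h.disc hU ⟨_, h1⟩) ⟨h1, h.AU h2⟩ ht
  obtain ⟨k, k0, kL, kB, red⟩ := tifr_k h fr h2
  have tB := fr.tch kL (Or.inr kB)
  have blue : ∀ i, k ≤ i → i < L → f (α (dd i)) ∈ B := fun i i1 i2 =>
    (h.or (fr.bd i i2).2).resolve_left fun m =>
      fr.arc_out hU h.cA (tifr_sub h) (i := 0) (j := k + 1) le_rfl k.succ_pos kL
        (Or.inr (i1.lt_of_ne fun e => h.AB m (e ▸ kB))) i2 h2 m (tifr_lk h hB tB.2)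
  refine ⟨L, k, p, dd, ⟨fr, k0, kL, red, blue, fun i i1 i2 m => ?_, fun i i1 i2 m => ?_⟩, rfl, rfl⟩
  · exact fr.arc_out hU h.cA (tifr_sub h) (n2 := i - 1) le_rfl i2 kL.le (Or.inl (by omega))
      (by omega) (red i i2) (red _ (by omega)) (tifr_lk h m tB.1)
  · exact fr.arc_out hU h.cB (tifr_sub h.symm) (n2 := i - 1) le_rfl i2 le_rfl (Or.inl (by omega))
      (by omega) (blue i i1.le i2) (blue _ (by omega) (by omega))
      (tifr_lk h.symm m (fr.per ▸ (fr.tch (k0.trans kL) (Or.inr h2)).1))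

theorem exists_start (h : Inst A B U) (hU : Conn U) (k : U.Nonempty) :
    ∃ d t, f d ∈ U ∧ f (α d) ∈ A ∧ (t = v d ∨ t = v (α d)) ∧ Tch B t := by
  obtain ⟨g, hg⟩ := id k
  obtain ⟨J, j1, -, -, ⟨e, j2, j3⟩, -⟩ := h.both g hg
  obtain ⟨L, p, dd, fr, rfl, -⟩ := exists_frm (h.disc hU k) ⟨j1 j2, h.AU j3⟩ (Or.inl rfl)
  obtain ⟨n, k0, kL, kB, red⟩ := tifr_k h fr j3
  obtain ⟨n, rfl⟩ := Nat.exists_eq_succ_of_ne_zero k0.ne'
  have n1 : n < L := by omega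
  exact ⟨dd n, p (n + 1), (fr.bd n n1).1, red n n.lt_succ_self,
    (fr.ends n n1).elim (fun m => Or.inr m.2.symm) fun m => Or.inl m.1.symm,
    (fr.tch kL (Or.inr kB)).1⟩

/-- One component, the other components are coloured red. -/
theorem Inst.comp (h : Inst A B U) (k1 : K ⊆ U) (k3 : Cl U K) : Inst (A ∪ U \ K) B K := by
  refine ⟨fun g => ?_, conn_of_core h.cA subset_union_left fun Z z1 ⟨g, z2⟩ z3 => ?_, h.cB,
    h.ad.mono subset_union_left subset_rfl, fun g hg => ?_, h.big.mono k1⟩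
  · have m1 := h.part g
    have m2 : g ∈ K → g ∈ U := fun m => k1 m
    simp only [mem_union, mem_sdiff]
    tauto
  · rcases mem_union.1 (z1 z2) with m | m
    · exact ⟨g, m, z2⟩
    obtain ⟨J, j1, j2, j3, ⟨e, j4, j5⟩, -⟩ := h.both g (mem_sdiff.1 m).1
    exact ⟨_, j5, z3 e (j2.sub ((j2.sub j1 (tifr_cl k3) j3 m).trans subset_union_right) z3 j3 z2 j4)
      (mem_union_left _ j5)⟩
  · obtain ⟨J, j1, j2, j3, j4, j5⟩ := h.both g (k1 hg)
    exact ⟨J, j2.sub j1 k3 j3 hg, j2, j3, j4.mono subset_rfl subset_union_left, j5⟩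

/-- The other components. -/
theorem Inst.rest (h : Inst A B U) (k1 : K ⊆ U) (k3 : Cl U K) : Inst (A ∪ K) B (U \ K) := by
  have m := h.comp sdiff_subset (tifr_cl k3)
  rwa [Finset.sdiff_sdiff_eq_self k1] at m

lemma tifr_red (h : Inst A B U) (k1 : K ⊆ U) (k2 : Conn K) (k3 : Cl U K) (h1 : Tch K r)
    (h2 : Tch (U \ K) r) : Tch A r := by
  have I := h.comp k1 k3
  obtain ⟨d, t, m1, m2, m3, m4⟩ := exists_start I k2 (h1.elim fun c m => ⟨_, m.2⟩)
  obtain ⟨L, k, p, dd, fr, -, -⟩ := exists_ifr I k2 m1 m2 m3 m4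
  obtain ⟨i, i1, rfl⟩ := fr.toFrm.vs ⟨h1, h2.mono fun g m => mem_compl.2 (mem_sdiff.1 m).2⟩
  have i2 : i ≤ k := not_lt.1 fun m => fr.nA i m i1 (h2.mono subset_union_right)
  have red : ∀ n < k, Tch A (p n) ∧ Tch A (p (n + 1)) := fun n n1 =>
    have b := fr.bd n (n1.trans fr.kL)
    fr.toFrm.tch (n1.trans fr.kL) (Or.inr ((mem_union.1 (fr.red n n1)).resolve_right fun m =>
      b.2 (k3 _ b.1 (mem_sdiff.1 m).1)))
  rcases i2.lt_or_eq with m | rfl
  · exact (red i m).1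
  obtain ⟨n, rfl⟩ := Nat.exists_eq_succ_of_ne_zero fr.k0.ne'
  exact (red n n.lt_succ_self).2

/-- A vertex shared by two components sees both colours. -/
theorem shared (h : Inst A B U) (k1 : K ⊆ U) (k2 : Conn K) (k3 : Cl U K) (h1 : Tch K r)
    (h2 : Tch (U \ K) r) : Tch A r ∧ Tch B r :=
  ⟨tifr_red h k1 k2 k3 h1 h2, tifr_red h.symm k1 k2 k3 h1 h2⟩

end PM

end Pool.Agent.MP_42ec7b_co

end MrgPart5

-- ======== part 6: formerly Pool.Agent.MP_42ec7b_co.A.TSt1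
section MrgPart6

/-!
The first stage.
-/

set_option autoImplicit false

open Finset

namespace Pool.Agent.MP_42ec7b_co

open Classical

namespace PM

variable {D : Type} [PM D]

lemma tst1_corner {U : Finset (F D)} {L i : ℕ} {p : ℕ → V D} {dd : ℕ → D} (fr : Frm U L p dd)
    (h : i < L) : (∃ c, v c = p i ∧ f c = f (dd i)) ∧ ∃ c, v c = p (i + 1) ∧ f c = f (dd i) := by
  obtain ⟨⟨c, h1, h2⟩, c', h3, h4⟩ := fr.tch (P := {f (dd i)}) h (Or.inl (mem_singleton_self _))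
  exact ⟨⟨c, h1, mem_singleton.1 h2⟩, c', h3, mem_singleton.1 h4⟩

lemma tst1_faceN {U : Finset (F D)} {L i : ℕ} {p : ℕ → V D} {dd : ℕ → D} {Dl : V D → Prop}
    (fr : Frm U L p dd) (h : i < L) (hQ : Dl (p i) ∨ Dl (p (i + 1))) : f (dd i) ∈ Nb U Dl := by
  obtain ⟨⟨c, h1, h2⟩, c', h3, h4⟩ := tst1_corner fr h
  exact mem_Nb.2 ⟨(fr.bd i h).1, hQ.elim (fun k => ⟨c, h2, h1 ▸ k⟩) fun k => ⟨c', h4, h3 ▸ k⟩⟩

theorem exists_j {A B U : Finset (F D)} {L k : ℕ} {p : ℕ → V D} {dd : ℕ → D}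
    (fr : IFr A B U L k p dd) (m : ℕ) : ∃ j, k ≤ j ∧ j < L ∧
      Tch (Nb U fun r => ∃ i ≤ m, p i = r) (p j) ∧
      ∀ i, k ≤ i → i < j → ¬Tch (Nb U fun r => ∃ i ≤ m, p i = r) (p i) := by
  have hk := fr.kL
  have ex : ∃ j, k ≤ j ∧ j < L ∧ Tch (Nb U fun r => ∃ i ≤ m, p i = r) (p j) := by
    have h1 : L - 1 < L := by omega
    refine ⟨L - 1, by omega, h1, (fr.toFrm.tch h1 (Or.inl (tst1_faceN fr.toFrm h1 (Or.inr
      ⟨0, Nat.zero_le _, ?_⟩)))).1⟩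
    rw [Nat.sub_add_cancel (by omega), fr.per]
  obtain ⟨h1, h2, h3⟩ := Nat.find_spec ex
  exact ⟨_, h1, h2, h3, fun i k1 k2 k3 => Nat.find_min ex k2 ⟨k1, k2.trans h2, k3⟩⟩

namespace Cfg

variable (X : Cfg D) {S : Finset (F D)} {i : ℕ} {c : D} {g : F D} {r : V D}

lemma tst1_le : X.m + 1 < X.k ∧ X.k ≤ X.j ∧ X.j < X.L := ⟨X.mk1, X.kj, X.jL⟩

lemma disc : Disc X.U :=
  X.h.disc X.hU ⟨_, (X.fr.bd 0 (by have := X.fr.three; omega)).1⟩

lemma nQ (h1 : X.m < i) (h2 : i < X.L) : ¬X.Q (X.p i) := by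
  rintro ⟨n, k1, k2⟩
  have := X.fr.inj n (by omega) i h2 k2
  omega

lemma QA (h : X.Q r) : Tch X.A r := by
  obtain ⟨n, k1, rfl⟩ := h
  have := X.tst1_le
  exact (X.fr.toFrm.tch (by omega) (Or.inr (X.fr.red n (by omega)))).1

lemma QN (h : X.Q (v c)) (k : f c ∈ X.U) : f c ∈ X.N := mem_Nb.2 ⟨k, c, rfl, h⟩

lemma fN (h : i ≤ X.m) : f (X.dd i) ∈ X.N := by
  have := X.tst1_le
  exact tst1_faceN X.fr.toFrm (by omega) (Or.inl ⟨i, h, rfl⟩)

lemma O_sub (h : g ∈ X.O) : g ∈ X.U ∧ g ∉ X.N := Cp_sub h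

lemma fO (h1 : X.k ≤ i) (h2 : i < X.j) : f (X.dd i) ∈ X.O := by
  have := X.tst1_le
  exact Cp_of ⟨i, by omega, h2, rfl⟩ (X.fr.bd i (by omega)).1 fun k =>
    X.jmin i h1 h2 (X.fr.toFrm.tch (by omega) (Or.inl k)).1

lemma nfO (h1 : X.j ≤ i) (h2 : i < X.L) : f (X.dd i) ∉ X.O := by
  intro h
  obtain ⟨J, k1, k2, k3, _, ⟨n, n1, n2, rfl⟩, k4⟩ := mem_Cp.1 h
  obtain ⟨c, c1, c2⟩ := X.jN
  obtain ⟨c3, c', c4, i0, c5, c6⟩ := mem_Nb.1 c2
  refine X.fr.toFrm.arc_in (i := i0) X.h.cU k2 (k1.trans sdiff_subset) (by omega) n2 X.jL.le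
    (Or.inr h1) h2 k4 k3 ((facelk (conn_single (f c)) ⟨c', c6.symm, mem_singleton.2 c4⟩
      ⟨c, c1, mem_singleton_self _⟩).mono fun d hd => Or.inl ?_)
  rw [mem_singleton.1 hd]
  exact ⟨c3, fun k => (mem_sdiff.1 (k1 k)).2 c2⟩

lemma tst1_lk {a b : ℕ} (h1 : X.m < a) (h2 : a ≤ b) (h3 : b ≤ X.j) : Lk X.E1 (X.p a) (X.p b) := by
  obtain ⟨z, k1, k2⟩ := X.fr.toFrm.seg h2 (h3.trans X.jL.le)
  refine ⟨z, k1, fun d hd => ?_⟩
  obtain ⟨n, n1, n2, rfl | rfl⟩ := (k2 d).1 hd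
  · exact Or.inl ⟨n, by omega, by omega, rfl⟩
  · exact Or.inr ⟨n, by omega, by omega, (αα _).symm⟩

theorem pd1 : PD X.U X.Q X.X1 X.E1 where
  ne := X.disc.2.1
  cO := X.h.cU
  dl := fun _ h => (X.QA h).mono fun _ k => mem_compl.2 (X.h.AU k)
  x0 := by
    rintro _ ⟨n, n1, n2, rfl⟩
    exact X.nQ n1 (n2.trans_lt X.jL)
  e0 := by
    rintro _ ⟨n, n1, n2, rfl⟩
    have h := n2.trans X.jL
    have a : X.X1 (X.p n) := ⟨n, n1, n2.le, rfl⟩
    have b : X.X1 (X.p (n + 1)) := ⟨n + 1, by omega, n2, rfl⟩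
    refine ⟨X.fr.bd n h, ?_⟩
    rcases X.fr.ends n h with ⟨k1, k2⟩ | ⟨k1, k2⟩ <;> rw [k1, k2]
    exacts [⟨a, b⟩, ⟨b, a⟩]
  lk := by
    rintro _ _ ⟨a, a1, a2, rfl⟩ ⟨b, b1, b2, rfl⟩
    rcases le_total a b with h | h
    exacts [X.tst1_lk a1 h b2, (X.tst1_lk b1 h a2).symm]

lemma tst1_OU : X.O ⊆ X.U := fun _ h => (X.O_sub h).1

lemma tst1_NB (h : g ∈ X.N) : g ∈ X.B1 :=
  mem_union_right _ (mem_sdiff.2 ⟨(mem_Nb.1 h).1, fun k => (X.O_sub k).2 h⟩)

lemma tst1_eO : f (X.dd X.m) ∈ X.U ∧ f (X.dd X.m) ∉ X.O :=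
  ⟨(mem_Nb.1 (X.fN le_rfl)).1, fun k => (X.O_sub k).2 (X.fN le_rfl)⟩

lemma tst1_cB : Conn X.B1 := by
  have hle := X.tst1_le
  refine conn_of_core X.h.cB subset_union_left fun Z hZ hne hc => ?_
  by_contra k
  have hU : ∀ g ∈ Z, g ∈ X.U ∧ g ∉ X.O := fun g hg =>
    mem_sdiff.1 ((mem_union.1 (hZ hg)).resolve_left fun m => k ⟨g, m, hg⟩)
  have all : ∀ i < X.L, X.Q (X.p (i + 1)) → Tch Z (X.p (i + 1)) → f (X.dd i) ∈ Z := by
    rintro i hi hQ ⟨c, c1, c2⟩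
    obtain ⟨-, c', c3, c4⟩ := tst1_corner X.fr.toFrm hi
    rw [← c4]
    refine (ivl X.disc (Q := (· ∈ Z)) (c3.trans c1.symm) (hU _ c2).1 (c4 ▸ (X.fr.bd i hi).1)
      fun d d1 d2 d3 => ?_).1 c2
    have q : X.Q (v d) := by rwa [d1, c1]
    have a : f d ∈ X.N := X.QN q d2
    have b : f (α d) ∈ X.N := by
      rw [← fρ] at d3 ⊢
      exact X.QN (by rwa [vρ]) d3
    exact ⟨fun m => hc d m (X.tst1_NB b), fun m => hc.symm d m (X.tst1_NB a)⟩
  have key : ∀ i ≤ X.m, ¬Tch Z (X.p i) := by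
    intro i hi
    induction i with
    | zero =>
      intro ht
      have h1 : X.L - 1 < X.L := by omega
      have h2 : X.p (X.L - 1 + 1) = X.p 0 := by rw [Nat.sub_add_cancel (by omega), X.fr.per]
      have h3 := X.fr.blue _ (by omega) h1
      exact k ⟨_, h3, hc _ (all _ h1 ⟨0, hi, h2.symm⟩ (h2 ▸ ht)) (mem_union_left _ h3)⟩
    | succ i ih =>
      intro ht
      exact ih (by omega) (X.fr.toFrm.tch (by omega)
        (Or.inl (all i (by omega) ⟨i + 1, hi, rfl⟩ ht))).1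
  have nN : ∀ g ∈ Z, g ∉ X.N := fun g hg m => by
    obtain ⟨-, c, rfl, i, i1, i2⟩ := mem_Nb.1 m
    exact key i i1 ⟨c, i2.symm, hg⟩
  refine nN _ (X.hU Z (fun g hg => (hU g hg).1) hne (fun d d1 d2 => hc d d1 (mem_union_right _
    (mem_sdiff.2 ⟨d2, fun m => (hU _ d1).2 ?_⟩))) X.tst1_eO.1) (X.fN le_rfl)
  exact Cp_cl.symm d m (mem_sdiff.2 ⟨(hU _ d1).1, nN _ d1⟩)

lemma tst1_adA {K : Finset (F D)} (k1 : K ⊆ X.O) (k2 : Cl X.O K) (h1 : X.m < i) (h2 : i < X.j)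
    (h3 : f (X.dd i) ∈ K) : Ad K X.A := by
  have hle := X.tst1_le
  induction i with
  | zero => omega
  | succ i ih =>
    by_cases hk : i + 1 < X.k
    · exact ⟨_, h3, X.fr.red _ hk⟩
    have nt := X.jmin (i + 1) (by omega) h2
    obtain ⟨⟨c, c1, c2⟩, -⟩ := tst1_corner X.fr.toFrm (i := i + 1) (by omega)
    obtain ⟨-, c', c3, c4⟩ := tst1_corner X.fr.toFrm (i := i) (by omega)
    refine ih (by omega) (by omega) ?_
    rw [← c4]
    refine (ivl X.disc (Q := (· ∈ K)) (c3.trans c1.symm) (c2 ▸ X.tst1_OU (k1 h3))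
      (c4 ▸ (X.fr.bd i (by omega)).1) fun d d1 d2 d3 => ?_).1 (c2 ▸ h3)
    rw [c1] at d1
    exact ⟨fun m => k2 d m (Cp_cl d (k1 m) (mem_sdiff.2 ⟨d3, fun n => nt (d1 ▸ tch_v' n)⟩)),
      fun m => k2.symm d m (Cp_cl.symm d (k1 m) (mem_sdiff.2 ⟨d2, fun n => nt (d1 ▸ tch_v n)⟩))⟩

theorem inst1 : Inst X.A X.B1 X.O where
  part := fun g => by
    have h1 := X.h.part g
    have h2 : g ∈ X.O → g ∈ X.U := fun k => X.tst1_OU k
    simp only [B1, mem_union, mem_sdiff]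
    tauto
  cA := X.h.cA
  cB := X.tst1_cB
  ad := X.h.ad.mono Subset.rfl subset_union_left
  both := fun g hg => by
    obtain ⟨K, k1, k2, k3, k4⟩ := exists_comp hg
    obtain ⟨_, ⟨n, n1, n2, rfl⟩, k5⟩ := Cp_root k4 k2 hg
    obtain ⟨d, d1, d2, d3⟩ := X.hU.exit (k1.trans X.tst1_OU) ⟨g, k2⟩
      fun m => X.tst1_eO.2 (k1 (m X.tst1_eO.1))
    exact ⟨K, k1, k3, k2, X.tst1_adA k1 k4 n1 n2 k5, d, d1,
      mem_union_right _ (mem_sdiff.2 ⟨d2, fun m => d3 (k4 d d1 m)⟩)⟩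
  big := X.h.big.mono X.tst1_OU

theorem pre1 : Pre X.O X.W1 := by
  refine ⟨?_, fun e e' _ h1 h2 _ _ _ _ => h1.2.trans h2.2.symm⟩
  rintro _ ⟨h, rfl⟩
  have := X.jL
  exact ⟨X.fO (by omega) (by omega), fun k => (X.fr.bd _ (by omega)).2 (X.tst1_OU k)⟩

theorem card1 : #X.O < #X.U :=
  card_lt_card ⟨X.tst1_OU, fun k => X.tst1_eO.2 (k X.tst1_eO.1)⟩

variable {X}

lemma sub (s : X.St S) (h : g ∈ S) : g ∈ X.A ∨ g ∈ X.O := by
  have h1 := X.inst1.part g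
  have h2 : g ∉ X.B1 := fun k => mem_compl.1 (s.sB k) h
  tauto

lemma NS (s : X.St S) (h : g ∈ X.N) : g ∉ S := mem_compl.1 (s.sB (X.tst1_NB h))

lemma BS (s : X.St S) (h : g ∈ X.B) : g ∉ S := mem_compl.1 (s.sB (mem_union_left _ h))

lemma bvQ (s : X.St S) (h : X.Q r) : BV S r := by
  refine ⟨(X.QA h).mono s.sA, ?_⟩
  obtain ⟨n, k1, rfl⟩ := h
  have := X.tst1_le
  exact (X.fr.toFrm.tch (by omega) (Or.inl (mem_compl.2 (NS s (X.fN k1))))).1

lemma d2w (s : X.St S) : X.D2 S (X.p (X.m + 1)) := by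
  have := X.tst1_le
  exact ⟨⟨(X.fr.toFrm.tch (by omega) (Or.inr (s.sA (X.fr.red _ (by omega))))).2,
    (X.fr.toFrm.tch (by omega) (Or.inl (mem_compl.2 (NS s (X.fN le_rfl))))).2⟩,
    X.nQ (by omega) (by omega)⟩

lemma tst1_bvy (s : X.St S) : BV S (X.p X.k) := by
  have := X.tst1_le
  have h := (X.fr.toFrm.tch (i := X.k - 1) (by omega)
    (Or.inr (s.sA (X.fr.red _ (by omega))))).2
  rw [Nat.sub_add_cancel (by omega)] at h
  exact ⟨h, (X.fr.toFrm.tch (by omega)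
    (Or.inr (mem_compl.2 (BS s (X.fr.blue _ le_rfl (by omega)))))).1⟩

lemma tst1_redc (s : X.St S) (h : X.k < X.j) : f (X.dd (X.j - 1)) ∈ S := by
  have := X.jL
  by_contra k
  exact s.pre _ ⟨h, rfl⟩ (iff_of_false k (BS s (X.fr.blue _ (by omega) (by omega))))

lemma d2c (s : X.St S) : X.D2 S (X.p X.j) := by
  have := X.tst1_le
  refine ⟨?_, X.nQ (by omega) X.jL⟩
  rcases X.kj.eq_or_lt with h | h
  · exact h ▸ tst1_bvy s
  have h1 := (X.fr.toFrm.tch (i := X.j - 1) (by omega) (Or.inl (tst1_redc s h))).2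
  have h2 := (X.fr.toFrm.tch (i := X.j - 1) (by omega)
    (Or.inr (mem_compl.2 (BS s (X.fr.blue _ (by omega) (by omega)))))).2
  rw [Nat.sub_add_cancel (by omega)] at h1 h2
  exact ⟨h1, h2⟩

lemma bvy (s : X.St S) : BV S (X.p X.k) := tst1_bvy s

lemma redc (s : X.St S) (h : X.k < X.j) : f (X.dd (X.j - 1)) ∈ S := tst1_redc s h

lemma d2_vh (s : X.St S) (h : X.D2 S r) (k : Tch X.U r) : VH X.U X.Q X.X1 X.E1 r := by
  obtain ⟨⟨⟨c, rfl, c1⟩, -⟩, h2⟩ := h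
  rcases sub s c1 with a | a
  · obtain ⟨n, n1, n2⟩ := X.fr.toFrm.vs ⟨k, tch_v (mem_compl.2 (X.h.AU a))⟩
    have h3 : ¬X.k < n := fun m => X.fr.nA n m n1 (n2 ▸ tch_v a)
    have h4 : ¬n ≤ X.m := fun m => h2 ⟨n, m, n2⟩
    have := X.kj
    exact Or.inl ⟨n, by omega, by omega, n2⟩
  · exact Or.inr (tch_v a)

end Cfg

end PM

end Pool.Agent.MP_42ec7b_co

end MrgPart6

-- ======== part 7: formerly Pool.Agent.MP_42ec7b_co.A.TSt2
section MrgPart7

/-!
The second stage.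
-/

set_option autoImplicit false

open Finset

namespace Pool.Agent.MP_42ec7b_co

open Classical

namespace PM

variable {D : Type} [PM D]

namespace Cfg

variable {X : Cfg D} {S K : Finset (F D)} {g : F D}

lemma M_sub (h : g ∈ X.M S) : g ∈ X.U ∧ g ∉ S := mem_sdiff.1 (Cp_sub h).1

private lemma tst2_mL : X.m + 1 < X.L := X.mk1.trans X.fr.kL

lemma eM (s : X.St S) : f (X.dd X.m) ∉ X.M S := fun h =>
  Cp_ntch (X.fr.toFrm.tch (P := X.M S) (Nat.lt_of_succ_lt tst2_mL) (Or.inl h)).2 (d2w s)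

theorem card2 (s : X.St S) : #(X.M S) < #X.U :=
  card_lt_card ⟨fun _ hg => (M_sub hg).1,
    fun h => eM s (h (X.fr.bd _ (Nat.lt_of_succ_lt tst2_mL)).1)⟩

private lemma tst2_lk {i j : ℕ} (h : i ≤ j) (hj : j ≤ X.m) : Lk X.E2 (X.p i) (X.p j) := by
  have := tst2_mL (X := X)
  obtain ⟨z, h1, h2⟩ := X.fr.toFrm.seg h (by omega : j ≤ X.L)
  refine ⟨z, h1, fun d hd => ?_⟩
  obtain ⟨n, -, k2, rfl | rfl⟩ := (h2 d).1 hd
  · exact Or.inl ⟨n, by omega, rfl⟩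
  · exact Or.inr ⟨n, by omega, (αα _).symm⟩

theorem pd2 (s : X.St S) : PD (X.Ω S) (X.D2 S) X.Q X.E2 := by
  have hc : (X.Ω S)ᶜ = S ∪ X.Uᶜ := ext fun g => by
    simp only [Ω, mem_compl, mem_sdiff, mem_union]; tauto
  have hm := tst2_mL (X := X)
  obtain ⟨a, ha⟩ := X.h.nA
  refine ⟨⟨a, hc ▸ mem_union_left _ (s.sA ha)⟩,
    hc ▸ conn_union s.cS X.h.cU (Or.inr ⟨a, s.sA ha, mem_compl.2 (X.h.AU ha)⟩),
    fun r hr => hc ▸ hr.1.1.mono subset_union_left, fun r hr k => k.2 hr, ?_, ?_⟩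
  · rintro d ⟨i, hi, rfl⟩
    have hb := X.fr.bd i (by omega)
    refine ⟨⟨mem_sdiff.2 ⟨hb.1, NS s (X.fN hi.le)⟩, fun k => hb.2 (mem_sdiff.1 k).1⟩, ?_⟩
    rcases X.fr.ends i (by omega) with ⟨k1, k2⟩ | ⟨k1, k2⟩
    · exact ⟨⟨i, hi.le, k1.symm⟩, i + 1, hi, k2.symm⟩
    · exact ⟨⟨i + 1, hi, k1.symm⟩, i, hi.le, k2.symm⟩
  · rintro _ _ ⟨i, hi, rfl⟩ ⟨j, hj, rfl⟩
    rcases le_total i j with k | k
    exacts [tst2_lk k hj, (tst2_lk k hi).symm]

private lemma tst2_B (s : X.St S) : X.B ⊆ Sᶜ \ X.M S := fun _ hg =>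
  mem_sdiff.2 ⟨mem_compl.2 (BS s hg), fun k => X.h.BU hg (M_sub k).1⟩

private lemma tst2_red (s : X.St S) {i : ℕ} (h : i ≤ X.m) : f (α (X.dd i)) ∈ S :=
  s.sA (X.fr.red i (by have := X.mk1; omega))

/-- A boundary edge of `U` with red outside and exactly one end in `Q` is the prescribed one. -/
private lemma tst2_e (s : X.St S) {d : D} (h : Bd X.U d) (h1 : f (α d) ∈ S)
    (h2 : ¬(X.Q (v d) ↔ X.Q (v (α d)))) : d = X.dd X.m := by
  obtain ⟨i, hi, rfl⟩ := X.fr.sur d h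
  have hk : i < X.k := by
    by_contra k
    exact BS s (X.fr.blue i (not_lt.1 k) hi) h1
  have hL := X.fr.kL
  have key : ¬(X.Q (X.p i) ↔ X.Q (X.p (i + 1))) := by
    rcases X.fr.ends i hi with ⟨k1, k2⟩ | ⟨k1, k2⟩
    · rwa [k1, k2] at h2
    · rw [k1, k2] at h2
      exact fun k => h2 k.symm
  rcases lt_trichotomy i X.m with k | k | k
  · exact absurd (iff_of_true ⟨i, k.le, rfl⟩ ⟨i + 1, k, rfl⟩) key
  · rw [k]
  · exact absurd (iff_of_false (X.nQ k hi) (X.nQ (by omega) (by omega))) key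

private lemma tst2_cB (s : X.St S) : Conn (Sᶜ \ X.M S) := by
  refine conn_of_core X.h.cB (tst2_B s) fun Z hZ hne hc => ?_
  by_contra k
  have hS : ∀ g ∈ Z, g ∉ S := fun g hg => mem_compl.1 (mem_sdiff.1 (hZ hg)).1
  have hU : ∀ g ∈ Z, g ∈ X.U := fun g hg => by_contra fun m =>
    (X.h.or m).elim (fun m' => hS g hg (s.sA m')) fun m' => k ⟨g, m', hg⟩
  obtain ⟨b, hb⟩ := X.h.nB
  obtain ⟨d, d1, d2, d3⟩ := s.cT.exit (hZ.trans sdiff_subset) hne
    fun m => k ⟨b, hb, m (mem_compl.2 (BS s hb))⟩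
  have d4 : f (α d) ∈ X.M S := by_contra fun m => d3 (hc d d1 (mem_sdiff.2 ⟨d2, m⟩))
  have d5 : f d ∈ Nb (X.Ω S) (X.D2 S) := by_contra fun m =>
    (mem_sdiff.1 (hZ d1)).2 (Cp_cl.symm d d4 (mem_sdiff.2 ⟨mem_sdiff.2 ⟨hU _ d1, hS _ d1⟩, m⟩))
  obtain ⟨-, c, c1, c2⟩ := mem_Nb.1 d5
  have hd : Disc Sᶜ := (s.disc X.inst1).compl
  have hm := tst2_mL (X := X)
  obtain ⟨L, q, e, fr, e0, q0⟩ := exists_frm hd (d := X.dd X.m) (t := X.p X.m)
    ⟨mem_compl.2 (NS s (X.fN le_rfl)), fun m => mem_compl.1 m (tst2_red s le_rfl)⟩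
    ((X.fr.ends _ (by omega)).imp (fun m => m.1.symm) fun m => m.2.symm)
  have main : ∀ t n, n + t = L → 0 < n → X.D2 S (q n) → ¬Tch Z (q n) := by
    intro t
    induction t with
    | zero =>
      intro n h1 _ h3
      obtain rfl : n = L := h1
      exact absurd ⟨X.m, le_rfl, by rw [fr.per, q0]⟩ h3.2
    | succ t ih =>
      rintro n h1 h2 h3 ⟨a, a1, a2⟩
      have hn : n < L := by omega
      have hb := fr.bd n hn
      obtain ⟨⟨a', b1, b2⟩, -⟩ := fr.tch (P := {f (e n)}) hn (Or.inl (mem_singleton_self _))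
      rw [mem_singleton] at b2
      have g1 : f (e n) ∈ Z := by
        rw [← b2]
        refine (ivl hd (Q := (· ∈ Z)) (b1.trans a1.symm) (mem_compl.2 (hS _ a2)) (b2 ▸ hb.1)
          fun x x1 x2 x3 => ?_).1 a2
        have x4 : X.D2 S (v x) := by rwa [x1, a1]
        exact ⟨fun m => hc x m (mem_sdiff.2 ⟨x3, fun m' => Cp_ntch (tch_v' m') x4⟩),
          fun m => hc.symm x m (mem_sdiff.2 ⟨x2, fun m' => Cp_ntch (tch_v m') x4⟩)⟩
      have g2 : X.Q (q (n + 1)) := by_contra fun m =>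
        ih (n + 1) (by omega) (by omega) ⟨bv_compl.1 (fr.bv hn), m⟩ (fr.tch hn (Or.inl g1)).2
      have g3 : f (α (e n)) ∈ S := by simpa using hb.2
      have g4 : f (α (e n)) ∉ X.U := fun m => by
        obtain ⟨-, y, y1, y2⟩ := fr.tch (P := {f (α (e n))}) hn (Or.inr (mem_singleton_self _))
        rw [mem_singleton] at y2
        exact NS s (X.QN (c := y) (y1 ▸ g2) (y2 ▸ m)) (y2 ▸ g3)
      have g5 : e n = X.dd X.m := tst2_e s ⟨hU _ g1, g4⟩ g3 (by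
        rcases fr.ends n hn with ⟨k1, k2⟩ | ⟨k1, k2⟩ <;> rw [k1, k2]
        exacts [fun m => h3.2 (m.2 g2), fun m => h3.2 (m.1 g2)])
      have := fr.dinj n hn 0 (by omega) (g5.trans e0.symm)
      omega
  obtain ⟨n, n1, n2⟩ := fr.vs (bv_compl.2 c2.1)
  refine main (L - n) n (by omega) (Nat.pos_of_ne_zero ?_) (n2 ▸ c2) ⟨c, n2.symm, c1 ▸ d1⟩
  rintro rfl
  exact c2.2 ⟨X.m, le_rfl, q0.symm.trans n2⟩

theorem inst2 (s : X.St S) : Inst S (Sᶜ \ X.M S) (X.M S) := by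
  refine ⟨fun g => ?_, s.cS, tst2_cB s, X.h.ad.mono s.sA (tst2_B s), fun g hg => ?_,
    X.h.big.mono fun _ hg => (M_sub hg).1⟩
  · have : g ∈ X.M S → g ∉ S := fun h => (M_sub h).2
    simp only [mem_sdiff, mem_compl]
    tauto
  · obtain ⟨K, k1, k2, k3, k4⟩ := exists_comp hg
    obtain ⟨_, ⟨i, hi, rfl⟩, h1⟩ := Cp_root k4 k2 hg
    obtain ⟨b, hb⟩ := X.h.nB
    obtain ⟨d, d1, d2, d3⟩ := s.cT.exit (K := K) (fun x hx => mem_compl.2 (M_sub (k1 hx)).2)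
      ⟨g, k2⟩ fun m => X.h.BU hb (M_sub (k1 (m (mem_compl.2 (BS s hb))))).1
    exact ⟨K, k1, k3, k2, ⟨_, h1, tst2_red s hi.le⟩, d, d1,
      mem_sdiff.2 ⟨d2, fun m => d3 (k4 d d1 m)⟩⟩

/-- The frame of a component starts at its last red edge. -/
theorem kfr (s : X.St S) (hK : X.Cm S K) : ∃ i < X.m, ∃ L k p dd,
    IFr (S ∪ X.M S \ K) (Sᶜ \ X.M S) K L k p dd ∧ dd 0 = X.dd i ∧ p 0 = X.p (i + 1) := by
  obtain ⟨k1, k2, k3, g, k4⟩ := hK
  obtain ⟨_, ⟨i0, h0, rfl⟩, h1⟩ := Cp_root k3 k4 (k1 k4)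
  obtain ⟨i, i1, i2⟩ := exists_max_image ((range X.m).filter fun i => f (X.dd i) ∈ K) id
    ⟨i0, mem_filter.2 ⟨mem_range.2 h0, h1⟩⟩
  obtain ⟨i1, i3⟩ := mem_filter.1 i1
  rw [mem_range] at i1
  have hm := tst2_mL (X := X)
  have i4 : f (X.dd (i + 1)) ∉ K := fun m => by
    rcases (Nat.succ_le_of_lt i1).lt_or_eq with m' | m'
    · have := i2 (i + 1) (mem_filter.2 ⟨mem_range.2 m', m⟩)
      simp at this
    · exact eM s (m' ▸ k1 m)
  refine ⟨i, i1, exists_ifr ((inst2 s).comp k1 k3) k2 i3 (mem_union_left _ (tst2_red s i1.le))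
    ((X.fr.ends _ (by omega)).symm.imp (fun m => m.1.symm) fun m => m.2.symm) ?_⟩
  by_contra hB
  obtain ⟨-, a, a1, a2⟩ := X.fr.toFrm.tch (P := {f (X.dd i)}) (i := i) (by omega)
    (Or.inl (mem_singleton_self _))
  obtain ⟨⟨b, b1, b2⟩, -⟩ := X.fr.toFrm.tch (P := {f (X.dd (i + 1))}) (i := i + 1) (by omega)
    (Or.inl (mem_singleton_self _))
  rw [mem_singleton] at a2 b2
  have hM : ∀ x, v x = X.p (i + 1) → f x ∈ X.U → f x ∈ X.M S := fun x x1 x2 => by_contra fun m =>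
    hB ⟨x, x1, mem_sdiff.2 ⟨mem_compl.2 (NS s (X.QN ⟨i + 1, i1, x1.symm⟩ x2)), m⟩⟩
  refine i4 (b2 ▸ (ivl X.disc (Q := (· ∈ K)) (b1.trans a1.symm)
    (a2 ▸ (X.fr.bd i (by omega)).1) (b2 ▸ (X.fr.bd (i + 1) (by omega)).1)
    fun x x1 x2 x3 => ⟨fun m => k3 x m ?_, fun m => k3.symm x m (hM x (x1.trans a1) x2)⟩).1
      (a2 ▸ i3))
  have := hM (ρ x) (by rw [vρ, x1, a1]) (by rwa [fρ])
  rwa [fρ] at this

end Cfg

end PM

end Pool.Agent.MP_42ec7b_co

end MrgPart7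

-- ======== part 8: formerly Pool.Agent.MP_42ec7b_co.A.TPend
section MrgPart8

/-!
Pendant pieces have one attachment on the core.
-/

set_option autoImplicit false

open Finset

namespace Pool.Agent.MP_42ec7b_co

open Classical

namespace PM

variable {D : Type} [PM D] {Ω : Finset (F D)} {Dl X0 N : V D → Prop} {E0 : D → Prop}
  {a b u w w' : V D}

private lemma pend_lk (h : PD Ω Dl X0 E0) (ha : VH Ω Dl X0 E0 a) :
    ∃ r, X0 r ∧ Lk (HE Ω Dl E0) a r := by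
  rcases ha with ha | ⟨c, rfl, hc⟩
  · exact ⟨a, ha, Lk.refl⟩
  obtain ⟨J, k1, k2, k3, d, k4, k5⟩ := mem_Cp.1 hc
  exact ⟨v d, (h.e0 d k4).2.1, (facelk k2 (tch_v k3) (tch_v k5)).mono fun e he =>
    Or.inl (Or.inr (Or.inr (Or.inl (mem_Cp.2 ⟨J, k1, k2, he, d, k4, k5⟩))))⟩

private lemma pend_in (h : PD Ω Dl X0 E0) {d : D} (k : HE Ω Dl E0 d) : InE Ω d :=
  k.elim (fun k => Or.inl (h.e0 d k).1.1) fun k => k.elim (fun k => Or.inr (h.e0 _ k).1.1)
    fun k => k.mono fun _ m => (Cp_sub m).1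

theorem PD.pend (h : PD Ω Dl X0 E0) (ha : VH Ω Dl X0 E0 a) (hb : VH Ω Dl X0 E0 b)
    (k : Rch (fun d => InE Ω d ∧ ¬HE Ω Dl E0 d) (fun r => ¬Dl r) a b) : a = b := by
  obtain ⟨z1, c1, s1⟩ := k.lk'
  obtain ⟨ra, xa, la⟩ := pend_lk h ha
  obtain ⟨rb, xb, lb⟩ := pend_lk h hb
  obtain ⟨z2, c2, s2⟩ := (lb.trans ((h.lk _ _ xb xa).mono fun _ m => Or.inl (Or.inl m))).trans
    la.symm
  have t1 : ∀ d, z1 d = 1 → (InE Ω d ∧ ¬HE Ω Dl E0 d) ∧ ¬Dl (v d) := fun d m =>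
    (s1 d m).elim (fun m => ⟨m.1, m.2.1⟩) fun m => ⟨by simpa using nHE_symm m.1, by
      have := m.2.2.2
      rw [αα] at this
      exact this.elim id fun e => e ▸ h.vh hb⟩
  have t2 : ∀ d, z2 d = 1 → HE Ω Dl E0 d := fun d m =>
    (s2 d m).elim id fun m => by simpa using m.symm
  obtain ⟨x, hx⟩ := h.ne
  obtain ⟨y, y0, hy⟩ := (c1.add c2).side x
  have t3 : ∀ d, ¬(InE Ω d ∧ ¬Dl (v d)) → y (f d) = y (f (α d)) := fun d m => by
    rw [← z2_add_eq, ← hy, z2_zero fun e => m ⟨(t1 d e).1.1, (t1 d e).2⟩,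
      z2_zero fun e => m ⟨pend_in h (t2 d e), h.vh (h.he (t2 d e))⟩, add_zero]
  have y1 : ∀ g, g ∉ Ω → y g = 0 := fun g m => (const_on h.cO y (fun d k1 k2 => t3 d fun e =>
    e.1.elim (mem_compl.1 k1) (mem_compl.1 k2)) (mem_compl.2 m) hx).trans y0
  have y2 : ∀ g ∈ Nb Ω Dl, y g = 0 := fun g m => by
    obtain ⟨-, c, rfl, n⟩ := mem_Nb.1 m
    obtain ⟨c', k1, k2⟩ := h.dl _ n
    exact round (P := fun g => y g = 0) k1.symm (fun d k3 k4 =>
      (t3 d fun e => e.2 (by rwa [k3, k1])).symm.trans k4) (y1 _ (mem_compl.1 k2))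
  have y3 : ∀ d, HE Ω Dl E0 d → (if f d ∈ Cp Ω Dl E0 then 0 else y (f d)) = 0 := fun d m => by
    split_ifs with e
    · rfl
    by_cases k1 : f d ∈ Ω
    swap
    · exact y1 _ k1
    refine y2 _ (by_contra fun k2 => e ?_)
    rcases m with m | m | m | m
    exacts [Cp_of m k1 k2, ((h.e0 _ m).1.2 (by rwa [αα])).elim, m,
      Cp_cl.symm d m (mem_sdiff.2 ⟨k1, k2⟩)]
  refine c1.eq_of_even ((sum_congr rfl fun d _ => ?_).trans
    (orth_v (fun g => if g ∈ Cp Ω Dl E0 then 0 else y g) a))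
  by_cases m : HE Ω Dl E0 d
  · rw [y3 d m, y3 _ m.symm, z2_zero fun e => (t1 d e).1.2 m, add_zero]
  · rw [if_neg fun e => m (Or.inr (Or.inr (Or.inl e))),
      if_neg fun e => m (Or.inr (Or.inr (Or.inr e))), ← hy, z2_zero fun e => m (t2 d e), add_zero]

theorem PD.decomp (h : PD Ω Dl X0 E0) (hN : ∀ r, N r → ¬Dl r) (ha : VH Ω Dl X0 E0 a)
    (k : Rch (InE Ω) N a w) : ∃ r, VH Ω Dl X0 E0 r ∧ Rch (HE Ω Dl E0) N a r ∧
      Rch (fun d => InE Ω d ∧ ¬HE Ω Dl E0 d) N r w :=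
  k.ind (P := fun w => ∃ r, VH Ω Dl X0 E0 r ∧ Rch (HE Ω Dl E0) N a r ∧
    Rch (fun d => InE Ω d ∧ ¬HE Ω Dl E0 d) N r w) ⟨a, ha, Rch.refl, Rch.refl⟩
    fun d _ k2 k3 ⟨r, r1, r2, r3⟩ => by
      by_cases m : HE Ω Dl E0 d
      · obtain rfl := h.pend r1 (h.he m) (r3.mono fun e _ e2 e3 => ⟨hN _ e2, e3⟩)
        exact ⟨_, h.he m.symm, r2.tail k2 m, Rch.refl⟩
      · exact ⟨r, r1, r2, r3.tail k2 ⟨k3, m⟩⟩

theorem PD.first (h : PD Ω Dl X0 E0) (k : Rch (InE Ω) N u w) (hw : VH Ω Dl X0 E0 w) :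
    ∃ r, VH Ω Dl X0 E0 r ∧ Rch (fun d => InE Ω d ∧ ¬HE Ω Dl E0 d) N u r ∧ Rch (InE Ω) N r w := by
  induction k using Relation.ReflTransGen.head_induction_on with
  | refl => exact ⟨w, hw, Rch.refl, Rch.refl⟩
  | head k1 k2 ih =>
    obtain ⟨n, d, e, rfl, rfl⟩ := k1
    obtain ⟨r, r1, r2, r3⟩ := ih
    by_cases m : HE Ω Dl E0 d
    · exact ⟨_, h.he m, Rch.refl, (Rch.one n e).trans k2⟩
    · exact ⟨r, r1, (Rch.one n ⟨e, m⟩).trans r2, r3⟩

theorem PD.one (h : PD Ω Dl X0 E0) (hN : ∀ r, N r → ¬Dl r)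
    (hu : ∀ r, Rch (InE Ω) N u r → N r → ¬VH Ω Dl X0 E0 r) (k : Rch (InE Ω) N u w)
    (k' : Rch (InE Ω) N u w') (hw : VH Ω Dl X0 E0 w) (hw' : VH Ω Dl X0 E0 w') : w = w' :=
  have m : ∀ {w}, Rch (InE Ω) N u w →
      Rch (fun d => InE Ω d ∧ ¬HE Ω Dl E0 d) (fun r => ¬Dl r) u w := fun k =>
    k.mono fun _ k1 k2 k3 => ⟨hN _ k2, k3, fun e => hu _ k1 k2 (h.he e)⟩
  h.pend hw hw' (((m k).rev (fun _ => nHE_symm) (fun _ => id) (h.vh hw)).trans (m k'))

end PM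

end Pool.Agent.MP_42ec7b_co

end MrgPart8

-- ======== part 9: formerly Pool.Agent.MP_42ec7b_co.A.TAtt
section MrgPart9

/-!
Attachments of the bridges after the first stage.
-/

set_option autoImplicit false

open Finset

namespace Pool.Agent.MP_42ec7b_co

open Classical

namespace PM

variable {D : Type} [PM D]

namespace Cfg

variable {X : Cfg D} {S : Finset (F D)}

private lemma att_nQ (s : X.St S) (r : V D) (h : ¬BV S r) : ¬X.Q r := fun q => h (bvQ s q)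

private lemma att_vh (s : X.St S) {u w : V D} (hu : ¬BV S u)
    (k : Rch (InE X.U) (fun r => ¬BV S r) u w) (hw : X.D2 S w) : VH X.U X.Q X.X1 X.E1 w := by
  rcases k.last with rfl | ⟨d, -, -, h, rfl⟩
  exacts [absurd hw.1 hu, d2_vh s hw h.tch']

private lemma att_O (s : X.St S) {d e : D} (h : X.E1 e) (k : e = d ∨ e = α d)
    (hv : ¬BV S (v d)) : f e ∈ X.O := by
  obtain ⟨i, h1, h2, rfl⟩ := h
  by_cases c : X.k ≤ i
  · exact X.fO c h2
  have a1 := s.sA (X.fr.red i (not_le.1 c))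
  have a2 : f d ∈ S ↔ f (α d) ∈ S := by rw [← fρ]; exact mono_iff hv (vρ d).symm
  have a3 : f (X.dd i) ∈ S := by
    rcases k with k | k <;> rw [k] at a1 ⊢
    exacts [a2.2 a1, a2.1 (by rwa [αα] at a1)]
  exact (sub s a3).resolve_left fun m => X.h.AU m (X.fr.bd i (h2.trans X.jL)).1

theorem att2 (s : X.St S) (u : V D) :
    ∃ a b, ∀ w, Rch (InE X.U) (fun r => ¬BV S r) u w → X.D2 S w → w = a ∨ w = b := by
  by_cases hu : BV S u
  · exact ⟨u, u, fun w k _ => Or.inl (k.stop (not_not.2 hu)).symm⟩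
  by_cases h0 : ∃ r, Rch (InE X.U) (fun r => ¬BV S r) u r ∧ ¬BV S r ∧ VH X.U X.Q X.X1 X.E1 r
  · obtain ⟨r0, k0, n0, v0⟩ := h0
    obtain ⟨a, b, hab⟩ := s.good r0
    refine ⟨a, b, fun w k hw => hab w ?_ hw.1⟩
    obtain ⟨r, r1, r2, r3⟩ := X.pd1.decomp (att_nQ s) v0
      ((k0.rev (fun _ => InE.symm) (fun _ h => h) n0).trans k)
    obtain rfl := X.pd1.pend r1 (att_vh s hu k hw) (r3.mono fun d _ m1 m2 => ⟨att_nQ s _ m1, m2⟩)
    refine r2.mono fun d _ m1 m2 => ⟨m1, ?_⟩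
    rcases m2 with m | m | m
    exacts [Or.inl (att_O s m (Or.inl rfl) m1), Or.inr (att_O s m (Or.inr rfl) m1), m]
  by_cases h1 : ∃ w, Rch (InE X.U) (fun r => ¬BV S r) u w ∧ X.D2 S w
  · obtain ⟨w0, k0, d0⟩ := h1
    exact ⟨w0, w0, fun w k hw => Or.inl (X.pd1.one (att_nQ s) (fun r m1 m2 m3 => h0 ⟨r, m1, m2, m3⟩)
      k k0 (att_vh s hu k hw) (att_vh s hu k0 d0))⟩
  · exact ⟨u, u, fun w k hw => absurd ⟨w, k, hw⟩ h1⟩

private lemma att_down (X : Cfg D) {n : ℕ} (h1 : X.j ≤ n) (h2 : n < X.L) :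
    Rch (fun d => InE X.U d ∧ ¬HE X.U X.Q X.E1 d) (fun r => ¬X.Q r) (X.p n) (X.p X.j) := by
  induction n, h1 using Nat.le_induction with
  | base => exact Rch.refl
  | succ i hi ih =>
    have hL : i < X.L := by omega
    have b := X.fr.bd i hL
    have e : InE X.U (X.dd i) ∧ ¬HE X.U X.Q X.E1 (X.dd i) := by
      refine ⟨Or.inl b.1, ?_⟩
      rintro (⟨n, -, m1, m2⟩ | ⟨n, -, m1, m2⟩ | m | m)
      · have := X.fr.dinj n (m1.trans X.jL) i hL m2
        omega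
      · exact b.2 (m2 ▸ (X.fr.bd n (m1.trans X.jL)).1)
      · exact X.nfO hi hL m
      · exact b.2 (X.O_sub m).1
    have := X.mk1
    have := X.kj
    exact (X.fr.toFrm.bwd hL e (nHE_symm e) (X.nQ (by omega) h2)).trans (ih hL)

private lemma att_lk {b w : V D} (h : Tch Sᶜ b) (k : Rch (InE X.U) (fun r => ¬BV S r) b w) :
    Lk (fun d => f d ∈ X.U ∧ f d ∉ S) b w := by
  have a : ∀ r, Rch (InE X.U) (fun r => ¬BV S r) b r → Tch Sᶜ r := fun r m =>
    m.ind h fun d _ m1 _ m2 => tch_α (mem_compl.2 fun m3 => m1 ⟨tch_v m3, m2⟩)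
  refine k.lk.mono fun d ⟨m1, m2, m3⟩ => m1.imp (fun m => ⟨m, fun m' => ?_⟩) fun m => ⟨m, fun m' => ?_⟩
  exacts [m2 ⟨tch_v m', a _ m3⟩, m2 ⟨tch_v' m', a _ m3⟩]

private lemma att_Q {w : V D} (h : X.V2 S w) :
    ∃ i ≤ X.m, Lk (fun d => f d ∈ X.U ∧ f d ∉ S) w (X.p i) := by
  rcases h with ⟨i, h1, rfl⟩ | ⟨c, rfl, h⟩
  · exact ⟨i, h1, Lk.refl⟩
  obtain ⟨J, j1, j2, j3, d, ⟨i, h1, rfl⟩, j4⟩ := mem_Cp.1 h
  have := X.mk1
  have := X.fr.kL
  exact ⟨i, h1.le, (facelk j2 (tch_v j3) (X.fr.toFrm.tch (by omega) (Or.inl j4)).1).mono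
    fun d m => Or.inl (mem_sdiff.1 (mem_sdiff.1 (j1 m)).1)⟩

theorem attc (s : X.St S) {b : V D} (h1 : ¬BV S b) (h2 : Tch X.B b) (h3 : Tch X.U b) :
    (∃ n, X.j < n ∧ n < X.L ∧ X.p n = b ∧
      ∀ w, Rch (InE X.U) (fun r => ¬BV S r) b w → X.D2 S w → w = X.p X.j) ∨
    ∀ w, Rch (InE X.U) (fun r => ¬BV S r) b w → ¬X.V2 S w := by
  have hb : Tch Sᶜ b := h2.mono fun g m => mem_compl.2 (BS s m)
  obtain ⟨n, hn, rfl⟩ := X.fr.toFrm.vs ⟨h3, h2.mono fun g m => mem_compl.2 (X.h.BU m)⟩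
  have k0 := X.fr.k0
  have kL := X.fr.kL
  have mk := X.mk1
  have kj := X.kj
  have jL := X.jL
  have kn : X.k < n := by
    by_contra c
    refine h1 ⟨Tch.mono ?_ s.sA, hb⟩
    rcases n with _ | n
    · exact (X.fr.toFrm.tch hn (Or.inr (X.fr.red 0 k0))).1
    · exact (X.fr.toFrm.tch (by omega) (Or.inr (X.fr.red n (by omega)))).2
  rcases lt_trichotomy X.j n with c | c | c
  · refine Or.inl ⟨n, c, hn, rfl, fun w k hw => ?_⟩
    obtain ⟨r, r1, r2, r3⟩ := X.pd1.first k (att_vh s h1 k hw)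
    obtain rfl := X.pd1.pend r1 (Or.inl ⟨X.j, by omega, le_rfl, rfl⟩)
      ((r2.rev (fun _ => nHE_symm) (att_nQ s) (X.pd1.vh r1)).trans (att_down X c.le hn))
    exact (r3.stop (not_not.2 (d2c s).1)).symm
  · exact absurd (c ▸ (d2c s).1) h1
  refine Or.inr fun w k hw => ?_
  obtain ⟨i, i1, i2⟩ := att_Q hw
  obtain ⟨g, hg⟩ := X.h.nA
  obtain ⟨R, r1, r2, r3, r4, d, d1, d2, d3⟩ := exit_in s.cS (X.fr.bd (X.j - 1) (by omega)).1
    (redc s (by omega)) fun m => X.h.AU hg (m (s.sA hg))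
  obtain ⟨n1, e1, rfl⟩ := X.fr.sur d ⟨r1 d1, d3⟩
  have e2 : n1 < X.k := not_le.1 fun m => BS s (X.fr.blue n1 m e1) d2
  have e3 : X.m < n1 := not_le.1 fun m => NS s (X.fN m) (r2 d1)
  exact X.fr.toFrm.arc_in X.h.cU r3 r1 (i := i) (j := n) (by omega) (by omega) hn.le
    (Or.inr (by omega)) (by omega) d1 r4
    ((((att_lk hb k).trans i2).symm).mono fun d m => Or.inl ⟨m.1, fun m' => m.2 (r2 m')⟩)

end Cfg

end PM

end Pool.Agent.MP_42ec7b_co

end MrgPart9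

-- marker of a merged file
example : 731051 + 649477 = 731051 + 649477 := rfl
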