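import Mathlib.Tactic.Bound
import Mathlib.Combinatorics.Pigeonhole
import Mathlib.RingTheory.PiTensorProduct
import Pool.Agent.MP_42ec7b_co.A.TAtt
import Pool.Agent.MP_42ec7b_co.A.Planar

-- ======== part 0: formerly Pool.Agent.MP_42ec7b_co.A.Tools
section MrgPart0

/-!
Nooses: faces meet in at most a vertex or an edge; connectivity of the dual graph.
-/

set_option autoImplicit false

open Finset

namespace Pool.Agent.MP_42ec7b_co

open Classical

namespace PM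

variable {D : Type} [PM D] {c c' d d' e e' : D} {g g' : F D} {r r' : V D}

/-- The dart `e` comes in the rotation from `c` on and before `c'`. -/
def Btw (c c' e : D) : Prop := ∃ i : ℕ, (ρ ^ i) c = e ∧ ∀ j ≤ i, (ρ ^ j) c ≠ c'

lemma Btw.v (h : Btw c c' e) : v e = v c := by
  obtain ⟨i, rfl, -⟩ := h
  exact vρpow i c

lemma Btw.ne (h : Btw c c' e) : e ≠ c' := by
  obtain ⟨i, rfl, k⟩ := h
  exact k i le_rfl

lemma btw_self (h : c ≠ c') : Btw c c' c := ⟨0, rfl, fun j hj => by rwa [Nat.le_zero.1 hj]⟩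

lemma Btw.next (h : Btw c c' e) (k : ρ e ≠ c') : Btw c c' (ρ e) := by
  obtain ⟨i, rfl, m⟩ := h
  refine ⟨i + 1, by rw [pow_succ', Equiv.Perm.mul_apply], fun j hj => ?_⟩
  rcases hj.lt_or_eq with a | rfl
  · exact m j (Nat.lt_succ_iff.1 a)
  · rwa [pow_succ', Equiv.Perm.mul_apply]

lemma Btw.prev (h : Btw c c' (ρ e)) (k : ρ e ≠ c) : Btw c c' e := by
  obtain ⟨i, m1, m2⟩ := h
  rcases i with _ | i
  · exact absurd m1.symm k
  · rw [pow_succ', Equiv.Perm.mul_apply] at m1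
    exact ⟨i, ρ.injective m1, fun j hj => m2 j (by omega)⟩

/-- Induction along the darts between two darts. -/
lemma Btw.ind {Q : D → Prop} (h : Btw c c' e) (h0 : Q c)
    (hs : ∀ d, Btw c c' d → Btw c c' (ρ d) → Q d → Q (ρ d)) : Q e := by
  obtain ⟨i, rfl, m⟩ := h
  induction i with
  | zero => exact h0
  | succ i ih =>
    have a : ∀ j ≤ i, (ρ ^ j) c ≠ c' := fun j hj => m j (by omega)
    have b : (ρ ^ (i + 1)) c = ρ ((ρ ^ i) c) := by rw [pow_succ', Equiv.Perm.mul_apply]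
    rw [b]
    exact hs _ ⟨i, rfl, a⟩ ⟨i + 1, b, m⟩ (ih a)

lemma btw_or (h : c ≠ c') (k : v e = v c) : Btw c c' e ∨ Btw c' c e :=
  vert_ind (Q := fun e => Btw c c' e ∨ Btw c' c e) (Or.inl (btw_self h)) (fun e _ m => by
    by_cases a : ρ e = c
    · exact Or.inl (by rw [a]; exact btw_self h)
    by_cases b : ρ e = c'
    · exact Or.inr (by rw [b]; exact btw_self h.symm)
    exact m.imp (fun m => m.next b) fun m => m.next a) k

/-- The last dart before `c'`. -/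
lemma btw_last (h : c ≠ c') (k : v c' = v c) (m : ρ e = c') : Btw c c' e := by
  refine (btw_or h (by rw [← vρ e, m, k])).resolve_right fun a => ?_
  have key : ∀ d, v d = v c' → Btw c' c d := fun d hd =>
    vert_ind (Q := fun d => Btw c' c d) (btw_self h.symm) (fun d _ b => by
      refine b.next fun b' => ?_
      obtain ⟨i, b1, b2⟩ := b
      obtain ⟨n, a1, a2⟩ := a
      rcases lt_or_ge i n with x | x
      · exact a2 (i + 1) x (by rw [pow_succ', Equiv.Perm.mul_apply, b1, b'])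
      · have p : (ρ ^ (n + 1)) c' = c' := by rw [pow_succ', Equiv.Perm.mul_apply, a1, m]
        have q : ∀ t, ∃ s ≤ n, (ρ ^ t) c' = (ρ ^ s) c' := fun t => by
          induction t with
          | zero => exact ⟨0, n.zero_le, rfl⟩
          | succ t ih =>
            obtain ⟨s, s1, s2⟩ := ih
            rw [pow_succ', Equiv.Perm.mul_apply, s2, ← Equiv.Perm.mul_apply, ← pow_succ']
            rcases s1.lt_or_eq with y | rfl
            exacts [⟨s + 1, y, rfl⟩, ⟨0, s.zero_le, p⟩]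
        obtain ⟨s, s1, s2⟩ := q (i + 1)
        exact a2 s s1 (by rw [← s2, pow_succ', Equiv.Perm.mul_apply, b1, b'])) hd
  exact (key c k.symm).ne rfl

lemma Btw.asymm (h : Btw c c' e) : ¬Btw c' c e := fun h' => by
  obtain ⟨i, rfl, m⟩ := h
  induction i with
  | zero => exact h'.ne rfl
  | succ i ih =>
    rw [pow_succ', Equiv.Perm.mul_apply] at h'
    exact ih (fun j hj => m j (by omega)) (h'.prev (by
      rw [← Equiv.Perm.mul_apply, ← pow_succ']; exact m _ le_rfl))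

lemma sum_ind {s : ℕ → D} {k : ℕ} (h1 : ∀ a < k, ∀ b < k, s a = s b → a = b)
    (h2 : ∀ a < k, ∀ b < k, s a ≠ α (s b)) (d : D) :
    ∑ i ∈ range k, ind (s i) d = 1 ↔ ∃ i < k, d = s i ∨ d = α (s i) := by
  refine ⟨fun h => ?_, fun ⟨i, a, b⟩ => ?_⟩
  · obtain ⟨i, a, b⟩ := exists_ne_zero_of_sum_ne_zero (h ▸ one_ne_zero)
    exact ⟨i, mem_range.1 a, ind_one ((z2_cases _).resolve_left b)⟩
  · rw [sum_eq_single i (fun j m m' => z2_zero fun x => ?_) fun m => absurd (mem_range.2 a) m]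
    · rcases b with rfl | rfl
      exacts [ind_self _, (ind_α _ _).trans (ind_self _)]
    · rw [mem_range] at m
      rcases b with rfl | rfl <;> rcases ind_one x with y | y
      exacts [m' (h1 _ a _ m y).symm, h2 _ a _ m y, h2 _ m _ a y.symm,
        m' (h1 _ a _ m (α.injective y)).symm]

/-- The edges between two corners at a vertex. -/
lemma fan (h : v c = v c') : ∃ w : D → ZMod 2, (∀ d, w (α d) = w d) ∧
    (∀ x, ∑ d with f d = x, w d = (if f c = x then 1 else 0) + if f c' = x then 1 else 0) ∧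
    ∀ d, w d = 1 ↔ Btw c c' d ∨ Btw c c' (α d) := by
  have ex := ((v_eq _ _).1 h).exists_nat_pow_eq
  have hk := Nat.find_spec ex
  have hm := fun i => Nat.find_min ex (m := i)
  generalize Nat.find ex = k at hk hm
  have tel : ∀ (x : F D) (n : ℕ), ∑ d with f d = x, ∑ i ∈ range n, ind ((ρ ^ i) c) d =
      (if f c = x then 1 else 0) + if f ((ρ ^ n) c) = x then 1 else 0 := fun x n => by
    induction n with
    | zero => simp [z2_add_self]
    | succ n ih =>
      simp only [sum_range_succ]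
      rw [sum_add_distrib, ih, ind_sum_f, pow_succ', Equiv.Perm.mul_apply, fρ, add_assoc,
        ← add_assoc (if f ((ρ ^ n) c) = x then (1 : ZMod 2) else 0), z2_add_self, zero_add]
  have bt : ∀ e, Btw c c' e ↔ ∃ i < k, e = (ρ ^ i) c := fun e =>
    ⟨fun ⟨i, a, b⟩ => ⟨i, by_contra fun m => b k (not_lt.1 m) hk, a.symm⟩,
      fun ⟨i, a, b⟩ => ⟨i, b.symm, fun j hj => hm j (by omega)⟩⟩
  have lt : ∀ a b, a < b → b < k → (ρ ^ a) c ≠ (ρ ^ b) c := fun a b x y m =>
    hm (k - b + a) (by omega) (by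
      rw [pow_add, Equiv.Perm.mul_apply, m, ← Equiv.Perm.mul_apply, ← pow_add,
        Nat.sub_add_cancel y.le, hk])
  refine ⟨fun d => ∑ i ∈ range k, ind ((ρ ^ i) c) d, fun d => sum_congr rfl fun i _ => ind_α _ _,
    fun x => by rw [tel, hk], fun d => (sum_ind (fun a x b y m => ?_) (fun a _ b _ m => ?_) d).trans ?_⟩
  · rcases lt_trichotomy a b with z | z | z
    exacts [absurd m (lt a b z y), z, absurd m.symm (lt b a z x)]
  · exact loop ((ρ ^ b) c) (by rw [← m, vρpow, vρpow])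
  · simp only [bt, ← exists_or, ← and_or_left]
    exact exists_congr fun i => and_congr_right fun _ => or_congr_right
      ⟨fun m => by rw [m, αα], fun m => by rw [← m, αα]⟩

/-- A cut whose edges meet three given vertices. -/
lemma noose_core {w : D → ZMod 2} (h1 : ∀ d, w (α d) = w d) (h2 : ∀ x, ∑ d with f d = x, w d = 0)
    {a b z : V D} (h3 : ∀ d, w d = 1 → (v d = a ∨ v d = b ∨ v d = z) ∨
      (v (α d) = a ∨ v (α d) = b ∨ v (α d) = z)) :
    ∃ y : V D → ZMod 2, (∀ d, w d = y (v d) + y (v (α d))) ∧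
      ∀ r, r ≠ a → r ≠ b → r ≠ z → y r = 0 := by
  obtain ⟨y, hy⟩ := exact_v w h1 h2
  obtain ⟨u, u1, u2, u3, -⟩ := exists_ne4 a b z z
  refine ⟨fun r => y r + y u, fun d => ?_, fun r r1 r2 r3 => z2_add_eq.2 ?_⟩
  · rw [hy]
    beta_reduce
    generalize y (v d) = p
    generalize y (v (α d)) = q
    generalize y u = r
    revert p q r
    decide
  · refine (c4 {r | y r = y u ∧ r ≠ a ∧ r ≠ b ∧ r ≠ z} a b z (fun d k1 k2 => ?_) u ⟨rfl, u1, u2, u3⟩
      u1 u2 u3 r r1 r2 r3).1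
    by_contra k
    have k3 : w d = 0 := z2_zero fun m => (h3 d m).elim (fun m => by have := k1.2; tauto) k
    exact k2 ⟨(z2_add_eq.1 ((hy d).symm.trans k3)).symm.trans k1.1, by tauto⟩

/-- A noose through three vertices (the third corner may be trivial): at the first vertex all
edges that leave the three vertices lie on one side. -/
theorem noose {a1 b1 a2 b2 a3 b3 : D} (v1 : v a1 = v b1) (v2 : v a2 = v b2) (v3 : v a3 = v b3)
    (f1 : f b1 = f a2) (f2 : f b2 = f a3) (f3 : f b3 = f a1) (n2 : v a2 ≠ v a1)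
    (n3 : v a3 ≠ v a1 ∨ a3 = b3) {z : V D} (hz : z = v a3 ∨ a3 = b3) (h1 : v e = v a1)
    (h2 : v e' = v a1) (k1 : v (α e) ≠ v a2) (k2 : v (α e) ≠ z) (k3 : v (α e') ≠ v a2)
    (k4 : v (α e') ≠ z) (h : Btw a1 b1 e) : Btw a1 b1 e' := by
  obtain ⟨w1, p1, q1, r1⟩ := fan v1
  obtain ⟨w2, p2, q2, r2⟩ := fan v2
  obtain ⟨w3, p3, q3, r3⟩ := fan v3
  have t3 : ∀ d, Btw a3 b3 d → v d = z ∧ v d ≠ v a1 := fun d m => by
    have : a3 ≠ b3 := m.choose_spec.2 0 (Nat.zero_le _)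
    rw [m.v]
    exact ⟨(hz.resolve_right this).symm, n3.resolve_right this⟩
  obtain ⟨y, y1, y2⟩ := noose_core (w := fun d => w1 d + w2 d + w3 d)
    (fun d => by simp only [p1, p2, p3]) (fun x => by
      rw [sum_add_distrib, sum_add_distrib, q1, q2, q3, f1, f2, f3]
      generalize (if f a1 = x then (1 : ZMod 2) else 0) = p
      generalize (if f a2 = x then (1 : ZMod 2) else 0) = q
      generalize (if f a3 = x then (1 : ZMod 2) else 0) = r
      revert p q r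
      decide) (a := v a1) (b := v a2) (z := z) fun d m => by
      by_contra k
      simp only [not_or] at k
      rw [z2_zero fun x => ((r1 d).1 x).elim (fun x => k.1.1 x.v) fun x => k.2.1 x.v,
        z2_zero fun x => ((r2 d).1 x).elim (fun x => k.1.2.1 x.v) fun x => k.2.2.1 x.v,
        z2_zero fun x => ((r3 d).1 x).elim (fun x => k.1.2.2 (t3 _ x).1) fun x => k.2.2.2 (t3 _ x).1]
        at m
      exact absurd m (by decide)
  have key : ∀ d, v d = v a1 → v (α d) ≠ v a2 → v (α d) ≠ z → (Btw a1 b1 d ↔ y (v a1) = 1) :=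
    fun d m1 m2 m3 => by
      have m4 : v (α d) ≠ v a1 := m1 ▸ loop d
      have := y1 d
      rw [z2_zero fun x => ((r2 d).1 x).elim (fun x => n2 (x.v.symm.trans m1)) fun x => m2 x.v,
        z2_zero fun x => ((r3 d).1 x).elim (fun x => (t3 _ x).2 m1) fun x => m3 (t3 _ x).1,
        add_zero, add_zero, y2 _ m4 m2 m3, add_zero, m1] at this
      rw [← this, r1]
      exact ⟨Or.inl, fun x => x.resolve_right fun x => m4 x.v⟩
  exact (key e' h2 k3 k4).2 ((key e h1 k1 k2).1 h)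

lemma tch_one : Tch {g} r ↔ ∃ c, v c = r ∧ f c = g := by simp [Tch]

/-- Two faces with two common vertices have the edge between them in common. -/
theorem two_v (hne : g ≠ g') (hr : r ≠ r') (h1 : Tch {g} r) (h2 : Tch {g'} r) (h3 : Tch {g} r')
    (h4 : Tch {g'} r') : ∃ d, f d = g ∧ f (α d) = g' ∧
      (v d = r ∧ v (α d) = r' ∨ v d = r' ∧ v (α d) = r) := by
  obtain ⟨a1, rfl, rfl⟩ := tch_one.1 h1
  obtain ⟨b1, v1, rfl⟩ := tch_one.1 h2
  obtain ⟨b2, rfl, f2⟩ := tch_one.1 h3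
  obtain ⟨a2, v2, f1⟩ := tch_one.1 h4
  have n : a1 ≠ b1 := fun k => hne (by rw [k])
  have key : ∀ e e', v e = v a1 → v e' = v a1 → v (α e) ≠ v b2 → v (α e') ≠ v b2 →
      Btw a1 b1 e → Btw a1 b1 e' := fun e e' m1 m2 m3 m4 =>
    noose v1.symm v2 (a3 := b2) rfl f1.symm rfl f2 (v2 ▸ hr.symm) (Or.inr rfl) (z := v b2)
      (Or.inr rfl) m1 m2 (v2 ▸ m3) m3 (v2 ▸ m4) m4
  have two : ∀ e, v (α e) = v b2 → v (α (ρ e)) ≠ v b2 := fun e m m' =>
    ρne e (simple _ _ (vρ e) (m'.trans m.symm))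
  by_cases k1 : ρ a1 = b1
  · by_cases k2 : v (α a1) = v b2
    · exact ⟨a1, rfl, by rw [← fρ, k1], Or.inl ⟨rfl, k2⟩⟩
    · have k3 : v (α b1) = v b2 := by_contra fun m => (key a1 b1 rfl v1 k2 m (btw_self n)).ne rfl
      have := (key a1 (ρ b1) rfl (by rw [vρ, v1]) k2 (two _ k3) (btw_self n)).prev
        (by rw [← k1]; exact ρρne a1)
      exact absurd rfl this.ne
  obtain ⟨e, e1, e2⟩ : ∃ e, Btw a1 b1 e ∧ v (α e) ≠ v b2 := by
    by_cases k2 : v (α a1) = v b2
    exacts [⟨_, (btw_self n).next k1, two _ k2⟩, ⟨_, btw_self n, k2⟩]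
  have k3 : v (α b1) = v b2 := by_contra fun m => (key e b1 e1.v v1 e2 m e1).ne rfl
  have k4 : ρ b1 = a1 := by_contra fun m =>
    ((key e (ρ b1) e1.v (by rw [vρ, v1]) e2 (two _ k3) e1).prev m).ne rfl
  exact ⟨α b1, by rw [← fρ, k4], by rw [αα], Or.inr ⟨k3, by rw [αα, v1]⟩⟩

/-- Two faces have at most two common vertices. -/
theorem three_v {r'' : V D} (hne : g ≠ g') (n1 : r ≠ r') (n2 : r ≠ r'') (h1 : Tch {g} r)
    (h2 : Tch {g'} r) (h3 : Tch {g} r') (h4 : Tch {g'} r') (h5 : Tch {g} r'') (h6 : Tch {g'} r'') :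
    r' = r'' := by
  obtain ⟨d, a1, a2, a3⟩ := two_v hne n1 h1 h2 h3 h4
  obtain ⟨e, b1, b2, b3⟩ := two_v hne n2 h1 h2 h5 h6
  have mix : ∀ d e : D, f d = g → f (α d) = g' → f e = g → f (α e) = g' → v d = v (α e) → False :=
    fun d e x1 x2 x3 x4 x5 => ρρne (α e) (by
      rw [show ρ (α e) = d from eq_of_fv ((fφ e).trans (x3.trans x1.symm)) ((vφ e).trans x5.symm)]
      exact eq_of_fv (by rw [fρ, x2, x4]) (by rw [vρ, x5]))
  rcases a3 with ⟨x, y⟩ | ⟨x, y⟩ <;> rcases b3 with ⟨x', y'⟩ | ⟨x', y'⟩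
  · rw [← y, ← y', eq_of_fv (a1.trans b1.symm) (x.trans x'.symm)]
  · exact (mix d e a1 a2 b1 b2 (x.trans y'.symm)).elim
  · exact (mix e d b1 b2 a1 a2 (x'.trans y.symm)).elim
  · rw [← x, ← x', α.injective (eq_of_fv (a2.trans b2.symm) (y.trans y'.symm))]

/-- Two faces have at most one common edge. -/
theorem s1 (h : f d = f d') (h' : f (α d) = f (α d')) : d = d' := by
  by_contra hne
  have t1 : ∀ e : D, Tch {f e} (v e) := fun e => tch_v (mem_singleton_self _)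
  have t2 : ∀ e : D, Tch {f (α e)} (v e) := fun e => tch_v' (mem_singleton_self _)
  have t3 : ∀ e : D, Tch {f e} (v (α e)) := fun e => tch_α (mem_singleton_self _)
  have n1 : v d ≠ v d' := fun k => hne (eq_of_fv h k)
  have n2 : v (α d) ≠ v (α d') := fun k => hne (α.injective (eq_of_fv h' k))
  have e1 := three_v (s0 d).symm (loop d).symm n1 (t1 d) (t2 d) (t3 d) (t1 _) (h ▸ t1 d') (h' ▸ t2 d')
  have e2 := three_v (s0 d).symm (loop d) n2 (t3 d) (t1 _) (t1 d) (t2 d) (h ▸ t3 d') (h' ▸ t1 _)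
  exact s0 d (by rw [simple (α d) d' e1 (by rw [αα, e2]), h])

/-- Two faces that meet at a vertex in corners that are not adjacent. -/
def Diag (g g' : F D) (r : V D) : Prop :=
  ∃ c c', v c = r ∧ v c' = r ∧ f c = g ∧ f c' = g' ∧ c ≠ c' ∧ ρ c ≠ c' ∧ ρ c' ≠ c

lemma Diag.symm (h : Diag g g' r) : Diag g' g r := by
  obtain ⟨c, c', h1, h2, h3, h4, h5, h6, h7⟩ := h
  exact ⟨c', c, h2, h1, h4, h3, h5.symm, h7, h6⟩

lemma Diag.ne (h : Diag g g' r) : g ≠ g' := by
  obtain ⟨c, c', h1, h2, rfl, rfl, h5, -⟩ := h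
  exact fun k => h5 (eq_of_fv k (h1.trans h2.symm))

/-- Diagonal faces have only one common vertex. -/
theorem Diag.only (h : Diag g g' r) (h1 : Tch {g} r') (h2 : Tch {g'} r') : r' = r := by
  by_contra hne
  have n := h.ne
  obtain ⟨c, c', rfl, k2, rfl, rfl, -, k6, k7⟩ := h
  obtain ⟨d, a1, a2, ⟨x, -⟩ | ⟨-, x⟩⟩ := two_v n (Ne.symm hne) (tch_v (mem_singleton_self _))
    ⟨c', k2, mem_singleton_self _⟩ h1 h2
  · exact k6 (eq_of_fv (by rw [fρ, ← eq_of_fv a1 x, a2]) (by rw [vρ, k2]))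
  · exact k7 (eq_of_fv (by rw [← eq_of_fv a2 (x.trans k2.symm), fρ, αα, a1]) (by rw [vρ, k2]))

lemma Diag.not_adj (h : Diag g g' r) (h1 : f d = g) : f (α d) ≠ g' := fun h2 =>
  loop d ((h.only (tch_α (by simp [h1])) (tch_v (by simp [h2]))).trans
    (h.only (tch_v (by simp [h1])) (tch_v' (by simp [h2]))).symm)

/-- A vertex that touches two parts of the complement of `X` is diagonal for two faces of `X`. -/
lemma diag_of {X K : Finset (F D)} (hK : K ⊆ Xᶜ) (hc : Cl Xᶜ K) (h1 : Tch K r)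
    (h2 : Tch (Xᶜ \ K) r) : ∃ g ∈ X, ∃ g' ∈ X, Diag g g' r := by
  have key : ∀ {P : F D → Prop} {k k' : D}, v k' = v k → P (f k) → ¬P (f k') →
      (∀ d, P (f d) → f (α d) ∉ X → P (f (α d))) → f k' ∉ X → (∀ g, P g → g ∉ X) →
      ∃ c, Btw k k' c ∧ f c ∈ X := by
    intro P k k' m1 m2 m3 m4 m5 m6
    by_contra m
    have n : k ≠ k' := fun x => m3 (x ▸ m2)
    have a := btw_last n m1 (ρ.apply_symm_apply k')
    have := m4 _ (a.ind (Q := fun d => P (f d)) m2 fun d _ x y => by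
      rw [fρ]; exact m4 d y fun z => m ⟨_, x, by rwa [fρ]⟩) (by rwa [← fρ, ρ.apply_symm_apply])
    rw [← fρ, ρ.apply_symm_apply] at this
    exact m3 this
  obtain ⟨k, rfl, k1⟩ := h1
  obtain ⟨k', k2, k3⟩ := h2
  rw [mem_sdiff, mem_compl] at k3
  have k4 := mem_compl.1 (hK k1)
  obtain ⟨c, c1, c2⟩ := key (P := (· ∈ K)) k2 k1 k3.2 (fun d x y => hc d x (mem_compl.2 y)) k3.1
    fun g x => mem_compl.1 (hK x)
  obtain ⟨c', d1, d2⟩ := key (P := fun g => g ∉ X ∧ g ∉ K) k2.symm k3 (fun x => x.2 k1)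
    (fun d x y => ⟨y, fun z => x.2 (hc.symm d z (mem_compl.2 x.1))⟩) k4 fun g x => x.1
  refine ⟨_, c2, _, d2, c, c', c1.v, d1.v.trans k2, rfl, rfl, fun x => c1.asymm (x ▸ d1),
    fun x => ?_, fun x => ?_⟩
  · exact (c1.next fun y => k3.1 (by rw [← y, x]; exact d2)).asymm (x ▸ d1)
  · exact c1.asymm (x ▸ d1.next fun y => k4 (by rw [← y, x]; exact c2))

/-- The vertex of a pair of faces that is needed in a cut. -/
lemma pair_cut (Y : V D → Prop) (z0 : V D) (h0 : ¬Y z0) (g g' : F D) : ∃ z, ¬Y z ∧ ∀ r, ¬Y r →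
    (Diag g g' r ∨ ∃ d, (f d = g ∧ f (α d) = g' ∨ f d = g' ∧ f (α d) = g) ∧ Y (v d) ∧ v (α d) = r) →
    r = z := by
  by_cases k : ∃ r, ¬Y r ∧ (Diag g g' r ∨
    ∃ d, (f d = g ∧ f (α d) = g' ∨ f d = g' ∧ f (α d) = g) ∧ Y (v d) ∧ v (α d) = r)
  swap
  · exact ⟨z0, h0, fun r m1 m2 => absurd ⟨r, m1, m2⟩ k⟩
  obtain ⟨z, z1, z2⟩ := k
  have na : ∀ r d, Diag g g' r → ¬(f d = g ∧ f (α d) = g' ∨ f d = g' ∧ f (α d) = g) :=
    fun r d x y => y.elim (fun y => x.not_adj y.1 y.2) fun y => x.symm.not_adj y.1 y.2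
  refine ⟨z, z1, fun r m1 m2 => ?_⟩
  rcases m2 with m2 | ⟨d, a1, a2, rfl⟩ <;> rcases z2 with z2 | ⟨e, b1, b2, rfl⟩
  · obtain ⟨c, c', x1, x2, x3, x4, -⟩ := m2
    exact z2.only (tch_one.2 ⟨c, x1, x3⟩) (tch_one.2 ⟨c', x2, x4⟩)
  · exact absurd b1 (na _ _ m2)
  · exact absurd a1 (na _ _ z2)
  · rcases a1 with a1 | a1 <;> rcases b1 with b1 | b1
    · rw [s1 (a1.1.trans b1.1.symm) (a1.2.trans b1.2.symm)]
    · exact absurd (s1 (d' := α e) (a1.1.trans b1.2.symm) (by rw [αα, a1.2, b1.1]) ▸ a2) z1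
    · exact absurd (s1 (d' := α e) (a1.1.trans b1.2.symm) (by rw [αα, a1.2, b1.1]) ▸ a2) z1
    · rw [s1 (a1.1.trans b1.1.symm) (a1.2.trans b1.2.symm)]

lemma cut_core {X K : Finset (F D)} (hK : K ⊆ Xᶜ) (hc : Cl Xᶜ K) {z1 z2 z3 : V D}
    (n1 : ¬(Tch K z1 ∧ ¬Tch (Xᶜ \ K) z1)) (n2 : ¬(Tch K z2 ∧ ¬Tch (Xᶜ \ K) z2))
    (n3 : ¬(Tch K z3 ∧ ¬Tch (Xᶜ \ K) z3))
    (h : ∀ g ∈ X, ∀ g' ∈ X, g ≠ g' → ∀ r, ¬(Tch K r ∧ ¬Tch (Xᶜ \ K) r) → (Diag g g' r ∨
      ∃ d, (f d = g ∧ f (α d) = g') ∧ (Tch K (v d) ∧ ¬Tch (Xᶜ \ K) (v d)) ∧ v (α d) = r) →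
      r = z1 ∨ r = z2 ∨ r = z3) :
    (∀ r, Tch K r → r = z1 ∨ r = z2 ∨ r = z3) ∨
      ∀ r, Tch (Xᶜ \ K) r → r = z1 ∨ r = z2 ∨ r = z3 := by
  have both : ∀ r, Tch K r → Tch (Xᶜ \ K) r → r = z1 ∨ r = z2 ∨ r = z3 := fun r m1 m2 => by
    obtain ⟨g, x, g', y, z⟩ := diag_of hK hc m1 m2
    exact h g x g' y z.ne r (fun k => k.2 m2) (Or.inl z)
  by_cases k : ∃ u, Tch K u ∧ ¬Tch (Xᶜ \ K) u
  · obtain ⟨u, hu⟩ := k
    refine Or.inr fun r m => by_contra fun m' => ?_
    simp only [not_or] at m'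
    refine (c4 {r | Tch K r ∧ ¬Tch (Xᶜ \ K) r} z1 z2 z3 (fun d k1 k2 => ?_) u hu
      (fun x => n1 (x ▸ hu)) (fun x => n2 (x ▸ hu)) (fun x => n3 (x ▸ hu)) r m'.1 m'.2.1 m'.2.2).2 m
    by_cases k3 : Tch K (v (α d))
    · exact both _ k3 (by_contra fun x => k2 ⟨k3, x⟩)
    · refine h _ ?_ _ ?_ (s0 d).symm _ k2 (Or.inr ⟨d, ⟨rfl, rfl⟩, k1, rfl⟩) <;> by_contra x
      · exact k1.2 (tch_v (mem_sdiff.2 ⟨mem_compl.2 x, fun y => k3 (tch_α y)⟩))
      · exact k1.2 (tch_v' (mem_sdiff.2 ⟨mem_compl.2 x, fun y => k3 (tch_v y)⟩))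
  · exact Or.inl fun r m => both r m (by_contra fun x => k ⟨r, m, x⟩)

/-- The dual graph is 3-connected. -/
theorem conn_two (x x' : F D) : Conn ({x, x'} : Finset (F D))ᶜ := by
  rintro K hK ⟨g, hg⟩ hc
  by_contra k
  obtain ⟨g', hg'⟩ := sdiff_nonempty.2 k
  obtain ⟨c, rfl⟩ := f_surj g
  obtain ⟨c', rfl⟩ := f_surj g'
  obtain ⟨z, z1, z2⟩ := pair_cut (fun r => Tch K r ∧ ¬Tch (({x, x'} : Finset (F D))ᶜ \ K) r) (v c')
    (fun m => m.2 (tch_v hg')) x x'
  rcases cut_core hK hc z1 z1 z1 (fun g a g' b n r m1 m2 => Or.inl (z2 r m1 (by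
    simp only [mem_insert, mem_singleton] at a b
    rcases a with rfl | rfl <;> rcases b with rfl | rfl
    · exact absurd rfl n
    · exact m2.imp_right fun ⟨d, p, q⟩ => ⟨d, Or.inl p, q⟩
    · exact m2.imp Diag.symm fun ⟨d, p, q⟩ => ⟨d, Or.inr p, q⟩
    · exact absurd rfl n))) with m | m
  · have a := m _ (tch_v hg)
    have b := m _ (tch_α hg)
    simp only [or_self] at a b
    exact loop c (b.trans a.symm)
  · have a := m _ (tch_v hg')
    have b := m _ (tch_α hg')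
    simp only [or_self] at a b
    exact loop c' (b.trans a.symm)

lemma tri_of {K : Finset (F D)} {z1 z2 z3 : V D} (h : ∀ r, Tch K r → r = z1 ∨ r = z2 ∨ r = z3)
    (hc : f c ∈ K) : K = {f c} ∧ φ (φ (φ c)) = c := by
  have t : ∀ e : D, f e ∈ K → ∀ r, Tch K r → r = v e ∨ r = v (φ e) ∨ r = v (φ (φ e)) :=
    fun e m r m' => by
      have a1 := h _ (tch_v m)
      have a2 := h (v (φ e)) (tch_v (by rwa [fφ]))
      have a3 := h (v (φ (φ e))) (tch_v (by rwa [fφ, fφ]))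
      have a4 := h r m'
      have b1 := face_v1 e
      have b2 := face_v1 (φ e)
      have b3 := face_v2 e
      grind
  refine ⟨eq_singleton_iff_unique_mem.2 ⟨hc, fun g hg => by_contra fun n => ?_⟩, ?_⟩
  · obtain ⟨e, rfl⟩ := f_surj g
    have u : ∀ r, Tch K r → Tch {f e} r := fun r m => by
      rcases t e hg r m with rfl | rfl | rfl <;> exact tch_v (by simp)
    exact face_v1 (φ c) (three_v n (face_v1 c).symm (face_v2 c).symm (u _ (tch_v hc))
      (tch_v (by simp)) (u _ (tch_v (by simpa))) (tch_v (by simp)) (u _ (tch_v (by simpa)))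
      (tch_v (by simp))).symm
  · rcases t c hc (v (φ (φ (φ c)))) (tch_v (by simpa)) with k | k | k
    exacts [eq_of_fv (by simp) k, absurd k (face_v2 _), absurd k (face_v1 _)]

/-- Three faces cut off at most a triangle. -/
theorem cut_three (x1 x2 x3 : F D) {K : Finset (F D)} (hK : K ⊆ ({x1, x2, x3} : Finset (F D))ᶜ)
    (hc : Cl ({x1, x2, x3} : Finset (F D))ᶜ K) (h1 : f c ∈ K)
    (h2 : f c' ∈ ({x1, x2, x3} : Finset (F D))ᶜ \ K) :
    K = {f c} ∧ φ (φ (φ c)) = c ∨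
      ({x1, x2, x3} : Finset (F D))ᶜ \ K = {f c'} ∧ φ (φ (φ c')) = c' := by
  have p := pair_cut (fun r => Tch K r ∧ ¬Tch (({x1, x2, x3} : Finset (F D))ᶜ \ K) r) (v c')
    fun m => m.2 (tch_v h2)
  obtain ⟨z1, a1, b1⟩ := p x1 x2
  obtain ⟨z2, a2, b2⟩ := p x1 x3
  obtain ⟨z3, a3, b3⟩ := p x2 x3
  refine (cut_core hK hc a1 a2 a3 fun g a g' b n r m1 m2 => ?_).imp (fun m => tri_of m h1)
    fun m => tri_of m h2
  generalize ({x1, x2, x3} : Finset (F D))ᶜ \ K = K' at *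
  have l : Diag g g' r ∨ ∃ d, (f d = g ∧ f (α d) = g' ∨ f d = g' ∧ f (α d) = g) ∧
      (Tch K (v d) ∧ ¬Tch K' (v d)) ∧ v (α d) = r := m2.imp_right fun ⟨d, p, q⟩ => ⟨d, Or.inl p, q⟩
  have l' : Diag g' g r ∨ ∃ d, (f d = g' ∧ f (α d) = g ∨ f d = g ∧ f (α d) = g') ∧
      (Tch K (v d) ∧ ¬Tch K' (v d)) ∧ v (α d) = r :=
    m2.imp Diag.symm fun ⟨d, p, q⟩ => ⟨d, Or.inr p, q⟩
  simp only [mem_insert, mem_singleton] at a b
  rcases a with rfl | rfl | rfl <;> rcases b with rfl | rfl | rfl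
  exacts [absurd rfl n, Or.inl (b1 r m1 l), Or.inr (Or.inl (b2 r m1 l)), Or.inl (b1 r m1 l'),
    absurd rfl n, Or.inr (Or.inr (b3 r m1 l)), Or.inr (Or.inl (b2 r m1 l')),
    Or.inr (Or.inr (b3 r m1 l')), absurd rfl n]

/-- Two neighbours of a face meet only on that face. -/
theorem sun_disj (h : f d = f d') (hne : d ≠ d') (h1 : Tch {f (α d)} r) (h2 : Tch {f (α d')} r) :
    Tch {f d} r := by
  by_contra k
  have n : f (α d) ≠ f (α d') := fun m => hne (s1 h m)
  have n1 : ∀ e, f e = f d → v e ≠ r := fun e m m' => k (tch_one.2 ⟨e, m', m⟩)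
  by_cases k1 : φ d = d'
  · subst k1
    exact n1 (φ d) (fφ d) (Diag.only (g := f (α d)) (g' := f (α (φ d))) ⟨α d, ρ (φ d), (vφ d).symm,
      vρ _, rfl, fρ _, (ρρne _).symm, (ρne _).symm, ρρρne _⟩ h1 h2).symm
  obtain ⟨a3, v3, f3⟩ := tch_one.1 h2
  obtain ⟨b3, v4, f4⟩ := tch_one.1 h1
  have n2 : v d' ≠ v (α d) := fun m => k1 (eq_of_fv (by rw [fφ, h]) (by rw [vφ, m]))
  have key : ∀ e', v e' = v (α d) → v (α e') ≠ v d' → v (α e') ≠ r → Btw (α d) (φ d) e' :=
    fun e' m1 m2 m3 => noose (a2 := d') (b2 := ρ d') (a3 := a3) (b3 := b3) (vφ d).symm (vρ _).symm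
      (v3.trans v4.symm) ((fφ d).trans h) (by rw [fρ, f3]) f4 n2
      (Or.inl (by rw [v3, ← vφ]; exact (n1 _ (fφ d)).symm)) (Or.inl v3.symm) rfl m1
      (by rw [αα]; exact fun m => hne (eq_of_fv h m)) (by rw [αα]; exact n1 d rfl) m2 m3
      (btw_self (ρne _).symm)
  have a1 : ¬Btw (α d) (φ d) (φ d) := fun m => m.ne rfl
  have a2 : ¬Btw (α d) (φ d) (ρ (φ d)) := fun m => a1 (m.prev (ρρne _))
  have a3 : ¬Btw (α d) (φ d) (ρ (ρ (φ d))) := fun m => a2 (m.prev (ρρρne _))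
  have b1 := mt (fun m : _ ∧ _ => key (φ d) (vφ d) m.1 m.2) a1
  have b2 := mt (fun m : _ ∧ _ => key (ρ (φ d)) (by simp) m.1 m.2) a2
  have b3 := mt (fun m : _ ∧ _ => key (ρ (ρ (φ d))) (by simp) m.1 m.2) a3
  have c1 : v (α (ρ (φ d))) ≠ v (α (φ d)) := fun m => ρne _ (simple _ _ (vρ _) m)
  have c2 : v (α (ρ (ρ (φ d)))) ≠ v (α (ρ (φ d))) := fun m => ρne _ (simple _ _ (vρ _) m)
  have c3 : v (α (ρ (ρ (φ d)))) ≠ v (α (φ d)) := fun m => ρρne _ (simple _ _ (by simp) m)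
  grind

end PM

end Pool.Agent.MP_42ec7b_co

end MrgPart0

-- ======== part 1: formerly Pool.Agent.MP_42ec7b_co.A.Tools2
section MrgPart1

/-!
Adding and removing single faces; chains of nested discs.
-/

set_option autoImplicit false

open Finset

namespace Pool.Agent.MP_42ec7b_co

open Classical

namespace PM

variable {D : Type} [PM D] {c c' d d' e e' : D} {g g' : F D} {r r' : V D}
  {A B S T Z : Finset (F D)}

/-- A face whose neighbours are joined without it is not a cut face. -/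
lemma conn_del (hS : Conn S) (h : ∀ Z ⊆ S.erase g, Cl (S.erase g) Z → ∀ c c', f c = g → f c' = g →
    f (α c) ∈ Z → f (α c') ∈ S → f (α c') ∈ Z) : Conn (S.erase g) := by
  intro Z hZ hne hc
  have hZ' := hZ.trans (erase_subset _ _)
  by_cases k : ∃ c, f c = g ∧ f (α c) ∈ Z
  · obtain ⟨c, k1, k2⟩ := k
    by_cases hg : g ∈ S
    · intro x hx
      refine (mem_insert.1 (hS (insert g Z) (insert_subset hg hZ') (insert_nonempty _ _)
        (fun d m1 m2 => ?_) (mem_of_mem_erase hx))).resolve_left (mem_erase.1 hx).1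
      rcases mem_insert.1 m1 with m | m
      · exact mem_insert_of_mem (h Z hZ hc c d k1 m k2 m2)
      · by_cases m' : f (α d) = g
        exacts [mem_insert.2 (Or.inl m'), mem_insert_of_mem (hc d m (mem_erase.2 ⟨m', m2⟩))]
    · rw [erase_eq_of_notMem hg] at *
      exact hS Z hZ hne hc
  · exact (erase_subset _ _).trans (hS Z hZ' hne fun d m1 m2 =>
      hc d m1 (mem_erase.2 ⟨fun m => k ⟨α d, m, by rwa [αα]⟩, m2⟩))

/-- A face with only one neighbour in `S` can be removed. -/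
lemma conn_leaf (hS : Conn S) (h : ∀ c c', f c = g → f c' = g → f (α c) ∈ S → f (α c') ∈ S →
    f (α c) = f (α c')) : Conn (S.erase g) :=
  conn_del hS fun _ hZ _ c c' k1 k2 k3 k4 => h c c' k1 k2 (mem_of_mem_erase (hZ k3)) k4 ▸ k3

/-- Round a vertex all of whose other corners lie in `T`. -/
lemma round_off (hc : Cl T Z) (h : ∀ e, v e = v (φ c) → e ≠ φ c → f e ∈ T) :
    f (α (φ c)) ∈ Z ↔ f (α c) ∈ Z := by
  have key : ∀ e, v e = v (φ c) → e = φ c ∨ (f e ∈ Z ↔ f (α (φ c)) ∈ Z) := fun e m =>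
    vert_ind (Q := fun e => e = φ c ∨ (f e ∈ Z ↔ f (α (φ c)) ∈ Z)) (Or.inl rfl) (fun e k1 k2 => by
      by_cases k3 : e = φ c
      · exact Or.inr (by rw [fρ, k3])
      by_cases k4 : ρ e = φ c
      · exact Or.inl k4
      have := h _ ((vρ e).trans k1) k4
      rw [fρ] at this ⊢
      exact Or.inr (Iff.trans ⟨fun m => hc.symm e m (h e k1 k3), fun m => hc e m this⟩
        (k2.resolve_left k3))) m
  exact ((key (α c) (vφ c).symm).resolve_left (ρne (α c)).symm).symm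

/-- A face that touches `A` only at the ends of one edge of `A` is not a cut face outside `A`. -/
lemma conn_add (hA : Conn Aᶜ) (h2 : f (α d) ∈ A)
    (h3 : ∀ r, Tch {f d} r → Tch A r → r = v d ∨ r = v (α d)) : Conn (insert (f d) A)ᶜ := by
  rw [compl_insert]
  refine conn_del hA fun Z hZ hc c c' k1 k2 k3 k4 => ?_
  have key : ∀ e, f e = f d → e = d ∨ (f (α e) ∈ Z ↔ f (α (φ d)) ∈ Z) := fun e m =>
    face_ind (c0 := d) (Q := fun e => e = d ∨ (f (α e) ∈ Z ↔ f (α (φ d)) ∈ Z)) (Or.inl rfl)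
      (fun e m1 m2 => by
        by_cases a : e = d
        · exact Or.inr (by rw [a])
        by_cases b : φ e = d
        · exact Or.inl b
        refine Or.inr ((round_off hc fun x x1 x2 => mem_erase.2 ⟨fun y => x2 (eq_of_fv
          (by rw [y, fφ, m1]) x1), mem_compl.2 fun y => ?_⟩).trans (m2.resolve_left a))
        rcases h3 (v (φ e)) (tch_v (by simp [m1])) ⟨x, x1, y⟩ with z | z
        · exact b (eq_of_fv (by rw [fφ, m1]) z)
        · exact a (φ.injective (eq_of_fv (by rw [fφ, fφ, m1]) (z.trans (vφ d).symm)))) m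
  exact ((key c' k2).resolve_left fun m => mem_compl.1 k4 (m ▸ h2)).2
    (((key c k1).resolve_left fun m => mem_compl.1 (mem_of_mem_erase (hZ k3)) (m ▸ h2)).1 k3)

/-- The add lemma. -/
theorem add1 (hA : Disc A) (h2 : f (α d) ∈ A)
    (h3 : ∀ r, Tch {f d} r → Tch A r → r = v d ∨ r = v (α d)) : Disc (insert (f d) A) := by
  refine ⟨insert_nonempty _ _, ⟨f (α (φ d)), mem_compl.2 fun k => ?_⟩, conn_insert hA.2.2.1 h2,
    conn_add hA.2.2.2 h2 h3⟩
  rcases mem_insert.1 k with k | k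
  · exact s0 (φ d) (by rw [k, fφ])
  · rcases h3 _ (tch_α (c := φ d) (by simp)) (tch_v k) with m | m
    · exact face_v2 d (by rw [vφ, m])
    · exact loop (φ d) (by rw [vφ, m])

/-- A neighbour of a face touches it only at the ends of the common edge. -/
lemma sun_ends (h1 : Tch {f d} r) (h2 : Tch {f (α d)} r) : r = v d ∨ r = v (α d) := by
  by_contra k
  rw [not_or] at k
  exact k.2 (three_v (s0 d).symm (loop d).symm (Ne.symm k.1) (tch_v (by simp)) (tch_v' (by simp))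
    (tch_α (by simp)) (tch_v (by simp)) h1 h2).symm

lemma tch_iff : Tch A r ↔ ∃ g ∈ A, Tch {g} r :=
  ⟨fun ⟨c, h1, h2⟩ => ⟨_, h2, c, h1, mem_singleton_self _⟩,
    fun ⟨_, h, k⟩ => k.mono (singleton_subset_iff.2 h)⟩

/-- A face with any set of its neighbours is a disc. -/
theorem sun_disc (h : ∀ x ∈ S, Ad {x} {g}) : Disc (insert g S) := by
  induction S using Finset.induction_on with
  | empty => exact disc_single g
  | insert x S hx ih =>
    obtain ⟨d, k1, k2⟩ := h x (mem_insert_self _ _)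
    rw [mem_singleton] at k1 k2
    subst k1 k2
    rw [insert_comm]
    refine add1 (ih fun y m => h y (mem_insert_of_mem m)) (mem_insert_self _ _) fun r m1 m2 =>
      sun_ends m1 ?_
    obtain ⟨y, m3, m4⟩ := tch_iff.1 m2
    rcases mem_insert.1 m3 with rfl | m3
    · exact m4
    obtain ⟨e, k1, k2⟩ := h y (mem_insert_of_mem m3)
    rw [mem_singleton] at k1 k2
    exact sun_disj k2.symm (fun m => hx (by rwa [α.injective m, k1])) (by rwa [αα])
      (by rwa [αα, k1])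

/-- Two neighbours of a face are not adjacent. -/
theorem sun_not_adj (h : f d = f d') (h1 : f e = f (α d)) : f (α e) ≠ f (α d') := fun h2 => by
  have hne : d ≠ d' := fun m => s0 e (by rw [h1, h2, m])
  have a1 : Tch {f (α d)} (v e) := tch_v (by simp [h1])
  have a2 : Tch {f (α d)} (v (α e)) := tch_α (by simp [h1])
  have b1 := sun_disj h hne a1 (tch_v' (by simp [h2]))
  have b2 := sun_disj h hne a2 (tch_v (by simp [h2]))
  have := loop e
  rcases sun_ends b1 a1 with x | x <;> rcases sun_ends b2 a2 with y | y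
  · exact this (y.trans x.symm)
  · exact s0 d (by rw [← h1, simple _ _ x y])
  · exact hne (s1 h (by
      have z := simple e (α d) x (by rwa [αα])
      exact absurd (h2.symm.trans (by rw [z, αα, h])) (s0 d')))
  · exact this (y.trans x.symm)

/-- A smaller disc can be extended by one face inside a larger disc. -/
theorem extend1 (hS : Disc S) (hT : Disc T) (h : S ⊆ T) (h' : ¬T ⊆ S) :
    ∃ d, f d ∈ T ∧ f d ∉ S ∧ f (α d) ∈ S ∧ Disc (insert (f d) S) := by
  obtain ⟨⟨A, d⟩, ⟨h1, h2, h3, h4, h5, h6⟩, hm⟩ := Set.exists_max_image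
    {p : Finset (F D) × D | Conn p.1 ∧ Tᶜ ⊆ p.1 ∧ p.1 ⊆ Sᶜ.erase (f p.2) ∧ f p.2 ∈ T ∧ f p.2 ∉ S ∧
      f (α p.2) ∈ S} (fun p => #p.1) (Set.toFinite _) (by
        obtain ⟨d, k1, k2, k3⟩ := hT.2.2.1.exit h hS.1 h'
        refine ⟨(Tᶜ, α d), hT.2.2.2, Subset.rfl, fun x hx => ?_, k2, k3, by rwa [αα]⟩
        rw [mem_compl] at hx
        exact mem_erase.2 ⟨fun k => hx (by rwa [k]), mem_compl.2 fun k => hx (h k)⟩)
  simp only at h1 h2 h3 h4 h5 h6 hm
  have hy : f d ∉ A := fun k => (mem_erase.1 (h3 k)).1 rfl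
  have hcl : Cl (Sᶜ.erase (f d)) A := fun e k1 k2 => by
    by_contra k3
    have := hm (insert (f (α e)) A, d) ⟨conn_insert h1 (by rwa [αα]),
      h2.trans (subset_insert _ _), insert_subset k2 h3, h4, h5, h6⟩
    rw [card_insert_of_notMem k3] at this
    omega
  obtain ⟨e0, g1, g2⟩ : ∃ e, f e = f d ∧ f (α e) ∈ A := by
    by_contra k
    refine hy (hS.2.2.2 A (h3.trans (erase_subset _ _)) (hT.2.1.mono h2) (fun e k1 k2 => ?_)
      (mem_compl.2 h5))
    exact hcl e k1 (mem_erase.2 ⟨fun k3 => k ⟨α e, k3, by rwa [αα]⟩, k2⟩)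
  have noS : ∀ e, f e ∈ Sᶜ.erase (f d) → f e ∉ A → f (α e) ∉ S := fun e k1 k2 k3 => by
    have := hm (insert (f e0) A, e) ⟨conn_insert h1 g2, h2.trans (subset_insert _ _),
      insert_subset (mem_erase.2 ⟨g1 ▸ (mem_erase.1 k1).1.symm, g1 ▸ mem_compl.2 h5⟩)
        fun x hx => mem_erase.2 ⟨fun k => k2 (k ▸ hx), (mem_erase.1 (h3 hx)).2⟩,
      by_contra fun k => k2 (h2 (mem_compl.2 k)), mem_compl.1 (mem_erase.1 k1).2, k3⟩
    rw [card_insert_of_notMem (by rwa [g1])] at this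
    omega
  have fin : Sᶜ.erase (f d) ⊆ A := by
    by_contra k
    have := conn_erase (f d) (Sᶜ.erase (f d) \ A)
      (sdiff_subset.trans (erase_subset_erase _ (subset_univ _))) (sdiff_nonempty.2 k)
      (fun e k1 k2 => mem_sdiff.2 ⟨mem_erase.2 ⟨(mem_erase.1 k2).1,
        mem_compl.2 (noS e (mem_sdiff.1 k1).1 (mem_sdiff.1 k1).2)⟩,
        fun k3 => (mem_sdiff.1 k1).2 (hcl.symm e k3 (mem_sdiff.1 k1).1)⟩)
      (mem_erase.2 ⟨s0 d, mem_univ _⟩)
    exact mem_compl.1 (mem_erase.1 (mem_sdiff.1 this).1).2 h6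
  refine ⟨d, h4, h5, h6, insert_nonempty _ _, ?_, conn_insert hS.2.2.1 h6, ?_⟩ <;>
    rw [compl_insert, ← Subset.antisymm h3 fin]
  exacts [hT.2.1.mono h2, h1]

/-- A larger disc can be shrunk by one face outside a smaller disc. -/
theorem shrink1 (hS : Disc S) (hT : Disc T) (h : S ⊆ T) (h' : ¬T ⊆ S) :
    ∃ d, Bd T d ∧ f d ∉ S ∧ Disc (T.erase (f d)) := by
  obtain ⟨d, k1, k2, k3, k4⟩ := extend1 hT.compl hS.compl (compl_subset_compl.2 h)
    (mt compl_subset_compl.1 h')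
  refine ⟨d, ⟨by simpa using k2, mem_compl.1 k3⟩, mem_compl.1 k1, ?_⟩
  simpa only [compl_insert, compl_compl] using k4.compl

/-- Induction down a chain of nested discs. -/
theorem chain_down {P : Finset (F D) → Prop} (hS : Disc S) (hT : Disc T) (h : S ⊆ T) (h0 : P T)
    (hs : ∀ A d, S ⊆ A → A ⊆ T → Disc A → Bd A d → f d ∉ S → Disc (A.erase (f d)) → P A →
      P (A.erase (f d))) : P S := by
  induction T using Finset.strongInduction with
  | H T ih =>
    by_cases k : T ⊆ S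
    · rwa [Subset.antisymm h k]
    obtain ⟨d, k1, k2, k3⟩ := shrink1 hS hT h k
    exact ih _ (erase_ssubset k1.1) k3 (subset_erase.2 ⟨h, k2⟩)
      (hs T d h Subset.rfl hT k1 k2 k3 h0) fun A e m1 m2 => hs A e m1 (m2.trans (erase_subset _ _))

/-- Induction up a chain of nested discs. -/
theorem chain_up {P : Finset (F D) → Prop} (hS : Disc S) (hT : Disc T) (h : S ⊆ T) (h0 : P S)
    (hs : ∀ A d, S ⊆ A → A ⊆ T → Disc A → f d ∈ T → f d ∉ A → f (α d) ∈ A →
      Disc (insert (f d) A) → P A → P (insert (f d) A)) : P T := by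
  have := chain_down (P := fun A => P Aᶜ) hT.compl hS.compl (compl_subset_compl.2 h)
    (by rwa [compl_compl]) fun A d m1 m2 m3 m4 m5 m6 m7 => by
      have m8 := m6.compl
      rw [compl_erase] at m8 ⊢
      exact hs _ d (by rwa [← compl_subset_compl, compl_compl])
        (by rwa [← compl_subset_compl, compl_compl]) m3.compl (by simpa using m5)
        (by simpa using m4.1) (mem_compl.2 m4.2) m8 m7
  rwa [compl_compl] at this

end PM

end Pool.Agent.MP_42ec7b_co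

end MrgPart1

-- ======== part 2: formerly Pool.Agent.MP_42ec7b_co.A.Len
section MrgPart2

/-!
Sizes of faces and the length of a boundary.
-/

set_option autoImplicit false

open Finset

namespace Pool.Agent.MP_42ec7b_co

open Classical

namespace PM

variable {D : Type} [PM D] {c c' d d' e e' : D} {g g' : F D} {r r' : V D}
  {A B S T Z : Finset (F D)}

/-- The number of edges from `S` to `T`, counted as darts. -/
noncomputable def ex (S T : Finset (F D)) : ℕ := #{d | f d ∈ S ∧ f (α d) ∈ T}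

/-- The number of boundary edges. -/
noncomputable def ell (S : Finset (F D)) : ℕ := #(univ.filter (Bd S))

/-- The size of a face. -/
noncomputable def sz (g : F D) : ℕ := #{d | f d = g}

/-- The sum of the sizes of the faces. -/
noncomputable def wt (S : Finset (F D)) : ℕ := #{d | f d ∈ S}

lemma wt_single : wt {g} = sz g := by simp [wt, sz]

lemma ex_comm : ex S T = ex T S :=
  card_equiv α fun d => by simp [and_comm]

lemma ell_eq : ell S = ex S Sᶜ := by
  unfold ell ex Bd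
  congr 1
  ext
  simp

lemma ell_compl : ell Sᶜ = ell S := by rw [ell_eq, ell_eq, compl_compl, ex_comm]

lemma ex_mono (h : S ⊆ A) (h' : T ⊆ B) : ex S T ≤ ex A B :=
  card_le_card fun d hd => by
    rw [mem_filter] at hd ⊢
    exact ⟨hd.1, h hd.2.1, h' hd.2.2⟩

lemma ex_union_le : ex S (A ∪ B) ≤ ex S A + ex S B :=
  (card_le_card fun d hd => by
    simp only [mem_filter, mem_union, mem_univ, true_and] at hd ⊢
    tauto).trans (card_union_le _ _)

lemma ex_union (h : Disjoint A B) : ex S (A ∪ B) = ex S A + ex S B := by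
  unfold ex
  rw [← card_union_of_disjoint (disjoint_left.2 fun d k1 k2 =>
    disjoint_left.1 h (mem_filter.1 k1).2.2 (mem_filter.1 k2).2.2)]
  congr 1
  ext
  simp [and_or_left]

lemma ex_union' (h : Disjoint A B) : ex (A ∪ B) S = ex A S + ex B S := by
  rw [ex_comm, ex_union h, ex_comm, ex_comm (T := B)]

lemma wt_eq : wt S = ex S univ := by simp [wt, ex]

lemma ex_le_wt : ex S T ≤ wt S := by
  rw [wt_eq]
  exact ex_mono Subset.rfl (subset_univ _)

lemma wt_mono (h : S ⊆ T) : wt S ≤ wt T := by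
  rw [wt_eq, wt_eq]
  exact ex_mono h Subset.rfl

lemma wt_union (h : Disjoint S T) : wt (S ∪ T) = wt S + wt T := by
  rw [wt_eq, wt_eq, wt_eq, ex_union' h]

lemma wt_union_le : wt (S ∪ T) ≤ wt S + wt T := by
  rw [wt_eq, wt_eq, wt_eq, ex_comm, ex_comm (S := S), ex_comm (S := T)]
  exact ex_union_le

lemma wt_sum : wt S = ∑ g ∈ S, sz g := by
  induction S using Finset.induction_on with
  | empty => simp [wt]
  | insert x S hx ih => rw [sum_insert hx, insert_eq, wt_union (by simpa), ih, wt_single]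

lemma wt_split : wt S = ex S T + ex S Tᶜ := by
  rw [← ex_union disjoint_compl_right, union_compl, wt_eq]

lemma ell_le_wt : ell S ≤ wt S := by
  rw [ell_eq]
  exact ex_le_wt

lemma ell_single : ell {g} = sz g := by
  unfold ell sz Bd
  congr 1
  ext d
  simp only [mem_filter, mem_univ, true_and, mem_singleton, and_iff_left_iff_imp]
  rintro rfl
  exact s0 d

/-- The length of a disjoint union. -/
theorem ell_union (h : Disjoint S T) : ell (S ∪ T) + 2 * ex S T = ell S + ell T := by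
  have a : Sᶜ = (S ∪ T)ᶜ ∪ T := by
    ext x
    have : x ∈ S → x ∉ T := fun k => disjoint_left.1 h k
    simp only [mem_compl, mem_union]
    tauto
  have b : Tᶜ = (S ∪ T)ᶜ ∪ S := by
    ext x
    have : x ∈ S → x ∉ T := fun k => disjoint_left.1 h k
    simp only [mem_compl, mem_union]
    tauto
  rw [ell_eq, ell_eq, ell_eq, ex_union' h, a, b,
    ex_union (disjoint_compl_left.mono_right subset_union_right),
    ex_union (disjoint_compl_left.mono_right subset_union_left), ex_comm (S := T) (T := S)]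
  ring

theorem ell_insert (h : g ∉ S) : ell (insert g S) + 2 * ex {g} S = ell S + sz g := by
  rw [insert_eq, ell_union (by simpa), ell_single, add_comm]

theorem ell_erase (h : g ∈ S) : ell (S.erase g) + 2 * ex {g} Sᶜ = ell S + sz g := by
  rw [← ell_compl, compl_erase, ell_insert (by simpa), ell_compl]

theorem ell_sdiff (h : T ⊆ S) : ell (S \ T) + 2 * ex T Sᶜ = ell S + ell T := by
  have a : (S \ T)ᶜ = T ∪ Sᶜ := by
    ext x
    simp only [mem_compl, mem_union, mem_sdiff]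
    tauto
  rw [← ell_compl, a, ell_union (disjoint_compl_right.mono_left h), ell_compl, add_comm]

lemma ex_pos : 0 < ex S T ↔ Ad S T := by
  rw [ex, card_pos, filter_nonempty_iff]
  simp [Ad]

/-- The number of edges from a face to a set is the number of its neighbours there. -/
lemma ex_single : ex {g} T = #{x ∈ T | Ad {g} {x}} :=
  card_nbij (fun d => f (α d)) (fun d hd => by
    have := (mem_filter.1 (mem_coe.1 hd)).2
    exact mem_coe.2 (mem_filter.2 ⟨this.2, d, this.1, mem_singleton_self _⟩))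
    (fun d hd d' hd' k => s1 (by
      rw [mem_singleton.1 (mem_filter.1 (mem_coe.1 hd)).2.1,
        mem_singleton.1 (mem_filter.1 (mem_coe.1 hd')).2.1]) k) fun x hx => by
      obtain ⟨k1, d, k2, k3⟩ := mem_filter.1 (mem_coe.1 hx)
      rw [mem_singleton] at k3
      exact ⟨d, mem_coe.2 (mem_filter.2 ⟨mem_univ _, k2, k3 ▸ k1⟩), k3⟩

lemma ex_le_card : ex {g} T ≤ #T := by
  rw [ex_single]
  exact card_filter_le _ _

lemma ex_le_mul : ex S T ≤ #S * #T := by
  induction S using Finset.induction_on with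
  | empty => simp [ex]
  | insert x S hx ih =>
    rw [card_insert_of_notMem hx, insert_eq, ex_union' (by simpa), add_mul, one_mul, add_comm]
    exact add_le_add ih ex_le_card

lemma three_le_sz (g : F D) : 3 ≤ sz g := by
  obtain ⟨d, rfl⟩ := f_surj g
  refine two_lt_card_iff.2 ⟨d, φ d, φ (φ d), by simp, by simp, by simp, (φne d).symm, fun k => ?_,
    (φne _).symm⟩
  exact face_v2 d (by rw [← k])

theorem cyc_ell (hS : Disc S) : HasCyc (Γ D) (ell S) := cyc hS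

end PM

end Pool.Agent.MP_42ec7b_co

end MrgPart2

-- ======== part 3: formerly Pool.Agent.MP_42ec7b_co.A.Start
section MrgPart3

/-!
A disc that avoids a given set of large faces and has a long common boundary with them.
-/

set_option autoImplicit false

open Finset

namespace Pool.Agent.MP_42ec7b_co

open Classical

namespace PM

variable {D : Type} [PM D] {B K K' O O' M : Finset (F D)} {h h' : F D} {d : D}

/-- The faces of `B` that no cluster separates from `h`. -/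
noncomputable def cls (B : Finset (F D)) (h : F D) : Finset (F D) :=
  B.filter fun h' => ∀ K O, Cmp Bᶜ K → Cmp Kᶜ O → (h ∈ O ↔ h' ∈ O)

lemma mem_cls : h' ∈ cls B h ↔ h' ∈ B ∧ ∀ K O, Cmp Bᶜ K → Cmp Kᶜ O → (h ∈ O ↔ h' ∈ O) :=
  mem_filter

lemma cls_eq (k : h' ∈ cls B h) : cls B h' = cls B h := by
  ext g
  simp only [mem_cls]
  exact and_congr_right fun _ => forall₄_congr fun K O a b => by rw [(mem_cls.1 k).2 K O a b]

lemma Cmp.big (k : Cmp Bᶜ K) (h1 : f d ∉ K) (h2 : f (α d) ∈ K) : f d ∈ B := by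
  have := k.out (d := α d) h2 (by rwa [αα])
  rwa [αα] at this

lemma Cmp.sub_compl (k : Cmp Bᶜ K) (k' : Cmp Bᶜ K') (n : K' ≠ K) : K' ⊆ Kᶜ :=
  fun _ hg => mem_compl.2 fun m => n (k'.eq k hg m)

/-- A face of `B` next to a cluster lies in the same hole of any other cluster. -/
lemma Cmp.same (k : Cmp Bᶜ K) (k' : Cmp Bᶜ K') (n : K' ≠ K) (o : Cmp Kᶜ O) (h1 : f d ∈ B)
    (h2 : f (α d) ∈ K') : f d ∈ O ↔ K' ⊆ O := by
  have s := k.sub_compl k' n
  exact ⟨fun m => k'.2.2.1.sub s o.2.2.2 h2 (o.2.2.2 d m (s h2)),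
    fun m => o.2.2.2.symm d (m h2) (mem_compl.2 fun m' => k.nK m' h1)⟩

lemma cls_of {e : D} (k : Cmp Bᶜ K) (o : Cmp Kᶜ O) (h1 : f d ∈ O) (h2 : f (α d) ∈ K)
    (h3 : f e ∈ O) (h4 : f (α e) ∈ K) : f e ∈ cls B (f d) := by
  refine mem_cls.2 ⟨k.big (o.nK h3) h4, fun K' O' k' o' => ?_⟩
  by_cases n : K = K'
  · subst n
    exact ⟨fun m => o.eq o' h1 m ▸ h3, fun m => o.eq o' h3 m ▸ h1⟩
  · rw [k'.same k n o' (k.big (o.nK h1) h2) h2, k'.same k n o' (k.big (o.nK h3) h4) h4]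

lemma exists_dart (D : Type) [PM D] : Nonempty D := by
  obtain ⟨r⟩ : Nonempty (V D) := Fintype.card_pos_iff.1 ((Nat.zero_le 4).trans_lt five)
  exact ⟨(v_surj r).choose⟩

/-- The bipartite bound for adjacent sets. -/
lemma t8s {ι : Type} {I J : Finset ι} {Y : ι → Finset (F D)} {P : Finset (ι × ι)}
    (hI : I.Nonempty) (hIJ : Disjoint I J) (hc : ∀ i, i ∈ I ∨ i ∈ J → Conn (Y i))
    (hd : ∀ i, i ∈ I ∨ i ∈ J → ∀ j, j ∈ I ∨ j ∈ J → ∀ x ∈ Y i, x ∈ Y j → i = j)
    (hP : ∀ p ∈ P, p.1 ∈ I ∧ p.2 ∈ J ∧ Ad (Y p.1) (Y p.2)) :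
    #P < #I + #J ∨ #P + 4 ≤ 2 * (#I + #J) :=
  t8b (hI.mono subset_union_left) hIJ (fun i hi => hc i (mem_union.1 hi))
    (fun i hi j hj => hd i (mem_union.1 hi) j (mem_union.1 hj))
    (fun p hp => ⟨(hP p hp).1, (hP p hp).2.1⟩) (fun _ => v (exists_dart D).some)
    (fun p hp => Or.inl (hP p hp).2.2) fun p hp _ _ n => absurd (hP p hp).2.2 n

/-- Clusters that see four faces of `M` each. -/
lemma four_le {Φ : Finset (Finset (F D))} (hM : M ⊆ B) (h1 : ∀ K ∈ Φ, Cmp Bᶜ K)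
    (h2 : ∀ K ∈ Φ, 4 ≤ #(M.filter fun g => Ad K {g})) : #Φ ≤ #M := by
  rcases Φ.eq_empty_or_nonempty with rfl | ⟨K0, k0⟩
  · simp
  have c : #(Φ.biUnion fun K => (M.filter fun g => Ad K {g}).image
      fun g => ((Sum.inl K, Sum.inr g) : (Finset (F D) ⊕ F D) × (Finset (F D) ⊕ F D))) =
      ∑ K ∈ Φ, #(M.filter fun g => Ad K {g}) := by
    rw [card_biUnion fun K _ K' _ n => disjoint_left.2 fun p a b => by
      obtain ⟨g, -, rfl⟩ := mem_image.1 a
      obtain ⟨g', -, e⟩ := mem_image.1 b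
      exact n (Sum.inl_injective (congrArg Prod.fst e)).symm]
    exact sum_congr rfl fun K _ => card_image_of_injective _ fun g g' e =>
      Sum.inr_injective (congrArg Prod.snd e)
  have c' := card_nsmul_le_sum Φ _ 4 h2
  have := t8s (I := Φ.image Sum.inl) (J := M.image Sum.inr)
    (Y := Sum.elim id fun g => ({g} : Finset (F D)))
    (P := Φ.biUnion fun K => (M.filter fun g => Ad K {g}).image fun g => (Sum.inl K, Sum.inr g))
    ⟨_, mem_image_of_mem _ k0⟩ (disjoint_left.2 fun p a b => by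
      obtain ⟨g, -, rfl⟩ := mem_image.1 a
      obtain ⟨g', -, e⟩ := mem_image.1 b
      cases e) (fun i hi => by
      rcases hi with a | a <;> obtain ⟨g, b, rfl⟩ := mem_image.1 a
      exacts [(h1 g b).2.2.1, conn_single g]) (fun i hi j hj x a b => by
      rcases hi with a' | a' <;> obtain ⟨g, a1, rfl⟩ := mem_image.1 a' <;>
        rcases hj with b' | b' <;> obtain ⟨g', b1, rfl⟩ := mem_image.1 b'
      · exact congrArg _ ((h1 g a1).eq (h1 g' b1) a b)
      · exact absurd (mem_singleton.1 b ▸ hM b1) ((h1 g a1).nK a)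
      · exact absurd (mem_singleton.1 a ▸ hM a1) ((h1 g' b1).nK b)
      · exact congrArg _ ((mem_singleton.1 a).symm.trans (mem_singleton.1 b))) (fun p hp => by
      obtain ⟨K, a, b⟩ := mem_biUnion.1 hp
      obtain ⟨g, b1, rfl⟩ := mem_image.1 b
      exact ⟨mem_image_of_mem _ a, mem_image_of_mem _ (mem_filter.1 b1).1, (mem_filter.1 b1).2⟩)
  rw [c, card_image_of_injective _ Sum.inl_injective,
    card_image_of_injective _ Sum.inr_injective] at this
  rw [smul_eq_mul] at c'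
  omega

/-- A cluster that sees at most three faces of its class is the only one with two faces. -/
lemma three_only {e : D} (k : Cmp Bᶜ K) (o : Cmp Kᶜ O) (h1 : f d ∈ O) (h2 : f (α d) ∈ K)
    (h3 : #((cls B (f d)).filter fun g => Ad K {g}) < 4) (k' : Cmp Bᶜ K') (n : K' ≠ K)
    (h4 : f e ∈ cls B (f d)) (h5 : f (α e) ∈ K') (n1 : 1 < #K) (n2 : 1 < #K') : False := by
  have m0 : ∀ c, f c ∈ O → f (α c) ∈ K → f c ∈ (cls B (f d)).filter fun g => Ad K {g} :=
    fun c c1 c2 => mem_filter.2 ⟨cls_of k o h1 h2 c1 c2, Ad.symm ⟨c, mem_singleton_self _, c2⟩⟩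
  have sO : cls B (f d) ⊆ O := fun g hg => ((mem_cls.1 hg).2 K O k o).1 h1
  obtain ⟨x1, x2, x3, hx⟩ : ∃ x1 x2 x3 : F D,
      ((cls B (f d)).filter fun g => Ad K {g}) = {x1, x2, x3} := by
    have p := card_pos.2 ⟨_, m0 d h1 h2⟩
    generalize ((cls B (f d)).filter fun g => Ad K {g}) = T at *
    obtain a | a | a : #T = 1 ∨ #T = 2 ∨ #T = 3 := by omega
    · obtain ⟨x, rfl⟩ := card_eq_one.1 a
      exact ⟨x, x, x, by simp⟩
    · obtain ⟨x, y, -, rfl⟩ := card_eq_two.1 a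
      exact ⟨x, y, y, by simp⟩
    · obtain ⟨x, y, z, -, -, -, rfl⟩ := card_eq_three.1 a
      exact ⟨x, y, z, rfl⟩
  have sX : ({x1, x2, x3} : Finset (F D)) ⊆ cls B (f d) := hx ▸ filter_subset _ _
  have s' : K' ⊆ ({x1, x2, x3} : Finset (F D))ᶜ \ Oᶜ := fun g hg => mem_sdiff.2
    ⟨mem_compl.2 fun m => k'.nK hg (mem_cls.1 (sX m)).1,
      by simpa using (k.same k' n o (mem_cls.1 h4).1 h5).1 (sO h4) hg⟩
  have s : K ⊆ Oᶜ := fun g hg => mem_compl.2 fun m => o.nK m hg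
  rcases cut_three x1 x2 x3 (K := Oᶜ) (compl_subset_compl.2 (sX.trans sO)) (fun c c1 c2 =>
    mem_compl.2 fun m => mem_compl.1 c2 (hx ▸ m0 (α c) m
      (o.out m (by rw [αα]; exact mem_compl.1 c1)))) (s h2) (s' h5) with a | a
  · have := card_le_card (a.1 ▸ s)
    rw [card_singleton] at this
    omega
  · have := card_le_card (a.1 ▸ s')
    rw [card_singleton] at this
    omega

/-- The holes of all clusters with two faces are not more than the faces of `B`. -/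
lemma holes_le (B : Finset (F D)) :
    ∑ K ∈ (holes B).filter fun K => 1 < #K, #(holes K) ≤ #B := by
  rw [← card_sigma]
  generalize hP : (((holes B).filter fun K => 1 < #K).sigma fun K => holes K) = P
  have mp : ∀ p ∈ P, (Cmp Bᶜ p.1 ∧ 1 < #p.1) ∧ Cmp p.1ᶜ p.2 := fun p hp => by
    simpa only [← hP, mem_sigma, mem_filter, mem_holes] using hp
  have ex : ∀ p : (_ : Finset (F D)) × Finset (F D), ∃ d : D, p ∈ P → f d ∈ p.2 ∧ f (α d) ∈ p.1 :=
    fun p => by
      by_cases k : p ∈ P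
      · exact ((mp p k).2.ad (mp p k).1.1.2.1).imp fun d a _ => a
      · exact ⟨(exists_dart D).some, fun m => absurd m k⟩
  choose e he using ex
  have eB : ∀ p ∈ P, f (e p) ∈ cls B (f (e p)) := fun p hp =>
    cls_of (mp p hp).1.1 (mp p hp).2 (he p hp).1 (he p hp).2 (he p hp).1 (he p hp).2
  rw [card_eq_sum_card_image (fun p => cls B (f (e p))) P]
  refine (sum_le_sum (g := fun M => #M) fun M hM => ?_).trans ((card_biUnion (t := id)
    fun M hM M' hM' n => disjoint_left.2 fun g a b => n ?_).ge.trans (card_le_card ?_))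
  · have inj : Set.InjOn (fun p : (_ : Finset (F D)) × Finset (F D) => p.1)
        (P.filter fun p => cls B (f (e p)) = M) := fun p hp q hq pq => by
      obtain ⟨p1, p2⟩ := mem_filter.1 hp
      obtain ⟨q1, q2⟩ := mem_filter.1 hq
      obtain ⟨K, O⟩ := p
      obtain ⟨K', O'⟩ := q
      obtain rfl : K = K' := pq
      obtain rfl : O = O' := (mp _ p1).2.eq (mp _ q1).2 (((mem_cls.1 (p2.trans q2.symm ▸ eB _ q1 :
        f (e ⟨K, O'⟩) ∈ cls B (f (e ⟨K, O⟩)))).2 K O (mp _ p1).1.1 (mp _ p1).2).1 (he _ p1).1)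
        (he _ q1).1
      rfl
    rw [← card_image_of_injOn inj]
    by_cases k : ∃ p ∈ P, cls B (f (e p)) = M ∧ #(M.filter fun g => Ad p.1 {g}) < 4
    · obtain ⟨p, p1, rfl, p3⟩ := k
      refine (card_le_one.2 fun K a K' b => ?_).trans (card_pos.2 ⟨_, eB p p1⟩)
      have t : ∀ K ∈ (P.filter fun q => cls B (f (e q)) = cls B (f (e p))).image
          fun p : (_ : Finset (F D)) × Finset (F D) => p.1, K = p.1 := fun K a => by
        obtain ⟨q, q1, rfl⟩ := mem_image.1 a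
        obtain ⟨q2, q3⟩ := mem_filter.1 q1
        by_contra n
        exact three_only (mp p p1).1.1 (mp p p1).2 (he p p1).1 (he p p1).2 p3 (mp q q2).1.1 n
          (q3 ▸ eB q q2) (he q q2).2 (mp p p1).1.2 (mp q q2).1.2
      rw [t K a, t K' b]
    · obtain ⟨p, -, rfl⟩ := mem_image.1 hM
      refine four_le (filter_subset _ _) (fun K a => ?_) fun K a => ?_ <;>
        obtain ⟨q, q1, rfl⟩ := mem_image.1 a
      exacts [(mp q (mem_filter.1 q1).1).1.1,
        not_lt.1 fun m => k ⟨q, (mem_filter.1 q1).1, (mem_filter.1 q1).2, m⟩]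
  · obtain ⟨p, -, rfl⟩ := mem_image.1 hM
    obtain ⟨q, -, rfl⟩ := mem_image.1 hM'
    exact (cls_eq a).symm.trans (cls_eq b)
  · refine biUnion_subset.2 fun M hM => ?_
    obtain ⟨p, -, rfl⟩ := mem_image.1 hM
    exact filter_subset _ _

lemma card_pairs (S : Finset D) (g : D → F D × F D) (h1 : ∀ d ∈ S, (g d).1 ∈ B ∧ (g d).2 ∈ B)
    (h2 : ∀ d e, g d = g e → d = e) : #S ≤ #B * #B := by
  rw [← card_product]
  exact card_le_card_of_injOn g (fun d hd => mem_coe.2 (mem_product.2 (h1 d hd)))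
    fun d _ e _ => h2 d e

/-- A disc that avoids the large faces and has almost `μ` edges on them. -/
theorem start_disc {μ : ℕ} (hB : B.Nonempty) (hμ : ∀ h ∈ B, μ ≤ sz h) (h2 : 2 * #B < μ) :
    ∃ A, Disc A ∧ Disjoint A B ∧ μ ≤ ex A B + 2 * #B := by
  have ex1 : ∀ K : Finset (F D), ∃ P : Finset (Finset (F D)), Cmp Bᶜ K →
      (∀ A ∈ P, Disc A ∧ A ⊆ K) ∧ (∀ g ∈ K, ∃ A ∈ P, g ∈ A) ∧ #P ≤ #(holes K) := fun K => by
    by_cases k : Cmp Bᶜ K
    · exact (cover_discs K k.2.2.1 k.2.1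
        (hB.mono fun g hg => mem_compl.2 fun m => k.nK m hg)).imp fun P a _ => a
    · exact ⟨∅, fun m => absurd m k⟩
  choose P hP using ex1
  generalize hQ : ((holes B).filter fun K => 1 < #K).biUnion P = Q
  have q1 : #Q ≤ #B := hQ ▸ (card_biUnion_le.trans ((sum_le_sum fun K hK =>
    (hP K (mem_holes.1 (mem_filter.1 hK).1)).2.2).trans (holes_le B)))
  by_contra hn
  have q2 : ∀ A ∈ Q, #(univ.filter fun d => f d ∈ A ∧ f (α d) ∈ B) ≤ μ - 2 * #B - 1 :=
    fun A hA => by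
      obtain ⟨K, k1, k2⟩ := mem_biUnion.1 (hQ ▸ hA)
      have k := mem_holes.1 (mem_filter.1 k1).1
      obtain ⟨a1, a2⟩ := (hP K k).1 A k2
      have := mt (fun m => ⟨A, a1, disjoint_left.2 fun g hg => k.nK (a2 hg), m⟩) hn
      unfold ex at this
      omega
  have t0 : #B * μ ≤ #(univ.filter fun d : D => f (α d) ∈ B) := by
    rw [show #(univ.filter fun d : D => f (α d) ∈ B) = #(univ.filter fun d : D => f d ∈ B) from
      card_equiv α (by simp), card_eq_sum_card_fiberwise (f := f) (t := B) (by simp [Set.MapsTo])]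
    refine card_nsmul_le_sum B _ μ fun h a => (hμ h a).trans (card_le_card fun d hd => ?_)
    simp only [mem_filter, mem_univ, true_and] at hd ⊢
    exact ⟨hd ▸ a, hd⟩
  have t1 := card_pairs (B := B) (univ.filter fun d => f d ∈ B ∧ f (α d) ∈ B)
    (fun d => (f d, f (α d))) (fun d a => (mem_filter.1 a).2)
    fun d e a => s1 (congrArg Prod.fst a) (congrArg Prod.snd a)
  have t2 := card_pairs (B := B) (univ.filter fun d => f (α d) ∈ B ∧ f (α (φ d)) ∈ B)
    (fun d => (f (α d), f (α (φ d)))) (fun d a => (mem_filter.1 a).2) fun d e a => by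
    have a1 : f (α d) = f (α e) := congrArg Prod.fst a
    have a2 : f (α (φ d)) = f (α (φ e)) := congrArg Prod.snd a
    exact α.injective (eq_of_fv a1 (Diag.only (g := f (α d)) (g' := f (α (φ d)))
      ⟨α d, ρ (φ d), rfl, by simp, rfl, fρ _, (ρρne _).symm, (ρne _).symm, ρρρne _⟩
      (tch_v (by simp [a1])) (by rw [← vφ]; exact tch_v' (by simp [a2]))).symm)
  have t3 := (card_biUnion_le (s := Q)
    (t := fun A => univ.filter fun d => f d ∈ A ∧ f (α d) ∈ B)).trans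
    (sum_le_card_nsmul Q _ _ q2)
  have t4 : (univ.filter fun d : D => f (α d) ∈ B) ⊆
      ((univ.filter fun d => f d ∈ B ∧ f (α d) ∈ B) ∪
        univ.filter fun d => f (α d) ∈ B ∧ f (α (φ d)) ∈ B) ∪
      Q.biUnion fun A => univ.filter fun d => f d ∈ A ∧ f (α d) ∈ B := fun d hd => by
    simp only [mem_union, mem_biUnion, mem_filter, mem_univ, true_and] at hd ⊢
    by_cases k : f d ∈ B
    · exact Or.inl (Or.inl ⟨k, hd⟩)
    obtain ⟨K, k1, k2⟩ := exists_cmp (mem_compl.2 k)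
    by_cases m : 1 < #K
    · obtain ⟨A, a1, a2⟩ := (hP K k1).2.1 _ k2
      exact Or.inr ⟨A, hQ ▸ mem_biUnion.2 ⟨K, mem_filter.2 ⟨mem_holes.2 k1, m⟩, a1⟩, a2, hd⟩
    · have k3 : f (φ d) ∈ K := by rwa [fφ]
      exact Or.inl (Or.inr ⟨hd, k1.out k3 fun m' =>
        s0 _ (card_le_one.1 (not_lt.1 m) _ m' _ k3)⟩)
  have t5 := (card_le_card t4).trans ((card_union_le _ _).trans
    (Nat.add_le_add ((card_union_le _ _).trans (Nat.add_le_add t1 t2)) t3))
  rw [smul_eq_mul] at t5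
  have t6 := Nat.mul_le_mul_right (μ - 2 * #B - 1) q1
  obtain ⟨t, rfl⟩ : ∃ t, μ = 2 * #B + 1 + t := ⟨μ - (2 * #B + 1), by omega⟩
  have := card_pos.2 hB
  rw [show 2 * #B + 1 + t - 2 * #B - 1 = t by omega] at t5 t6
  nlinarith

end PM

end Pool.Agent.MP_42ec7b_co

end MrgPart3

-- ======== part 4: formerly Pool.Agent.MP_42ec7b_co.A.Cover
section MrgPart4

/-!
Covering a connected set of faces by light connected pieces; peeling of ears.
-/

set_option autoImplicit false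

open Finset

namespace Pool.Agent.MP_42ec7b_co

open Classical

namespace PM

variable {D : Type} [PM D] {A S T U Z : Finset (F D)} {g : F D}

lemma conn_ins_cl (hZ : Conn Z) (hg : g ∈ Z) (h1 : U ⊆ Z.erase g) (h2 : Cl (Z.erase g) U) :
    Conn (insert g U) :=
  conn_of_core (conn_single g) (singleton_subset_iff.2 (mem_insert_self _ _)) fun W w1 w2 w3 =>
    ⟨g, mem_singleton_self g, by_contra fun k => k (hZ W
      (w1.trans (insert_subset hg (h1.trans (erase_subset _ _)))) w2 (fun d d1 d2 => w3 d d1 (by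
        by_cases m : f (α d) = g
        · exact mem_insert.2 (Or.inl m)
        · exact mem_insert_of_mem (h2 d ((mem_insert.1 (w1 d1)).resolve_left fun e => k (e ▸ d1))
            (mem_erase.2 ⟨m, d2⟩)))) hg)⟩

lemma conn_sdiff_cl (hA : Conn A) (hg : g ∈ Z) (h0 : Z ⊆ A) (h1 : U ⊆ Z.erase g)
    (h2 : Cl (Z.erase g) U) (h3 : Conn (insert g (A \ Z))) : Conn (A \ U) :=
  conn_sdiff hA h3 (insert_nonempty _ _) (insert_subset
    (mem_sdiff.2 ⟨h0 hg, fun m => (mem_erase.1 (h1 m)).1 rfl⟩)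
    (sdiff_subset_sdiff Subset.rfl (h1.trans (erase_subset _ _)))) fun d d1 d2 d3 => by
      by_cases m : f (α d) = g
      · exact mem_insert.2 (Or.inl m)
      · exact mem_insert_of_mem (mem_sdiff.2 ⟨d2, fun m' => d3 (h2 d d1 (mem_erase.2 ⟨m, m'⟩))⟩)

lemma wt_sdiff (h : U ⊆ A) : wt (A \ U) + wt U = wt A := by
  rw [← wt_union sdiff_disjoint, sdiff_union_of_subset h]

/-- One light piece whose removal keeps the rest connected. -/
lemma cover_step (hA : Conn A) {l : ℕ} (h : l < wt A) : ∃ Q U, Q ⊆ A ∧ Conn Q ∧ Q.Nonempty ∧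
    (∃ b, wt (Q.erase b) ≤ 2 * l) ∧ U ⊆ Q ∧ l < wt U ∧ Conn (A \ U) := by
  obtain ⟨Z, ⟨z1, z2, z3, z4⟩, hz⟩ := Set.exists_min_image
    {Z : Finset (F D) | Z ⊆ A ∧ Conn Z ∧ Conn (A \ Z) ∧ l < wt Z} card (Set.toFinite _)
    ⟨A, Subset.rfl, hA, by rw [Finset.sdiff_self]; exact fun _ a _ _ => empty_subset _, h⟩
  have zn : Z.Nonempty := nonempty_iff_ne_empty.2 fun m => by simp [m, wt] at z4
  obtain ⟨g, g1, g2⟩ : ∃ g ∈ Z, Conn (insert g (A \ Z)) := by
    by_cases k : A ⊆ Z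
    · obtain ⟨g, hg⟩ := zn
      exact ⟨g, hg, by rw [sdiff_eq_empty_iff_subset.2 k]; exact conn_single g⟩
    · obtain ⟨d, d1, d2, d3⟩ := hA.exit z1 zn k
      exact ⟨_, d1, conn_insert z3 (mem_sdiff.2 ⟨d2, d3⟩)⟩
  obtain ⟨U, ⟨u1, u2, u3⟩, hu⟩ := Set.exists_max_image
    {U : Finset (F D) | U ⊆ Z.erase g ∧ Cl (Z.erase g) U ∧ wt U ≤ 2 * l} card (Set.toFinite _)
    ⟨∅, empty_subset _, fun d a _ => absurd a (notMem_empty _), by simp [wt]⟩
  by_cases k : Z.erase g ⊆ U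
  · exact ⟨Z, Z, z1, z2, zn, ⟨g, (wt_mono k).trans u3⟩, Subset.rfl, z4, z3⟩
  · obtain ⟨x, x1, x2⟩ := not_subset.1 k
    obtain ⟨C, c, cx⟩ := exists_cmp x1
    have c1 : wt C ≤ l := not_lt.1 fun m => by
      have := hz C ⟨c.1.trans ((erase_subset _ _).trans z1), c.2.2.1,
        conn_sdiff_cl hA g1 z1 c.1 c.2.2.2 g2, m⟩
      have := card_le_card c.1
      have := card_erase_lt_of_mem g1
      omega
    have c2 : 2 * l < wt (U ∪ C) := not_le.1 fun m => by
      have := hu (U ∪ C) ⟨union_subset u1 c.1, fun d d1 d2 => (mem_union.1 d1).elim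
        (fun a => mem_union_left _ (u2 d a d2)) fun a => mem_union_right _ (c.2.2.2 d a d2), m⟩
      exact x2 (eq_of_subset_of_card_le subset_union_left this ▸ mem_union_right U cx)
    have c3 := wt_union_le (S := U) (T := C)
    exact ⟨insert g U, U, insert_subset (z1 g1) (u1.trans ((erase_subset _ _).trans z1)),
      conn_ins_cl z2 g1 u1 u2, insert_nonempty _ _,
      ⟨g, (wt_mono (erase_insert_subset _ _)).trans u3⟩, subset_insert _ _, by omega,
      conn_sdiff_cl hA g1 z1 u1 u2 g2⟩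

/-- A connected set is covered by few connected pieces that are light up to one face. -/
theorem cover (hA : Conn A) (l : ℕ) : ∃ P : Finset (Finset (F D)),
    (∀ Q ∈ P, Q ⊆ A ∧ Conn Q ∧ Q.Nonempty ∧ ∃ b, wt (Q.erase b) ≤ 2 * l) ∧
      (∀ g ∈ A, ∃ Q ∈ P, g ∈ Q) ∧ l * #P ≤ wt A + l := by
  induction A using Finset.strongInduction with
  | H A ih =>
    by_cases h : l < wt A
    · obtain ⟨Q, U, q1, q2, q3, q4, u1, u2, u3⟩ := cover_step hA h
      obtain ⟨P, p1, p2, p3⟩ := ih (A \ U) (sdiff_ssubset (u1.trans q1)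
        (nonempty_iff_ne_empty.2 fun m => by simp [m, wt] at u2)) u3
      refine ⟨insert Q P, fun R hR => (mem_insert.1 hR).elim (fun m => m ▸ ⟨q1, q2, q3, q4⟩)
        fun m => ⟨(p1 R m).1.trans sdiff_subset, (p1 R m).2⟩, fun g hg => ?_, ?_⟩
      · by_cases m : g ∈ U
        · exact ⟨Q, mem_insert_self _ _, u1 m⟩
        · exact (p2 g (mem_sdiff.2 ⟨hg, m⟩)).imp fun R a => ⟨mem_insert_of_mem a.1, a.2⟩
      · have := wt_sdiff (u1.trans q1)
        have := Nat.mul_le_mul_left l (card_insert_le Q P)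
        rw [mul_add, mul_one] at this
        omega
    · rcases A.eq_empty_or_nonempty with rfl | ⟨g, hg⟩
      · exact ⟨∅, by simp, by simp, by simp⟩
      · refine ⟨{A}, fun Q hQ => ?_, fun g hg => ⟨A, mem_singleton_self _, hg⟩, by simp⟩
        rw [mem_singleton.1 hQ]
        exact ⟨Subset.rfl, hA, ⟨g, hg⟩, g, by have := wt_mono (erase_subset g A); omega⟩

/-- Removing a face that has exactly one edge inside the disc. -/
lemma disc_leaf (hS : Disc S) (h : ex {g} S = 1) : Disc (S.erase g) := by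
  obtain ⟨d, hd⟩ := card_eq_one.1 h
  have k : ∀ c, f c = g → f (α c) ∈ S → c = d := fun c c1 c2 =>
    mem_singleton.1 (hd ▸ mem_filter.2 ⟨mem_univ _, mem_singleton.2 c1, c2⟩)
  obtain ⟨-, d1, d2⟩ := mem_filter.1 (hd ▸ mem_singleton_self d :
    d ∈ univ.filter fun d => f d ∈ ({g} : Finset (F D)) ∧ f (α d) ∈ S)
  rw [mem_singleton] at d1
  refine ⟨⟨_, mem_erase.2 ⟨d1 ▸ s0 d, d2⟩⟩, hS.2.1.mono (compl_subset_compl.2 (erase_subset _ _)),
    conn_leaf hS.2.2.1 fun c c' c1 c2 c3 c4 => by rw [k c c1 c3, k c' c2 c4], ?_⟩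
  rw [compl_erase, ← d1, ← fφ d]
  exact conn_insert hS.2.2.2 (mem_compl.2 fun m => φne d (k _ ((fφ d).trans d1) m))

/-- Peeling of independent ears. -/
theorem peel (hS : Disc S) (hT : T ⊆ S) (h : ∀ t ∈ T, sz t = 3 ∧ ex {t} Sᶜ = 2 ∧ ¬Ad {t} T) {x : ℕ}
    (hx : x ≤ #T) : ∃ S' : Finset (F D), Disc S' ∧ ell S' + x = ell S := by
  induction x generalizing S T with
  | zero => exact ⟨S, hS, rfl⟩
  | succ x ih =>
    obtain ⟨t, ht⟩ := card_pos.1 (show 0 < #T by omega)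
    obtain ⟨t1, t2, t3⟩ := h t ht
    have e1 := wt_split (S := {t}) (T := S)
    have e2 := ell_erase (hT ht)
    rw [wt_single] at e1
    obtain ⟨S', s1, s2⟩ := ih (disc_leaf hS (by omega)) (erase_subset_erase t hT)
      (fun u hu => by
        obtain ⟨u1, u2, u3⟩ := h u (mem_of_mem_erase hu)
        refine ⟨u1, ?_, fun m => u3 (m.mono Subset.rfl (erase_subset _ _))⟩
        rw [compl_erase, insert_eq, ex_union (by simpa using hT ht), u2,
          Nat.eq_zero_of_not_pos fun m =>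
            u3 ((ex_pos.1 m).mono Subset.rfl (singleton_subset_iff.2 ht))])
      (by rw [card_erase_of_mem ht]; omega)
    exact ⟨S', s1, by omega⟩

end PM

end Pool.Agent.MP_42ec7b_co

end MrgPart4

-- ======== part 5: formerly Pool.Agent.MP_42ec7b_co.A.Ear
section MrgPart5

/-!
Many ears give a small root with a full range of deficits.
-/

set_option autoImplicit false

open Finset

namespace Pool.Agent.MP_42ec7b_co

open Classical

namespace PM

variable {D : Type} [PM D] {A S T E : Finset (F D)} {g t : F D} {c e : D}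

lemma tri3 (h : sz (f e) = 3) :
    φ (φ (φ e)) = e ∧ ∀ c, f c = f e → c = e ∨ c = φ e ∨ c = φ (φ e) := by
  have n : e ≠ φ (φ e) := fun k => face_v2 e (by rw [← k])
  have a : ({e, φ e, φ (φ e)} : Finset D) = univ.filter fun d => f d = f e :=
    eq_of_subset_of_card_le (fun d hd => by
      simp only [mem_insert, mem_singleton] at hd
      rcases hd with rfl | rfl | rfl <;> simp) (h.trans
      (card_eq_three.2 ⟨_, _, _, (φne e).symm, n, (φne _).symm, rfl⟩).symm).le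
  have b : ∀ c, f c = f e → c = e ∨ c = φ e ∨ c = φ (φ e) := fun c hc => by
    have : c ∈ ({e, φ e, φ (φ e)} : Finset D) := a ▸ mem_filter.2 ⟨mem_univ _, hc⟩
    simpa using this
  refine ⟨?_, b⟩
  rcases b (φ (φ (φ e))) (by simp) with k | k | k
  exacts [k, absurd (φ.injective k).symm n, absurd k (φne _)]

lemma ear_one (h1 : sz t = 3) (h2 : ex {t} Sᶜ = 2) :
    ∃ e, f e = t ∧ f (α e) ∈ S ∧ ∀ c, f c = t → f (α c) ∈ S → c = e := by
  have e1 := wt_split (S := {t}) (T := S)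
  rw [wt_single] at e1
  obtain ⟨d, hd⟩ := card_eq_one.1 (show ex {t} S = 1 by omega)
  obtain ⟨-, d1, d2⟩ := mem_filter.1 (hd ▸ mem_singleton_self d :
    d ∈ univ.filter fun d => f d ∈ ({t} : Finset (F D)) ∧ f (α d) ∈ S)
  exact ⟨d, mem_singleton.1 d1, d2, fun c c1 c2 =>
    mem_singleton.1 (hd ▸ mem_filter.2 ⟨mem_univ _, mem_singleton.2 c1, c2⟩)⟩

/-- Three ears on one side are pairwise not adjacent. -/
lemma ear_indep (hS : Conn S) (h1 : E ⊆ S) (h2 : ∀ t ∈ E, sz t = 3 ∧ ex {t} Sᶜ = 2) (h3 : 2 < #E)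
    (ht : t ∈ E) : ¬Ad {t} E := by
  rintro ⟨d, d1, d2⟩
  rw [mem_singleton] at d1
  obtain ⟨e, -, -, e3⟩ := ear_one (h2 t ht).1 (h2 t ht).2
  obtain ⟨e', -, -, e4⟩ := ear_one (h2 _ d2).1 (h2 _ d2).2
  have := card_le_card (h1.trans (hS {t, f (α d)} (insert_subset (h1 ht)
    (singleton_subset_iff.2 (h1 d2))) (insert_nonempty _ _) fun c c1 c2 => by
    rcases mem_insert.1 c1 with k | k
    · rw [(e3 c k c2).trans (e3 d d1 (h1 d2)).symm]
      simp
    · rw [(e4 c (mem_singleton.1 k) c2).trans (e4 (α d) rfl (by rw [αα, d1]; exact h1 ht)).symm,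
        αα, d1]
      simp))
  have := card_le_two (a := t) (b := f (α d))
  omega

/-- Ears stay ears when the colours of their neighbours are kept. -/
lemma ear_flex {S2 : Finset (F D)} (h : ∀ t ∈ T, sz t = 3 ∧ ex {t} Sᶜ = 2 ∧ ¬Ad {t} T)
    (h1 : Disc S2) (h2 : T ⊆ S2) (h3 : ∀ d, f d ∈ T → (f (α d) ∈ S2 ↔ f (α d) ∈ S)) {x : ℕ}
    (hx : x ≤ #T) : ∃ S' : Finset (F D), Disc S' ∧ ell S' + x = ell S2 :=
  peel h1 h2 (fun t ht => ⟨(h t ht).1, by
    rw [← (h t ht).2.1]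
    unfold ex
    congr 1
    ext d
    simp only [mem_filter, mem_univ, true_and, mem_singleton, mem_compl]
    exact and_congr_right fun m => not_congr (h3 d (m ▸ ht)), (h t ht).2.2⟩) hx

lemma wt_small {l : ℕ} {b : F D} (h : wt (S.erase b) ≤ 2 * l) :
    wt (S.filter fun g => sz g ≤ 2 * l) ≤ 4 * l := by
  by_cases k : sz b ≤ 2 * l
  · have := (wt_mono ((filter_subset (fun g => sz g ≤ 2 * l) S).trans
      (subset_insert_iff.2 (Subset.refl (S.erase b))))).trans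
      (insert_eq b _ ▸ wt_union_le (S := {b}) (T := S.erase b))
    rw [wt_single] at this
    omega
  · exact (wt_mono (T := S.erase b) fun g hg => mem_erase.2
      ⟨fun m : g = b => k (m ▸ (mem_filter.1 hg).2), (mem_filter.1 hg).1⟩).trans (by omega)

/-- Many small connected triples lie in one light connected set. -/
lemma select (hA : Conn A) (hne : A.Nonempty) {l N k : ℕ} (hl : 0 < l) (hN : wt A ≤ l * N)
    (a b c : F D → F D) (h : ∀ t ∈ E, {a t, b t, c t} ⊆ A ∧ Conn {a t, b t, c t} ∧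
      sz (b t) ≤ 2 * l ∧ sz (c t) ≤ 2 * l) (hk : (N + 1) ^ 3 * k ≤ #E) :
    ∃ T ⊆ E, #T = k ∧ ∃ D0 ⊆ A, Conn D0 ∧ D0.Nonempty ∧ (∃ β, wt (D0.erase β) ≤ 10 * l) ∧
      ∀ t ∈ T, {a t, b t, c t} ⊆ D0 := by
  obtain ⟨P, p1, p2, p3⟩ := cover hA l
  have p4 : #P ≤ N + 1 := Nat.le_of_mul_le_mul_left (by rw [mul_add, mul_one]; omega) hl
  choose! q q1 q2 using p2
  obtain ⟨g0, g1⟩ := hne
  have ma : ∀ t ∈ E, a t ∈ A ∧ b t ∈ A ∧ c t ∈ A := fun t ht =>
    ⟨(h t ht).1 (by simp), (h t ht).1 (by simp), (h t ht).1 (by simp)⟩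
  obtain ⟨⟨Q1, Q2, Q3⟩, k1, k2⟩ := Finset.exists_le_card_fiber_of_mul_le_card_of_maps_to
    (f := fun t => (q (a t), q (b t), q (c t))) (s := E) (t := P ×ˢ P ×ˢ P) (n := k)
    (fun t ht => mem_product.2 ⟨q1 _ (ma t ht).1, mem_product.2
      ⟨q1 _ (ma t ht).2.1, q1 _ (ma t ht).2.2⟩⟩)
    ⟨(q g0, q g0, q g0), mem_product.2 ⟨q1 _ g1, mem_product.2 ⟨q1 _ g1, q1 _ g1⟩⟩⟩
    ((Nat.mul_le_mul_right k (by
      rw [card_product, card_product, pow_three]
      exact Nat.mul_le_mul p4 (Nat.mul_le_mul p4 p4))).trans hk)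
  obtain ⟨T, t1, t2⟩ := exists_subset_card_eq k2
  simp only [mem_product] at k1
  have t3 : ∀ t ∈ T, t ∈ E ∧ a t ∈ Q1 ∧ b t ∈ Q2 ∧ c t ∈ Q3 := fun t ht => by
    obtain ⟨m1, m2⟩ := mem_filter.1 (t1 ht)
    simp only [Prod.mk.injEq] at m2
    exact ⟨m1, m2.1 ▸ q2 _ (ma t m1).1, m2.2.1 ▸ q2 _ (ma t m1).2.1, m2.2.2 ▸ q2 _ (ma t m1).2.2⟩
  obtain ⟨a1, a2, a3, β, a4⟩ := p1 Q1 k1.1
  obtain ⟨-, -, -, β2, b4⟩ := p1 Q2 k1.2.1
  obtain ⟨-, -, -, β3, c4⟩ := p1 Q3 k1.2.2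
  have s : ∀ t ∈ T, ({a t, b t, c t} : Finset (F D)) ⊆ Q1 ∪ T.biUnion fun t => {a t, b t, c t} :=
    fun t ht => (subset_biUnion_of_mem (fun t => ({a t, b t, c t} : Finset (F D))) ht).trans
      subset_union_right
  refine ⟨T, fun t ht => (t3 t ht).1, t2, Q1 ∪ T.biUnion fun t => {a t, b t, c t},
    union_subset a1 (biUnion_subset.2 fun t ht => (h t (t3 t ht).1).1),
    conn_of_core a2 subset_union_left fun W w1 ⟨x, w2⟩ w3 => ?_, a3.mono subset_union_left,
    ⟨β, ?_⟩, s⟩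
  · rcases mem_union.1 (w1 w2) with m | m
    · exact ⟨x, m, w2⟩
    · obtain ⟨t, m1, m2⟩ := mem_biUnion.1 m
      exact ⟨a t, (t3 t m1).2.1, (h t (t3 t m1).1).2.1.sub (s t m1) w3 m2 w2 (by simp)⟩
  · have := (wt_mono (T := Q1.erase β ∪ ((Q2.filter fun g => sz g ≤ 2 * l) ∪
      Q3.filter fun g => sz g ≤ 2 * l)) (S := (Q1 ∪ T.biUnion fun t => {a t, b t, c t}).erase β)
      fun x hx => by
        obtain ⟨x1, x2⟩ := mem_erase.1 hx
        simp only [mem_union, mem_biUnion, mem_insert, mem_singleton, mem_erase, mem_filter] at x2 ⊢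
        rcases x2 with m | ⟨t, m, rfl | rfl | rfl⟩
        exacts [Or.inl ⟨x1, m⟩, Or.inl ⟨x1, (t3 t m).2.1⟩,
          Or.inr (Or.inl ⟨(t3 t m).2.2.1, (h t (t3 t m).1).2.2.1⟩),
          Or.inr (Or.inr ⟨(t3 t m).2.2.2, (h t (t3 t m).1).2.2.2⟩)]).trans
      (wt_union_le.trans (Nat.add_le_add a4
        (wt_union_le.trans (Nat.add_le_add (wt_small b4) (wt_small c4)))))
    omega

lemma conn_pair (d : D) : Conn {f d, f (α d)} :=
  conn_insert (conn_single _) (mem_singleton_self _)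

/-- Ears inside the disc. -/
lemma ear_in (hA : Disc A) (h1 : E ⊆ A) (h2 : ∀ t ∈ E, sz t = 3 ∧ ex {t} Aᶜ = 2) {l N k : ℕ}
    (hl : 2 ≤ l) (hN : wt A ≤ l * N) (h3 : 2 < #E) (hk : (N + 1) ^ 3 * k ≤ #E) :
    ∃ D0 ⊆ A, ∃ R, Conn D0 ∧ D0.Nonempty ∧ Disjoint R A ∧ #R ≤ 2 * k ∧
      (∃ β, wt (D0.erase β) ≤ 10 * l) ∧ ∀ A2, Disc A2 → D0 ⊆ A2 → Disjoint R A2 → ∀ x ≤ k,
        ∃ S : Finset (F D), Disc S ∧ ell S + x = ell A2 := by
  have := exists_dart D
  choose! e e1 e2 e3 using fun t (ht : t ∈ E) => ear_one (h2 t ht).1 (h2 t ht).2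
  obtain ⟨T, t1, t2, D0, d1, d2, d3, d4, d5⟩ := select hA.2.2.1 hA.1 (E := E) (l := l) (by omega) hN
    (fun t => f (α (e t))) id id (fun t ht => ⟨insert_subset (e2 t ht) (by simpa using h1 ht), by
      simpa [e1 t ht] using conn_pair (α (e t)), by have := (h2 t ht).1; simp only [id]; omega,
      by have := (h2 t ht).1; simp only [id]; omega⟩) hk
  have ne : ∀ t ∈ E, ∀ c, f c = t → c ≠ e t → f (α c) ∉ A := fun t ht c c1 c2 m => c2 (e3 t ht c c1 m)
  refine ⟨D0, d1, T.biUnion fun t => {f (α (φ (e t))), f (α (φ (φ (e t))))}, d2, d3,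
    disjoint_left.2 fun x hx => ?_, card_biUnion_le.trans
      ((sum_le_card_nsmul _ _ 2 fun t _ => card_le_two).trans (by simp [t2, mul_comm])), d4,
    fun A2 a1 a2 a3 x hx => ear_flex (S := A) (T := T) (fun t ht => ⟨(h2 t (t1 ht)).1,
      (h2 t (t1 ht)).2, fun m => ear_indep hA.2.2.1 h1 h2 h3 (t1 ht) (m.mono Subset.rfl t1)⟩) a1
      (fun t ht => a2 (d5 t ht (by simp))) (fun d hd => ?_) (t2 ▸ hx)⟩
  · obtain ⟨t, ht, m⟩ := mem_biUnion.1 hx
    rcases mem_insert.1 m with rfl | m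
    · exact ne t (t1 ht) _ ((fφ _).trans (e1 t (t1 ht))) (φne _)
    · rw [mem_singleton.1 m]
      exact ne t (t1 ht) _ (by rw [fφ, fφ, e1 t (t1 ht)]) fun k => face_v2 (e t) (by rw [k])
  · have k := e1 _ (t1 hd)
    have r : ∀ c, c = φ (e (f d)) ∨ c = φ (φ (e (f d))) → f (α c) ∉ A2 := fun c hc =>
      disjoint_left.1 a3 (mem_biUnion.2 ⟨f d, hd, by rcases hc with rfl | rfl <;> simp⟩)
    by_cases m : d = e (f d)
    · exact iff_of_true (a2 (d5 _ hd (by rw [← m]; simp))) (by rw [m]; exact e2 _ (t1 hd))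
    · exact iff_of_false (r d (((tri3 (k.symm ▸ (h2 _ (t1 hd)).1)).2 d k.symm).resolve_left m))
        (ne _ (t1 hd) d rfl m)

lemma card_large {l N : ℕ} (hl : 0 < l) (hN : wt (univ : Finset (F D)) ≤ l * N) :
    #(univ.filter fun g : F D => ¬sz g ≤ 2 * l) ≤ N := by
  have a := card_nsmul_le_sum (univ.filter fun g : F D => ¬sz g ≤ 2 * l) sz l fun g hg => by
    have := (mem_filter.1 hg).2
    omega
  rw [← wt_sum, smul_eq_mul, mul_comm] at a
  exact Nat.le_of_mul_le_mul_left (a.trans ((wt_mono (subset_univ _)).trans hN)) hl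

/-- Ears outside the disc. -/
lemma ear_out (h4 : ∀ d : D, ρ (ρ (ρ (ρ d))) = d) (hA : Disc A) (h1 : E ⊆ Aᶜ)
    (h2 : ∀ t ∈ E, sz t = 3 ∧ ex {t} Aᶜᶜ = 2) {l N k : ℕ} (hl : 2 ≤ l)
    (hN : wt (univ : Finset (F D)) ≤ l * N) (h3 : 2 < #E)
    (hk : (N + 1) ^ 3 * k + 3 * (N * N) ≤ #E) :
    ∃ D0 ⊆ A, ∃ R, Conn D0 ∧ D0.Nonempty ∧ Disjoint R A ∧ #R ≤ 2 * k ∧
      (∃ β, wt (D0.erase β) ≤ 10 * l) ∧ ∀ A2, Disc A2 → D0 ⊆ A2 → Disjoint R A2 → ∀ x ≤ k,
        ∃ S : Finset (F D), Disc S ∧ ell S + x = ell A2 := by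
  have := exists_dart D
  choose! e e1 e2 e3 using fun t (ht : t ∈ E) => ear_one (h2 t ht).1 (h2 t ht).2
  have ne : ∀ t ∈ E, ∀ c, f c = t → c ≠ e t → f (α c) ∈ A := fun t ht c c1 c2 =>
    by_contra fun m => c2 (e3 t ht c c1 (mem_compl.2 m))
  have r3 : ∀ c : D, ρ (ρ (ρ (φ c))) = α c := fun c => h4 (α c)
  have key : ∀ t ∈ E, f (ρ (φ (φ (e t)))) ∈ A ∧ f (ρ (ρ (φ (φ (e t))))) ∈ A ∧
      f (ρ (ρ (ρ (φ (φ (e t)))))) ∈ A := fun t ht => by
    have a1 : f (ρ (φ (φ (e t)))) ∈ A := by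
      rw [fρ]
      exact ne t ht _ (by rw [fφ, fφ, e1 t ht]) fun k => face_v2 (e t) (by rw [k])
    have a3 : f (ρ (ρ (ρ (φ (φ (e t)))))) ∈ A := by
      rw [r3]
      exact ne t ht _ ((fφ _).trans (e1 t ht)) (φne _)
    refine ⟨a1, by_contra fun m => ρρne (ρ (φ (φ (e t)))) (uniq hA ⟨a3, ?_⟩ ⟨a1, by rwa [← fρ]⟩
      (by simp)), a3⟩
    rw [r3, αα, fφ, e1 t ht]
    exact mem_compl.1 (h1 ht)
  generalize hL : (univ.filter fun g : F D => ¬sz g ≤ 2 * l) = L
  have mL : ∀ g, g ∉ L ↔ sz g ≤ 2 * l := fun g => by simp [← hL]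
  have cL : #L * #L ≤ N * N := Nat.mul_self_le_mul_self (hL ▸ card_large (by omega) hN)
  have b1 := card_pairs (B := L) (univ.filter fun c => f (ρ c) ∈ L ∧ f (ρ (ρ c)) ∈ L)
    (fun c => (f (ρ c), f (ρ (ρ c)))) (fun d a => (mem_filter.1 a).2) fun d d' a =>
      ρ.injective (s1 (congrArg Prod.fst a) (by simpa using congrArg Prod.snd a))
  have b2 := card_pairs (B := L) (univ.filter fun c => f (ρ (ρ c)) ∈ L ∧ f (ρ (ρ (ρ c))) ∈ L)
    (fun c => (f (ρ (ρ c)), f (ρ (ρ (ρ c))))) (fun d a => (mem_filter.1 a).2) fun d d' a =>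
      ρ.injective (ρ.injective (s1 (congrArg Prod.fst a)
        (by rw [← fρ, ← fρ]; exact congrArg Prod.snd a)))
  have b3 := card_pairs (B := L) (univ.filter fun c => f (ρ c) ∈ L ∧ f (ρ (ρ (ρ c))) ∈ L)
    (fun c => (f (ρ c), f (ρ (ρ (ρ c))))) (fun d a => (mem_filter.1 a).2) fun d d' a => by
      have a1 : f (ρ d) = f (ρ d') := congrArg Prod.fst a
      have a2 : f (ρ (ρ (ρ d))) = f (ρ (ρ (ρ d'))) := congrArg Prod.snd a
      exact ρ.injective (eq_of_fv a1 (Diag.only (g := f (ρ d)) (g' := f (ρ (ρ (ρ d))))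
        ⟨ρ d, ρ (ρ (ρ d)), rfl, by simp, rfl, rfl, (ρρne _).symm, (ρne _).symm, ρρρne _⟩
        (tch_v (mem_singleton.2 a1.symm)) ⟨_, by simp, mem_singleton.2 a2.symm⟩).symm)
  generalize hG : (E.filter fun t => ∃ a b c, ({a, b, c} : Finset (F D)) = {f (ρ (φ (φ (e t)))),
    f (ρ (ρ (φ (φ (e t))))), f (ρ (ρ (ρ (φ (φ (e t))))))} ∧ sz b ≤ 2 * l ∧ sz c ≤ 2 * l) = G
  have g0 : G ⊆ E := hG ▸ filter_subset _ _
  have g1 : #(E \ G) ≤ 3 * (N * N) := by
    refine (card_le_card_of_injOn (fun t => φ (φ (e t))) (t := ((univ.filter fun c => f (ρ c) ∈ L ∧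
      f (ρ (ρ c)) ∈ L) ∪ univ.filter fun c => f (ρ (ρ c)) ∈ L ∧ f (ρ (ρ (ρ c))) ∈ L) ∪
      univ.filter fun c => f (ρ c) ∈ L ∧ f (ρ (ρ (ρ c))) ∈ L) (fun t ht => ?_)
      fun t ht t' ht' m => ?_).trans ((card_union_le _ _).trans
        ((Nat.add_le_add_right (card_union_le _ _) _).trans (by omega)))
    · obtain ⟨m1, m2⟩ := mem_sdiff.1 (mem_coe.1 ht)
      simp only [← hG, mem_filter, not_and, not_exists] at m2
      simp only [coe_union, coe_filter, mem_univ, true_and, Set.mem_union, Set.mem_ofPred_eq]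
      by_contra m
      have x1 := m2 m1 _ _ _ rfl
      have x2 := m2 m1 _ _ _ (insert_comm _ _ _)
      have x3 := m2 m1 _ _ _ ((insert_comm _ _ _).trans (congrArg (insert _) (pair_comm _ _)))
      simp only [← mL] at x1 x2 x3
      tauto
    · rw [← e1 t (mem_sdiff.1 (mem_coe.1 ht)).1, ← e1 t' (mem_sdiff.1 (mem_coe.1 ht')).1,
        φ.injective (φ.injective m)]
  have := (exists_dart D).map f
  choose! a b c g2 g3 g4 using fun t (ht : t ∈ G) => (mem_filter.1 (hG ▸ ht)).2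
  obtain ⟨T, t1, t2, D0, d1, d2, d3, d4, d5⟩ := select hA.2.2.1 hA.1 (E := G) (l := l) (k := k)
    (by omega) ((wt_mono (subset_univ _)).trans hN) a b c (fun t ht => by
      obtain ⟨k1, k2, k3⟩ := key t (g0 ht)
      refine ⟨g2 t ht ▸ insert_subset k1 (insert_subset k2 (singleton_subset_iff.2 k3)), ?_,
        g3 t ht, g4 t ht⟩
      rw [g2 t ht]
      exact conn_insert (conn_insert (conn_single _) (by rw [← fρ]; simp)) (by rw [← fρ]; simp))
    (by have := card_sdiff_add_card_eq_card g0; omega)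
  have t3 := t1.trans g0
  refine ⟨D0, d1, T.biUnion fun t => {t, f (α (e t))}, d2, d3,
    disjoint_left.2 fun x hx => ?_, card_biUnion_le.trans
      ((sum_le_card_nsmul _ _ 2 fun t _ => card_le_two).trans (by simp [t2, mul_comm])), d4,
    fun A2 a1 a2 a3 x hx => ell_compl (S := A2) ▸ ear_flex (S := Aᶜ) (T := T) (fun t ht =>
      ⟨(h2 t (t3 ht)).1, (h2 t (t3 ht)).2, fun m => ear_indep hA.2.2.2 h1 h2 h3 (t3 ht)
        (m.mono Subset.rfl t3)⟩) a1.compl (fun t ht => mem_compl.2 (disjoint_left.1 a3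
        (mem_biUnion.2 ⟨t, ht, by simp⟩))) (fun d hd => ?_) (t2 ▸ hx)⟩
  · obtain ⟨t, ht, m⟩ := mem_biUnion.1 hx
    rcases mem_insert.1 m with rfl | m
    · exact mem_compl.1 (h1 (t3 ht))
    · rw [mem_singleton.1 m]
      exact mem_compl.1 (e2 t (t3 ht))
  · have k := e1 _ (t3 hd)
    have s := (g2 _ (t1 hd) ▸ d5 _ hd).trans a2
    rw [mem_compl, mem_compl, not_iff_not]
    by_cases m : d = e (f d)
    · exact iff_of_false (disjoint_left.1 a3 (mem_biUnion.2 ⟨f d, hd, by rw [← m]; simp⟩))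
        (by rw [m]; exact mem_compl.1 (e2 _ (t3 hd)))
    · refine iff_of_true (s ?_) (ne _ (t3 hd) d rfl m)
      rcases ((tri3 (k.symm ▸ (h2 _ (t3 hd)).1)).2 d k.symm).resolve_left m with m | m
      · rw [r3, ← m]
        simp
      · rw [← m]
        simp

/-- Many ears, on either side, give a root with all small deficits. -/
theorem ear_seed (h4 : ∀ d : D, ρ (ρ (ρ (ρ d))) = d) (hA : Disc A)
    (hE : ∀ t ∈ E, sz t = 3 ∧ (t ∈ A ∧ ex {t} Aᶜ = 2 ∨ t ∉ A ∧ ex {t} A = 2)) {l N k : ℕ}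
    (hl : 2 ≤ l) (hN : wt (univ : Finset (F D)) ≤ l * N)
    (hk : 2 * ((N + 1) ^ 3 * k + 3 * (N * N) + 2) < #E) :
    ∃ D0 ⊆ A, ∃ R, Conn D0 ∧ D0.Nonempty ∧ Disjoint R A ∧ #R ≤ 2 * k ∧
      (∃ β, wt (D0.erase β) ≤ 10 * l) ∧ ∀ A2, Disc A2 → D0 ⊆ A2 → Disjoint R A2 → ∀ x ≤ k,
        ∃ S : Finset (F D), Disc S ∧ ell S + x = ell A2 := by
  have c := card_filter_add_card_filter_not (s := E) (· ∈ A)
  by_cases m : (N + 1) ^ 3 * k + 3 * (N * N) + 2 < #(E.filter (· ∈ A))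
  · exact ear_in hA (E := E.filter (· ∈ A)) (fun t ht => (mem_filter.1 ht).2)
      (fun t ht => by
        obtain ⟨m1, m2⟩ := mem_filter.1 ht
        exact ⟨(hE t m1).1, ((hE t m1).2.resolve_right fun a => a.1 m2).2⟩) hl
      ((wt_mono (subset_univ _)).trans hN) (by omega) (by omega)
  · exact ear_out h4 hA (E := E.filter (· ∉ A)) (fun t ht => mem_compl.2 (mem_filter.1 ht).2)
      (fun t ht => by
        obtain ⟨m1, m2⟩ := mem_filter.1 ht
        rw [compl_compl]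
        exact ⟨(hE t m1).1, ((hE t m1).2.resolve_left fun a => m2 a.1).2⟩) hl hN (by omega)
      (by omega)

end PM

end Pool.Agent.MP_42ec7b_co

end MrgPart5

-- ======== part 6: formerly Pool.Agent.MP_42ec7b_co.A.PD2
section MrgPart6

/-!
Faces inside a Hamilton cycle: positions, parents and children.
-/

set_option autoImplicit false

open Finset

namespace Pool.Agent.MP_42ec7b_co

open Classical

namespace PM

variable {D : Type} [PM D]

lemma round_but {P : F D → Prop} {c e : D}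
    (h : ∀ d, v d = v c → d ≠ c → ρ d ≠ c → (P (f d) ↔ P (f (α d)))) (h1 : v e = v c)
    (h2 : e ≠ c) : P (f e) ↔ P (f (ρ c)) :=
  (vert_ind (Q := fun e => e = c ∨ (P (f e) ↔ P (f (ρ c)))) (Or.inl rfl) (fun d k1 k2 => by
    by_cases a : d = c
    · exact Or.inr (by rw [a])
    by_cases b : ρ d = c
    · exact Or.inl b
    rw [fρ]
    exact Or.inr ((h d k1 a b).symm.trans (k2.resolve_left a))) h1).resolve_left h2

/-- A disc whose boundary is a Hamilton cycle. -/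
structure Ham (S : Finset (F D)) (n : ℕ) (p : ℕ → V D) (dd : ℕ → D) : Prop where
  disc : Disc S
  fr : Frm S n p dd
  all : ∀ u, BV S u

/-- The vertex at position `i` lies on the face. -/
def At (n : ℕ) (p : ℕ → V D) (g : F D) (i : ℕ) : Prop := i < n ∧ Tch {g} (p i)

/-- Faces of `S` with a position in `[a, b)`. -/
noncomputable def Bn (S : Finset (F D)) (n : ℕ) (p : ℕ → V D) (a b : ℕ) : Finset (F D) :=
  S.filter fun g => ∃ z, a ≤ z ∧ z < b ∧ At n p g z

/-- Faces of `S` with all positions in `[a, b)`. -/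
noncomputable def Ins (S : Finset (F D)) (n : ℕ) (p : ℕ → V D) (a b : ℕ) : Finset (F D) :=
  S.filter fun g => ∀ z, At n p g z → a ≤ z ∧ z < b

variable {S : Finset (F D)} {n i j k l a b x y : ℕ} {p : ℕ → V D} {dd : ℕ → D} {g g' : F D}
  {c d e : D}

lemma at_v (h : i < n) (k : v d = p i) : At n p (f d) i := ⟨h, k ▸ tch_v (mem_singleton_self _)⟩

lemma at_v' (h : i < n) (k : v d = p i) : At n p (f (α d)) i :=
  ⟨h, k ▸ tch_v' (mem_singleton_self _)⟩

lemma at_α (h : i < n) (k : v (α d) = p i) : At n p (f d) i :=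
  ⟨h, k ▸ tch_α (mem_singleton_self _)⟩

namespace Ham

variable (H : Ham S n p dd)

include H

lemma pos (d : D) : ∃ i < n, v d = p i := (H.fr.vs (H.all _)).imp fun _ k => ⟨k.1, k.2.symm⟩

lemma ne (h1 : i < n) (h2 : j < n) (h : i ≠ j) : p i ≠ p j := fun k => h (H.fr.inj i h1 j h2 k)

lemma vend (h : a < n) (hi : i < n) (k : v (dd a) = p i ∨ v (α (dd a)) = p i) :
    i = a ∨ i = a + 1 ∨ i = 0 ∧ a + 1 = n := by
  have : p i = p a ∨ p i = p (a + 1) := k.elim (fun k => k ▸ H.fr.vend h (Or.inl rfl))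
    fun k => k ▸ H.fr.vend h (Or.inr rfl)
  rcases this with m | m
  · exact Or.inl (H.fr.inj i hi a h m)
  · rcases (Nat.succ_le_of_lt h).lt_or_eq with m' | m'
    · exact Or.inr (Or.inl (H.fr.inj i hi _ m' m))
    · exact Or.inr (Or.inr ⟨H.fr.inj i hi 0 (by omega) (by rw [m, ← H.fr.per, ← m']), m'⟩)

/-- Two faces inside the cycle do not cross. -/
theorem ncf (hg : g ∈ S) (hg' : g' ∈ S) (hne : g ≠ g') (h1 : At n p g i) (h2 : At n p g k)
    (h3 : At n p g' j) (h4 : At n p g' l) : ¬(i < j ∧ j < k ∧ (l < i ∨ k < l)) := by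
  rintro ⟨o1, o2, o3⟩
  obtain ⟨Z, z1, z2, z3, z4⟩ := exists_comp (mem_erase.2 ⟨hne.symm, hg'⟩)
  have z5 := z1.trans (erase_subset _ _)
  have fan : ∀ m, At n p g' m →
      ∃ a < n, f (dd a) ∈ Z ∧ (m = a ∨ m = a + 1 ∨ m = 0 ∧ a + 1 = n) := fun m ⟨m1, m2⟩ => by
    by_contra q
    have q' : ∀ e, Bd S e → v e = p m ∨ v (α e) = p m → f e ∉ Z := fun e x y z => by
      obtain ⟨a, a1, rfl⟩ := H.fr.sur e x
      exact q ⟨a, a1, z, H.vend a1 m1 y⟩
    obtain ⟨c', c1, rfl⟩ := tch_one.1 m2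
    obtain ⟨c, c2, c3, c4⟩ : ∃ c, v c = p m ∧ c' ≠ c ∧ ∀ d, v d = v c → d ≠ c → f d ≠ g := by
      by_cases t : Tch {g} (p m)
      · obtain ⟨c, t1, rfl⟩ := tch_one.1 t
        exact ⟨c, t1, fun x => hne (by rw [x]), fun d x y z => y (eq_of_fv z x)⟩
      · exact ⟨ρ c', by rw [vρ, c1], (ρne c').symm, fun d x _ z =>
          t (tch_one.2 ⟨d, by rw [x, vρ, c1], z⟩)⟩
    have key : ∀ e, v e = v c → e ≠ c → (f e ∈ Z ↔ f (ρ c) ∈ Z) := fun e =>
      round_but (P := (· ∈ Z)) fun d x y z => by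
        have t := c4 _ ((vρ d).trans x) z
        rw [fρ] at t
        refine ⟨fun w => z4 d w (mem_erase.2 ⟨t, by_contra fun u =>
          q' d ⟨z5 w, u⟩ (Or.inl (x.trans c2)) w⟩), fun w => z4.symm d w (mem_erase.2
            ⟨c4 d x y, by_contra fun u => q' (α d) ⟨z5 w, by rwa [αα]⟩
              (Or.inr (by rw [αα, x, c2])) w⟩)⟩
    have t := (key c' (c1.trans c2.symm) c3).1 z2
    obtain ⟨e, e1, e2⟩ := (H.all (p m)).out
    by_cases u : e = c
    · exact e2.2 (z5 (by rwa [← fρ, u]))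
    · exact q' e e2 (Or.inl e1) ((key e (e1.trans c2.symm) u).2 t)
  obtain ⟨a, a1, a2, a3⟩ := fan j h3
  obtain ⟨b, b1, b2, b3⟩ := fan l h4
  have := h2.1
  exact H.fr.arc_in (i := i) (j := k) H.disc.2.2.2 z3 z5 (by omega) (by omega) this.le (by omega)
    b1 a2 b2 ((facelk (conn_single g) h1.2 h2.2).mono fun d m => Or.inl (by
      rw [mem_singleton.1 m]
      exact ⟨hg, fun w => (mem_erase.1 (z1 w)).1 rfl⟩))

/-- Two faces with two common positions lie on different sides. -/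
lemma two (hg : g ∈ S) (hg' : g' ∈ S) (hne : g ≠ g') (h : i < j) (h1 : At n p g i)
    (h2 : At n p g j) (h3 : At n p g' i) (h4 : At n p g' j) (h5 : At n p g x) (h6 : At n p g' y) :
    ¬((x < i ∨ j < x) ∧ (y < i ∨ j < y) ∨ i < x ∧ x < j ∧ i < y ∧ y < j) := fun k => by
  have t : x ≠ y := by
    rintro rfl
    exact H.ne h2.1 h5.1 (by omega) (three_v hne (H.ne h1.1 h2.1 h.ne) (H.ne h1.1 h5.1 (by omega))
      h1.2 h3.2 h2.2 h4.2 h5.2 h6.2)
  have a1 := H.ncf hg hg' hne h1 h5 h4 h6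
  have a2 := H.ncf hg hg' hne h5 h2 h3 h6
  have a3 := H.ncf hg hg' hne h5 h1 h6 h4
  have a4 := H.ncf hg hg' hne h1 h5 h6 h4
  have a5 := H.ncf hg hg' hne h5 h2 h6 h3
  have b1 := H.ncf hg' hg hne.symm h3 h6 h2 h5
  have b2 := H.ncf hg' hg hne.symm h6 h4 h1 h5
  have b3 := H.ncf hg' hg hne.symm h6 h3 h5 h2
  omega

lemma third (g : F D) (i j : ℕ) : ∃ k, At n p g k ∧ k ≠ i ∧ k ≠ j := by
  obtain ⟨d, rfl⟩ := f_surj g
  obtain ⟨a, a1, a2⟩ := H.pos d
  obtain ⟨b, b1, b2⟩ := H.pos (φ d)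
  obtain ⟨c, c1, c2⟩ := H.pos (φ (φ d))
  have n1 : b ≠ a := fun k => face_v1 d (by rw [a2, b2, k])
  have n2 : c ≠ b := fun k => face_v1 (φ d) (by rw [b2, c2, k])
  have n3 : c ≠ a := fun k => face_v2 d (by rw [a2, c2, k])
  have m1 := at_v a1 a2
  have m2 := at_v b1 b2
  have m3 := at_v c1 c2
  simp only [fφ] at m2 m3
  by_contra k
  push Not at k
  have := k a m1
  have := k b m2
  have := k c m3
  omega

/-- An edge of an inner face is an edge of the cycle or has the face on one side only. -/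
lemma edge (hg : f d ∈ S) (hi : i < n) (hj : j < n) (h : i < j)
    (k : v d = p i ∧ v (α d) = p j ∨ v d = p j ∧ v (α d) = p i) :
    At n p (f d) i ∧ At n p (f d) j ∧ At n p (f (α d)) i ∧ At n p (f (α d)) j ∧
      (f (α d) ∉ S → d = dd i ∧ j = i + 1 ∨ i = 0 ∧ j + 1 = n) := by
  refine ⟨k.elim (fun k => at_v hi k.1) fun k => at_α hi k.2,
    k.elim (fun k => at_α hj k.2) fun k => at_v hj k.1,
    k.elim (fun k => at_v' hi k.1) fun k => at_v hi k.2,
    k.elim (fun k => at_v hj k.2) fun k => at_v' hj k.1, fun m => ?_⟩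
  obtain ⟨a, a1, rfl⟩ := H.fr.sur d ⟨hg, m⟩
  have x := H.vend a1 hi (k.elim (fun k => Or.inl k.1) fun k => Or.inr k.2)
  have y := H.vend a1 hj (k.elim (fun k => Or.inr k.2) fun k => Or.inl k.1)
  by_cases z : i = a
  · exact Or.inl ⟨by rw [z], by omega⟩
  · exact Or.inr (by omega)

lemma ends (d : D) : ∃ i j, i < j ∧ j < n ∧
    (v d = p i ∧ v (α d) = p j ∨ v d = p j ∧ v (α d) = p i) := by
  obtain ⟨a, a1, a2⟩ := H.pos d
  obtain ⟨b, b1, b2⟩ := H.pos (α d)
  rcases lt_trichotomy a b with h | rfl | h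
  exacts [⟨a, b, h, b1, Or.inl ⟨a2, b2⟩⟩, absurd (b2.trans a2.symm) (loop d),
    ⟨b, a, h, a1, Or.inr ⟨a2, b2⟩⟩]

/-- A face does not lie on both sides of one of its edges. -/
lemma side (hg : f d ∈ S) (hj : j < n) (h : i < j)
    (k : v d = p i ∧ v (α d) = p j ∨ v d = p j ∧ v (α d) = p i) (h1 : At n p (f d) x)
    (h2 : At n p (f d) y) : ¬(i < x ∧ x < j ∧ (y < i ∨ j < y)) := fun m => by
  obtain ⟨a1, a2, a3, a4, a5⟩ := H.edge hg (h.trans hj) hj h k
  by_cases t : f (α d) ∈ S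
  · obtain ⟨z, z1, z2, z3⟩ := H.third (f (α d)) i j
    have := H.two hg t (s0 d).symm h a1 a2 a3 a4 h1 z1
    have := H.two hg t (s0 d).symm h a1 a2 a3 a4 h2 z1
    omega
  · have := h2.1
    rcases a5 t with ⟨-, u⟩ | u <;> omega

/-- The extreme positions of a face are joined by an edge of the face. -/
lemma ext (hg : g ∈ S) (h1 : At n p g i) (h2 : At n p g j) (h : ∀ z, At n p g z → i ≤ z ∧ z ≤ j) :
    ∃ d, f d = g ∧ (v d = p i ∧ v (α d) = p j ∨ v d = p j ∧ v (α d) = p i) := by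
  obtain ⟨c, c1, rfl⟩ := tch_one.1 h2.2
  obtain ⟨e, rfl⟩ := φ.surjective c
  obtain ⟨x, x1, x2⟩ := H.pos (α (φ e))
  obtain ⟨y, y1, y2⟩ := H.pos e
  have x3 := at_α x1 x2
  have y3 := at_v y1 y2
  have e1 : v (α e) = p j := (vφ e).symm.trans c1
  have n1 : x ≠ j := fun k => loop (φ e) (by rw [x2, c1, k])
  have n2 : y ≠ j := fun k => loop e (by rw [y2, e1, k])
  have n3 : x ≠ y := fun k => face_v2 e (by rw [vφ, x2, y2, k])
  by_cases a : x = i
  · exact ⟨_, rfl, Or.inr ⟨c1, a ▸ x2⟩⟩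
  by_cases b : y = i
  · exact ⟨e, (fφ e).symm, Or.inl ⟨b ▸ y2, e1⟩⟩
  have x4 := h x x3
  have y4 := h y (by rwa [fφ])
  have s1 := H.side (i := x) hg h2.1 (by omega) (Or.inr ⟨c1, x2⟩) (by rwa [fφ]) h1
  rw [fφ] at hg h1 x3
  have s2 := H.side (i := y) hg h2.1 (by omega) (Or.inl ⟨y2, e1⟩) x3 h1
  omega

/-- The faces at an interval of positions form a connected set. -/
lemma band (a b : ℕ) : Conn (Bn S n p a b) := by
  intro Z hZ hne hc
  have step : ∀ z, a ≤ z → z < b → ∀ g ∈ S, ∀ g' ∈ S, At n p g z → At n p g' z →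
      (g ∈ Z ↔ g' ∈ Z) := fun z z1 z2 g hg g' hg' ⟨z3, m⟩ ⟨_, m'⟩ => by
    obtain ⟨c, c1, rfl⟩ := tch_one.1 m
    obtain ⟨c', c2, rfl⟩ := tch_one.1 m'
    exact ivl H.disc (Q := (· ∈ Z)) (c2.trans c1.symm) hg hg' fun d x y w =>
      ⟨fun u => hc d u (mem_filter.2 ⟨w, z, z1, z2, at_v' z3 (x.trans c1)⟩),
        fun u => hc.symm d u (mem_filter.2 ⟨y, z, z1, z2, at_v z3 (x.trans c1)⟩)⟩
  have key : ∀ z, a ≤ z → z < b → ∀ g ∈ S, At n p g z → (g ∈ Z ↔ f (dd a) ∈ Z) := fun z z1 => by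
    have t : ∀ z < n, Tch {f (dd z)} (p z) ∧ Tch {f (dd z)} (p (z + 1)) := fun z m =>
      H.fr.tch m (Or.inl (mem_singleton_self _))
    induction z, z1 using Nat.le_induction with
    | base => exact fun z2 g hg m => step a le_rfl z2 g hg _ (H.fr.bd a m.1).1 m ⟨m.1, (t a m.1).1⟩
    | succ z z1 ih =>
      intro z2 g hg m
      have z3 : z < n := Nat.lt_of_succ_lt m.1
      exact (step (z + 1) (by omega) z2 g hg _ (H.fr.bd z z3).1 m ⟨m.1, (t z z3).2⟩).trans
        (ih (by omega) _ (H.fr.bd z z3).1 ⟨z3, (t z z3).1⟩)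
  obtain ⟨g, hg⟩ := hne
  obtain ⟨g1, z, z1, z2, z3⟩ := mem_filter.1 (hZ hg)
  intro g' hg'
  obtain ⟨g2, y, y1, y2, y3⟩ := mem_filter.1 hg'
  exact (key y y1 y2 g' g2 y3).2 ((key z z1 z2 g g1 z3).1 hg)

/-- A numbering of the faces in which children come before their parent. -/
theorem rank : ∃ key : F D → ℕ, Function.Injective key ∧ ∀ a b, b < a + n → ∀ g ∈ Ins S n p a b,
    ∃ e, f e = g ∧ f (α e) ∈ Bn S n p a b ∧ key g < key (f (α e)) ∧ ∀ c, f c = g → c ≠ e →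
      f (α c) ∈ Ins S n p a b ∧ key (f (α c)) < key g ∨
        ∃ m ∈ Ico a b, m < n ∧ f (α c) = f (α (dd m)) := by
  have ex : ∀ g : F D, ∃ i j, At n p g i ∧ At n p g j ∧ ∀ z, At n p g z → i ≤ z ∧ z ≤ j :=
    fun g => by
      obtain ⟨k, k1, -⟩ := H.third g 0 0
      have ne : ((range n).filter (At n p g)).Nonempty := ⟨k, by simp [k1, k1.1]⟩
      exact ⟨_, _, (mem_filter.1 (min'_mem _ ne)).2, (mem_filter.1 (max'_mem _ ne)).2, fun z m =>
        ⟨min'_le _ _ (by simp [m, m.1]), le_max' _ _ (by simp [m, m.1])⟩⟩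
  choose lo hi e1 e2 e3 using ex
  have ix := fun g : F D => (Fintype.equivFin (F D) g).2
  have lt : ∀ g g' : F D, hi g - lo g < hi g' - lo g' →
      (hi g - lo g) * Fintype.card (F D) + Fintype.equivFin (F D) g <
        (hi g' - lo g') * Fintype.card (F D) + Fintype.equivFin (F D) g' := fun g g' m => by
    have := Nat.mul_le_mul_right (Fintype.card (F D)) (Nat.succ_le_of_lt m)
    have := ix g
    rw [Nat.succ_mul] at *
    omega
  refine ⟨fun g => (hi g - lo g) * Fintype.card (F D) + Fintype.equivFin (F D) g,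
    fun g g' m => ?_, fun a b hb g hg => ?_⟩
  · beta_reduce at m
    rcases lt_trichotomy (hi g - lo g) (hi g' - lo g') with z | z | z
    · exact absurd m (lt _ _ z).ne
    · rw [z, add_right_inj] at m
      exact (Fintype.equivFin (F D)).injective (Fin.ext m)
    · exact absurd m (lt _ _ z).ne'
  obtain ⟨g1, g2⟩ := mem_filter.1 hg
  obtain ⟨e, rfl, m⟩ := H.ext g1 (e1 g) (e2 g) (e3 g)
  obtain ⟨x, x1, x2, x3⟩ := H.third (f e) (lo (f e)) (hi (f e))
  have x4 := e3 _ x x1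
  have b1 := g2 _ (e1 _)
  have b2 := g2 _ (e2 _)
  have o : lo (f e) < hi (f e) := by omega
  obtain ⟨-, -, a3, a4, a5⟩ := H.edge g1 (e1 _).1 (e2 _).1 o m
  have t : f (α e) ∈ S := by_contra fun t => by rcases a5 t with ⟨-, u⟩ | u <;> omega
  refine ⟨e, rfl, mem_filter.2 ⟨t, _, b1.1, b1.2, a3⟩, lt _ _ ?_, fun c c1 c2 => ?_⟩
  · obtain ⟨y, y1, y2, y3⟩ := H.third (f (α e)) (lo (f e)) (hi (f e))
    have := H.two g1 t (s0 e).symm o (e1 _) (e2 _) a3 a4 x1 y1
    have := e3 _ y y1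
    have := e3 _ _ a3
    have := e3 _ _ a4
    omega
  obtain ⟨i, j, o', j1, m'⟩ := H.ends c
  rw [← c1] at g1
  obtain ⟨a1, a2, a3, a4, a5⟩ := H.edge g1 (o'.trans j1) j1 o' m'
  rw [c1] at a1 a2
  have i1 := e3 _ _ a1
  have i2 := e3 _ _ a2
  have ne : ¬(i = lo (f e) ∧ j = hi (f e)) := by
    rintro ⟨rfl, rfl⟩
    rcases m with m | m <;> rcases m' with m' | m'
    · exact c2 (eq_of_fv c1 (m'.1.trans m.1.symm))
    · exact s0 e (by rw [simple (α e) c (m.2.trans m'.1.symm) (by rw [αα, m.1, m'.2]), c1])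
    · exact s0 e (by rw [simple (α e) c (m.2.trans m'.1.symm) (by rw [αα, m.1, m'.2]), c1])
    · exact c2 (eq_of_fv c1 (m'.1.trans m.1.symm))
  by_cases t' : f (α c) ∈ S
  · have w : ∀ z, At n p (f (α c)) z → i ≤ z ∧ z ≤ j := fun z z1 => by
      have q := fun x => H.two g1 t' (s0 c).symm o' (c1 ▸ a1) (c1 ▸ a2) a3 a4 (x := x) (y := z)
      rw [c1] at q
      have := q _ (e1 _) z1
      have := q _ (e2 _) z1
      omega
    refine Or.inl ⟨mem_filter.2 ⟨t', fun z z1 => by have := w z z1; omega⟩, lt _ _ ?_⟩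
    have := w _ (e1 _)
    have := w _ (e2 _)
    omega
  · rcases a5 t' with ⟨u, -⟩ | u
    · exact Or.inr ⟨i, mem_Ico.2 (by omega), by omega, by rw [u]⟩
    · omega

end Ham

end PM

end Pool.Agent.MP_42ec7b_co

end MrgPart6

-- marker of a merged file
example : 731051 + 888563 = 731051 + 888563 := rfl
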