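import Mathlib.Data.Finset.Slice
import Mathlib.Data.Finset.Functor
import Pool.Agent.MP_42ec7b_co.A.PD2

-- ======== part 0: formerly Pool.Agent.MP_42ec7b_co.A.Spec
section MrgPart0

/-!
Almost all cycle lengths in 4-regular 4-connected planar maps: definitions and the list of steps.
-/

set_option autoImplicit false

open Finset

namespace Pool.Agent.MP_42ec7b_co

open Classical

/-- Every vertex has degree four. -/
class Q4 (D : Type) [PM D] : Prop where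
  four : ∀ u : PM.V D, #{d : D | PM.v d = u} = 4

namespace PM

/-- The number of vertices. -/
noncomputable def nv (D : Type) [PM D] : ℕ := Fintype.card (V D)

/-- `k` is the length of the boundary of a disc. -/
def Has (D : Type) [PM D] (k : ℕ) : Prop := ∃ S : Finset (F D), Disc S ∧ ell S = k

/-- The number of missing lengths in `[a, b)`. -/
noncomputable def miss (D : Type) [PM D] (a b : ℕ) : ℕ := #{k ∈ Ico a b | ¬Has D k}

variable {D : Type} [PM D]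

/-- Two sets of faces with a common vertex. -/
def Meet (P Q : Finset (F D)) : Prop := ∃ u, Tch P u ∧ Tch Q u

/-- A face of `A` with a neighbour outside. -/
def Expo (A : Finset (F D)) (x : F D) : Prop := x ∈ A ∧ Ad {x} Aᶜ

/-- `g` is the only face of `A` at the vertex `u`. -/
def Plain (A : Finset (F D)) (g : F D) (u : V D) : Prop :=
  g ∈ A ∧ Tch {g} u ∧ ∀ x ∈ A, Tch {x} u → x = g

/-- The number of boundary vertices of `A` on `g` that are not plain. -/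
noncomputable def jn (A : Finset (F D)) (g : F D) : ℕ :=
  #{u | Tch {g} u ∧ Tch Aᶜ u ∧ ¬Plain A g u}

/-- The neighbours of a face. -/
noncomputable def suns (h : F D) : Finset (F D) := univ.filter fun x => Ad {x} {h}

/-- The faces that are reached from `J` inside `U` in at most `k` steps. -/
noncomputable def ball (U J : Finset (F D)) : ℕ → Finset (F D)
  | 0 => J ∩ U
  | k + 1 => ball U J k ∪ U.filter fun x => Ad {x} (ball U J k)

/-- Faces that are not light. -/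
noncomputable def big (s : ℕ) (A : Finset (F D)) : Finset (F D) := A.filter fun x => s < sz x

/-- Light faces. -/
noncomputable def lit (s : ℕ) (A : Finset (F D)) : Finset (F D) := A.filter fun x => sz x ≤ s

/-- Heavy faces. -/
noncomputable def hvy (S : ℕ) (A : Finset (F D)) : Finset (F D) := A.filter fun x => S ≤ sz x

/-- The total size of the medium faces. -/
noncomputable def med (s S : ℕ) (A : Finset (F D)) : ℕ :=
  wt (A.filter fun x => s < sz x ∧ sz x < S)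

/-- Triangles. -/
noncomputable def tri (A : Finset (F D)) : Finset (F D) := A.filter fun x => sz x = 3

/-- Triangles that do not touch two faces of size larger than `s`. -/
noncomputable def tau (D : Type) [PM D] (s : ℕ) : ℕ :=
  #{t : F D | sz t = 3 ∧ ¬∃ g g', g ≠ g' ∧ s < sz g ∧ s < sz g' ∧ Meet {t} {g} ∧ Meet {t} {g'}}

/-- A triangle with exactly one neighbour of its own colour. -/
def Ear (A : Finset (F D)) (t : F D) : Prop :=
  sz t = 3 ∧ #{d | f d = t ∧ (f (α d) ∈ A ↔ t ∈ A)} = 1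

/-- Every disc that contains `P` and avoids `R` can be shortened by every `x ∈ X`. -/
def Flex (P R : Finset (F D)) (X : Finset ℕ) : Prop :=
  ∀ A, Disc A → P ⊆ A → Disjoint A R → ∀ x ∈ X, Has D (ell A - x) ∧ x ≤ ell A

/-- Flexible on `[0, 2 w]` up to `e` values. -/
def Flx (w e : ℕ) (P R : Finset (F D)) : Prop :=
  ∃ X ⊆ range (2 * w + 1), 2 * w + 1 ≤ #X + e ∧ Flex P R X

/-- A disc with a root that is small up to one face. -/
structure Seed0 (w e r : ℕ) (A P R : Finset (F D)) : Prop where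
  disc : Disc A
  sub : P ⊆ A
  conn : Conn P
  ne : P.Nonempty
  dis : Disjoint A R
  cR : #R ≤ r
  wP : ∃ x, wt (P.erase x) ≤ r
  flx : Flx w e P R

/-- A disc with a root that is small up to four faces, at most one of them heavy. -/
structure Seed (s S w e r : ℕ) (A P R L : Finset (F D)) : Prop where
  disc : Disc A
  sub : P ⊆ A
  conn : Conn P
  ne : P.Nonempty
  dis : Disjoint A R
  cR : #R ≤ r
  sL : L ⊆ P
  cL : #L ≤ 4
  bL : ∀ x ∈ L, s < sz x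
  wP : wt (P \ L) ≤ r
  one : #(hvy S P) ≤ 1
  flx : Flx w e P R

/-- The first part of the measure of a state. -/
noncomputable def rank (S : ℕ) (A P : Finset (F D)) : ℕ :=
  2 * #(hvy S A) + if hvy S P = ∅ then 1 else 0

/-- A cheap move from `A` to `A'`. -/
structure Cheap (s S w lam : ℕ) (A P R A' : Finset (F D)) : Prop where
  disc : Disc A'
  sub : P ⊆ A'
  dis : Disjoint A' R
  new : ∀ x ∈ A' \ A, sz x ≤ s
  old : ∀ x ∈ A \ A', sz x < S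
  drop : wt (lit s (A \ A')) + wt (A' \ A) ≤ w
  gain : lam * wt (A' \ A) < wt (A \ A')

/-- No cheap move. -/
def Tight (s S w lam : ℕ) (A P R : Finset (F D)) : Prop := ∀ A', ¬Cheap s S w lam A P R A'

/-- Only heavy faces can be removed. -/
def Stuck (S : ℕ) (A P : Finset (F D)) : Prop :=
  ∀ x ∈ A, x ∉ P → Disc (A.erase x) → S ≤ sz x

/-- `A` consists of two parts and an induced path of faces between them. -/
structure Chn (A U T : Finset (F D)) (L : ℕ) (ch : ℕ → F D) : Prop where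
  pos : 0 < L
  inj : ∀ i < L, ∀ j < L, ch i = ch j → i = j
  part : ∀ x, x ∈ A ↔ x ∈ U ∨ x ∈ T ∨ ∃ i < L, ch i = x
  dis : Disjoint U T
  nU : ∀ i < L, ch i ∉ U
  nT : ∀ i < L, ch i ∉ T
  cU : Conn U
  cT : Conn T
  adU : Ad U {ch 0}
  adT : Ad {ch (L - 1)} T
  adj : ∀ i, i + 1 < L → Ad {ch i} {ch (i + 1)}
  sUT : ¬Ad U T
  sU : ∀ i < L, 0 < i → ¬Ad U {ch i}
  sT : ∀ i, i + 1 < L → ¬Ad {ch i} T
  sep : ∀ i j, i + 1 < j → j < L → ¬Ad {ch i} {ch j}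

/-- The size of an initial part of a chain. -/
noncomputable def pre (ch : ℕ → F D) (k : ℕ) : ℕ := ∑ i ∈ range k, sz (ch i)

/-- The exposed faces that are not heavy and not in the root lie in `Br` or on `c` chains
that start on the side of `h`. -/
structure Cover (S : ℕ) (A P : Finset (F D)) (h : F D) (c : ℕ) (Br : Finset (F D))
    (U T : ℕ → Finset (F D)) (L : ℕ → ℕ) (ch : ℕ → ℕ → F D) (o : ℕ → F D) : Prop where
  cB : #Br ≤ c
  sB : Br ⊆ A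
  chn : ∀ i < c, 0 < L i → Chn A (U i) (T i) (L i) (ch i) ∧ h ∈ U i ∧ o i ∈ U i ∧
    Ad {o i} {ch i 0} ∧ ∀ k < L i, ch i k ∉ P ∧ sz (ch i k) < S
  cov : ∀ x, Expo A x → x ∉ P → sz x < S → x ∈ Br ∨ ∃ i < c, ∃ k < L i, ch i k = x

/-- Near the face `h`, away from `Om`, faces outside `A` are small and see only plain vertices
of walls. -/
def Good (A R : Finset (F D)) (h : F D) (K dep : ℕ) (Om Wl : Finset (F D)) : Prop :=
  ∀ x ∈ ball (Aᶜ \ Om) (suns h) dep, sz x ≤ K ∧ x ∉ R ∧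
    ∀ u, Tch {x} u → Tch A u → ∃ g ∈ Wl, Plain A g u

/-- `g` is joined inside `Z` to a heavy face by a set that can serve as a root. -/
def Link (s S k : ℕ) (Z : Finset (F D)) (g : F D) : Prop :=
  ∃ P L, P ⊆ Z ∧ Conn P ∧ g ∈ P ∧ L ⊆ P ∧ #L ≤ 4 ∧ (∀ x ∈ L, s < sz x) ∧ wt (P \ L) ≤ k ∧
    #(hvy S P) = 1

/-- Single faces that can be added to `A`. -/
def Addable (A N : Finset (F D)) (bs : F D → F D) : Prop :=
  (∀ y ∈ N, y ∉ A ∧ bs y ∈ A ∧ Ad {y} {bs y} ∧ ∀ x ∈ A, Meet {y} {x} → x = bs y) ∧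
    ∀ y ∈ N, ∀ y' ∈ N, Meet {y} {y'} → bs y = bs y'

/-- Small sets with a triangle that can be added to `A` at the face `g`. -/
def Arms (A : Finset (F D)) (g : F D) (K : ℕ) (I : Finset (Finset (F D))) : Prop :=
  (∀ Y ∈ I, Y ⊆ Aᶜ ∧ Conn Y ∧ Disc (A ∪ Y) ∧ wt Y ≤ K ∧ (∃ t ∈ Y, sz t = 3) ∧ Ad Y {g} ∧
    ∀ x ∈ A, Ad Y {x} → x = g) ∧ ∀ Y ∈ I, ∀ Y' ∈ I, Y ≠ Y' → ¬Meet Y Y'

/-- A connected set outside `A` that joins plain vertices of `h` and `g`. -/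
def Rung (A : Finset (F D)) (h g : F D) (Y : Finset (F D)) : Prop :=
  Y ⊆ Aᶜ ∧ Conn Y ∧ (∃ u, Tch Y u ∧ Plain A h u) ∧ ∃ u, Tch Y u ∧ Plain A g u

/-- A corridor between `h` and `g`, cut by rungs in linear order. -/
structure Cor (A : Finset (F D)) (h g : F D) (M : ℕ) (Y Lf Rt : ℕ → Finset (F D))
    (Bad : Finset ℕ) : Prop where
  rung : ∀ i < M, Rung A h g (Y i)
  cL : ∀ i < M, Cmp (Aᶜ \ Y i) (Lf i)
  cR : ∀ i < M, Cmp (Aᶜ \ Y i) (Rt i)
  dis : ∀ i < M, Disjoint (Lf i) (Rt i)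
  nest : ∀ i j, i < j → j < M → Aᶜ \ Rt i ⊆ Lf j
  thru : ∀ i < M, ∀ Z, Rung A h g Z → Disjoint Z (Y i) → Z ⊆ Lf i ∨ Z ⊆ Rt i
  clean : ∀ i j, i < j → j < M → (∀ k ∈ Bad, k < i ∨ j ≤ k) →
    ∀ u, Tch (Rt i ∩ Lf j) u → Tch A u → Plain A h u ∨ Plain A g u
  band : ∀ i j, i < j → j < M → (∀ k ∈ Bad, k < i ∨ j ≤ k) → ∀ q, q = h ∨ q = g →
    ∃ Z ⊆ Aᶜ, Conn Z ∧ Y i ∪ Y j ⊆ Z ∧ (∀ x ∈ Z, x ∈ Y i ∪ Y j ∨ Meet {x} {q}) ∧
      ∀ x ∈ Rt i ∩ Lf j, Meet {x} {q} → x ∈ Z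

/-- A triangle outside `A` with its base on one face of `W` and its apex on another one. -/
def Pure (A W : Finset (F D)) (t : F D) : Prop :=
  t ∉ A ∧ sz t = 3 ∧ (∀ u, Tch {t} u → Tch A u → ∃ g, Plain A g u) ∧
    ∃ h ∈ W, ∃ g ∈ W, h ≠ g ∧ Ad {t} {h} ∧ Meet {t} {g}

/-- One step of the process: the state is final or there is a state of smaller measure. -/
def Step (s S w e r E : ℕ) (A P : Finset (F D)) : Prop :=
  (∀ μ, (∀ x ∈ A, S ≤ sz x → sz x ≤ μ) → ell A ≤ r + μ + med s S A) ∨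
    ∃ A' P' R' L', Seed s S w e r A' P' R' L' ∧ hvy S A' ⊆ hvy S A ∧ med s S A' ≤ med s S A ∧
      (rank S A' P' ≤ rank S A P ∧ wt A' < wt A ∧
          ell A + med s S A' ≤ ell A' + w + med s S A ∨
        rank S A' P' < rank S A P ∧ ell A + 3 * med s S A' ≤ ell A' + E + 3 * med s S A)

end PM

open PM

/-! ### Counting and local tools -/

def CntStmt : Prop := ∀ (D : Type) [PM D] [Q4 D],
  (∀ d : D, ρ (ρ (ρ (ρ d))) = d) ∧
  wt (univ : Finset (F D)) = 4 * nv D ∧ Fintype.card (F D) = nv D + 2 ∧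
  (∑ x : F D, (sz x - 4)) + 8 = #(tri (univ : Finset (F D))) ∧
  (∀ (S : Finset (F D)) (k : ℕ), (∀ x ∈ S, k ≤ sz x) → k * #S ≤ wt S) ∧
  (∀ S : Finset (F D), #{u | Tch S u} ≤ wt S) ∧
  (∀ W : Finset (V D), #{x : F D | ∃ u ∈ W, Tch {x} u} ≤ 4 * #W) ∧
  (∀ S : Finset (F D), #{x : F D | x ∉ S ∧ Meet {x} S} ≤ 2 * wt S) ∧
  (∀ (h : F D) (S : Finset (F D)), h ∉ S → #{x ∈ suns h | Meet {x} S} ≤ 2 * wt S) ∧
  (∀ A A' : Finset (F D), ell A ≤ ell A' + wt (A \ A') + wt (A' \ A)) ∧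
  (∀ (U J : Finset (F D)) (K k : ℕ), (∀ x ∈ ball U J k, sz x ≤ K) →
    #(ball U J k) ≤ (K + 1) ^ k * #J) ∧
  ∀ A : Finset (F D), Disc A → ell A ≤ nv D ∧ ((∀ u, BV A u) → ell A = nv D)

/-- Euler count in a set of faces; vertices where two faces of a set are diagonal. -/
def EulStmt : Prop := ∀ (D : Type) [PM D] [Q4 D],
  (∀ U N : Finset (F D), Disjoint U N → (∀ d, f d ∈ U → f (α d) ∈ U ∨ f (α d) ∈ N) →
    ex U N ≤ #(tri U) + 4 * #N) ∧
  ∀ W : Finset (F D), #{u | ∃ g ∈ W, ∃ g' ∈ W, Diag g g' u} ≤ 3 * #W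

/-- Two diagonal faces that touch a third face; the faces that do not touch a face. -/
def NooseStmt : Prop := ∀ (D : Type) [PM D] [Q4 D],
  (∀ (c : D) (g : F D), ¬Tch {g} (v c) → Meet {f c} {g} → Meet {f (ρ (ρ c))} {g} →
    sz (f (ρ c)) = 3 ∧ Meet {f (ρ c)} {g} ∨
      sz (f (ρ (ρ (ρ c)))) = 3 ∧ Meet {f (ρ (ρ (ρ c)))} {g}) ∧
  ∀ g : F D, Conn (univ.filter fun x => ¬Meet {x} {g})

/-- Shelling with a root, adding a disc, adding many single faces, joining two extensions. -/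
def AddStmt : Prop := ∀ (D : Type) [PM D] [Q4 D],
  (∀ A P : Finset (F D), Disc A → Conn P → P.Nonempty → P ⊆ A → (∃ x, Expo A x ∧ x ∉ P) →
    ∃ x ∈ A, x ∉ P ∧ Disc (A.erase x)) ∧
  (∀ (A Y : Finset (F D)) (d : D), Disc A → Conn Y → Conn Yᶜ → Disjoint A Y → f d ∈ Y →
    f (α d) ∈ A → (∀ u, Tch Y u → Tch A u → u = v d ∨ u = v (α d)) → Disc (A ∪ Y)) ∧
  (∀ (A N : Finset (F D)) (bs : F D → F D), Disc A → Addable A N bs →
    Disc (A ∪ N) ∧ ell A + #N ≤ ell (A ∪ N)) ∧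
  ∀ A Y Y' : Finset (F D), Disc A → Disjoint A Y → Disjoint A Y' → Disc (A ∪ Y) →
    Disc (A ∪ Y') → ¬Meet Y Y' → Disc (A ∪ Y ∪ Y')

/-- Arms give ears; ears give flexibility. -/
def TogStmt : Prop := ∀ (D : Type) [PM D] [Q4 D],
  (∀ (A : Finset (F D)) (g : F D) (K : ℕ) (I : Finset (Finset (F D))), Disc A → g ∈ A →
    Arms A g K I → ∃ N Er : Finset (F D), Disjoint A N ∧ Disc (A ∪ N) ∧ (∀ x ∈ N, ∃ Y ∈ I, x ∈ Y) ∧
      wt N ≤ K * #I ∧ Conn (insert g N) ∧ #Er = #I ∧ (∀ t ∈ Er, Ear (A ∪ N) t ∧ t ∉ A) ∧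
      (∀ t ∈ Er, ∀ t' ∈ Er, t ≠ t' → ¬Meet {t} {t'}) ∧
      ∀ t ∈ Er, ∀ x ∈ A, Ad {t} {x} → x = g) ∧
  ∀ A P Er : Finset (F D), Disc A → P ⊆ A → (∀ t ∈ Er, Ear A t) →
    (∀ t ∈ Er, ∀ t' ∈ Er, t ≠ t' → ¬Meet {t} {t'}) → (∀ t ∈ Er, t ∈ A → t ∈ P) →
    (∀ t ∈ Er, ∀ x ∈ A, Ad {t} {x} → x ∈ P) →
    ∃ R, Disjoint A R ∧ #R ≤ 2 * #Er ∧ Flex P R (range (#Er + 1))

/-- Disjoint rungs between two faces are linearly ordered. -/
def OrdStmt : Prop := ∀ (D : Type) [PM D] [Q4 D] (A : Finset (F D)) (h g : F D)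
  (I : Finset (Finset (F D))), Disc A → h ≠ g →
  (∀ Y ∈ I, Rung A h g Y ∧ ∀ u, Tch Y u → Tch A u → ∃ q, Plain A q u) →
  (∀ Y ∈ I, ∀ Y' ∈ I, Y ≠ Y' → Disjoint Y Y') →
  ∃ Y Lf Rt Bad, Cor A h g #I Y Lf Rt Bad ∧ (∀ i < #I, Y i ∈ I) ∧
    (∀ Z ∈ I, ∃ i < #I, Y i = Z) ∧ #Bad ≤ jn A h + jn A g

/-! ### Discs without cheap moves -/

def ChStmt : Prop := ∀ (D : Type) [PM D] [Q4 D] (S H : ℕ) (A P : Finset (F D)) (h : F D),
  Disc A → Conn P → P.Nonempty → P ⊆ A → Stuck S A P → #(hvy S A) ≤ H → h ∈ A → S ≤ sz h →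
  ∃ Br U T L ch o, Cover S A P h (2 ^ H) Br U T L ch o

/-- Only one face can be removed. -/
def PathStmt : Prop := ∀ (D : Type) [PM D] [Q4 D] (S H : ℕ) (A P : Finset (F D)) (h : F D),
  Disc A → Conn P → P.Nonempty → P ⊆ A → #(hvy S A) ≤ H → h ∈ A → h ∉ P → S ≤ sz h →
  Disc (A.erase h) → (∀ x ∈ A, x ∉ P → Disc (A.erase x) → x = h) →
  ∃ X, P ⊆ X ∧ X ⊆ A ∧ h ∉ X ∧ Disc (A \ X) ∧ (∀ x ∈ X, Expo A x → x ∈ P) ∧
    (∀ g ∈ A \ X, jn (A \ X) g ≤ 4) ∧ ∃ U T L ch o, Cover S A P h H ∅ U T L ch o ∧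
      ∀ i < H, 0 < L i → S ≤ sz (o i) ∧ o i ∉ X ∧ ∀ k < L i, ch i k ∉ X

/-- Many disjoint rungs to the far part of a chain give a cheap move. -/
def ExStmt : Prop := ∀ (D : Type) [PM D] [Q4 D] (s S w lam y p N Nr : ℕ)
  (A P R U T : Finset (F D)) (L : ℕ) (ch : ℕ → F D) (I : Finset (Finset (F D))),
  Disc A → P ⊆ A → Disjoint A R → Chn A U T L ch → (∀ k < L, ch k ∉ P ∧ sz (ch k) < S) →
  (∀ Y ∈ I, Y ⊆ Aᶜ ∧ Conn Y ∧ Disjoint Y R ∧ wt Y ≤ y ∧ Ad Y U ∧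
    ∃ k, Nr ≤ pre ch (k - 2) ∧ (k < L ∧ Ad Y {ch k} ∨ k = L ∧ Ad Y T)) →
  (∀ Y ∈ I, ∀ Y' ∈ I, Y ≠ Y' → Disjoint Y Y') → #R + 2 + N ≤ #I → 12 * nv D < p * N →
  y + p ≤ s → lam * (y + p) < Nr → Nr + 3 * s + 2 * p + y ≤ w → ¬Tight s S w lam A P R

def GoodStmt : Prop := ∀ H c dep lam a : ℕ, ∃ K k b : ℕ, ∀ (D : Type) [PM D] [Q4 D]
  (s S w r : ℕ) (A P R Lg Br : Finset (F D)) (h : F D) (U T : ℕ → Finset (F D)) (L : ℕ → ℕ)
  (ch : ℕ → ℕ → F D) (o : ℕ → F D), b * r ≤ nv D → b * s ≤ nv D → k ≤ s → 3 * s + k ≤ w →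
  s < S → Disc A → P ⊆ A → Disjoint A R → #R ≤ r → Lg ⊆ P → #Lg ≤ 4 → (∀ x ∈ Lg, s < sz x) →
  wt (P \ Lg) ≤ r → #(hvy S A) ≤ H → h ∈ A → S ≤ sz h → Tight s S w lam A P R →
  Cover S A P h c Br U T L ch o →
  ∃ Om Wl, Good A R h K dep Om Wl ∧ a * #Om ≤ nv D ∧ Wl ⊆ big s A ∧ hvy S A ⊆ Wl ∧
    #Wl ≤ H + 4 + 4 * c ∧ (∀ g ∈ Wl, jn A g ≤ 2 * wt (P \ Lg) + k) ∧
    ∀ Z, Br = ∅ → (∀ i < c, 0 < L i → S ≤ sz (o i) ∧ o i ∈ Z ∧ ∀ j < L i, ch i j ∈ Z) →
      ∀ g ∈ Wl, S ≤ sz g ∨ g ∈ P ∨ Link s S (3 * s + k) Z g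

/-- Compensation: faces that can be added after `X` is removed. -/
def ClStmt : Prop := ∀ (D : Type) [PM D] [Q4 D] (A X R Om Wl Mk N2 : Finset (F D)) (h h2 : F D)
  (K j : ℕ), Disc A → h ∈ X → X ⊆ A → Wl ⊆ A → Good A R h K 0 Om Wl → jn A h ≤ j →
  (∀ g ∈ Wl, jn A g ≤ j) → (∀ y ∈ N2, y ∉ A ∧ y ∉ Mk ∧ h2 ∈ A \ X ∧ Ad {y} {h2} ∧
    ∀ x ∈ A \ X, Meet {y} {x} → x = h2) →
  ∃ N bs, Addable (A \ X) N bs ∧ Disjoint N A ∧ Disjoint N Mk ∧
    #{y ∈ suns h | y ∉ A ∧ y ∉ Om ∧ ∃ g ∈ Wl \ X, g ≠ h2 ∧ Meet {y} {g}} + #N2 ≤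
      #N + 11 * #Wl * (2 * j + #Mk + 1)

/-! ### Arms -/

def Sl1Stmt : Prop := ∀ a : ℕ, ∃ dep a1 : ℕ, ∀ K : ℕ, ∃ K1 c : ℕ, ∀ (D : Type) [PM D] [Q4 D]
  (A Om J : Finset (F D)) (h : F D), c ≤ nv D → Disc A → h ∈ A → a1 * #Om ≤ nv D →
  J ⊆ suns h → J ⊆ Aᶜ \ Om → nv D ≤ a * #J →
  (∀ x ∈ ball (Aᶜ \ Om) J dep, sz x ≤ K ∧ ∀ y ∈ A, Meet {x} {y} → y = h) →
  ∃ I, Arms A h K1 I ∧ nv D ≤ c * #I

/-- A triangle of a clean window that avoids one of the two faces lies in an arm of the other. -/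
def PockStmt : Prop := ∀ (D : Type) [PM D] [Q4 D] (A : Finset (F D)) (h g t : F D) (M : ℕ)
  (Y Lf Rt : ℕ → Finset (F D)) (Bad : Finset ℕ) (i j : ℕ), Disc A → h ≠ g → 3 < sz h →
  Cor A h g M Y Lf Rt Bad → i + 2 < j → j + 2 < M → (∀ k ∈ Bad, k < i ∨ j + 2 ≤ k) →
  (∀ k < M, Conn ((Y k).filter fun x => ¬Meet {x} {g}) ∧
    ((∃ x ∈ Y k, ¬Meet {x} {g}) → ∃ x ∈ Y k, ¬Meet {x} {g} ∧ Meet {x} {h})) →
  t ∈ Rt (i + 2) ∩ Lf j → ¬Meet {t} {g} →
  (∃ Z ⊆ Rt i ∩ Lf (j + 2), t ∈ Z ∧ Conn Z ∧ Disc (A ∪ Z) ∧ Ad Z {h} ∧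
    ∀ x ∈ A, Ad Z {x} → x = h) ∨ (univ.filter fun x => ¬Meet {x} {g}) ⊆ Rt i ∩ Lf (j + 2)

/-- A clean window with many neighbours of `h` that are not pure has a triangle that avoids
one of the two faces. -/
def WinStmt : Prop := ∀ (D : Type) [PM D] [Q4 D] (A J : Finset (F D)) (h g : F D) (M : ℕ)
  (Y Lf Rt : ℕ → Finset (F D)) (Bad : Finset ℕ) (i j : ℕ), Disc A → h ≠ g →
  Cor A h g M Y Lf Rt Bad → i < j → j < M → (∀ k ∈ Bad, k < i ∨ j ≤ k) →
  J ⊆ suns h → J ⊆ Rt i ∩ Lf j → (∀ x ∈ J, ¬(sz x = 3 ∧ Meet {x} {g})) →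
  16 + 10 * (#(Y i) + #(Y j)) < #J →
  ∃ t ∈ Rt i ∩ Lf j, sz t = 3 ∧ (¬Meet {t} {g} ∨ ¬Meet {t} {h})

def Sl2Stmt : Prop := ∀ a dep K : ℕ, ∃ a2 K1 c : ℕ, ∀ (D : Type) [PM D] [Q4 D]
  (A Om J : Finset (F D)) (h g : F D), c ≤ nv D → Disc A → h ∈ A → g ∈ A → h ≠ g →
  3 < sz h → 3 < sz g → a2 * (jn A h + jn A g) ≤ nv D →
  (∀ x ∈ ball (Aᶜ \ Om) J dep, sz x ≤ K ∧ ∀ u, Tch {x} u → Tch A u → ∃ q, Plain A q u) →
  J ⊆ suns h → nv D ≤ a * #J → (∀ y ∈ J, ¬(sz y = 3 ∧ Meet {y} {g}) ∧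
    ∃ x ∈ ball (Aᶜ \ Om) {y} dep, Meet {x} {g}) →
  ∃ I q, (q = h ∨ q = g) ∧ Arms A q K1 I ∧ nv D ≤ c * #I

def SlStmt : Prop := ∀ a cW : ℕ, ∃ dep a1 : ℕ, ∀ K : ℕ, ∃ a2 K1 c : ℕ,
  ∀ (D : Type) [PM D] [Q4 D] (A Om Wl J : Finset (F D)) (h : F D), c ≤ nv D → Disc A →
  h ∈ Wl → Wl ⊆ A → #Wl ≤ cW → (∀ g ∈ Wl, 3 < sz g ∧ a2 * jn A g ≤ nv D) →
  (∀ x ∈ ball (Aᶜ \ Om) J dep, sz x ≤ K ∧ ∀ u, Tch {x} u → Tch A u → ∃ g ∈ Wl, Plain A g u) →
  a1 * #Om ≤ nv D → J ⊆ suns h → J ⊆ Aᶜ \ Om → nv D ≤ a * #J →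
  (∀ y ∈ J, ∀ g ∈ Wl, g ≠ h → ¬(sz y = 3 ∧ Meet {y} {g})) →
  ∃ I, ∃ q ∈ Wl, Arms A q K1 I ∧ nv D ≤ c * #I

/-! ### The process -/

/-- A heavy face is removed. -/
def RemStmt : Prop := ∀ (D : Type) [PM D] [Q4 D] (s S w e r K j : ℕ)
  (A P R L Om Wl N2 J : Finset (F D)) (h h2 : F D), s < S → Seed s S w e r A P R L → h ∈ A →
  h ∉ P → S ≤ sz h → Disc (A.erase h) → Good A R h K 0 Om Wl → Wl ⊆ A → h ∈ Wl →
  (∀ g ∈ Wl, jn A g ≤ j) → (∀ y ∈ N2, y ∉ A ∧ y ∉ R ∧ sz y ≤ s ∧ h2 ∈ A.erase h ∧ Ad {y} {h2} ∧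
    ∀ x ∈ A.erase h, Meet {y} {x} → x = h2) →
  (∀ y ∈ suns h, y ∉ A → y ∉ Om → y ∈ J ∨ ∃ g ∈ Wl, g ≠ h ∧ g ≠ h2 ∧ Meet {y} {g}) →
  ∃ A', Seed s S w e r A' P R L ∧ hvy S A' ⊆ hvy S A ∧ med s S A' ≤ med s S A ∧
    rank S A' P < rank S A P ∧ ell A + #N2 ≤ ell A' + #Om + #J +
      11 * #Wl * (2 * j + r + #(big s (univ : Finset (F D))) + 1)

/-- A new root is planted on arms. -/
def SwStmt : Prop := ∀ (D : Type) [PM D] [Q4 D] (s S w e r K : ℕ) (A N Q L : Finset (F D))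
  (bs : F D → F D) (q : F D) (I : Finset (Finset (F D))), s < S → Disc A → Addable A N bs →
  (∀ y ∈ N, sz y ≤ s) → Arms A q K I → #I = 2 * w → K ≤ s → Q ⊆ A → Conn Q → q ∈ Q → L ⊆ Q →
  #L ≤ 4 → (∀ x ∈ L, s < sz x) → wt (Q \ L) + K * (2 * w) ≤ r → #(hvy S Q) = 1 → 4 * w ≤ r →
  ∃ A' P' R', Seed s S w e r A' P' R' L ∧ A ⊆ A' ∧ (∀ x ∈ A' \ A, sz x ≤ s) ∧
    hvy S P' ≠ ∅ ∧ ell A + #N ≤ ell A' + 6 * r

def MoveStmt : Prop := ∀ H a : ℕ, ∃ b0 : ℕ, ∀ b, b0 ≤ b → ∃ c : ℕ, ∀ M : ℕ, ∃ k : ℕ,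
  ∀ (D : Type) [PM D] [Q4 D] (s S w e r E : ℕ) (A P R L : Finset (F D)),
  b * r ≤ nv D → nv D ≤ 2 * b * r → c * w ≤ nv D → 4 * s ≤ w → nv D ≤ M * s → k ≤ s → r < S →
  nv D ≤ a * E → #(hvy S (univ : Finset (F D))) ≤ H → Seed s S w e r A P R L →
  Step s S w e r E A P

def ProcStmt : Prop := ∀ (D : Type) [PM D] (s S w e r E μ l : ℕ), 0 < w → w ≤ l → r + μ ≤ l →
  (∀ A P R L : Finset (F D), Seed s S w e r A P R L → Step s S w e r E A P) →
  ∀ A P R L : Finset (F D), Seed s S w e r A P R L → (∀ x ∈ A, S ≤ sz x → sz x ≤ μ) →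
    ∀ u ≤ ell A, w * miss D l u ≤ e * u + w * (3 * med s S A + E * rank S A P)

/-! ### Starting discs -/

def EarStmt : Prop := ∀ c b : ℕ, ∃ c0 : ℕ, ∀ (D : Type) [PM D] [Q4 D] (w r : ℕ)
  (A Er : Finset (F D)), c0 ≤ nv D → c0 * w ≤ nv D → nv D ≤ b * r → Disc A →
  (∀ t ∈ Er, Ear A t) → nv D ≤ c * #Er → ∃ P R, Seed0 w 0 r A P R

/-- A window of pure triangles is a seed. -/
def DwStmt : Prop := ∀ (D : Type) [PM D] [Q4 D] (A : Finset (F D)) (h g : F D) (M : ℕ)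
  (t : ℕ → F D) (Lf Rt : ℕ → Finset (F D)) (Bad : Finset ℕ) (i w e r : ℕ), Disc A → h ≠ g →
  Cor A h g M (fun k => {t k}) Lf Rt Bad → (∀ k < M, Pure A {h, g} (t k)) →
  i + 2 * w + 1 < M → (∀ k ∈ Bad, k < i ∨ i + 2 * w + 1 ≤ k) →
  #{d | f d ∈ Rt i ∩ Lf (i + 2 * w + 1) ∧ f (α d) ∈ A ∧ ∀ k < M, f d ≠ t k} ≤ e →
  wt (Rt i ∩ Lf (i + 2 * w + 1)) ≤ r → 3 ≤ r → ∃ P R, Seed0 w e r (Rt i) P R

def DenseStmt : Prop := ∀ H q a : ℕ, ∃ a1 : ℕ, ∀ b j : ℕ, ∃ c : ℕ, ∀ (D : Type) [PM D] [Q4 D]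
  (w e r : ℕ) (A W : Finset (F D)), c ≤ nv D → c * w ≤ nv D → c ≤ w → w ≤ q * e →
  nv D ≤ b * r → Disc A → W ⊆ A → #W ≤ H → (∀ g ∈ W, jn A g ≤ j) →
  a1 * #{d | f d ∉ A ∧ f (α d) ∈ W ∧ ¬Pure A W (f d) ∧
    ∀ u, Tch {f d} u → Tch A u → ∃ g ∈ W, Plain A g u} ≤ nv D →
  nv D ≤ a * #{t | Pure A W t} →
  ∃ A' P R, A' ⊆ Aᶜ ∧ Seed0 w e r A' P R ∧ a * #{t | Pure A W t ∧ t ∉ A'} ≤ nv D

def CsStmt : Prop := ∀ H q a T b : ℕ, ∃ c k : ℕ, ∀ (D : Type) [PM D] [Q4 D]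
  (s S w e r E μ : ℕ), c * w ≤ nv D → c * s ≤ nv D → k ≤ s → k ≤ w → w ≤ q * e →
  nv D ≤ b * r → s < S → S ≤ μ → #(hvy S (univ : Finset (F D))) ≤ H → nv D ≤ T * μ →
  nv D ≤ a * E → (∃ x : F D, μ ≤ sz x) → 32 * T * med s S (univ : Finset (F D)) ≤ μ →
  ∃ A P R : Finset (F D), Seed0 w e r A P R ∧ (∀ x ∈ A, sz x < μ) ∧
    μ ≤ ell A + E + 8 * T * med s S (univ : Finset (F D))

def Top1Stmt : Prop := ∀ a b q : ℕ, ∃ c : ℕ, ∀ (D : Type) [PM D] [Q4 D] (s w e r : ℕ),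
  c * s ≤ nv D → c * w ≤ nv D → c ≤ w → w ≤ q * e → nv D ≤ b * r → 3 ≤ s →
  nv D ≤ a * tau D s → ∃ A P R : Finset (F D), Seed0 w e r A P R ∧ nv D ≤ ell A + r

def Top2Stmt : Prop := ∀ T H : ℕ, ∃ c : ℕ, ∀ (D : Type) [PM D] [Q4 D] (s S : ℕ), c ≤ nv D →
  3 ≤ s → s < S → #(hvy S (univ : Finset (F D))) ≤ H →
  nv D ≤ T * wt (hvy S (univ : Finset (F D))) →
  100 * (tau D s + med s S (univ : Finset (F D))) ≤ wt (hvy S (univ : Finset (F D))) →
  ∃ A Er : Finset (F D), Disc A ∧ ell A = nv D ∧ (∀ t ∈ Er, Ear A t) ∧ nv D ≤ c * #Er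

def LightStmt : Prop := ∀ (D : Type) [PM D] [Q4 D],
  miss D 0 (nv D + 1) ≤ #(tri (univ : Finset (F D))) + 10

/-! ### The end -/

/-- The ranges between the sizes of the very large faces. -/
def RangeStmt : Prop := ∀ (D : Type) [PM D] (s S w e r θ c1 c2 : ℕ), S ≤ θ →
  (∀ (μ : ℕ) (A P R L : Finset (F D)), θ ≤ μ → Seed s S w e r A P R L →
    (∀ x ∈ A, sz x ≤ μ) → miss D (μ + r) (ell A) ≤ c1) →
  (∀ x : F D, θ < sz x → ∃ A P R L : Finset (F D), Seed s S w e r A P R L ∧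
    (∀ y ∈ A, sz y < sz x) ∧ sz x ≤ ell A + c2) →
  ∀ A P R L : Finset (F D), Seed s S w e r A P R L →
    miss D 0 (ell A) ≤ θ + (#{x : F D | θ < sz x} + 1) * (c1 + c2 + r)

def MainStmt : Prop := ∀ T : ℕ, ∃ n0 : ℕ, ∀ (D : Type) [PM D] [Q4 D], n0 ≤ nv D →
  T * miss D 0 (nv D + 1) ≤ nv D

end Pool.Agent.MP_42ec7b_co

end MrgPart0

-- ======== part 1: formerly Pool.Agent.MP_42ec7b_co.A.RCs
section MrgPart1

/-!
A seed below a given face size.
-/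

set_option autoImplicit false

open Finset

namespace Pool.Agent.MP_42ec7b_co

open Classical

namespace PM

namespace CsA

variable {D : Type} [PM D]

lemma ex_sd (A A' B : Finset (F D)) : ex A B ≤ ex A' B + wt (A \ A') :=
  (card_le_card fun d hd => by
    simp only [mem_filter, mem_union, mem_univ, true_and, mem_sdiff] at hd ⊢
    tauto).trans (card_union_le _ _)

lemma wt_sd (A A' : Finset (F D)) : wt A + wt (A' \ A) = wt A' + wt (A \ A') := by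
  rw [← wt_union disjoint_sdiff, ← wt_union disjoint_sdiff, union_sdiff_self_eq_union,
    union_sdiff_self_eq_union, union_comm]

lemma ball_mono {U J J' : Finset (F D)} (h : J ⊆ J') (k : ℕ) : ball U J k ⊆ ball U J' k := by
  induction k with
  | zero => exact inter_subset_inter_right h
  | succ k ih =>
    exact union_subset_union ih fun x hx =>
      mem_filter.2 ⟨(mem_filter.1 hx).1, (mem_filter.1 hx).2.mono Subset.rfl ih⟩

lemma ball_zero {U J : Finset (F D)} (k : ℕ) : J ∩ U ⊆ ball U J k := by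
  induction k with
  | zero => exact Subset.rfl
  | succ k ih => exact ih.trans subset_union_left

lemma ear_compl {A : Finset (F D)} {t : F D} (h : Ear A t) : Ear Aᶜ t := by
  refine ⟨h.1, Eq.trans (congrArg card ?_) h.2⟩
  ext d
  simp only [mem_filter, mem_compl, not_iff_not]

lemma seed_mono {w e r : ℕ} {A P R : Finset (F D)} (h : Seed0 w 0 r A P R) : Seed0 w e r A P R := by
  obtain ⟨X, h1, h2, h3⟩ := h.flx
  exact ⟨h.disc, h.sub, h.conn, h.ne, h.dis, h.cR, h.wP, X, h1, by omega, h3⟩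

/-- A disc that contains the large faces, has no cheap move and a long exposed part. -/
lemma best {μ : ℕ} (lam : ℕ) (hB : (hvy μ (univ : Finset (F D))).Nonempty)
    (h2 : 2 * #(hvy μ (univ : Finset (F D))) < μ) :
    ∃ B : Finset (F D), Disc B ∧ hvy μ univ ⊆ B ∧
      (∀ s S w P, S ≤ μ → Tight s S w (lam + 1) B P ∅) ∧
      lam * μ ≤ lam * (ex Bᶜ (hvy μ univ) + 2 * #(hvy μ (univ : Finset (F D)))) +
        wt (univ : Finset (F D)) := by
  obtain ⟨A0, a1, a2, a3⟩ := start_disc hB (fun h hh => (mem_filter.1 hh).2) h2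
  obtain ⟨A, ⟨b1, b2⟩, hm⟩ := Set.exists_max_image
    {A : Finset (F D) | Disc A ∧ Disjoint A (hvy μ univ)}
    (fun A => lam * ex A (hvy μ univ) + wt A) (Set.toFinite _) ⟨A0, a1, a2⟩
  have sB : hvy μ univ ⊆ Aᶜ := fun x hx => mem_compl.2 fun k => disjoint_left.1 b2 k hx
  refine ⟨Aᶜ, b1.compl, sB, fun s S w P hS B' hc => ?_, ?_⟩
  · have k1 := hm B'ᶜ ⟨hc.disc.compl, disjoint_left.2 fun x k hx => absurd
      (hc.old x (mem_sdiff.2 ⟨sB hx, mem_compl.1 k⟩)) (not_lt.2 (hS.trans (mem_filter.1 hx).2))⟩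
    have k2 := Nat.mul_le_mul_left lam (ex_sd A B'ᶜ (hvy μ univ))
    have k3 := wt_sd A B'ᶜ
    have k4 := hc.gain
    have e1 : B' \ Aᶜ = A \ B'ᶜ := by ext; simp [and_comm]
    have e2 : Aᶜ \ B' = B'ᶜ \ A := by ext; simp [and_comm]
    rw [e1, e2, add_mul] at k4
    rw [mul_add] at k2
    omega
  · have k1 := hm A0 ⟨a1, a2⟩
    have k2 := Nat.mul_le_mul_left lam a3
    have k3 : wt A ≤ wt (univ : Finset (F D)) := wt_mono (subset_univ _)
    rw [compl_compl]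
    rw [mul_add] at k2 ⊢
    omega

lemma stuck {S lam : ℕ} {B P : Finset (F D)} (hP : P ⊆ B)
    (h : ∀ w, Tight 0 S w lam B P ∅) : Stuck S B P := fun x h1 h2 h3 => by
  by_contra k
  have e1 : B.erase x \ B = ∅ := sdiff_eq_empty_iff_subset.2 (erase_subset _ _)
  have e2 : B \ B.erase x = {x} := sdiff_erase_self h1
  refine h _ (B.erase x) ⟨h3, fun y hy => mem_erase.2 ⟨fun m => h2 (m ▸ hy), hP hy⟩,
    disjoint_empty_right _, by simp [e1], fun y hy => ?_, le_rfl, ?_⟩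
  · rw [e2, mem_singleton] at hy
    rw [hy]
    omega
  · have := three_le_sz x
    rw [e1, e2, wt_single, wt]
    simp only [notMem_empty, filter_false, card_empty]
    omega

/-- Darts with prescribed faces on both sides. -/
lemma darts_le (W : Finset (F D)) (Z : F D → Finset (F D)) :
    #{d : D | f (α d) ∈ W ∧ f d ∈ Z (f (α d))} ≤ ∑ h ∈ W, #(Z h) := by
  rw [← card_sigma]
  refine card_le_card_of_injOn (fun d => ⟨f (α d), f d⟩) (fun d hd => ?_) fun d _ e _ k => ?_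
  · exact mem_coe.2 (mem_sigma.2 (mem_filter.1 (mem_coe.1 hd)).2)
  · exact s1 (congrArg (fun p : (_ : F D) × F D => p.2) k)
      (congrArg (fun p : (_ : F D) × F D => p.1) k)

lemma wt_tri {Z : Finset (F D)} (h : ∀ t ∈ Z, sz t = 3) : wt Z = 3 * #Z := by
  rw [wt_sum, sum_congr rfl h, sum_const, smul_eq_mul, mul_comm]

end CsA

end PM

open PM PM.CsA

theorem cs (hC : CntStmt) (hH : ChStmt) (hG : GoodStmt) (hS : SlStmt) (hT : TogStmt)
    (hE : EarStmt) (hD : DenseStmt) : CsStmt := by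
  intro H q a T b
  obtain ⟨z, hz⟩ : ∃ z, z = a + T := ⟨_, rfl⟩
  obtain ⟨a1', hD⟩ := hD H q (6 * z)
  obtain ⟨a3, ha3⟩ : ∃ a3, a3 = 2 * H * (8 * z + a1') := ⟨_, rfl⟩
  obtain ⟨dep, a1, hS⟩ := hS a3 (H + 4 + 4 * 2 ^ H)
  obtain ⟨K, k0, b', hG⟩ := hG H (2 ^ H) dep (64 * z + 1) (a1 + a3)
  obtain ⟨a2, K1, c1, hS⟩ := hS K
  obtain ⟨c2, hD⟩ := hD b k0
  obtain ⟨G, hG'⟩ : ∃ G, G = a * (4 * K1) + c1 + 1 := ⟨_, rfl⟩
  obtain ⟨c0, hE⟩ := hE (2 * G) b
  refine ⟨b' + c0 + c2 + G + z * (128 * T + 1) + a2 * k0, k0 + c2 + 3, ?_⟩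
  intro D _ _ s S w e r E μ n1 n2 n3 n4 n5 n6 n7 n8 n9 n10 n11 ⟨b0, hb0⟩ n12
  obtain ⟨-, w4, -, -, cw, -, -, -, cm, -⟩ := hC D
  have n0 : 4 < nv D := five
  have nc := (Nat.le_mul_of_pos_right _ (by omega : 0 < s)).trans n2
  have le : ∀ {x y : ℕ}, x ≤ b' + c0 + c2 + G + z * (128 * T + 1) + a2 * k0 →
      (b' + c0 + c2 + G + z * (128 * T + 1) + a2 * k0) * y ≤ nv D → x * y ≤ nv D :=
    fun h k => (Nat.mul_le_mul_right _ h).trans k
  have pz : 0 < z := Nat.pos_of_ne_zero fun k => by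
    rw [show T = 0 by omega, zero_mul] at n10
    omega
  obtain ⟨m, m1, m2, m3⟩ : ∃ m, m ≤ E ∧ m ≤ μ ∧ nv D ≤ z * m := by
    rcases le_total E μ with k | k
    · exact ⟨E, le_rfl, k, n11.trans (Nat.mul_le_mul_right _ (by omega))⟩
    · exact ⟨μ, k, le_rfl, n10.trans (Nat.mul_le_mul_right _ (by omega))⟩
  have m4 : 128 * T + 1 ≤ m := Nat.le_of_mul_le_mul_left (le_trans (by omega) m3) pz
  have b0B : b0 ∈ hvy μ (univ : Finset (F D)) := mem_filter.2 ⟨mem_univ _, hb0⟩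
  have cB : #(hvy μ (univ : Finset (F D))) ≤ 4 * T := by
    have k1 := cw (hvy μ univ) μ fun x hx => (mem_filter.1 hx).2
    have k2 : wt (hvy μ (univ : Finset (F D))) ≤ wt (univ : Finset (F D)) :=
      wt_mono (subset_univ _)
    refine Nat.le_of_mul_le_mul_left (c := μ) ?_ (by omega)
    rw [show μ * (4 * T) = 4 * (T * μ) by ring]
    omega
  obtain ⟨B, d1, d2, d3, d4⟩ := best (64 * z) ⟨b0, b0B⟩ (by omega)
  have d5 : 8 * μ ≤ 8 * ex Bᶜ (hvy μ univ) + m := by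
    have : z * (64 * μ) ≤ z * (64 * (ex Bᶜ (hvy μ univ) + 2 * #(hvy μ (univ : Finset (F D)))) +
        4 * m) := by
      rw [mul_add, mul_left_comm z, mul_left_comm z, mul_left_comm z, ← mul_assoc, ← mul_assoc]
      omega
    have := Nat.le_of_mul_le_mul_left this pz
    omega
  have sP : {b0} ⊆ B := singleton_subset_iff.2 (d2 b0B)
  have cW : #(hvy S B) ≤ H := (card_le_card (filter_subset_filter _ (subset_univ _))).trans n9
  have sW : hvy μ univ ⊆ hvy S B := fun x hx =>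
    mem_filter.2 ⟨d2 hx, n8.trans (mem_filter.1 hx).2⟩
  have small : ∀ A' ⊆ Bᶜ, (∀ x ∈ A', sz x < μ) ∧ ex A' (hvy μ univ) ≤ ell A' := fun A' k =>
    ⟨fun x hx => not_le.1 fun k' => mem_compl.1 (k hx) (d2 (mem_filter.2 ⟨mem_univ _, k'⟩)), by
      rw [ell_eq]
      exact ex_mono Subset.rfl fun x hx => mem_compl.2 fun k' => mem_compl.1 (k k') (d2 hx)⟩
  have ex1 : ∀ h : F D, ∃ Om Wl : Finset (F D), h ∈ hvy S B → Good B ∅ h K dep Om Wl ∧
      (a1 + a3) * #Om ≤ nv D ∧ Wl ⊆ big s B ∧ hvy S B ⊆ Wl ∧ #Wl ≤ H + 4 + 4 * 2 ^ H ∧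
      ∀ g ∈ Wl, jn B g ≤ k0 := fun h => by
    by_cases hh : h ∈ hvy S B
    · obtain ⟨k1, k2⟩ := mem_filter.1 hh
      obtain ⟨Br, U, T', L, ch, o, hc⟩ := hH D S H B {b0} h d1 (conn_single _)
        (singleton_nonempty _) sP (stuck sP fun w => d3 0 S w _ n8) cW k1 k2
      obtain ⟨Om, Wl, g1, g2, g3, g4, g5, g6, -⟩ := hG D s S (3 * s + k0) 0 B {b0} ∅ {b0} Br h U
        T' L ch o (by simp) (le (by omega) n2) (by omega) le_rfl n7 d1 sP (disjoint_empty_right _)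
        (by simp) Subset.rfl (by simp) (fun x hx => by rw [mem_singleton.1 hx]; omega)
        (by simp [wt]) cW k1 k2 (d3 _ _ _ _ n8) hc
      exact ⟨Om, Wl, fun _ => ⟨g1, g2, g3, g4, g5, fun g hg => by simpa [wt] using g6 g hg⟩⟩
    · exact ⟨∅, ∅, fun k => absurd k hh⟩
  choose Om Wl hg using ex1
  obtain ⟨J, hJ⟩ : ∃ J : F D → Finset (F D), ∀ h y, y ∈ J h ↔ y ∈ suns h ∧ y ∉ B ∧ y ∉ Om h ∧
      ∀ g ∈ Wl h, g ≠ h → ¬(sz y = 3 ∧ Meet {y} {g}) :=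
    ⟨fun h => univ.filter fun y => y ∈ suns h ∧ y ∉ B ∧ y ∉ Om h ∧
      ∀ g ∈ Wl h, g ≠ h → ¬(sz y = 3 ∧ Meet {y} {g}), fun h y => by
        rw [mem_filter, and_iff_right (mem_univ _)]⟩
  by_cases hc : ∃ h ∈ hvy S B, nv D ≤ a3 * #(J h)
  · obtain ⟨h, hh, hc⟩ := hc
    obtain ⟨g1, g2, g3, g4, g5, g6⟩ := hg h hh
    have sJ : J h ⊆ suns h := fun y hy => ((hJ h y).1 hy).1
    obtain ⟨I, p, p1, p2, p3⟩ := hS D B (Om h) (Wl h) (J h) h (by omega) d1 (g4 hh)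
      (g3.trans (filter_subset _ _)) g5
      (fun g k => ⟨by have := (mem_filter.1 (g3 k)).2; omega,
        (Nat.mul_le_mul_left _ (g6 g k)).trans (by omega)⟩)
      (fun x hx => ⟨(g1 x (ball_mono sJ _ hx)).1, (g1 x (ball_mono sJ _ hx)).2.2⟩)
      ((Nat.mul_le_mul_right _ (by omega)).trans g2) sJ
      (fun y hy => mem_sdiff.2 ⟨mem_compl.2 ((hJ h y).1 hy).2.1, ((hJ h y).1 hy).2.2.1⟩) hc
      fun y hy => ((hJ h y).1 hy).2.2.2
    have pG : 0 < G := by omega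
    have q1 : G * (nv D / G) ≤ nv D := Nat.mul_div_le _ _
    have q2 : nv D < G * (nv D / G + 1) := Nat.lt_mul_div_succ _ pG
    have q3 : 0 < nv D / G := Nat.div_pos (by omega) pG
    obtain ⟨I', i1, i2⟩ := exists_subset_card_eq (s := I) (n := nv D / G)
      (Nat.le_of_mul_le_mul_left (q1.trans (p3.trans (Nat.mul_le_mul_right _ (by omega)))) pG)
    obtain ⟨N, Er, t1, t2, -, t3, -, t4, t5, -⟩ := (hT D).1 B p K1 I' d1
      (mem_filter.1 (g3 p1)).1 ⟨fun Y k => p2.1 Y (i1 k), fun Y k Y' k' => p2.2 Y (i1 k) Y' (i1 k')⟩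
    obtain ⟨P, R, hs⟩ := hE D w r (B ∪ N)ᶜ Er (by omega) (le (by omega) n1) n6 t2.compl
      (fun t k => ear_compl (t5 t k).1) (by rw [t4, i2]; nlinarith)
    obtain ⟨u1, u2⟩ := small (B ∪ N)ᶜ (compl_subset_compl.2 subset_union_left)
    refine ⟨_, P, R, seed_mono hs, u1, ?_⟩
    have u3 := ex_sd Bᶜ (B ∪ N)ᶜ (hvy μ univ)
    have u4 : wt (Bᶜ \ (B ∪ N)ᶜ) ≤ wt N := wt_mono fun x hx => by
      simp only [mem_sdiff, mem_compl, mem_union, not_not] at hx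
      tauto
    have u5 : 4 * (K1 * #I') ≤ E := by
      refine Nat.le_of_mul_le_mul_left (c := a) (le_trans ?_ (q1.trans n11))
        (Nat.pos_of_ne_zero fun k => by rw [k, zero_mul] at n11; omega)
      rw [i2, ← mul_assoc, ← mul_assoc]
      exact Nat.mul_le_mul_right _ (by rw [mul_assoc]; omega)
    omega
  · push Not at hc
    obtain ⟨X, hX⟩ : ∃ X, X = ∑ h ∈ hvy S B, #(Om h ∪ J h) := ⟨_, rfl⟩
    have x1 : (8 * z + a1') * X ≤ nv D := by
      have k1 : a3 * X ≤ #(hvy S B) * (2 * nv D) := by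
        rw [hX, mul_sum]
        refine sum_le_card_nsmul _ _ _ fun h hh => ?_
        have k2 := Nat.mul_le_mul_left a3 (card_union_le (Om h) (J h))
        have k3 := (hg h hh).2.1
        have k4 := hc h hh
        rw [add_mul] at k3
        rw [mul_add] at k2
        omega
      have k2 := card_pos.2 ⟨_, sW b0B⟩
      refine Nat.le_of_mul_le_mul_left (c := 2 * H) ?_ (by omega)
      rw [← mul_assoc, ← ha3, show 2 * H * nv D = H * (2 * nv D) by ring]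
      exact k1.trans (Nat.mul_le_mul_right _ cW)
    have x2 : 8 * X ≤ m := by
      refine Nat.le_of_mul_le_mul_left (le_trans ?_ (x1.trans m3)) pz
      rw [← mul_assoc]
      exact Nat.mul_le_mul_right _ (by omega)
    have sun : ∀ d : D, f d ∈ suns (f (α d)) := fun d =>
      mem_filter.2 ⟨mem_univ _, d, mem_singleton_self _, mem_singleton_self _⟩
    have alt : ∀ d : D, f d ∉ B → f d ∉ Om (f (α d)) ∪ J (f (α d)) →
        ∃ g ∈ Wl (f (α d)), g ≠ f (α d) ∧ sz (f d) = 3 ∧ Meet {f d} {g} := fun d k1 k2 => by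
      by_contra k
      exact k2 (mem_union_right _ ((hJ _ _).2 ⟨sun d, k1, fun k3 => k2 (mem_union_left _ k3),
        fun g k3 k4 k5 => k ⟨g, k3, k4, k5⟩⟩))
    obtain ⟨PD, hPD⟩ : ∃ PD, PD = ex {t | Pure B (hvy S B) t} (hvy μ (univ : Finset (F D))) :=
      ⟨_, rfl⟩
    have y1 : ex Bᶜ (hvy μ univ) ≤ PD + X + 8 * T * med s S (univ : Finset (F D)) := by
      have k1 := darts_le (hvy μ (univ : Finset (F D))) fun h => (suns h).filter fun x =>
        Meet {x} (univ.filter fun x => s < sz x ∧ sz x < S)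
      have k2 := k1.trans (sum_le_card_nsmul _ _ (2 * med s S (univ : Finset (F D))) fun h hh =>
        cm h _ fun k => by
          have := (mem_filter.1 k).2.2
          have := (mem_filter.1 hh).2
          omega)
      have k3 := k2.trans (Nat.mul_le_mul_right _ cB)
      rw [show 4 * T * (2 * med s S (univ : Finset (F D))) =
        8 * T * med s S (univ : Finset (F D)) by ring] at k3
      have k4 := darts_le (hvy S B) fun h => Om h ∪ J h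
      rw [← hX] at k4
      refine le_trans ((card_le_card fun d hd => ?_).trans ((card_union_le _ _).trans
        (Nat.add_le_add_right (card_union_le _ _) _)))
        (Nat.add_le_add (Nat.add_le_add hPD.ge k4) k3)
      obtain ⟨e1, e2⟩ := (mem_filter.1 hd).2
      rw [mem_compl] at e1
      by_cases k : f d ∈ Om (f (α d)) ∪ J (f (α d))
      · exact mem_union_left _ (mem_union_right _ (mem_filter.2 ⟨mem_univ _, sW e2, k⟩))
      obtain ⟨g, g1, g2, g3, g4⟩ := alt d e1 k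
      obtain ⟨g5, g6⟩ := mem_filter.1 ((hg _ (sW e2)).2.2.1 g1)
      by_cases k' : S ≤ sz g
      · refine mem_union_left _ (mem_union_left _ (mem_filter.2 ⟨mem_univ _,
          mem_filter.2 ⟨mem_univ _, e1, g3, fun u u1 u2 => ?_, _, sW e2, g, mem_filter.2 ⟨g5, k'⟩,
          g2.symm, ⟨d, mem_singleton_self _, mem_singleton_self _⟩, g4⟩, e2⟩))
        exact (((hg _ (sW e2)).1 _ (ball_zero _ (mem_inter.2 ⟨sun d, mem_sdiff.2
          ⟨mem_compl.2 e1, fun m => k (mem_union_left _ m)⟩⟩))).2.2 u u1 u2).imp fun _ m => m.2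
      · obtain ⟨u, u1, u2⟩ := g4
        exact mem_union_right _ (mem_filter.2 ⟨mem_univ _, e2, mem_filter.2 ⟨sun d, u, u1,
          u2.mono (singleton_subset_iff.2 (mem_filter.2 ⟨mem_univ _, g6, not_le.1 k'⟩))⟩⟩)
    have y2 : PD ≤ 3 * #{t | Pure B (hvy S B) t} := by
      rw [hPD, ← wt_tri fun t k => (mem_filter.1 k).2.2.1]
      exact ex_le_wt
    obtain ⟨A', P, R, z1, z2, z3⟩ := hD D w e r B (hvy S B) (by omega) (le (by omega) n1)
      (by omega) n5 n6 d1 (filter_subset _ _) cW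
      (fun g k => (hg g k).2.2.2.2.2 g ((hg g k).2.2.2.1 k))
      (by
        refine le_trans (Nat.mul_le_mul (Nat.le_add_left _ _) ?_) x1
        rw [hX]
        refine (card_le_card fun d hd => ?_).trans (darts_le _ fun h => Om h ∪ J h)
        obtain ⟨e1, e2, e3, e4⟩ := (mem_filter.1 hd).2
        refine mem_filter.2 ⟨mem_univ _, e2, by_contra fun k => e3 ?_⟩
        obtain ⟨g, g1, g2, g3, u, u1, u2⟩ := alt d e1 k
        have g5 := (mem_filter.1 ((hg _ e2).2.2.1 g1)).1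
        obtain ⟨g', g6, g7⟩ := e4 u u1 (u2.mono (singleton_subset_iff.2 g5))
        exact ⟨e1, g3, fun u u1 u2 => (e4 u u1 u2).imp fun _ m => m.2, _, e2, g,
          g7.2.2 g g5 u2 ▸ g6, g2.symm, ⟨d, mem_singleton_self _, mem_singleton_self _⟩, u, u1, u2⟩)
      (by
        have k1 : 32 * T * med s S (univ : Finset (F D)) =
          4 * (8 * T * med s S (univ : Finset (F D))) := by ring
        refine n10.trans ?_
        rw [mul_comm 6 z, mul_assoc]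
        exact Nat.mul_le_mul (by omega) (by omega))
    obtain ⟨u1, u2⟩ := small A' z1
    refine ⟨A', P, R, z2, u1, ?_⟩
    have u3 := ex_sd {t | Pure B (hvy S B) t} A' (hvy μ univ)
    have u4 : wt ((univ.filter fun t => Pure B (hvy S B) t) \ A') =
        3 * #{t | Pure B (hvy S B) t ∧ t ∉ A'} := by
      rw [wt_tri fun t k => (mem_filter.1 (mem_sdiff.1 k).1).2.2.1]
      congr 2
      ext
      simp
    have u5 : 6 * #{t | Pure B (hvy S B) t ∧ t ∉ A'} ≤ m := by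
      refine Nat.le_of_mul_le_mul_left (le_trans ?_ (z3.trans m3)) pz
      rw [← mul_assoc, mul_comm z]
    omega

end Pool.Agent.MP_42ec7b_co

end MrgPart1

-- ======== part 2: formerly Pool.Agent.MP_42ec7b_co.A.RSl1
section MrgPart2

/-!
Many arms at a face whose neighbourhood sees no other face of the disc.
-/

set_option autoImplicit false

open Finset

namespace Pool.Agent.MP_42ec7b_co

open Classical PM

namespace Sl1

theorem greedy {X : Type} (T : Finset X) (R : X → X → Prop) (hR : ∀ x y, R x y → R y x) (m : ℕ)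
    (h : ∀ x ∈ T, #{y ∈ T | R x y} ≤ m) :
    ∃ I ⊆ T, (∀ x ∈ I, ∀ y ∈ I, x ≠ y → ¬R x y) ∧ #T ≤ #I * (m + 1) := by
  obtain ⟨I, ⟨h1, h2⟩, hm⟩ := Set.exists_max_image
    {I : Finset X | I ⊆ T ∧ ∀ x ∈ I, ∀ y ∈ I, x ≠ y → ¬R x y} card
    ((T.powerset.finite_toSet).subset fun I hI => by simpa using hI.1) ⟨∅, by simp⟩
  refine ⟨I, h1, h2, (card_le_card (t := I.biUnion fun x => insert x {y ∈ T | R x y})
    fun y hy => by_contra fun k => ?_).trans (card_biUnion_le_card_mul _ _ _ fun x hx =>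
      (card_insert_le _ _).trans (Nat.succ_le_succ (h x (h1 hx))))⟩
  simp only [mem_biUnion, mem_insert, mem_filter, not_exists, not_and, not_or] at k
  have := hm (insert y I) ⟨insert_subset hy h1, by
    simp only [mem_insert]
    rintro a (rfl | ha) b (rfl | hb) n r
    exacts [n rfl, (k b hb).2 hy (hR _ _ r), (k a ha).2 hy r, h2 a ha b hb n r]⟩
  rw [card_insert_of_notMem fun m => (k y m).1 rfl] at this
  omega

variable {D : Type} [PM D] {A G J O O' Om U U' Y Y' : Finset (F D)} {h x : F D} {c c' d : D}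
  {k k' : ℕ} {u : V D}

theorem ball_sub : ball U J k ⊆ U := by
  induction k with
  | zero => exact inter_subset_right
  | succ k ih => exact union_subset ih (filter_subset _ _)

theorem ball_mono (e : k ≤ k') : ball U J k ⊆ ball U J k' := by
  induction k', e using Nat.le_induction with
  | base => exact Subset.rfl
  | succ k' _ ih => exact ih.trans subset_union_left

theorem ball_step (h1 : f d ∈ U) (h2 : f (α d) ∈ ball U J k) : f d ∈ ball U J (k + 1) :=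
  mem_union_right _ (mem_filter.2 ⟨h1, d, mem_singleton_self _, h2⟩)

theorem ball_le (e : U ⊆ U') : ball U J k ⊆ ball U' J k := by
  induction k with
  | zero => exact inter_subset_inter Subset.rfl e
  | succ k ih =>
    exact union_subset_union ih fun x hx =>
      mem_filter.2 ⟨e (mem_filter.1 hx).1, (mem_filter.1 hx).2.mono Subset.rfl ih⟩

theorem ball_self (e : x ∈ U) : x ∈ ball U {x} k :=
  ball_mono (Nat.zero_le k) (mem_inter.2 ⟨mem_singleton_self _, e⟩)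

theorem layer {m : ℕ} (hm : 0 < m) :
    ∃ r < m, m * #(ball U J (r + 1) \ ball U J r) ≤ Fintype.card (F D) := by
  by_contra! k
  have : ∀ r ≤ m, r * (Fintype.card (F D) + 1) ≤ m * #(ball U J r) := fun r hr => by
    induction r with
    | zero => simp
    | succ r ih =>
      rw [← card_sdiff_add_card_eq_card (ball_mono r.le_succ)]
      nlinarith [k r hr, ih (by omega)]
  have := Nat.le_of_mul_le_mul_left (this m le_rfl) hm
  have := card_le_univ (ball U J m)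
  omega

theorem four (hρ : ∀ d : D, ρ (ρ (ρ (ρ d))) = d) (e : v c' = v c) :
    c' = c ∨ c' = ρ c ∨ c' = ρ (ρ c) ∨ c' = ρ (ρ (ρ c)) :=
  vert_ind (Q := fun e => e = c ∨ e = ρ c ∨ e = ρ (ρ c) ∨ e = ρ (ρ (ρ c))) (Or.inl rfl)
    (by rintro _ - (rfl | rfl | rfl | rfl) <;> simp [hρ]) e

theorem diag (c : D) : Diag (f c) (f (ρ (ρ c))) (v c) :=
  ⟨c, _, rfl, by simp, rfl, rfl, (ρρne c).symm, (ρne _).symm, ρρρne c⟩

/-- The faces diagonal to `h` after a neighbour in `Om`. -/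
noncomputable def Dg (h : F D) (Om : Finset (F D)) : Finset (F D) :=
  (univ.filter fun c => f c ∈ ({h} : Finset (F D)) ∧ f (α c) ∈ Om).image fun c => f (ρ (ρ c))

theorem card_Dg : #(Dg h Om) ≤ #Om := card_image_le.trans ex_le_card

/-- A short path of faces from `h` to `x`. -/
structure Arm (G : Finset (F D)) (h : F D) (k : ℕ) (x : F D) (Y : Finset (F D)) : Prop where
  mem : x ∈ Y
  sub : Y ⊆ G
  conn : Conn Y
  card : #Y ≤ k + 2
  near : ∀ y ∈ Y, x ∈ ball G {y} (k + 1)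
  base : ∃ d, f d ∈ Y ∧ f (α d) = h ∧ ∀ u, Tch Y u → Tch {h} u → u = v d ∨ u = v (α d)

theorem Arm.mono (a : Arm G h k x Y) (e : k ≤ k') : Arm G h k' x Y :=
  ⟨a.mem, a.sub, a.conn, a.card.trans (by omega),
    fun y hy => ball_mono (by omega) (a.near y hy), a.base⟩

theorem arm (hρ : ∀ d : D, ρ (ρ (ρ (ρ d))) = d) {dep : ℕ} (hh : h ∈ A) (hJ : J ⊆ suns h)
    (hG : ∀ x ∈ ball (Aᶜ \ Om) J dep, ∀ y ∈ A, Meet {x} {y} → y = h) (e : k < dep)
    (hx : x ∈ ball (Aᶜ \ (Om ∪ Dg h Om)) J k) : ∃ Y, Arm (ball (Aᶜ \ Om) J dep) h k x Y := by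
  have s : Aᶜ \ (Om ∪ Dg h Om) ⊆ Aᶜ \ Om := sdiff_subset_sdiff Subset.rfl subset_union_left
  have key : ∀ k < dep, ∀ x ∈ ball (Aᶜ \ (Om ∪ Dg h Om)) J k, Meet {x} {h} →
      ∃ Y, Arm (ball (Aᶜ \ Om) J dep) h k x Y := by
    rintro k e x hx ⟨u, h1, h2⟩
    have g := ball_mono e.le (ball_le s hx)
    by_cases m : ∃ d, f d = x ∧ f (α d) = h
    · obtain ⟨d, rfl, rfl⟩ := m
      exact ⟨{f d}, mem_singleton_self _, singleton_subset_iff.2 g, conn_single _, by simp,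
        fun y hy => by rw [mem_singleton.1 hy]; exact ball_self g, d, mem_singleton_self _, rfl,
        fun u => sun_ends⟩
    obtain ⟨c, rfl, rfl⟩ := tch_one.1 h2
    obtain ⟨c', k1, rfl⟩ := tch_one.1 h1
    obtain ⟨n1, n2⟩ := mem_sdiff.1 (ball_sub hx)
    obtain rfl | rfl | rfl | rfl := four hρ k1
    · exact (mem_compl.1 n1 hh).elim
    · exact (m ⟨α c, by simp, by simp⟩).elim
    swap
    · exact (m ⟨_, rfl, by rw [← fρ, hρ]⟩).elim
    have a1 : f (ρ c) ∈ Aᶜ \ Om := mem_sdiff.2 ⟨mem_compl.2 fun z => s0 c ((fρ c).symm.trans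
      (hG _ g _ z ⟨v c, h1, tch_one.2 ⟨_, vρ c, rfl⟩⟩)), fun z => n2 (mem_union_right _
        (mem_image.2 ⟨c, mem_filter.2 ⟨mem_univ _, mem_singleton_self _, fρ c ▸ z⟩, rfl⟩))⟩
    have a2 : f (ρ c) ∈ ball (Aᶜ \ Om) J dep :=
      ball_mono e (ball_step a1 (fρ (ρ c) ▸ ball_le s hx))
    have a3 : f (α (α (ρ c))) = f (ρ c) := by rw [αα]
    rw [fρ (ρ c)] at g ⊢
    refine ⟨insert (f (α (ρ c))) {f (ρ c)}, mem_insert_self _ _,
      insert_subset g (singleton_subset_iff.2 a2),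
      conn_insert (conn_single _) (a3 ▸ mem_singleton_self _), card_le_two.trans (by omega),
      fun y hy => ?_, α c, by simp, by simp, fun u ⟨b, b1, b2⟩ t => ?_⟩
    · rcases mem_insert.1 hy with rfl | hy
      · exact ball_self g
      · exact ball_step g (mem_singleton.1 hy ▸ a3 ▸ ball_self (a3 ▸ a2))
    · rcases mem_insert.1 b2 with b2 | b2
      · exact Or.inr (by rw [αα]; exact (diag c).only t (tch_one.2 ⟨b, b1, by simpa using b2⟩))
      · exact sun_ends ⟨b, b1, by simpa using b2⟩ (by rwa [αα])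
  induction k generalizing x with
  | zero =>
    obtain ⟨d, k1, k2⟩ := (mem_filter.1 (hJ (mem_inter.1 hx).1)).2
    exact key 0 e x hx ⟨v d, tch_v k1, tch_v' k2⟩
  | succ k ih =>
    by_cases m : Meet {x} {h}
    · exact key _ e x hx m
    rcases mem_union.1 hx with k1 | k1
    · exact (ih (by omega) k1).imp fun Y a => a.mono k.le_succ
    obtain ⟨d, k2, k3⟩ := (mem_filter.1 k1).2
    obtain rfl := mem_singleton.1 k2
    obtain ⟨Y, a⟩ := ih (by omega) k3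
    obtain ⟨b, b1, b2, b3⟩ := a.base
    have g := ball_mono e.le (ball_le s hx)
    refine ⟨insert (f d) Y, mem_insert_self _ _, insert_subset g a.sub, conn_insert a.conn a.mem,
      (card_insert_le _ _).trans (Nat.succ_le_succ a.card), fun y hy => ?_, b,
      mem_insert_of_mem b1, b2, fun u ⟨c, c1, c2⟩ t => ?_⟩
    · exact (mem_insert.1 hy).elim (fun z => by rw [z]; exact ball_self g)
        fun z => ball_step g (a.near y z)
    · exact (mem_insert.1 c2).elim (fun z => (m ⟨u, tch_one.2 ⟨c, c1, z⟩, t⟩).elim)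
        fun z => b3 u ⟨c, c1, z⟩ t

theorem tch_of (o : Cmp Yᶜ O) (h1 : Tch O u) (h2 : Tch Oᶜ u) : Tch Y u := by
  obtain ⟨d, rfl, k1, k2⟩ := BV.out ⟨h1, h2⟩
  exact tch_v' (o.out k1 k2)

theorem sub_fill (o : Cmp Yᶜ O) : Y ⊆ Oᶜ := fun _ hy => mem_compl.2 fun m => o.nK m hy

theorem conn_fill (o : Cmp Yᶜ O) (hY : Conn Y) : Conn Oᶜ :=
  conn_of_core hY (sub_fill o) fun Z hZ hne hc => by
    obtain ⟨y, hy⟩ := o.2.1
    obtain ⟨d, k1, k2⟩ := exists_bd hne ⟨y, mem_compl.2 fun m => mem_compl.1 (hZ m) hy⟩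
    have : f (α d) ∈ O := by_contra fun m => k2 (hc d k1 (mem_compl.2 m))
    have := o.out this (by rw [αα]; exact mem_compl.1 (hZ k1))
    rw [αα] at this
    exact ⟨_, this, k1⟩

theorem apart {x' : F D} (a : Arm G h k x Y) (a' : Arm G h k x' Y') (o : Cmp Yᶜ O)
    (o' : Cmp Y'ᶜ O') (m : h ∈ O) (m' : h ∈ O') (n : ¬Meet Y Y') : Oᶜ ⊆ O' := by
  have key : ∀ {x x' : F D} {Y Y' O' : Finset (F D)}, Arm G h k x Y → Cmp Y'ᶜ O' → h ∈ O' →
      ¬Meet Y Y' → Y ⊆ O' := fun {_ _ Y Y' _} a o' m' n => by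
    have s : Y ⊆ Y'ᶜ := fun y hy => mem_compl.2 fun z => by
      obtain ⟨c, rfl⟩ := f_surj y
      exact n ⟨v c, tch_v hy, tch_v z⟩
    obtain ⟨d, k1, k2, -⟩ := a.base
    exact a.conn.sub s o'.2.2.2 k1 (o'.2.2.2.symm d (k2 ▸ m') (s k1))
  exact (conn_fill o a.conn).sub (compl_subset_compl.2 (key (x' := x) a' o m
    fun ⟨u, b1, b2⟩ => n ⟨u, b2, b1⟩)) o'.2.2.2 (sub_fill o a.mem) (key (x' := x) a o' m' n a.mem)

end Sl1

open Sl1 in
theorem sl1 (hC : CntStmt) (hE : EulStmt) (hA : AddStmt) : Sl1Stmt := by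
  intro a
  refine ⟨16 * a + 2, 32 * a, fun K => ?_⟩
  obtain ⟨m, hm⟩ : ∃ m, m = 4 * ((16 * a + 3) * K) * (K + 1) ^ (16 * a + 2) := ⟨_, rfl⟩
  refine ⟨8 * (4 * a * (m + 1)), 2 * (4 * a * (m + 1)) + 16 * a + 2,
    fun D _ _ A Om J h hc hD hh hO hJ hJ' hn hG => ?_⟩
  obtain ⟨hρ, c1, c2, -, -, c3, c4, -, -, -, c5, -⟩ := hC D
  obtain ⟨r, hr, hl⟩ := layer (U := Aᶜ \ (Om ∪ Dg h Om)) (J := J) (16 * a).succ_pos
  set U := Aᶜ \ (Om ∪ Dg h Om) with hU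
  set G := ball (Aᶜ \ Om) J (16 * a + 2) with hG'
  have s : ball U J r ⊆ G :=
    (ball_le (sdiff_subset_sdiff Subset.rfl subset_union_left)).trans (ball_mono (by omega))
  have gA : ∀ x ∈ G, x ∉ A := fun x hx => mem_compl.1 (mem_sdiff.1 (ball_sub hx)).1
  have hT : nv D ≤ 4 * a * #(tri (ball U J r)) := by
    have e1 := (hE D).1 (ball U J r) (insert h (Om ∪ Dg h Om ∪ ball U J (r + 1) \ ball U J r))
      (disjoint_left.2 fun x hx z => by
        rcases mem_insert.1 z with rfl | z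
        · exact gA _ (s hx) hh
        · exact (mem_union.1 z).elim (mem_sdiff.1 (ball_sub hx)).2 fun z => (mem_sdiff.1 z).2 hx)
      fun d hd => or_iff_not_imp_left.2 fun z => mem_insert.2 (or_iff_not_imp_left.2 fun z1 =>
        mem_union.2 (or_iff_not_imp_left.2 fun z2 => mem_sdiff.2 ⟨ball_step (mem_sdiff.2
          ⟨mem_compl.2 fun z3 => z1 ((hG _ (s hd)).2 _ z3 ⟨v d, tch_v (mem_singleton_self _),
            tch_v' (mem_singleton_self _)⟩), z2⟩) (by rwa [αα]), z⟩))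
    have e2 : #J ≤ ex {h} (ball U J r) := by
      rw [ex_single]
      refine card_le_card fun x hx => mem_filter.2 ⟨ball_mono r.zero_le (mem_inter.2
        ⟨hx, mem_sdiff.2 ⟨(mem_sdiff.1 (hJ' hx)).1, fun z => ?_⟩⟩), (mem_filter.1 (hJ hx)).2.symm⟩
      refine (mem_union.1 z).elim (mem_sdiff.1 (hJ' hx)).2 fun z => ?_
      obtain ⟨c, k1, rfl⟩ := mem_image.1 z
      obtain ⟨d, k2, k3⟩ := (mem_filter.1 (hJ hx)).2.symm
      exact (diag c).not_adj ((mem_singleton.1 k2).trans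
        (mem_singleton.1 (mem_filter.1 k1).2.1).symm) (mem_singleton.1 k3)
    have e3 := (e2.trans (ex_comm.trans_le
      (ex_mono Subset.rfl (singleton_subset_iff.2 (mem_insert_self _ _))))).trans e1
    have e4 := (card_insert_le h _).trans (Nat.succ_le_succ ((card_union_le _
      (ball U J (r + 1) \ ball U J r)).trans (Nat.add_le_add_right
        ((card_union_le Om (Dg h Om)).trans (Nat.add_le_add_left card_Dg _)) _)))
    have e5 := Nat.mul_le_mul_left a (e3.trans (Nat.add_le_add_left (Nat.mul_le_mul_left 4 e4) _))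
    rw [c2] at hl
    generalize #(ball U J (r + 1) \ ball U J r) = l at e5 hl
    generalize 2 * (4 * a * (m + 1)) = z at hc
    simp only [Nat.succ_eq_add_one, mul_add, add_mul, mul_assoc, mul_left_comm a] at e5 hl hO ⊢
    omega
  have ex1 : ∀ t : F D, ∃ Y O, t ∈ ball U J r → Arm G h (16 * a + 1) t Y ∧ Cmp Yᶜ O ∧ h ∈ O :=
    fun t => by
      by_cases ht : t ∈ ball U J r
      · obtain ⟨Y, b⟩ := arm hρ hh hJ (fun x hx => (hG x hx).2) (by omega) ht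
        obtain ⟨O, o⟩ := exists_cmp (mem_compl.2 fun z => gA h (b.sub z) hh)
        exact ⟨Y, O, fun _ => ⟨b.mono (by omega), o⟩⟩
      · exact ⟨∅, ∅, fun z => (ht z).elim⟩
  choose Y O hY using ex1
  have hY' := fun t (ht : t ∈ tri (ball U J r)) => hY t (mem_filter.1 ht).1
  obtain ⟨I, i1, i2, i3⟩ := greedy (tri (ball U J r)) (fun t t' => Meet (Y t) (Y t'))
    (fun _ _ ⟨u, b1, b2⟩ => ⟨u, b2, b1⟩) m fun t ht => by
      obtain ⟨W, w1, w2⟩ : ∃ W : Finset (F D), #W ≤ 4 * wt (Y t) ∧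
          ∀ y u, Tch (Y t) u → Tch {y} u → y ∈ W :=
        ⟨_, (c4 _).trans (Nat.mul_le_mul_left 4 (c3 _)), fun y u k1 k2 => by
          simp only [mem_filter, mem_univ, true_and]
          exact ⟨u, k1, k2⟩⟩
      refine (card_le_card (t := W.biUnion fun y => ball G {y} (16 * a + 2)) fun t' ht' => ?_).trans
        ((card_biUnion_le_card_mul _ _ ((K + 1) ^ (16 * a + 2)) fun y _ => (c5 G {y} K _
          fun x hx => (hG x (ball_sub hx)).1).trans_eq (mul_one _)).trans ?_)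
      · obtain ⟨k1, u, k2, k3⟩ := mem_filter.1 ht'
        obtain ⟨y, k4, k5⟩ := tch_iff.1 k3
        exact mem_biUnion.2 ⟨y, w2 y u k2 k5, (hY' t' k1).1.near y k4⟩
      · rw [hm]
        refine Nat.mul_le_mul_right _ (w1.trans (Nat.mul_le_mul_left 4 ?_))
        rw [wt_sum]
        exact (sum_le_card_nsmul _ _ K fun x hx => (hG x ((hY' t ht).1.sub hx)).1).trans
          (Nat.mul_le_mul_right K (hY' t ht).1.card)
  have ap : ∀ t ∈ I, ∀ t' ∈ I, t ≠ t' → (O t)ᶜ ⊆ O t' := fun t ht t' ht' n =>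
    apart (hY' t (i1 ht)).1 (hY' t' (i1 ht')).1 (hY' t (i1 ht)).2.1 (hY' t' (i1 ht')).2.1
      (hY' t (i1 ht)).2.2 (hY' t' (i1 ht')).2.2 (i2 t ht t' ht' n)
  have me : ∀ t ∈ I, t ∈ (O t)ᶜ := fun t ht => sub_fill (hY' t (i1 ht)).2.1 (hY' t (i1 ht)).1.mem
  refine ⟨(I.filter fun t => wt (O t)ᶜ ≤ 8 * (4 * a * (m + 1))).image fun t => (O t)ᶜ,
    ⟨fun Z hZ => ?_, fun Z hZ Z' hZ' n ⟨u, b1, b2⟩ => ?_⟩, ?_⟩
  · obtain ⟨t, ht, rfl⟩ := mem_image.1 hZ
    obtain ⟨ht, hw⟩ := mem_filter.1 ht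
    obtain ⟨b, o, z⟩ := hY' t (i1 ht)
    have sA : A ⊆ O t := hD.2.2.1.sub (fun x hx => mem_compl.2 fun y => gA x (b.sub y) hx)
      o.2.2.2 hh z
    obtain ⟨d, d1, d2, d3⟩ := b.base
    refine ⟨compl_subset_compl.2 sA, conn_fill o b.conn, (hA D).2.1 A _ d hD (conn_fill o b.conn)
      (by rw [compl_compl]; exact o.2.2.1) (disjoint_compl_right.mono_left sA) (sub_fill o d1)
      (d2 ▸ hh) fun u u1 u2 => ?_, hw, ⟨t, me t ht, (mem_filter.1 (i1 ht)).2⟩,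
      ⟨d, sub_fill o d1, mem_singleton.2 d2⟩, fun x hx ⟨e, e1, e2⟩ => ?_⟩
    · have := tch_of o (u2.mono sA) u1
      obtain ⟨y, y1, y2⟩ := tch_iff.1 this
      obtain ⟨x, x1, x2⟩ := tch_iff.1 u2
      exact d3 u this ((hG y (b.sub y1)).2 x x1 ⟨u, y2, x2⟩ ▸ x2)
    · have := o.out (d := α e) (sA (mem_singleton.1 e2 ▸ hx)) (by rw [αα]; exact mem_compl.1 e1)
      rw [αα] at this
      exact (hG _ (b.sub this)).2 x hx ⟨v e, tch_v (mem_singleton_self _), tch_v' e2⟩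
  · obtain ⟨t, ht, rfl⟩ := mem_image.1 hZ
    obtain ⟨t', ht', rfl⟩ := mem_image.1 hZ'
    have ht := (mem_filter.1 ht).1
    have ht' := (mem_filter.1 ht').1
    have n' : t ≠ t' := fun e => n (by rw [e])
    exact i2 t ht t' ht' n' ⟨u, tch_of (hY' t (i1 ht)).2.1 (b2.mono (ap t' ht' t ht n'.symm)) b1,
      tch_of (hY' t' (i1 ht')).2.1 (b1.mono (ap t ht t' ht' n')) b2⟩
  rw [card_image_of_injOn fun t ht t' ht' e => by_contra fun n => mem_compl.1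
    ((show (O t)ᶜ = (O t')ᶜ from e).le (me t (mem_filter.1 ht).1))
    (ap t (mem_filter.1 ht).1 t' (mem_filter.1 ht').1 n (me t (mem_filter.1 ht).1))]
  have w1 : ∑ t ∈ I, wt (O t)ᶜ ≤ 4 * nv D := by
    rw [← c1]
    unfold wt
    rw [← card_biUnion]
    · exact card_le_card fun d _ => by simp
    exact fun t ht t' ht' n => disjoint_left.2 fun d k1 k2 =>
      mem_compl.1 (mem_filter.1 k2).2 (ap t ht t' ht' n (mem_filter.1 k1).2)
  have w2 := (card_nsmul_le_sum _ _ _ fun t (ht : t ∈ I.filter fun t =>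
    ¬wt (O t)ᶜ ≤ 8 * (4 * a * (m + 1))) => (not_le.1 (mem_filter.1 ht).2).le).trans
      ((sum_le_sum_of_subset (filter_subset _ _)).trans w1)
  have w3 := hT.trans (Nat.mul_le_mul_left _ i3)
  rw [← card_filter_add_card_filter_not fun t => wt (O t)ᶜ ≤ 8 * (4 * a * (m + 1))] at w3
  rw [smul_eq_mul] at w2
  rw [mul_comm _ (m + 1), ← mul_assoc] at w3
  generalize 4 * a * (m + 1) = z at w2 w3 ⊢
  generalize #(I.filter fun t => wt (O t)ᶜ ≤ 8 * z) = g at w3 ⊢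
  generalize #(I.filter fun t => ¬wt (O t)ᶜ ≤ 8 * z) = b at w2 w3
  nlinarith [Nat.zero_le (a * g), Nat.zero_le g]

end Pool.Agent.MP_42ec7b_co

end MrgPart2

-- ======== part 3: formerly Pool.Agent.MP_42ec7b_co.A.RSl21
section MrgPart3

/-! Arms in a corridor, first part: short rungs, positions in a corridor, windows. -/

set_option autoImplicit false

open Finset

namespace Pool.Agent.MP_42ec7b_co

open Classical PM

namespace Sl2

variable {D : Type} [PM D] {A U J S : Finset (F D)} {h g y : F D}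

theorem ball_sub : ∀ k, ball U J k ⊆ U
  | 0 => inter_subset_right
  | k + 1 => union_subset (ball_sub k) (filter_subset _ _)

theorem ball_le {k l : ℕ} (e : k ≤ l) : ball U J k ⊆ ball U J l := by
  induction e with
  | refl => exact Subset.refl _
  | step _ ih => exact ih.trans subset_union_left

theorem ball_mono (e : S ⊆ J) : ∀ k, ball U S k ⊆ ball U J k
  | 0 => inter_subset_inter_right e
  | k + 1 => union_subset_union (ball_mono e k) fun _ hx =>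
      mem_filter.2 ⟨(mem_filter.1 hx).1, (mem_filter.1 hx).2.mono (Subset.refl _) (ball_mono e k)⟩

theorem ad_one {x : F D} (e : Ad {x} S) : ∃ z ∈ S, Ad {x} {z} :=
  let ⟨d, h1, h2⟩ := e; ⟨_, h2, d, h1, mem_singleton_self _⟩

theorem path : ∀ (k : ℕ) (x : F D), x ∈ ball U {y} k → ∃ (m : ℕ) (p : ℕ → F D), m ≤ k ∧ p 0 = y ∧
    p m = x ∧ (∀ i ≤ m, p i ∈ ball U {y} k) ∧ ∀ i < m, Ad {p (i + 1)} {p i}
  | 0, x, hx => ⟨0, fun _ => x, le_rfl, mem_singleton.1 (mem_inter.1 hx).1, rfl, fun _ _ => hx,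
      fun _ hi => absurd hi (Nat.not_lt_zero _)⟩
  | k + 1, x, hx => by
    rcases mem_union.1 hx with e | e
    · obtain ⟨m, p, a1, a2, a3, a4, a5⟩ := path k x e
      exact ⟨m, p, by omega, a2, a3, fun i hi => ball_le (Nat.le_succ k) (a4 i hi), a5⟩
    · obtain ⟨z, z1, z2⟩ := ad_one (mem_filter.1 e).2
      obtain ⟨m, p, a1, a2, a3, a4, a5⟩ := path k z z1
      refine ⟨m + 1, fun i => if i ≤ m then p i else x, by omega, by simpa using a2, by simp,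
        fun i _ => ?_, fun i hi => ?_⟩
      · dsimp only
        split_ifs with c
        · exact ball_le (Nat.le_succ k) (a4 i c)
        · exact hx
      · rcases Nat.lt_succ_iff_lt_or_eq.1 hi with c | rfl
        · simpa only [if_pos c.le, if_pos (Nat.succ_le_of_lt c)] using a5 i c
        · simpa only [if_pos le_rfl, if_neg (Nat.not_succ_le_self i), a3] using z2

theorem seg {m : ℕ} {p : ℕ → F D} (hp : ∀ i < m, Ad {p (i + 1)} {p i}) (a : ℕ) :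
    ∀ b ≤ m + 1, Conn ((Ico a b).image p)
  | 0, _ => by
    rw [Ico_eq_empty_of_le (Nat.zero_le a), image_empty]
    exact fun _ _ _ _ => empty_subset _
  | b + 1, hb => by
    rcases lt_trichotomy a b with c | rfl | c
    · obtain ⟨b, rfl⟩ : ∃ b', b = b' + 1 := ⟨b - 1, by omega⟩
      obtain ⟨d, d1, d2⟩ := hp b (by omega)
      rw [show Ico a (b + 1 + 1) = insert (b + 1) (Ico a (b + 1)) by
        ext; simp only [mem_insert, mem_Ico]; omega, image_insert, ← mem_singleton.1 d1]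
      exact conn_insert (seg hp a (b + 1) (by omega))
        (mem_image.2 ⟨b, mem_Ico.2 (by omega), (mem_singleton.1 d2).symm⟩)
    · rw [Nat.Ico_succ_singleton, image_singleton]
      exact conn_single _
    · rw [Ico_eq_empty_of_le c, image_empty]
      exact fun _ _ _ _ => empty_subset _

theorem back {m : ℕ} {p : ℕ → F D} (hp : ∀ i < m, Ad {p (i + 1)} {p i}) (hU : ∀ i ≤ m, p i ∈ U)
    {a : ℕ} (ha : a ≤ m) (hS : p a ∈ S) : ∀ j ≤ a, p (a - j) ∈ ball U S j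
  | 0, _ => mem_inter.2 ⟨hS, hU a ha⟩
  | j + 1, hj => by
    have := hp (a - (j + 1)) (by omega)
    rw [show a - (j + 1) + 1 = a - j by omega] at this
    exact mem_union_right _ (mem_filter.2 ⟨hU _ (by omega),
      this.symm.mono (Subset.refl _) (singleton_subset_iff.2 (back hp hU ha hS j (by omega)))⟩)

/-- The part of `Y` that avoids `g` is connected and reaches `h`. -/
def Hf (h g : F D) (Y : Finset (F D)) : Prop :=
  Conn (Y.filter fun x => ¬Meet {x} {g}) ∧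
    ((∃ x ∈ Y, ¬Meet {x} {g}) → ∃ x ∈ Y, ¬Meet {x} {g} ∧ Meet {x} {h})

/-- A good rung. -/
def GR (A U : Finset (F D)) (h g : F D) (m : ℕ) (Y : Finset (F D)) : Prop :=
  Rung A h g Y ∧ Y ⊆ U ∧ #Y ≤ m ∧ Hf h g Y ∧ Hf g h Y

theorem plain {x : F D} {Y : Finset (F D)} (hh : h ∈ A) (hx : x ∈ Y) (e : Meet {x} {h})
    (k : ∀ u, Tch {x} u → Tch A u → ∃ q, Plain A q u) : ∃ u, Tch Y u ∧ Plain A h u := by
  obtain ⟨u, u1, u2⟩ := e
  obtain ⟨q, hq⟩ := k u u1 (u2.mono (singleton_subset_iff.2 hh))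
  exact ⟨u, u1.mono (singleton_subset_iff.2 hx), (hq.2.2 h hh u2).symm ▸ hq⟩

theorem rungs {B : Finset (F D)} {dep : ℕ} (hh : h ∈ A) (hg : g ∈ A) (hB : B ⊆ Aᶜ)
    (hP : ∀ x ∈ ball B J dep, ∀ u, Tch {x} u → Tch A u → ∃ q, Plain A q u) (hy : y ∈ J)
    (hs : y ∈ suns h) (hx : ∃ x ∈ ball B {y} dep, Meet {x} {g}) :
    ∃ Z Y, Rung A h g Z ∧ y ∈ Z ∧ Y ⊆ Z ∧ GR A (ball B J dep) h g (dep + 1) Y ∧
      ∀ S, (∃ x ∈ Z, x ∈ S) → y ∈ ball (ball B J dep) S dep := by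
  obtain ⟨x, x1, x2⟩ := hx
  obtain ⟨m0, p, a1, a2, a3, a4, a5⟩ := path dep x x1
  have ex : ∃ i, Meet {p i} {g} := ⟨m0, a3 ▸ x2⟩
  have m1 : Nat.find ex ≤ m0 := Nat.find_le (a3 ▸ x2)
  have m2 := Nat.find_spec ex
  have m3 : ∀ i < Nat.find ex, ¬Meet {p i} {g} := fun i hi => Nat.find_min ex hi
  generalize Nat.find ex = m at *
  have h0 : Meet {p 0} {h} := by
    obtain ⟨d, d1, d2⟩ := (mem_filter.1 hs).2
    exact a2 ▸ ⟨_, tch_v d1, tch_v' d2⟩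
  have l1 := Nat.findGreatest_le (P := fun i => Meet {p i} {h}) m
  have l2 := Nat.findGreatest_spec (P := fun i => Meet {p i} {h}) (Nat.zero_le m) h0
  have l3 : ∀ i, Nat.findGreatest (fun i => Meet {p i} {h}) m < i → i ≤ m → ¬Meet {p i} {h} :=
    fun i => Nat.findGreatest_is_greatest
  generalize Nat.findGreatest (fun i => Meet {p i} {h}) m = l at *
  have hU : ∀ i ≤ m0, p i ∈ ball B J dep := fun i hi =>
    ball_mono (singleton_subset_iff.2 hy) dep (a4 i hi)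
  have sub : ∀ a, (Ico a (m + 1)).image p ⊆ ball B J dep := fun a =>
    image_subset_iff.2 fun i hi => hU i (by have := mem_Ico.1 hi; omega)
  have mem : ∀ a b i, a ≤ i → i < b → p i ∈ (Ico a b).image p := fun a b i c1 c2 =>
    mem_image_of_mem p (mem_Ico.2 ⟨c1, c2⟩)
  have rg : ∀ a ≤ l, Rung A h g ((Ico a (m + 1)).image p) := fun a ha =>
    ⟨(sub a).trans ((ball_sub _).trans hB), seg a5 a _ (by omega),
      plain hh (mem _ _ l ha (by omega)) l2 (hP _ (hU l (by omega))),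
      plain hg (mem _ _ m (by omega) (by omega)) m2 (hP _ (hU m m1))⟩
  refine ⟨_, _, rg 0 (Nat.zero_le l), a2 ▸ mem _ _ 0 le_rfl (by omega),
    image_subset_image (Ico_subset_Ico_left (Nat.zero_le l)),
    ⟨rg l le_rfl, sub l, card_image_le.trans (by rw [Nat.card_Ico]; omega), ⟨?_, ?_⟩, ?_, ?_⟩, ?_⟩
  · have : ((Ico l (m + 1)).image p).filter (fun x => ¬Meet {x} {g}) = (Ico l m).image p := by
      ext z
      simp only [mem_filter, mem_image, mem_Ico]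
      constructor
      · rintro ⟨⟨i, c, rfl⟩, c'⟩
        exact ⟨i, ⟨c.1, lt_of_le_of_ne (by omega) fun e => c' (e ▸ m2)⟩, rfl⟩
      · rintro ⟨i, c, rfl⟩
        exact ⟨⟨i, ⟨c.1, by omega⟩, rfl⟩, m3 i c.2⟩
    rw [this]
    exact seg a5 _ _ (by omega)
  · rintro ⟨z, z1, z2⟩
    obtain ⟨i, c, rfl⟩ := mem_image.1 z1
    have c := mem_Ico.1 c
    have : i ≠ m := fun e => z2 (e ▸ m2)
    exact ⟨p l, mem _ _ l le_rfl (by omega), m3 l (by omega), l2⟩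
  · have : ((Ico l (m + 1)).image p).filter (fun x => ¬Meet {x} {h}) =
        (Ico (l + 1) (m + 1)).image p := by
      ext z
      simp only [mem_filter, mem_image, mem_Ico]
      constructor
      · rintro ⟨⟨i, c, rfl⟩, c'⟩
        exact ⟨i, ⟨lt_of_le_of_ne c.1 fun e => c' (e ▸ l2), c.2⟩, rfl⟩
      · rintro ⟨i, c, rfl⟩
        exact ⟨⟨i, ⟨by omega, c.2⟩, rfl⟩, l3 i c.1 (by omega)⟩
    rw [this]
    exact seg a5 _ _ (by omega)
  · rintro ⟨z, z1, z2⟩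
    obtain ⟨i, c, rfl⟩ := mem_image.1 z1
    have c := mem_Ico.1 c
    have : i ≠ l := fun e => z2 (e ▸ l2)
    exact ⟨p m, mem _ _ m l1 (by omega), l3 m (by omega) le_rfl, m2⟩
  · rintro S ⟨z, z1, z2⟩
    obtain ⟨i, c, rfl⟩ := mem_image.1 z1
    have c := mem_Ico.1 c
    have := back a5 hU (by omega : i ≤ m0) z2 i le_rfl
    rw [Nat.sub_self, a2] at this
    exact ball_le (by omega) this

/-- A largest family of pairwise disjoint sets with a property meets every such set. -/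
theorem family (P : Finset (F D) → Prop) (hP : ∀ Y, P Y → Y.Nonempty) :
    ∃ I : Finset (Finset (F D)), (∀ Y ∈ I, P Y) ∧ (∀ Y ∈ I, ∀ Y' ∈ I, Y ≠ Y' → Disjoint Y Y') ∧
      ∀ Y, P Y → ∃ Y' ∈ I, ∃ x ∈ Y, x ∈ Y' := by
  obtain ⟨I, ⟨h1, h2⟩, hm⟩ := Set.exists_max_image {I : Finset (Finset (F D)) | (∀ Y ∈ I, P Y) ∧
    ∀ Y ∈ I, ∀ Y' ∈ I, Y ≠ Y' → Disjoint Y Y'} card (Set.toFinite _) ⟨∅, by simp⟩
  refine ⟨I, h1, h2, fun Y hY => by_contra fun k => ?_⟩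
  have d : ∀ Y' ∈ I, Disjoint Y Y' := fun Y' c => disjoint_left.2 fun x c1 c2 => k ⟨Y', c, x, c1, c2⟩
  have n : Y ∉ I := fun c => let ⟨x, hx⟩ := hP Y hY; k ⟨Y, c, x, hx, hx⟩
  have := hm (insert Y I) ⟨forall_mem_insert _ _ _ |>.2 ⟨hY, h1⟩, by
    simp only [forall_mem_insert]
    exact ⟨⟨fun c => absurd rfl c, fun Y' c _ => d Y' c⟩,
      fun Y' c => ⟨fun _ => (d Y' c).symm, h2 Y' c⟩⟩⟩
  rw [card_insert_of_notMem n] at this
  omega

section corridor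

variable {M i j : ℕ} {Y Lf Rt : ℕ → Finset (F D)} {Bad Z : Finset ℕ} {x x' : F D}
  (c : Cor A h g M Y Lf Rt Bad)
include c

theorem swap : Cor A g h M Y Lf Rt Bad :=
  ⟨fun i hi => let ⟨a, b, d, e⟩ := c.rung i hi; ⟨a, b, e, d⟩, c.cL, c.cR, c.dis, c.nest,
    fun i hi Z ⟨a, b, d, e⟩ => c.thru i hi Z ⟨a, b, e, d⟩,
    fun i j a b d u e k => (c.clean i j a b d u e k).symm,
    fun i j a b d q e => c.band i j a b d q e.symm⟩

theorem rt_anti (h1 : i ≤ j) (h2 : j < M) (hx : x ∈ Rt j) : x ∈ Rt i := by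
  rcases h1.eq_or_lt with rfl | h1
  · exact hx
  · exact by_contra fun k => disjoint_left.1 (c.dis j h2) (c.nest i j h1 h2
      (mem_sdiff.2 ⟨(mem_sdiff.1 ((c.cR j h2).1 hx)).1, k⟩)) hx

theorem y_rt (h1 : i < j) (h2 : j < M) (hx : x ∈ Y j) : x ∈ Rt i :=
  by_contra fun k => (mem_sdiff.1 ((c.cL j h2).1 (c.nest i j h1 h2
    (mem_sdiff.2 ⟨(c.rung j h2).1 hx, k⟩)))).2 hx

theorem y_lf (h1 : i < j) (h2 : j < M) (hx : x ∈ Y i) : x ∈ Lf j :=
  c.nest i j h1 h2 (mem_sdiff.2 ⟨(c.rung i (h1.trans h2)).1 hx,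
    fun k => (mem_sdiff.1 ((c.cR i (h1.trans h2)).1 k)).2 hx⟩)

theorem lf_rt (h1 : i ≤ j) (h2 : j < M) (hx : x ∈ Lf i) : x ∉ Rt j := fun k =>
  disjoint_left.1 (c.dis i (h1.trans_lt h2)) hx (rt_anti c h1 h2 k)

theorem step {d : D} (h2 : i < M) (hx : f d ∈ Lf i) (k : f (α d) ∉ A) : f (α d) ∉ Rt i := fun e =>
  lf_rt c le_rfl h2 ((c.cL i h2).2.2.2 d hx
    (mem_sdiff.2 ⟨mem_compl.2 k, (mem_sdiff.1 ((c.cR i h2).1 e)).2⟩)) e

theorem not_meet (hA : Disc A) (h4 : ∀ d : D, ρ (ρ (ρ (ρ d))) = d) (h1 : i < j) (h2 : j < M) :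
    ¬Meet (Lf i) (Rt j) := by
  rintro ⟨u, ⟨d, rfl, d1⟩, e, e0, e1⟩
  have hi := h1.trans h2
  have oL : ∀ {k z}, k < M → z ∈ Lf k → z ∉ A := fun hk hz =>
    mem_compl.1 (mem_sdiff.1 ((c.cL _ hk).1 hz)).1
  have oR : ∀ {z}, z ∈ Rt j → z ∉ A := fun hz => mem_compl.1 (mem_sdiff.1 ((c.cR j h2).1 hz)).1
  have one : ∀ d : D, f d ∈ Lf i → f (α d) ∉ Rt j := fun d k1 k2 =>
    step c hi k1 (oR k2) (rt_anti c h1.le h2 k2)
  have two : ∀ d d' : D, f d ∈ Lf i → f (α d) ∉ A → f d' = f (α d) → f (α d') ∉ Rt j :=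
    fun d d' k1 k2 k3 k4 => step c h2 (d := d') (k3 ▸ c.nest i j h1 h2
      (mem_sdiff.2 ⟨mem_compl.2 k2, step c hi k1 k2⟩)) (oR k4) k4
  have : e = d ∨ e = ρ d ∨ e = ρ (ρ d) ∨ e = ρ (ρ (ρ d)) :=
    vert_ind (Q := fun e => e = d ∨ e = ρ d ∨ e = ρ (ρ d) ∨ e = ρ (ρ (ρ d))) (Or.inl rfl)
      (by rintro e - (rfl | rfl | rfl | rfl) <;> simp [h4]) e0
  have d3 : f (α (ρ (ρ (ρ d)))) ∈ Lf i := by rwa [← fρ, h4]
  rcases this with rfl | rfl | rfl | rfl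
  · exact lf_rt c h1.le h2 d1 e1
  · exact one d d1 (fρ d ▸ e1)
  · by_cases k1 : f (α d) ∈ A
    · by_cases k2 : f (α (ρ (ρ d))) ∈ A
      · exact ρρne d (uniq hA.compl ⟨mem_compl.2 (oR e1), by simpa using k2⟩
          ⟨mem_compl.2 (oL hi d1), by simpa using k1⟩ e0)
      · exact two _ (α (ρ (ρ d))) d3 (by rwa [αα, fρ]) (by rw [αα, fρ]) (by rwa [αα])
    · exact two d (ρ d) d1 k1 (fρ d) (fρ (ρ d) ▸ e1)
  · exact one _ d3 (by rwa [αα])

/-- The position of a face of a rung that meets a rung of the corridor. -/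
theorem posn {Z : Finset (F D)} (hZ : Rung A h g Z) (hy : y ∈ Z) (hm : ∃ u < M, ∃ x ∈ Z, x ∈ Y u) :
    ∃ e ≤ M, (∀ i < e, y ∈ Rt i) ∧ (∀ j, e < j → j < M → y ∈ Lf j) ∧
      ∃ u < M, (u = e ∨ u = e - 1) ∧ ∃ x ∈ Z, x ∈ Y u := by
  have ex : ∃ e, M ≤ e ∨ y ∉ Rt e := ⟨M, Or.inl le_rfl⟩
  have e1 : Nat.find ex ≤ M := Nat.find_le (Or.inl le_rfl)
  have e2 := Nat.find_spec ex
  have e3 : ∀ i < Nat.find ex, y ∈ Rt i := fun i hi =>
    by_contra fun k => Nat.find_min ex hi (Or.inr k)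
  generalize Nat.find ex = e at *
  refine ⟨e, e1, e3, fun j a b => c.nest e j a b
    (mem_sdiff.2 ⟨hZ.1 hy, e2.resolve_left (by omega)⟩), by_contra fun k => ?_⟩
  obtain ⟨u, u1, x, x1, x2⟩ := hm
  have dj : ∀ w < M, w = e ∨ w = e - 1 → Disjoint Z (Y w) := fun w a b =>
    disjoint_left.2 fun z c1 c2 => k ⟨w, a, b, z, c1, c2⟩
  have : e < u ∨ u < e - 1 := by
    by_contra k'
    exact k ⟨u, u1, by omega, x, x1, x2⟩
  rcases this with a | a
  · rcases c.thru e (by omega) Z hZ (dj e (by omega) (Or.inl rfl)) with b | b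
    · exact lf_rt c le_rfl (by omega) (b x1) (y_rt c a u1 x2)
    · exact e2.resolve_left (by omega) (b hy)
  · rcases c.thru (e - 1) (by omega) Z hZ (dj _ (by omega) (Or.inr rfl)) with b | b
    · exact lf_rt c le_rfl (by omega) (b hy) (e3 _ (by omega))
    · exact lf_rt c le_rfl (by omega) (y_lf c a (by omega) x2) (b x1)

end corridor

/-- Most windows of indices are rich. -/
theorem rich {X : Type} (J : Finset X) (e : X → ℕ) {M L T k : ℕ} (hM : ∀ y ∈ J, e y ≤ M)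
    (hk : ∀ u, #{y ∈ J | e y = u} ≤ k) :
    #J ≤ (#{w ∈ range (M / (L + 6)) |
        T ≤ #{y ∈ J | w * (L + 6) + 2 < e y ∧ e y < w * (L + 6) + L + 3}} + 1) * ((L + 6) * k) +
      M / (L + 6) * (T + 6 * k) := by
  have fib : ∀ (s : Finset ℕ) (J' : Finset X), J' ⊆ J → (∀ y ∈ J', e y ∈ s) → #J' ≤ #s * k :=
    fun s J' h1 h2 => mul_comm k _ ▸ card_le_mul_card_image_of_maps_to h2 k fun u _ =>
      (card_le_card (filter_subset_filter _ h1)).trans (hk u)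
  have win : ∀ w y, e y / (L + 6) = w → w * (L + 6) ≤ e y ∧ e y < w * (L + 6) + (L + 6) := by
    rintro _ y rfl
    exact ⟨Nat.div_mul_le_self _ _, Nat.lt_div_mul_add (by omega)⟩
  have f1 : ∀ w, #{y ∈ J | e y / (L + 6) = w} ≤ (L + 6) * k := fun w =>
    (fib (Ico (w * (L + 6)) (w * (L + 6) + (L + 6))) _ (filter_subset _ _)
      fun y hy => mem_Ico.2 (win w y (mem_filter.1 hy).2)).trans (by simp)
  have f2 : ∀ w, #{y ∈ J | e y / (L + 6) = w} ≤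
      #{y ∈ J | w * (L + 6) + 2 < e y ∧ e y < w * (L + 6) + L + 3} + 6 * k := fun w => by
    rw [← card_filter_add_card_filter_not
      (fun y => w * (L + 6) + 2 < e y ∧ e y < w * (L + 6) + L + 3)]
    refine Nat.add_le_add (card_le_card fun y hy => mem_filter.2
      ⟨(mem_filter.1 (mem_filter.1 hy).1).1, (mem_filter.1 hy).2⟩) ?_
    refine (fib (Ico (w * (L + 6)) (w * (L + 6) + 3) ∪
      Ico (w * (L + 6) + L + 3) (w * (L + 6) + L + 3 + 3)) _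
      ((filter_subset _ _).trans (filter_subset _ _)) fun y hy => ?_).trans
      (Nat.mul_le_mul_right _ ((card_union_le _ _).trans (by simp)))
    have a := win w y (mem_filter.1 (mem_filter.1 hy).1).2
    have b := (mem_filter.1 hy).2
    simp only [mem_union, mem_Ico]
    omega
  rw [card_eq_sum_card_fiberwise (f := fun y => e y / (L + 6)) (t := range (M / (L + 6) + 1))
    fun y hy => mem_coe.2 (mem_range.2 (Nat.lt_succ_of_le (Nat.div_le_div_right (hM y hy)))),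
    sum_range_succ, add_mul, one_mul, add_right_comm]
  refine Nat.add_le_add ?_ (f1 _)
  rw [← sum_filter_add_sum_filter_not _ fun w =>
    T ≤ #{y ∈ J | w * (L + 6) + 2 < e y ∧ e y < w * (L + 6) + L + 3}]
  refine Nat.add_le_add (sum_le_card_nsmul _ _ _ fun w _ => f1 w) ?_
  refine (sum_le_card_nsmul _ _ (T + 6 * k) fun w hw => (f2 w).trans
    (Nat.add_le_add_right (not_le.1 (mem_filter.1 hw).2).le _)).trans ?_
  exact Nat.mul_le_mul_right _ ((card_filter_le _ _).trans (card_range _).le)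

end Sl2

end Pool.Agent.MP_42ec7b_co

end MrgPart3

-- ======== part 4: formerly Pool.Agent.MP_42ec7b_co.A.RSl2
section MrgPart4

/-! Arms in a corridor, second part: most rich windows contain an arm. -/

set_option autoImplicit false

open Finset

namespace Pool.Agent.MP_42ec7b_co

open Classical PM

namespace Sl2

variable {D : Type} [PM D] {A J P Q : Finset (F D)} {h g q : F D}

/-- An arm of `q` inside `W`. -/
def Arm (A : Finset (F D)) (q : F D) (W : Finset (F D)) : Prop :=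
  ∃ Z ⊆ W, Conn Z ∧ Disc (A ∪ Z) ∧ (∃ t ∈ Z, sz t = 3) ∧ Ad Z {q} ∧ ∀ x ∈ A, Ad Z {x} → x = q

/-- All faces that avoid `q` lie in `W`. -/
def Far (q : F D) (W : Finset (F D)) : Prop :=
  (∃ t, ¬Meet {t} {q}) ∧ (univ.filter fun x => ¬Meet {x} {q}) ⊆ W

/-- The faces of a window. -/
noncomputable def Wn (Lf Rt : ℕ → Finset (F D)) (L w : ℕ) : Finset (F D) :=
  Rt (w * (L + 6)) ∩ Lf (w * (L + 6) + L + 5)

theorem dis_of (e : ¬Meet P Q) : Disjoint P Q :=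
  disjoint_left.2 fun x c1 c2 => by
    obtain ⟨d, rfl⟩ := f_surj x
    exact e ⟨_, tch_v c1, tch_v c2⟩

theorem win_lt {M L w : ℕ} (e : w ∈ range (M / (L + 6))) : w * (L + 6) + L + 5 < M := by
  have := (Nat.le_div_iff_mul_le (by omega : 0 < L + 6)).1 (Nat.succ_le_of_lt (mem_range.1 e))
  rw [Nat.succ_mul] at this
  omega

theorem fam_le {I : Finset (Finset (F D))} (h1 : ∀ Y ∈ I, Y.Nonempty)
    (h2 : ∀ Y ∈ I, ∀ Y' ∈ I, Y ≠ Y' → Disjoint Y Y') : #I ≤ Fintype.card (F D) := by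
  refine le_trans ?_ (card_le_univ (I.biUnion fun Y => Y))
  rw [card_biUnion h2, card_eq_sum_ones]
  exact sum_le_sum fun Y hY => card_pos.2 (h1 Y hY)

section corridor

variable {M L : ℕ} {Y Lf Rt : ℕ → Finset (F D)} {Bad : Finset ℕ} (c : Cor A h g M Y Lf Rt Bad)
  (hA : Disc A) (h4 : ∀ d : D, ρ (ρ (ρ (ρ d))) = d)
include c hA h4

theorem wn_sep {w w' : ℕ} (e : w ∈ range (M / (L + 6))) (e' : w' ∈ range (M / (L + 6)))
    (n : w ≠ w') : ¬Meet (Wn Lf Rt L w) (Wn Lf Rt L w') := by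
  have key : ∀ {w w'}, w' ∈ range (M / (L + 6)) → w < w' →
      ¬Meet (Wn Lf Rt L w) (Wn Lf Rt L w') := fun {w w'} e' n ⟨u, u1, u2⟩ => by
    have a := win_lt e'
    have b := Nat.mul_le_mul_right (L + 6) (Nat.succ_le_of_lt n)
    rw [Nat.succ_mul] at b
    exact not_meet c hA h4 (i := w * (L + 6) + L + 5) (j := w' * (L + 6)) (by omega) (by omega)
      ⟨u, u1.mono inter_subset_right, u2.mono inter_subset_left⟩
  rcases lt_or_gt_of_ne n with n | n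
  · exact key e' n
  · exact fun ⟨u, u1, u2⟩ => key e n ⟨u, u2, u1⟩

theorem heavy (K : ℕ) : K * #{w ∈ range (M / (L + 6)) | K < wt (Wn Lf Rt L w)} ≤
    wt (univ : Finset (F D)) := by
  rw [mul_comm]
  refine (card_nsmul_le_sum _ (fun w => wt (Wn Lf Rt L w)) K
    fun w hw => (mem_filter.1 hw).2.le).trans ?_
  simp only [wt_sum]
  rw [← sum_biUnion fun w e w' e' n =>
    dis_of (wn_sep c hA h4 (mem_filter.1 e).1 (mem_filter.1 e').1 n)]
  exact sum_le_sum_of_subset (subset_univ _)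

theorem far_le : #{w ∈ range (M / (L + 6)) | Far q (Wn Lf Rt L w)} ≤ 1 :=
  card_le_one.2 fun w e w' e' => by_contra fun n => by
    obtain ⟨e1, ⟨t, ht⟩, e2⟩ := mem_filter.1 e
    have ht : t ∈ univ.filter fun x => ¬Meet {x} {q} := mem_filter.2 ⟨mem_univ t, ht⟩
    exact disjoint_left.1 (dis_of (wn_sep c hA h4 e1 (mem_filter.1 e').1 n)) (e2 ht)
      ((mem_filter.1 e').2.2 ht)

theorem arms (K : ℕ) : ∃ I, Arms A q K I ∧
    #I = #{w ∈ range (M / (L + 6)) | wt (Wn Lf Rt L w) ≤ K ∧ Arm A q (Wn Lf Rt L w)} := by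
  generalize hG : ({w ∈ range (M / (L + 6)) | wt (Wn Lf Rt L w) ≤ K ∧ Arm A q (Wn Lf Rt L w)} :
    Finset ℕ) = G
  have mem : ∀ w ∈ G, w ∈ range (M / (L + 6)) ∧ wt (Wn Lf Rt L w) ≤ K ∧ Arm A q (Wn Lf Rt L w) :=
    fun w e => mem_filter.1 (hG ▸ e)
  choose! Z z1 z2 z3 z4 z5 z6 using fun w e => (mem w e).2.2
  have sep : ∀ w ∈ G, ∀ w' ∈ G, w ≠ w' → ¬Meet (Z w) (Z w') := fun w e w' e' n ⟨u, u1, u2⟩ =>
    wn_sep c hA h4 (mem w e).1 (mem w' e').1 n ⟨u, u1.mono (z1 w e), u2.mono (z1 w' e')⟩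
  refine ⟨G.image Z, ⟨forall_mem_image.2 fun w e => ⟨fun x hx => ?_, z2 w e, z3 w e,
    (wt_mono (z1 w e)).trans (mem w e).2.1, z4 w e, z5 w e, z6 w e⟩,
    forall_mem_image.2 fun w e => forall_mem_image.2 fun w' e' n =>
      sep w e w' e' fun k => n (k ▸ rfl)⟩,
    card_image_of_injOn fun w e w' e' k => by_contra fun n => ?_⟩
  · exact (mem_sdiff.1 ((c.cL _ (win_lt (mem w e).1)).1 (mem_inter.1 (z1 w e hx)).2)).1
  · obtain ⟨t, t1, -⟩ := z4 w e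
    exact disjoint_left.1 (dis_of (sep w e w' e' n)) t1 (k ▸ t1)

end corridor

theorem window [Q4 D] (hP : PockStmt) (hW : WinStmt) {M L w : ℕ} {Y Lf Rt : ℕ → Finset (F D)}
    {Bad : Finset ℕ} (c : Cor A h g M Y Lf Rt Bad) (hA : Disc A) (n : h ≠ g) (sh : 3 < sz h)
    (sg : 3 < sz g) (e : w ∈ range (M / (L + 6))) (hY : ∀ k < M, Hf h g (Y k) ∧ Hf g h (Y k))
    (cl : ∀ k ∈ Bad, k / (L + 6) ≠ w) (j1 : J ⊆ suns h)
    (j2 : J ⊆ Rt (w * (L + 6) + 2) ∩ Lf (w * (L + 6) + L + 3))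
    (j3 : ∀ x ∈ J, ¬(sz x = 3 ∧ Meet {x} {g}))
    (j4 : 16 + 10 * (#(Y (w * (L + 6) + 2)) + #(Y (w * (L + 6) + L + 3))) < #J) :
    (Arm A h (Wn Lf Rt L w) ∨ Arm A g (Wn Lf Rt L w)) ∨
      Far g (Wn Lf Rt L w) ∨ Far h (Wn Lf Rt L w) := by
  have lt := win_lt e
  have cl' : ∀ k ∈ Bad, k < w * (L + 6) ∨ w * (L + 6) + L + 3 + 2 ≤ k := fun k hk => by
    by_contra a
    exact cl k hk (Nat.div_eq_of_lt_le (by omega) (by rw [Nat.succ_mul]; omega))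
  obtain ⟨t, t1, t2, t3⟩ := hW D A J h g M Y Lf Rt Bad _ _ hA n c (by omega) (by omega)
    (fun k hk => by have := cl' k hk; omega) j1 j2 j3 j4
  rcases t3 with t3 | t3
  · rcases hP D A h g t M Y Lf Rt Bad _ _ hA n sh c (by omega) (by omega) cl'
      (fun k hk => (hY k hk).1) t1 t3 with ⟨Z, a1, a2, a3, a4, a5⟩ | a
    · exact Or.inl (Or.inl ⟨Z, a1, a3, a4, ⟨t, a2, t2⟩, a5⟩)
    · exact Or.inr (Or.inl ⟨⟨t, t3⟩, a⟩)
  · rcases hP D A g h t M Y Lf Rt Bad _ _ hA n.symm sg (swap c) (by omega) (by omega) cl'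
      (fun k hk => (hY k hk).2) t1 t3 with ⟨Z, a1, a2, a3, a4, a5⟩ | a
    · exact Or.inl (Or.inr ⟨Z, a1, a3, a4, ⟨t, a2, t2⟩, a5⟩)
    · exact Or.inr (Or.inr ⟨⟨t, t3⟩, a⟩)

theorem arith {n a j G W k N T P B H m : ℕ} (h1 : n ≤ a * j) (h2 : j ≤ (G + 1) * (W * k) + N * T)
    (h3 : N * W ≤ n + 2) (h4 : 4 * a * T ≤ W) (hP : P = 4 * a * (W * k))
    (h5 : G ≤ B + H + 2 + 2 * m) (h6 : 2 * P * B ≤ n) (h7 : 8 * P * H ≤ 4 * n)
    (h8 : 3 * P + 2 ≤ n) : n ≤ (3 * P + 2) * m := by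
  have a1 := Nat.mul_le_mul_left (4 * a) h2
  have a2 := Nat.mul_le_mul_left N h4
  have a3 := Nat.mul_le_mul_left P h5
  have a4 : 4 * a * ((G + 1) * (W * k) + N * T) = P * G + P + N * (4 * a * T) := by
    rw [hP]; ring
  nlinarith [Nat.zero_le (P * m), Nat.zero_le m]

end Sl2

open Sl2 in
theorem sl2 (hC : CntStmt) (hO : OrdStmt) (hP : PockStmt) (hW : WinStmt) : Sl2Stmt := by
  intro a dep K
  obtain ⟨k, hk⟩ : ∃ k, k = (K + 1) ^ dep * (dep + 1) := ⟨_, rfl⟩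
  obtain ⟨L, hL⟩ : ∃ L, L = 4 * a * (17 + 20 * (dep + 1) + 6 * (k + k)) := ⟨_, rfl⟩
  obtain ⟨P, hp⟩ : ∃ P, P = 4 * a * ((L + 6) * (k + k)) := ⟨_, rfl⟩
  refine ⟨2 * P, 8 * P, 3 * P + 2, fun D _ _ A Om J h g n0 hA hh hg n sh sg jb hB j1 j2 j3 => ?_⟩
  obtain ⟨h4, w4, cF, -, -, -, -, -, -, -, cB, -⟩ := hC D
  obtain ⟨I, i1, i2, i3⟩ := family (GR A (ball (Aᶜ \ Om) J dep) h g (dep + 1))
    fun Y ⟨⟨_, _, ⟨_, ⟨_, _, e⟩, _⟩, _⟩, _⟩ => ⟨_, e⟩
  obtain ⟨Y, Lf, Rt, Bad, c, y1, y2, bd⟩ := hO D A h g I hA n (fun Y hY => ⟨(i1 Y hY).1,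
    fun u ⟨d, d1, d2⟩ => (hB _ ((i1 Y hY).2.1 d2)).2 u ⟨d, d1, mem_singleton_self _⟩⟩) i2
  have hM := fam_le (fun Y hY => let ⟨⟨_, _, ⟨_, ⟨_, _, e⟩, _⟩, _⟩, _⟩ := i1 Y hY; ⟨_, e⟩) i2
  have gr := fun i hi => i1 _ (y1 i hi)
  generalize #I = M at *
  have pos : ∀ y ∈ J, ∃ e ≤ M, (∀ i < e, y ∈ Rt i) ∧ (∀ j, e < j → j < M → y ∈ Lf j) ∧
      ∃ u < M, (u = e ∨ u = e - 1) ∧ y ∈ ball (ball (Aᶜ \ Om) J dep) (Y u) dep := fun y hy => by
    obtain ⟨Z, Z', z1, z2, z3, z4, z5⟩ := rungs hh hg sdiff_subset (fun x hx => (hB x hx).2) hy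
      (j1 hy) (j3 y hy).2
    obtain ⟨Y', a1, x, a2, a3⟩ := i3 Z' z4
    obtain ⟨u, u1, rfl⟩ := y2 Y' a1
    obtain ⟨e, e1, e2, e3, u, e4, e5, e6⟩ := posn c z1 z2 ⟨u, u1, x, z3 a2, a3⟩
    exact ⟨e, e1, e2, e3, u, e4, e5, z5 _ e6⟩
  choose! e e1 e2 e3 e4 using pos
  have fib : ∀ u, #{y ∈ J | u < M ∧ y ∈ ball (ball (Aᶜ \ Om) J dep) (Y u) dep} ≤ k := fun u => by
    by_cases hu : u < M
    · refine (card_le_card fun y hy => (mem_filter.1 hy).2.2).trans ((cB _ _ K dep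
        fun x hx => (hB x (ball_sub _ hx)).1).trans ?_)
      exact hk ▸ Nat.mul_le_mul_left _ (gr u hu).2.2.1
    · simp [hu]
  have rc := rich J e (M := M) (L := L) (T := 17 + 20 * (dep + 1)) (k := k + k) e1 fun u => by
    refine le_trans (card_le_card fun y hy => ?_)
      ((card_union_le _ _).trans (Nat.add_le_add (fib u) (fib (u - 1))))
    obtain ⟨hy', rfl⟩ := mem_filter.1 hy
    obtain ⟨w, a1, rfl | rfl, a2⟩ := e4 y hy'
    · exact mem_union_left _ (mem_filter.2 ⟨hy', a1, a2⟩)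
    · exact mem_union_right _ (mem_filter.2 ⟨hy', a1, a2⟩)
  obtain ⟨Ih, ah, ch⟩ := arms (q := h) (L := L) c hA h4 (8 * P)
  obtain ⟨Ig, ag, cg⟩ := arms (q := g) (L := L) c hA h4 (8 * P)
  have hv := heavy (L := L) c hA h4 (8 * P)
  have fh := far_le (q := h) (L := L) c hA h4
  have fg := far_le (q := g) (L := L) c hA h4
  have cov : #{w ∈ range (M / (L + 6)) | 17 + 20 * (dep + 1) ≤
      #{y ∈ J | w * (L + 6) + 2 < e y ∧ e y < w * (L + 6) + L + 3}} ≤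
      #Bad + #{w ∈ range (M / (L + 6)) | 8 * P < wt (Wn Lf Rt L w)} + (1 + 1) + (#Ih + #Ig) := by
    refine le_trans (card_le_card fun w hw => ?_) ((card_union_le _ _).trans (Nat.add_le_add
      ((card_union_le _ _).trans (Nat.add_le_add ((card_union_le _ _).trans (Nat.add_le_add
        (card_image_le (f := fun k => k / (L + 6))) le_rfl))
        ((card_union_le _ _).trans (Nat.add_le_add fg fh))))
      ((card_union_le _ _).trans (Nat.add_le_add ch.ge cg.ge))))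
    obtain ⟨a1, a2⟩ := mem_filter.1 hw
    have lt := win_lt a1
    simp only [mem_union, mem_filter, mem_image, a1, true_and]
    by_contra b
    simp only [not_or, not_lt, not_exists, not_and] at b
    obtain ⟨⟨⟨b1, b2⟩, b3, b4⟩, b5, b6⟩ := b
    have s1 := (gr (w * (L + 6) + 2) (by omega)).2.2.1
    have s2 := (gr (w * (L + 6) + L + 3) (by omega)).2.2.1
    rcases window (J := {y ∈ J | w * (L + 6) + 2 < e y ∧ e y < w * (L + 6) + L + 3})
      hP hW c hA n sh sg a1 (fun i hi => (gr i hi).2.2.2) b1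
      ((filter_subset _ _).trans j1) (fun y hy => let ⟨hy, c1, c2⟩ := mem_filter.1 hy
        mem_inter.2 ⟨e2 y hy _ c1, e3 y hy _ c2 (by omega)⟩)
      (fun y hy => (j3 y (mem_filter.1 hy).1).1) (by omega) with (r | r) | r | r
    exacts [b5 b2 r, b6 b2 r, b3 r, b4 r]
  have fin : ∀ m, #Ih + #Ig ≤ 2 * m → nv D ≤ (3 * P + 2) * m := fun m hm =>
    arith j2 rc ((Nat.div_mul_le_self _ _).trans (cF ▸ hM)) (by omega) hp
      (cov.trans (Nat.add_le_add_left hm _)) ((Nat.mul_le_mul_left _ bd).trans jb) (w4 ▸ hv) n0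
  rcases le_total #Ih #Ig with r | r
  · exact ⟨Ig, g, Or.inr rfl, ag, fin _ (by omega)⟩
  · exact ⟨Ih, h, Or.inl rfl, ah, fin _ (by omega)⟩

end Pool.Agent.MP_42ec7b_co

end MrgPart4

-- ======== part 5: formerly Pool.Agent.MP_42ec7b_co.A.RCh
section MrgPart5

/-!
The exposed faces of a disc from which only heavy faces can be removed lie on few chains.
-/

set_option autoImplicit false

open Finset

namespace Pool.Agent.MP_42ec7b_co

open Classical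

namespace PM

namespace Rc

variable {D : Type} [PM D] {A P K W X Y X' Y' a b : Finset (F D)} {x y z : F D}

lemma enum {β : Type} [Nonempty β] (s : Finset β) (n : β → ℕ) : ∃ ch : ℕ → β,
    (∀ k < #s, ch k ∈ s) ∧ (∀ i j, i < j → j < #s → ch i ≠ ch j ∧ n (ch i) ≤ n (ch j)) ∧
      ∀ x ∈ s, ∃ k < #s, ch k = x := by
  induction s using Finset.induction_on_max_value n with
  | empty => exact ⟨fun _ => Classical.arbitrary β, by simp, by simp, by simp⟩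
  | insert x s hx hm ih =>
    obtain ⟨ch, h1, h2, h3⟩ := ih
    rw [card_insert_of_notMem hx]
    refine ⟨fun k => if k < #s then ch k else x, fun k _ => ?_, fun i j hi hj => ?_, fun y hy => ?_⟩
    · by_cases m : k < #s
      · simp only [if_pos m]
        exact mem_insert_of_mem (h1 k m)
      · simp only [if_neg m]
        exact mem_insert_self _ _
    · have m : i < #s := by omega
      by_cases m' : j < #s
      · simp only [if_pos m, if_pos m']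
        exact h2 i j hi m'
      · simp only [if_pos m, if_neg m']
        exact ⟨fun e => hx (e ▸ h1 i m), hm _ (h1 i m)⟩
    · rcases mem_insert.1 hy with rfl | hy
      · exact ⟨#s, Nat.lt_succ_self _, by simp⟩
      · obtain ⟨k, k1, k2⟩ := h3 y hy
        exact ⟨k, by omega, by simp only [if_pos k1, k2]⟩

/-- A component of `A - x` is adjacent to `x`. -/
lemma cmp_ad (hA : Conn A) (hx : x ∈ A) (h : Cmp (A.erase x) K) : Ad K {x} := by
  obtain ⟨d, k1, k2, k3⟩ := hA.exit (h.1.trans (erase_subset _ _)) h.2.1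
    fun m => (mem_erase.1 (h.1 (m hx))).1 rfl
  exact ⟨d, k1, mem_singleton.2 (by_contra fun m => k3 (h.2.2.2 d k1 (mem_erase.2 ⟨m, k2⟩)))⟩

lemma conn_ins (hK : Conn K) (h : Ad K {x}) : Conn (insert x K) := by
  rw [insert_eq]
  exact conn_union (conn_single _) hK (Or.inl h.symm)

lemma cmp_rest (hA : Conn A) (hx : x ∈ A) (h : Cmp (A.erase x) K) : Conn (A \ K) :=
  conn_cut hA (conn_single x) (mem_singleton_self x) h
    (singleton_subset_iff.2 (mem_sdiff.2 ⟨hx, fun m => (mem_erase.1 (h.1 m)).1 rfl⟩))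
    subset_union_left

/-- `x` separates `A` into a part with `a` and a part with `b`. -/
structure Spl (A a b : Finset (F D)) (x : F D) (X Y : Finset (F D)) : Prop where
  mem : x ∈ A
  cX : Cmp (A.erase x) X
  cY : Cmp (A.erase x) Y
  dis : Disjoint X Y
  part : ∀ g ∈ A, g ∈ X ∨ g = x ∨ g ∈ Y
  aX : a ⊆ X
  bY : b ⊆ Y

lemma Spl.symm (s : Spl A a b x X Y) : Spl A b a x Y X :=
  ⟨s.mem, s.cY, s.cX, s.dis.symm, fun g hg => by have := s.part g hg; tauto, s.bY, s.aX⟩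

lemma Spl.nX (s : Spl A a b x X Y) : x ∉ X := fun m => (mem_erase.1 (s.cX.1 m)).1 rfl

lemma Spl.sX (s : Spl A a b x X Y) : X ⊆ A := s.cX.1.trans (erase_subset _ _)

lemma Spl.sep (s : Spl A a b x X Y) : ¬Ad X Y := fun ⟨d, k1, k2⟩ =>
  disjoint_left.1 s.dis (s.cX.2.2.2 d k1 (s.cY.1 k2)) k2

lemma Spl.ins (s : Spl A a b x X Y) (hA : Conn A) : Conn (insert x X) :=
  conn_ins s.cX.2.2.1 (cmp_ad hA s.mem s.cX)

lemma Spl.nest (s : Spl A a b x X Y) (s' : Spl A a b y X' Y') (hA : Conn A) (ha : a.Nonempty)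
    (h : y ∈ Y) : insert x X ⊆ X' := by
  obtain ⟨g, hg⟩ := ha
  refine (s.ins hA).sub (fun w hw => mem_erase.2 ⟨?_, insert_subset s.mem s.sX hw⟩) s'.cX.2.2.2
    (mem_insert_of_mem (s.aX hg)) (s'.aX hg)
  rintro rfl
  rcases mem_insert.1 hw with rfl | hw
  exacts [s.symm.nX h, disjoint_left.1 s.dis hw h]

lemma Spl.total (s : Spl A a b x X Y) (s' : Spl A a b y X' Y') (hA : Conn A) (ha : a.Nonempty)
    (hb : b.Nonempty) (h : x ≠ y) : insert x X ⊆ X' ∨ insert y X' ⊆ X := by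
  rcases s.part y s'.mem with k | k | k
  · exact Or.inr (s'.nest s hA ha (s.symm.nest s'.symm hA hb k (mem_insert_self _ _)))
  · exact absurd k.symm h
  · exact Or.inl (s.nest s' hA ha k)

lemma spl_of {W' : Finset (F D)} (hz : z ∈ A) (h1 : ¬Conn (A.erase z))
    (h2 : ∀ K, Cmp (A.erase z) K → ∃ g ∈ K, g ∈ a ∨ g ∈ b) (ha : a.Nonempty) (hb : b.Nonempty)
    (c1 : Conn W) (c2 : Conn W') (s1 : W ⊆ A.erase z) (s2 : W' ⊆ A.erase z) (a1 : a ⊆ W)
    (a2 : b ⊆ W') : ∃ X Y, Spl A a b z X Y := by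
  obtain ⟨g, hg⟩ := ha
  obtain ⟨g', hg'⟩ := hb
  obtain ⟨K1, k1, m1⟩ := exists_cmp (s1 (a1 hg))
  obtain ⟨K2, k2, m2⟩ := exists_cmp (s2 (a2 hg'))
  have t1 : a ⊆ K1 := a1.trans (c1.sub s1 k1.2.2.2 (a1 hg) m1)
  have t2 : b ⊆ K2 := a2.trans (c2.sub s2 k2.2.2.2 (a2 hg') m2)
  have p : ∀ w ∈ A.erase z, w ∈ K1 ∨ w ∈ K2 := fun w hw => by
    obtain ⟨K, k, m⟩ := exists_cmp hw
    obtain ⟨u, u1, u2 | u2⟩ := h2 K k
    exacts [Or.inl (k.eq k1 u1 (t1 u2) ▸ m), Or.inr (k.eq k2 u1 (t2 u2) ▸ m)]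
  refine ⟨K1, K2, hz, k1, k2, disjoint_left.2 fun w w1 w2 => h1 ?_, fun w hw => ?_, t1, t2⟩
  · have e := k1.eq k2 w1 w2
    have e' : A.erase z = K1 := Subset.antisymm (fun u hu => (p u hu).elim id fun m => e ▸ m) k1.1
    rw [e']
    exact k1.2.2.1
  · by_cases m : w = z
    · exact Or.inr (Or.inl m)
    · exact (p w (mem_erase.2 ⟨m, hw⟩)).imp_right Or.inr

/-- Nothing lies between two separating faces if no exposed face does. -/
lemma Spl.gap (s : Spl A a b x X Y) (s' : Spl A a b y X' Y') (hA : Disc A)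
    (h : insert x X ⊆ X') (hn : ∀ z ∈ X', z ∉ insert x X → ¬Expo A z) :
    X' ⊆ insert x X ∧ Ad {x} {y} := by
  have hy : y ∉ insert x X := fun m => s'.nX (h m)
  have key : X' ⊆ insert x X := by
    by_contra k
    obtain ⟨w, hw⟩ := hA.2.1
    have q : ∀ g ∈ X' \ insert x X, g ∈ Y := fun g hg => by
      obtain ⟨g1, g2⟩ := mem_sdiff.1 hg
      rcases s.part g (s'.sX g1) with m | m | m
      exacts [absurd (mem_insert_of_mem m) g2, absurd (m ▸ mem_insert_self _ _) g2, m]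
    have hs : ({x, y} : Finset (F D))ᶜ ⊆ X' \ insert x X := conn_two x y _ (fun g hg => by
        rw [mem_compl, mem_insert, mem_singleton, not_or]
        exact ⟨fun m => (mem_sdiff.1 hg).2 (m ▸ mem_insert_self _ _),
          fun m => s'.nX (m ▸ (mem_sdiff.1 hg).1)⟩) (sdiff_nonempty.2 k) (fun d d1 d2 => by
        rw [mem_compl, mem_insert, mem_singleton, not_or] at d2
        obtain ⟨g1, g2⟩ := mem_sdiff.1 d1
        have g3 : f (α d) ∈ A := by_contra fun m =>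
          hn _ g1 g2 ⟨s'.sX g1, d, mem_singleton_self _, mem_compl.2 m⟩
        refine mem_sdiff.2 ⟨s'.cX.2.2.2 d g1 (mem_erase.2 ⟨d2.2, g3⟩), fun m => ?_⟩
        rcases mem_insert.1 m with m | m
        exacts [d2.1 m, s.symm.sep ⟨d, q _ d1, m⟩])
    have := hs (show w ∈ ({x, y} : Finset (F D))ᶜ by
      rw [mem_compl, mem_insert, mem_singleton, not_or]
      exact ⟨fun m => mem_compl.1 hw (m ▸ s.mem), fun m => mem_compl.1 hw (m ▸ s'.mem)⟩)
    exact mem_compl.1 hw (s'.sX (mem_sdiff.1 this).1)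
  refine ⟨key, ?_⟩
  obtain ⟨d, d1, d2⟩ := cmp_ad hA.2.2.1 s'.mem s'.cX
  rcases mem_insert.1 (key d1) with m | m
  · exact ⟨d, mem_singleton.2 m, d2⟩
  · rw [mem_singleton] at d2
    refine absurd ⟨d, m, ?_⟩ s.sep
    rw [d2]
    rcases s.part y s'.mem with k | k | k
    exacts [absurd (mem_insert_of_mem k) hy, absurd (k ▸ mem_insert_self _ _) hy, k]

/-- The exposed faces that separate `a` from `b` form a chain. -/
lemma chain (hA : Disc A) (ha : a.Nonempty) (hb : b.Nonempty)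
    (h1 : ∀ z, Expo A z → z ∉ a → z ∉ b → ¬Conn (A.erase z) ∧
      ∀ K, Cmp (A.erase z) K → ∃ g ∈ K, g ∈ a ∨ g ∈ b) :
    ∃ (U T : Finset (F D)) (L : ℕ) (ch : ℕ → F D) (o : F D),
      (0 < L → Chn A U T L ch ∧ a ⊆ U ∧ o ∈ U ∧ Ad {o} {ch 0} ∧
        ∀ k < L, ch k ∈ A ∧ ch k ∉ a ∧ ch k ∉ b) ∧
      ∀ x, Expo A x → (∃ X Y, Spl A a b x X Y) → ∃ k < L, ch k = x := by
  have hc := hA.2.2.1
  obtain ⟨g0, -⟩ := hA.1
  have : Nonempty (F D) := ⟨g0⟩
  set C : Finset (F D) := univ.filter fun x => Expo A x ∧ ∃ X Y, Spl A a b x X Y with hC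
  have hm : ∀ x, x ∈ C ↔ Expo A x ∧ ∃ X Y, Spl A a b x X Y := fun x => by simp [hC]
  have ex : ∀ x ∈ C, ∃ X Y, Spl A a b x X Y := fun x hx => ((hm x).1 hx).2
  choose! S T hs using ex
  obtain ⟨ch, e1, e2, e3⟩ := enum C fun x => #(S x)
  have lt : ∀ x ∈ C, ∀ y, insert x (S x) ⊆ S y → #(S x) < #(S y) := fun x hx y m => by
    have := card_le_card m
    rw [card_insert_of_notMem (hs x hx).nX] at this
    omega
  have up : ∀ i j, i < j → j < #C → insert (ch i) (S (ch i)) ⊆ S (ch j) := fun i j hi hj => by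
    have m1 := e1 i (hi.trans hj)
    have m2 := e1 j hj
    refine ((hs _ m1).total (hs _ m2) hc ha hb (e2 i j hi hj).1).resolve_right fun m => ?_
    exact absurd (lt _ m2 _ m) (not_lt.2 (e2 i j hi hj).2)
  have inS : ∀ i j, i < j → j < #C → ch i ∈ S (ch j) := fun i j hi hj =>
    up i j hi hj (mem_insert_self _ _)
  have inT : ∀ i j, i < j → j < #C → ch j ∈ T (ch i) := fun i j hi hj => by
    have s := hs _ (e1 i (hi.trans hj))
    have s' := hs _ (e1 j hj)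
    rcases s.part _ s'.mem with m | m | m
    exacts [absurd (up i j hi hj (mem_insert_of_mem m)) s'.nX, absurd m.symm (e2 i j hi hj).1, m]
  have mono : ∀ i j, i ≤ j → j < #C → S (ch i) ⊆ S (ch j) := fun i j hi hj => by
    rcases hi.lt_or_eq with m | rfl
    exacts [(subset_insert _ _).trans (up i j m hj), Subset.rfl]
  have gap : ∀ i, i + 1 < #C → S (ch (i + 1)) ⊆ insert (ch i) (S (ch i)) ∧
      Ad {ch i} {ch (i + 1)} := fun i hi => by
    have s := hs _ (e1 i (by omega))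
    have s' := hs _ (e1 (i + 1) hi)
    have u := up i (i + 1) (Nat.lt_succ_self i) hi
    refine s.gap s' hA u fun z z1 z2 z3 => ?_
    have z4 : z ∉ T (ch (i + 1)) := disjoint_left.1 s'.dis z1
    obtain ⟨n1, n2⟩ := h1 z z3 (fun m => z2 (mem_insert_of_mem (s.aX m))) fun m => z4 (s'.bY m)
    obtain ⟨k, k1, rfl⟩ := e3 z ((hm z).2 ⟨z3, spl_of z3.1 n1 n2 ha hb (s.ins hc) (s'.symm.ins hc)
      (fun w hw => mem_erase.2 ⟨fun m => z2 (m ▸ hw), insert_subset s.mem s.sX hw⟩)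
      (fun w hw => mem_erase.2 ⟨fun m => (mem_insert.1 hw).elim
        (fun q => s'.nX (by rwa [← m, q] at z1)) fun q => z4 (by rwa [m] at q),
          insert_subset s'.mem s'.symm.sX hw⟩)
      (s.aX.trans (subset_insert _ _)) (s'.bY.trans (subset_insert _ _))⟩)
    rcases lt_trichotomy k i with m | rfl | m
    · exact z2 (mem_insert_of_mem (inS k i m (by omega)))
    · exact z2 (mem_insert_self _ _)
    · exact (hs _ (e1 k k1)).nX (mono (i + 1) k m k1 z1)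
  have down : ∀ j < #C, ∀ w ∈ S (ch j), w ∈ S (ch 0) ∨ ∃ i < j, ch i = w := fun j => by
    induction j with
    | zero => exact fun _ w hw => Or.inl hw
    | succ j ih =>
      intro hj w hw
      rcases mem_insert.1 ((gap j hj).1 hw) with m | m
      · exact Or.inr ⟨j, Nat.lt_succ_self j, m.symm⟩
      · exact (ih (by omega) w m).imp_right fun ⟨i, i1, i2⟩ => ⟨i, by omega, i2⟩
  by_cases h0 : 0 < #C
  swap
  · exact ⟨∅, ∅, #C, ch, g0, fun m => absurd m h0, fun x x1 x2 => e3 x ((hm x).2 ⟨x1, x2⟩)⟩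
  have hl : #C - 1 < #C := by omega
  have s0 := hs _ (e1 0 h0)
  have sl := hs _ (e1 _ hl)
  have u0 := mono 0 _ (Nat.zero_le _) hl
  obtain ⟨d, d1, d2⟩ := cmp_ad hc s0.mem s0.cX
  refine ⟨S (ch 0), T (ch (#C - 1)), #C, ch, f d, fun _ => ⟨⟨h0, fun i hi j hj e => ?_,
    fun w => ⟨fun hw => ?_, fun hw => ?_⟩, sl.dis.mono_left u0, fun i hi m => ?_, fun i hi m => ?_,
    s0.cX.2.2.1, sl.cY.2.2.1, ⟨d, d1, d2⟩, (cmp_ad hc sl.mem sl.cY).symm, fun i hi => (gap i hi).2,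
    fun m => sl.sep (m.mono u0 Subset.rfl),
    fun i hi h2 m => s0.sep (m.mono Subset.rfl (singleton_subset_iff.2 (inT 0 i h2 hi))),
    fun i hi m => sl.sep (m.mono (singleton_subset_iff.2 (inS i _ (by omega) hl)) Subset.rfl),
    fun i j hi hj m => (hs _ (e1 (i + 1) (by omega))).sep (m.mono
      (singleton_subset_iff.2 (inS i _ (Nat.lt_succ_self i) (by omega)))
      (singleton_subset_iff.2 (inT _ j hi hj)))⟩, s0.aX, d1, ⟨d, mem_singleton_self _, d2⟩,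
    fun k hk => ⟨(hs _ (e1 k hk)).mem, fun m => (hs _ (e1 k hk)).nX ((hs _ (e1 k hk)).aX m),
      fun m => (hs _ (e1 k hk)).symm.nX ((hs _ (e1 k hk)).bY m)⟩⟩,
    fun x x1 x2 => e3 x ((hm x).2 ⟨x1, x2⟩)⟩
  · rcases lt_trichotomy i j with m | m | m
    exacts [absurd e (e2 i j m hj).1, m, absurd e.symm (e2 j i m hi).1]
  · rcases sl.part w hw with m | m | m
    · exact (down _ hl w m).imp_right fun ⟨i, i1, i2⟩ => Or.inr ⟨i, by omega, i2⟩
    · exact Or.inr (Or.inr ⟨_, hl, m.symm⟩)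
    · exact Or.inr (Or.inl m)
  · rcases hw with m | m | ⟨i, i1, rfl⟩
    exacts [s0.sX m, sl.symm.sX m, (hs _ (e1 i i1)).mem]
  · exact (hs _ (e1 i hi)).nX (mono 0 i (Nat.zero_le _) hi m)
  · rcases (Nat.le_sub_one_of_lt hi).lt_or_eq with q | rfl
    exacts [disjoint_left.1 sl.dis (inS i _ q hl) m, sl.symm.nX m]

end Rc

end PM

open PM PM.Rc

theorem chn (_hC : CntStmt) (hA : AddStmt) : ChStmt := by
  intro D _ _ S H A P h dA cP nP sP st hH hh hS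
  have hc := dA.2.2.1
  have mh : ∀ g, g ∈ hvy S A ↔ g ∈ A ∧ S ≤ sz g := fun g => mem_filter
  have sPe : ∀ x, x ∉ P → P ⊆ A.erase x := fun x hx g hg =>
    mem_erase.2 ⟨fun m => hx (m ▸ hg), sP hg⟩
  have cut : ∀ x, Expo A x → x ∉ P → sz x < S → ¬Conn (A.erase x) := fun x x1 x2 x3 m => by
    refine absurd (st x x1.1 x2 ⟨nP.mono (sPe x x2), dA.2.1.mono
      (compl_subset_compl.2 (erase_subset _ _)), m, ?_⟩) (not_le.2 x3)
    rw [compl_erase]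
    exact conn_ins dA.2.2.2 x1.2.symm
  have anc : ∀ x ∈ A, x ∉ P → ∀ K, Cmp (A.erase x) K → (∃ g ∈ K, g ∈ P) ∨ ∃ g ∈ K, g ∈ hvy S A :=
    fun x x1 x2 K k => or_iff_not_imp_left.2 fun m => by
    obtain ⟨p, hp⟩ := nP
    obtain ⟨d, d1, d2, d3⟩ := (conn_erase x).exit
      (fun g hg => mem_erase.2 ⟨(mem_erase.1 (k.1 hg)).1, mem_univ _⟩) k.2.1
      fun q => m ⟨p, q (mem_erase.2 ⟨fun e => x2 (e ▸ hp), mem_univ _⟩), hp⟩
    obtain ⟨y, y1, y2, y3⟩ := (hA D).1 A (A \ K) dA (cmp_rest hc x1 k)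
      ⟨x, mem_sdiff.2 ⟨x1, fun q => (mem_erase.1 (k.1 q)).1 rfl⟩⟩ sdiff_subset
      ⟨f d, ⟨mem_of_mem_erase (k.1 d1), d, mem_singleton_self _, mem_compl.2 fun q =>
        d3 (k.2.2.2 d d1 (mem_erase.2 ⟨(mem_erase.1 d2).1, q⟩))⟩, fun q => (mem_sdiff.1 q).2 d1⟩
    have y4 : y ∈ K := by_contra fun q => y2 (mem_sdiff.2 ⟨y1, q⟩)
    exact ⟨y, y4, (mh y).2 ⟨y1, st y y1 (fun q => m ⟨y, y4, q⟩) y3⟩⟩
  have exP : ∀ x, x ∉ P → ∃ K, Cmp (A.erase x) K ∧ P ⊆ K := fun x hx => by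
    obtain ⟨p, hp⟩ := nP
    obtain ⟨K, k1, k2⟩ := exists_cmp (sPe x hx hp)
    exact ⟨K, k1, cP.sub (sPe x hx) k1.2.2.2 hp k2⟩
  choose! Q q1 q2 using exP
  have off : ∀ x ∈ A, x ∉ P → ∀ w ∈ A.erase x \ Q x, ∃ K, Cmp (A.erase x) K ∧ w ∈ K ∧
      K ⊆ A.erase x \ Q x ∧ ∃ g ∈ K, g ∈ hvy S A \ Q x := fun x x1 x2 w hw => by
    obtain ⟨K, k1, k2⟩ := exists_cmp (mem_sdiff.1 hw).1
    have k3 : ∀ g ∈ K, g ∉ Q x := fun g g1 g2 => (mem_sdiff.1 hw).2 (k1.eq (q1 x x2) g1 g2 ▸ k2)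
    obtain ⟨g, g1, g2⟩ := (anc x x1 x2 K k1).resolve_left fun ⟨g, g1, g2⟩ => k3 g g1 (q2 x x2 g2)
    exact ⟨K, k1, k2, fun u hu => mem_sdiff.2 ⟨k1.1 hu, k3 u hu⟩, g, g1, mem_sdiff.2 ⟨g2, k3 g g1⟩⟩
  have cls : ∀ U0 : Finset (F D), ∃ (U T : Finset (F D)) (L : ℕ) (ch : ℕ → F D) (o : F D),
      (0 < L → Chn A U T L ch ∧ h ∈ U ∧ o ∈ U ∧ Ad {o} {ch 0} ∧
        ∀ k < L, ch k ∉ P ∧ sz (ch k) < S) ∧
      ∀ x, Expo A x → U0.Nonempty → (∃ X Y, Spl A (P ∪ hvy S A \ U0) U0 x X Y) →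
        ∃ k < L, ch k = x := fun U0 => by
    by_cases n0 : U0.Nonempty
    swap
    · exact ⟨∅, ∅, 0, fun _ => h, h, fun m => absurd m (lt_irrefl 0), fun _ _ m => absurd m n0⟩
    have n1 : (P ∪ hvy S A \ U0).Nonempty := nP.mono subset_union_left
    have t1 : ∀ z ∈ A, z ∉ P ∪ hvy S A \ U0 → z ∉ U0 → z ∉ P ∧ sz z < S := fun z z1 z2 z3 =>
      ⟨fun m => z2 (mem_union_left _ m), not_le.1 fun m =>
        z2 (mem_union_right _ (mem_sdiff.2 ⟨(mh z).2 ⟨z1, m⟩, z3⟩))⟩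
    have t2 : ∀ z, Expo A z → z ∉ P ∪ hvy S A \ U0 → z ∉ U0 → ¬Conn (A.erase z) ∧
        ∀ K, Cmp (A.erase z) K → ∃ g ∈ K, g ∈ P ∪ hvy S A \ U0 ∨ g ∈ U0 := fun z z1 z2 z3 => by
      obtain ⟨m1, m2⟩ := t1 z z1.1 z2 z3
      refine ⟨cut z z1 m1 m2, fun K k => ?_⟩
      rcases anc z z1.1 m1 K k with ⟨g, g1, g2⟩ | ⟨g, g1, g2⟩
      · exact ⟨g, g1, Or.inl (mem_union_left _ g2)⟩
      · exact ⟨g, g1, or_iff_not_imp_right.2 fun m => mem_union_right _ (mem_sdiff.2 ⟨g2, m⟩)⟩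
    by_cases m : h ∈ U0
    · obtain ⟨U, T, L, ch, o, r1, r2⟩ := chain dA n0 n1 fun z z1 z2 z3 =>
        (t2 z z1 z3 z2).imp_right fun r K k => (r K k).imp fun g hg => ⟨hg.1, hg.2.symm⟩
      exact ⟨U, T, L, ch, o, fun l => (r1 l).imp_right fun r => ⟨r.1 m, r.2.1, r.2.2.1, fun k hk =>
        t1 _ (r.2.2.2 k hk).1 (r.2.2.2 k hk).2.2 (r.2.2.2 k hk).2.1⟩,
        fun x x1 _ ⟨X, Y, s⟩ => r2 x x1 ⟨Y, X, s.symm⟩⟩
    · obtain ⟨U, T, L, ch, o, r1, r2⟩ := chain dA n1 n0 t2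
      exact ⟨U, T, L, ch, o, fun l => (r1 l).imp_right fun r =>
        ⟨r.1 (mem_union_right _ (mem_sdiff.2 ⟨(mh h).2 ⟨hh, hS⟩, m⟩)), r.2.1, r.2.2.1, fun k hk =>
        t1 _ (r.2.2.2 k hk).1 (r.2.2.2 k hk).2.1 (r.2.2.2 k hk).2.2⟩, fun x x1 _ s => r2 x x1 s⟩
  choose U T L ch o r1 r2 using cls
  obtain ⟨e, -, -, e3⟩ := enum (hvy S A).powerset fun _ => 0
  have cd : #(hvy S A).powerset ≤ 2 ^ H := by
    rw [card_powerset]
    exact Nat.pow_le_pow_right two_pos hH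
  have two : ∀ x ∈ A, x ∉ P → ¬Conn (A.erase x \ Q x) → ∀ W, Conn W → W ⊆ A.erase x →
      ¬hvy S A \ Q x ⊆ W := fun x x1 x2 x3 W w1 w2 w3 => by
    obtain ⟨w, hw⟩ : (A.erase x \ Q x).Nonempty := nonempty_iff_ne_empty.2 fun m =>
      x3 (by rw [m]; exact fun B _ _ _ => empty_subset B)
    obtain ⟨K, k1, -, k3, g, g1, g2⟩ := off x x1 x2 w hw
    refine x3 (Subset.antisymm k3 (fun u hu => ?_) ▸ k1.2.2.1)
    obtain ⟨K', l1, l2, -, g', l4, l5⟩ := off x x1 x2 u hu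
    exact l1.eq k1 l4 (w1.sub w2 k1.2.2.2 (w3 g2) g1 (w3 l5)) ▸ l2
  have one : ∀ x ∈ A, x ∉ P → ∀ y ∈ A, y ∉ P → ¬Conn (A.erase y \ Q y) →
      hvy S A \ Q x = hvy S A \ Q y → y ∉ Q x := fun x x1 x2 y y1 y2 y3 e m =>
    two y y1 y2 y3 (A \ Q x) (cmp_rest hc x1 (q1 x x2))
      (fun g hg => mem_erase.2 ⟨fun k => (mem_sdiff.1 hg).2 (k ▸ m), (mem_sdiff.1 hg).1⟩)
      (e ▸ sdiff_subset_sdiff (filter_subset _ _) Subset.rfl)
  refine ⟨A.filter fun x => x ∉ P ∧ ¬Conn (A.erase x \ Q x), fun i => U (e i), fun i => T (e i),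
    fun i => L (e i), fun i => ch (e i), fun i => o (e i), ?_, filter_subset _ _,
    fun i _ l => r1 _ l, fun x x1 x2 x3 => ?_⟩
  · refine (card_le_card_of_injOn (fun x => hvy S A \ Q x) (fun x _ => ?_)
      fun x hx y hy k => ?_).trans cd
    · exact mem_coe.2 (mem_powerset.2 sdiff_subset)
    · obtain ⟨x1, x2, x3⟩ := mem_filter.1 (mem_coe.1 hx)
      obtain ⟨y1, y2, y3⟩ := mem_filter.1 (mem_coe.1 hy)
      by_contra n
      obtain ⟨p, hp⟩ := nP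
      refine one y y1 y2 x x1 x2 x3 k.symm ((conn_ins (q1 x x2).2.2.1 (cmp_ad hc x1 (q1 x x2))).sub
        (fun g hg => mem_erase.2 ⟨?_, insert_subset x1 ((q1 x x2).1.trans (erase_subset _ _)) hg⟩)
        (q1 y y2).2.2.2 (mem_insert_of_mem (q2 x x2 hp)) (q2 y y2 hp) (mem_insert_self _ _))
      rintro rfl
      rcases mem_insert.1 hg with m | m
      exacts [n m.symm, one x x1 x2 g y1 y2 y3 k m]
  · by_cases m : Conn (A.erase x \ Q x)
    swap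
    · exact Or.inl (mem_filter.2 ⟨x1.1, x2, m⟩)
    obtain ⟨i, i1, i2⟩ := e3 (hvy S A \ Q x) (mem_powerset.2 sdiff_subset)
    obtain ⟨w, hw⟩ : (A.erase x \ Q x).Nonempty := sdiff_nonempty.2 fun k =>
      cut x x1 x2 x3 (Subset.antisymm (q1 x x2).1 k ▸ (q1 x x2).2.2.1)
    obtain ⟨K, -, -, -, g, -, g2⟩ := off x x1.1 x2 w hw
    refine Or.inr ⟨i, i1.trans_le cd, ?_⟩
    simp only [i2]
    refine r2 _ x x1 ⟨g, g2⟩ (spl_of x1.1 (cut x x1 x2 x3) (fun K k => ?_)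
      (nP.mono subset_union_left) ⟨g, g2⟩ (q1 x x2).2.2.1 m (q1 x x2).1 sdiff_subset
      (union_subset (q2 x x2) fun u hu => by_contra fun k =>
        (mem_sdiff.1 hu).2 (mem_sdiff.2 ⟨(mem_sdiff.1 hu).1, k⟩)) fun u hu => ?_)
    · rcases anc x x1.1 x2 K k with ⟨u, u1, u2⟩ | ⟨u, u1, u2⟩
      · exact ⟨u, u1, Or.inl (mem_union_left _ u2)⟩
      · exact ⟨u, u1, or_iff_not_imp_right.2 fun q => mem_union_right _ (mem_sdiff.2 ⟨u2, q⟩)⟩
    · obtain ⟨u1, u2⟩ := mem_sdiff.1 hu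
      obtain ⟨u3, u4⟩ := (mh u).1 u1
      exact mem_sdiff.2 ⟨mem_erase.2 ⟨fun k => absurd (k ▸ u4) (not_le.2 x3), u3⟩, u2⟩

end Pool.Agent.MP_42ec7b_co

end MrgPart5

-- marker of a merged file
example : 731051 + 748582 = 731051 + 748582 := rfl
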