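import Mathlib.Topology.Sheaves.Presheaf
import Mathlib.Algebra.Order.Archimedean.Real.Basic
import Mathlib.Combinatorics.SimpleGraph.DegreeSum
import Pool.Agent.MP_42ec7b_co.A.RCh
import Pool.Agent.MP_42ec7b_co.A.Planar
import Pool.Agent.MP_42ec7b_co.A.PD2
import Pool.Agent.MP_42ec7b_co.Defs

-- ======== part 0: formerly Pool.Agent.MP_42ec7b_co.A.RCl
section MrgPart0

/-!
Compensation: faces that can be added after a part of the disc is removed.
-/

set_option autoImplicit false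

open Finset

namespace Pool.Agent.MP_42ec7b_co

open Classical

open PM

namespace RCl

variable {D : Type} [PM D] {A P0 P1 P2 : Finset (F D)} {h g x x' : F D} {M i j : ℕ}
  {Y Lf Rt : ℕ → Finset (F D)} {Bad : Finset ℕ} {r : V D} {d : D}

/-- Outer faces at a vertex are joined in at most two steps. -/
lemma two_step (h4 : ∀ d : D, ρ (ρ (ρ (ρ d))) = d) (hA : Disc A) (m01 : P0 ⊆ P1) (m12 : P1 ⊆ P2)
    (s01 : ∀ d, f d ∈ P0 → f (α d) ∉ A → f (α d) ∈ P1)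
    (s12 : ∀ d, f d ∈ P1 → f (α d) ∉ A → f (α d) ∈ P2) (hx : x ∈ P0) (n1 : x ∉ A) (n2 : x' ∉ A)
    (t1 : Tch {x} r) (t2 : Tch {x'} r) : x' ∈ P2 := by
  obtain ⟨e, e1, rfl⟩ := tch_one.1 t1
  obtain ⟨e', e2, rfl⟩ := tch_one.1 t2
  have k : e' = e ∨ e' = ρ e ∨ e' = ρ (ρ e) ∨ e' = ρ (ρ (ρ e)) :=
    vert_ind (Q := fun c => c = e ∨ c = ρ e ∨ c = ρ (ρ e) ∨ c = ρ (ρ (ρ e))) (Or.inl rfl)
      (fun c _ m => by
        rcases m with rfl | rfl | rfl | rfl
        exacts [Or.inr (Or.inl rfl), Or.inr (Or.inr (Or.inl rfl)), Or.inr (Or.inr (Or.inr rfl)),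
          Or.inl (h4 _)]) (e2.trans e1.symm)
  have a3 : f (α (ρ (ρ (ρ e)))) = f e := by rw [← fρ, h4]
  have a1 : f (ρ e) ∉ A → f (ρ e) ∈ P1 := fun m => by
    rw [fρ] at m ⊢
    exact s01 e hx m
  have a2 : f (ρ (ρ (ρ e))) ∉ A → f (ρ (ρ (ρ e))) ∈ P1 := fun m => by
    have := s01 (α (ρ (ρ (ρ e)))) (a3 ▸ hx) (by rwa [αα])
    rwa [αα] at this
  rcases k with rfl | rfl | rfl | rfl
  · exact m12 (m01 hx)
  · exact m12 (a1 n2)
  · by_cases b1 : f (ρ e) ∈ A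
    · by_cases b2 : f (ρ (ρ (ρ e))) ∈ A
      · exact absurd (uniq hA (c := ρ (ρ (ρ e))) (c' := ρ e) ⟨b2, a3 ▸ n1⟩
          ⟨b1, by rwa [← fρ]⟩ (by simp)) (ρρne _)
      · have := s12 (α (ρ (ρ e))) (by rw [← fρ]; exact a2 b2) (by rwa [αα])
        rwa [αα] at this
    · rw [fρ] at n2 ⊢
      exact s12 _ (a1 b1) n2
  · exact m12 (a2 n2)

variable (hc : Cor A h g M Y Lf Rt Bad)

include hc

lemma monoL (hj : j + 1 < M) : Lf j ⊆ Lf (j + 1) := fun _ m =>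
  hc.nest j (j + 1) j.lt_succ_self hj (mem_sdiff.2 ⟨(mem_sdiff.1 ((hc.cL j (by omega)).1 m)).1,
    disjoint_left.1 (hc.dis j (by omega)) m⟩)

lemma monoR (hj : j + 1 < M) : Rt (j + 1) ⊆ Rt j := fun _ m => by_contra fun m' =>
  disjoint_left.1 (hc.dis (j + 1) hj) (hc.nest j (j + 1) j.lt_succ_self hj
    (mem_sdiff.2 ⟨(mem_sdiff.1 ((hc.cR _ hj).1 m)).1, m'⟩)) m

lemma stepL (hj : j + 1 < M) (d : D) (h1 : f d ∈ Lf j) (h2 : f (α d) ∉ A) :
    f (α d) ∈ Lf (j + 1) :=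
  hc.nest j (j + 1) j.lt_succ_self hj (mem_sdiff.2 ⟨mem_compl.2 h2, fun m =>
    disjoint_left.1 (hc.dis j (by omega))
      ((hc.cL j (by omega)).2.2.2 d h1 ((hc.cR j (by omega)).1 m)) m⟩)

lemma stepR (hj : j + 1 < M) (d : D) (h1 : f d ∈ Rt (j + 1)) (h2 : f (α d) ∉ A) :
    f (α d) ∈ Rt j := by_contra fun m =>
  disjoint_left.1 (hc.dis (j + 1) hj) ((hc.cL _ hj).2.2.2.symm d
    (hc.nest j (j + 1) j.lt_succ_self hj (mem_sdiff.2 ⟨mem_compl.2 h2, m⟩))
    ((hc.cR _ hj).1 h1)) h1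

lemma rungL (hi : i < j) (hj : j < M) : Y i ⊆ Lf j := fun _ m =>
  hc.nest i j hi hj (mem_sdiff.2 ⟨(hc.rung i (by omega)).1 m, fun m' =>
    (mem_sdiff.1 ((hc.cR i (by omega)).1 m')).2 m⟩)

lemma rungR (hi : i < j) (hj : j < M) : Y j ⊆ Rt i := fun _ m => by_contra fun m' =>
  (mem_sdiff.1 ((hc.cL j hj).1 (hc.nest i j hi hj
    (mem_sdiff.2 ⟨(hc.rung j hj).1 m, m'⟩)))).2 m

lemma twoL (h4 : ∀ d : D, ρ (ρ (ρ (ρ d))) = d) (hA : Disc A) (hj : j + 2 < M) (hx : x ∈ Lf j)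
    (n2 : x' ∉ A) (t1 : Tch {x} r) (t2 : Tch {x'} r) : x' ∈ Lf (j + 2) :=
  two_step h4 hA (monoL hc (by omega)) (monoL hc hj) (stepL hc (by omega)) (stepL hc hj) hx
    (mem_compl.1 (mem_sdiff.1 ((hc.cL j (by omega)).1 hx)).1) n2 t1 t2

lemma twoR (h4 : ∀ d : D, ρ (ρ (ρ (ρ d))) = d) (hA : Disc A) (hj : j + 2 < M)
    (hx : x ∈ Rt (j + 2)) (n2 : x' ∉ A) (t1 : Tch {x} r) (t2 : Tch {x'} r) : x' ∈ Rt j :=
  two_step h4 hA (monoR hc hj) (monoR hc (by omega)) (stepR hc hj) (stepR hc (by omega)) hx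
    (mem_compl.1 (mem_sdiff.1 ((hc.cR _ hj).1 hx)).1) n2 t1 t2

omit hc in
/-- Most indices are far from the ends, from the bad indices and are not marked. -/
lemma count (Mr : Finset ℕ) : M ≤ #{u ∈ range M | 5 ≤ u ∧ u + 5 < M ∧
    (∀ k ∈ Bad, k < u - 5 ∨ u + 5 ≤ k) ∧ u ∉ Mr} + 10 + 10 * #Bad + #Mr := by
  have s : range M ⊆ {u ∈ range M | 5 ≤ u ∧ u + 5 < M ∧
      (∀ k ∈ Bad, k < u - 5 ∨ u + 5 ≤ k) ∧ u ∉ Mr} ∪ (range 5 ∪ Ico (M - 5) M) ∪
      Bad.biUnion (fun k => Ico (k - 4) (k - 4 + 10)) ∪ Mr := fun u hu => by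
    have hu' := mem_range.1 hu
    simp only [mem_union, mem_filter, mem_range, mem_Ico, mem_biUnion]
    by_cases a : u ∈ Mr
    · exact Or.inr a
    by_cases b : 5 ≤ u ∧ u + 5 < M
    · by_cases c : ∀ k ∈ Bad, k < u - 5 ∨ u + 5 ≤ k
      · exact Or.inl (Or.inl (Or.inl ⟨hu', b.1, b.2, c, a⟩))
      · push Not at c
        obtain ⟨k, k1, k2, k3⟩ := c
        exact Or.inl (Or.inr ⟨k, k1, by omega, by omega⟩)
    · exact Or.inl (Or.inl (Or.inr (by omega)))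
  have c1 := card_le_card s
  have c2 : #(Bad.biUnion fun k => Ico (k - 4) (k - 4 + 10)) ≤ #Bad * 10 :=
    card_biUnion_le_card_mul _ _ _ fun k _ => by simp
  have c3 : #(range 5 ∪ Ico (M - 5) M) ≤ 10 := (card_union_le _ _).trans (by
    rw [card_range, Nat.card_Ico]; omega)
  rw [card_range] at c1
  refine c1.trans ((card_union_le _ _).trans (Nat.add_le_add_right ((card_union_le _ _).trans
    (Nat.add_le_add ((card_union_le _ _).trans (Nat.add_le_add_left c3 _)) (by omega))) _))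

omit hc in
/-- The faces that are added along one wall. -/
lemma wall [Q4 D] (hC : CntStmt) (hO : OrdStmt) (hA : Disc A) (hh : h ∈ A) (hg : g ∈ A)
    (hne : h ≠ g) (J Mk : Finset (F D)) (hJ : ∀ y ∈ J, y ∉ A ∧ Ad {y} {h} ∧ Meet {y} {g} ∧
      ∀ u, Tch {y} u → Tch A u → ∃ q, Plain A q u) :
    ∃ Z : Finset (F D), Disjoint Z Mk ∧ (∀ z ∈ Z, z ∉ A ∧ Ad {z} {g} ∧ ∀ x ∉ A, Meet {z} {x} →
      ∀ u, Tch {x} u → Tch A u → Plain A h u ∨ Plain A g u) ∧
      #J ≤ #Z + 10 + 10 * (jn A h + jn A g) + #Mk := by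
  have h4 := (hC D).1
  have pl : ∀ y ∈ J, ∀ q ∈ A, ∀ u, Tch {y} u → Tch {q} u → Plain A q u := fun y hy q hq u t1 t2 => by
    obtain ⟨q', k⟩ := (hJ y hy).2.2.2 u t1 (t2.mono (singleton_subset_iff.2 hq))
    rwa [k.2.2 q hq t2]
  obtain ⟨Y, Lf, Rt, Bad, hc, y1, -, y3⟩ := hO D A h g (J.image fun y => {y}) hA hne
    (fun Y hY => by
      obtain ⟨y, hy, rfl⟩ := mem_image.1 hY
      obtain ⟨a1, ⟨d, d1, d2⟩, ⟨u, u1, u2⟩, a4⟩ := hJ y hy
      exact ⟨⟨singleton_subset_iff.2 (mem_compl.2 a1), conn_single y,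
        ⟨v d, tch_v d1, pl y hy h hh _ (tch_v d1) (tch_v' d2)⟩, u, u1, pl y hy g hg u u1 u2⟩, a4⟩)
    (fun Y hY Y' hY' n => by
      obtain ⟨y, -, rfl⟩ := mem_image.1 hY
      obtain ⟨y', -, rfl⟩ := mem_image.1 hY'
      exact disjoint_singleton.2 fun m => n (by rw [m]))
  rw [card_image_of_injective _ singleton_injective] at hc y1
  have ex : ∀ u < #J, ∃ (y : F D) (c : D), y ∈ J ∧ Y u = {y} ∧ f c = g ∧ Tch {y} (v c) := by
    intro u hu
    obtain ⟨y, hy, e⟩ := mem_image.1 (y1 u hu)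
    obtain ⟨r, r1, r2⟩ := (hJ y hy).2.2.1
    obtain ⟨c, rfl, c2⟩ := tch_one.1 r2
    exact ⟨y, c, hy, e.symm, c2, r1⟩
  obtain ⟨d0, -⟩ := f_surj h
  have : Nonempty D := ⟨d0⟩
  have : Nonempty (F D) := ⟨h⟩
  choose! y c k1 k2 k3 k4 using ex
  have pq : ∀ u < #J, Plain A g (v (c u)) := fun u hu =>
    pl _ (k1 u hu) g hg _ (k4 u hu) (tch_v (by simp [k3 u hu]))
  have zA : ∀ u < #J, f (α (c u)) ∉ A := fun u hu m =>
    s0 (c u) (((pq u hu).2.2 _ m (tch_v' (mem_singleton_self _))).trans (k3 u hu).symm)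
  have lt : ∀ u u', u < u' → u' < #J → f (α (c u)) ≠ f (α (c u')) := fun u u' l hu' m => by
    have hu : u < #J := l.trans hu'
    have e : c u = c u' := s1 ((k3 u hu).trans (k3 u' hu').symm) m
    have n : y u ≠ y u' := fun m' => (mem_sdiff.1 ((hc.cL u' hu').1 (rungL hc l hu'
      (k2 u hu ▸ mem_singleton_self (y u))))).2 (k2 u' hu' ▸ mem_singleton.2 m')
    obtain ⟨a, a1, a2⟩ := (hJ _ (k1 u hu)).2.1
    obtain ⟨b, b1, b2⟩ := (hJ _ (k1 u' hu')).2.1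
    rw [mem_singleton] at a1 a2 b1 b2
    have t := sun_disj (d := α a) (d' := α b) (r := v (c u)) (a2.trans b2.symm)
      (fun m' => n (by rw [← a1, ← b1, α.injective m'])) (by rw [αα, a1]; exact k4 u hu)
      (by rw [αα, b1, e]; exact k4 u' hu')
    rw [a2] at t
    exact hne ((pq u hu).2.2 h hh t)
  have inj : Set.InjOn (fun u => f (α (c u))) (range #J : Finset ℕ) := fun u hu u' hu' m => by
    have hu := mem_range.1 (mem_coe.1 hu)
    have hu' := mem_range.1 (mem_coe.1 hu')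
    rcases lt_trichotomy u u' with l | l | l
    exacts [absurd m (lt u u' l hu'), l, absurd m.symm (lt u' u l hu)]
  have cnt := count (M := #J) (Bad := Bad) {u ∈ range #J | f (α (c u)) ∈ Mk}
  have c1 : #{u ∈ range #J | f (α (c u)) ∈ Mk} ≤ #Mk :=
    card_le_card_of_injOn (fun u => f (α (c u))) (fun u hu => (mem_filter.1 (mem_coe.1 hu)).2)
      (inj.mono (coe_subset.2 (filter_subset _ _)))
  refine ⟨image (fun u => f (α (c u))) {u ∈ range #J | 5 ≤ u ∧ u + 5 < #J ∧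
    (∀ k ∈ Bad, k < u - 5 ∨ u + 5 ≤ k) ∧ u ∉ {u ∈ range #J | f (α (c u)) ∈ Mk}},
    disjoint_left.2 fun z hz m => ?_, fun z hz => ?_, ?_⟩
  · obtain ⟨u, hu, rfl⟩ := mem_image.1 hz
    obtain ⟨u1, -, -, -, u5⟩ := mem_filter.1 hu
    exact u5 (mem_filter.2 ⟨u1, m⟩)
  · obtain ⟨u, hu, rfl⟩ := mem_image.1 hz
    obtain ⟨u1, u2, u3, u4, -⟩ := mem_filter.1 hu
    rw [mem_range] at u1
    obtain ⟨w, rfl⟩ := Nat.exists_eq_add_of_le' u2
    refine ⟨zA _ u1, ⟨α (c (w + 5)), mem_singleton_self _, by simp [k3 _ u1]⟩,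
      fun x hx ⟨r, r1, r2⟩ s s1 s2 => ?_⟩
    have my : y (w + 5) ∈ Y (w + 5) := k2 _ u1 ▸ mem_singleton_self _
    have tz : Tch {f (α (c (w + 5)))} (v (c (w + 5))) := tch_v' (mem_singleton_self _)
    have l1 : f (α (c (w + 5))) ∈ Lf (w + 6 + 2) := twoL hc h4 hA (by omega)
      (rungL hc (by omega) (by omega) my) (zA _ u1) (k4 _ u1) tz
    have l2 : x ∈ Lf (w + 6 + 2 + 2) := twoL hc h4 hA (by omega) l1 hx r1 r2
    have l3 : f (α (c (w + 5))) ∈ Rt (w + 2) := twoR hc h4 hA (by omega)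
      (rungR hc (by omega) u1 my) (zA _ u1) (k4 _ u1) tz
    have l4 : x ∈ Rt w := twoR hc h4 hA (by omega) l3 hx r1 r2
    exact hc.clean w (w + 6 + 2 + 2) (by omega) (by omega) (fun k hk => by
      have := u4 k hk
      omega) s (s1.mono (singleton_subset_iff.2 (mem_inter.2 ⟨l4, l2⟩))) s2
  · rw [card_image_of_injOn (inj.mono (coe_subset.2 (filter_subset _ _)))]
    omega

end RCl

open RCl

theorem cl (hC : CntStmt) (hO : OrdStmt) : ClStmt := by
  intro D _ _ A X R Om Wl Mk N2 h h2 K j hA hX sX sW hG j1 j2 hN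
  have ex : ∀ g ∈ (Wl \ X).erase h2, ∃ Z : Finset (F D), Disjoint Z Mk ∧ (∀ z ∈ Z, z ∉ A ∧
      Ad {z} {g} ∧ ∀ x ∉ A, Meet {z} {x} → ∀ u, Tch {x} u → ∀ q ∈ A \ X, Tch {q} u → q = g) ∧
      #{y ∈ suns h | y ∉ A ∧ y ∉ Om ∧ Meet {y} {g}} ≤ #Z + 11 * (2 * j + #Mk + 1) := by
    intro g hg
    obtain ⟨g1, g2⟩ := mem_sdiff.1 (mem_erase.1 hg).2
    obtain ⟨Z, z1, z2, z3⟩ := wall hC hO hA (sX hX) (sW g1) (fun m => g2 (m ▸ hX))
      {y ∈ suns h | y ∉ A ∧ y ∉ Om ∧ Meet {y} {g}} Mk fun y hy => by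
        obtain ⟨a1, a2, a3, a4⟩ := mem_filter.1 hy
        exact ⟨a2, (mem_filter.1 a1).2, a4, fun u u1 u2 => ((hG y (mem_inter.2
          ⟨a1, mem_sdiff.2 ⟨mem_compl.2 a2, a3⟩⟩)).2.2 u u1 u2).imp fun q m => m.2⟩
    have := j2 g g1
    refine ⟨Z, z1, fun z hz => ⟨(z2 z hz).1, (z2 z hz).2.1, fun x x1 x2 u u1 q q1 q2 => ?_⟩,
      by omega⟩
    obtain ⟨q3, q4⟩ := mem_sdiff.1 q1
    exact ((z2 z hz).2.2 x x1 x2 u u1 (q2.mono (singleton_subset_iff.2 q3))).elim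
      (fun m => absurd (m.2.2 q q3 q2 ▸ hX) q4) fun m => m.2.2 q q3 q2
  choose! Z z1 z2 z3 using ex
  have self : ∀ y : F D, Meet {y} {y} := fun y => by
    obtain ⟨d, rfl⟩ := f_surj y
    exact ⟨v d, tch_v (mem_singleton_self _), tch_v (mem_singleton_self _)⟩
  have adm : ∀ y q : F D, Ad {y} {q} → Meet {y} {q} := fun y q ⟨d, d1, d2⟩ =>
    ⟨v d, tch_v d1, tch_v' d2⟩
  have sub : ∀ g ∈ (Wl \ X).erase h2, g ∈ A \ X := fun g hg =>
    sdiff_subset_sdiff sW Subset.rfl (mem_erase.1 hg).2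
  have z4 : ∀ g ∈ (Wl \ X).erase h2, ∀ z ∈ Z g, ∀ q ∈ A \ X, Meet {z} {q} → q = g :=
    fun g hg z hz q hq ⟨u, u1, u2⟩ => (z2 g hg z hz).2.2 z (z2 g hg z hz).1 (self z) u u1 q hq u2
  have ex : ∀ y ∈ N2 ∪ ((Wl \ X).erase h2).biUnion Z, ∃ b, y ∉ A ∧ y ∉ Mk ∧ b ∈ A \ X ∧
      Ad {y} {b} ∧ ∀ x ∈ A \ X, Meet {y} {x} → x = b := fun y hy => by
    rcases mem_union.1 hy with m | m
    · exact ⟨h2, hN y m⟩
    · obtain ⟨g, hg, m⟩ := mem_biUnion.1 m
      exact ⟨g, (z2 g hg y m).1, disjoint_left.1 (z1 g hg) m, sub g hg, (z2 g hg y m).2.1,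
        z4 g hg y m⟩
  have : Nonempty (F D) := ⟨h⟩
  choose! bs b1 b2 b3 b4 b5 using ex
  have key : ∀ g ∈ (Wl \ X).erase h2, ∀ z ∈ Z g, ∀ y ∈ N2 ∪ ((Wl \ X).erase h2).biUnion Z,
      Meet {z} {y} → bs y = g := fun g hg z hz y hy m => by
    obtain ⟨d, d1, d2⟩ := b4 y hy
    exact (z2 g hg z hz).2.2 y (b1 y hy) m (v d) (tch_v d1) _ (b3 y hy) (tch_v' d2)
  have k2 : ∀ y ∈ N2, bs y = h2 := fun y hy =>
    (hN y hy).2.2.2.2 _ (b3 y (mem_union_left _ hy)) (adm _ _ (b4 y (mem_union_left _ hy)))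
  refine ⟨N2 ∪ ((Wl \ X).erase h2).biUnion Z, bs, ⟨fun y hy => ⟨fun m => b1 y hy
    (mem_sdiff.1 m).1, b3 y hy, b4 y hy, b5 y hy⟩, fun y hy y' hy' m => ?_⟩,
    disjoint_left.2 b1, disjoint_left.2 b2, ?_⟩
  · rcases mem_union.1 hy with a | a
    · rcases mem_union.1 hy' with b | b
      · rw [k2 y a, k2 y' b]
      · obtain ⟨g, hg, b⟩ := mem_biUnion.1 b
        obtain ⟨u, u1, u2⟩ := m
        rw [key g hg y' b y hy ⟨u, u2, u1⟩, key g hg y' b y' hy' (self _)]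
    · obtain ⟨g, hg, a⟩ := mem_biUnion.1 a
      rw [key g hg y a y hy (self _), key g hg y a y' hy' m]
  · have d1 : Disjoint N2 (((Wl \ X).erase h2).biUnion Z) := disjoint_left.2 fun y a b => by
      obtain ⟨g, hg, b⟩ := mem_biUnion.1 b
      exact (mem_erase.1 hg).1 ((key g hg y b y (mem_union_left _ a) (self _)).symm.trans (k2 y a))
    have d2 : ((Wl \ X).erase h2 : Set (F D)).PairwiseDisjoint Z := fun g hg g' hg' n =>
      disjoint_left.2 fun y a b => by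
        have hg := mem_coe.1 hg
        have hg' := mem_coe.1 hg'
        have m : y ∈ N2 ∪ ((Wl \ X).erase h2).biUnion Z :=
          mem_union_right _ (mem_biUnion.2 ⟨g, hg, a⟩)
        exact n ((key g hg y a y m (self _)).symm.trans (key g' hg' y b y m (self _)))
    have c1 : #{y ∈ suns h | y ∉ A ∧ y ∉ Om ∧ ∃ g ∈ Wl \ X, g ≠ h2 ∧ Meet {y} {g}} ≤
        ∑ g ∈ (Wl \ X).erase h2, #{y ∈ suns h | y ∉ A ∧ y ∉ Om ∧ Meet {y} {g}} :=
      (card_le_card fun y hy => by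
        obtain ⟨a1, a2, a3, g, g1, g2, g3⟩ := mem_filter.1 hy
        exact mem_biUnion.2 ⟨g, mem_erase.2 ⟨g2, g1⟩, mem_filter.2 ⟨a1, a2, a3, g3⟩⟩).trans
        card_biUnion_le
    have c2 := sum_le_sum z3
    rw [sum_add_distrib, sum_const, smul_eq_mul] at c2
    have c3 : #((Wl \ X).erase h2) * (11 * (2 * j + #Mk + 1)) ≤ 11 * #Wl * (2 * j + #Mk + 1) := by
      rw [mul_comm 11 #Wl, mul_assoc]
      exact Nat.mul_le_mul_right _ (card_le_card ((erase_subset _ _).trans sdiff_subset))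
    rw [card_union_of_disjoint d1, card_biUnion d2]
    omega

end Pool.Agent.MP_42ec7b_co

end MrgPart0

-- ======== part 1: formerly Pool.Agent.MP_42ec7b_co.A.K33
section MrgPart1

/-!
Planar bounds for touching sets of faces in maps with all degrees four.
-/

set_option autoImplicit false

open Finset

namespace Pool.Agent.MP_42ec7b_co

open Classical

namespace PM

variable {D : Type} [PM D]

lemma four (h4 : ∀ d : D, ρ (ρ (ρ (ρ d))) = d) {c c' : D} (h : v c' = v c) :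
    c' = c ∨ c' = ρ c ∨ c' = ρ (ρ c) ∨ c' = ρ (ρ (ρ c)) :=
  vert_ind (Q := fun e => e = c ∨ e = ρ c ∨ e = ρ (ρ c) ∨ e = ρ (ρ (ρ c))) (Or.inl rfl)
    (fun e _ k => by rcases k with rfl | rfl | rfl | rfl <;> simp [h4]) h

lemma ad_ρ {A B : Finset (F D)} {c : D} (h1 : f c ∈ A) (h2 : f (ρ c) ∈ B) : Ad A B :=
  ⟨c, h1, by rwa [← fρ]⟩

lemma Ad.tch {A B : Finset (F D)} (h : Ad A B) : ∃ u, Tch A u ∧ Tch B u := by
  obtain ⟨d, h1, h2⟩ := h
  exact ⟨v d, tch_v h1, tch_v' h2⟩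

/-- Disjoint sets that touch and are not adjacent lie at opposite corners. -/
lemma opp (h4 : ∀ d : D, ρ (ρ (ρ (ρ d))) = d) {A B : Finset (F D)} {u : V D}
    (hd : ∀ x ∈ A, x ∉ B) (hn : ¬Ad A B) (h1 : Tch A u) (h2 : Tch B u) :
    ∃ c, v c = u ∧ f c ∈ A ∧ f (ρ (ρ c)) ∈ B := by
  obtain ⟨c, rfl, a⟩ := h1
  obtain ⟨c', k, b⟩ := h2
  rcases four h4 k with rfl | rfl | rfl | rfl
  exacts [absurd b (hd _ a), absurd (ad_ρ a b) hn, ⟨c, rfl, a, b⟩,
    absurd (ad_ρ b (by rwa [h4])).symm hn]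

section

variable {ι : Type} {I J : Finset ι} {Y : ι → Finset (F D)} {P : Finset (ι × ι)}

/-- Bipartite bound for touching pairs when no vertex is met by two sets of each class. -/
theorem bip (h4 : ∀ d : D, ρ (ρ (ρ (ρ d))) = d) (hI : (I ∪ J).Nonempty) (hIJ : Disjoint I J)
    (hc : ∀ i ∈ I ∪ J, Conn (Y i))
    (hd : ∀ i ∈ I ∪ J, ∀ j ∈ I ∪ J, ∀ x ∈ Y i, x ∈ Y j → i = j)
    (hP : ∀ p ∈ P, p.1 ∈ I ∧ p.2 ∈ J ∧ ∃ u, Tch (Y p.1) u ∧ Tch (Y p.2) u)
    (hx : ∀ p ∈ P, ∀ q ∈ P, p.1 ≠ q.1 → p.2 ≠ q.2 → ¬Ad (Y p.1) (Y p.2) → ¬Ad (Y q.1) (Y q.2) →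
      ∀ u, Tch (Y p.1) u → Tch (Y p.2) u → Tch (Y q.1) u → Tch (Y q.2) u → False) :
    #P < #I + #J ∨ #P + 4 ≤ 2 * (#I + #J) := by
  obtain ⟨w⟩ := Fintype.card_pos_iff.1 (lt_trans (by omega) (five (D := D)))
  have : Nonempty (V D) := ⟨w⟩
  choose! u hu using fun p hp => (hP p hp).2.2
  refine t8b hI hIJ hc hd (fun p hp => ⟨(hP p hp).1, (hP p hp).2.1⟩) u
    (fun p hp => Or.inr (hu p hp)) fun p hp q hq a b h => by_contra fun n => ?_
  have m1 := fun p hp => mem_union_left J (hP p hp).1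
  have m2 := fun p hp => mem_union_right I (hP p hp).2.1
  have e : ∀ p ∈ P, ∀ q ∈ P, ∀ x ∈ Y p.1, x ∉ Y q.2 := fun p hp q hq x k k' =>
    disjoint_left.1 hIJ (hP p hp).1 (hd _ (m1 p hp) _ (m2 q hq) x k k' ▸ (hP q hq).2.1)
  obtain ⟨c, c1, c2, c3⟩ := opp h4 (e p hp p hp) a (hu p hp).1 (hu p hp).2
  obtain ⟨c', d1, d2, d3⟩ := opp h4 (e q hq q hq) b (hu q hq).1 (hu q hq).2
  have key : p.1 ≠ q.1 ∧ p.2 ≠ q.2 := by
    rcases four h4 (d1.trans (h.symm.trans c1.symm)) with rfl | rfl | rfl | rfl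
    · exact absurd (Prod.ext (hd _ (m1 p hp) _ (m1 q hq) _ c2 d2)
        (hd _ (m2 p hp) _ (m2 q hq) _ c3 d3)) n
    · exact ⟨fun k => b (ad_ρ d3 (by rwa [h4, ← k])).symm, fun k => b (ad_ρ d2 (k ▸ c3))⟩
    · exact absurd c3 (e q hq p hp _ d2)
    · rw [h4] at d3
      exact ⟨fun k => b (ad_ρ (k ▸ c2) d3), fun k => b (ad_ρ (k ▸ c3) d2).symm⟩
  exact hx p hp q hq key.1 key.2 a b _ (hu p hp).1 (hu p hp).2 (h ▸ (hu q hq).1) (h ▸ (hu q hq).2)

/-- Faces have a proper colouring with two colours. -/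
lemma colour (h4 : ∀ d : D, ρ (ρ (ρ (ρ d))) = d) :
    ∃ y : F D → ZMod 2, ∀ d, y (f d) + y (f (α d)) = 1 := by
  obtain ⟨y, hy⟩ := exact_f (D := D) (fun _ => 1) (fun _ => rfl) fun u => by
    obtain ⟨c, rfl⟩ := v_surj u
    rw [show univ.filter (v · = v c) = {c, ρ c, ρ (ρ c), ρ (ρ (ρ c))} from ext fun e => by
      simp only [mem_filter, mem_univ, true_and, mem_insert, mem_singleton]
      exact ⟨four h4, by rintro (rfl | rfl | rfl | rfl) <;> simp⟩]
    have a1 := ρne c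
    have a2 := ρρne c
    have a3 := ρρρne c
    rw [sum_insert (by simp [a1.symm, a2.symm, a3.symm]), sum_insert (by simp [a1.symm, a2.symm]),
      sum_pair (by simp [a1.symm])]
    rfl
  exact ⟨y, fun d => (hy d).symm⟩

/-- At most `6 v` touching pairs. -/
theorem touch6 (h4 : ∀ d : D, ρ (ρ (ρ (ρ d))) = d) (hc : ∀ i ∈ I, Conn (Y i))
    (hd : ∀ i ∈ I, ∀ j ∈ I, ∀ x ∈ Y i, x ∈ Y j → i = j)
    (hP : ∀ p ∈ P, p.1 ∈ I ∧ p.2 ∈ I ∧ p.1 ≠ p.2 ∧ p.swap ∉ P)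
    (hl : ∀ p ∈ P, ∃ u, Tch (Y p.1) u ∧ Tch (Y p.2) u) : #P ≤ 6 * #I := by
  obtain ⟨y, hy⟩ := colour h4
  have ex : ∀ p, ∃ c, p ∈ P → ¬Ad (Y p.1) (Y p.2) → f c ∈ Y p.1 ∧ f (ρ (ρ c)) ∈ Y p.2 := fun p => by
    by_cases h : p ∈ P ∧ ¬Ad (Y p.1) (Y p.2)
    · obtain ⟨u, a, b⟩ := hl p h.1
      obtain ⟨n1, n2, n3, -⟩ := hP p h.1
      obtain ⟨c, -, k⟩ := opp h4 (fun x k k' => n3 (hd _ n1 _ n2 x k k')) h.2 a b
      exact ⟨c, fun _ _ => k⟩
    · obtain ⟨w⟩ := Fintype.card_pos_iff.1 (lt_trans (by omega) (five (D := D)))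
      exact ⟨(v_surj w).choose, fun a b => absurd ⟨a, b⟩ h⟩
  choose c hc' using ex
  have key : ∀ t, #(P.filter fun p => y (f (c p)) = t) ≤ 3 * #I := fun t => by
    refine t8 hc hd (fun p hp => ?_) (fun p => v (c p)) (fun p hp => ?_) fun p hp q hq a b h => ?_
    · obtain ⟨n1, n2, n3, n4⟩ := hP p (mem_filter.1 hp).1
      exact ⟨n1, n2, n3, fun k => n4 (mem_filter.1 k).1⟩
    · by_cases k : Ad (Y p.1) (Y p.2)
      · exact Or.inl k
      · obtain ⟨a, b⟩ := hc' p (mem_filter.1 hp).1 k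
        exact Or.inr ⟨tch_v a, _, by simp, b⟩
    · obtain ⟨p1, p2⟩ := mem_filter.1 hp
      obtain ⟨q1, q2⟩ := mem_filter.1 hq
      obtain ⟨a1, a2⟩ := hc' p p1 a
      obtain ⟨b1, b2⟩ := hc' q q1 b
      obtain ⟨n1, n2, -, n4⟩ := hP p p1
      obtain ⟨n5, n6, -⟩ := hP q q1
      have z : ∀ e : D, y (f (ρ e)) ≠ y (f e) := fun e k => by
        have := hy e
        rw [← fρ, k, z2_add_self] at this
        exact zero_ne_one this
      rcases four h4 h.symm with k | k | k | k <;> rw [k] at b1 b2 q2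
      · exact Prod.ext (hd _ n1 _ n5 _ a1 b1) (hd _ n2 _ n6 _ a2 b2)
      · exact absurd (q2.trans p2.symm) (z _)
      · rw [h4] at b2
        exact absurd q1 (by
          rwa [← show p.swap = q from Prod.ext (hd _ n2 _ n5 _ a2 b1) (hd _ n1 _ n6 _ a1 b2)])
      · exact absurd (by rw [h4, p2, q2]) (z (ρ (ρ (ρ (c p)))))
  have := card_filter_add_card_filter_not (s := P) fun p => y (f (c p)) = 0
  have k0 := key 0
  have k1 := key 1
  rw [filter_congr (q := fun p => ¬y (f (c p)) = 0) fun p _ => by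
    generalize y (f (c p)) = t; revert t; decide] at k1
  omega

end

/-- The dual graph has at most `2 s` edges inside a set of `s` faces. -/
theorem edges (h4 : ∀ d : D, ρ (ρ (ρ (ρ d))) = d) (S : Finset (F D)) :
    #{d | f d ∈ S ∧ f (α d) ∈ S} ≤ 4 * #S := by
  obtain ⟨y, hy⟩ := colour h4
  rcases S.eq_empty_or_nonempty with rfl | hS
  · simp
  have key : ∀ t, #{d | (f d ∈ S ∧ f (α d) ∈ S) ∧ y (f d) = t} ≤ 2 * #S := fun t => by
    have e := filter_union_filter_not_eq (p := fun x => y x = t) S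
    have := t8b (Y := fun x => ({x} : Finset (F D))) (I := S.filter fun x => y x = t)
      (J := S.filter fun x => ¬y x = t) (P := ({d | (f d ∈ S ∧ f (α d) ∈ S) ∧ y (f d) = t} :
        Finset D).image fun d => (f d, f (α d))) (by rwa [e]) (disjoint_filter_filter_not _ _ _)
      (fun x _ => conn_single x) (fun i _ j _ x a b => (mem_singleton.1 a).symm.trans
        (mem_singleton.1 b)) (fun p hp => ?_) (fun _ => v (f_surj hS.choose).choose)
      (fun p hp => ?_) fun p hp q _ a => ?_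
    · rw [card_image_of_injOn fun d _ d' _ k => s1 (Prod.ext_iff.1 k).1 (Prod.ext_iff.1 k).2,
        card_filter_add_card_filter_not] at this
      omega
    all_goals
      obtain ⟨d, hd, rfl⟩ := mem_image.1 hp
      obtain ⟨⟨a1, a2⟩, a3⟩ := (mem_filter.1 hd).2
    · refine ⟨mem_filter.2 ⟨a1, a3⟩, mem_filter.2 ⟨a2, fun k => ?_⟩⟩
      have := hy d
      rw [a3, k, z2_add_self] at this
      exact zero_ne_one this
    · exact Or.inl ⟨d, mem_singleton_self _, mem_singleton_self _⟩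
    · exact absurd ⟨d, mem_singleton_self _, mem_singleton_self _⟩ a
  have := card_filter_add_card_filter_not (s := {d | f d ∈ S ∧ f (α d) ∈ S}) fun d => y (f d) = 0
  have k0 := key 0
  have k1 := key 1
  rw [filter_congr (q := fun d => (f d ∈ S ∧ f (α d) ∈ S) ∧ ¬y (f d) = 0) fun p _ =>
    and_congr_right fun _ => by generalize y (f p) = t; revert t; decide] at k1
  rw [filter_filter, filter_filter] at this
  omega

/-- At most `6 s` vertices are met by two faces of a set of `s` faces in opposite corners. -/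
theorem diags (h4 : ∀ d : D, ρ (ρ (ρ (ρ d))) = d) (S : Finset (F D)) :
    #{u | ∃ c, v c = u ∧ f c ∈ S ∧ f (ρ (ρ c)) ∈ S} ≤ 6 * #S := by
  have dg : ∀ c : D, Diag (f c) (f (ρ (ρ c))) (v c) := fun c =>
    ⟨c, _, rfl, by simp, rfl, rfl, (ρρne c).symm, fun k => ρne c (ρ.injective k).symm, ρρρne c⟩
  have ex : ∀ u, ∃ c, v c = u ∧
      ((∃ c, v c = u ∧ f c ∈ S ∧ f (ρ (ρ c)) ∈ S) → f c ∈ S ∧ f (ρ (ρ c)) ∈ S) := fun u => by
    by_cases h : ∃ c, v c = u ∧ f c ∈ S ∧ f (ρ (ρ c)) ∈ S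
    · exact h.imp fun c k => ⟨k.1, fun _ => k.2⟩
    · exact (v_surj u).imp fun c k => ⟨k, fun m => absurd m h⟩
  choose c c1 c2 using ex
  have one : ∀ u u', Tch {f (c u)} u' → Tch {f (ρ (ρ (c u)))} u' → u' = u := fun u u' a b =>
    ((dg (c u)).only a b).trans (c1 u)
  have t1 : ∀ u, Tch {f (c u)} u := fun u => ⟨_, c1 u, mem_singleton_self _⟩
  have t2 : ∀ u, Tch {f (ρ (ρ (c u)))} u := fun u => ⟨_, by simp [c1], mem_singleton_self _⟩
  rw [← card_image_of_injOn (f := fun u => (f (c u), f (ρ (ρ (c u))))) fun u _ u' _ k =>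
    one u' u ((Prod.mk.inj k).1 ▸ t1 u) ((Prod.mk.inj k).2 ▸ t2 u)]
  refine touch6 (Y := fun x => ({x} : Finset (F D))) h4 (fun x _ => conn_single x)
    (fun i _ j _ x a b => (mem_singleton.1 a).symm.trans (mem_singleton.1 b)) (fun p hp => ?_)
    fun p hp => ?_
  all_goals obtain ⟨u, hu, rfl⟩ := mem_image.1 hp
  · refine ⟨(c2 u (mem_filter.1 hu).2).1, (c2 u (mem_filter.1 hu).2).2, (dg _).ne, fun k => ?_⟩
    obtain ⟨u', -, k⟩ := mem_image.1 k
    obtain ⟨k1, k2⟩ := Prod.mk.inj k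
    obtain rfl := one u' u (k1 ▸ t2 u) (k2 ▸ t1 u)
    exact (dg _).ne k1
  · exact ⟨u, t1 u, t2 u⟩

/-- No three disjoint connected sets touch each of three others, crossings excluded. -/
theorem k33 (h4 : ∀ d : D, ρ (ρ (ρ (ρ d))) = d) (A B : Fin 3 → Finset (F D))
    (cA : ∀ i, Conn (A i)) (cB : ∀ j, Conn (B j)) (dA : ∀ i j, ∀ x ∈ A i, x ∈ A j → i = j)
    (dB : ∀ i j, ∀ x ∈ B i, x ∈ B j → i = j) (dAB : ∀ i j, ∀ x ∈ A i, x ∉ B j)
    (hl : ∀ i j, ∃ u, Tch (A i) u ∧ Tch (B j) u)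
    (hx : ∀ i i' j j', i ≠ i' → j ≠ j' → ¬Ad (A i) (B j) → ¬Ad (A i') (B j') →
      ∀ u, Tch (A i) u → Tch (B j) u → Tch (A i') u → Tch (B j') u → False) : False := by
  have := bip (ι := Fin 3 ⊕ Fin 3) (I := univ.map Function.Embedding.inl)
    (J := univ.map Function.Embedding.inr) (Y := Sum.elim A B)
    (P := univ.map Function.Embedding.inl ×ˢ univ.map Function.Embedding.inr) h4
    ⟨Sum.inl 0, by simp⟩ (by simp [disjoint_left]) (by rintro (i | i) -; exacts [cA i, cB i])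
    (by
      rintro (i | i) - (j | j) - x a b
      exacts [congrArg _ (dA i j x a b), absurd b (dAB i j x a), absurd a (dAB j i x b),
        congrArg _ (dB i j x a b)])
    (by
      rintro ⟨p, q⟩ h
      obtain ⟨a, b⟩ := mem_product.1 h
      obtain ⟨i, -, rfl⟩ := mem_map.1 a
      obtain ⟨j, -, rfl⟩ := mem_map.1 b
      exact ⟨a, b, hl i j⟩)
    (by
      rintro ⟨p, q⟩ h ⟨p', q'⟩ h' a b
      obtain ⟨i, -, rfl⟩ := mem_map.1 (mem_product.1 h).1
      obtain ⟨j, -, rfl⟩ := mem_map.1 (mem_product.1 h).2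
      obtain ⟨i', -, rfl⟩ := mem_map.1 (mem_product.1 h').1
      obtain ⟨j', -, rfl⟩ := mem_map.1 (mem_product.1 h').2
      exact hx i i' j j' (fun k => a (congrArg Sum.inl k)) fun k => b (congrArg Sum.inr k))
  simp at this

end PM

end Pool.Agent.MP_42ec7b_co

end MrgPart1

-- ======== part 2: formerly Pool.Agent.MP_42ec7b_co.A.RMain
section MrgPart2

/-!
The choice of all constants.
-/

set_option autoImplicit false

open Finset

namespace Pool.Agent.MP_42ec7b_co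

open Classical PM

namespace RMain

lemma div2 {k n : ℕ} (h0 : 0 < k) (h : k ≤ n) : n ≤ 2 * k * (n / k) := by
  have a := Nat.div_add_mod n k
  have b := Nat.mod_lt n h0
  have c := Nat.le_mul_of_pos_right k (Nat.div_pos h h0)
  rw [mul_assoc]
  omega

lemma cmp {a b x y n : ℕ} (h0 : 0 < b) (h1 : a * x ≤ n) (h2 : n ≤ b * y) {k : ℕ}
    (h : b * k ≤ a) : k * x ≤ y :=
  Nat.le_of_mul_le_mul_left (c := b)
    (by rw [← mul_assoc]; exact ((Nat.mul_le_mul_right x h).trans h1).trans h2) h0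

variable {D : Type} [PM D] {s S w e e' r : ℕ} {A P R : Finset (F D)}

lemma sz_le {x : F D} (h : x ∈ A) : sz x ≤ wt A := by
  rw [← wt_single]
  exact wt_mono (singleton_subset_iff.2 h)

lemma seed_mono (h : Seed0 w e r A P R) (k : e ≤ e') : Seed0 w e' r A P R := by
  obtain ⟨X, x1, x2, x3⟩ := h.flx
  exact { h with flx := ⟨X, x1, by omega, x3⟩ }

lemma seed (h : Seed0 w e r A P R) (h1 : s ≤ r) (h2 : r < S) :
    ∃ L, Seed s S w e (2 * r) A P R L := by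
  obtain ⟨x, hx⟩ := h.wP
  have one : #(hvy S P) ≤ 1 := by
    refine (card_le_card (t := {x}) fun y hy => ?_).trans (card_singleton x).le
    rw [hvy, mem_filter] at hy
    by_contra n
    have := sz_le (mem_erase.2 ⟨by simpa using n, hy.1⟩)
    omega
  have cR := h.cR
  by_cases k : x ∈ P ∧ s < sz x
  · exact ⟨{x}, h.disc, h.sub, h.conn, h.ne, h.dis, by omega, by simpa using k.1, by simp,
      by simpa using k.2, by rw [sdiff_singleton_eq_erase]; omega, one, h.flx⟩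
  · refine ⟨∅, h.disc, h.sub, h.conn, h.ne, h.dis, by omega, by simp, by simp, by simp, ?_, one,
      h.flx⟩
    rw [sdiff_empty]
    by_cases m : x ∈ P
    · have a : wt P ≤ wt ({x} ∪ P.erase x) := wt_mono (by rw [← insert_eq, insert_erase m])
      have b := wt_union_le (S := {x}) (T := P.erase x)
      rw [wt_single] at b
      have : ¬s < sz x := fun q => k ⟨m, q⟩
      omega
    · rw [erase_eq_of_notMem m] at hx
      omega

lemma miss_add (a b c : ℕ) : miss D a (b + c) ≤ miss D a b + c := by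
  unfold miss
  refine (card_le_card (t := {k ∈ Ico a b | ¬Has D k} ∪ Ico b (b + c)) fun k hk => ?_).trans
    ((card_union_le _ _).trans (by simp))
  simp only [mem_filter, mem_Ico, mem_union] at hk ⊢
  by_cases q : k < b
  · exact Or.inl ⟨⟨hk.1.1, q⟩, hk.2⟩
  · exact Or.inr ⟨by omega, hk.1.2⟩

lemma miss_mono (a : ℕ) {b c : ℕ} (h : b ≤ c) : miss D a b ≤ miss D a c :=
  card_le_card (filter_subset_filter _ (Ico_subset_Ico_right h))

lemma med_mono (A : Finset (F D)) : med s S A ≤ med s S (univ : Finset (F D)) :=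
  wt_mono (filter_subset_filter _ (subset_univ _))

lemma rank_le (A P : Finset (F D)) : rank S A P ≤ 2 * #(hvy S (univ : Finset (F D))) + 1 := by
  have : #(hvy S A) ≤ #(hvy S (univ : Finset (F D))) :=
    card_le_card (filter_subset_filter _ (subset_univ _))
  unfold rank
  split_ifs <;> omega

lemma tri_le (hC : CntStmt) [Q4 D] (h : 3 ≤ s) : #(tri (univ : Finset (F D))) ≤
    tau D s + 2 * (med s S (univ : Finset (F D)) + wt (hvy S (univ : Finset (F D)))) := by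
  have a := (hC D).2.2.2.2.2.2.2.1 (big s univ)
  have b : wt (big s (univ : Finset (F D))) ≤ _ := (wt_mono (T := (univ.filter fun x =>
      s < sz x ∧ sz x < S) ∪ hvy S univ) fun x hx => by
    simp only [big, hvy, mem_filter, mem_univ, true_and, mem_union] at hx ⊢
    omega).trans wt_union_le
  refine le_trans ?_ (Nat.add_le_add_left (a.trans (Nat.mul_le_mul_left 2 b)) _)
  refine (card_le_card fun t ht => ?_).trans (card_union_le _ _)
  simp only [tri, big, mem_filter, mem_univ, true_and, mem_union] at ht ⊢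
  by_cases q : ∃ g g', g ≠ g' ∧ s < sz g ∧ s < sz g' ∧ Meet {t} {g} ∧ Meet {t} {g'}
  · obtain ⟨g, -, -, q1, -, ⟨u, q2, q3⟩, -⟩ := q
    exact Or.inr ⟨by omega, u, q2, q3.mono (by simpa using q1)⟩
  · exact Or.inl ⟨ht, q⟩

/-- The total size of the faces smaller than `S`. -/
noncomputable def low (D : Type) [PM D] (S : ℕ) : ℕ := wt (univ.filter fun x : F D => sz x < S)

lemma low_add (h : s < S) : low D s + med s S (univ : Finset (F D)) ≤ low D S := by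
  unfold low med
  rw [← wt_union (disjoint_left.2 fun x a b => by
    simp only [mem_filter, mem_univ, true_and] at a b
    omega)]
  refine wt_mono fun x hx => ?_
  simp only [mem_filter, mem_univ, true_and, mem_union] at hx ⊢
  omega

lemma med_low : med s S (univ : Finset (F D)) ≤ low D S :=
  wt_mono fun x hx => by
    simp only [mem_filter, mem_univ, true_and] at hx ⊢
    exact hx.2

lemma window (hC : CntStmt) (I M0 : ℕ) (G : (D : Type) → [PM D] → Prop)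
    (h : ∀ M, M0 ≤ M → ∃ M' k, M0 ≤ M' ∧ ∀ (D : Type) [PM D] [Q4 D], k ≤ nv D →
      nv D / M' < nv D / M ∧
        (I * med (nv D / M') (nv D / M) (univ : Finset (F D)) ≤ 4 * nv D → G D)) :
    ∃ k, ∀ (D : Type) [PM D] [Q4 D], k ≤ nv D → G D := by
  have key : ∀ j M, M0 ≤ M → ∃ k, ∀ (D : Type) [PM D] [Q4 D], k ≤ nv D →
      I * low D (nv D / M) ≤ (j + 1) * (4 * nv D) → G D := by
    intro j
    induction j with
    | zero =>
      intro M hM
      obtain ⟨M', k, -, q⟩ := h M hM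
      exact ⟨k, fun D _ _ a b =>
        (q D a).2 ((Nat.mul_le_mul_left I med_low).trans (by simpa using b))⟩
    | succ j ih =>
      intro M hM
      obtain ⟨M', k, m, q⟩ := h M hM
      obtain ⟨k', q'⟩ := ih M' m
      refine ⟨k + k', fun D _ _ a b => ?_⟩
      obtain ⟨q1, q2⟩ := q D (by omega)
      by_cases c : I * med (nv D / M') (nv D / M) (univ : Finset (F D)) ≤ 4 * nv D
      · exact q2 c
      · refine q' D (by omega) ?_
        have := Nat.mul_le_mul_left I (low_add (D := D) q1)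
        rw [mul_add] at this
        rw [add_mul (j + 1), one_mul] at b
        omega
  obtain ⟨k, q⟩ := key I M0 le_rfl
  refine ⟨k, fun D _ _ a => q D a (Nat.mul_le_mul (Nat.le_succ I) ?_)⟩
  rw [← (hC D).2.1]
  exact wt_mono (subset_univ _)

end RMain

open RMain

theorem main (hC : CntStmt) (hM : MoveStmt) (hP : ProcStmt) (hR : RangeStmt) (hS : CsStmt)
    (h1 : Top1Stmt) (h2 : Top2Stmt) (hE : EarStmt) (hL : LightStmt) : MainStmt := by
  intro T0
  obtain ⟨T, hT, hT0⟩ : ∃ T, 0 < T ∧ T0 ≤ T := ⟨T0 + 1, by omega, by omega⟩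
  obtain ⟨G, hG⟩ : ∃ G, G = 800 * (T * T) := ⟨_, rfl⟩
  have TT : T ≤ T * T := Nat.le_mul_self T
  refine window hC (512 * T * G) (8 * T) (fun D _ => T0 * miss D 0 (nv D + 1) ≤ nv D)
    fun M hM0 => ?_
  obtain ⟨a, ha⟩ : ∃ a, a = 2 * G * (2 * (16 * M + 1)) := ⟨_, rfl⟩
  obtain ⟨b0, hM⟩ := hM (8 * M) a
  obtain ⟨b, b1, b2, b3⟩ : ∃ b, b0 ≤ b ∧ 2 * M + 1 ≤ b ∧ 2 * G ≤ b :=
    ⟨b0 + 2 * M + 1 + 2 * G, by omega, by omega, by omega⟩
  obtain ⟨cM, hM⟩ := hM b b1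
  obtain ⟨cC, kC, hS⟩ := hS (8 * M) (4 * G) a (8 * T) (2 * (2 * b))
  obtain ⟨c1, h1⟩ := h1 (3200 * T) (2 * (2 * b)) (4 * G)
  obtain ⟨c2, h2⟩ := h2 (16 * T) (8 * M)
  obtain ⟨cE, hE⟩ := hE c2 (2 * (2 * b))
  obtain ⟨c, d1, d2, d3, d4, d5⟩ : ∃ c, cM ≤ c ∧ cC ≤ c ∧ c1 ≤ c ∧ cE ≤ c ∧ 2 * (2 * b) ≤ c :=
    ⟨cM + cC + c1 + cE + 2 * (2 * b), by omega, by omega, by omega, by omega, by omega⟩
  obtain ⟨kM, hM⟩ := hM (2 * (8 * c))
  obtain ⟨K, hK⟩ : ∃ K, K = kM + kC + c1 + 4 * G + 16 * M + 3 + c2 := ⟨_, rfl⟩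
  refine ⟨8 * c, 8 * c * K, by omega, fun D _ _ hn => ?_⟩
  obtain ⟨-, C1, -, -, C2, -, -, -, -, -, -, C3⟩ := hC D
  generalize hnn : nv D = n at *
  have K1 : 8 * c ≤ n := (Nat.le_mul_of_pos_right _ (by omega)).trans hn
  have K2 : K ≤ n := (Nat.le_mul_of_pos_left _ (by omega)).trans hn
  have hs : K ≤ n / (8 * c) := (Nat.le_div_iff_mul_le (by omega)).2 (by rwa [mul_comm])
  have s1 := Nat.mul_div_le n (8 * c)
  have s2 := div2 (k := 8 * c) (by omega) K1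
  have S1 := Nat.mul_div_le n M
  have S2 := div2 (k := M) (n := n) (by omega) (by omega)
  have w1 := Nat.mul_div_le n c
  have w2 := div2 (k := c) (n := n) (by omega) (by omega)
  have r1 := Nat.mul_div_le n (2 * b)
  have r2 := div2 (k := 2 * b) (n := n) (by omega) (by omega)
  have z1 := Nat.mul_div_le n G
  have z2 := div2 (k := G) (n := n) (by omega) (by omega)
  have t1 := Nat.mul_div_le n (8 * T)
  have t2 : n < 8 * T * (n / (8 * T) + 1) := Nat.lt_mul_div_succ n (by omega)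
  have St : n / M ≤ n / (8 * T) := Nat.div_le_div_left hM0 (by omega)
  generalize n / (8 * c) = s at *
  generalize n / M = S at *
  generalize n / c = w at *
  generalize n / (2 * b) = r at *
  generalize n / G = z at *
  generalize n / (8 * T) = θ at *
  have sw : 4 * s ≤ w := cmp (by omega) s1 w2 (by omega)
  have wr : 1 * w ≤ r := cmp (by omega) w1 r2 (by omega)
  have rz : 2 * r ≤ z := cmp (by omega) r1 z2 (by omega)
  have rS : 2 * r < S := by
    by_contra q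
    have a1 : (2 * M + 1) * S ≤ b * (2 * r) := Nat.mul_le_mul b2 (not_lt.1 q)
    rw [add_mul, one_mul, ← mul_assoc, mul_comm b] at a1
    have : S = 0 := by omega
    rw [this] at S2
    omega
  refine ⟨by omega, fun hm => ?_⟩
  generalize hmm : med s S (univ : Finset (F D)) = m at *
  have mz : 64 * T * m ≤ z := cmp (b := 4 * (2 * G)) (by omega) hm
    ((Nat.mul_le_mul_left 4 z2).trans (mul_assoc _ _ _).ge) (le_of_eq (by ring))
  have mT : m ≤ T * m := Nat.le_mul_of_pos_left _ hT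
  rw [mul_assoc] at mz
  have H1 : #(hvy S (univ : Finset (F D))) ≤ 8 * M := by
    have a1 := (C2 (hvy S univ) S fun x hx => (mem_filter.1 hx).2).trans
      ((wt_mono (subset_univ _)).trans C1.le)
    refine Nat.le_of_mul_le_mul_left (c := S) (a1.trans ?_) (by omega)
    rw [mul_comm S, mul_assoc]
    rw [mul_assoc] at S2
    omega
  have E1 := Nat.mul_div_le z (16 * M + 1)
  have E2 : n ≤ a * (z / (16 * M + 1)) := by
    rw [ha, mul_assoc]
    exact z2.trans (Nat.mul_le_mul_left _ (div2 (by omega) (by omega)))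
  generalize z / (16 * M + 1) = E at *
  have Ez : E ≤ z := (Nat.le_mul_of_pos_left _ (by omega)).trans E1
  have e1 : w ≤ 4 * G * (w / (4 * G) + 1) := (Nat.lt_mul_div_succ w (by omega)).le
  have e2 : 2 * G * (w / (4 * G) + 1) ≤ w := by
    have := Nat.mul_div_le w (4 * G)
    rw [mul_add, mul_one, mul_assoc]
    rw [mul_assoc] at this
    omega
  generalize w / (4 * G) + 1 = e at *
  have cw : ∀ x ≤ c, x * w ≤ n := fun x hx => (Nat.mul_le_mul_right w hx).trans w1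
  have cs : ∀ x ≤ c, x * s ≤ n := fun x hx => (Nat.mul_le_mul_right s (by omega)).trans s1
  have r3 : b * (2 * r) ≤ n := by rwa [← mul_assoc, mul_comm b]
  have r4 : n ≤ 2 * b * (2 * r) := r2.trans (le_of_eq (by ring))
  have fin : ∀ A P R : Finset (F D), Seed0 w e r A P R → n ≤ ell A + r →
      T0 * miss D 0 (n + 1) ≤ n := by
    intro A P R hA hl
    obtain ⟨L, hA⟩ := seed (s := s) (S := S) hA (by omega) (by omega)
    have k1 := hR D s S w e (2 * r) θ (3 * z) (2 * z) St (fun μ A P R L m1 m2 m3 => ?_)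
      (fun x hx => ?_) A P R L hA
    · have k2 : miss D 0 (n + 1) ≤ _ :=
        (miss_mono 0 (Nat.succ_le_succ hl)).trans (miss_add 0 (ell A) (r + 1))
      have k3 : #{x : F D | θ < sz x} < 32 * T := by
        have a1 := (C2 {x : F D | θ < sz x} (θ + 1) fun x hx => (mem_filter.1 hx).2).trans
          ((wt_mono (subset_univ _)).trans C1.le)
        refine Nat.lt_of_mul_lt_mul_left (a := θ + 1) (a1.trans_lt ?_)
        rw [mul_comm (θ + 1), mul_assoc]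
        rw [mul_assoc] at t2
        omega
      have k4 : (#{x : F D | θ < sz x} + 1) * (3 * z + 2 * z + 2 * r) ≤ 32 * T * (6 * z) :=
        Nat.mul_le_mul k3 (by omega)
      have k5 : miss D 0 (n + 1) ≤ θ + 32 * T * (6 * z) + 2 * z := by omega
      have k6 : T * z ≤ T * T * z := Nat.mul_le_mul_right z TT
      have k7 : T * (θ + 32 * T * (6 * z) + 2 * z) = T * θ + 192 * (T * T * z) + 2 * (T * z) := by
        ring
      have k8 := Nat.mul_le_mul hT0 k5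
      rw [hG, mul_assoc] at z1
      rw [mul_assoc] at t1
      omega
    · have k2 := hP D s S w e (2 * r) E μ (μ + 2 * r) (by omega) (by omega) (by omega)
        (fun A P R L q => hM D s S w e (2 * r) E A P R L (hnn ▸ r3) (hnn ▸ r4) (hnn ▸ cw _ d1) sw
          (hnn ▸ s2) (by omega) rS (hnn ▸ E2) H1 q) A P R L m2 (fun x a _ => m3 x a) _ le_rfl
      have k3 : e * ell A ≤ w * z := ((Nat.mul_le_mul_left e ((C3 A m2.disc).1.trans z2)).trans
        (le_of_eq (by ring))).trans (Nat.mul_le_mul_right z e2)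
      have k4 : E * rank S A P ≤ z := ((Nat.mul_le_mul_left E ((rank_le A P).trans
        (by omega))).trans (mul_comm _ _).le).trans E1
      have k5 : med s S A ≤ m := hmm ▸ med_mono A
      refine Nat.le_of_mul_le_mul_left (c := w) (k2.trans ?_) (by omega)
      have k6 : w * (3 * med s S A + E * rank S A P) ≤ w * (2 * z) :=
        Nat.mul_le_mul_left w (by omega)
      have k7 : w * (3 * z) = w * z + w * (2 * z) := by ring
      omega
    · have k2 : n ≤ 8 * T * sz x := t2.le.trans (Nat.mul_le_mul_left _ hx)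
      have k3 : 4 * z ≤ sz x := cmp (by omega) z1 k2 (by omega)
      have k4 : 32 * (8 * T) * m = 256 * (T * m) := by ring
      have k5 : 8 * (8 * T) * m = 64 * (T * m) := by ring
      obtain ⟨A, P, R, a1, a2, a3⟩ := hS D s S w e r E (sz x) (hnn ▸ cw _ d2) (hnn ▸ cs _ d2)
        (by omega) (by omega) e1 (hnn ▸ r2) (by omega) (by omega) H1 (hnn ▸ k2) (hnn ▸ E2)
        ⟨x, le_rfl⟩ (by rw [hmm]; omega)
      obtain ⟨L, a1⟩ := seed (s := s) (S := S) a1 (by omega) (by omega)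
      rw [hmm] at a3
      exact ⟨A, P, R, L, a1, a2, by omega⟩
  have gz : T * z ≤ T * T * z := Nat.mul_le_mul_right z TT
  have tm : 64 * (T * (T * m)) ≤ T * z := by
    rw [mul_left_comm]
    exact Nat.mul_le_mul_left T mz
  have tm' : T * m ≤ T * (T * m) := Nat.le_mul_of_pos_left _ hT
  have z3 := z1
  rw [hG, mul_assoc] at z3
  by_cases q1 : n ≤ 3200 * T * tau D s
  · obtain ⟨A, P, R, a1, a2⟩ := h1 D s w e r (hnn ▸ cs _ d3) (hnn ▸ cw _ d3) (by omega) e1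
      (hnn ▸ r2) (by omega) (hnn ▸ q1)
    exact fin A P R a1 (hnn ▸ a2)
  rw [mul_assoc] at q1
  by_cases q2 : n ≤ 16 * T * wt (hvy S (univ : Finset (F D)))
  · obtain ⟨A, Er, a1, a2, a3, a4⟩ := h2 D s S (by omega) (by omega) (by omega) H1 (hnn ▸ q2) (by
      rw [hmm]
      refine Nat.le_of_mul_le_mul_left (c := T) ?_ hT
      rw [mul_assoc] at q2
      have : T * (100 * (tau D s + m)) = 100 * (T * tau D s) + 100 * (T * m) := by ring
      omega)
    obtain ⟨P, R, a5⟩ := hE D w r A Er (by omega) (hnn ▸ cw _ d4) (hnn ▸ r2) a1 a3 a4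
    exact fin A P R (seed_mono a5 (Nat.zero_le _)) (by omega)
  · have a1 := hL D
    have a2 := tri_le (D := D) (s := s) (S := S) hC (by omega)
    rw [hnn] at a1
    rw [hmm] at a2
    rw [mul_assoc] at q2
    have a3 := Nat.mul_le_mul hT0 (a1.trans (Nat.add_le_add_right a2 10))
    have a4 : T * (tau D s + 2 * (m + wt (hvy S (univ : Finset (F D)))) + 10) = T * tau D s +
      2 * (T * m) + 2 * (T * wt (hvy S (univ : Finset (F D)))) + 10 * T := by ring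
    omega

end Pool.Agent.MP_42ec7b_co

end MrgPart2

-- ======== part 3: formerly Pool.Agent.MP_42ec7b_co.A.RMove
section MrgPart3

/-!
One step of the process.
-/

set_option autoImplicit false

open Finset

namespace Pool.Agent.MP_42ec7b_co

open Classical PM

namespace MoveA

variable {D : Type} [PM D] {s S w e r E K dep : ℕ} {A A' P R L X Z T Om Wl N J : Finset (F D)}
  {h h2 y : F D}

/-- Good neighbours of `h` that meet only `h` and faces of `Z`. -/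
noncomputable def add (A Om : Finset (F D)) (h : F D) (Z : Finset (F D)) : Finset (F D) :=
  (suns h).filter fun y => y ∉ A ∧ y ∉ Om ∧ ∀ x ∈ A, Meet {y} {x} → x = h ∨ x ∈ Z

lemma good0 (k : Good A R h K dep Om Wl) : Good A R h K 0 Om Wl := by
  have a : ∀ n, ball (Aᶜ \ Om) (suns h) 0 ⊆ ball (Aᶜ \ Om) (suns h) n := fun n => by
    induction n with
    | zero => exact Subset.rfl
    | succ n ih => exact ih.trans subset_union_left
  exact fun x hx => k x (a _ hx)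

lemma add_N (k : Good A R h K 0 Om Wl) (hy : y ∈ add A Om h Z) : y ∉ A ∧ y ∉ R ∧ sz y ≤ K ∧
    Ad {y} {h} ∧ ∀ x ∈ A, x ∉ Z → Meet {y} {x} → x = h := by
  obtain ⟨a, b, c, d⟩ := mem_filter.1 hy
  obtain ⟨k1, k2, -⟩ := k y (mem_inter.2 ⟨a, mem_sdiff.2 ⟨mem_compl.2 b, c⟩⟩)
  exact ⟨b, k2, k1, (mem_filter.1 a).2, fun x x1 x2 x3 => (d x x1 x3).resolve_right x2⟩

lemma add_J (k : Good A R h K 0 Om Wl) (a : y ∈ suns h) (b : y ∉ A) (c : y ∉ Om) :
    y ∈ add A Om h Z ∨ ∃ g ∈ Wl, g ≠ h ∧ g ∉ Z ∧ Meet {y} {g} ∧ Expo A g := by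
  refine or_iff_not_imp_left.2 fun m => ?_
  simp only [add, mem_filter, a, b, c, not_false_eq_true, true_and, not_forall, not_or] at m
  obtain ⟨x, x1, ⟨u, x2, x3⟩, x4, x5⟩ := m
  obtain ⟨g, g1, g2⟩ := (k y (mem_inter.2 ⟨a, mem_sdiff.2 ⟨mem_compl.2 b, c⟩⟩)).2.2 u x2
    (x3.mono (singleton_subset_iff.2 x1))
  obtain rfl := g2.2.2 x x1 x3
  refine ⟨x, g1, x4, x5, ⟨u, x2, x3⟩, x1, ?_⟩
  obtain ⟨d, rfl, d1⟩ := x3
  exact ⟨d, d1, mem_compl.2 fun m => s0 d ((g2.2.2 _ m (tch_v' (mem_singleton_self _))).trans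
    (mem_singleton.1 d1).symm)⟩

lemma med_add (h1 : X ⊆ A) (h2 : ∀ x ∈ A', s < sz x → x ∈ A \ X) :
    med s S A' + med s S X ≤ med s S A := by
  unfold med
  rw [← wt_union (disjoint_left.2 fun x a b =>
    (mem_sdiff.1 (h2 x (mem_filter.1 a).1 (mem_filter.1 a).2.1)).2 (mem_filter.1 b).1)]
  exact wt_mono (union_subset (fun x a => mem_filter.2 ⟨(mem_sdiff.1
    (h2 x (mem_filter.1 a).1 (mem_filter.1 a).2.1)).1, (mem_filter.1 a).2⟩)
    (filter_subset_filter _ h1))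

lemma wt_nh (k : Seed s S w e r A P R L) (h1 : T ⊆ P) (h2 : ∀ x ∈ T, sz x < S) (h3 : P ⊆ X) :
    wt T ≤ r + med s S X :=
  (wt_mono (T := P \ L ∪ X.filter fun x => s < sz x ∧ sz x < S) fun x hx => by
    by_cases m : x ∈ L
    · exact mem_union_right _ (mem_filter.2 ⟨h3 (h1 hx), k.bL x m, h2 x hx⟩)
    · exact mem_union_left _ (mem_sdiff.2 ⟨h1 hx, m⟩)).trans
    (wt_union_le.trans (Nat.add_le_add_right k.wP _))

lemma ex_expo (h1 : X ⊆ A) (h2 : ∀ x ∈ X, Expo A x → x ∈ P) : ex X Aᶜ ≤ ex P Aᶜ :=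
  card_le_card fun d hd => by
    obtain ⟨-, a, b⟩ := mem_filter.1 hd
    exact mem_filter.2 ⟨mem_univ _, h2 _ a ⟨h1 a, d, mem_singleton_self _, b⟩, b⟩

lemma final (k : Seed s S w e r A P R L) (h2 : ∀ x ∈ A, Expo A x → x ∈ P) :
    Step s S w e r E A P := Or.inl fun μ hμ => by
  have a := ex_expo Subset.rfl h2
  have b := ex_le_wt (S := P) (T := Aᶜ)
  have c := wt_nh k (T := P \ hvy S P) sdiff_subset (fun x hx => by
    obtain ⟨x1, x2⟩ := mem_sdiff.1 hx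
    exact lt_of_not_ge fun m => x2 (mem_filter.2 ⟨x1, m⟩)) k.sub
  have d := (wt_mono (S := P) (T := P \ hvy S P ∪ hvy S P) (by simp)).trans wt_union_le
  have e := sum_le_card_nsmul (hvy S P) sz μ fun x hx =>
    hμ x (k.sub (mem_filter.1 hx).1) (mem_filter.1 hx).2
  have := Nat.mul_le_mul_right μ k.one
  rw [← wt_sum, smul_eq_mul] at e
  rw [ell_eq]
  omega

lemma hvy_sub (hs : s < S) (h : ∀ x ∈ A', s < sz x → x ∈ A) : hvy S A' ⊆ hvy S A := fun x hx =>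
  mem_filter.2 ⟨h x (mem_filter.1 hx).1 (hs.trans_le (mem_filter.1 hx).2), (mem_filter.1 hx).2⟩

lemma cheap (hs : s < S) (k : Seed s S w e r A P R L) (c : Cheap s S w 1 A P R A')
    (hl : ell A ≤ ell A' + wt (A \ A') + wt (A' \ A)) : Step s S w e r E A P := by
  have a : ∀ x ∈ A', s < sz x → x ∈ A := fun x x1 x2 =>
    by_contra fun m => (c.new x (mem_sdiff.2 ⟨x1, m⟩)).not_gt x2
  have b := med_add (s := s) (S := S) (A' := A') (sdiff_subset (s := A) (t := A'))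
    fun x x1 x2 => by simp [x1, a x x1 x2]
  have d := card_le_card (hvy_sub hs a)
  have e1 := (wt_mono (S := A \ A') (T := lit s (A \ A') ∪
    (A \ A').filter fun x => s < sz x ∧ sz x < S) fun x hx => by
      have := c.old x hx
      simp only [lit, mem_union, mem_filter, hx, true_and]
      omega).trans wt_union_le
  have e2 := wt_union (S := A \ A') (T := A ∩ A') (disjoint_sdiff_inter _ _)
  have e3 := wt_union (S := A' \ A) (T := A' ∩ A) (disjoint_sdiff_inter _ _)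
  rw [sdiff_union_inter] at e2 e3
  rw [inter_comm] at e3
  have := c.drop
  have := c.gain
  refine Or.inr ⟨A', P, R, L, { k with disc := c.disc, sub := c.sub, dis := c.dis },
    hvy_sub hs a, by omega, Or.inl ⟨by unfold rank; omega, by omega, ?_⟩⟩
  unfold med at *
  omega

lemma stuck (hs : s ≤ w) (k : Seed s S w e r A P R L) (t : Tight s S w 1 A P R) : Stuck S A P :=
  fun x x1 x2 x3 => by_contra fun m => by
    have a : A.erase x \ A = ∅ := sdiff_eq_empty_iff_subset.2 (erase_subset _ _)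
    have b : A \ A.erase x = {x} := sdiff_erase_self x1
    have c : wt (∅ : Finset (F D)) = 0 := by simp [wt]
    have := three_le_sz x
    refine t (A.erase x) ⟨x3, subset_erase.2 ⟨k.sub, x2⟩, k.dis.mono_left (erase_subset _ _),
      by simp [a], by simpa [b] using m, ?_, by rw [a, b, c, wt_single]; omega⟩
    rw [a, b, c, lit, filter_singleton]
    split_ifs
    · rw [wt_single]
      omega
    · omega

variable [Q4 D] {cW : ℕ}

lemma rem (hR : RemStmt) (hs : s < S) (k : Seed s S w e r A P R L) (h1 : h ∈ A) (h3 : h ∉ P)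
    (h4 : S ≤ sz h) (h5 : Disc (A.erase h)) (g1 : Good A R h K 0 Om Wl) (g2 : Wl ⊆ big s A)
    (g3 : hvy S A ⊆ Wl) (g4 : #Wl ≤ cW) (g5 : ∀ g ∈ Wl, jn A g ≤ 3 * r)
    (hb : #(big s (univ : Finset (F D))) < r)
    (hN : ∀ y ∈ N, y ∉ A ∧ y ∉ R ∧ sz y ≤ s ∧ h2 ∈ A.erase h ∧ Ad {y} {h2} ∧
      ∀ x ∈ A.erase h, Meet {y} {x} → x = h2) (hZ : h2 = h ∨ h2 ∈ Z)
    (hE : #Om + #(add A Om h Z) + 88 * (cW * r) ≤ #N + E) : Step s S w e r E A P := by
  obtain ⟨A', a1, a2, a3, a4, a5⟩ := hR D s S w e r K (3 * r) A P R L Om Wl N (add A Om h Z) h h2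
    hs k h1 h3 h4 h5 g1 (g2.trans (filter_subset _ _)) (g3 (mem_filter.2 ⟨h1, h4⟩)) g5 hN
    fun y a b c => (add_J g1 a b c).imp_right fun ⟨g, m1, m2, m3, m4, _⟩ =>
      ⟨g, m1, m2, fun m => hZ.elim (fun q => m2 (m.trans q)) fun q => m3 (m ▸ q), m4⟩
  have := Nat.mul_le_mul (Nat.mul_le_mul_left 11 g4)
    (show 2 * (3 * r) + r + #(big s (univ : Finset (F D))) + 1 ≤ 8 * r by omega)
  rw [show 11 * cW * (8 * r) = 88 * (cW * r) by ring] at this
  exact Or.inr ⟨A', P, R, L, a1, a2, a3, Or.inr ⟨a4, by omega⟩⟩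

lemma switch (hW : SwStmt) (hs : s < S) (k : Seed s S w e r A P R L) (x1 : P ⊆ X) (x2 : X ⊆ A)
    (x3 : Disc (A \ X)) (x4 : ∀ x ∈ X, Expo A x → x ∈ P) {bs : F D → F D}
    (n1 : Addable (A \ X) N bs) (n2 : ∀ y ∈ N, sz y ≤ s) {I : Finset (Finset (F D))}
    (i1 : Arms (A \ X) y K I) (i2 : 2 * w ≤ #I) (i3 : K ≤ s) (l : Link s S w (A \ X) y)
    (hr : (2 * K + 4) * w ≤ r) (hE : ex P Aᶜ + 6 * r ≤ #N + E + 3 * med s S X) :
    Step s S w e r E A P := by
  obtain ⟨I', j1, j2⟩ := exists_subset_card_eq i2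
  obtain ⟨Q, L', q1, q2, q3, q4, q5, q6, q7, q8⟩ := l
  rw [show (2 * K + 4) * w = K * (2 * w) + 4 * w by ring] at hr
  obtain ⟨A', P', R', a1, a2, a3, a4, a5⟩ := hW D s S w e r K (A \ X) N Q L' bs y I' hs x3 n1 n2
    ⟨fun Y m => i1.1 Y (j1 m), fun Y m Y' m' => i1.2 Y (j1 m) Y' (j1 m')⟩ j2 i3 q1 q2 q3 q4 q5 q6
    (by omega) q8 (by omega)
  have a : ∀ x ∈ A', s < sz x → x ∈ A \ X := fun x x1 x2 =>
    by_contra fun m => (a3 x (mem_sdiff.2 ⟨x1, m⟩)).not_gt x2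
  have b := med_add (S := S) x2 a
  have c := hvy_sub hs fun x m1 m2 => (mem_sdiff.1 (a x m1 m2)).1
  have d := ell_sdiff x2
  have d1 := ex_mono (S := X) Subset.rfl (compl_subset_compl.2 x2)
  have d2 := ex_expo x2 x4
  rw [ell_eq (S := X)] at d
  refine Or.inr ⟨A', P', R', L', a1, c, by omega, Or.inr ⟨?_, by omega⟩⟩
  unfold rank
  rw [if_neg a4]
  split_ifs with m
  · have := card_le_card c
    omega
  · obtain ⟨β, m⟩ := nonempty_iff_ne_empty.2 m
    obtain ⟨m1, m2⟩ := mem_filter.1 m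
    have := card_lt_card ((ssubset_iff_of_subset c).2 ⟨β, mem_filter.2 ⟨k.sub m1, m2⟩, fun q =>
      (mem_sdiff.1 (a β (mem_filter.1 q).1 (hs.trans_le m2))).2 (x1 m1)⟩)
    omega

omit [Q4 D] in
lemma ball_sub (x4 : ∀ x ∈ X, Expo A x → x ∈ P) (h1 : J ⊆ suns h) (h2 : J ⊆ Aᶜ \ Om) (n : ℕ) :
    ball ((A \ X)ᶜ \ (Om ∪ P)) J n ⊆ ball (Aᶜ \ Om) (suns h) n := by
  have a : ∀ n, ball (Aᶜ \ Om) (suns h) n ⊆ Aᶜ := fun n => by
    induction n with
    | zero => exact inter_subset_right.trans sdiff_subset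
    | succ n ih => exact union_subset ih ((filter_subset _ _).trans sdiff_subset)
  induction n with
  | zero => exact fun x hx => mem_inter.2 ⟨h1 (mem_inter.1 hx).1, h2 (mem_inter.1 hx).1⟩
  | succ n ih =>
    refine union_subset_union ih fun x hx => ?_
    obtain ⟨m1, m2⟩ := mem_filter.1 hx
    simp only [mem_sdiff, mem_compl, mem_union, not_or, not_and, not_not] at m1
    exact mem_filter.2 ⟨mem_sdiff.2 ⟨mem_compl.2 fun m => m1.2.2 (x4 x (m1.1 m)
      ⟨m, m2.mono Subset.rfl (ih.trans (a n))⟩), m1.2.1⟩, m2.mono Subset.rfl ih⟩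

/-- The exposed edges of the root with its heavy face. -/
lemma ex_root (hC : CntStmt) (k : Seed s S w e r A P R L) (x1 : P ⊆ X)
    (x4 : ∀ x ∈ X, Expo A x → x ∈ P) (hb : h ∈ hvy S P) (g1 : Good A R h K 0 Om Wl) :
    ex P Aᶜ ≤ 3 * r + 3 * med s S X + #Om + #(add A Om h {h2}) +
      #{y ∈ suns h | y ∉ A ∧ y ∉ Om ∧ ∃ g ∈ Wl \ X, g ≠ h2 ∧ Meet {y} {g}} := by
  have a := wt_nh k (T := P.erase h) (erase_subset _ _) (fun x hx => lt_of_not_ge fun m =>
    (mem_erase.1 hx).1 (card_le_one.1 k.one x (mem_filter.2 ⟨(mem_erase.1 hx).2, m⟩) h hb)) x1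
  have b := ex_union' (S := Aᶜ) (disjoint_singleton_left.2 (notMem_erase h P))
  rw [← insert_eq, insert_erase (mem_filter.1 hb).1, ex_single] at b
  have c := ex_le_wt (S := P.erase h) (T := Aᶜ)
  have d := (hC D).2.2.2.2.2.2.2.2.1 h (P.erase h) (notMem_erase _ _)
  have e := (card_le_card (s := {x ∈ Aᶜ | Ad {h} {x}}) (t := ((Om ∪ add A Om h {h2}) ∪
    {y ∈ suns h | y ∉ A ∧ y ∉ Om ∧ ∃ g ∈ Wl \ X, g ≠ h2 ∧ Meet {y} {g}}) ∪
    {x ∈ suns h | Meet {x} (P.erase h)}) fun y hy => by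
      obtain ⟨m1, m2⟩ := mem_filter.1 hy
      have m3 : y ∈ suns h := mem_filter.2 ⟨mem_univ _, m2.symm⟩
      simp only [mem_union, mem_filter, m3, mem_compl.1 m1, not_false_eq_true, true_and]
      by_cases m4 : y ∈ Om
      · simp [m4]
      rcases add_J (Z := {h2}) g1 m3 (mem_compl.1 m1) m4 with m | ⟨g, p1, p2, p3, p4, p5⟩
      · simp [m]
      by_cases m5 : g ∈ X
      · obtain ⟨u, p6, p7⟩ := p4
        exact Or.inr ⟨u, p6, p7.mono (by simp [p2, x4 g m5 p5])⟩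
      · exact Or.inl (Or.inr ⟨m4, g, mem_sdiff.2 ⟨p1, m5⟩, by simpa using p3, p4⟩)).trans
    ((card_union_le _ _).trans (Nat.add_le_add_right ((card_union_le _ _).trans
      (Nat.add_le_add_right (card_union_le _ _) _)) _))
  omega

end MoveA

open MoveA in
theorem move (hC : CntStmt) (hA : AddStmt) (hH : ChStmt) (hP : PathStmt) (hG : GoodStmt)
    (hL : ClStmt) (hS : SlStmt) (hR : RemStmt) (hW : SwStmt) : MoveStmt := by
  intro H a
  generalize hc : H + 4 + 4 * (2 ^ H + H) = cW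
  obtain ⟨dep, a1, hS⟩ := hS (8 * (a + 1)) cW
  obtain ⟨K, k, b1, G1⟩ := hG H H dep 1 (8 * (a + 1) + 2 * a1)
  obtain ⟨K', k', b2, G2⟩ := hG H (2 ^ H) 0 1 (8 * (a + 1))
  obtain ⟨a2, K1, c1, hS⟩ := hS K
  refine ⟨b1 + b2 + 4 * a1 + 8 * (a + 1) * (100 * cW) + 1, fun b hb =>
    ⟨2 * b * (2 * K1 + 4) + 2 * (c1 + 1) + 4 * a2, fun M => ⟨K + K' + K1 + k + k' + 4 * M + 4, ?_⟩⟩⟩
  intro D _ _ s S w e r E A P R L n1 n2 n3 n4 n5 n6 n7 n8 n9 sd
  have n0 : 2 * b * ((2 * K1 + 4) * w) + 2 * ((c1 + 1) * w) ≤ nv D :=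
    le_trans (by nlinarith [Nat.zero_le (a2 * w)]) n3
  have hr : (2 * K1 + 4) * w ≤ r :=
    Nat.le_of_mul_le_mul_left (c := 2 * b) (by omega) (by omega)
  have hw : 4 * w ≤ r := (Nat.mul_le_mul_right w (by omega)).trans hr
  have hs : s < S := by omega
  have nb : ∀ x y, x ≤ b → y ≤ r → x * y ≤ nv D := fun x y p q => (Nat.mul_le_mul p q).trans n1
  have nc : ∀ x, x ≤ 2 * (c1 + 1) + 4 * a2 → x ≤ nv D := fun x p => by
    have := (Nat.le_mul_of_pos_right _ (by omega)).trans n3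
    omega
  generalize ht : nv D / (8 * (a + 1)) = t
  have t1 : ∀ x, 8 * (a + 1) * x ≤ nv D ↔ x ≤ t := fun x => by
    rw [← ht, Nat.le_div_iff_mul_le (by omega), mul_comm]
  have t2 : 8 * t ≤ E := Nat.le_of_mul_le_mul_left (c := a + 1)
    (by have := (t1 t).2 le_rfl; nlinarith) (by omega)
  have t3 : 100 * (cW * r) ≤ t := (t1 _).1 (by
    rw [← mul_assoc 100, ← mul_assoc]; exact nb _ _ (by omega) le_rfl)
  have t4 : 4 * r ≤ cW * r := Nat.mul_le_mul_right r (by omega)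
  have hbig : #(big s (univ : Finset (F D))) < r := by
    have p := ((hC D).2.2.2.2.1 (big s univ) s fun x hx => (mem_filter.1 hx).2.le).trans
      (wt_mono (subset_univ _))
    rw [(hC D).2.1] at p
    have := Nat.le_of_mul_le_mul_left (c := s) (a := #(big s (univ : Finset (F D)))) (b := 4 * M)
      (by nlinarith) (by omega)
    omega
  by_cases tg : Tight s S w 1 A P R
  swap
  · obtain ⟨A', c⟩ := _root_.not_forall_not.1 tg
    exact cheap hs sd c ((hC D).2.2.2.2.2.2.2.2.2.1 A A')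
  have st := stuck (by omega) sd tg
  have hv : #(hvy S A) ≤ H := (card_le_card (filter_subset_filter _ (subset_univ _))).trans n9
  have wP := sd.wP
  have G : ∀ h ∈ A, S ≤ sz h → ∃ Om Wl, Good A R h K' 0 Om Wl ∧ #Om ≤ t ∧ Wl ⊆ big s A ∧
      hvy S A ⊆ Wl ∧ #Wl ≤ cW ∧ ∀ g ∈ Wl, jn A g ≤ 3 * r := fun h h1 h2 => by
    obtain ⟨Br, U, T, Ls, ch, o, cv⟩ := hH D S H A P h sd.disc sd.conn sd.ne sd.sub st hv h1 h2
    obtain ⟨Om, Wl, g1, g2, g3, g4, g5, g6, -⟩ := G2 D s S w r A P R L Br h U T Ls ch o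
      (nb _ _ (by omega) le_rfl) (nb _ _ (by omega) (by omega)) (by omega) (by omega) hs sd.disc
      sd.sub sd.dis sd.cR sd.sL sd.cL sd.bL wP hv h1 h2 tg cv
    exact ⟨Om, Wl, g1, (t1 _).1 g2, g3, g4, by omega, fun g m => by have := g6 g m; omega⟩
  by_cases ex1 : ∃ h ∈ A, h ∉ P ∧ Disc (A.erase h)
  swap
  · exact final sd fun x _ m => by_contra fun q =>
      ex1 ((hA D).1 A P sd.disc sd.conn sd.ne sd.sub ⟨x, m, q⟩)
  obtain ⟨h, h1, h2, h3⟩ := ex1
  have h4 := st h h1 h2 h3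
  have NN : ∀ {K0 Om Wl g g'}, Good A R g K0 0 Om Wl → K0 ≤ s → g ∈ A → g ≠ g' →
      ∀ y ∈ add A Om g {g'}, y ∉ A ∧ y ∉ R ∧ sz y ≤ s ∧ g ∈ A.erase g' ∧ Ad {y} {g} ∧
        ∀ x ∈ A.erase g', Meet {y} {x} → x = g := fun q q1 q2 q3 y hy => by
    obtain ⟨p1, p2, p3, p4, p5⟩ := add_N q hy
    exact ⟨p1, p2, p3.trans q1, mem_erase.2 ⟨q3, q2⟩, p4, fun x m =>
      p5 x (mem_erase.1 m).2 (by simpa using (mem_erase.1 m).1)⟩
  by_cases un : ∀ x ∈ A, x ∉ P → Disc (A.erase x) → x = h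
  swap
  · simp only [not_forall] at un
    obtain ⟨g, u1, u2, u3, u4⟩ := un
    have u5 := st g u1 u2 u3
    obtain ⟨Om, Wl, g1, g2, g3, g4, g5, g6⟩ := G h h1 h4
    obtain ⟨Om', Wl', f1, f2, f3, f4, f5, f6⟩ := G g u1 u5
    rcases le_total #(add A Om h {g}) #(add A Om' g {h}) with m | m
    · exact rem hR hs sd h1 h2 h4 h3 g1 g3 g4 g5 g6 hbig (NN f1 (by omega) u1 u4)
        (Or.inr (mem_singleton_self _)) (by omega)
    · exact rem hR hs sd u1 u2 u5 u3 f1 f3 f4 f5 f6 hbig (NN g1 (by omega) h1 (Ne.symm u4))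
        (Or.inr (mem_singleton_self _)) (by omega)
  obtain ⟨X, x1, x2, x3, x4, x5, x6, U, T, Ls, ch, o, cv, x7⟩ :=
    hP D S H A P h sd.disc sd.conn sd.ne sd.sub hv h1 h2 h4 h3 un
  obtain ⟨Om, Wl, g1, g2, g3, g4, g5, g6, g7⟩ := G1 D s S w r A P R L ∅ h U T Ls ch o
    (nb _ _ (by omega) le_rfl) (nb _ _ (by omega) (by omega)) (by omega) (by omega) hs sd.disc
    sd.sub sd.dis sd.cR sd.sL sd.cL sd.bL wP hv h1 h4 tg cv
  rw [add_mul] at g2
  have g8 := (t1 #Om).1 (by omega)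
  have g9 : ∀ g ∈ Wl, jn A g ≤ 3 * r := fun g m => by have := g6 g m; omega
  have g0 := good0 g1
  replace g5 : #Wl ≤ cW := by have := Nat.two_pow_pos H; omega
  by_cases j1 : #(add A Om h X) ≤ t
  · exact rem hR hs sd h1 h2 h4 h3 g0 g3 g4 g5 g9 hbig (N := ∅) (h2 := h)
      (Z := X) (by simp) (Or.inl rfl) (by omega)
  have hh : h ∈ A \ X := mem_sdiff.2 ⟨h1, x3⟩
  have wl : Wl \ X ⊆ A \ X := sdiff_subset_sdiff (g3.trans (filter_subset _ _)) Subset.rfl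
  have cP : #P ≤ r + 4 := by
    have := (hC D).2.2.2.2.1 (P \ L) 1 fun x _ => (three_le_sz x).trans' (by omega)
    have := le_card_sdiff L P
    have := sd.cL
    omega
  obtain ⟨I, q, q1, q2, q3⟩ := hS D (A \ X) (Om ∪ P) (Wl \ X) (add A Om h X) h (nc _ (by omega)) x4
    (mem_sdiff.2 ⟨g4 (mem_filter.2 ⟨h1, h4⟩), x3⟩) wl
    ((card_le_card sdiff_subset).trans g5) (fun g m => ⟨by
      have := (mem_filter.1 (g3 (mem_sdiff.1 m).1)).2; omega,
      (Nat.mul_le_mul_left a2 (x6 g (wl m))).trans (nc _ (by omega))⟩)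
    (fun x m => by
      obtain ⟨p1, -, p2⟩ := g1 x (ball_sub x5 (filter_subset _ _) (fun y hy => mem_sdiff.2
        ⟨mem_compl.2 (mem_filter.1 hy).2.1, (mem_filter.1 hy).2.2.1⟩) dep m)
      refine ⟨p1, fun u u1 u2 => ?_⟩
      obtain ⟨g, p3, p4⟩ := p2 u u1 (u2.mono sdiff_subset)
      obtain ⟨z, z1, z2⟩ := tch_iff.1 u2
      obtain rfl := p4.2.2 z (mem_sdiff.1 z1).1 z2
      exact ⟨z, mem_sdiff.2 ⟨p3, (mem_sdiff.1 z1).2⟩, z1, z2,
        fun y hy => p4.2.2 y (mem_sdiff.1 hy).1⟩)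
    (by
      have p1 := Nat.mul_le_mul_left a1 ((card_union_le Om P).trans
        (show #Om + #P ≤ #Om + 2 * r by omega))
      have p2 := nb (4 * a1) r (by omega) le_rfl
      nlinarith) (filter_subset _ _)
    (fun y hy => by
      obtain ⟨-, p1, p2, -⟩ := mem_filter.1 hy
      simp [p1, p2, mt (@sd.sub y) p1])
    (le_of_not_ge fun m => j1 ((t1 _).1 m))
    fun y hy g m p p' => p ((add_N g0 hy).2.2.2.2 g (mem_sdiff.1 (wl m)).1 (mem_sdiff.1 m).2 p'.2)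
  have i2 : 2 * w ≤ #I := Nat.le_of_mul_le_mul_left (c := c1 + 1)
    (by nlinarith [Nat.zero_le (2 * b * ((2 * K1 + 4) * w))]) (by omega)
  have lk : Link s S w (A \ X) q := by
    rcases g7 (A \ X) rfl (fun i i1 i2 => by
      obtain ⟨p1, -, p2, -⟩ := cv.chn i i1 i2
      obtain ⟨p3, p4, p5⟩ := x7 i i1 i2
      exact ⟨p3, mem_sdiff.2 ⟨(p1.part _).2 (Or.inl p2), p4⟩, fun j m =>
        mem_sdiff.2 ⟨(p1.part _).2 (Or.inr (Or.inr ⟨j, m, rfl⟩)), p5 j m⟩⟩) q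
      (mem_sdiff.1 q1).1 with m | m | ⟨Q, L', p1, p2, p3, p4, p5, p6, p7, p8⟩
    · exact ⟨{q}, {q}, singleton_subset_iff.2 (wl q1), conn_single q, mem_singleton_self q,
        Subset.rfl, by simp, by simpa using hs.trans_le m, by simp [wt],
        by simp [hvy, filter_singleton, m]⟩
    · exact absurd (x1 m) (mem_sdiff.1 q1).2
    · exact ⟨Q, L', p1, p2, p3, p4, p5, p6, by omega, p8⟩
  rcases (hvy S P).eq_empty_or_nonempty with m | ⟨β, m⟩
  · have p1 := wt_nh sd Subset.rfl (fun x p => lt_of_not_ge fun p' =>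
      notMem_empty x (m ▸ mem_filter.2 ⟨p, p'⟩)) x1
    have p2 := ex_le_wt (S := P) (T := Aᶜ)
    exact switch hW hs sd x1 x2 x4 x5 (N := ∅) (bs := id) ⟨by simp, by simp⟩ (by simp) q2 i2
      (by omega) lk hr (by omega)
  obtain ⟨m1, m2⟩ := mem_filter.1 m
  obtain ⟨Om', Wl', f1, f2, f3, f4, f5, f6⟩ := G β (sd.sub m1) m2
  by_cases j2 : #(add A Om h X) ≤ #(add A Om' β {h})
  · exact rem hR hs sd h1 h2 h4 h3 g0 g3 g4 g5 g9 hbig
      (NN f1 (by omega) (sd.sub m1) fun p => h2 (p ▸ m1)) (Or.inr (x1 m1)) (by omega)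
  obtain ⟨N, bs, p1, -, p2, p3⟩ := hL D A X R Om' Wl' (big s univ) (add A Om h X) β h K' (3 * r)
    sd.disc (x1 m1) x2 (f3.trans (filter_subset _ _)) f1
    (f6 β (f4 (mem_filter.2 ⟨sd.sub m1, m2⟩))) f6 fun y hy => by
      obtain ⟨p1, -, p3, p4, p5⟩ := add_N g0 hy
      exact ⟨p1, fun p => by have := (mem_filter.1 p).2; omega, hh, p4,
        fun x p => p5 x (mem_sdiff.1 p).1 (mem_sdiff.1 p).2⟩
  have p4 := ex_root (h2 := h) hC sd x1 x5 m f1
  have p5 := Nat.mul_le_mul (Nat.mul_le_mul_left 11 f5)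
    (show 2 * (3 * r) + #(big s (univ : Finset (F D))) + 1 ≤ 8 * r by omega)
  rw [show 11 * cW * (8 * r) = 88 * (cW * r) by ring] at p5
  exact switch hW hs sd x1 x2 x4 x5 p1 (fun y hy => le_of_not_gt fun p =>
    disjoint_left.1 p2 hy (mem_filter.2 ⟨mem_univ _, p⟩)) q2 i2 (by omega) lk hr (by omega)

end Pool.Agent.MP_42ec7b_co

end MrgPart3

-- ======== part 4: formerly Pool.Agent.MP_42ec7b_co.A.ROrd
section MrgPart4

/-!
Disjoint rungs between two faces of a disc are linearly ordered.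
-/

set_option autoImplicit false

open Finset

namespace Pool.Agent.MP_42ec7b_co

open Classical

namespace PM

namespace OrdR

variable {D : Type} [PM D] {A X Y K Z : Finset (F D)} {L a b c e k m : ℕ} {p : ℕ → V D}
  {dd : ℕ → D} {h g q x : F D} {u : V D}

lemma tch_ne (t : Tch Y u) : Y.Nonempty := t.elim fun _ k => ⟨_, k.2⟩

/-- Two disjoint connected sets outside a disc do not touch it alternately. -/
lemma cross4 (fr : Frm A L p dd) (hA : Disc A) (hY : Conn Y) (hK : Conn K) (sY : Y ⊆ Aᶜ)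
    (sK : K ⊆ Aᶜ) (hd : Disjoint Y K) (h1 : a < c) (h2 : c < b) (h3 : b < e) (h4 : e < L)
    (ya : Tch Y (p a)) (yb : Tch Y (p b)) (kc : Tch K (p c)) (ke : Tch K (p e)) : False := by
  obtain ⟨Y', s1, s2, s3, c1, c2⟩ := ext_two hA.2.2.2 hY hK sY sK hd (tch_ne ya) (tch_ne kc)
  have l1 : Lk (fun d => f d ∉ A ∧ f d ∉ Aᶜ \ Y') (p a) (p b) := (facelk hY ya yb).mono
    fun d k => Or.inl ⟨mem_compl.1 (sY k), fun m => (mem_sdiff.1 m).2 (s2 k)⟩
  have l2 : Lk (fun d => f d ∉ A ∧ f d ∉ Y') (p c) (p e) := (facelk hK kc ke).mono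
    fun d k => Or.inl ⟨mem_compl.1 (sK k), (mem_sdiff.1 (s3 k)).2⟩
  have n1 : ∀ i j, a ≤ i → i < b → b ≤ j → j < L → f (α (dd i)) ∉ Y' → f (α (dd j)) ∉ Y' →
      False := fun i j a1 a2 a3 a4 b1 b2 =>
    fr.arc_out hA.2.2.1 c2 sdiff_subset a1 a2 (by omega) (Or.inr a3) a4
      (mem_sdiff.2 ⟨mem_compl.2 (fr.bd i (by omega)).2, b1⟩)
      (mem_sdiff.2 ⟨mem_compl.2 (fr.bd j a4).2, b2⟩) l1
  have n2 : ∀ i j, c ≤ i → i < e → (j < c ∨ e ≤ j) → j < L → f (α (dd i)) ∈ Y' →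
      f (α (dd j)) ∈ Y' → False := fun i j a1 a2 a3 a4 b1 b2 =>
    fr.arc_out hA.2.2.1 c1 s1 a1 a2 h4.le a3 a4 b1 b2 l2
  have k1 : ∃ i, a ≤ i ∧ i < b ∧ f (α (dd i)) ∉ Y' := by
    by_cases m : f (α (dd a)) ∈ Y'
    · exact ⟨c, h1.le, h2, fun m' => n2 c a le_rfl (by omega) (Or.inl h1) (by omega) m' m⟩
    · exact ⟨a, le_rfl, by omega, m⟩
  obtain ⟨i, i1, i2, i3⟩ := k1
  by_cases m : f (α (dd e)) ∈ Y'
  · exact n1 i b i1 i2 le_rfl (by omega) i3 fun m' => n2 b e h2.le h3 (Or.inr le_rfl) h4 m' m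
  · exact n1 i e i1 i2 h3.le h4 i3 m

/-- The faces outside `A` at the vertices number `a, ..., b`. -/
noncomputable def band (A : Finset (F D)) (p : ℕ → V D) (a b : ℕ) : Finset (F D) :=
  Aᶜ.filter fun x => ∃ m, a ≤ m ∧ m ≤ b ∧ Tch {x} (p m)

lemma mem_band : x ∈ band A p a b ↔ x ∈ Aᶜ ∧ ∃ m, a ≤ m ∧ m ≤ b ∧ Tch {x} (p m) := mem_filter

lemma conn_pt (hA : Disc A) : Conn (band A p a a) := by
  rintro Z hZ ⟨x, hx⟩ hc y hy
  obtain ⟨x1, m, m1, m2, c, c1, c2⟩ := mem_band.1 (hZ hx)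
  obtain ⟨y1, m', m3, m4, c', c3, c4⟩ := mem_band.1 hy
  obtain rfl : m = a := by omega
  obtain rfl : m' = m := by omega
  obtain rfl := mem_singleton.1 c2
  obtain rfl := mem_singleton.1 c4
  refine (ivl hA.compl (Q := (· ∈ Z)) (c3.trans c1.symm) x1 y1 fun d k1 k2 k3 => ⟨fun k => hc d k
    (mem_band.2 ⟨k3, m', le_rfl, le_rfl, ?_⟩), fun k => hc.symm d k
    (mem_band.2 ⟨k2, m', le_rfl, le_rfl, ?_⟩)⟩).1 hx
  · rw [← c1, ← k1]
    exact tch_v' (mem_singleton_self _)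
  · rw [← c1, ← k1]
    exact tch_v (mem_singleton_self _)

lemma conn_band (fr : Frm A L p dd) (hA : Disc A) (h1 : a ≤ b) (h2 : b ≤ L) :
    Conn (band A p a b) := by
  induction b, h1 using Nat.le_induction with
  | base => exact conn_pt hA
  | succ b h1 ih =>
    have e : band A p a (b + 1) = band A p a b ∪ band A p (b + 1) (b + 1) := by
      ext x
      simp only [mem_union, mem_band]
      constructor
      · rintro ⟨k1, m, k2, k3, k4⟩
        rcases k3.lt_or_eq with k | k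
        exacts [Or.inl ⟨k1, m, k2, by omega, k4⟩, Or.inr ⟨k1, m, k.ge, k3, k4⟩]
      · rintro (⟨k1, m, k2, k3, k4⟩ | ⟨k1, m, k2, k3, k4⟩)
        exacts [⟨k1, m, k2, by omega, k4⟩, ⟨k1, m, by omega, k3, k4⟩]
    have t := fr.tch (P := {f (α (dd b))}) h2 (Or.inr (mem_singleton_self _))
    have o := mem_compl.2 (fr.bd b h2).2
    rw [e]
    exact conn_union (ih (by omega)) (conn_pt hA) (Or.inr ⟨_, mem_band.2 ⟨o, b, h1, le_rfl, t.1⟩,
      mem_band.2 ⟨o, b + 1, le_rfl, le_rfl, t.2⟩⟩)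

/-- A frame adapted to a partition of the disc into two connected parts. -/
lemma frame2 (hA : Disc A) (sX : X ⊆ A) (c1 : Conn X) (c2 : Conn (A \ X)) {d d' : D}
    (b1 : Bd A d) (b2 : Bd A d') (x1 : f d ∈ X) (x2 : f d' ∉ X) : ∃ L p dd c, Frm A L p dd ∧
      0 < c ∧ c < L ∧ ∀ k < L, f (dd k) ∈ X ↔ k < c := by
  obtain ⟨t, e, e', a1, a2, a3, a4, a5, a6⟩ : ∃ t e e', Bd A e ∧ Bd A e' ∧ f e ∈ X ∧ f e' ∉ X ∧
      (t = v e ∨ t = v (α e)) ∧ (t = v e' ∨ t = v (α e')) := by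
    obtain ⟨L, p, dd, fr, d0, -⟩ := exists_frm hA b1 (Or.inl rfl)
    have ex : ∃ k, k < L ∧ f (dd k) ∉ X := by
      obtain ⟨k, m1, m2⟩ := fr.sur d' b2
      exact ⟨k, m1, m2 ▸ x2⟩
    obtain ⟨k1, k2⟩ := Nat.find_spec ex
    have k3 := fun n => Nat.find_min ex (m := n)
    generalize Nat.find ex = k at k1 k2 k3
    rcases k with _ | k
    · exact absurd (d0 ▸ x1) k2
    · refine ⟨p (k + 1), dd k, dd (k + 1), fr.bd k (by omega), fr.bd _ k1,
        by_contra fun m => k3 k k.lt_succ_self ⟨by omega, m⟩, k2, ?_, ?_⟩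
      · rcases fr.ends k (by omega) with m | m
        exacts [Or.inr m.2.symm, Or.inl m.1.symm]
      · rcases fr.ends _ k1 with m | m
        exacts [Or.inl m.1.symm, Or.inr m.2.symm]
  obtain ⟨L, p, dd, fr, d0, p0⟩ := exists_frm hA a1 a5
  have h3 := fr.three
  have last : f (dd (L - 1)) ∉ X := by
    obtain ⟨n, n1, rfl⟩ := fr.sur e' a2
    have n2 : n ≠ 0 := fun m => a4 (by rw [m, d0]; exact a3)
    have n3 : p 0 = p n ∨ p 0 = p (n + 1) := by
      rw [p0]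
      rcases a6 with m | m <;> rw [m]
      exacts [fr.vend n1 (Or.inl rfl), fr.vend n1 (Or.inr rfl)]
    rcases n3 with m | m
    · exact absurd (fr.inj 0 (by omega) n n1 m).symm n2
    · have := fr.inj' (i := L) (j := n + 1) (by omega) le_rfl (by omega) n1 (fr.per.trans m)
      rwa [show L - 1 = n by omega]
  have ex : ∃ k, f (dd k) ∉ X := ⟨_, last⟩
  have k1 := Nat.find_spec ex
  have k2 := fun n => Nat.find_min ex (m := n)
  have k3 : Nat.find ex ≤ L - 1 := Nat.find_min' ex last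
  generalize Nat.find ex = c at k1 k2 k3
  have k4 : c ≠ 0 := fun m => k1 (by rw [m, d0]; exact a3)
  refine ⟨L, p, dd, c, fr, by omega, by omega, fun k hk => ⟨fun m => ?_, fun m =>
    not_not.1 (k2 k m)⟩⟩
  by_contra m'
  have m1 : k ≠ c := fun e => k1 (e ▸ m)
  exact fr.arc_in hA.2.2.2 c2 sdiff_subset (i := 0) (j := k) (n1 := c) (n2 := L - 1)
    (Nat.zero_le _) (by omega) hk.le (Or.inr (by omega)) (by omega)
    (mem_sdiff.2 ⟨(fr.bd c (by omega)).1, k1⟩) (mem_sdiff.2 ⟨(fr.bd _ (by omega)).1, last⟩)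
    ((facelk c1 (fr.tch (by omega) (Or.inl (d0 ▸ a3))).1 (fr.tch hk (Or.inl m)).1).mono
      fun d k => Or.inl ⟨sX k, fun m => (mem_sdiff.1 m).2 k⟩)

lemma plain_at (fr : Frm A L p dd) (hk : k < L) (hp : Plain A q (p k) ∨ Plain A q (p (k + 1))) :
    f (dd k) = q := by
  have t := fr.tch (P := {f (dd k)}) hk (Or.inl (mem_singleton_self _))
  exact hp.elim (fun m => m.2.2 _ (fr.bd k hk).1 t.1) fun m => m.2.2 _ (fr.bd k hk).1 t.2

/-- A frame in which the plain vertices of `h` and `g` are separated by the indices `0`, `c`. -/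
structure Set2 (A : Finset (F D)) (h g : F D) (L : ℕ) (p : ℕ → V D) (dd : ℕ → D) (c : ℕ) :
    Prop where
  disc : Disc A
  fr : Frm A L p dd
  lt : c < L
  ph : ∀ k < L, Plain A h (p k) → 0 < k ∧ k < c
  pg : ∀ k < L, Plain A g (p k) → c < k
  n0 : ∀ q, ¬Plain A q (p 0)
  nc : ∀ q, ¬Plain A q (p c)

lemma exists_set2 (hA : Disc A) (hne : h ≠ g) (hY : Rung A h g Y) :
    ∃ L p dd c, Set2 A h g L p dd c := by
  obtain ⟨sY, -, ⟨u, u1, u2⟩, w, w1, w2⟩ := hY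
  obtain ⟨X, s1, s2, s3, c1, c2⟩ := ext_two hA.2.2.1 (conn_single h) (conn_single g)
    (singleton_subset_iff.2 u2.1) (singleton_subset_iff.2 w2.1) (disjoint_singleton.2 hne)
    (singleton_nonempty _) (singleton_nonempty _)
  have xh : h ∈ X := s2 (mem_singleton_self _)
  have xg : g ∉ X := (mem_sdiff.1 (s3 (mem_singleton_self _))).2
  have key : ∀ {q : F D} {r : V D}, Tch Y r → Plain A q r → ∃ d, Bd A d ∧ f d = q := by
    intro q r t m
    obtain ⟨d, rfl, k⟩ := BV.out (S := A) ⟨m.2.1.mono (singleton_subset_iff.2 m.1), t.mono sY⟩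
    exact ⟨d, k, m.2.2 _ k.1 (tch_v (mem_singleton_self _))⟩
  obtain ⟨d, b1, e1⟩ := key u1 u2
  obtain ⟨d', b2, e2⟩ := key w1 w2
  obtain ⟨L, p, dd, c, fr, k1, k2, k3⟩ := frame2 hA s1 c1 c2 b1 b2 (e1 ▸ xh) (e2 ▸ xg)
  have n0 : ∀ q, ¬Plain A q (p 0) := fun q m => by
    have a1 := plain_at fr (k := 0) (by omega) (Or.inl m)
    have a2 := plain_at fr (k := L - 1) (q := q) (by omega)
      (Or.inr (by rwa [show L - 1 + 1 = L by omega, fr.per]))
    have := (k3 (L - 1) (by omega)).1 (by rw [a2, ← a1]; exact (k3 0 (by omega)).2 k1)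
    omega
  have nc : ∀ q, ¬Plain A q (p c) := fun q m => by
    have a1 := plain_at fr k2 (Or.inl m)
    have a2 := plain_at fr (k := c - 1) (q := q) (by omega)
      (Or.inr (by rwa [show c - 1 + 1 = c by omega]))
    exact lt_irrefl _ ((k3 c k2).1 (by rw [a1, ← a2]; exact (k3 _ (by omega)).2 (by omega)))
  refine ⟨L, p, dd, c, hA, fr, k2, fun k hk m => ⟨Nat.pos_of_ne_zero fun e => n0 h (e ▸ m),
    (k3 k hk).1 (by rw [plain_at fr hk (Or.inl m)]; exact xh)⟩, fun k hk m => ?_, n0, nc⟩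
  have a1 : ¬k < c := fun e => xg (plain_at fr hk (Or.inl m) ▸ (k3 k hk).2 e)
  have a2 : k ≠ c := fun e => nc g (e ▸ m)
  omega

/-- The data of one rung. -/
structure Dat (A : Finset (F D)) (h g : F D) (L : ℕ) (p : ℕ → V D) (c : ℕ)
    (Y Lf Rt : Finset (F D)) (tp bt : ℕ) : Prop where
  rung : Rung A h g Y
  tL : tp < L
  bL : bt < L
  tY : Tch Y (p tp)
  bY : Tch Y (p bt)
  tP : Plain A h (p tp)
  bP : Plain A g (p bt)
  cL : Cmp (Aᶜ \ Y) Lf
  cR : Cmp (Aᶜ \ Y) Rt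
  sL : band A p 0 0 ⊆ Lf
  sR : band A p c c ⊆ Rt

lemma band_ne (fr : Frm A L p dd) (hk : k ≤ L) : ∃ x, x ∈ band A p k k := by
  obtain ⟨d, k1, k2⟩ := (fr.bv hk).2
  exact ⟨f d, mem_band.2 ⟨k2, k, le_rfl, le_rfl, d, k1, mem_singleton_self _⟩⟩

lemma band_tch (fr : Frm A L p dd) (hk : k ≤ L) (s : band A p k k ⊆ K) : Tch K (p k) := by
  obtain ⟨d, k1, k2⟩ := (fr.bv hk).2
  exact ⟨d, k1, s (mem_band.2 ⟨k2, k, le_rfl, le_rfl, d, k1, mem_singleton_self _⟩)⟩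

lemma rung_idx (fr : Frm A L p dd) (sY : Y ⊆ Aᶜ) (k : ∃ u, Tch Y u ∧ Plain A q u) :
    ∃ i < L, Tch Y (p i) ∧ Plain A q (p i) := by
  obtain ⟨u, u1, u2⟩ := k
  obtain ⟨i, i1, rfl⟩ := fr.vs ⟨u2.2.1.mono (singleton_subset_iff.2 u2.1), u1.mono sY⟩
  exact ⟨i, i1, u1, u2⟩

lemma exists_dat (S : Set2 A h g L p dd c) (hY : Rung A h g Y)
    (hp : ∀ u, Tch Y u → Tch A u → ∃ q, Plain A q u) :
    ∃ Lf Rt tp bt, Dat A h g L p c Y Lf Rt tp bt := by
  have key : ∀ k ≤ L, (∀ q, ¬Plain A q (p k)) → ∃ K, Cmp (Aᶜ \ Y) K ∧ band A p k k ⊆ K := by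
    intro k hk n
    have s : band A p k k ⊆ Aᶜ \ Y := fun x hx => by
      obtain ⟨x1, m, m1, m2, t⟩ := mem_band.1 hx
      obtain rfl : m = k := by omega
      exact mem_sdiff.2 ⟨x1, fun y => (hp _ (t.mono (singleton_subset_iff.2 y))
        (S.fr.bv hk).1).elim n⟩
    obtain ⟨x, hx⟩ := band_ne S.fr hk
    obtain ⟨K, k1, k2⟩ := exists_cmp (s hx)
    exact ⟨K, k1, (conn_pt S.disc).sub s k1.2.2.2 hx k2⟩
  obtain ⟨Lf, l1, l2⟩ := key 0 (Nat.zero_le _) S.n0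
  obtain ⟨Rt, r1, r2⟩ := key c S.lt.le S.nc
  obtain ⟨tp, t1, t2, t3⟩ := rung_idx S.fr hY.1 hY.2.2.1
  obtain ⟨bt, b1, b2, b3⟩ := rung_idx S.fr hY.1 hY.2.2.2
  exact ⟨Lf, Rt, tp, bt, hY, t1, b1, t2, b2, t3, b3, l1, r1, l2, r2⟩

lemma cmp_out (k : Cmp (Aᶜ \ Y) K) : K ⊆ Aᶜ := k.1.trans sdiff_subset

lemma cmp_dis (k : Cmp (Aᶜ \ Y) K) : Disjoint Y K := (subset_sdiff.1 k.1).2.symm

lemma cmp_ad (hA : Disc A) (sY : Y ⊆ Aᶜ) (n : Y.Nonempty) (k : Cmp (Aᶜ \ Y) K) : Ad K Y := by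
  obtain ⟨y, hy⟩ := n
  obtain ⟨d, k1, k2, k3⟩ := hA.2.2.2.exit (cmp_out k) k.2.1
    fun m => disjoint_left.1 (cmp_dis k) hy (m (sY hy))
  exact ⟨d, k1, by_contra fun m => k3 (k.2.2.2 d k1 (mem_sdiff.2 ⟨k2, m⟩))⟩

lemma cmp_conn (hA : Disc A) (sY : Y ⊆ Aᶜ) (cY : Conn Y) (n : Y.Nonempty)
    (k : Cmp (Aᶜ \ Y) K) : Conn (Aᶜ \ K) :=
  conn_sdiff hA.2.2.2 cY n (subset_sdiff.2 ⟨sY, cmp_dis k⟩)
    fun d k1 k2 k3 => by_contra fun m => k3 (k.2.2.2 d k1 (mem_sdiff.2 ⟨k2, m⟩))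

namespace Dat

variable {Lf Rt Y' Lf' Rt' : Finset (F D)} {tp bt tp' bt' : ℕ}
  (S : Set2 A h g L p dd c) (T : Dat A h g L p c Y Lf Rt tp bt)

include S T

lemma t0 : Tch Lf (p 0) := band_tch S.fr (Nat.zero_le _) T.sL

lemma tc : Tch Rt (p c) := band_tch S.fr S.lt.le T.sR

lemma dis : Disjoint Lf Rt := disjoint_left.2 fun x k1 k2 => by
  have e := T.cL.eq T.cR k1 k2
  exact cross4 S.fr S.disc T.cL.2.2.1 T.rung.2.1 (cmp_out T.cL) T.rung.1 (cmp_dis T.cL).symm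
    (S.ph _ T.tL T.tP).1 (S.ph _ T.tL T.tP).2 (S.pg _ T.bL T.bP) T.bL (T.t0 S)
    (e ▸ T.tc S) T.tY T.bY

lemma rt_idx (hm : m < L) (t : Tch Rt (p m)) : tp ≤ m ∧ m ≤ bt := by
  have a1 := (S.ph _ T.tL T.tP).2
  have a2 := S.pg _ T.bL T.bP
  refine ⟨by_contra fun k => ?_, by_contra fun k => ?_⟩
  · exact cross4 S.fr S.disc T.cR.2.2.1 T.rung.2.1 (cmp_out T.cR) T.rung.1 (cmp_dis T.cR).symm
      (not_le.1 k) a1 a2 T.bL t (T.tc S) T.tY T.bY
  · exact cross4 S.fr S.disc T.rung.2.1 T.cR.2.2.1 T.rung.1 (cmp_out T.cR) (cmp_dis T.cR)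
      a1 a2 (not_le.1 k) hm T.tY T.bY (T.tc S) t

lemma lf_idx (t : Tch Lf (p m)) : m ≤ tp ∨ bt ≤ m := by
  by_contra k
  exact cross4 S.fr S.disc T.cL.2.2.1 T.rung.2.1 (cmp_out T.cL) T.rung.1 (cmp_dis T.cL).symm
    (S.ph _ T.tL T.tP).1 (show tp < m by omega) (show m < bt by omega) T.bL (T.t0 S) t T.tY T.bY

lemma thru (hZ : Rung A h g Z) (hd : Disjoint Z Y) : Z ⊆ Lf ∨ Z ⊆ Rt := by
  obtain ⟨a, a1, a2, a3⟩ := rung_idx S.fr hZ.1 hZ.2.2.1
  obtain ⟨b, b1, b2, b3⟩ := rung_idx S.fr hZ.1 hZ.2.2.2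
  have s : Z ⊆ Aᶜ \ Y := subset_sdiff.2 ⟨hZ.1, hd⟩
  by_contra k
  rw [not_or] at k
  have n := tch_ne T.tY
  refine cross4 S.fr S.disc (Y := Lf ∪ (Rt ∪ Y)) (conn_union T.cL.2.2.1 (conn_union T.cR.2.2.1
    T.rung.2.1 (Or.inl (cmp_ad S.disc T.rung.1 n T.cR))) (Or.inl ((cmp_ad S.disc T.rung.1 n
      T.cL).mono Subset.rfl subset_union_right))) hZ.2.1
    (union_subset (cmp_out T.cL) (union_subset (cmp_out T.cR) T.rung.1)) hZ.1 ?_
    (S.ph _ a1 a3).1 (S.ph _ a1 a3).2 (S.pg _ b1 b3) b1 ((T.t0 S).mono subset_union_left)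
    ((T.tc S).mono (subset_union_left.trans subset_union_right)) a2 b2
  rw [disjoint_union_left, disjoint_union_left]
  exact ⟨disjoint_left.2 fun x k1 k2 => k.1 (hZ.2.1.sub s T.cL.2.2.2 k2 k1),
    disjoint_left.2 fun x k1 k2 => k.2 (hZ.2.1.sub s T.cR.2.2.2 k2 k1), hd.symm⟩

variable (T' : Dat A h g L p c Y' Lf' Rt' tp' bt')

include T'

lemma nest (k : Y' ⊆ Rt) : Aᶜ \ Rt ⊆ Lf' := by
  obtain ⟨x, hx⟩ := band_ne S.fr (Nat.zero_le L)
  exact (cmp_conn S.disc T.rung.1 T.rung.2.1 (tch_ne T.tY) T.cR).sub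
    (sdiff_subset_sdiff Subset.rfl k) T'.cL.2.2.2
    (mem_sdiff.2 ⟨(mem_band.1 hx).1, disjoint_left.1 (T.dis S) (T.sL hx)⟩) (T'.sL hx)

lemma flip (k : Y' ⊆ Lf) : Y ⊆ Rt' := by
  obtain ⟨x, hx⟩ := band_ne S.fr S.lt.le
  exact (subset_sdiff.2 ⟨T.rung.1, cmp_dis T.cL⟩).trans
    ((cmp_conn S.disc T.rung.1 T.rung.2.1 (tch_ne T.tY) T.cL).sub
      (sdiff_subset_sdiff Subset.rfl k) T'.cR.2.2.2
      (mem_sdiff.2 ⟨(mem_band.1 hx).1, disjoint_right.1 (T.dis S) (T.sR hx)⟩) (T'.sR hx))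

lemma card_lt (k : Y' ⊆ Rt) : #Rt' < #Rt := by
  obtain ⟨y, hy⟩ := tch_ne T'.tY
  refine card_lt_card ⟨fun x hx => by_contra fun m => disjoint_left.1 (T'.dis S)
    (T.nest S T' k (mem_sdiff.2 ⟨cmp_out T'.cR hx, m⟩)) hx, fun m => ?_⟩
  exact disjoint_left.1 (cmp_dis T'.cR) hy (m (k hy))

lemma total (hd : Disjoint Y' Y) : Y' ⊆ Rt ∨ Y ⊆ Rt' :=
  (T.thru S T'.rung hd).symm.imp_right (T.flip S T')

end Dat

/-- Sorting a finite set by decreasing weight. -/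
lemma sorted {β : Type} [Nonempty β] (w : β → ℕ) (n : ℕ) : ∀ I : Finset β, #I = n →
    ∃ Y : ℕ → β, (∀ i < n, Y i ∈ I) ∧ (∀ Z ∈ I, ∃ i < n, Y i = Z) ∧
      ∀ i j, i < j → j < n → w (Y j) ≤ w (Y i) ∧ Y i ≠ Y j := by
  induction n with
  | zero =>
    intro I hI
    obtain rfl := card_eq_zero.1 hI
    exact ⟨fun _ => Classical.arbitrary β, by simp, by simp, by simp⟩
  | succ n ih =>
    intro I hI
    obtain ⟨Z, z1, z2⟩ := exists_min_image I w (card_pos.1 (by omega))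
    obtain ⟨Y, y1, y2, y3⟩ := ih (I.erase Z) (by rw [card_erase_of_mem z1, hI]; rfl)
    refine ⟨fun i => if i < n then Y i else Z, fun i _ => ?_, fun W hW => ?_,
      fun i j a1 a2 => ?_⟩
    · by_cases m : i < n
      · simp only [if_pos m]
        exact mem_of_mem_erase (y1 i m)
      · simp only [if_neg m]
        exact z1
    · by_cases m : W = Z
      · exact ⟨n, n.lt_succ_self, by simp only [lt_irrefl, if_false, m]⟩
      · obtain ⟨i, k1, k2⟩ := y2 W (mem_erase.2 ⟨m, hW⟩)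
        exact ⟨i, by omega, by simp only [if_pos k1, k2]⟩
    · have m1 : i < n := by omega
      by_cases m : j < n
      · simp only [if_pos m, if_pos m1]
        exact y3 i j a1 m
      · simp only [if_neg m, if_pos m1]
        exact ⟨z2 _ (mem_of_mem_erase (y1 i m1)), (mem_erase.1 (y1 i m1)).1⟩

/-- Gaps that contain a vertex which is not plain. -/
noncomputable def bad (A : Finset (F D)) (q : F D) (p : ℕ → V D) (M : ℕ) (lo hi : ℕ → ℕ) :
    Finset ℕ :=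
  (range M).filter fun k => k + 1 < M ∧ ∃ m, lo k < m ∧ m < hi k ∧ ¬Plain A q (p m)

lemma card_bad (fr : Frm A L p dd) {M : ℕ} {lo hi : ℕ → ℕ}
    (h1 : ∀ k, k + 1 < M → Plain A q (p (lo k)) ∧ hi k ≤ L)
    (h2 : ∀ k k', k < k' → k' + 1 < M → hi k ≤ lo k' ∨ hi k' ≤ lo k) :
    #(bad A q p M lo hi) ≤ jn A q := by
  have key : ∀ k ∈ bad A q p M lo hi, ∃ m, lo k < m ∧ m < hi k ∧ Tch {q} (p m) ∧
      ¬Plain A q (p m) := by
    intro k hk
    obtain ⟨k1, ex⟩ := (mem_filter.1 hk).2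
    obtain ⟨a1, a2, a3⟩ := Nat.find_spec ex
    have a4 := fun n => Nat.find_min ex (m := n)
    generalize Nat.find ex = m at a1 a2 a3 a4
    obtain ⟨m, rfl⟩ : ∃ n, m = n + 1 := ⟨m - 1, by omega⟩
    have a5 : m < L := by have := (h1 k k1).2; omega
    have a6 : Plain A q (p m) := by
      rcases (Nat.le_of_lt_succ a1).lt_or_eq with e | e
      · exact by_contra fun n => a4 m m.lt_succ_self ⟨e, by omega, n⟩
      · exact e ▸ (h1 k k1).1
    exact ⟨m + 1, a1, a2, (fr.tch a5 (Or.inl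
      (mem_singleton.2 (plain_at fr a5 (Or.inl a6))))).2, a3⟩
  choose! μ m1 m2 m3 m4 using key
  have lt : ∀ k ∈ bad A q p M lo hi, μ k < L := fun k hk =>
    (m2 k hk).trans_le (h1 k (mem_filter.1 hk).2.1).2
  refine card_le_card_of_injOn (fun k => p (μ k)) (fun k hk => mem_coe.2 (mem_filter.2
    ⟨mem_univ _, m3 k hk, (fr.bv (lt k hk).le).2, m4 k hk⟩)) fun k hk k' hk' e => ?_
  have e' := fr.inj _ (lt k hk) _ (lt k' hk') e
  have a1 := m1 k hk
  have a2 := m2 k hk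
  have a3 := m1 k' hk'
  have a4 := m2 k' hk'
  rcases lt_trichotomy k k' with m | m | m
  · have := h2 k k' m (mem_filter.1 hk').2.1
    omega
  · exact m
  · have := h2 k' k m (mem_filter.1 hk).2.1
    omega

lemma not_bad {M : ℕ} {lo hi : ℕ → ℕ} (h1 : k + 1 < M) (h2 : k ∉ bad A q p M lo hi)
    (h3 : lo k < m) (h4 : m < hi k) : Plain A q (p m) :=
  by_contra fun n => h2 (mem_filter.2 ⟨mem_range.2 (by omega), h1, m, h3, h4, n⟩)

/-- The set that joins two rungs along plain vertices of `q`. -/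
lemma join (fr : Frm A L p dd) (hA : Disc A) {Y' : Finset (F D)} (s1 : Y ⊆ Aᶜ) (s2 : Y' ⊆ Aᶜ)
    (c1 : Conn Y) (c2 : Conn Y') (h1 : a ≤ b) (h2 : b ≤ L)
    (t1 : ∃ m, a ≤ m ∧ m ≤ b ∧ Tch Y (p m)) (t2 : ∃ m, a ≤ m ∧ m ≤ b ∧ Tch Y' (p m))
    (pl : ∀ m, a ≤ m → m ≤ b → Plain A q (p m)) :
    ∃ Z ⊆ Aᶜ, Conn Z ∧ Y ∪ Y' ⊆ Z ∧ (∀ x ∈ Z, x ∈ Y ∪ Y' ∨ Meet {x} {q}) ∧
      band A p a b ⊆ Z := by
  have key : ∀ {W : Finset (F D)}, W ⊆ Aᶜ → (∃ m, a ≤ m ∧ m ≤ b ∧ Tch W (p m)) →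
      ∃ x, x ∈ W ∧ x ∈ band A p a b := by
    rintro W s ⟨m, k1, k2, d, k3, k4⟩
    exact ⟨f d, k4, mem_band.2 ⟨s k4, m, k1, k2, d, k3, mem_singleton_self _⟩⟩
  refine ⟨Y ∪ (Y' ∪ band A p a b), union_subset s1 (union_subset s2 (filter_subset _ _)),
    conn_union c1 (conn_union c2 (conn_band fr hA h1 h2) (Or.inr (key s2 t2)))
      (Or.inr ((key s1 t1).imp fun x k => ⟨k.1, mem_union_right _ k.2⟩)),
    union_subset_union_right subset_union_left, fun x hx => ?_,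
    subset_union_right.trans subset_union_right⟩
  rw [← union_assoc] at hx
  refine (mem_union.1 hx).imp_right fun k => ?_
  obtain ⟨-, m, k1, k2, k3⟩ := mem_band.1 k
  exact ⟨p m, k3, (pl m k1 k2).2.1⟩

end OrdR

end PM

open PM PM.OrdR

theorem ord0 : OrdStmt := by
  intro D _ _ A h g I hA hne hI hd
  rcases I.eq_empty_or_nonempty with rfl | ⟨Y0, hY0⟩
  · refine ⟨fun _ => ∅, fun _ => ∅, fun _ => ∅, ∅, ?_, by simp, by simp, by simp⟩
    constructor <;> simp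
  obtain ⟨L, p, dd, c, S⟩ := exists_set2 hA hne (hI Y0 hY0).1
  have ex := fun Y (k : Y ∈ I) => exists_dat S (hI Y k).1 (hI Y k).2
  choose! Lf Rt tp bt T using ex
  obtain ⟨Y, y1, y2, y3⟩ := sorted (fun Y => #(Rt Y)) _ I rfl
  generalize #I = M at y1 y2 y3 ⊢
  replace T := fun i (k : i < M) => T (Y i) (y1 i k)
  have sub : ∀ i j, i < j → j < M → Y j ⊆ Rt (Y i) := fun i j a1 a2 =>
    ((T i (by omega)).total S (T j a2) (hd _ (y1 j a2) _ (y1 i (by omega))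
      (y3 i j a1 a2).2.symm)).resolve_right fun k =>
        absurd ((T j a2).card_lt S (T i (by omega)) k) (not_lt.2 (y3 i j a1 a2).1)
  have mono : ∀ i j, i ≤ j → j < M → tp (Y i) ≤ tp (Y j) ∧ bt (Y j) ≤ bt (Y i) := by
    intro i j a1 a2
    rcases a1.lt_or_eq with a1 | rfl
    · exact ⟨((T i (by omega)).rt_idx S (T j a2).tL ((T j a2).tY.mono (sub i j a1 a2))).1,
        ((T i (by omega)).rt_idx S (T j a2).bL ((T j a2).bY.mono (sub i j a1 a2))).2⟩
    · exact ⟨le_rfl, le_rfl⟩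
  set B1 := bad A h p M (fun k => tp (Y k)) fun k => tp (Y (k + 1)) with hB1
  set B2 := bad A g p M (fun k => bt (Y (k + 1))) fun k => bt (Y k) with hB2
  have pl : ∀ i j, i ≤ j → j < M → (∀ k ∈ B1 ∪ B2, k < i ∨ j ≤ k) → ∀ m,
      (tp (Y i) ≤ m → m ≤ tp (Y j) → Plain A h (p m)) ∧
        (bt (Y j) ≤ m → m ≤ bt (Y i) → Plain A g (p m)) := by
    intro i j a1
    induction j, a1 using Nat.le_induction with
    | base =>
      intro a2 _ m
      exact ⟨fun k1 k2 => le_antisymm k1 k2 ▸ (T i a2).tP,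
        fun k1 k2 => le_antisymm k1 k2 ▸ (T i a2).bP⟩
    | succ j a1 ih =>
      intro a2 a3 m
      have a4 := ih (by omega) (fun k hk => by have := a3 k hk; omega) m
      have a5 : j ∉ B1 ∪ B2 := fun k => by have := a3 j k; omega
      rw [mem_union, not_or] at a5
      refine ⟨fun k1 k2 => ?_, fun k1 k2 => ?_⟩
      · by_cases k3 : m ≤ tp (Y j)
        · exact a4.1 k1 k3
        rcases k2.lt_or_eq with k2 | k2
        · exact not_bad a2 a5.1 (not_le.1 k3) k2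
        · exact k2 ▸ (T _ a2).tP
      · by_cases k3 : bt (Y j) ≤ m
        · exact a4.2 k3 k2
        rcases k1.lt_or_eq with k1 | k1
        · exact not_bad a2 a5.2 k1 (not_le.1 k3)
        · exact k1 ▸ (T _ a2).bP
  have idx : ∀ i j, i < j → j < M → ∀ u, Tch (Rt (Y i) ∩ Lf (Y j)) u → Tch A u → ∃ m < L,
      p m = u ∧ (tp (Y i) ≤ m ∧ m ≤ tp (Y j) ∨ bt (Y j) ≤ m ∧ m ≤ bt (Y i)) := by
    intro i j a1 a2 u t1 t2
    obtain ⟨m, m1, rfl⟩ := S.fr.vs ⟨t2, t1.mono (inter_subset_right.trans (cmp_out (T j a2).cL))⟩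
    have b1 := (T i (by omega)).rt_idx S m1 (t1.mono inter_subset_left)
    have b2 := (T j a2).lf_idx S (t1.mono inter_subset_right)
    exact ⟨m, m1, rfl, by omega⟩
  refine ⟨Y, fun i => Lf (Y i), fun i => Rt (Y i), B1 ∪ B2, ⟨fun i k => (T i k).rung,
    fun i k => (T i k).cL, fun i k => (T i k).cR, fun i k => (T i k).dis S,
    fun i j a1 a2 => (T i (by omega)).nest S (T j a2) (sub i j a1 a2),
    fun i k Z hZ hZ' => (T i k).thru S hZ hZ', fun i j a1 a2 a3 u t1 t2 => ?_,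
    fun i j a1 a2 a3 q hq => ?_⟩, y1, y2, (card_union_le _ _).trans (Nat.add_le_add
      (card_bad S.fr (fun k a => ⟨(T k (by omega)).tP, (T _ a).tL.le⟩)
        fun k k' a1 a2 => Or.inl (mono _ _ a1 (by omega)).1)
      (card_bad S.fr (fun k a => ⟨(T _ a).bP, (T k (by omega)).bL.le⟩)
        fun k k' a1 a2 => Or.inr (mono _ _ a1 (by omega)).2))⟩
  · obtain ⟨m, -, rfl, k⟩ := idx i j a1 a2 u t1 t2
    exact k.imp (fun k => (pl i j a1.le a2 a3 m).1 k.1 k.2) fun k => (pl i j a1.le a2 a3 m).2 k.1 k.2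
  · have Ti := T i (by omega)
    have Tj := T j a2
    have mo := mono i j a1.le a2
    have fin : ∀ x ∈ Rt (Y i) ∩ Lf (Y j), Meet {x} {q} → x ∈ Aᶜ ∧ ∃ m, Tch {x} (p m) ∧
        (q = h ∧ tp (Y i) ≤ m ∧ m ≤ tp (Y j) ∨ q = g ∧ bt (Y j) ≤ m ∧ m ≤ bt (Y i)) := by
      rintro x hx ⟨u, u1, u2⟩
      have qA : q ∈ A := hq.elim (fun e => e ▸ Ti.tP.1) fun e => e ▸ Ti.bP.1
      obtain ⟨m, -, rfl, k⟩ := idx i j a1 a2 u (u1.mono (singleton_subset_iff.2 hx))
        (u2.mono (singleton_subset_iff.2 qA))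
      exact ⟨cmp_out Tj.cL (mem_inter.1 hx).2, m, u1, k.imp
        (fun k => ⟨((pl i j a1.le a2 a3 m).1 k.1 k.2).2.2 q qA u2, k⟩)
        fun k => ⟨((pl i j a1.le a2 a3 m).2 k.1 k.2).2.2 q qA u2, k⟩⟩
    rcases hq with rfl | rfl
    · obtain ⟨Z, z1, z2, z3, z4, z5⟩ := join S.fr hA Ti.rung.1 Tj.rung.1 Ti.rung.2.1 Tj.rung.2.1
        mo.1 Tj.tL.le ⟨_, le_rfl, mo.1, Ti.tY⟩ ⟨_, mo.1, le_rfl, Tj.tY⟩
        fun m => (pl i j a1.le a2 a3 m).1
      refine ⟨Z, z1, z2, z3, z4, fun x hx k => z5 ?_⟩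
      obtain ⟨k1, m, k2, k3⟩ := fin x hx k
      obtain ⟨-, k4, k5⟩ := k3.resolve_right fun k => hne k.1
      exact mem_band.2 ⟨k1, m, k4, k5, k2⟩
    · obtain ⟨Z, z1, z2, z3, z4, z5⟩ := join S.fr hA Ti.rung.1 Tj.rung.1 Ti.rung.2.1 Tj.rung.2.1
        mo.2 Ti.bL.le ⟨_, mo.2, le_rfl, Ti.bY⟩ ⟨_, le_rfl, mo.2, Tj.bY⟩
        fun m => (pl i j a1.le a2 a3 m).2
      refine ⟨Z, z1, z2, z3, z4, fun x hx k => z5 ?_⟩
      obtain ⟨k1, m, k2, k3⟩ := fin x hx k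
      obtain ⟨-, k4, k5⟩ := k3.resolve_left fun k => hne k.1.symm
      exact mem_band.2 ⟨k1, m, k4, k5, k2⟩

theorem ord (_hC : CntStmt) : OrdStmt := ord0

end Pool.Agent.MP_42ec7b_co

end MrgPart4

-- ======== part 5: formerly Pool.Agent.MP_42ec7b_co.A.RSl
section MrgPart5

/-!
Arms from many neighbours of a face; the process; the ranges between very large faces.
-/

set_option autoImplicit false

open Finset

namespace Pool.Agent.MP_42ec7b_co

open Classical PM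

namespace RSl

variable {D : Type} [PM D]

lemma ball_mono (U : Finset (F D)) {J J' : Finset (F D)} (h : J ⊆ J') (k : ℕ) :
    ball U J k ⊆ ball U J' k := by
  induction k with
  | zero => exact inter_subset_inter h Subset.rfl
  | succ k ih =>
    refine union_subset_union ih fun x hx => ?_
    rw [mem_filter] at hx ⊢
    exact ⟨hx.1, hx.2.mono Subset.rfl ih⟩

lemma ball_one (U J : Finset (F D)) (k : ℕ) :
    ∀ x ∈ ball U J k, ∃ y ∈ J, x ∈ ball U {y} k := by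
  induction k with
  | zero =>
    intro x hx
    obtain ⟨h1, h2⟩ := mem_inter.1 hx
    exact ⟨x, h1, mem_inter.2 ⟨mem_singleton_self x, h2⟩⟩
  | succ k ih =>
    intro x hx
    rcases mem_union.1 hx with h | h
    · obtain ⟨y, h1, h2⟩ := ih x h
      exact ⟨y, h1, mem_union_left _ h2⟩
    · obtain ⟨h1, d, h2, h3⟩ := mem_filter.1 h
      obtain ⟨y, h4, h5⟩ := ih _ h3
      exact ⟨y, h4, mem_union_right _ (mem_filter.2 ⟨h1, d, h2, h5⟩)⟩

lemma arms_mono {A : Finset (F D)} {g : F D} {K K' : ℕ} {I : Finset (Finset (F D))}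
    (h : Arms A g K I) (k : K ≤ K') : Arms A g K' I :=
  ⟨fun Y hY => let ⟨a, b, c, d, e⟩ := h.1 Y hY; ⟨a, b, c, d.trans k, e⟩, h.2⟩

lemma miss_le (a b : ℕ) : miss D a b ≤ b - a :=
  (card_filter_le _ _).trans (Nat.card_Ico a b).le

lemma miss_add (a b c : ℕ) : miss D a c ≤ miss D a b + miss D b c := by
  refine (card_le_card fun k hk => ?_).trans (card_union_le _ _)
  simp only [mem_union, mem_filter, mem_Ico] at hk ⊢
  by_cases h : k < b
  · exact Or.inl ⟨⟨hk.1.1, h⟩, hk.2⟩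
  · exact Or.inr ⟨⟨not_lt.1 h, hk.1.2⟩, hk.2⟩

lemma miss_seed {s S w e r : ℕ} {A P R L : Finset (F D)} (h : Seed s S w e r A P R L) {a b : ℕ}
    (h1 : ell A ≤ a + 2 * w) (h2 : b ≤ ell A) : miss D a b ≤ e := by
  obtain ⟨X, x1, x2, x3⟩ := h.flx
  have h3 : miss D a b ≤ #(range (2 * w + 1) \ X) := by
    refine card_le_card_of_injOn (fun k => ell A - k) (fun k hk => ?_) fun k hk k' hk' hh => ?_
    · simp only [coe_filter, mem_Ico, Set.mem_ofPred_eq] at hk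
      simp only [coe_sdiff, coe_range, Set.mem_sdiff, Set.mem_Iio, mem_coe]
      refine ⟨by omega, fun hX => hk.2 ?_⟩
      have := (x3 A h.disc h.sub h.dis _ hX).1
      rwa [Nat.sub_sub_self (by omega)] at this
    · simp only [coe_filter, mem_Ico, Set.mem_ofPred_eq] at hk hk' hh
      omega
  rw [card_sdiff_of_subset x1, card_range] at h3
  omega

end RSl

open RSl

theorem sl (h1 : Sl1Stmt) (h2 : Sl2Stmt) : SlStmt := by
  intro a cW
  obtain ⟨dep, a1, H1⟩ := h1 (2 * a)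
  refine ⟨dep, a1, fun K => ?_⟩
  obtain ⟨K1, c1, H1⟩ := H1 K
  obtain ⟨a2, K2, c2, H2⟩ := h2 (2 * a * cW) dep K
  refine ⟨2 * a2, K1 + K2, c1 + c2, ?_⟩
  intro D _ _ A Om Wl J h hc hA hW sW cWl hj hb hO s1 s2 hJ hy
  let p : F D → Prop := fun y => ∀ x ∈ ball (Aᶜ \ Om) {y} dep, ∀ z ∈ A, Meet {x} {z} → z = h
  have e := card_filter_add_card_filter_not (s := J) p
  by_cases hc1 : #J ≤ 2 * #(J.filter p)
  · have sb := filter_subset p J
    obtain ⟨I, i1, i2⟩ := H1 D A Om (J.filter p) h (by omega) hA (sW hW) hO (sb.trans s1)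
      (sb.trans s2) (hJ.trans ((Nat.mul_le_mul_left a hc1).trans_eq (by ring))) fun x hx => by
        obtain ⟨y, y1, y2⟩ := ball_one _ _ _ x hx
        exact ⟨(hb x (ball_mono _ sb _ hx)).1, (mem_filter.1 y1).2 x y2⟩
    exact ⟨I, h, hW, arms_mono i1 (by omega), i2.trans (Nat.mul_le_mul_right _ (by omega))⟩
  let Jg : F D → Finset (F D) := fun g =>
    J.filter fun y => ∃ x ∈ ball (Aᶜ \ Om) {y} dep, Meet {x} {g}
  have cov : (J.filter fun y => ¬p y) ⊆ (Wl.erase h).biUnion Jg := by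
    intro y hy'
    obtain ⟨y1, y2⟩ := mem_filter.1 hy'
    simp only [p, not_forall] at y2
    obtain ⟨x, x1, z, z1, ⟨u, u1, u2⟩, z2⟩ := y2
    obtain ⟨g, g1, g2⟩ := (hb x (ball_mono _ (singleton_subset_iff.2 y1) _ x1)).2 u u1
      (u2.mono (singleton_subset_iff.2 z1))
    obtain rfl : z = g := g2.2.2 z z1 u2
    exact mem_biUnion.2 ⟨z, mem_erase.2 ⟨z2, g1⟩, mem_filter.2 ⟨y1, x, x1, u, u1, u2⟩⟩
  obtain ⟨y0, hy0⟩ : (J.filter fun y => ¬p y).Nonempty := card_pos.1 (by omega)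
  obtain ⟨g0, hg0, -⟩ := mem_biUnion.1 (cov hy0)
  obtain ⟨g, g1, g2⟩ := exists_max_image (Wl.erase h) (fun g => #(Jg g)) ⟨g0, hg0⟩
  obtain ⟨g3, g4⟩ := mem_erase.1 g1
  have c3 := (card_le_card cov).trans ((card_biUnion_le_card_mul _ _ _ g2).trans
    (Nat.mul_le_mul_right _ ((card_erase_le).trans cWl)))
  have sb : Jg g ⊆ J := filter_subset _ _
  obtain ⟨I, q, q1, i1, i2⟩ := H2 D A Om (Jg g) h g (by omega) hA (sW hW) (sW g4) g3.symm
    (hj h hW).1 (hj g g4).1 (by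
      have k1 := (hj h hW).2
      have k2 := (hj g g4).2
      nlinarith)
    (fun x hx => ⟨(hb x (ball_mono _ sb _ hx)).1, fun u u1 u2 =>
      let ⟨q, _, k⟩ := (hb x (ball_mono _ sb _ hx)).2 u u1 u2; ⟨q, k⟩⟩)
    (sb.trans s1)
    (hJ.trans ((Nat.mul_le_mul_left a (show #J ≤ 2 * (cW * #(Jg g)) by omega)).trans_eq (by ring)))
    fun y hy' => ⟨hy y (sb hy') g g4 g3, (mem_filter.1 hy').2⟩
  refine ⟨I, q, ?_, arms_mono i1 (by omega), i2.trans (Nat.mul_le_mul_right _ (by omega))⟩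
  rcases q1 with rfl | rfl <;> assumption

theorem proc : ProcStmt := by
  intro D _ s S w e r E μ l hw hl hr hS
  suffices H : ∀ n m : ℕ, ∀ A P R L : Finset (F D), rank S A P = n → wt A = m →
      Seed s S w e r A P R L → (∀ x ∈ A, S ≤ sz x → sz x ≤ μ) →
      ∀ u ≤ ell A, w * miss D l u ≤ e * u + w * (3 * med s S A + E * rank S A P) from
    fun A P R L => H _ _ A P R L rfl rfl
  intro n
  induction n using Nat.strong_induction_on with
  | _ n ihn =>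
  intro m
  induction m using Nat.strong_induction_on with
  | _ m ihm =>
  intro A P R L hn hm hs hμ u
  induction u using Nat.strong_induction_on with
  | _ u ihu =>
  intro hu
  by_cases h0 : u ≤ l
  · have := miss_le (D := D) l u
    rw [show miss D l u = 0 by omega]
    simp
  by_cases h1 : ell A ≤ u + w
  · obtain ⟨v, rfl⟩ : ∃ v, u = v + w := ⟨u - w, by omega⟩
    have k1 := ihu v (by omega) (by omega)
    have k2 := (miss_add l v (v + w)).trans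
      (Nat.add_le_add_left (miss_seed hs (a := v) (by omega) hu) _)
    have k3 := Nat.mul_le_mul_left w k2
    nlinarith
  have fin : ∀ a b c d : ℕ, w * miss D l a ≤ e * a + w * b → a ≤ u → u - a + b ≤ c →
      w * miss D l u ≤ e * u + w * c := fun a b c d k1 k2 k3 => by
    have k4 := (miss_add (D := D) l a u).trans (Nat.add_le_add_left (miss_le a u) _)
    have k5 := Nat.mul_le_mul_left w k4
    have k6 := Nat.mul_le_mul_left w k3
    have k7 := Nat.mul_le_mul_left e k2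
    rw [mul_add] at k5 k6
    omega
  rcases hS A P R L hs with h | ⟨A', P', R', L', s', v1, v2, h⟩
  · have k1 := h μ hμ
    have k2 := miss_le (D := D) l l
    refine fin l 0 _ 0 ?_ (by omega) (by omega)
    rw [show miss D l l = 0 by omega]
    simp
  have hμ' : ∀ x ∈ A', S ≤ sz x → sz x ≤ μ := fun x hx k =>
    hμ x (mem_filter.1 (v1 (mem_filter.2 ⟨hx, k⟩))).1 k
  rcases h with ⟨k1, k2, k3⟩ | ⟨k1, k3⟩
  · have k4 := Nat.mul_le_mul_left E k1
    refine fin (min u (ell A')) _ _ 0 ?_ (min_le_left _ _)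
      (show _ + (3 * med s S A' + E * rank S A' P') ≤ _ by omega)
    rcases k1.eq_or_lt with k | k
    · exact ihm _ (hm ▸ k2) A' P' R' L' (k.trans hn) rfl s' hμ' _ (min_le_right _ _)
    · exact ihn _ (hn ▸ k) _ A' P' R' L' rfl rfl s' hμ' _ (min_le_right _ _)
  · have k4 := Nat.mul_le_mul_left E (Nat.succ_le_of_lt k1)
    rw [Nat.mul_succ] at k4
    exact fin (min u (ell A')) _ _ 0
      (ihn _ (hn ▸ k1) _ A' P' R' L' rfl rfl s' hμ' _ (min_le_right _ _)) (min_le_left _ _)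
      (by omega)

theorem rng : RangeStmt := by
  intro D _ s S w e r θ c1 c2 _ H1 H2
  suffices H : ∀ n : ℕ, ∀ A P R L : Finset (F D), Seed s S w e r A P R L →
      #{x : F D | θ < sz x ∧ ∃ y ∈ A, sz x ≤ sz y} ≤ n →
      miss D 0 (ell A) ≤ θ + (n + 1) * (c1 + c2 + r) from
    fun A P R L hs => H _ A P R L hs (card_le_card fun x hx => by
      rw [mem_filter] at hx ⊢
      exact ⟨hx.1, hx.2.1⟩)
  have base : ∀ n : ℕ, ∀ A P R L : Finset (F D), Seed s S w e r A P R L → (∀ x ∈ A, sz x ≤ θ) →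
      miss D 0 (ell A) ≤ θ + (n + 1) * (c1 + c2 + r) := fun n A P R L hs h => by
    have k1 := H1 θ A P R L le_rfl hs h
    have k2 := miss_add (D := D) 0 (θ + r) (ell A)
    have k3 := miss_le (D := D) 0 (θ + r)
    rw [add_mul]
    omega
  intro n
  induction n with
  | zero =>
    intro A P R L hs hn
    refine base 0 A P R L hs fun x hx => not_lt.1 fun k => ?_
    have := card_pos.2 ⟨x, (mem_filter.2 ⟨mem_univ x, k, x, hx, le_rfl⟩ :
      x ∈ ({x : F D | θ < sz x ∧ ∃ y ∈ A, sz x ≤ sz y} : Finset (F D)))⟩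
    omega
  | succ n ih =>
    intro A P R L hs hn
    obtain ⟨x, x1, x2⟩ := exists_max_image A sz hs.disc.1
    by_cases hx : sz x ≤ θ
    · exact base _ A P R L hs fun y hy => (x2 y hy).trans hx
    obtain ⟨A', P', R', L', s', a1, a2⟩ := H2 x (not_le.1 hx)
    have k0 := ih A' P' R' L' s' (Nat.le_of_lt_succ (lt_of_lt_of_le (card_lt_card ?_) hn))
    · have k1 := H1 (sz x) A P R L (not_le.1 hx).le hs x2
      have k2 := miss_add (D := D) 0 (sz x + r) (ell A)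
      have k3 := miss_add (D := D) 0 (ell A') (sz x + r)
      have k4 := miss_le (D := D) (ell A') (sz x + r)
      rw [add_mul (n + 1)]
      omega
    · refine ⟨fun z hz => ?_, fun k => ?_⟩
      · obtain ⟨z1, z2, y, y1, y2⟩ := mem_filter.1 hz
        exact mem_filter.2 ⟨z1, z2, x, x1, y2.trans (a1 y y1).le⟩
      · obtain ⟨-, -, y, y1, y2⟩ := mem_filter.1
          (k (mem_filter.2 ⟨mem_univ x, not_le.1 hx, x, x1, le_rfl⟩))
        exact absurd (a1 y y1) (not_lt.2 y2)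

end Pool.Agent.MP_42ec7b_co

end MrgPart5

-- ======== part 6: formerly Pool.Agent.MP_42ec7b_co.A.ToPM
section MrgPart6

/-!
The map of a planar 4-connected graph.
-/

set_option autoImplicit false

open Finset

namespace Pool.Agent.MP_42ec7b_co

open Classical

variable {V : Type} [Fintype V] {G : SimpleGraph V}

omit [Fintype V] in
lemma pm_cut (h4 : ∀ S : Finset V, S.card ≤ 3 → (G.induce ((↑S : Set V)ᶜ)).Connected)
    (X : Set V) (a b c : V)
    (h : ∀ d : G.Dart, d.fst ∈ X → d.snd ∉ X → d.snd = a ∨ d.snd = b ∨ d.snd = c) :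
    ∀ u ∈ X, u ≠ a → u ≠ b → u ≠ c → ∀ w, w ≠ a → w ≠ b → w ≠ c → w ∈ X := by
  intro u hu u1 u2 u3 w w1 w2 w3
  by_contra k
  obtain ⟨p⟩ := (h4 {a, b, c} card_le_three).preconnected ⟨u, by simp [u1, u2, u3]⟩
    ⟨w, by simp [w1, w2, w3]⟩
  obtain ⟨d, -, c1, c2⟩ := p.exists_boundary_dart {e | e.1 ∈ X} hu k
  exact d.snd.2 (by simpa using h ⟨(d.fst.1, d.snd.1), d.adj⟩ c1 c2)

/-- The map of the graph. -/
@[reducible] noncomputable def toPM (h5 : 4 < Fintype.card V)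
    (h4 : ∀ S : Finset V, S.card ≤ 3 → (G.induce ((↑S : Set V)ᶜ)).Connected)
    {ρ φ : Equiv.Perm G.Dart} (hρ : ∀ d d', ρ.SameCycle d d' ↔ d.fst = d'.fst)
    (hφ : ∀ d, φ d = ρ d.symm) (he : Nat.card V +
      Nat.card (Quotient (Equiv.Perm.SameCycle.setoid φ)) = Nat.card G.edgeSet + 2) :
    PM G.Dart where
  V := V
  F := Quotient (Equiv.Perm.SameCycle.setoid φ)
  E := G.edgeSet
  fD := inferInstance
  fV := inferInstance
  fF := Fintype.ofFinite _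
  fE := Fintype.ofFinite _
  α := SimpleGraph.Dart.symm_involutive.toPerm _
  ρ := ρ
  v d := d.fst
  f d := Quotient.mk _ d
  ed d := ⟨d.edge, d.edge_mem⟩
  αα d := d.symm_symm
  v_eq d d' := (hρ d d').symm
  f_eq d d' := by
    rw [show ρ * SimpleGraph.Dart.symm_involutive.toPerm _ = φ from Equiv.ext fun d => (hφ d).symm]
    exact Quotient.eq
  ed_eq d d' := by
    rw [Subtype.ext_iff, eq_comm]
    exact SimpleGraph.dart_edge_eq_iff _ _
  v_surj u := by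
    obtain ⟨w, hw⟩ := Fintype.exists_ne_of_one_lt_card (by omega) u
    obtain ⟨p⟩ := (h4 ∅ (by simp)).preconnected ⟨u, by simp⟩ ⟨w, by simp⟩
    obtain ⟨d, -, c1, -⟩ := p.exists_boundary_dart {e | e.1 = u} rfl hw
    exact ⟨⟨(d.fst.1, d.snd.1), d.adj⟩, c1⟩
  f_surj := Quotient.mk_surjective
  ed_surj := by
    rintro ⟨e, he⟩
    induction e using Sym2.ind with
    | h a b => exact ⟨⟨(a, b), he⟩, rfl⟩
  loop d := d.snd_ne_fst
  simple d d' h1 h2 := SimpleGraph.Dart.ext _ _ (Prod.ext h1 h2)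
  euler := by simpa only [← Nat.card_eq_fintype_card] using he
  five := h5
  c4 := pm_cut h4

/-- Transfer of a statement on maps in which every vertex has degree four. -/
theorem of_pm (P : (W : Type) → SimpleGraph W → Prop)
    (h : ∀ (D : Type) [PM D], (∀ u : PM.V D, #{d : D | PM.v d = u} = 4) → P (PM.V D) (PM.Γ D))
    (hp : Planar G) (hr : ∀ u, (G.neighborSet u).ncard = 4) (h5 : 4 < Fintype.card V)
    (h4 : ∀ S : Finset V, S.card ≤ 3 → (G.induce ((↑S : Set V)ᶜ)).Connected) : P V G := by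
  obtain ⟨ρ, φ, hρ, hφ, he⟩ := hp
  have k := @h _ (toPM h5 h4 hρ hφ he) fun u => by
    have := G.dart_fst_fiber_card_eq_degree u
    rw [← SimpleGraph.card_neighborSet_eq_degree, ← Nat.card_eq_fintype_card,
      Nat.card_coe_set_eq, hr] at this
    convert this <;> rfl
  have e : @PM.Γ _ (toPM h5 h4 hρ hφ he) = G := by
    ext u w
    exact ⟨fun ⟨d, h1, h2⟩ => h1 ▸ h2 ▸ d.adj, fun a => ⟨⟨(u, w), a⟩, rfl, rfl⟩⟩
  exact e ▸ k

end Pool.Agent.MP_42ec7b_co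

end MrgPart6

-- ======== part 7: formerly Pool.Agent.MP_42ec7b_co.A.Bridge
section MrgPart7

/-!
From maps to graphs.
-/

set_option autoImplicit false

open Finset

namespace Pool.Agent.MP_42ec7b_co

open Classical PM

theorem bridge (h : MainStmt) (ε : ℝ) (hε : 0 < ε) : ∃ n0 : ℕ, ∀ (V : Type) [Fintype V]
    (G : SimpleGraph V), Planar G → (∀ v : V, (G.neighborSet v).ncard = 4) →
    (4 < Fintype.card V ∧
      ∀ S : Finset V, S.card ≤ 3 → (G.induce ((↑S : Set V)ᶜ)).Connected) →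
    n0 ≤ Fintype.card V →
    ({k : ℕ | 3 ≤ k ∧ k ≤ Fintype.card V ∧
      ¬∃ (v : V) (p : G.Walk v v), p.IsCycle ∧ p.length = k}.ncard : ℝ) ≤ ε * Fintype.card V := by
  obtain ⟨T, hT⟩ := exists_nat_ge (1 / ε)
  obtain ⟨n0, h⟩ := h T
  refine ⟨n0, fun V _ G hp hr h4 hn => ?_⟩
  have key := of_pm (fun W Γ => n0 ≤ Nat.card W →
      T * {k : ℕ | 3 ≤ k ∧ k ≤ Nat.card W ∧ ¬HasCyc Γ k}.ncard ≤ Nat.card W) (fun D _ h4 hn => by
    have : Q4 D := ⟨h4⟩
    rw [Nat.card_eq_fintype_card] at hn ⊢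
    refine (Nat.mul_le_mul_left T ?_).trans (h D hn)
    rw [miss, ← Set.ncard_coe_finset]
    refine Set.ncard_le_ncard (fun k hk => ?_) (finite_toSet _)
    refine mem_coe.2 (mem_filter.2 ⟨mem_Ico.2 ⟨Nat.zero_le _, Nat.lt_succ_of_le hk.2.1⟩, ?_⟩)
    rintro ⟨S, s1, rfl⟩
    exact hk.2.2 (cyc_ell s1)) hp hr h4.1 h4.2
  rw [Nat.card_eq_fintype_card] at key
  have k1 := (Nat.cast_le (α := ℝ)).2 (key hn)
  rw [Nat.cast_mul] at k1
  rw [div_le_iff₀ hε] at hT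
  refine le_trans ?_ (mul_le_mul_of_nonneg_left k1 hε.le)
  rw [← mul_assoc, mul_comm ε]
  exact le_mul_of_one_le_left (Nat.cast_nonneg _) hT

end Pool.Agent.MP_42ec7b_co

end MrgPart7

-- marker of a merged file
example : 731051 + 773642 = 731051 + 773642 := rfl
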