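import Pool.Agent.MP_42ec7b_co.A.TAtt
import Pool.Agent.MP_42ec7b_co.A.RCh
import Pool.Agent.MP_42ec7b_co.A.PD2

-- ======== part 0: formerly Pool.Agent.MP_42ec7b_co.A.TOrd
section MrgPart0

/-!
The order in which a component sees the outside.
-/

set_option autoImplicit false

open Finset

namespace Pool.Agent.MP_42ec7b_co

open Classical

namespace PM

variable {D : Type} [PM D]

theorem mono {Ω K : Finset (F D)} (hΩ : Disc Ω) (hK : K ⊆ Ω) (cK : Conn K) {z z' : D → ZMod 2}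
    {t b a r0 : V D} (hz : Ch z t b) (hz' : Ch z' b t)
    (z1 : ∀ d, z d = 1 → Bd Ω d ∨ Bd Ω (α d))
    (z2 : ∀ d, z' d = 1 → InE Ω d ∧ ¬(f d ∈ K ∧ f (α d) ∈ K))
    {d0 : D} (d1 : f d0 ∈ K) (d2 : f (α d0) ∉ Ω) (d3 : z d0 = 1) (d4 : z' d0 = 0)
    (a1 : Tch Ωᶜ a) (a2 : ∀ d, v d = a → z d = 0 ∧ z' d = 0) (r1 : Tch K r0)
    {E : D → Prop} {N : V D → Prop} (w : Rch E N r0 a) (w1 : ∀ d, E d → InE Ω d)
    (w2 : ∀ d, Rch E N r0 (v d) → N (v d) → z' d = 0) : False := by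
  obtain ⟨y, y0, hy⟩ := (hz.add hz').side (f (α d0))
  have e1 : ∀ d, (f d ∈ Ω ↔ f (α d) ∈ Ω) → z d = 0 := fun d k => z2_zero fun m =>
    (z1 d m).elim (fun q => q.2 (k.1 q.1)) fun q => q.2 (by rw [αα]; exact k.2 q.1)
  have e2 : ∀ d, z d = 0 → z' d = 0 → y (f d) = y (f (α d)) := fun d k1 k2 =>
    z2_add_eq.1 ((hy d).symm.trans (by rw [k1, k2, add_zero]))
  have out : ∀ g, g ∉ Ω → y g = 0 := fun g hg =>
    (const_on hΩ.2.2.2 y (fun d k1 k2 => e2 d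
      (e1 d (iff_of_false (mem_compl.1 k1) (mem_compl.1 k2))) (z2_zero fun m =>
        (z2 d m).1.elim (mem_compl.1 k1) (mem_compl.1 k2))) (mem_compl.2 hg)
          (mem_compl.2 d2)).trans y0
  have one : y (f d0) = 1 := by
    have := hy d0
    rw [d3, d4, y0, add_zero, add_zero] at this
    exact this.symm
  have inn : ∀ g ∈ K, y g = 1 := fun g hg =>
    (const_on cK y (fun d k1 k2 => e2 d (e1 d (iff_of_true (hK k1) (hK k2)))
      (z2_zero fun m => (z2 d m).2 ⟨k1, k2⟩)) hg d1).trans one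
  have key : ∀ c, v c = r0 → f c ∈ Ω → y (f c) = 0 := by
    refine w.back (P := fun r => ∀ c, v c = r → f c ∈ Ω → y (f c) = 0) ?_ ?_
    · obtain ⟨c0, k1, k2⟩ := a1
      intro c k3 _
      exact round (P := fun g => y g = 0) (k3.trans k1.symm) (fun d m1 m2 =>
        (e2 d (a2 d (m1.trans k1)).1 (a2 d (m1.trans k1)).2).symm.trans m2)
          (out _ (mem_compl.1 k2))
    · intro d k1 k2 k3 k4 c k5 k6
      obtain ⟨c1, m1, m2, m3⟩ : ∃ c1, v c1 = v d ∧ f c1 ∈ Ω ∧ y (f c1) = 0 := by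
        rcases w1 d k3 with m | m
        · have := k4 (φ d) (vφ d) (by rwa [fφ])
          rw [fφ] at this
          exact ⟨d, rfl, m, this⟩
        · exact ⟨ρ d, vρ d, by rwa [fρ], by rw [fρ]; exact k4 _ rfl m⟩
      refine (ivl hΩ (Q := fun g => y g = 0) (k5.trans m1.symm) m2 k6 fun e n1 n2 n3 => ?_).1 m3
      have n4 : v e = v d := n1.trans m1
      rw [e2 e (e1 e (iff_of_true n2 n3)) (w2 e (n4 ▸ k1) (n4 ▸ k2))]
  obtain ⟨c, k1, k2⟩ := r1
  exact zero_ne_one ((key c k1 (hK k2)).symm.trans (inn _ k2))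

lemma tord_add {x y : ZMod 2} (h : x + y = 1) : x = 1 ∨ y = 1 := by revert x y; decide

lemma tord_bd {S : Finset (F D)} {c d : D} (h : Bd S c) (k : d = c ∨ d = α c) :
    Bd S d ∨ Bd S (α d) := by
  rcases k with rfl | rfl
  exacts [Or.inl h, Or.inr (by rwa [αα])]

namespace Cfg

variable {X : Cfg D} {S K : Finset (F D)} {L k : ℕ} {p : ℕ → V D} {dd : ℕ → D}

lemma tord_sub (hK : X.Cm S K) : K ⊆ X.Ω S := fun _ h => (Cp_sub (hK.1 h)).1

lemma tord_nd (hK : X.Cm S K) {r : V D} (h : Tch K r) : ¬X.D2 S r := Cp_ntch (h.mono hK.1)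

/-- Two vertices of the component with pendant walks to a one-coloured vertex are equal. -/
lemma tord_eq (s : X.St S) (hK : X.Cm S K) {a b r : V D} (ha : Tch K a) (hb : Tch K b)
    (h1 : X.pr S a r) (h2 : X.pr S b r) (hr : ¬X.D2 S r) : a = b :=
  (pd2 s).pend (Or.inr (ha.mono hK.1)) (Or.inr (hb.mono hK.1))
    ((Rch.mono h1 fun _ _ k1 k2 => ⟨fun m => k1 m.1, k2⟩).trans
      (Rch.rev h2 (fun _ k => nHE_symm k) (fun _ k m => k m.1) hr))

/-- The chain from the end of a pendant walk to the start of the frame. -/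
lemma tord_pi (s : X.St S) (hK : X.Cm S K) (fr : Frm K L p dd) {i : ℕ} {b : V D} (h0 : 0 < i)
    (h1 : i < L) (h : X.pr S (p i) b) : ∃ z, Ch z b (p 0) ∧
      (∀ d, z d = 1 → InE (X.Ω S) d ∧ ¬(f d ∈ K ∧ f (α d) ∈ K)) ∧ z (dd 0) = 0 ∧
      (∀ d, X.D2 S (v d) → v d ≠ b → z d = 0) ∧
      ∀ j, 0 < j → j < i → ∀ d, X.pr S (p j) (v d) → ¬BV S (v d) → z d = 0 := by
  obtain ⟨z1, c1, e1⟩ := Rch.lk' h
  obtain ⟨z2, c2, e2⟩ := fr.seg h1.le le_rfl
  rw [fr.per] at c2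
  have tK : ∀ n < L, Tch K (p n) := fun n hn => (fr.tch hn (Or.inl (fr.bd n hn).1)).1
  have f1 : ∀ d, z1 d = 1 → InE (X.Ω S) d ∧ ¬X.H2 S d := fun d m =>
    (e1 d m).elim (fun q => q.1) fun q => by
      have := nHE_symm q.1
      rwa [αα] at this
  have f2 : ∀ d, z2 d = 1 → Bd K d ∨ Bd K (α d) := fun d m => by
    obtain ⟨n, -, k2, k3⟩ := (e2 d).1 m
    exact tord_bd (fr.bd n k2) k3
  have f3 : ∀ d, z2 d = 1 → InE K d := fun d m => (f2 d m).imp (fun q => q.1) fun q => q.1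
  refine ⟨_, c1.symm.add c2, fun d m => ?_, z2_zero fun m => ?_,
    fun d k1 k2 => z2_zero fun m => ?_, fun j j0 j1 d k1 k2 => z2_zero fun m => ?_⟩
  · rcases tord_add m with m | m
    · exact ⟨(f1 d m).1, fun q => (f1 d m).2 (Or.inr (Or.inr (Or.inl (hK.1 q.1))))⟩
    · exact ⟨(f3 d m).mono (tord_sub hK), fun q =>
        (f2 d m).elim (fun n => n.2 q.2) fun n => n.2 (by rw [αα]; exact q.1)⟩
  · have b0 := fr.bd 0 (h0.trans h1)
    rcases tord_add m with m | m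
    · exact (f1 _ m).2 (Or.inr (Or.inr (Or.inl (hK.1 b0.1))))
    · obtain ⟨n, k1, k2, k3 | k3⟩ := (e2 _).1 m
      · have := fr.dinj 0 (h0.trans h1) n k2 k3
        omega
      · exact (fr.bd n k2).2 (k3 ▸ b0.1)
  · rcases tord_add m with m | m
    · rcases e1 d m with q | q
      · exact q.2.1 k1.1
      · rw [αα] at q
        exact q.2.2.2.elim (fun n => n k1.1) k2
    · exact tord_nd hK (f3 d m).tch k1
  · have nd : ¬X.D2 S (v d) := fun q => k2 q.1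
    rcases tord_add m with m | m
    · have q : X.pr S (p i) (v d) := by
        rcases e1 d m with q | q
        · exact q.2.2.1
        · have := Rch.tail q.2.2.1 q.2.1 q.1
          rwa [αα] at this
      have := fr.inj i h1 j (j1.trans h1) (tord_eq s hK (tK i h1) (tK j (j1.trans h1)) q k1 nd)
      omega
    · have q := tord_eq s hK (tK j (j1.trans h1)) (f3 d m).tch k1 Rch.refl nd
      obtain ⟨n, n1, n2, n3⟩ := (e2 d).1 m
      rcases fr.vend n2 n3 with n4 | n4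
      · have := fr.inj j (j1.trans h1) n n2 (q.trans n4)
        omega
      · have := fr.inj' j0 (j1.trans h1).le n.succ_pos n2 (q.trans n4)
        omega

theorem ordAB (s : X.St S) (hK : X.Cm S K)
    (fr : IFr (S ∪ X.M S \ K) (Sᶜ \ X.M S) K L k p dd) {a b : V D} (ha : X.D2 S a)
    (hb : X.D2 S b) (hne : a ≠ b) :
    (∀ i j, k < j → j < i → i < L → X.pr S (p i) b → X.pr S (p j) a → False) ∨
      ∀ i j, k < j → j < i → i < L → X.pr S (p i) a → X.pr S (p j) b → False := by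
  have L0 : 0 < L := fr.k0.trans fr.kL
  have b0 := fr.bd 0 L0
  have kS : K ⊆ Sᶜ := fun g hg => mem_compl.2 (M_sub (hK.1 hg)).2
  have oS : X.Ω S ⊆ Sᶜ := fun g hg => mem_compl.2 (mem_sdiff.1 hg).2
  have b1 : f (α (dd 0)) ∉ Sᶜ := fun m => (mem_union.1 (fr.red 0 fr.k0)).elim (mem_compl.1 m)
    fun q => b0.2 (hK.2.2.1 _ b0.1 (mem_sdiff.1 q).1)
  have dS : Disc Sᶜ := (Sol.disc s X.inst1).compl
  obtain ⟨L', q, ee, gr, g1, g2⟩ := exists_frm (t := p 0) dS ⟨kS b0.1, b1⟩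
    ((fr.ends 0 L0).imp (fun m => m.1.symm) fun m => m.2.symm)
  have tK : ∀ n < L, Tch K (p n) := fun n hn => (fr.toFrm.tch hn (Or.inl (fr.bd n hn).1)).1
  have key : ∀ ia ib, ib < ia → ia < L' → X.D2 S (q ia) → X.D2 S (q ib) → ∀ i j, k < j → j < i →
      i < L → X.pr S (p i) (q ib) → X.pr S (p j) (q ia) → False := by
    intro ia ib h1 h2 h3 h4 i j a1 a2 a3 a4 a5
    have i0 : 0 < ib := Nat.pos_of_ne_zero fun m => tord_nd hK (tK 0 L0) (by rwa [m, g2] at h4)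
    obtain ⟨z, c1, e1⟩ := gr.seg ib.zero_le (h1.trans h2).le
    obtain ⟨z', c2, p1, p2, p3, p4⟩ := tord_pi s hK fr.toFrm (by omega) a3 a4
    rw [g2] at c1
    refine mono dS kS hK.2.1 c1 c2 (fun d m => ?_) (fun d m => ⟨(p1 d m).1.mono oS, (p1 d m).2⟩)
      b0.1 b1 ((e1 _).2 ⟨0, le_rfl, i0, Or.inl g1.symm⟩) p2 (by rw [compl_compl]; exact h3.1.1)
      (fun d m => ⟨z2_zero fun n => ?_, p3 d (m ▸ h3) fun n => ?_⟩) (tK j (a2.trans a3)) a5
      (fun d m => m.1.mono oS) (p4 j (by omega) a2)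
    · obtain ⟨n, -, n2, n3⟩ := (e1 d).1 m
      exact tord_bd (gr.bd n (by omega)) n3
    · obtain ⟨n, -, n2, n3⟩ := (e1 d).1 n
      rcases gr.vend (by omega) n3 with n4 | n4
      · have := gr.inj ia h2 n (by omega) (m.symm.trans n4)
        omega
      · have := gr.inj ia h2 (n + 1) (by omega) (m.symm.trans n4)
        omega
    · have := gr.inj ia h2 ib (by omega) (m.symm.trans n)
      omega
  obtain ⟨ia, a1, rfl⟩ := gr.vs (bv_compl.2 ha.1)
  obtain ⟨ib, a2, rfl⟩ := gr.vs (bv_compl.2 hb.1)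
  rcases lt_trichotomy ib ia with m | m | m
  · exact Or.inl (key ia ib m a1 ha hb)
  · exact absurd (by rw [m]) hne
  · exact Or.inr (key ib ia m a2 hb ha)

theorem ordC (s : X.St S) (hK : X.Cm S K)
    (fr : IFr (S ∪ X.M S \ K) (Sᶜ \ X.M S) K L k p dd) {i0 : ℕ} (h0 : i0 < X.m)
    (h1 : dd 0 = X.dd i0) (h2 : p 0 = X.p (i0 + 1)) {i j n : ℕ} (a1 : k < j) (a2 : j < i)
    (a3 : i < L) (a4 : X.j < n) (a5 : n < X.L) (b1 : X.pr S (p i) (X.p n))
    (b2 : X.pr S (p j) (X.p X.j)) : False := by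
  have m1 := X.mk1
  have m2 := X.kj
  have m3 := X.jL
  have gr := X.fr.toFrm
  have b0 := fr.bd 0 (fr.k0.trans fr.kL)
  have bi := gr.bd i0 (by omega)
  have oU : X.Ω S ⊆ X.U := sdiff_subset
  obtain ⟨z1, c1, e1⟩ := gr.seg a5.le le_rfl
  obtain ⟨z2, c2, e2⟩ := gr.seg (i0 + 1).zero_le (by omega : i0 + 1 ≤ X.L)
  obtain ⟨z', c3, p1, p2, p3, p4⟩ := tord_pi s hK fr.toFrm (by omega) a3 b1
  rw [gr.per] at c1
  rw [← h2] at c2
  have hz : ∀ d, z1 d + z2 d = 1 → ∃ n', (n ≤ n' ∨ n' ≤ i0) ∧ n' < X.L ∧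
      (d = X.dd n' ∨ d = α (X.dd n')) := fun d m => by
    rcases tord_add m with m | m
    · obtain ⟨n', k1, k2, k3⟩ := (e1 d).1 m
      exact ⟨n', Or.inl k1, k2, k3⟩
    · obtain ⟨n', -, k2, k3⟩ := (e2 d).1 m
      exact ⟨n', Or.inr (by omega), by omega, k3⟩
  refine mono X.disc ((tord_sub hK).trans oU) hK.2.1 (c1.add c2).symm c3 (fun d m => ?_)
    (fun d m => ⟨(p1 d m).1.mono oU, (p1 d m).2⟩) b0.1 (h1 ▸ bi.2) ?_ p2 (gr.bv m3.le).2
    (fun d m => ⟨z2_zero fun q => ?_, p3 d (m ▸ d2c s) fun q => ?_⟩)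
    (fr.toFrm.tch (a2.trans a3) (Or.inl (fr.bd j (a2.trans a3)).1)).1 b2
    (fun d m => m.1.mono oU) (p4 j (by omega) a2)
  · obtain ⟨n', -, k2, k3⟩ := hz d m
    exact tord_bd (gr.bd n' k2) k3
  · have k1 : z1 (dd 0) = 0 := z2_zero fun m => by
      obtain ⟨n', k1, k2, k3 | k3⟩ := (e1 _).1 m
      · have := gr.dinj i0 (by omega) n' k2 (h1.symm.trans k3)
        omega
      · exact (gr.bd n' k2).2 (by rw [← k3, h1]; exact bi.1)
    have k2 : z2 (dd 0) = 1 := (e2 _).2 ⟨i0, i0.zero_le, i0.lt_succ_self, Or.inl h1⟩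
    rw [k1, k2, zero_add]
  · obtain ⟨n', k1, k2, k3⟩ := hz d q
    rcases gr.vend k2 k3 with k4 | k4
    · have := gr.inj X.j m3 n' k2 (m.symm.trans k4)
      omega
    · have := gr.inj' (by omega) m3.le n'.succ_pos k2 (m.symm.trans k4)
      omega
  · have := gr.inj X.j m3 n a5 (m.symm.trans q)
    omega

end Cfg

end PM

end Pool.Agent.MP_42ec7b_co

end MrgPart0

-- ======== part 1: formerly Pool.Agent.MP_42ec7b_co.A.TZed
section MrgPart1

/-!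
The prescribed edges of the second stage.
-/

set_option autoImplicit false

open Finset

namespace Pool.Agent.MP_42ec7b_co

open Classical

namespace PM

variable {D : Type} [PM D]

/-- An index that separates two predicates. -/
lemma zed_choose {k L : ℕ} (kL : k < L) (P1 P2 : ℕ → Prop)
    (h : ∀ i j, k < j → j < i → i < L → P2 i → P1 j → False) :
    ∃ z, k ≤ z ∧ z < L ∧ (∀ i, k < i → i < L → P2 i → i ≤ z) ∧
      ∀ j, k < j → j < L → P1 j → z ≤ j := by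
  by_cases e : ∃ i, k < i ∧ i < L ∧ P2 i
  · obtain ⟨z, ⟨h1, h2, h3⟩, hz⟩ := Set.exists_max_image {i | k < i ∧ i < L ∧ P2 i} id
      ((Set.finite_lt_nat L).subset fun i hi => hi.2.1) e
    exact ⟨z, h1.le, h2, fun i a b c => hz i ⟨a, b, c⟩,
      fun j a _ c => not_lt.1 fun m => h z j a m h2 h3 c⟩
  · exact ⟨k, le_rfl, kL, fun i a b c => absurd ⟨i, a, b, c⟩ e, fun j a _ _ => a.le⟩

namespace Cfg

variable {X : Cfg D} {S K T : Finset (F D)} {L k i i' z : ℕ} {p : ℕ → V D} {dd : ℕ → D}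
  {r r' a b : V D}

lemma zed_KU (hK : X.Cm S K) : K ⊆ X.U := fun _ h => (M_sub (hK.1 h)).1

lemma zed_nbv (fr : IFr (S ∪ X.M S \ K) (Sᶜ \ X.M S) K L k p dd) (h1 : k < i) (h2 : i < L) :
    ¬BV S (p i) := fun h => fr.nA i h1 h2 (h.1.mono subset_union_left)

lemma zed_tch (fr : IFr (S ∪ X.M S \ K) (Sᶜ \ X.M S) K L k p dd) (h2 : i < L) : Tch K (p i) :=
  (fr.toFrm.tch h2 (Or.inl (fr.bd i h2).1)).1

/-- Inner vertices of the blue part are joined. -/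
lemma zed_join (hK : X.Cm S K) (fr : IFr (S ∪ X.M S \ K) (Sᶜ \ X.M S) K L k p dd) (h1 : k < i)
    (h2 : i < L) (h3 : k < i') (h4 : i' < L) :
    Rch (InE X.U) (fun r => ¬BV S r) (p i) (p i') := by
  have key : ∀ i i', k < i → i ≤ i' → i' < L →
      Rch (InE X.U) (fun r => ¬BV S r) (p i) (p i') := by
    intro i i' a1 a2
    induction i', a2 using Nat.le_induction with
    | base => exact fun _ => Rch.refl
    | succ n hn ih =>
      intro a3
      have e : InE X.U (dd n) := Or.inl (zed_KU hK (fr.bd n (by omega)).1)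
      exact (ih (by omega)).trans
        (fr.toFrm.fwd (by omega) e e.symm (zed_nbv fr (by omega) (by omega)))
  rcases le_total i i' with h | h
  · exact key i i' h1 h h4
  · exact (key i' i h3 h h2).rev (fun _ => InE.symm) (fun _ => id) (zed_nbv fr h1 h2)

lemma zed_prU (h : X.pr S a b) : Rch (InE X.U) (fun r => ¬BV S r) a b :=
  Rch.mono h fun _ _ k1 k2 => ⟨k1, k2.1.mono sdiff_subset⟩

/-- A blue vertex on the boundary of the component is an inner vertex of the blue part. -/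
lemma zed_on (hK : X.Cm S K) (fr : IFr (S ∪ X.M S \ K) (Sᶜ \ X.M S) K L k p dd) (h1 : Tch K r)
    (h2 : ¬Tch S r) (h3 : Tch Kᶜ r) : ∃ i, k < i ∧ i < L ∧ p i = r := by
  obtain ⟨i, a1, rfl⟩ := fr.toFrm.vs ⟨h1, h3⟩
  refine ⟨i, not_le.1 fun a2 => h2 ?_, a1, rfl⟩
  have key : ∀ n < k, InE S (dd n) := fun n hn => by
    have b1 := fr.bd n (hn.trans fr.kL)
    rcases mem_union.1 (fr.red n hn) with b2 | b2
    · exact Or.inr b2
    · exact absurd (hK.2.2.1 _ b1.1 (mem_sdiff.1 b2).1) b1.2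
  rcases a2.lt_or_eq with a3 | a3
  · exact (fr.toFrm.tch a1 (key i a3)).1
  · have b0 := fr.k0
    have b3 := (fr.toFrm.tch (i := k - 1) (by omega) (key _ (by omega))).2
    rwa [show k - 1 + 1 = i by omega] at b3

lemma zed_out (hK : X.Cm S K) (h : X.pr S r a) (h1 : r ≠ a) : Tch Kᶜ r := by
  obtain ⟨-, d, k1, rfl, -⟩ := (Rch.first h).resolve_left h1
  exact tch_v (mem_compl.2 fun m => k1.2 (Or.inr (Or.inr (Or.inl (hK.1 m)))))

lemma zed_outD (hK : X.Cm S K) (h0 : Tch K r) (h : X.pr S r a) (h1 : X.D2 S a) : Tch Kᶜ r :=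
  zed_out hK h fun e => Cp_ntch (h0.mono hK.1) (e ▸ h1)

lemma zed_outB (hK : X.Cm S K) (h : X.pr S r a) (h1 : Tch X.B a) : Tch Kᶜ r := by
  by_cases e : r = a
  · exact (e ▸ h1).mono fun g hg => mem_compl.2 fun m => X.h.BU hg (zed_KU hK m)
  · exact zed_out hK h e

/-- A blue walk that starts at the component stays there. -/
lemma zed_walk (s : X.St S) (hK : X.Cm S K) (hS : S ⊆ T) (h1 : Tch K r) (h2 : ¬Tch T r)
    (w : Rch (InE (X.M S)) (fun s => ¬BV T s) r r') :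
    Tch K r' ∧ Lk (fun d => f d ∈ K ∧ f d ∉ T) r r' := by
  have key : (Tch K r' ∧ Tch Tᶜ r') ∧ Lk (fun d => f d ∈ K ∧ f d ∉ T) r r' := by
    refine w.ind (P := fun r' => (Tch K r' ∧ Tch Tᶜ r') ∧ Lk (fun d => f d ∈ K ∧ f d ∉ T) r r')
      ⟨⟨h1, ?_⟩, Lk.refl⟩ fun d _ k1 k2 k3 => ?_
    · obtain ⟨c, c1, -⟩ := h1
      exact ⟨c, c1, mem_compl.2 fun m => h2 ⟨c, c1, m⟩⟩
    have nT : ¬Tch T (v d) := fun m => k1 ⟨m, k3.1.2⟩
    have inK : ∀ c, v c = v d → f c ∈ X.M S → f c ∈ K ∧ f c ∉ T := fun c c1 c2 =>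
      ⟨by_contra fun m => nT ((shared (inst2 s) hK.1 hK.2.1 hK.2.2.1 k3.1.1
        ⟨c, c1, mem_sdiff.2 ⟨c2, m⟩⟩).1.mono hS), fun m => nT ⟨c, c1, m⟩⟩
    rcases k2 with k2 | k2
    · have m := inK d rfl k2
      exact ⟨⟨tch_α m.1, tch_α (mem_compl.2 m.2)⟩, k3.2.trans (Lk.one m)⟩
    · have m := inK (ρ d) (vρ d) (by rwa [fρ])
      rw [fρ] at m
      have m' := (Lk.one (E := fun d => f d ∈ K ∧ f d ∉ T) (d := α d) m).symm
      rw [αα] at m'
      exact ⟨⟨tch_v m.1, tch_v (mem_compl.2 m.2)⟩, k3.2.trans m'⟩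
  exact ⟨key.1.1, key.2⟩

/-- The red path through the prescribed edge separates the blue vertices. -/
lemma zed_sep (s : X.St S) (hK : X.Cm S K) (fr : IFr (S ∪ X.M S \ K) (Sᶜ \ X.M S) K L k p dd)
    (hS : S ⊆ T) (hB : Sᶜ \ X.M S ⊆ Tᶜ) (hT : Conn T) (he : f (dd z) ∈ T) (h1 : k < i)
    (h2 : i ≤ z) (h3 : z ≤ i') (h4 : i' < L) (n2 : ¬Tch T (p i'))
    (w : Lk (fun d => f d ∈ K ∧ f d ∉ T) (p i) (p i')) : False := by
  have zL : z < L := by omega
  have h5 : z < i' := lt_of_le_of_ne h3 fun e => n2 (e ▸ (fr.toFrm.tch zL (Or.inl he)).1)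
  obtain ⟨g, hg⟩ := (inst2 s).nA
  obtain ⟨R, r1, r2, r3, r4, d, d1, d2, d3⟩ := exit_in hT (fr.bd z zL).1 he
    fun m => (M_sub (hK.1 (m (hS hg)))).2 hg
  obtain ⟨n, n1, rfl⟩ := fr.sur d ⟨r1 d1, d3⟩
  have n3 : n < k := not_le.1 fun m => mem_compl.1 (hB (fr.blue n m n1)) d2
  exact fr.toFrm.arc_in ((inst2 s).comp hK.1 hK.2.2.1).cU r3 r1 h2 h5 h4.le
    (Or.inl (n3.trans h1)) n1 r4 d1 (w.mono fun d m => Or.inl ⟨m.1, fun m' => m.2 (r2 m')⟩)

lemma zed_fin (s : X.St S) (hK : X.Cm S K) (fr : IFr (S ∪ X.M S \ K) (Sᶜ \ X.M S) K L k p dd)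
    (z1 : k ≤ z) (z2 : z < L)
    (H1 : ∀ i i' a b, k < i → i < L → k < i' → i' < L → X.D2 S a → X.D2 S b → X.pr S (p i) a →
      X.pr S (p i') b → a ≠ b → i ≤ z ∧ z ≤ i' ∨ i' ≤ z ∧ z ≤ i)
    (H2 : ∀ i i' a b, k < i → i < L → k < i' → i' < L → X.D2 S a → Tch X.B b → ¬BV S b →
      X.pr S (p i) a → X.pr S (p i') b → i ≤ z ∧ z ≤ i' ∨ i' ≤ z ∧ z ≤ i) :
    ∃ e, f e ∈ K ∧ f (α e) ∈ Sᶜ \ X.M S ∧
      ∀ T, S ⊆ T → Sᶜ \ X.M S ⊆ Tᶜ → Conn T → f e ∈ T → X.ZP S T K := by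
  refine ⟨dd z, (fr.bd z z2).1, fr.blue z z1 z2, fun T hS hB hT he r r' k1 k2 k3 w => ?_⟩
  obtain ⟨k4, k5⟩ := zed_walk s hK hS k1 k2 w
  have key : ∀ i i', k < i → i < L → k < i' → i' < L → p i = r → p i' = r' →
      ¬(i ≤ z ∧ z ≤ i' ∨ i' ≤ z ∧ z ≤ i) := by
    rintro i i' a1 a2 a3 a4 rfl rfl (m | m)
    · exact zed_sep s hK fr hS hB hT he a1 m.1 m.2 a4 k3 k5
    · exact zed_sep s hK fr hS hB hT he a3 m.1 m.2 a2 k2 k5.symm
  have s1 : ¬Tch S r := fun m => k2 (m.mono hS)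
  have s2 : ¬Tch S r' := fun m => k3 (m.mono hS)
  refine ⟨fun a b ha hb pa pb => by_contra fun ne => ?_, fun a b ha hb hb' pa pb => ?_⟩
  · obtain ⟨i, a1, a2, e⟩ := zed_on hK fr k1 s1 (zed_outD hK k1 pa ha)
    obtain ⟨i', a3, a4, e'⟩ := zed_on hK fr k4 s2 (zed_outD hK k4 pb hb)
    exact key i i' a1 a2 a3 a4 e e' (H1 i i' a b a1 a2 a3 a4 ha hb (e ▸ pa) (e' ▸ pb) ne)
  · obtain ⟨i, a1, a2, e⟩ := zed_on hK fr k1 s1 (zed_outD hK k1 pa ha)
    obtain ⟨i', a3, a4, e'⟩ := zed_on hK fr k4 s2 (zed_outB hK pb hb)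
    exact key i i' a1 a2 a3 a4 e e' (H2 i i' a b a1 a2 a3 a4 ha hb hb' (e ▸ pa) (e' ▸ pb))

lemma zed_attc (s : X.St S) (hK : X.Cm S K) (fr : IFr (S ∪ X.M S \ K) (Sᶜ \ X.M S) K L k p dd)
    (h1 : i < L) (h : X.pr S (p i) b) (hb : Tch X.B b) (hb' : ¬BV S b) :
    ∃ n, X.j < n ∧ n < X.L ∧ X.p n = b ∧
      ∀ w, Rch (InE X.U) (fun r => ¬BV S r) (p i) w → X.D2 S w → w = X.p X.j := by
  have w0 := zed_prU h
  have w1 := w0.rev (N' := fun r => ¬BV S r) (fun _ => InE.symm) (fun _ => id) hb'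
  have hU : Tch X.U b := by
    rcases w0.last with e | ⟨d, -, -, e1, e2⟩
    · exact e ▸ (zed_tch fr h1).mono (zed_KU hK)
    · exact e2 ▸ e1.tch'
  rcases attc s hb' hb hU with ⟨n, n1, n2, n3, n4⟩ | m
  · exact ⟨n, n1, n2, n3, fun w k1 k2 => n4 w (w1.trans k1) k2⟩
  · exact absurd (Or.inr ((zed_tch fr h1).mono hK.1)) (m _ w1)

theorem zed (s : X.St S) (hK : X.Cm S K) : ∃ e, f e ∈ K ∧ f (α e) ∈ Sᶜ \ X.M S ∧
    ∀ T, S ⊆ T → Sᶜ \ X.M S ⊆ Tᶜ → Conn T → f e ∈ T → X.ZP S T K := by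
  obtain ⟨i0, h0, L, k, p, dd, fr, h1, h2⟩ := kfr s hK
  by_cases c1 : ∃ i b, k < i ∧ i < L ∧ X.pr S (p i) b ∧ Tch X.B b ∧ ¬BV S b
  · obtain ⟨i1, b1, a1, a2, a3, a4, a5⟩ := c1
    obtain ⟨-, -, -, -, all⟩ := zed_attc s hK fr a2 a3 a4 a5
    have all' : ∀ i a, k < i → i < L → X.D2 S a → X.pr S (p i) a → a = X.p X.j :=
      fun i a m1 m2 m3 m4 => all a ((zed_join hK fr a1 a2 m1 m2).trans (zed_prU m4)) m3
    obtain ⟨z, z1, z2, z3, z4⟩ := zed_choose fr.kL (fun j => X.pr S (p j) (X.p X.j))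
      (fun i => ∃ b, X.pr S (p i) b ∧ Tch X.B b ∧ ¬BV S b) (by
        rintro i j m1 m2 m3 ⟨b, m4, m5, m6⟩ m7
        obtain ⟨n, n1, n2, rfl, -⟩ := zed_attc s hK fr m3 m4 m5 m6
        exact ordC s hK fr h0 h1 h2 m1 m2 m3 n1 n2 m4 m7)
    refine zed_fin s hK fr z1 z2 (fun i i' a b m1 m2 m3 m4 ha hb pa pb ne => ?_)
      fun i i' a b m1 m2 m3 m4 ha hb hb' pa pb => ?_
    · exact absurd ((all' i a m1 m2 ha pa).trans (all' i' b m3 m4 hb pb).symm) ne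
    · exact Or.inr ⟨z3 i' m3 m4 ⟨b, pb, hb, hb'⟩, z4 i m1 m2 (all' i a m1 m2 ha pa ▸ pa)⟩
  by_cases c2 : ∃ i i' a b, k < i ∧ i < L ∧ k < i' ∧ i' < L ∧ X.D2 S a ∧ X.D2 S b ∧
      X.pr S (p i) a ∧ X.pr S (p i') b ∧ a ≠ b
  · obtain ⟨i1, i2, a0, b0, a1, a2, a3, a4, a5, a6, a7, a8, a9⟩ := c2
    obtain ⟨x, y, hxy⟩ := att2 s (p i1)
    have all : ∀ i a, k < i → i < L → X.D2 S a → X.pr S (p i) a → a = x ∨ a = y :=
      fun i a m1 m2 m3 m4 => hxy a ((zed_join hK fr a1 a2 m1 m2).trans (zed_prU m4)) m3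
    have key : ∀ x y, (∀ i a, k < i → i < L → X.D2 S a → X.pr S (p i) a → a = x ∨ a = y) →
        (∀ i j, k < j → j < i → i < L → X.pr S (p i) y → X.pr S (p j) x → False) →
        ∃ e, f e ∈ K ∧ f (α e) ∈ Sᶜ \ X.M S ∧
          ∀ T, S ⊆ T → Sᶜ \ X.M S ⊆ Tᶜ → Conn T → f e ∈ T → X.ZP S T K := by
      intro x y all ord
      obtain ⟨z, z1, z2, z3, z4⟩ := zed_choose fr.kL (fun j => X.pr S (p j) x)
        (fun i => X.pr S (p i) y) ord
      refine zed_fin s hK fr z1 z2 (fun i i' a b m1 m2 m3 m4 ha hb pa pb ne => ?_)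
        fun i i' a b m1 m2 m3 m4 ha hb hb' pa pb => absurd ⟨i', b, m3, m4, pb, hb, hb'⟩ c1
      rcases all i a m1 m2 ha pa with rfl | rfl <;> rcases all i' b m3 m4 hb pb with rfl | rfl
      · exact absurd rfl ne
      · exact Or.inr ⟨z3 i' m3 m4 pb, z4 i m1 m2 pa⟩
      · exact Or.inl ⟨z3 i m1 m2 pa, z4 i' m3 m4 pb⟩
      · exact absurd rfl ne
    have all2 : ∀ i a, k < i → i < L → X.D2 S a → X.pr S (p i) a → a = a0 ∨ a = b0 := by
      intro i a m1 m2 m3 m4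
      rcases all i1 a0 a1 a2 a5 a7 with rfl | rfl <;> rcases all i2 b0 a3 a4 a6 a8 with rfl | rfl
      · exact absurd rfl a9
      · exact all i a m1 m2 m3 m4
      · exact (all i a m1 m2 m3 m4).symm
      · exact absurd rfl a9
    rcases ordAB s hK fr a5 a6 a9 with m | m
    · exact key a0 b0 all2 m
    · exact key b0 a0 (fun i a m1 m2 m3 m4 => (all2 i a m1 m2 m3 m4).symm) m
  · exact zed_fin s hK fr le_rfl fr.kL
      (fun i i' a b m1 m2 m3 m4 ha hb pa pb ne =>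
        absurd ⟨i, i', a, b, m1, m2, m3, m4, ha, hb, pa, pb, ne⟩ c2)
      fun i i' a b m1 m2 m3 m4 ha hb hb' pa pb => absurd ⟨i', b, m3, m4, pb, hb, hb'⟩ c1

end Cfg

end PM

end Pool.Agent.MP_42ec7b_co

end MrgPart1

-- ======== part 2: formerly Pool.Agent.MP_42ec7b_co.A.TSplit
section MrgPart2

/-!
Splitting off a component; inner bridges; the trivial case.
-/

set_option autoImplicit false

open Finset

namespace Pool.Agent.MP_42ec7b_co

open Classical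

namespace PM

variable {D : Type} [PM D] {A B U K T : Finset (F D)} {W : D → Prop}

theorem split (ih : IH D #U) (h : Inst A B U) (hp : Pre U W) (k1 : K ⊆ U) (k2 : Conn K)
    (k3 : Cl U K) (k4 : K.Nonempty) (k5 : ¬U ⊆ K) : ∃ S, Sol A B U W S := by
  obtain ⟨S, s⟩ := ih (A ∪ K) B (U \ K) (fun e => W e ∧ f e ∉ K)
    (card_lt_card (sdiff_ssubset k1 k4)) (h.rest k1 k3)
    ⟨fun e he => ⟨mem_sdiff.2 ⟨(hp.1 e he.1).1, he.2⟩, fun m => (hp.1 e he.1).2 (mem_sdiff.1 m).1⟩,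
      fun e e' J a b c => hp.2 e e' J a.1 b.1 (c.trans sdiff_subset)⟩
  have a0 : A ⊆ S := subset_union_left.trans s.sA
  have a1 : A ⊆ S \ K := fun g hg => mem_sdiff.2 ⟨a0 hg, fun k => h.AU hg (k1 k)⟩
  have a2 : K ⊆ S := subset_union_right.trans s.sA
  have hI : Inst (S \ K) Sᶜ K :=
    ⟨fun g => by
      have := @a2 g
      simp only [mem_sdiff, mem_compl]
      tauto,
    conn_sdiff s.cS h.cA h.nA a1 fun d m1 m2 m3 =>
      (h.or fun m => m3 (k3 d m1 m)).resolve_right fun m => mem_compl.1 (s.sB m) m2,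
    s.cT, h.ad.mono a1 s.sB, fun g hg => by
      obtain ⟨J, m1, m2, m3, m4, m5⟩ := h.both g (k1 hg)
      exact ⟨J, m2.sub m1 k3 m3 hg, m2, m3, m4.mono Subset.rfl a1, m5.mono Subset.rfl s.sB⟩,
    h.big.mono k1⟩
  obtain ⟨S', t⟩ := ih (S \ K) Sᶜ K (fun e => W e ∧ f e ∈ K) (card_lt_card ⟨k1, k5⟩) hI
    ⟨fun e he => ⟨he.2, fun m => (hp.1 e he.1).2 (k1 m)⟩,
      fun e e' J a b c => hp.2 e e' J a.1 b.1 (c.trans k1)⟩
  have t1 : ∀ g ∉ K, g ∈ S' ↔ g ∈ S := fun g hg =>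
    ⟨fun m => by_contra fun m' => mem_compl.1 (t.sB (mem_compl.2 m')) m,
      fun m => t.sA (mem_sdiff.2 ⟨m, hg⟩)⟩
  have b1 : A ⊆ S' := a1.trans t.sA
  have b2 : B ⊆ S'ᶜ := s.sB.trans t.sB
  have sh : ∀ r, Tch K r → Tch (U \ K) r → BV S' r ∧ BV S r := fun r m1 m2 =>
    have m := shared h k1 k2 k3 m1 m2
    ⟨⟨m.1.mono b1, m.2.mono b2⟩, m.1.mono a0, m.2.mono s.sB⟩
  refine ⟨S', b1, b2, t.cS, t.cT, fun e he => ?_, fun u => ?_⟩
  · by_cases k : f e ∈ K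
    · exact t.pre e ⟨he, k⟩
    · rw [t1 _ k, t1 _ fun k' => (hp.1 e he).2 (k1 k')]
      exact s.pre e ⟨he, k⟩
  · by_cases k : Tch K u
    · have inK : ∀ d, ¬BV S' (v d) → Tch K (v d) → InE U d → InE K d := fun d m1 m2 m3 =>
        m3.imp (fun m => by_contra fun m' => m1 (sh _ m2 (tch_v (mem_sdiff.2 ⟨m, m'⟩))).1)
          fun m => by_contra fun m' => m1 (sh _ m2 (tch_v' (mem_sdiff.2 ⟨m, m'⟩))).1
      obtain ⟨a, b, hab⟩ := t.good u
      exact ⟨a, b, fun w hw => hab w (hw.mono fun d m1 m2 m3 => ⟨m2, inK d m2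
        (m1.ind (P := Tch K) k fun c _ n2 n3 n4 => (inK c n2 n4 n3).tch') m3⟩)⟩
    · have outK : ∀ d, ¬Tch K (v d) → InE U d → InE (U \ K) d := fun d m1 m2 =>
        m2.imp (fun m => mem_sdiff.2 ⟨m, fun m' => m1 (tch_v m')⟩)
          fun m => mem_sdiff.2 ⟨m, fun m' => m1 (tch_v' m')⟩
      have inv : ∀ r, Rch (InE U) (fun r => ¬BV S' r) u r → Tch K r → BV S' r ∧ BV S r :=
        fun r hr => hr.ind (P := fun r => Tch K r → BV S' r ∧ BV S r) (fun m => absurd m k)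
          fun d _ n2 n3 n4 m => sh _ m (outK d (fun m' => n2 (n4 m').1) n3).tch'
      obtain ⟨a, b, hab⟩ := s.good u
      refine ⟨a, b, fun w hw hb => hab w (hw.mono fun d m1 m2 m3 => ?_) ?_⟩
      · have m : ¬Tch K (v d) := fun m' => m2 (inv _ m1 m').1
        exact ⟨fun m' => m2 ((bv_congr t1 m).2 m'), outK d m m3⟩
      · by_cases m : Tch K w
        exacts [(inv w hw m).2, (bv_congr t1 m).1 hb]

/-- An inner bridge has more than three attachments. -/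
theorem intr (hU : Big U) (hT : Disc T) {u a b c : V D} (h : ¬BV T u)
    (h1 : ∀ r, Rch (InE U) (fun r => ¬BV T r) u r → ¬BV T r → ¬Tch Uᶜ r)
    (h2 : ∀ w, Rch (InE U) (fun r => ¬BV T r) u w → BV T w → w = a ∨ w = b ∨ w = c) : False := by
  obtain ⟨z, hz⟩ := exists_bd hT.1 hT.2.1
  have k : ∀ x : V D, ∃ y, BV T y ∧ (BV T x → x = y) := fun x => by
    by_cases m : BV T x
    exacts [⟨x, m, fun _ => rfl⟩, ⟨_, hz.bv, fun m' => absurd m' m⟩]
  obtain ⟨a', a1, a2⟩ := k a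
  obtain ⟨b', b1, b2⟩ := k b
  obtain ⟨c', c1, c2⟩ := k c
  obtain ⟨r, r1, r2, r3, r4⟩ := hU a' b' c'
  have m := c4 {r | Rch (InE U) (fun r => ¬BV T r) u r ∧ ¬BV T r} a' b' c' (fun d m1 m2 => by
    have m3 : Rch (InE U) (fun r => ¬BV T r) u (v (α d)) := m1.1.tail m1.2
      (Or.inl (by_contra fun m => h1 _ m1.1 m1.2 (tch_v (mem_compl.2 m))))
    have m4 : BV T (v (α d)) := by_contra fun m => m2 ⟨m3, m⟩
    exact (h2 _ m3 m4).imp (fun m => m.trans (a2 (m ▸ m4)))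
      (Or.imp (fun m => m.trans (b2 (m ▸ m4))) fun m => m.trans (c2 (m ▸ m4))))
    u ⟨Rch.refl, h⟩ (fun m => h (m ▸ a1)) (fun m => h (m ▸ b1)) (fun m => h (m ▸ c1)) r r2 r3 r4
  exact h1 r m.1 m.2 r1

/-- Only one red edge. -/
theorem triv (h : Inst A B U) (hU : Conn U) {L : ℕ} {p : ℕ → V D} {dd : ℕ → D}
    (fr : IFr A B U L 1 p dd) : Sol A B U (· = dd 0) A := by
  have e : Aᶜ = B ∪ U := ext fun g => by
    have := h.part g
    simp only [mem_compl, mem_union]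
    tauto
  refine ⟨Subset.rfl, e ▸ subset_union_left, h.cA, e ▸ conn_union h.cB hU
    (Or.inl (Ad.symm ⟨dd 1, (fr.bd 1 fr.kL).1, fr.blue 1 le_rfl fr.kL⟩)), ?_, fun u => ?_⟩
  · rintro _ rfl m
    exact h.AU (m.2 (fr.red 0 one_pos)) (fr.bd 0 (one_pos.trans fr.kL)).1
  · by_cases k : BV A u
    · exact ⟨u, u, fun w hw _ => Or.inl (hw.stop (not_not.2 k)).symm⟩
    · refine ⟨p 0, p 1, fun w hw hb => ?_⟩
      obtain rfl | ⟨d, -, -, m, rfl⟩ := hw.last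
      · exact absurd hb k
      · obtain ⟨i, m1, m2⟩ := fr.toFrm.vs
          ⟨m.tch', hb.1.mono fun g hg => mem_compl.2 (h.AU hg)⟩
        have m3 : ¬1 < i := fun m3 => fr.nA i m3 m1 (m2 ▸ hb.1)
        obtain rfl | rfl : i = 0 ∨ i = 1 := by omega
        exacts [Or.inl m2.symm, Or.inr m2.symm]

theorem sol_empty (h : Inst A B ∅) (hp : Pre ∅ W) : Sol A B ∅ W A := by
  have e : Aᶜ = B := ext fun g => by
    have := h.part g
    have := notMem_empty g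
    simp only [mem_compl]
    tauto
  refine ⟨Subset.rfl, e.ge, h.cA, e ▸ h.cB, fun d hd => absurd (hp.1 d hd).1 (notMem_empty _),
    fun u => ⟨u, u, fun w hw _ => Or.inl ?_⟩⟩
  obtain rfl | ⟨d, -, -, m, -⟩ := hw.last
  · rfl
  · exact (m.elim (notMem_empty _) (notMem_empty _)).elim

end PM

end Pool.Agent.MP_42ec7b_co

end MrgPart2

-- ======== part 3: formerly Pool.Agent.MP_42ec7b_co.A.TFin
section MrgPart3

/-!
Verification of the condition of Tutte.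
-/

set_option autoImplicit false

open Finset

namespace Pool.Agent.MP_42ec7b_co

open Classical

namespace PM

variable {D : Type} [PM D]

/-- The side of an edge in `U` is a corner at both ends. -/
lemma tfin_side {U : Finset (F D)} {d : D} (h : InE U d) : ∃ c c', v c = v d ∧ v c' = v (α d) ∧
    f c' = f c ∧ f c ∈ U ∧ ∀ P : Finset (F D), f c ∈ P → InE P d :=
  h.elim (fun k => ⟨d, φ d, rfl, vφ d, fφ d, k, fun _ => Or.inl⟩) fun k =>
    ⟨ρ d, α d, vρ d, rfl, (fρ d).symm, by rwa [fρ], fun _ m => Or.inr (by rwa [fρ] at m)⟩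

lemma tfin_all {T : Finset (F D)} {c : D} (h1 : ¬BV T (v c)) (h2 : Tch T (v c)) : f c ∈ T :=
  by_contra fun k => h1 ⟨h2, tch_v (mem_compl.2 k)⟩

lemma tfin_one {P : V D → Prop} (u : V D) (h : ∀ w w', P w → P w' → w = w') :
    ∃ c, ∀ w, P w → w = c := by
  by_cases k : ∃ c, P c
  · obtain ⟨c, k⟩ := k
    exact ⟨c, fun w m => h w c m k⟩
  · exact ⟨u, fun w m => absurd ⟨w, m⟩ k⟩

namespace Cfg

variable {X : Cfg D} {S T : Finset (F D)} {W : D → Prop}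

lemma tfin_agree (t : Sol S (Sᶜ \ X.M S) (X.M S) W T) : ∀ g ∉ X.M S, g ∈ T ↔ g ∈ S :=
  fun _ hg => ⟨fun k => by_contra fun m =>
    mem_compl.1 (t.sB (mem_sdiff.2 ⟨mem_compl.2 m, hg⟩)) k, fun k => t.sA k⟩

lemma tfin_key (s : X.St S) {c : D} (h : Tch (X.M S) (v c)) (h1 : f c ∈ S) (h2 : f c ∈ X.U) :
    False :=
  NS s (X.QN (by_contra fun k => Cp_ntch h
    ⟨⟨tch_v h1, h.mono fun _ m => mem_compl.2 (M_sub m).2⟩, k⟩) h2) h1

theorem good_red (s : X.St S) (t : Sol S (Sᶜ \ X.M S) (X.M S) W T) {u : V D} (h1 : ¬BV T u)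
    (h2 : Tch T u) :
    ∃ a b, ∀ w, Rch (InE X.U) (fun r => ¬BV T r) u w → BV T w → w = a ∨ w = b := by
  have ag := tfin_agree t
  by_cases hM : Tch (X.M S) u
  · have st : ∀ d, ¬BV T (v d) → InE X.U d → Tch T (v d) ∧ Tch (X.M S) (v d) →
        InE T d ∧ InE (X.M S) d := fun d k1 k2 k3 => by
      obtain ⟨c, -, e, -, -, m1, m2⟩ := tfin_side k2
      rw [← e] at k1 k3
      have m3 := tfin_all k1 k3.1
      exact ⟨m2 _ m3, m2 _ (by_contra fun m => tfin_key s k3.2 ((ag _ m).1 m3) m1)⟩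
    have iv : ∀ r, Rch (InE X.U) (fun r => ¬BV T r) u r → Tch T r ∧ Tch (X.M S) r := fun r k =>
      k.ind (P := fun r => Tch T r ∧ Tch (X.M S) r) ⟨h2, hM⟩
        fun d _ k1 k2 k3 => ⟨(st d k1 k2 k3).1.tch', (st d k1 k2 k3).2.tch'⟩
    obtain ⟨a, b, g⟩ := t.good u
    exact ⟨a, b, fun w k => g w (k.mono fun d k0 k1 k2 => ⟨k1, (st d k1 k2 (iv _ k0)).2⟩)⟩
  · have st : ∀ d, ¬BV T (v d) → InE X.U d → Tch T (v d) ∧ ¬Tch (X.M S) (v d) →
        InE X.O d ∧ Tch T (v (α d)) ∧ ¬Tch (X.M S) (v (α d)) := fun d k1 k2 k3 => by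
      obtain ⟨c, c', e, e1, e2, m1, m2⟩ := tfin_side k2
      rw [← e] at k1 k3
      have m3 := tfin_all k1 k3.1
      have m4 := (ag _ fun m => k3.2 (tch_v m)).1 m3
      exact ⟨m2 _ ((sub s m4).resolve_left fun m => X.h.AU m m1), (m2 _ m3).tch',
        fun m => tfin_key s (e1 ▸ m) (e2 ▸ m4) (e2 ▸ m1)⟩
    have iv : ∀ r, Rch (InE X.U) (fun r => ¬BV T r) u r → Tch T r ∧ ¬Tch (X.M S) r := fun r k =>
      k.ind (P := fun r => Tch T r ∧ ¬Tch (X.M S) r) ⟨h2, hM⟩ fun d _ k1 k2 k3 => (st d k1 k2 k3).2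
    obtain ⟨a, b, g⟩ := s.good u
    exact ⟨a, b, fun w k m => g w (k.mono fun d k0 k1 k2 =>
      ⟨fun m' => k1 ((bv_congr ag (iv _ k0).2).2 m'), (st d k1 k2 (iv _ k0)).1⟩)
      ((bv_congr ag (iv _ k).2).1 m)⟩

theorem good_blue (s : X.St S) (t : Sol S (Sᶜ \ X.M S) (X.M S) W T)
    (z : ∀ K, X.Cm S K → X.ZP S T K) {u : V D} (h : ¬Tch T u) :
    ∃ a b, ∀ w, Rch (InE X.U) (fun r => ¬BV T r) u w → BV T w → w = a ∨ w = b := by
  by_cases hU : ¬Tch X.U u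
  · exact ⟨u, u, fun w k _ => Or.inl (k.first.resolve_right
      fun ⟨_, d, m1, m2, _⟩ => hU (m2 ▸ m1.tch)).symm⟩
  rw [not_not] at hU
  have pd := pd2 s
  have nS : ∀ r, ¬Tch T r → ¬BV S r := fun r k m => k (m.1.mono t.sA)
  have nD : ∀ r, ¬Tch T r → ¬X.D2 S r := fun r k m => nS r k m.1
  have nq : ∀ r, ¬Tch T r → ¬X.Q r := fun r k m => nS r k (bvQ s m)
  have iv : ∀ r, Rch (InE X.U) (fun r => ¬BV T r) u r → ¬BV T r → ¬Tch T r := fun r k =>
    k.ind (P := fun r => ¬BV T r → ¬Tch T r) (fun _ => h) fun d _ k1 _ k3 k4 k5 =>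
      k4 ⟨k5, tch_α (mem_compl.2 fun m => k3 k1 (tch_v m))⟩
  have toR : ∀ r, Rch (InE X.U) (fun r => ¬BV T r) u r →
      Rch (InE (X.Ω S)) (fun r => ¬Tch T r) u r := fun r k => k.mono fun d k0 k1 k2 => by
    obtain ⟨c, -, e, -, -, m1, m2⟩ := tfin_side k2
    exact ⟨iv _ k0 k1, m2 _ (mem_sdiff.2 ⟨m1, fun m => iv _ k0 k1 ⟨c, e, t.sA m⟩⟩)⟩
  have ofR : ∀ {a r}, Rch (InE (X.Ω S)) (fun r => ¬Tch T r) a r →
      Rch (InE X.U) (fun r => ¬BV S r) a r := fun k =>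
    k.mono fun d _ k1 k2 => ⟨nS _ k1, k2.mono sdiff_subset⟩
  have via : ∀ {a r}, Rch (InE (X.Ω S)) (fun r => ¬Tch T r) u a → ¬Tch T a →
      Rch (InE (X.Ω S)) (fun r => ¬Tch T r) u r → Rch (InE (X.Ω S)) (fun r => ¬Tch T r) a r :=
    fun k1 k2 k3 => (k1.rev (fun _ => InE.symm) (fun _ => id) k2).trans k3
  have en : ∀ w, BV T w → X.D2 S w ∨ X.V2 S w := fun w k => by
    by_cases m : Tch (X.M S) w
    · exact Or.inr (Or.inr m)
    · by_cases m' : X.Q w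
      · exact Or.inr (Or.inl m')
      · exact Or.inl ⟨(bv_congr (tfin_agree t) m).1 k, m'⟩
  have out : (∃ a b c, ∀ w, Rch (InE X.U) (fun r => ¬BV T r) u w → BV T w →
      w = a ∨ w = b ∨ w = c) → ∃ b, Rch (InE (X.Ω S)) (fun r => ¬Tch T r) u b ∧ ¬Tch T b ∧
      Tch X.B b := fun ⟨a, b, c, k⟩ => by
    by_contra m
    refine intr X.h.big (t.disc (inst2 s)) (fun m' => h m'.1) (fun r k1 k2 ⟨e, k3, k4⟩ => ?_) k
    exact m ⟨r, toR r k1, iv r k1 k2, e, k3, (X.h.or (mem_compl.1 k4)).resolve_left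
      fun m' => iv r k1 k2 ⟨e, k3, t.sA (s.sA m')⟩⟩
  by_cases hr : ∀ r, Rch (InE (X.Ω S)) (fun r => ¬Tch T r) u r → ¬Tch T r → ¬X.V2 S r
  · obtain ⟨c, hc⟩ := tfin_one (P := fun w => Rch (InE (X.Ω S)) (fun r => ¬Tch T r) u w ∧
      X.V2 S w) u fun w w' k k' => pd.one nD hr k.1 k'.1 k.2 k'.2
    obtain ⟨a, b, g⟩ := att2 s u
    obtain ⟨r, k1, k2, k3⟩ := out ⟨a, b, c, fun w k m => (en w m).elim
      (fun m' => (g w (ofR (toR w k)) m').imp_right Or.inl)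
      fun m' => Or.inr (Or.inr (hc w ⟨toR w k, m'⟩))⟩
    have k4 : Tch X.U r := k1.last.elim (fun m => m ▸ hU)
      fun ⟨d, _, _, m1, m2⟩ => m2 ▸ (m1.mono sdiff_subset).tch'
    rcases attc s (nS r k2) k3 k4 with ⟨n, -, -, -, k5⟩ | k5
    · exact ⟨_, c, fun w k m => (en w m).imp (k5 w (ofR (via k1 k2 (toR w k))))
        fun m' => hc w ⟨toR w k, m'⟩⟩
    · exact ⟨a, b, fun w k m => g w (ofR (toR w k))
        ((en w m).resolve_right (k5 w (ofR (via k1 k2 (toR w k)))))⟩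
  simp only [not_forall, not_not] at hr
  obtain ⟨r0, q1, q2, q3⟩ := hr
  have dc : ∀ w, Rch (InE (X.Ω S)) (fun r => ¬Tch T r) u w → ∃ r, X.V2 S r ∧
      Rch (InE (X.M S)) (fun r => ¬Tch T r) r0 r ∧
      Rch (fun d => InE (X.Ω S) d ∧ ¬X.H2 S d) (fun r => ¬Tch T r) r w := fun w k => by
    obtain ⟨r, k1, k2, k3⟩ := pd.decomp nD q3 (via q1 q2 k)
    refine ⟨r, k1, k2.mono fun d _ m1 m2 => ⟨m1, ?_⟩, k3⟩
    exact (m2.resolve_left fun m => nq _ m1 (pd.e0 d m).2.1).resolve_left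
      fun m => nq _ m1 (by simpa using (pd.e0 _ m).2.2)
  have wk : ∀ {E : D → Prop} {a r}, Rch E (fun r => ¬Tch T r) a r →
      Rch E (fun r => ¬BV T r) a r := fun k => k.mono fun d _ k1 k2 => ⟨fun m => k1 m.1, k2⟩
  have wp : ∀ {a r}, Rch (fun d => InE (X.Ω S) d ∧ ¬X.H2 S d) (fun r => ¬Tch T r) a r →
      X.pr S a r := fun k => k.mono fun d _ k1 k2 => ⟨nS _ k1, k2⟩
  have zz : ∀ w w', Rch (InE (X.Ω S)) (fun r => ¬Tch T r) u w →
      Rch (InE (X.Ω S)) (fun r => ¬Tch T r) u w' → X.D2 S w → (X.D2 S w' → w = w') ∧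
      (¬Tch T w' → Tch X.B w' → False) := fun w w' k k' m => by
    obtain ⟨r, k1, k2, k3⟩ := dc w k
    obtain ⟨r', k1', k2', k3'⟩ := dc w' k'
    have n1 : ¬Tch T r := (k3.first.resolve_left fun e => pd.vh k1 (e ▸ m)).1
    obtain ⟨c, c1, c2⟩ : Tch (X.M S) r := k1.resolve_left (nq r n1)
    obtain ⟨K, j1, j2, j3, j4⟩ := exists_comp c2
    have zp := fun n2 => z K ⟨j1, j3, j4, _, j2⟩ r r' ⟨c, c1, j2⟩ n1 n2
      (wk ((k2.rev (fun _ => InE.symm) (fun _ => id) n1).trans k2'))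
    exact ⟨fun m' => (zp (k3'.first.resolve_left fun e => pd.vh k1' (e ▸ m')).1).1 w w' m m'
      (wp k3) (wp k3'), fun m1 m2 => (zp (k3'.first.elim (fun e => e ▸ m1) fun e => e.1)).2 w w'
        m m2 (nS _ m1) (wp k3) (wp k3')⟩
  obtain ⟨a, b, g⟩ := t.good r0
  have gv : ∀ w, Rch (InE X.U) (fun r => ¬BV T r) u w → BV T w → X.V2 S w → w = a ∨ w = b :=
    fun w k m m' => by
      obtain ⟨r, k1, k2, k3⟩ := dc w (toR w k)
      obtain rfl := pd.pend k1 m' (k3.mono fun d _ n1 n2 => ⟨nD _ n1, n2⟩)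
      exact g _ (wk k2) m
  obtain ⟨c, hc⟩ := tfin_one (P := fun w => Rch (InE (X.Ω S)) (fun r => ¬Tch T r) u w ∧
    X.D2 S w) u fun w w' k k' => (zz w w' k.1 k'.1 k.2).1 k'.2
  obtain ⟨r, k1, k2, k3⟩ := out ⟨a, b, c, fun w k m => (en w m).elim
    (fun m' => Or.inr (Or.inr (hc w ⟨toR w k, m'⟩))) fun m' => (gv w k m m').imp_right Or.inl⟩
  exact ⟨a, b, fun w k m => gv w k m
    ((en w m).resolve_left fun m' => (zz w r (toR w k) k1 m').2 k2 k3)⟩

end Cfg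

end PM

end Pool.Agent.MP_42ec7b_co

end MrgPart3

-- ======== part 4: formerly Pool.Agent.MP_42ec7b_co.A.Tutte
section MrgPart4

/-!
The theorem of Tutte.
-/

set_option autoImplicit false

open Finset

namespace Pool.Agent.MP_42ec7b_co

open Classical

namespace PM

variable {D : Type} [PM D]

theorem Cfg.step (X : Cfg D) (ih : IH D #X.U) :
    ∃ T, Sol X.A X.B X.U (· = X.dd X.m) T := by
  obtain ⟨S, s⟩ := ih _ _ _ _ X.card1 X.inst1 X.pre1
  choose ε h1 h2 h3 using fun K : {K // X.Cm S K} => zed s K.2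
  obtain ⟨T, t⟩ := ih _ _ _ (fun e => ∃ K, e = ε K) (card2 s) (inst2 s) ⟨by
    rintro _ ⟨K, rfl⟩
    exact ⟨K.2.1 (h1 K), (mem_sdiff.1 (h2 K)).2⟩, by
    rintro _ _ J ⟨K, rfl⟩ ⟨K', rfl⟩ k1 k2 k3 k4
    have k5 : f (ε K') ∈ K.1 := k2.sub k1 K.2.2.2.1 k3 (h1 K) k4
    rw [Subtype.ext (Subset.antisymm (K.2.2.1.sub K.2.1 K'.2.2.2.1 k5 (h1 K'))
      (K'.2.2.1.sub K'.2.1 K.2.2.2.1 (h1 K') k5)) (a1 := K) (a2 := K')]⟩
  have hm : X.m < X.k := by have := X.mk1; omega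
  refine ⟨T, s.sA.trans t.sA, fun g hg => t.sB (mem_sdiff.2 ⟨mem_compl.2 (BS s hg),
    fun k => X.h.BU hg (M_sub k).1⟩), t.cS, t.cT, ?_, fun u => ?_⟩
  · rintro _ rfl k
    exact mem_compl.1 (t.sB (mem_sdiff.2 ⟨mem_compl.2 (NS s (X.fN le_rfl)), eM s⟩))
      (k.2 (t.sA (s.sA (X.fr.red _ hm))))
  · by_cases k : BV T u
    · exact ⟨u, u, fun w hw _ => Or.inl (hw.stop (not_not.2 k)).symm⟩
    · by_cases k' : Tch T u
      · exact good_red s t k k'
      · refine good_blue s t (fun K hK => h3 ⟨K, hK⟩ T t.sA t.sB t.cS ?_) k'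
        by_contra m
        exact t.pre _ ⟨⟨K, hK⟩, rfl⟩ (iff_of_false m (mem_compl.1 (t.sB (h2 _))))

lemma conn_case {A B U : Finset (F D)} (ih : IH D #U) (h : Inst A B U) (hU : Conn U) {e : D}
    (h1 : f e ∈ U) (h2 : f (α e) ∈ A) : ∃ T, Sol A B U (· = e) T := by
  have key : ∀ L k p dd m, IFr A B U L k p dd → m + 1 < k → ∃ T, Sol A B U (· = dd m) T :=
    fun L k p dd m fr hm => by
      obtain ⟨j, j1, j2, j3, j4⟩ := exists_j fr m
      exact Cfg.step ⟨A, B, U, L, k, m, j, p, dd, h, hU, fr, hm, j1, j2, j3, j4⟩ ih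
  obtain ⟨d, t, k1, k2, k3, k4⟩ := exists_start h hU ⟨_, h1⟩
  obtain ⟨L, k, p, dd, fr, -⟩ := exists_ifr h hU k1 k2 k3 k4
  obtain ⟨m, m1, rfl⟩ := fr.sur e ⟨h1, h.AU h2⟩
  have m2 : m < k := by
    by_contra a
    exact h.AB h2 (fr.blue m (not_lt.1 a) m1)
  rcases (Nat.succ_le_of_lt m2).lt_or_eq with a | a
  · exact key _ _ _ _ _ fr a
  subst a
  rcases m.eq_zero_or_pos with rfl | b
  · exact ⟨A, triv h hU fr⟩
  obtain ⟨L', k', p', dd', fr', e1, -⟩ := exists_ifr h hU h1 h2 (t := p (m + 1))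
    ((fr.ends m m1).elim (fun a => Or.inr a.2.symm) fun a => Or.inl a.1.symm)
    (fr.toFrm.tch fr.kL (Or.inr (fr.blue _ le_rfl fr.kL))).1
  rw [← e1]
  refine key _ _ _ _ 0 fr' ?_
  obtain ⟨i, i1, i2⟩ := fr'.sur _ (fr.bd 0 (by omega))
  have i3 : i < k' := by
    by_contra a
    exact h.AB (fr.red 0 (by omega)) (i2 ▸ fr'.blue i (not_lt.1 a) i1)
  have i4 : i ≠ 0 := fun a => b.ne' (fr.dinj _ m1 _ (by omega) (by rw [← e1, ← i2, a]))
  omega

theorem tutte (n : ℕ) : IH D n := by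
  induction n using Nat.strong_induction_on with
  | _ n ih0 =>
  intro A B U W hn h hp
  have ih := ih0 _ hn
  rcases U.eq_empty_or_nonempty with rfl | ⟨g, hg⟩
  · exact ⟨A, sol_empty h hp⟩
  obtain ⟨K, k1, k2, k3, k4⟩ := exists_comp hg
  by_cases k5 : U ⊆ K
  swap
  · exact split ih h hp k1 k3 k4 ⟨g, k2⟩ k5
  obtain rfl : U = K := Subset.antisymm k5 k1
  obtain ⟨e, e1, e2⟩ : ∃ e, Bd U e ∧ ∀ e', W e' → e' = e := by
    by_cases k : ∃ e, W e
    · obtain ⟨e, he⟩ := k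
      exact ⟨e, hp.1 e he, fun e' he' =>
        hp.2 e' e U he' he Subset.rfl k3 (hp.1 e' he').1 (hp.1 e he).1⟩
    · obtain ⟨e, he⟩ := exists_bd ⟨g, hg⟩ (h.disc k3 ⟨g, hg⟩).2.1
      exact ⟨e, he, fun e' he' => absurd ⟨e', he'⟩ k⟩
  obtain ⟨T, t⟩ : ∃ T, Sol A B U (· = e) T := by
    rcases h.or e1.2 with k | k
    · exact conn_case ih h k3 e1.1 k
    · exact (conn_case ih h.symm k3 e1.1 k).elim fun T t => ⟨_, t.symm⟩
  exact ⟨T, t.sA, t.sB, t.cS, t.cT, fun e' he' => t.pre e' (e2 e' he'), t.good⟩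

/-- Extension of a colouring. -/
theorem extend {A B U : Finset (F D)} {W : D → Prop} (h : Inst A B U) (hp : Pre U W) :
    ∃ S, Sol A B U W S := tutte _ A B U W (Nat.lt_succ_self _) h hp

lemma ad_pair {e : D} {K : Finset (F D)} (k1 : f e ∉ K) (k2 : f (α e) ∉ K) (k3 : K.Nonempty)
    (k4 : ∀ d, Bd K d → f (α d) = f e ∨ f (α d) = f (α e)) : Ad K {f (α e)} := by
  by_contra k
  obtain ⟨d, hd⟩ := exists_bd k3 ⟨_, mem_compl.2 k1⟩
  have k5 : ∀ d, Bd K d → Bd {f e} (α d) := fun d m => by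
    have m1 : f (α d) = f e := (k4 d m).resolve_right fun m' => k ⟨d, m.1, mem_singleton.2 m'⟩
    exact ⟨mem_singleton.2 m1, by rw [αα, mem_singleton, ← m1]; exact (s0 d).symm⟩
  have := bond (disc_single (f e)) (a := v e) (z := fun d =>
    (if f d ∈ K then 1 else 0) + if f (α d) ∈ K then 1 else 0)
    ⟨fun d => by beta_reduce; rw [αα, add_comm], fun u => by
      rw [z2_add_self]; exact orth_v (fun g => if g ∈ K then 1 else 0) u⟩ (fun d m => by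
      by_cases a : f d ∈ K <;> by_cases b : f (α d) ∈ K
      · rw [if_pos a, if_pos b, z2_add_self] at m; exact absurd m zero_ne_one
      · exact Or.inr (k5 d ⟨a, b⟩)
      · exact Or.inl (by simpa using k5 (α d) ⟨b, by rwa [αα]⟩)
      · simp [a, b] at m) (k5 d hd) (d2 := e)
    ⟨mem_singleton_self _, by rw [mem_singleton]; exact s0 e⟩
  simp [hd.1, hd.2, k1, k2] at this

lemma inst_pair (e : D) : Inst {f e} {f (α e)} ({f e, f (α e)} : Finset (F D))ᶜ :=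
  ⟨fun g => by
    have := s0 e
    simp only [mem_singleton, mem_compl, mem_insert]
    by_cases a : g = f e
    · subst a; tauto
    · tauto, conn_single _, conn_single _, ⟨e, mem_singleton_self _, mem_singleton_self _⟩,
    fun g hg => by
      obtain ⟨K, k1, k2, k3, k4⟩ := exists_comp hg
      have a : f e ∉ K := fun k => by simpa using k1 k
      have b : f (α e) ∉ K := fun k => by simpa using k1 k
      have c : ∀ d, Bd K d → f (α d) = f e ∨ f (α d) = f (α e) := fun d m => by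
        by_contra m'
        exact m.2 (k4 d m.1 (by simpa [not_or] using m'))
      refine ⟨K, k1, k3, k2, ?_, ad_pair a b ⟨g, k2⟩ c⟩
      simpa using ad_pair (e := α e) b (by rwa [αα]) ⟨g, k2⟩ fun d m => by
        rw [αα]; exact (c d m).symm,
    fun a b c => by rw [compl_compl]; exact four_pair e a b c⟩

/-- A Hamilton cycle through two edges of a face. -/
theorem ham {e e' : D} (h : f e = f e') :
    ∃ S, Disc S ∧ Bd S e ∧ Bd S e' ∧ ∀ u, BV S u := by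
  obtain ⟨S, s⟩ := extend (W := fun d => d = α e' ∧ f (α e') ≠ f (α e)) (inst_pair e) ⟨by
    rintro _ ⟨rfl, k⟩
    exact ⟨by simpa [h, s0 e'] using k, by simp [h]⟩, fun _ _ _ a b _ _ _ _ => a.1.trans b.1.symm⟩
  have hS := s.disc (inst_pair e)
  have a1 : f e ∈ S := s.sA (mem_singleton_self _)
  have a2 : f (α e) ∉ S := mem_compl.1 (s.sB (mem_singleton_self _))
  refine ⟨S, hS, ⟨a1, a2⟩, ⟨h ▸ a1, fun k => ?_⟩, fun u => by_contra fun hu => ?_⟩
  · by_cases m : f (α e') = f (α e)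
    · exact a2 (m ▸ k)
    · exact s.pre _ ⟨rfl, m⟩ (iff_of_true k (by rwa [αα, ← h]))
  obtain ⟨a, b, hab⟩ := s.good u
  obtain ⟨L, p, dd, fr, -⟩ := exists_frm hS (d := e) ⟨a1, a2⟩ (Or.inl rfl)
  have h3 := fr.three
  obtain ⟨a', m1, m2⟩ : ∃ a', BV S a' ∧ (BV S a → a = a') := by
    by_cases k : BV S a
    exacts [⟨a, k, fun _ => rfl⟩, ⟨_, fr.bv (Nat.zero_le _), fun m => absurd m k⟩]
  obtain ⟨b', m3, m4⟩ : ∃ b', BV S b' ∧ (BV S b → b = b') := by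
    by_cases k : BV S b
    exacts [⟨b, k, fun _ => rfl⟩, ⟨_, fr.bv (Nat.zero_le _), fun m => absurd m k⟩]
  obtain ⟨i, i1, i2, i3⟩ : ∃ i < 3, p i ≠ a' ∧ p i ≠ b' := by
    by_contra k
    have k0 : ∀ i < 3, p i = a' ∨ p i = b' := fun i m => by
      by_contra m'
      exact k ⟨i, m, not_or.1 m'⟩
    have n1 : p 0 ≠ p 1 := fun m => by have := fr.inj 0 (by omega) 1 (by omega) m; omega
    have n2 : p 0 ≠ p 2 := fun m => by have := fr.inj 0 (by omega) 2 (by omega) m; omega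
    have n3 : p 1 ≠ p 2 := fun m => by have := fr.inj 1 (by omega) 2 (by omega) m; omega
    rcases k0 0 (by omega) with x | x <;> rcases k0 1 (by omega) with y | y <;>
      rcases k0 2 (by omega) with z | z <;> simp_all
  refine (c4 {r | Rch (InE ({f e, f (α e)} : Finset (F D))ᶜ) (fun r => ¬BV S r) u r ∧ ¬BV S r}
    a' b' b' (fun d k1 k2 => ?_) u ⟨Rch.refl, hu⟩ (fun k => hu (k ▸ m1)) (fun k => hu (k ▸ m3))
    (fun k => hu (k ▸ m3)) (p i) i2 i3 i3).2 (fr.bv (by omega))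
  have k3 : InE ({f e, f (α e)} : Finset (F D))ᶜ d := by
    by_contra m
    have n := mono_iff k1.2 (vρ d).symm
    have n' := s0 d
    simp only [InE, mem_compl, not_or, not_not, mem_insert, mem_singleton, fρ] at m n
    rcases not_and_or.1 m.1 with x | x <;> rcases not_and_or.1 m.2 with y | y <;>
      rw [not_not] at x y <;> rw [x, y] at n n'
    exacts [n' rfl, a2 (n.1 a1), a2 (n.2 a1), n' rfl]
  have k4 := k1.1.tail k1.2 k3
  have k5 : BV S (v (α d)) := by_contra fun m => k2 ⟨k4, m⟩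
  rcases hab _ k4 k5 with x | x
  · exact Or.inl (x.trans (m2 (x ▸ k5)))
  · exact Or.inr (Or.inl (x.trans (m4 (x ▸ k5))))

/-- The Hamilton cycle has as many edges as there are vertices. -/
theorem card_bd {S : Finset (F D)} (hS : Disc S) :
    #(univ.filter (Bd S)) = #(univ.filter (BV S)) :=
  card_nbij v (fun d hd => by simpa using (mem_filter.1 (mem_coe.1 hd)).2.bv)
    (fun d hd d' hd' k => uniq hS (mem_filter.1 (mem_coe.1 hd)).2 (mem_filter.1 (mem_coe.1 hd')).2 k)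
    fun u hu => by
      obtain ⟨d, k1, k2⟩ := (mem_filter.1 (mem_coe.1 hu)).2.out
      exact ⟨d, by simpa using k2, k1⟩

end PM

end Pool.Agent.MP_42ec7b_co

end MrgPart4

-- ======== part 5: formerly Pool.Agent.MP_42ec7b_co.A.CorTools
section MrgPart5

/-!
Small facts on corridors and on balls.
-/

set_option autoImplicit false

open Finset

namespace Pool.Agent.MP_42ec7b_co

open Classical

namespace PM

variable {D : Type} [PM D] {A U J P Q : Finset (F D)} {h g x y : F D} {M i j k : ℕ}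
  {Y Lf Rt : ℕ → Finset (F D)} {Bad : Finset ℕ} {d : D}

lemma Meet.symm (h : Meet P Q) : Meet Q P := h.imp fun _ k => k.symm

lemma Meet.mono {P' Q' : Finset (F D)} (h : Meet P Q) (h1 : P ⊆ P') (h2 : Q ⊆ Q') : Meet P' Q' :=
  h.imp fun _ k => ⟨k.1.mono h1, k.2.mono h2⟩

lemma Ad.meet (h : Ad P Q) : Meet P Q := by
  obtain ⟨d, h1, h2⟩ := h
  exact ⟨v d, tch_v h1, tch_v' h2⟩

lemma meet_self (x : F D) : Meet {x} {x} := by
  obtain ⟨d, rfl⟩ := f_surj x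
  exact ⟨v d, tch_v (mem_singleton_self _), tch_v (mem_singleton_self _)⟩

lemma ad_one : Ad {x} {y} ↔ ∃ d, f d = x ∧ f (α d) = y := by simp [Ad]

lemma mem_suns : x ∈ suns h ↔ Ad {x} {h} := by simp [suns]

lemma Rung.swap {Z : Finset (F D)} (k : Rung A h g Z) : Rung A g h Z :=
  ⟨k.1, k.2.1, k.2.2.2, k.2.2.1⟩

lemma Rung.ne {Z : Finset (F D)} (k : Rung A h g Z) : Z.Nonempty := by
  obtain ⟨_, ⟨c, -, m⟩, -⟩ := k.2.2.1
  exact ⟨_, m⟩

/-- Two faces outside a disc with a common vertex are joined in at most two steps. -/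
lemma two_step (h4 : ∀ d : D, ρ (ρ (ρ (ρ d))) = d) (hA : Disc A) (hx : x ∉ A) (hy : y ∉ A)
    (m : Meet {x} {y}) : x = y ∨ Ad {x} {y} ∨ ∃ z, z ∉ A ∧ Ad {x} {z} ∧ Ad {z} {y} := by
  obtain ⟨u, k1, k2⟩ := m
  obtain ⟨c, rfl, rfl⟩ := tch_one.1 k1
  obtain ⟨c', e, rfl⟩ := tch_one.1 k2
  have four : ∀ b, v b = v c → b = c ∨ b = ρ c ∨ b = ρ (ρ c) ∨ b = ρ (ρ (ρ c)) := fun b hb =>
    vert_ind (Q := fun b => b = c ∨ b = ρ c ∨ b = ρ (ρ c) ∨ b = ρ (ρ (ρ c))) (Or.inl rfl)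
      (fun b _ m => by rcases m with rfl | rfl | rfl | rfl <;> simp [h4]) hb
  have a3 : f (α (ρ (ρ (ρ c)))) = f c := by rw [← fρ, h4]
  rcases four c' e with rfl | rfl | rfl | rfl
  · exact Or.inl rfl
  · exact Or.inr (Or.inl (ad_one.2 ⟨c, rfl, (fρ c).symm⟩))
  · by_cases m1 : f (ρ c) ∈ A
    · by_cases m2 : f (ρ (ρ (ρ c))) ∈ A
      · refine Or.inl ((ivl hA.compl (Q := fun z => z = f c) e (mem_compl.2 hx) (mem_compl.2 hy)
          fun b n1 n2 n3 => ?_).1 rfl).symm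
        rcases four b n1 with rfl | rfl | rfl | rfl
        · exact absurd (fρ b ▸ m1) (mem_compl.1 n3)
        · exact absurd m1 (mem_compl.1 n2)
        · exact absurd (fρ (ρ (ρ c)) ▸ m2) (mem_compl.1 n3)
        · exact absurd m2 (mem_compl.1 n2)
      · exact Or.inr (Or.inr ⟨_, m2, (ad_one.2 ⟨_, rfl, a3⟩).symm,
          (ad_one.2 ⟨_, rfl, (fρ _).symm⟩).symm⟩)
    · exact Or.inr (Or.inr ⟨_, m1, ad_one.2 ⟨c, rfl, (fρ c).symm⟩, ad_one.2 ⟨_, rfl, (fρ _).symm⟩⟩)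
  · exact Or.inr (Or.inl (ad_one.2 ⟨_, rfl, a3⟩).symm)

namespace Cor

variable (C : Cor A h g M Y Lf Rt Bad)

include C

lemma swap : Cor A g h M Y Lf Rt Bad :=
  ⟨fun i m => (C.rung i m).swap, C.cL, C.cR, C.dis, C.nest, fun i m Z k => C.thru i m Z k.swap,
    fun i j a b c u m1 m2 => (C.clean i j a b c u m1 m2).symm,
    fun i j a b c q m => C.band i j a b c q m.symm⟩

lemma Lf_sub (hi : i < M) (hx : x ∈ Lf i) : x ∉ A ∧ x ∉ Y i :=
  ⟨mem_compl.1 (mem_sdiff.1 ((C.cL i hi).1 hx)).1, (mem_sdiff.1 ((C.cL i hi).1 hx)).2⟩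

lemma Rt_sub (hi : i < M) (hx : x ∈ Rt i) : x ∉ A ∧ x ∉ Y i :=
  ⟨mem_compl.1 (mem_sdiff.1 ((C.cR i hi).1 hx)).1, (mem_sdiff.1 ((C.cR i hi).1 hx)).2⟩

lemma Y_sub (hi : i < M) (hx : x ∈ Y i) : x ∉ A := mem_compl.1 ((C.rung i hi).1 hx)

lemma toL (h1 : i < j) (h2 : j < M) (hx : x ∉ A) (k : x ∉ Rt i) : x ∈ Lf j :=
  C.nest i j h1 h2 (mem_sdiff.2 ⟨mem_compl.2 hx, k⟩)

lemma toR (h1 : i < j) (h2 : j < M) (hx : x ∉ A) (k : x ∉ Lf j) : x ∈ Rt i :=
  by_contra fun m => k (C.toL h1 h2 hx m)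

lemma Y_Lf (h1 : i < j) (h2 : j < M) : Y i ⊆ Lf j := fun _ hx =>
  C.toL h1 h2 (C.Y_sub (h1.trans h2) hx) fun m => (C.Rt_sub (h1.trans h2) m).2 hx

lemma Y_Rt (h1 : i < j) (h2 : j < M) : Y j ⊆ Rt i := fun _ hx =>
  C.toR h1 h2 (C.Y_sub h2 hx) fun m => (C.Lf_sub h2 m).2 hx

lemma Lf_mono (h1 : i ≤ j) (h2 : j < M) : Lf i ⊆ Lf j := fun _ hx => by
  rcases h1.lt_or_eq with m | rfl
  · exact C.toL m h2 (C.Lf_sub (m.trans h2) hx).1 (disjoint_left.1 (C.dis i (m.trans h2)) hx)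
  · exact hx

lemma Rt_anti (h1 : i ≤ j) (h2 : j < M) : Rt j ⊆ Rt i := fun _ hx => by
  rcases h1.lt_or_eq with m | rfl
  · exact C.toR m h2 (C.Rt_sub h2 hx).1 (disjoint_right.1 (C.dis j h2) hx)
  · exact hx

lemma mid (h1 : i < k) (h2 : k < j) (h3 : j < M) : Y k ⊆ Rt i ∩ Lf j :=
  subset_inter (C.Y_Rt h1 (h2.trans h3)) (C.Y_Lf h2 h3)

lemma win_mono {i' j' : ℕ} (h1 : i' ≤ i) (h2 : i < M) (h3 : j ≤ j') (h4 : j' < M) :
    Rt i ∩ Lf j ⊆ Rt i' ∩ Lf j' := inter_subset_inter (C.Rt_anti h1 h2) (C.Lf_mono h3 h4)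

lemma nbL (hi : i < M) (h1 : f d ∈ Lf i) (h2 : f (α d) ∉ A) : f (α d) ∈ Lf i ∨ f (α d) ∈ Y i :=
  or_iff_not_imp_right.2 fun m => (C.cL i hi).2.2.2 d h1 (mem_sdiff.2 ⟨mem_compl.2 h2, m⟩)

lemma nbR (hi : i < M) (h1 : f d ∈ Rt i) (h2 : f (α d) ∉ A) : f (α d) ∈ Rt i ∨ f (α d) ∈ Y i :=
  or_iff_not_imp_right.2 fun m => (C.cR i hi).2.2.2 d h1 (mem_sdiff.2 ⟨mem_compl.2 h2, m⟩)

/-- The neighbours of a window. -/
lemma nb (hi : i < M) (hj : j < M) (h1 : f d ∈ Rt i ∩ Lf j) (h2 : f (α d) ∉ A) :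
    f (α d) ∈ Rt i ∩ Lf j ∨ f (α d) ∈ Y i ∨ f (α d) ∈ Y j := by
  rcases C.nbR hi (mem_inter.1 h1).1 h2 with a | a
  · rcases C.nbL hj (mem_inter.1 h1).2 h2 with b | b
    exacts [Or.inl (mem_inter.2 ⟨a, b⟩), Or.inr (Or.inr b)]
  · exact Or.inr (Or.inl a)

lemma stepR (hi : i + 1 < M) (h1 : x ∈ Rt (i + 1)) (h2 : y ∉ A) (m : Ad {x} {y}) : y ∈ Rt i := by
  obtain ⟨d, rfl, rfl⟩ := ad_one.1 m
  exact (C.nbR hi h1 h2).elim (fun a => C.Rt_anti (Nat.le_succ i) hi a)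
    fun a => C.Y_Rt (Nat.lt_succ_self i) hi a

lemma stepL (hj : j + 1 < M) (h1 : x ∈ Lf j) (h2 : y ∉ A) (m : Ad {x} {y}) : y ∈ Lf (j + 1) := by
  obtain ⟨d, rfl, rfl⟩ := ad_one.1 m
  exact (C.nbL (by omega) h1 h2).elim (fun a => C.Lf_mono (Nat.le_succ j) hj a)
    fun a => C.Y_Lf (Nat.lt_succ_self j) hj a

lemma step (hi : i + 1 < M) (hj : j + 1 < M) (h1 : x ∈ Rt (i + 1) ∩ Lf j) (h2 : y ∉ A)
    (m : Ad {x} {y}) : y ∈ Rt i ∩ Lf (j + 1) :=
  mem_inter.2 ⟨C.stepR hi (mem_inter.1 h1).1 h2 m, C.stepL hj (mem_inter.1 h1).2 h2 m⟩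

/-- A face outside `A` that meets a window lies in the window that is larger by two. -/
lemma meet2 (h4 : ∀ d : D, ρ (ρ (ρ (ρ d))) = d) (hA : Disc A) (hi : i + 2 < M) (hj : j + 2 < M)
    (h1 : x ∈ Rt (i + 2) ∩ Lf j) (h2 : y ∉ A) (m : Meet {x} {y}) : y ∈ Rt i ∩ Lf (j + 2) := by
  rcases two_step h4 hA (C.Rt_sub hi (mem_inter.1 h1).1).1 h2 m with rfl | a | ⟨z, a, b, c⟩
  · exact C.win_mono (by omega) hi (by omega) hj h1
  · exact C.win_mono (by omega) (by omega) (by omega) hj (C.step hi (by omega) h1 h2 a)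
  · exact C.step (by omega) hj (C.step hi (by omega) h1 a b) h2 c

/-- Faces that are separated by two rungs do not meet. -/
lemma nomeet (h4 : ∀ d : D, ρ (ρ (ρ (ρ d))) = d) (hA : Disc A) (h1 : j < k) (h2 : k < M)
    (hx : x ∈ Lf j) (hy : y ∈ Rt k) : ¬Meet {x} {y} := fun m => by
  have n1 : y ∉ Lf k := disjoint_right.1 (C.dis k h2) hy
  have n2 := C.Rt_sub h2 hy
  rcases two_step h4 hA (C.Lf_sub (h1.trans h2) hx).1 n2.1 m with rfl | a | ⟨z, a, b, c⟩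
  · exact n1 (C.Lf_mono h1.le h2 hx)
  · exact n1 (C.Lf_mono h1 h2 (C.stepL (by omega) hx n2.1 a))
  · have := C.Lf_mono h1 h2 (C.stepL (by omega) hx a b)
    obtain ⟨d, rfl, rfl⟩ := ad_one.1 c
    exact (C.nbL h2 this n2.1).elim n1 n2.2

/-- A clean window meets only `h` and `g`. -/
lemma meetA (h1 : i < j) (h2 : j < M) (h3 : ∀ k ∈ Bad, k < i ∨ j ≤ k) (hx : x ∈ Rt i ∩ Lf j)
    (hy : y ∈ A) (m : Meet {x} {y}) : y = h ∨ y = g := by
  obtain ⟨u, a, b⟩ := m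
  exact (C.clean i j h1 h2 h3 u (a.mono (singleton_subset_iff.2 hx))
    (b.mono (singleton_subset_iff.2 hy))).imp (fun k => k.2.2 y hy b) fun k => k.2.2 y hy b

lemma adjA (h1 : i < j) (h2 : j < M) (h3 : ∀ k ∈ Bad, k < i ∨ j ≤ k) (hx : f d ∈ Rt i ∩ Lf j)
    (hy : f (α d) ∈ A) : f (α d) = h ∨ f (α d) = g :=
  C.meetA h1 h2 h3 hx hy (ad_one.2 ⟨d, rfl, rfl⟩).meet

lemma conn_r (h1 : i < j) (h2 : j < M) : Conn (Rt i ∩ Lf j ∪ Y j) := by
  refine conn_of_core (C.rung j h2).2.1 subset_union_right fun Z a b c => by_contra fun k => ?_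
  have k1 : Z ⊆ Rt i ∩ Lf j := fun x hx => (mem_union.1 (a hx)).resolve_right fun m => k ⟨x, m, hx⟩
  obtain ⟨x, hx⟩ := (C.rung j h2).ne
  exact k ⟨x, hx, (C.cR i (h1.trans h2)).2.2.1 Z (k1.trans inter_subset_left) b (fun d m1 m2 =>
    c d m1 ((C.nbL h2 (mem_inter.1 (k1 m1)).2 (C.Rt_sub (h1.trans h2) m2).1).elim
      (fun m => mem_union_left _ (mem_inter.2 ⟨m2, m⟩)) (mem_union_right _))) (C.Y_Rt h1 h2 hx)⟩

lemma conn_l (h1 : i < j) (h2 : j < M) : Conn (Rt i ∩ Lf j ∪ Y i) := by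
  have hi := h1.trans h2
  refine conn_of_core (C.rung i hi).2.1 subset_union_right fun Z a b c => by_contra fun k => ?_
  have k1 : Z ⊆ Rt i ∩ Lf j := fun x hx => (mem_union.1 (a hx)).resolve_right fun m => k ⟨x, m, hx⟩
  obtain ⟨x, hx⟩ := (C.rung i hi).ne
  exact k ⟨x, hx, (C.cL j h2).2.2.1 Z (k1.trans inter_subset_right) b (fun d m1 m2 =>
    c d m1 ((C.nbR hi (mem_inter.1 (k1 m1)).1 (C.Lf_sub h2 m2).1).elim
      (fun m => mem_union_left _ (mem_inter.2 ⟨m, m2⟩)) (mem_union_right _))) (C.Y_Lf h1 h2 hx)⟩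

/-- Windows with disjoint index ranges are disjoint. -/
lemma win_dis {i' j' : ℕ} (h1 : j ≤ i') (h2 : i' < M) : Disjoint (Rt i ∩ Lf j) (Rt i' ∩ Lf j') :=
  disjoint_left.2 fun _ a b => disjoint_left.1 (C.dis i' h2)
    (C.Lf_mono h1 h2 (mem_inter.1 a).2) (mem_inter.1 b).1

/-- The same corridor read from the other end. -/
lemma rev : Cor A h g M (fun i => Y (M - 1 - i)) (fun i => Rt (M - 1 - i))
    (fun i => Lf (M - 1 - i)) (Bad.image fun k => M - 2 - k) := by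
  have key : ∀ i j, i < j → j < M → (∀ k ∈ Bad.image fun k => M - 2 - k, k < i ∨ j ≤ k) →
      ∀ k ∈ Bad, k < M - 1 - j ∨ M - 1 - i ≤ k := fun i j a b c k hk => by
    have := c _ (mem_image_of_mem _ hk)
    omega
  refine ⟨fun i m => C.rung _ (by omega), fun i m => C.cR _ (by omega),
    fun i m => C.cL _ (by omega), fun i m => (C.dis _ (by omega)).symm, fun i j a b x hx =>
      C.toR (by omega) (by omega) (mem_compl.1 (mem_sdiff.1 hx).1) (mem_sdiff.1 hx).2,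
    fun i m Z a b => (C.thru _ (by omega) Z a b).symm, fun i j a b c u m1 m2 =>
      C.clean _ _ (by omega) (by omega) (key i j a b c) u (by rw [inter_comm]; exact m1) m2,
    fun i j a b c q m => ?_⟩
  obtain ⟨Z, k1, k2, k3, k4, k5⟩ := C.band (M - 1 - j) (M - 1 - i) (by omega) (by omega)
    (key i j a b c) q m
  exact ⟨Z, k1, k2, by rw [union_comm]; exact k3, fun x hx => by rw [union_comm]; exact k4 x hx,
    fun x hx => k5 x (by rw [inter_comm]; exact hx)⟩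

end Cor

lemma mem_ball_zero : x ∈ ball U J 0 ↔ x ∈ J ∧ x ∈ U := by simp [ball]

lemma mem_ball_succ : x ∈ ball U J (k + 1) ↔ x ∈ ball U J k ∨ x ∈ U ∧ Ad {x} (ball U J k) := by
  simp [ball]

lemma ball_sub : ball U J k ⊆ U := by
  induction k with
  | zero => exact fun x hx => (mem_ball_zero.1 hx).2
  | succ k ih => exact fun x hx => (mem_ball_succ.1 hx).elim (fun m => ih m) And.left

lemma ball_le (h : i ≤ k) : ball U J i ⊆ ball U J k := by
  induction k, h using Nat.le_induction with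
  | base => exact Subset.rfl
  | succ k _ ih => exact fun x hx => mem_ball_succ.2 (Or.inl (ih hx))

lemma ball_mono {U' J' : Finset (F D)} (h1 : U ⊆ U') (h2 : J ⊆ J') :
    ball U J k ⊆ ball U' J' k := by
  induction k with
  | zero => exact fun x hx => mem_ball_zero.2 ⟨h2 (mem_ball_zero.1 hx).1, h1 (mem_ball_zero.1 hx).2⟩
  | succ k ih =>
    exact fun x hx => mem_ball_succ.2 ((mem_ball_succ.1 hx).imp (fun m => ih m)
      fun m => ⟨h1 m.1, m.2.mono Subset.rfl ih⟩)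

lemma ball_step (hx : x ∈ ball U J k) (hy : y ∈ U) (m : Ad {y} {x}) : y ∈ ball U J (k + 1) :=
  mem_ball_succ.2 (Or.inr ⟨hy, m.mono Subset.rfl (singleton_subset_iff.2 hx)⟩)

/-- A face of a ball is the end of a short path. -/
lemma ball_path (hx : x ∈ ball U J k) : ∃ m ≤ k, ∃ z : ℕ → F D, z 0 ∈ J ∧ z m = x ∧
    (∀ i ≤ m, z i ∈ ball U {z 0} i) ∧ ∀ i < m, Ad {z (i + 1)} {z i} := by
  induction k generalizing x with
  | zero =>
    exact ⟨0, le_rfl, fun _ => x, (mem_ball_zero.1 hx).1, rfl, fun i hi => Nat.le_zero.1 hi ▸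
      mem_ball_zero.2 ⟨mem_singleton_self _, (mem_ball_zero.1 hx).2⟩, fun i hi => by omega⟩
  | succ k ih =>
    rcases mem_ball_succ.1 hx with a | ⟨a, d, b, c⟩
    · obtain ⟨m, k1, k2⟩ := ih a
      exact ⟨m, by omega, k2⟩
    · obtain ⟨m, k1, z, k2, k3, k4, k5⟩ := ih c
      have e : Ad {x} {z m} := ⟨d, b, by rw [k3]; exact mem_singleton_self _⟩
      refine ⟨m + 1, by omega, fun i => if i ≤ m then z i else x, by simpa using k2, by simp,
        fun i hi => ?_, fun i hi => ?_⟩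
      · by_cases n : i ≤ m
        · simpa [n] using k4 i n
        · obtain rfl : i = m + 1 := by omega
          simpa using ball_step (k4 m le_rfl) a e
      · by_cases n : i + 1 ≤ m
        · simpa [n, show i ≤ m by omega] using k5 i n
        · obtain rfl : i = m := by omega
          simpa using e

lemma ball_single (hx : x ∈ ball U J k) : ∃ y ∈ J, x ∈ ball U {y} k := by
  obtain ⟨m, k1, z, k2, rfl, k4, -⟩ := ball_path hx
  exact ⟨_, k2, ball_le k1 (k4 m le_rfl)⟩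

lemma ball_ball (hx : x ∈ ball U J k) (hy : y ∈ ball U {x} i) : y ∈ ball U J (k + i) := by
  induction i generalizing y with
  | zero => rw [mem_singleton.1 (mem_ball_zero.1 hy).1]; exact hx
  | succ i ih =>
    rcases mem_ball_succ.1 hy with a | ⟨a, d, b, c⟩
    · exact ball_le (by omega) (ih a)
    · exact ball_step (ih c) a ⟨d, b, mem_singleton_self _⟩

/-- Going back inside any set that contains the ball. -/
lemma ball_back {W : Finset (F D)} (hW : ball U {y} k ⊆ W) (hx : x ∈ ball U {y} k) :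
    y ∈ ball W {x} k := by
  obtain ⟨m, k1, z, k2, rfl, k4, k5⟩ := ball_path hx
  obtain rfl := mem_singleton.1 k2
  have key : ∀ i ≤ m, z (m - i) ∈ ball W {z m} i := fun i hi => by
    induction i with
    | zero => exact mem_ball_zero.2 ⟨mem_singleton_self _, hW hx⟩
    | succ i ih =>
      have e := (k5 (m - (i + 1)) (by omega)).symm
      rw [show m - (i + 1) + 1 = m - i by omega] at e
      exact ball_step (ih (by omega)) (hW (ball_le (by omega) (k4 _ (by omega)))) e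
  simpa using ball_le k1 (key m le_rfl)

/-- The faces of a path form a connected set. -/
lemma conn_path {z : ℕ → F D} {a m : ℕ} (h : ∀ i, a ≤ i → i < m → Ad {z (i + 1)} {z i}) :
    Conn ((Icc a m).image z) := by
  rcases lt_or_ge m a with n | n
  · rw [Icc_eq_empty_of_lt n, image_empty]
    exact fun _ _ _ _ => empty_subset _
  induction m, n using Nat.le_induction with
  | base => simpa using conn_single (z a)
  | succ m n ih =>
    obtain ⟨d, k1, k2⟩ := ad_one.1 (h m n (Nat.lt_succ_self m))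
    have e : Icc a (m + 1) = insert (m + 1) (Icc a m) := by
      ext i
      simp only [mem_Icc, mem_insert]
      omega
    rw [e, image_insert, ← k1]
    exact conn_insert (ih fun i a b => h i a (by omega))
      (k2 ▸ mem_image_of_mem _ (mem_Icc.2 ⟨n, le_rfl⟩))

end PM

end Pool.Agent.MP_42ec7b_co

end MrgPart5

-- ======== part 6: formerly Pool.Agent.MP_42ec7b_co.A.RPath
section MrgPart6

/-!
A disc from which only one face outside the root can be removed is a root part with an induced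
path of faces.
-/

set_option autoImplicit false

open Finset

namespace Pool.Agent.MP_42ec7b_co

open Classical PM

namespace RPath

variable {D : Type} [PM D] {A P X K : Finset (F D)} {h x : F D} {m : ℕ} {z : ℕ → F D}

/-- `A` consists of `X` and the induced path `z 0, …, z m` that is attached to `X` at `z m`. -/
structure Pth (A X : Finset (F D)) (m : ℕ) (z : ℕ → F D) : Prop where
  inj : ∀ i ≤ m, ∀ j ≤ m, z i = z j → i = j
  part : ∀ x, x ∈ A ↔ x ∈ X ∨ ∃ i ≤ m, z i = x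
  nX : ∀ i ≤ m, z i ∉ X
  cX : Conn X
  adj : ∀ i < m, Ad {z (i + 1)} {z i}
  sep : ∀ i ≤ m, ∀ j ≤ m, Ad {z i} {z j} → i + 1 = j ∨ j + 1 = i
  adX : Ad {z m} X
  sX : ∀ i ≤ m, Ad {z i} X → i = m

lemma ad_iff {Q : Finset (F D)} : Ad P Q ↔ ∃ x ∈ P, ∃ y ∈ Q, Ad {x} {y} :=
  ⟨fun ⟨d, h1, h2⟩ => ⟨_, h1, _, h2, d, mem_singleton_self _, mem_singleton_self _⟩,
    fun ⟨_, h1, _, h2, k⟩ => k.mono (singleton_subset_iff.2 h1) (singleton_subset_iff.2 h2)⟩

lemma conn_out (hA : Conn K) (k : Ad {x} K) : Conn (insert x K) := by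
  rw [insert_eq]
  exact conn_union (conn_single _) hA (Or.inl k)

/-- A part of `A` that is closed up to two faces of `A` has an exposed face. -/
lemma expo_of (hA : Aᶜ.Nonempty) (hK : K ⊆ A) (hne : K.Nonempty) (hx : x ∈ A) (hh : h ∈ A)
    (n1 : x ∉ K) (n2 : h ∉ K)
    (hc : ∀ d, f d ∈ K → f (α d) ∈ A → f (α d) ≠ x → f (α d) ≠ h → f (α d) ∈ K) :
    ∃ y ∈ K, Expo A y := by
  by_contra k
  obtain ⟨w, hw⟩ := hA
  have h1 : ∀ y, y ∈ ({x, h} : Finset (F D))ᶜ ↔ y ≠ x ∧ y ≠ h := by simp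
  have := conn_two x h K
    (fun y hy => (h1 y).2 ⟨fun e => n1 (e ▸ hy), fun e => n2 (e ▸ hy)⟩) hne
    (fun d m1 m2 => hc d m1 (by_contra fun m3 => k ⟨_, m1, hK m1, d, mem_singleton_self _,
      mem_compl.2 m3⟩) ((h1 _).1 m2).1 ((h1 _).1 m2).2)
    ((h1 w).2 ⟨fun e => mem_compl.1 hw (e ▸ hx), fun e => mem_compl.1 hw (e ▸ hh)⟩)
  exact mem_compl.1 hw (hK this)

/-- An exposed face that cannot be removed separates the root from `h`. -/
lemma cut [Q4 D] (hS : AddStmt) (hA : Disc A) (hP : Conn P) (hne : P.Nonempty) (hPA : P ⊆ A)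
    (only : ∀ x ∈ A, x ∉ P → Disc (A.erase x) → x = h) (hx : Expo A x) (n1 : x ∉ P)
    (n2 : x ≠ h) : ∃ T, Cmp (A.erase x) T ∧ h ∈ T ∧ P ⊆ A.erase x \ T ∧
      Conn (A.erase x \ T) := by
  obtain ⟨p, hp⟩ := hne
  have h1 : P ⊆ A.erase x := fun y hy => mem_erase.2 ⟨fun e => n1 (e ▸ hy), hPA hy⟩
  obtain ⟨S, hS1, hS2⟩ := exists_cmp (h1 hp)
  have h2 : P ⊆ S := hP.sub h1 hS1.2.2.2 hp hS2
  have key : ∀ y ∈ A.erase x, y ∉ S → ∃ T, Cmp (A.erase x) T ∧ y ∈ T ∧ h ∈ T ∧ Disjoint T S := by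
    intro y y1 y2
    obtain ⟨T, hT, y3⟩ := exists_cmp y1
    have dis : Disjoint T S := disjoint_left.2 fun w w1 w2 => y2 (hT.eq hS1 w1 w2 ▸ y3)
    have xT : x ∉ T := fun e => (mem_erase.1 (hT.1 e)).1 rfl
    have TA : T ⊆ A := hT.1.trans (erase_subset _ _)
    have c1 : Conn (A \ T) := conn_sdiff hA.2.2.1 (conn_single x) (singleton_nonempty x)
      (singleton_subset_iff.2 (mem_sdiff.2 ⟨hx.1, xT⟩)) fun d m1 m2 m3 =>
        mem_singleton.2 (by_contra fun m4 => m3 (hT.2.2.2 d m1 (mem_erase.2 ⟨m4, m2⟩)))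
    obtain ⟨w, w1, w2⟩ := expo_of hA.2.1 TA hT.2.1 hx.1 hx.1 xT xT
      fun d m1 m2 m3 _ => hT.2.2.2 d m1 (mem_erase.2 ⟨m3, m2⟩)
    obtain ⟨q, q1, q2, q3⟩ := (hS D).1 A (A \ T) hA c1 ⟨x, mem_sdiff.2 ⟨hx.1, xT⟩⟩ sdiff_subset
      ⟨w, w2, fun e => (mem_sdiff.1 e).2 w1⟩
    have q4 : q ∈ T := by_contra fun e => q2 (mem_sdiff.2 ⟨q1, e⟩)
    exact ⟨T, hT, y3, only q q1 (fun e => disjoint_left.1 dis q4 (h2 e)) q3 ▸ q4, dis⟩
  have h3 : ¬A.erase x ⊆ S := fun e => n2 (only x hx.1 n1 ⟨⟨p, h1 hp⟩, ⟨x, by simp⟩,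
    Subset.antisymm hS1.1 e ▸ hS1.2.2.1, by
      rw [compl_erase]; exact conn_out hA.2.2.2 hx.2⟩)
  obtain ⟨y, y1, y2⟩ := not_subset.1 h3
  obtain ⟨T, hT, -, t1, t2⟩ := key y y1 y2
  have e : A.erase x \ T = S := by
    refine Subset.antisymm (fun w hw => by_contra fun w2 => ?_)
      (subset_sdiff.2 ⟨hS1.1, t2.symm⟩)
    obtain ⟨T', hT', w3, t3, -⟩ := key w (mem_sdiff.1 hw).1 w2
    exact (mem_sdiff.1 hw).2 (hT.eq hT' t1 t3 ▸ w3)
  exact ⟨T, hT, t1, e ▸ h2, e ▸ hS1.2.2.1⟩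

lemma expo_h (hA : Disc A) (hh : h ∈ A) (hd : Disc (A.erase h)) : Expo A h := by
  refine ⟨hh, by_contra fun k => ?_⟩
  have h1 := hd.2.2.2
  rw [compl_erase] at h1
  have := h1 Aᶜ (subset_insert _ _) hA.2.1 (fun d m1 m2 => (mem_insert.1 m2).elim
    (fun e => absurd ⟨α d, mem_singleton.2 e, by rwa [αα]⟩ k) id) (mem_insert_self _ _)
  exact mem_compl.1 this hh

/-- If there is a second exposed face outside the root, then `h` is a leaf. -/
lemma leaf [Q4 D] (hS : AddStmt) (hA : Disc A) (hP : Conn P) (hne : P.Nonempty) (hPA : P ⊆ A)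
    (hh : h ∈ A) (hd : Disc (A.erase h)) (only : ∀ x ∈ A, x ∉ P → Disc (A.erase x) → x = h)
    (ex : ∃ x, Expo A x ∧ x ∉ P ∧ x ≠ h) : ∃ x ∈ A.erase h, x ∉ P ∧
      Disc ((A.erase h).erase x) ∧ ∀ y ∈ A, Ad {h} {y} → y = x := by
  choose! T hT using fun x (k : Expo A x ∧ x ∉ P ∧ x ≠ h) =>
    cut hS hA hP hne hPA only k.1 k.2.1 k.2.2
  obtain ⟨x0, hx0⟩ := ex
  obtain ⟨x, hx, hm⟩ := Set.exists_min_image {x | Expo A x ∧ x ∉ P ∧ x ≠ h} (fun x => #(T x))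
    (Set.toFinite _) ⟨x0, hx0⟩
  obtain ⟨t1, t2, t3, t4⟩ := hT x hx
  have xT : x ∉ T x := fun e => (mem_erase.1 (t1.1 e)).1 rfl
  have TA : T x ⊆ A := t1.1.trans (erase_subset _ _)
  obtain ⟨p, hp⟩ := hne
  have c1 : Conn (A \ T x) := conn_sdiff hA.2.2.1 (conn_single x) (singleton_nonempty x)
    (singleton_subset_iff.2 (mem_sdiff.2 ⟨hx.1.1, xT⟩)) fun d m1 m2 m3 =>
      mem_singleton.2 (by_contra fun m4 => m3 (t1.2.2.2 d m1 (mem_erase.2 ⟨m4, m2⟩)))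
  have e : T x = {h} := by
    refine Subset.antisymm (by_contra fun k => ?_) (singleton_subset_iff.2 t2)
    obtain ⟨w, w1, w2⟩ := not_subset.1 k
    obtain ⟨y, y1, y2⟩ := expo_of (K := (T x).erase h) hA.2.1 ((erase_subset _ _).trans TA)
      ⟨w, mem_erase.2 ⟨fun e => w2 (mem_singleton.2 e), w1⟩⟩ hx.1.1 hh
      (fun e => xT (mem_erase.1 e).2) (by simp) fun d m1 m2 m3 m4 =>
        mem_erase.2 ⟨m4, t1.2.2.2 d (mem_erase.1 m1).2 (mem_erase.2 ⟨m3, m2⟩)⟩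
    obtain ⟨y3, y4⟩ := mem_erase.1 y1
    have hy : Expo A y ∧ y ∉ P ∧ y ≠ h := ⟨y2, fun e => (mem_sdiff.1 (t3 e)).2 y4, y3⟩
    obtain ⟨s1, -, s3, -⟩ := hT y hy
    have sub : T y ⊆ (T x).erase y := fun w hw => mem_erase.2 ⟨(mem_erase.1 (s1.1 hw)).1,
      by_contra fun w3 => (mem_sdiff.1 (s3 hp)).2 (c1.sub (S := A.erase y)
        (fun q hq => mem_erase.2 ⟨fun e => (mem_sdiff.1 hq).2 (e ▸ y4), (mem_sdiff.1 hq).1⟩)
        s1.2.2.2 (mem_sdiff.2 ⟨(mem_erase.1 (s1.1 hw)).2, w3⟩) hw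
        (mem_sdiff.2 ⟨hPA hp, (mem_sdiff.1 (t3 hp)).2⟩))⟩
    have a1 := card_le_card sub
    have a2 := card_erase_lt_of_mem y4
    have a3 : #(T x) ≤ #(T y) := hm y hy
    omega
  rw [e] at t1 t3 t4
  rw [sdiff_singleton_eq_erase, erase_right_comm] at t3 t4
  refine ⟨x, mem_erase.2 ⟨hx.2.2, hx.1.1⟩, hx.2.1, ⟨⟨p, t3 hp⟩, ⟨x, by simp⟩, t4, ?_⟩, ?_⟩
  · rw [compl_erase]
    exact conn_out hd.2.2.2 (hx.1.2.mono Subset.rfl (compl_subset_compl.2 (erase_subset _ _)))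
  · intro y y1 y2
    obtain ⟨d, d1, d2⟩ := ad_one.1 y2
    by_contra k
    have := t1.2.2.2 d (mem_singleton.2 d1) (mem_erase.2 ⟨d2 ▸ k, d2 ▸ y1⟩)
    exact s0 d ((mem_singleton.1 this).trans d1.symm)

lemma ad_rest (hA : Conn A) (hh : h ∈ A) (hne : (A.erase h).Nonempty) : Ad {h} (A.erase h) := by
  obtain ⟨w, hw⟩ := hne
  obtain ⟨d, d1, d2, d3⟩ := hA.exit (singleton_subset_iff.2 hh) (singleton_nonempty h)
    fun e => (mem_erase.1 hw).1 (mem_singleton.1 (e (mem_erase.1 hw).2))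
  exact ⟨d, d1, mem_erase.2 ⟨fun e => d3 (mem_singleton.2 e), d2⟩⟩

lemma exists_pth [Q4 D] (hS : AddStmt) (hP : Conn P) (hne : P.Nonempty) (n : ℕ) :
    ∀ (A : Finset (F D)) (h : F D), #A = n → Disc A → P ⊆ A → h ∈ A → h ∉ P → Disc (A.erase h) →
      (∀ x ∈ A, x ∉ P → Disc (A.erase x) → x = h) →
      ∃ X m z, Pth A X m z ∧ z 0 = h ∧ P ⊆ X ∧ ∀ x ∈ X, Expo A x → x ∈ P := by
  induction n with
  | zero => exact fun A h k _ _ hh => absurd hh (by simp [card_eq_zero.1 k])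
  | succ n ih =>
    intro A h k hA hPA hh hP' hd only
    have h1 : P ⊆ A.erase h := fun y hy => mem_erase.2 ⟨fun e => hP' (e ▸ hy), hPA hy⟩
    by_cases ex : ∃ x, Expo A x ∧ x ∉ P ∧ x ≠ h
    · obtain ⟨x, x1, x2, x3, x4⟩ := leaf hS hA hP hne hPA hh hd only ex
      have hx : Ad {h} {x} := by
        obtain ⟨a, a1, b, b1, ab⟩ := ad_iff.1 (ad_rest hA.2.2.1 hh hd.1)
        rw [mem_singleton.1 a1] at ab
        exact x4 b (mem_erase.1 b1).2 ab ▸ ab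
      obtain ⟨X, m, z, p, z0, p1, p2⟩ := ih (A.erase h) x (by rw [card_erase_of_mem hh]; omega)
        hd h1 x1 x2 x3 fun y y1 y2 y3 => by_contra fun y4 => by
          obtain ⟨y5, y6⟩ := mem_erase.1 y1
          refine y5 (only y y6 y2 ⟨⟨h, mem_erase.2 ⟨y5.symm, hh⟩⟩, ⟨y, by simp⟩, ?_, ?_⟩)
          · rw [← insert_erase (mem_erase.2 ⟨y5.symm, hh⟩), erase_right_comm]
            exact conn_out y3.2.2.1 (hx.mono Subset.rfl
              (singleton_subset_iff.2 (mem_erase.2 ⟨Ne.symm y4, x1⟩)))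
          · rw [compl_erase]
            refine conn_out hA.2.2.2 ?_
            obtain ⟨d, d1, d2⟩ := (expo_h hd y1 y3).2
            refine ⟨d, d1, mem_compl.2 fun d3 => mem_compl.1 d2 (mem_erase.2 ⟨fun d4 => y4 ?_, d3⟩)⟩
            exact x4 y y6 (Ad.symm ⟨d, d1, mem_singleton.2 d4⟩)
      have zA : ∀ i ≤ m, z i ∈ A.erase h := fun i hi => (p.part _).2 (Or.inr ⟨i, hi, rfl⟩)
      have XA : X ⊆ A.erase h := fun y hy => (p.part _).2 (Or.inl hy)
      have hz : ∀ i ≤ m, Ad {h} {z i} → i = 0 := fun i hi a =>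
        p.inj i hi 0 (Nat.zero_le _) ((x4 _ (mem_erase.1 (zA i hi)).2 a).trans z0.symm)
      refine ⟨X, m + 1, fun i => Nat.casesOn i h z, ⟨?_, ?_, ?_, p.cX, ?_, ?_, p.adX, ?_⟩, rfl, p1,
        fun y y1 y2 => p2 y y1 ⟨XA y1, y2.2.mono Subset.rfl
          (compl_subset_compl.2 (erase_subset _ _))⟩⟩
      · rintro (_ | i) hi (_ | j) hj e
        · rfl
        · exact absurd e.symm (mem_erase.1 (zA j (by omega))).1
        · exact absurd e (mem_erase.1 (zA i (by omega))).1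
        · rw [p.inj i (by omega) j (by omega) e]
      · refine fun y => ⟨fun hy => ?_, ?_⟩
        · by_cases e : y = h
          · exact Or.inr ⟨0, Nat.zero_le _, e.symm⟩
          · exact ((p.part y).1 (mem_erase.2 ⟨e, hy⟩)).imp_right
              fun ⟨i, i1, i2⟩ => ⟨i + 1, by omega, i2⟩
        · rintro (hy | ⟨_ | i, i1, rfl⟩)
          · exact (mem_erase.1 (XA hy)).2
          · exact hh
          · exact (mem_erase.1 (zA i (by omega))).2
      · rintro (_ | i) hi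
        · exact fun e => (mem_erase.1 (XA e)).1 rfl
        · exact p.nX i (by omega)
      · rintro (_ | i) hi
        · exact (z0 ▸ hx.symm : Ad {z 0} {h})
        · exact p.adj i (by omega)
      · rintro (_ | i) hi (_ | j) hj a
        · obtain ⟨d, d1, d2⟩ := ad_one.1 a
          exact absurd (d2.trans d1.symm) (s0 d)
        · have := hz j (by omega) a
          omega
        · have := hz i (by omega) a.symm
          omega
        · have := p.sep i (by omega) j (by omega) a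
          omega
      · rintro (_ | i) hi a
        · obtain ⟨a, a1, b, b1, ab⟩ := ad_iff.1 a
          rw [mem_singleton.1 a1] at ab
          exact absurd (z0 ▸ x4 b (mem_erase.1 (XA b1)).2 ab ▸ b1) (p.nX 0 (Nat.zero_le _))
        · rw [p.sX i (by omega) a]
    · refine ⟨A.erase h, 0, fun _ => h, ⟨fun _ _ _ _ _ => by omega, fun y => ?_, by simp, hd.2.2.1,
        fun _ k => absurd k (Nat.not_lt_zero _), fun _ _ _ _ a => ?_, ad_rest hA.2.2.1 hh hd.1,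
        fun _ _ _ => by omega⟩, rfl, h1, fun y y1 y2 => by_contra fun y3 =>
          ex ⟨y, y2, y3, (mem_erase.1 y1).1⟩⟩
      · by_cases e : y = h
        · simp [e, hh]
        · simp [e, Ne.symm e]
      · obtain ⟨d, d1, d2⟩ := ad_one.1 a
        exact absurd (d2.trans d1.symm) (s0 d)

/-- A vertex that is not plain is an end of an edge to a neighbour in the disc. -/
lemma jn_le (hA : Disc A) (hh : h ∈ A) : jn A h ≤ 2 * ex {h} A := by
  have : ({u | Tch {h} u ∧ Tch Aᶜ u ∧ ¬Plain A h u} : Finset (V D)) ⊆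
      ({d | f d ∈ ({h} : Finset (F D)) ∧ f (α d) ∈ A} : Finset D).image v ∪
        ({d | f d ∈ ({h} : Finset (F D)) ∧ f (α d) ∈ A} : Finset D).image fun d => v (α d) := by
    intro u hu
    obtain ⟨h1, -, h3⟩ := (mem_filter.1 hu).2
    by_contra k
    refine h3 ⟨hh, h1, fun y y1 y2 => ?_⟩
    obtain ⟨c, rfl, c2⟩ := tch_one.1 h1
    obtain ⟨c', c3, rfl⟩ := tch_one.1 y2
    refine (ivl hA (Q := fun g => g = h) c3 (c2 ▸ hh) y1 fun d d1 d2 d3 =>
      iff_of_false (fun e => k (mem_union_left _ (mem_image.2 ⟨d, by simp [e, d3], d1⟩)))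
        fun e => k (mem_union_right _ (mem_image.2 ⟨α d, by simp [e, d2], by simp [d1]⟩))).1 c2
  have a := (card_le_card this).trans ((card_union_le _ _).trans
    (add_le_add card_image_le card_image_le))
  unfold jn ex
  omega

namespace Pth

variable (p : Pth A X m z)

include p

lemma mem {i : ℕ} (hi : i ≤ m) : z i ∈ A := (p.part _).2 (Or.inr ⟨i, hi, rfl⟩)

lemma sub : X ⊆ A := fun _ hy => (p.part _).2 (Or.inl hy)

lemma rest : x ∈ A \ X ↔ ∃ i ≤ m, z i = x := by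
  rw [mem_sdiff, p.part]
  exact ⟨fun k => k.1.resolve_left k.2, fun ⟨i, i1, i2⟩ => ⟨Or.inr ⟨i, i1, i2⟩, i2 ▸ p.nX i i1⟩⟩

lemma cseg (a : ℕ) {b : ℕ} (hb : b ≤ m) : Conn ((Icc a b).image z) :=
  conn_path fun i _ k => p.adj i (by omega)

lemma disc (hA : Disc A) : Disc (A \ X) := by
  have e : A \ X = (Icc 0 m).image z := by
    ext y
    simp [p.rest, -mem_sdiff]
  obtain ⟨d, -, d2⟩ := p.adX
  obtain ⟨y, y1, y2⟩ := expo_of hA.2.1 p.sub ⟨_, d2⟩ (p.mem le_rfl) (p.mem le_rfl)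
    (p.nX m le_rfl) (p.nX m le_rfl) fun c c1 c2 c3 _ => by_contra fun c4 => by
      obtain ⟨i, i1, i2⟩ := p.rest.1 (mem_sdiff.2 ⟨c2, c4⟩)
      exact c3 (p.sX i i1 (Ad.symm ⟨c, c1, mem_singleton.2 i2.symm⟩) ▸ i2.symm)
  refine ⟨⟨_, p.rest.2 ⟨0, Nat.zero_le _, rfl⟩⟩, ⟨y, by simp [y1]⟩, e ▸ p.cseg 0 le_rfl, ?_⟩
  have : (A \ X)ᶜ = X ∪ Aᶜ := by
    ext w
    simp only [mem_compl, mem_sdiff, mem_union]
    tauto
  rw [this]
  exact conn_union p.cX hA.2.2.2 (Or.inl (y2.2.mono (singleton_subset_iff.2 y1) Subset.rfl))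

lemma jn4 (hA : Disc A) (hx : x ∈ A \ X) : jn (A \ X) x ≤ 4 := by
  have h1 := jn_le (p.disc hA) hx
  obtain ⟨i, i1, rfl⟩ := p.rest.1 hx
  have h2 : #{y ∈ A \ X | Ad {z i} {y}} ≤ 2 := (card_le_card (t := {z (i + 1), z (i - 1)})
    fun y hy => by
      obtain ⟨y1, y2⟩ := mem_filter.1 hy
      obtain ⟨j, j1, rfl⟩ := p.rest.1 y1
      rcases p.sep i i1 j j1 y2 with rfl | rfl <;> simp).trans card_le_two
  rw [ex_single] at h1
  omega

lemma chn {t L : ℕ} (h0 : 0 < L) (h1 : t + L ≤ m) : Chn A ((Icc 0 t).image z)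
    (X ∪ (Icc (t + L + 1) m).image z) L fun k => z (t + 1 + k) := by
  have mU : ∀ y, y ∈ (Icc 0 t).image z ↔ ∃ i ≤ t, z i = y := by simp
  have mT : ∀ y, y ∈ X ∪ (Icc (t + L + 1) m).image z ↔
      y ∈ X ∨ ∃ i, (t + L + 1 ≤ i ∧ i ≤ m) ∧ z i = y := by simp
  have sT : ∀ i, i < t + L → ¬Ad {z i} (X ∪ (Icc (t + L + 1) m).image z) := fun i hi a => by
    obtain ⟨a, a1, b, b1, ab⟩ := ad_iff.1 a
    rw [mem_singleton.1 a1] at ab
    rcases (mT b).1 b1 with b2 | ⟨j, j1, rfl⟩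
    · have := p.sX i (by omega) (ab.mono Subset.rfl (singleton_subset_iff.2 b2))
      omega
    · have := p.sep i (by omega) j j1.2 ab
      omega
  have nT : ∀ i, i ≤ t + L → z i ∉ X ∪ (Icc (t + L + 1) m).image z := fun i hi a => by
    rcases (mT _).1 a with b2 | ⟨j, j1, j2⟩
    · exact p.nX i (by omega) b2
    · have := p.inj j j1.2 i (by omega) j2
      omega
  refine ⟨h0, fun i hi j hj e => ?_, fun y => ?_, disjoint_left.2 fun y y1 => ?_, fun i hi a => ?_,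
    fun i hi => nT _ (by omega), p.cseg 0 (by omega), ?_, ?_, ?_, fun i hi => ?_, fun a => ?_,
    fun i hi i0 a => ?_, fun i hi => sT _ (by omega), fun i j h2 h3 a => ?_⟩
  · have := p.inj _ (by omega) _ (by omega) e
    omega
  · rw [mU, mT, p.part]
    constructor
    · rintro (hy | ⟨i, i1, rfl⟩)
      · exact Or.inr (Or.inl (Or.inl hy))
      · by_cases a : i ≤ t
        · exact Or.inl ⟨i, a, rfl⟩
        · by_cases b : t + L + 1 ≤ i
          · exact Or.inr (Or.inl (Or.inr ⟨i, ⟨b, i1⟩, rfl⟩))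
          · exact Or.inr (Or.inr ⟨i - (t + 1), by omega, congrArg z (by omega)⟩)
    · rintro (⟨i, i1, rfl⟩ | (hy | ⟨i, i1, rfl⟩) | ⟨i, i1, rfl⟩)
      · exact Or.inr ⟨i, by omega, rfl⟩
      · exact Or.inl hy
      · exact Or.inr ⟨i, i1.2, rfl⟩
      · exact Or.inr ⟨_, by omega, rfl⟩
  · obtain ⟨i, i1, rfl⟩ := (mU y).1 y1
    exact nT i (by omega)
  · obtain ⟨j, j1, j2⟩ := (mU _).1 a
    have := p.inj j (by omega) _ (by omega) j2
    omega
  · rcases h1.lt_or_eq with a | a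
    · exact conn_union p.cX (p.cseg _ le_rfl) (Or.inl (p.adX.symm.mono Subset.rfl
        (singleton_subset_iff.2 (mem_image_of_mem _ (mem_Icc.2 ⟨a, le_rfl⟩)))))
    · rw [Icc_eq_empty (by omega), image_empty, union_empty]
      exact p.cX
  · exact (p.adj t (by omega)).symm.mono (singleton_subset_iff.2 ((mU _).2 ⟨t, le_rfl, rfl⟩))
      Subset.rfl
  · rw [show t + 1 + (L - 1) = t + L by omega]
    rcases h1.lt_or_eq with a | a
    · exact (p.adj _ a).symm.mono Subset.rfl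
        (singleton_subset_iff.2 ((mT _).2 (Or.inr ⟨_, ⟨le_rfl, a⟩, rfl⟩)))
    · exact a ▸ (a ▸ p.adX).mono Subset.rfl subset_union_left
  · exact (p.adj (t + 1 + i) (by omega)).symm
  · obtain ⟨a, a1, b, b1, ab⟩ := ad_iff.1 a
    obtain ⟨i, i1, rfl⟩ := (mU a).1 a1
    exact sT i (by omega) (ab.mono Subset.rfl (singleton_subset_iff.2 b1))
  · obtain ⟨a, a1, b, b1, ab⟩ := ad_iff.1 a
    obtain ⟨j, j1, rfl⟩ := (mU a).1 a1
    rw [mem_singleton.1 b1] at ab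
    have := p.sep j (by omega) _ (by omega) ab
    omega
  · have := p.sep _ (by omega) _ (by omega) a
    omega

end Pth

lemma enum (s : Finset ℕ) (H : ℕ) (h0 : 0 ∈ s) (hs : #s ≤ H) :
    ∃ e : ℕ → ℕ, (∀ i, e i ∈ s) ∧ ∀ t ∈ s, ∃ i < H, e i = t := by
  refine ⟨fun i => if hi : i < #s then (s.equivFin.symm ⟨i, hi⟩).1 else 0, fun i => ?_,
    fun t ht => ⟨s.equivFin ⟨t, ht⟩, (s.equivFin ⟨t, ht⟩).2.trans_le hs, by simp⟩⟩
  dsimp only
  split_ifs
  exacts [Subtype.property _, h0]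

end RPath

open RPath

theorem path (_hC : CntStmt) (hA : AddStmt) : PathStmt := by
  intro D _ _ S H A P h a1 a2 a3 a4 a5 a6 a7 a8 a9 a10
  obtain ⟨X, m, z, p, rfl, p1, p2⟩ := exists_pth hA a2 a3 _ A h rfl a1 a4 a6 a7 a9 a10
  obtain ⟨e, e1, e2⟩ := enum {t ∈ range (m + 1) | S ≤ sz (z t)} H (by simpa using a8)
    ((card_le_card_of_injOn z (fun t ht => by
      have := mem_filter.1 (mem_coe.1 ht)
      exact mem_coe.2 (mem_filter.2 ⟨p.mem (by simpa [Nat.lt_succ_iff] using this.1), this.2⟩))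
      fun i hi j hj k => p.inj i (by simpa [Nat.lt_succ_iff] using (mem_filter.1 (mem_coe.1 hi)).1)
        j (by simpa [Nat.lt_succ_iff] using (mem_filter.1 (mem_coe.1 hj)).1) k).trans a5)
  have ex : ∀ t, ∃ l, ¬(t + 1 + l ≤ m ∧ sz (z (t + 1 + l)) < S) := fun t =>
    ⟨m, fun k => by omega⟩
  have l1 : ∀ t, ∀ k < Nat.find (ex t), t + 1 + k ≤ m ∧ sz (z (t + 1 + k)) < S := fun t k hk =>
    not_not.1 (Nat.find_min (ex t) hk)
  have l2 : ∀ t, 0 < Nat.find (ex t) → t + Nat.find (ex t) ≤ m := fun t k => by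
    have := (l1 t (Nat.find (ex t) - 1) (by omega)).1
    omega
  refine ⟨X, p1, p.sub, p.nX 0 (Nat.zero_le _), p.disc a1, p2, fun g hg => p.jn4 a1 hg,
    fun i => (Icc 0 (e i)).image z,
    fun i => X ∪ (Icc (e i + Nat.find (ex (e i)) + 1) m).image z, fun i => Nat.find (ex (e i)),
    fun i k => z (e i + 1 + k), fun i => z (e i), ⟨by simp, by simp, fun i _ k =>
      ⟨p.chn k (l2 _ k), mem_image_of_mem _ (by simp), mem_image_of_mem _ (by simp),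
        (p.adj _ (l1 _ 0 k).1).symm, fun j hj =>
          ⟨fun q => p.nX _ (l1 _ j hj).1 (p1 q), (l1 _ j hj).2⟩⟩, fun x x1 x2 x3 => Or.inr ?_⟩,
    fun i _ k => ⟨(mem_filter.1 (e1 i)).2, p.nX _ (by have := l2 _ k; omega),
      fun j hj => p.nX _ (l1 _ j hj).1⟩⟩
  obtain ⟨j, j1, rfl⟩ := p.rest.1 (mem_sdiff.2 ⟨x1.1, fun q => x2 (p2 x q x1)⟩)
  have t1 : S ≤ sz (z (Nat.findGreatest (fun t => S ≤ sz (z t)) j)) :=
    Nat.findGreatest_spec (P := fun t => S ≤ sz (z t)) (Nat.zero_le j) a8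
  have t2 := Nat.findGreatest_le (P := fun t => S ≤ sz (z t)) j
  have t3 : ∀ k, Nat.findGreatest (fun t => S ≤ sz (z t)) j < k → k ≤ j → sz (z k) < S :=
    fun k k1 k2 => not_le.1 (Nat.findGreatest_is_greatest (P := fun t => S ≤ sz (z t)) k1 k2)
  generalize Nat.findGreatest (fun t => S ≤ sz (z t)) j = t at t1 t2 t3
  have t4 : t ≠ j := fun q => by rw [q] at t1; omega
  obtain ⟨i, i1, rfl⟩ := e2 t (mem_filter.2 ⟨mem_range.2 (by omega), t1⟩)
  refine ⟨i, i1, j - (e i + 1), (Nat.lt_find_iff _ _).2 fun k hk => not_not.2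
    ⟨by omega, t3 _ (by omega) (by omega)⟩, congrArg z (by omega)⟩

end Pool.Agent.MP_42ec7b_co

end MrgPart6

-- ======== part 7: formerly Pool.Agent.MP_42ec7b_co.A.RTop2
section MrgPart7

/-!
Many ears of a Hamiltonian disc when heavy faces carry almost all triangles; ears give a seed.
-/

set_option autoImplicit false

open Finset

namespace Pool.Agent.MP_42ec7b_co

open Classical PM

namespace Top2

variable {D : Type} [PM D] {S Hv : Finset (F D)} {a b e : D} {t g g' : F D}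

lemma four (h4 : ∀ d : D, ρ (ρ (ρ (ρ d))) = d) (h : v b = v a) :
    b = a ∨ b = ρ a ∨ b = ρ (ρ a) ∨ b = ρ (ρ (ρ a)) :=
  vert_ind (Q := fun b => b = a ∨ b = ρ a ∨ b = ρ (ρ a) ∨ b = ρ (ρ (ρ a))) (Or.inl rfl)
    (fun c _ m => by
      rcases m with rfl | rfl | rfl | rfl
      exacts [Or.inr (Or.inl rfl), Or.inr (Or.inr (Or.inl rfl)), Or.inr (Or.inr (Or.inr rfl)),
        Or.inl (h4 a)]) h

lemma r3 (h4 : ∀ d : D, ρ (ρ (ρ (ρ d))) = d) (h : sz (f a) = 3) :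
    α (φ (φ a)) = ρ (ρ (ρ a)) := by
  conv_rhs => rw [← (tri3 h).1]
  exact (h4 _).symm

/-- A face that meets another one is diagonal or adjacent to it. -/
lemma touch (h4 : ∀ d : D, ρ (ρ (ρ (ρ d))) = d) (h : Meet {t} {g}) (n : g ≠ t) :
    (∃ a, f a = t ∧ f (ρ (ρ a)) = g) ∨ ∃ e, f e = t ∧ f (α e) = g := by
  obtain ⟨u, h1, h2⟩ := h
  obtain ⟨a, rfl, rfl⟩ := tch_one.1 h1
  obtain ⟨b, k, rfl⟩ := tch_one.1 h2
  rcases four h4 k with rfl | rfl | rfl | rfl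
  · exact absurd rfl n
  · exact Or.inr ⟨a, rfl, (fρ a).symm⟩
  · exact Or.inl ⟨a, rfl, rfl⟩
  · exact Or.inr ⟨α (ρ (ρ (ρ a))), by rw [← fρ, h4], by rw [αα]⟩

/-- A triangle that spans two faces without a common vertex on it. -/
lemma span (h4 : ∀ d : D, ρ (ρ (ρ (ρ d))) = d) (h3 : sz t = 3) (n : g ≠ g') (n1 : g ≠ t)
    (n2 : g' ≠ t) (m1 : Meet {t} {g}) (m2 : Meet {t} {g'})
    (k : ∀ u, Tch {t} u → Tch {g} u → ¬Tch {g'} u) :
    (∃ a a', a ≠ a' ∧ f a = t ∧ f a' = t ∧ f (ρ (ρ a)) = g ∧ f (ρ (ρ a')) = g') ∨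
      (∃ a, f a = t ∧ f (ρ (ρ a)) = g ∧ f (α (φ a)) = g') ∨
      ∃ a, f a = t ∧ f (ρ (ρ a)) = g' ∧ f (α (φ a)) = g := by
  have key : ∀ {g g' : F D} {a e : D}, (∀ u, Tch {t} u → Tch {g} u → ¬Tch {g'} u) → f a = t →
      f (ρ (ρ a)) = g → f e = t → f (α e) = g' → f (α (φ a)) = g' := by
    intro g g' a e k a1 a2 e1 e2
    have t1 : Tch {t} (v a) := tch_v (mem_singleton.2 a1)
    have t2 : Tch {g} (v a) := ⟨ρ (ρ a), by simp, mem_singleton.2 a2⟩
    obtain ⟨q1, q2⟩ := tri3 (a1.symm ▸ h3 : sz (f a) = 3)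
    rcases q2 e (e1.trans a1.symm) with rfl | rfl | rfl
    · exact absurd (tch_v' (mem_singleton.2 e2)) (k _ t1 t2)
    · exact e2
    · exact absurd ⟨_, by rw [← vφ, q1], mem_singleton.2 e2⟩ (k _ t1 t2)
  have adj : ∀ {g g' : F D} {e : D}, (∀ u, Tch {t} u → Tch {g} u → ¬Tch {g'} u) → f e = t →
      f (α e) = g → f (α (φ e)) ≠ g' := by
    intro g g' e k e1 e2 e3
    exact k (v (φ e)) (tch_v (by simp [e1])) ⟨α e, (vφ e).symm, mem_singleton.2 e2⟩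
      (tch_v' (mem_singleton.2 e3))
  have k' : ∀ u, Tch {t} u → Tch {g'} u → ¬Tch {g} u := fun u x y z => k u x z y
  rcases touch h4 m1 n1 with ⟨a, a1, a2⟩ | ⟨e, e1, e2⟩ <;>
    rcases touch h4 m2 n2 with ⟨a', b1, b2⟩ | ⟨e', c1, c2⟩
  · exact Or.inl ⟨a, a', fun m => n (by rw [← a2, ← b2, m]), a1, b1, a2, b2⟩
  · exact Or.inr (Or.inl ⟨a, a1, a2, key k a1 a2 c1 c2⟩)
  · exact Or.inr (Or.inr ⟨a', b1, b2, key k' b1 b2 e1 e2⟩)
  · obtain ⟨q1, q2⟩ := tri3 (e1.symm ▸ h3 : sz (f e) = 3)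
    rcases q2 e' (c1.trans e1.symm) with rfl | rfl | rfl
    · exact absurd (e2.symm.trans c2) n
    · exact absurd c2 (adj k e1 e2)
    · exact absurd (by rw [q1, e2]) (adj k' c1 c2)

lemma ear_of (h3 : sz (f e) = 3) (h0 : f (α e) ∈ S ↔ f e ∈ S) (h1 : ¬(f (α (φ e)) ∈ S ↔ f e ∈ S))
    (h2 : ¬(f (α (φ (φ e))) ∈ S ↔ f e ∈ S)) : Ear S (f e) := by
  refine ⟨h3, card_eq_one.2 ⟨e, ?_⟩⟩
  ext d
  simp only [mem_filter, mem_univ, true_and, mem_singleton]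
  refine ⟨fun ⟨k1, k2⟩ => ?_, fun k => by rw [k]; exact ⟨rfl, h0⟩⟩
  rcases (tri3 h3).2 d k1 with rfl | rfl | rfl
  exacts [rfl, absurd k2 h1, absurd k2 h2]

lemma not_all (h4 : ∀ d : D, ρ (ρ (ρ (ρ d))) = d) (h : Tch S (v a)) :
    f a ∈ S ∨ f (ρ a) ∈ S ∨ f (ρ (ρ a)) ∈ S ∨ f (ρ (ρ (ρ a))) ∈ S := by
  obtain ⟨c, c1, c2⟩ := h
  rcases four h4 c1 with rfl | rfl | rfl | rfl
  exacts [Or.inl c2, Or.inr (Or.inl c2), Or.inr (Or.inr (Or.inl c2)), Or.inr (Or.inr (Or.inr c2))]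

/-- A triangle between a face inside and a face outside is an ear or next to one. -/
lemma near_ear (h4 : ∀ d : D, ρ (ρ (ρ (ρ d))) = d) (hS : Disc S) (hB : ∀ u, BV S u)
    (h3 : sz (f a) = 3) (hx : sz (f (ρ a)) = 3) (hy : sz (f (ρ (ρ (ρ a)))) = 3)
    (hh : f (α (φ a)) ∈ S) (hg : f (ρ (ρ a)) ∉ S) :
    Ear S (f a) ∨ ∃ e, Ear S (f e) ∧ f (α e) = f a := by
  have q1 := (tri3 h3).1
  have q2 := r3 h4 h3
  by_cases ht : f a ∈ S
  · by_cases x : f (α a) ∈ S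
    · refine Or.inr ⟨α a, ear_of (fρ a ▸ hx) (by rw [αα]; exact iff_of_true ht x) (fun m => hg ?_)
        fun m => ?_, by rw [αα]⟩
      · rw [fρ]
        have := m.2 x
        rwa [φ_def, αα] at this
      · have z := m.2 x
        rw [r3 h4 (fρ a ▸ hx)] at z
        have := not_all h4 (hB (v (α a))).2
        simp only [mem_compl] at this
        rcases this with k | k | k | k
        · exact k x
        · exact k (by rw [fρ, αα]; exact ht)
        · exact k (by rw [fρ]; exact hh)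
        · exact k z
    · by_cases y : f (ρ (ρ (ρ a))) ∈ S
      · have e1 : f (α (ρ (ρ (ρ a)))) = f a := by rw [← fρ, h4]
        refine Or.inr ⟨ρ (ρ (ρ a)), ear_of hy (by rw [e1]; exact iff_of_true ht y) (fun m => ?_)
          fun m => hg ?_, e1⟩
        · have z := m.2 y
          rw [← q2, φ_def (α _), αα, ← fρ] at z
          have := not_all h4 (hB (v (φ (φ a)))).2
          simp only [mem_compl] at this
          rcases this with k | k | k | k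
          · exact k (by rw [fφ, fφ]; exact ht)
          · exact k (by rw [fρ, q2]; exact y)
          · exact k z
          · exact k (by rw [φ_def (φ a), h4]; exact hh)
        · have z := m.2 y
          rwa [r3 h4 hy, h4] at z
      · have := ear_of (S := S) (e := φ a) (by rwa [fφ]) (by rw [fφ]; exact iff_of_true hh ht)
          (fun m => y (by rw [← q2]; exact m.2 (by rwa [fφ])))
          (fun m => x (by have := m.2 (by rwa [fφ]); rwa [q1] at this))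
        rw [fφ] at this
        exact Or.inl this
  · left
    by_cases x : f (α a) ∈ S
    · have y : f (ρ (ρ (ρ a))) ∉ S := fun y => ρρne (ρ a) (uniq hS
        ⟨y, by rw [← fρ, h4]; exact ht⟩ ⟨by rwa [fρ], by rwa [← fρ]⟩ (by simp))
      have := ear_of (S := S) (e := φ (φ a)) (by rwa [fφ, fφ])
        (by rw [fφ, fφ, q2]; exact iff_of_false y ht)
        (fun m => ht (by rw [q1, fφ, fφ] at m; exact m.1 x))
        (fun m => ht (by rw [q1, fφ, fφ] at m; exact m.1 hh))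
      rwa [fφ, fφ] at this
    · refine ear_of h3 (iff_of_false x ht) (fun m => ht (m.1 hh)) fun m => ht (m.1 ?_)
      rw [q2]
      rcases not_all h4 (hB (v a)).1 with k | k | k | k
      exacts [absurd k ht, absurd (fρ a ▸ k) x, absurd k hg, k]

/-- A Hamiltonian disc through the two sides of a triangle at its apex. -/
lemma start (h4 : ∀ d : D, ρ (ρ (ρ (ρ d))) = d) (h3 : sz (f a) = 3) :
    ∃ S : Finset (F D), Disc S ∧ (∀ u, BV S u) ∧ f (α (φ a)) ∈ S ∧ f (ρ (ρ a)) ∉ S := by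
  obtain ⟨S, hS, b1, b2, hB⟩ := ham (e := a) (e' := φ (φ a)) (by simp)
  refine ⟨S, hS, hB, by_contra fun k => ?_, fun k => ρρne a (uniq hS ⟨k, ?_⟩ b1 (by simp))⟩
  · have s := hS.2.2.1 {f a} (singleton_subset_iff.2 b1.1) (singleton_nonempty _) fun d d1 d2 => by
      rcases (tri3 h3).2 d (mem_singleton.1 d1) with rfl | rfl | rfl
      exacts [absurd d2 b1.2, absurd d2 k, absurd d2 b2.2]
    obtain ⟨w, w1, w2, w3, -⟩ := exists_ne4 (v a) (v (φ a)) (v (φ (φ a))) (v a)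
    obtain ⟨c, rfl, c2⟩ := (hB w).1
    rcases (tri3 h3).2 c (mem_singleton.1 (s c2)) with rfl | rfl | rfl
    exacts [w1 rfl, w2 rfl, w3 rfl]
  · rw [← fρ, ← r3 h4 h3]
    exact b2.2

/-- Few vertices lie on two faces of a set. -/
lemma two_faces (Hv : Finset (F D)) :
    #{u : V D | ∃ g ∈ Hv, ∃ g' ∈ Hv, g ≠ g' ∧ Tch {g} u ∧ Tch {g'} u} ≤ #Hv * #Hv * 2 := by
  rw [← card_product]
  refine (card_le_card (t := (Hv ×ˢ Hv).biUnion fun p =>
    univ.filter fun u : V D => p.1 ≠ p.2 ∧ Tch {p.1} u ∧ Tch {p.2} u) fun u hu => ?_).trans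
    (card_biUnion_le.trans (sum_le_card_nsmul _ _ 2 fun p _ => not_lt.1 fun k => ?_))
  · obtain ⟨g, g1, g', g2, k⟩ := (mem_filter.1 hu).2
    exact mem_biUnion.2 ⟨(g, g'), mem_product.2 ⟨g1, g2⟩, mem_filter.2 ⟨mem_univ _, k⟩⟩
  · obtain ⟨x, y, z, x1, y1, z1, n1, n2, n3⟩ := two_lt_card_iff.1 k
    obtain ⟨n, x2, x3⟩ := (mem_filter.1 x1).2
    obtain ⟨-, y2, y3⟩ := (mem_filter.1 y1).2
    obtain ⟨-, z2, z3⟩ := (mem_filter.1 z1).2
    exact n3 (three_v n n1 n2 x2 x3 y2 y3 z2 z3)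

/-- Apex darts of triangles with base and apex on `Hv` whose other neighbours are triangles. -/
noncomputable def gd (Hv : Finset (F D)) : Finset D :=
  univ.filter fun a => (sz (f a) = 3 ∧ f (ρ (ρ a)) ∈ Hv ∧ f (α (φ a)) ∈ Hv) ∧
    sz (f (ρ a)) = 3 ∧ sz (f (ρ (ρ (ρ a)))) = 3

lemma fib (P : Finset D) (R : Finset (F D)) : ∑ t ∈ R, #{a ∈ P | f a = t} ≤ #P := by
  rw [← card_biUnion fun x _ y _ n => disjoint_left.2 fun a a1 a2 =>
    n ((mem_filter.1 a1).2.symm.trans (mem_filter.1 a2).2)]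
  exact card_le_card (biUnion_subset.2 fun _ _ => filter_subset _ _)

lemma gd_large (Rest : Finset (F D)) (h : ∀ t ∈ Rest, sz t = 3 ∧
    ((∃ a a', a ≠ a' ∧ f a = t ∧ f a' = t ∧ f (ρ (ρ a)) ∈ Hv ∧ f (ρ (ρ a')) ∈ Hv) ∨
      ∃ a, f a = t ∧ f (ρ (ρ a)) ∈ Hv ∧ f (α (φ a)) ∈ Hv)) :
    6 * #Rest ≤ #(gd Hv) + 5 * wt Hv := by
  generalize hP : (univ.filter fun a : D =>
    sz (f a) = 3 ∧ f (ρ (ρ a)) ∈ Hv ∧ f (α (φ a)) ∈ Hv) = Pd
  generalize hD : (univ.filter fun a : D => f (ρ (ρ a)) ∈ Hv) = Dg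
  generalize hN : (univ.filter fun d : D => f d ∈ Hv ∧ ¬sz (f (α d)) = 3) = Nb
  have mP : ∀ a, a ∈ Pd ↔ sz (f a) = 3 ∧ f (ρ (ρ a)) ∈ Hv ∧ f (α (φ a)) ∈ Hv := by simp [← hP]
  have mD : ∀ a, a ∈ Dg ↔ f (ρ (ρ a)) ∈ Hv := by simp [← hD]
  have mN : ∀ a, a ∈ Nb ↔ f a ∈ Hv ∧ ¬sz (f (α a)) = 3 := by simp only [← hN, mem_filter]; simp
  have c1 : #Dg ≤ wt Hv := card_le_card_of_injOn (fun a => ρ (ρ a))
    (fun a ha => mem_coe.2 (mem_filter.2 ⟨mem_univ _, (mD a).1 ha⟩))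
    fun a _ b _ k => ρ.injective (ρ.injective k)
  have c2 : #Rest * 2 ≤ #Dg + #Pd := by
    refine (card_nsmul_le_sum Rest (fun t => #{a ∈ Dg | f a = t} + #{a ∈ Pd | f a = t}) 2
      fun t ht => ?_).trans ?_
    · obtain ⟨h3, ⟨a, a', n, a1, a2, a3, a4⟩ | ⟨a, a1, a2, a3⟩⟩ := h t ht
      · exact (one_lt_card_iff.2 ⟨a, a', mem_filter.2 ⟨(mD a).2 a3, a1⟩,
          mem_filter.2 ⟨(mD a').2 a4, a2⟩, n⟩).trans_le (Nat.le_add_right _ _)
      · exact Nat.add_le_add (card_pos.2 ⟨a, mem_filter.2 ⟨(mD a).2 a2, a1⟩⟩)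
          (card_pos.2 ⟨a, mem_filter.2 ⟨(mP a).2 ⟨a1.symm ▸ h3, a2, a3⟩, a1⟩⟩)
    · rw [sum_add_distrib]
      exact Nat.add_le_add (fib _ _) (fib _ _)
  have c3 : #Pd + #Nb ≤ wt Hv := by
    have i : #(Pd.image fun a => α (φ a)) = #Pd :=
      card_image_of_injective _ fun a b k => φ.injective (α.injective k)
    rw [← i, ← card_union_of_disjoint (disjoint_left.2 fun d d1 d2 => by
      obtain ⟨a, a1, rfl⟩ := mem_image.1 d1
      exact ((mN _).1 d2).2 (by rw [αα, fφ]; exact ((mP a).1 a1).1))]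
    refine card_le_card fun d hd => mem_filter.2 ⟨mem_univ _, ?_⟩
    rcases mem_union.1 hd with k | k
    · obtain ⟨a, a1, rfl⟩ := mem_image.1 k
      exact ((mP a).1 a1).2.2
    · exact ((mN _).1 k).1
  have c4 : #Pd ≤ #(gd Hv) + (#Nb + #Nb) := by
    refine (card_le_card (t := gd Hv ∪ ((Nb.image fun d => ρ.symm (α d)) ∪
      Nb.image fun d => ρ.symm (ρ.symm d))) fun a ha => ?_).trans ((card_union_le _ _).trans
        (Nat.add_le_add_left ((card_union_le _ _).trans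
          (Nat.add_le_add card_image_le card_image_le)) _))
    have k := (mP a).1 ha
    by_cases x : sz (f (ρ a)) = 3
    · by_cases y : sz (f (ρ (ρ (ρ a)))) = 3
      · exact mem_union_left _ (mem_filter.2 ⟨mem_univ _, k, x, y⟩)
      · exact mem_union_right _ (mem_union_right _ (mem_image.2
          ⟨ρ (ρ a), (mN _).2 ⟨k.2.1, by rwa [← fρ]⟩, by simp⟩))
    · exact mem_union_right _ (mem_union_left _ (mem_image.2
        ⟨α (ρ a), (mN _).2 ⟨by rw [← fρ]; exact k.2.1, by rwa [αα]⟩, by simp⟩))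
  omega

/-- A positive share of the good triangles gives ears of one Hamiltonian disc. -/
lemma ears (h4 : ∀ d : D, ρ (ρ (ρ (ρ d))) = d) (hne : (gd Hv).Nonempty) :
    ∃ A Er : Finset (F D), Disc A ∧ (∀ u, BV A u) ∧ (∀ t ∈ Er, Ear A t) ∧
      #(gd Hv) ≤ 4 * #Er * (#Hv * #Hv) := by
  obtain ⟨a0, a1, a2⟩ := exists_max_image (gd Hv) (fun a => #{b ∈ gd Hv |
    (f (α (φ b)), f (ρ (ρ b))) = (f (α (φ a)), f (ρ (ρ a)))}) hne
  obtain ⟨S, hS, hB, s1', s2⟩ := start h4 (mem_filter.1 a1).2.1.1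
  refine ⟨S, univ.filter (Ear S), hS, hB, fun t ht => (mem_filter.1 ht).2, ?_⟩
  generalize hE : univ.filter (Ear S) = Er
  have mE : ∀ t, t ∈ Er ↔ Ear S t := by simp [← hE]
  have c1 : #{b ∈ gd Hv | (f (α (φ b)), f (ρ (ρ b))) = (f (α (φ a0)), f (ρ (ρ a0)))} ≤
      4 * #Er := by
    have w : wt Er ≤ #Er * 3 := by
      rw [wt_sum]
      exact sum_le_card_nsmul _ _ 3 fun t ht => ((mE t).1 ht).1.le
    refine (card_le_card_of_injOn f (t := Er ∪ (univ.filter fun d : D => f d ∈ Er).image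
      fun d => f (α d)) (fun b hb => ?_) fun b hb b' hb' k => ?_).trans
      ((card_union_le _ _).trans ((Nat.add_le_add_left (card_image_le.trans w) _).trans
        (by omega)))
    · obtain ⟨b1, b2⟩ := mem_filter.1 (mem_coe.1 hb)
      obtain ⟨⟨k1, -⟩, k2, k3⟩ := (mem_filter.1 b1).2
      obtain ⟨e1, e2⟩ := Prod.ext_iff.1 b2
      simp only at e1 e2
      rcases near_ear h4 hS hB k1 k2 k3 (e1 ▸ s1') (e2 ▸ s2) with k | ⟨e, k, k'⟩
      · exact mem_coe.2 (mem_union_left _ ((mE _).2 k))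
      · exact mem_coe.2 (mem_union_right _ (mem_image.2
          ⟨e, mem_filter.2 ⟨mem_univ _, (mE _).2 k⟩, k'⟩))
    · have e1 : f (α (φ b)) = f (α (φ a0)) := congrArg Prod.fst (mem_filter.1 (mem_coe.1 hb)).2
      have e2 : f (α (φ b')) = f (α (φ a0)) := congrArg Prod.fst (mem_filter.1 (mem_coe.1 hb')).2
      exact φ.injective (s1 (by rw [fφ, fφ, k]) (e1.trans e2.symm))
  rw [← card_product]
  refine card_le_mul_card_image_of_maps_to (f := fun b => (f (α (φ b)), f (ρ (ρ b))))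
    (fun a ha => mem_product.2 ⟨(mem_filter.1 ha).2.1.2.2, (mem_filter.1 ha).2.1.2.1⟩) _
    fun p _ => ?_
  by_cases k : ∃ a ∈ gd Hv, (f (α (φ a)), f (ρ (ρ a))) = p
  · obtain ⟨a, k1, rfl⟩ := k
    exact (a2 a k1).trans c1
  · rw [filter_eq_empty_iff.2 fun a ha m => k ⟨a, ha, m⟩]
    exact Nat.zero_le _

end Top2

open Top2

theorem top2 (hC : CntStmt) : Top2Stmt := by
  intro T H
  refine ⟨T * (200 * (H * H + H)) + 1, fun D _ _ s S hn hs hsS hH hT hτ => ?_⟩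
  obtain ⟨h4, -, -, c1, -, -, c2, c3, -, -, -, c4⟩ := hC D
  generalize hv : hvy S (univ : Finset (F D)) = Hv at hH hT hτ
  have mH : ∀ g, g ∈ Hv ↔ S ≤ sz g := by simp [← hv, hvy]
  have hHH : #Hv * #Hv ≤ H * H := Nat.mul_le_mul hH hH
  have e1 : wt Hv ≤ #(tri (univ : Finset (F D))) + 4 * H := by
    have a1 : ∑ x ∈ Hv, (sz x - 4) ≤ ∑ x : F D, (sz x - 4) :=
      sum_le_sum_of_subset (subset_univ _)
    have a2 : ∑ x ∈ Hv, sz x ≤ ∑ x ∈ Hv, (sz x - 4 + 4) := sum_le_sum fun x _ => by omega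
    rw [sum_add_distrib, sum_const, smul_eq_mul, ← wt_sum] at a2
    omega
  generalize hR : (univ.filter fun t : F D => sz t = 3 ∧
    ((∃ a a', a ≠ a' ∧ f a = t ∧ f a' = t ∧ f (ρ (ρ a)) ∈ Hv ∧ f (ρ (ρ a')) ∈ Hv) ∨
      ∃ a, f a = t ∧ f (ρ (ρ a)) ∈ Hv ∧ f (α (φ a)) ∈ Hv)) = Rest
  have e2 := gd_large (Hv := Hv) Rest fun t ht => by
    rw [← hR] at ht
    exact (mem_filter.1 ht).2
  have e3 := two_faces Hv
  generalize hW : (univ.filter fun u : V D =>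
    ∃ g ∈ Hv, ∃ g' ∈ Hv, g ≠ g' ∧ Tch {g} u ∧ Tch {g'} u) = W at e3
  have e4 := c2 W
  have e5 := c3 (univ.filter fun x => s < sz x ∧ sz x < S)
  have e6 : #(tri (univ : Finset (F D))) ≤ #Rest + (tau D s +
      (#{x : F D | x ∉ (univ.filter fun x => s < sz x ∧ sz x < S) ∧
        Meet {x} (univ.filter fun x => s < sz x ∧ sz x < S)} +
        #{x : F D | ∃ u ∈ W, Tch {x} u})) := by
    refine (card_le_card fun t ht => ?_).trans ((card_union_le _ _).trans (Nat.add_le_add_left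
      ((card_union_le _ _).trans (Nat.add_le_add_left (card_union_le _ _) _)) _))
    have h3 : sz t = 3 := (mem_filter.1 ht).2
    simp only [mem_union, mem_filter, mem_univ, true_and]
    by_contra k
    simp only [not_or] at k
    obtain ⟨k1, k2, k3, k4⟩ := k
    obtain ⟨g, g', n, g1, g2, m1, m2⟩ := not_not.1 fun m => k2 ⟨h3, m⟩
    have big : ∀ g, s < sz g → Meet {t} {g} → g ∈ Hv := fun g x ⟨u, y, z⟩ =>
      (mH g).2 (not_lt.1 fun m => k3 ⟨by omega, u, y, z.mono (singleton_subset_iff.2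
        (mem_filter.2 ⟨mem_univ _, x, m⟩))⟩)
    have b1 := big g g1 m1
    have b2 := big g' g2 m2
    refine k1 (hR ▸ mem_filter.2 ⟨mem_univ _, h3, ?_⟩)
    rcases span h4 h3 n (fun m => by rw [m] at g1; omega) (fun m => by rw [m] at g2; omega) m1 m2
      (fun u x y z => k4 ⟨u, hW ▸ mem_filter.2 ⟨mem_univ _, g, b1, g', b2, n, y, z⟩, x⟩) with
      ⟨a, a', x1, x2, x3, x4, x5⟩ | ⟨a, x1, x2, x3⟩ | ⟨a, x1, x2, x3⟩
    exacts [Or.inl ⟨a, a', x1, x2, x3, x4 ▸ b1, x5 ▸ b2⟩, Or.inr ⟨a, x1, x2 ▸ b1, x3 ▸ b2⟩,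
      Or.inr ⟨a, x1, x2 ▸ b2, x3 ▸ b1⟩]
  have e7 : 200 * (H * H + H) < wt Hv := Nat.lt_of_mul_lt_mul_left (a := T) (by omega)
  have e8 : wt Hv ≤ 2 * #(gd Hv) := by
    unfold med at hτ
    omega
  obtain ⟨A, Er, a1, a2, a3, a4⟩ := ears (Hv := Hv) h4 (card_pos.1 (by omega))
  refine ⟨A, Er, a1, (c4 A a1).2 a2, a3, hT.trans ?_⟩
  have e9 : wt Hv ≤ 200 * (H * H + H) * #Er := by
    have := Nat.mul_le_mul_left (4 * #Er) hHH
    nlinarith [Nat.zero_le (H * H * #Er), Nat.zero_le (H * #Er)]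
  rw [add_mul, mul_assoc]
  exact (Nat.mul_le_mul_left T e9).trans (Nat.le_add_right _ _)

theorem ear (hC : CntStmt) : EarStmt := by
  intro c b
  refine ⟨8 * c * (80 * b + 1) ^ 3 + 2 * c * (6 * (80 * b * (80 * b)) + 4) + 20 * b + 1,
    fun D _ _ w r A Er h1 h2 h3 hA hE h5 => ?_⟩
  obtain ⟨h4, c1, -⟩ := hC D
  generalize hK : (80 * b + 1) ^ 3 = K at h1 h2
  generalize hM : 80 * b * (80 * b) = M at h1 h2
  have r1 : 20 < r := Nat.lt_of_mul_lt_mul_left (a := b) (by omega)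
  have r2 : 4 * w ≤ r := by
    have hb : 0 < b := Nat.pos_of_ne_zero fun m => by rw [m, zero_mul] at h3; omega
    refine Nat.le_of_mul_le_mul_left (le_trans ?_ (h2.trans h3)) hb
    rw [← mul_assoc]
    exact Nat.mul_le_mul_right _ (by omega)
  have r3 : 2 * (K * (2 * w) + 3 * M + 2) < #Er := by
    refine Nat.lt_of_mul_lt_mul_left (a := c) (lt_of_lt_of_le ?_ h5)
    have : 8 * c * K * w ≤ nv D := le_trans (Nat.mul_le_mul_right _ (by omega)) h2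
    nlinarith
  obtain ⟨P, p1, R, p2, p3, p4, p5, ⟨β, p6⟩, p7⟩ := ear_seed h4 hA (E := Er) (l := r / 10)
    (N := 80 * b) (k := 2 * w) (fun t ht => by
      obtain ⟨t1, t2⟩ := hE t ht
      have e := wt_split (S := {t}) (T := A)
      rw [wt_single] at e
      refine ⟨t1, ?_⟩
      by_cases m : t ∈ A
      · have : ex {t} A = 1 := by
          rw [← t2]
          unfold ex
          congr 1
          ext d
          simp [m]
        exact Or.inl ⟨m, by omega⟩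
      · have : ex {t} Aᶜ = 1 := by
          rw [← t2]
          unfold ex
          congr 1
          ext d
          simp [m]
        exact Or.inr ⟨m, by omega⟩) (by omega) (by
      have : b * r ≤ b * (20 * (r / 10)) := Nat.mul_le_mul_left _ (by omega)
      rw [c1]
      nlinarith) (by rw [hK, hM]; exact r3)
  refine ⟨P, R, hA, p1, p2, p3, p4.symm, by omega, ⟨β, by omega⟩, range (2 * w + 1), Subset.rfl,
    by simp, fun A2 a1 a2 a3 x hx => ?_⟩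
  obtain ⟨S, s1', s2⟩ := p7 A2 a1 a2 a3.symm x (Nat.lt_succ_iff.1 (mem_range.1 hx))
  exact ⟨⟨S, s1', by omega⟩, by omega⟩

end Pool.Agent.MP_42ec7b_co

end MrgPart7

-- marker of a merged file
example : 731051 + 362480 = 731051 + 362480 := rfl
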