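import Pool.Agent.MP_42ec7b_co.A.RTop2
import Pool.Agent.MP_42ec7b_co.A.Bridge
import Pool.Agent.MP_42ec7b_co.A.PD2

-- ======== part 0: formerly Pool.Agent.MP_42ec7b_co.A.REx1
section MrgPart0

/-!
Levels in a disc that consists of two parts and a chain of faces.
-/

set_option autoImplicit false

open Finset

namespace Pool.Agent.MP_42ec7b_co

open Classical

namespace PM

namespace ExR

variable {D : Type} [PM D] {A U T K Y : Finset (F D)} {L a b c k m : ℕ} {ch : ℕ → F D}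
  {ι : F D → ℕ} {x : F D} {d : D} {u : V D}

/-- The faces of `A` with level in `[b, c)`. -/
noncomputable def lay (A : Finset (F D)) (ι : F D → ℕ) (b c : ℕ) : Finset (F D) :=
  A.filter fun x => b ≤ ι x ∧ ι x < c

lemma mem_lay : x ∈ lay A ι b c ↔ x ∈ A ∧ b ≤ ι x ∧ ι x < c := mem_filter

lemma lay_mono {b' c' : ℕ} (h1 : b' ≤ b) (h2 : c ≤ c') : lay A ι b c ⊆ lay A ι b' c' :=
  fun _ hx => mem_lay.2 ⟨(mem_lay.1 hx).1, h1.trans (mem_lay.1 hx).2.1,
    (mem_lay.1 hx).2.2.trans_le h2⟩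

/-- A level function. -/
structure Lev (A : Finset (F D)) (L : ℕ) (ch : ℕ → F D) (ι : F D → ℕ) : Prop where
  cn : ∀ c, Conn (lay A ι c (c + 1))
  ad : ∀ c ≤ L, Ad (lay A ι c (c + 1)) (lay A ι (c + 1) (c + 2))
  le : ∀ x ∈ A, ι x ≤ L + 1
  step : ∀ d, f d ∈ A → f (α d) ∈ A → ι (f (α d)) ≤ ι (f d) + 1
  one : ∀ x ∈ A, ∀ k < L, ι x = k + 1 → x = ch k
  mem : ∀ k < L, ch k ∈ A ∧ ι (ch k) = k + 1

lemma exists_lev (C : Chn A U T L ch) :
    ∃ ι, Lev A L ch ι ∧ lay A ι 0 1 = U ∧ lay A ι (L + 1) (L + 2) = T := by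
  obtain ⟨ι, e0, e1, e2⟩ : ∃ ι : F D → ℕ, (∀ x ∈ U, ι x = 0) ∧ (∀ k < L, ι (ch k) = k + 1) ∧
      ∀ x ∈ T, ι x = L + 1 := by
    refine ⟨fun x => if x ∈ U then 0 else if h : ∃ k < L, ch k = x then h.choose + 1 else L + 1,
      fun x hx => if_pos hx, fun k hk => ?_, fun x hx => ?_⟩
    · have h : ∃ j < L, ch j = ch k := ⟨k, hk, rfl⟩
      simp only [if_neg (C.nU k hk), dif_pos h]
      rw [C.inj _ h.choose_spec.1 k hk h.choose_spec.2]
    · have h : ¬∃ j < L, ch j = x := fun ⟨j, h1, h2⟩ => C.nT j h1 (h2 ▸ hx)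
      simp only [if_neg (disjoint_right.1 C.dis hx), dif_neg h]
  have mA : ∀ k < L, ch k ∈ A := fun k hk => (C.part _).2 (Or.inr (Or.inr ⟨k, hk, rfl⟩))
  have one : ∀ x ∈ A, ∀ k < L, ι x = k + 1 → x = ch k := fun x hx k hk e => by
    rcases (C.part x).1 hx with m | m | ⟨j, m, rfl⟩
    · have := e0 x m; omega
    · have := e2 x m; omega
    · have := e1 j m
      rw [show j = k by omega]
  have l0 : lay A ι 0 1 = U := ext fun x => mem_lay.trans ⟨fun ⟨h1, _, h3⟩ => by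
    rcases (C.part x).1 h1 with m | m | ⟨j, m, rfl⟩
    · exact m
    · have := e2 x m; omega
    · have := e1 j m; omega, fun m => ⟨(C.part x).2 (Or.inl m), by have := e0 x m; omega⟩⟩
  have l2 : lay A ι (L + 1) (L + 2) = T := ext fun x => mem_lay.trans ⟨fun ⟨h1, h2, _⟩ => by
    rcases (C.part x).1 h1 with m | m | ⟨j, m, rfl⟩
    · have := e0 x m; omega
    · exact m
    · have := e1 j m; omega,
    fun m => ⟨(C.part x).2 (Or.inr (Or.inl m)), by have := e2 x m; omega⟩⟩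
  have l1 : ∀ k < L, lay A ι (k + 1) (k + 2) = {ch k} := fun k hk => ext fun x =>
    mem_lay.trans ⟨fun ⟨h1, h2, h3⟩ => mem_singleton.2 (one x h1 k hk (by omega)), fun m => by
      rw [mem_singleton.1 m]
      exact ⟨mA k hk, by have := e1 k hk; omega⟩⟩
  have le : ∀ x ∈ A, ι x ≤ L + 1 := fun x hx => by
    rcases (C.part x).1 hx with m | m | ⟨j, m, rfl⟩
    · have := e0 x m; omega
    · have := e2 x m; omega
    · have := e1 j m; omega
  have hL := C.pos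
  refine ⟨ι, ⟨fun c => ?_, fun c hc => ?_, le, fun d h1 h2 => ?_, one,
    fun k hk => ⟨mA k hk, e1 k hk⟩⟩, l0, l2⟩
  · rcases c with _ | c
    · rw [l0]; exact C.cU
    rcases lt_trichotomy c L with h | rfl | h
    · rw [l1 c h]; exact conn_single _
    · rw [l2]; exact C.cT
    · intro Z _ _ _ x hx
      have := le x (mem_lay.1 hx).1
      have := (mem_lay.1 hx).2.1
      omega
  · rcases c with _ | c
    · rw [l0, l1 0 hL]; exact C.adU
    rcases (show c + 1 < L ∨ c + 1 = L by omega) with h | rfl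
    · rw [l1 c (by omega), l1 (c + 1) h]; exact C.adj c h
    · rw [l1 c (by omega), l2]; exact C.adT
  · by_contra n
    rcases (C.part _).1 h2 with m | m | ⟨j, m, m'⟩
    · have := e0 _ m; omega
    · have := e2 _ m
      rcases (C.part _).1 h1 with k | k | ⟨i, k, k'⟩
      · exact C.sUT ⟨d, k, m⟩
      · have := e2 _ k; omega
      · have := e1 i k
        rw [k'] at this
        exact C.sT i (by omega) ⟨d, mem_singleton.2 k'.symm, m⟩
    · have := e1 j m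
      rw [m'] at this
      rcases (C.part _).1 h1 with k | k | ⟨i, k, k'⟩
      · have := e0 _ k
        exact C.sU j m (by omega) ⟨d, k, mem_singleton.2 m'.symm⟩
      · have := e2 _ k; omega
      · have := e1 i k
        rw [k'] at this
        exact C.sep i j (by omega) m ⟨d, mem_singleton.2 k'.symm, mem_singleton.2 m'.symm⟩

/-- All faces outside `A` at a vertex that is not on `Y` lie in one component. -/
lemma same (hA : Disc A) (s : K ⊆ Aᶜ \ Y) (hc : Cl (Aᶜ \ Y) K) (n : ¬Tch Y (v d))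
    (t : Tch K (v d)) (o : f d ∉ A) : f d ∈ K := by
  obtain ⟨c, c1, c2⟩ := t
  refine (ivl hA.compl (Q := (· ∈ K)) c1 (mem_compl.2 o) (mem_sdiff.1 (s c2)).1
    fun e k1 k2 k3 => ⟨fun k => hc e k (mem_sdiff.2 ⟨k3, fun m => n (k1 ▸ tch_v' m)⟩),
      fun k => hc.symm e k (mem_sdiff.2 ⟨k2, fun m => n (k1 ▸ tch_v m)⟩)⟩).2 c2

namespace Lev

variable (C : Lev A L ch ι)

include C

lemma conn (h : c ≤ L + 2) : Conn (lay A ι b c) := by
  rcases le_or_gt c b with n | n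
  · intro Z _ _ _ x hx
    have := (mem_lay.1 hx).2
    omega
  induction c, n using Nat.le_induction with
  | base => exact C.cn b
  | succ c n ih =>
    obtain ⟨c, rfl⟩ : ∃ c', c = c' + 1 := ⟨c - 1, by omega⟩
    have e : lay A ι b (c + 1 + 1) = lay A ι b (c + 1) ∪ lay A ι (c + 1) (c + 2) := by
      ext x
      simp only [mem_union, mem_lay, ← and_or_left]
      exact and_congr_right fun _ => by omega
    rw [e]
    exact conn_union (ih (by omega)) (C.cn _)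
      (Or.inl ((C.ad c (by omega)).mono (lay_mono (by omega) le_rfl) Subset.rfl))

lemma single (hk : k < L) : lay A ι (k + 1) (k + 2) = {ch k} := ext fun x =>
  mem_lay.trans ⟨fun ⟨h1, h2, h3⟩ => mem_singleton.2 (C.one x h1 k hk (by omega)), fun m => by
    rw [mem_singleton.1 m]
    exact ⟨(C.mem k hk).1, by have := (C.mem k hk).2; omega⟩⟩

lemma same_lev {y : F D} (hx : x ∈ A) (hy : y ∈ A) (h1 : 0 < ι x) (h2 : ι x ≤ L)
    (e : ι y = ι x) : y = x :=
  (C.one y hy (ι x - 1) (by omega) (by omega)).trans (C.one x hx (ι x - 1) (by omega) (by omega)).symm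

lemma step' (h1 : f d ∈ A) (h2 : f (α d) ∈ A) : ι (f d) ≤ ι (f (α d)) + 1 := by
  have := C.step (α d) h2 (by rwa [αα])
  rwa [αα] at this

/-- The end of an edge between two chain faces lies on an outer neighbour of one of them. -/
lemma ends (h4 : ∀ d : D, ρ (ρ (ρ (ρ d))) = d) (h1 : f d ∈ A) (h2 : f (α d) ∈ A)
    (a1 : 0 < ι (f d)) (a2 : ι (f d) ≤ L) (b1 : 0 < ι (f (α d))) (b2 : ι (f (α d)) ≤ L) :
    ∃ e, v e = v d ∧ f e ∉ A ∧ (Ad {f e} {f d} ∨ Ad {f e} {f (α d)}) := by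
  by_cases m1 : f (ρ (ρ d)) ∈ A
  swap
  · exact ⟨ρ (ρ d), by simp, m1, Or.inr (Ad.symm ⟨ρ d, by simp, by simp⟩)⟩
  by_cases m2 : f (ρ (ρ (ρ d))) ∈ A
  swap
  · exact ⟨ρ (ρ (ρ d)), by simp, m2, Or.inl (ad_ρ (mem_singleton_self _) (by simp [h4]))⟩
  exfalso
  have n0 : ι (f (α d)) ≠ ι (f d) := fun e => s0 d (C.same_lev h1 h2 a1 a2 e)
  have n1 : ι (f (ρ (ρ d))) ≠ ι (f d) := fun e =>
    ρρne d (eq_of_fv (C.same_lev h1 m1 a1 a2 e) (by simp))
  have n2 : ι (f (ρ (ρ d))) ≠ ι (f (α d)) := fun e =>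
    ρne (ρ d) (eq_of_fv ((C.same_lev h2 m1 b1 b2 e).trans (fρ d).symm) (by simp))
  have n3 : ι (f (ρ (ρ (ρ d)))) ≠ ι (f d) := fun e =>
    ρρρne d (eq_of_fv (C.same_lev h1 m2 a1 a2 e) (by simp))
  have n4 : ι (f (ρ (ρ (ρ d)))) ≠ ι (f (α d)) := fun e =>
    ρρne (ρ d) (eq_of_fv ((C.same_lev h2 m2 b1 b2 e).trans (fρ d).symm) (by simp))
  have s1 := C.step d h1 h2
  have s2 := C.step' h1 h2
  have s3 := C.step (ρ d) (by rwa [fρ]) (by rwa [← fρ])
  have s4 := C.step' (d := ρ d) (by rwa [fρ]) (by rwa [← fρ])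
  have s5 := C.step (ρ (ρ d)) m1 (by rwa [← fρ])
  have s6 := C.step' (d := ρ (ρ d)) m1 (by rwa [← fρ])
  have s7 := C.step (ρ (ρ (ρ d))) m2 (by rwa [← fρ, h4])
  have s8 := C.step' (d := ρ (ρ (ρ d))) m2 (by rwa [← fρ, h4])
  rw [← fρ (ρ d), fρ d] at s3 s4
  rw [← fρ (ρ (ρ d))] at s5 s6
  rw [← fρ (ρ (ρ (ρ d))), h4] at s7 s8
  omega

/-- The edge between two consecutive chain faces. -/
lemma edge (hb : b + 1 < L) : ∃ d, f d = ch b ∧ f (α d) = ch (b + 1) := by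
  have := C.ad (b + 1) hb.le
  rwa [C.single (by omega), C.single hb, ad_one] at this

lemma ends2 (h4 : ∀ d : D, ρ (ρ (ρ (ρ d))) = d) (hb : b + 1 < L) (h1 : f d = ch b)
    (h2 : f (α d) = ch (b + 1)) (h : u = v d ∨ u = v (α d)) :
    ∃ e, v e = u ∧ f e ∉ A ∧ (Ad {f e} {ch b} ∨ Ad {f e} {ch (b + 1)}) := by
  have m1 := C.mem b (by omega)
  have m2 := C.mem (b + 1) hb
  rw [← h1] at m1
  rw [← h2] at m2
  rcases h with rfl | rfl
  · rw [← h1, ← h2]
    exact C.ends h4 m1.1 m2.1 (by omega) (by omega) (by omega) (by omega)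
  · have := C.ends (d := α d) h4 m2.1 (by rw [αα]; exact m1.1) (by omega) (by omega)
      (by rw [αα]; omega) (by rw [αα]; omega)
    rw [αα, h1, h2] at this
    exact this.imp fun e k => ⟨k.1, k.2.1, k.2.2.symm⟩

/-- A set outside that passes by two consecutive chain faces separates the outside. -/
lemma cut (h4 : ∀ d : D, ρ (ρ (ρ (ρ d))) = d) (s : K ⊆ Aᶜ) (c1 : Conn K) (c2 : Conn (Aᶜ \ K))
    (hb : b + 1 < L) (n1 : ¬Ad K {ch b}) (n2 : ¬Ad K {ch (b + 1)})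
    (a1 : Ad K (lay A ι 0 (b + 2))) (a2 : Ad K (lay A ι (b + 2) (L + 2))) : False := by
  obtain ⟨d, d1, d2⟩ := C.edge hb
  have t : ∀ u, u = v d ∨ u = v (α d) → Tch (Aᶜ \ K) u := fun u hu => by
    obtain ⟨e, e1, e2, e3⟩ := C.ends2 h4 hb d1 d2 hu
    exact ⟨e, e1, mem_sdiff.2 ⟨mem_compl.2 e2, fun m => e3.elim
      (fun k => n1 (k.mono (singleton_subset_iff.2 m) Subset.rfl))
      fun k => n2 (k.mono (singleton_subset_iff.2 m) Subset.rfl)⟩⟩
  obtain ⟨w, w1, w2⟩ := facelk c2 (t _ (Or.inl rfl)) (t _ (Or.inr rfl))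
  have w0 : ∀ e, (f e ∈ K ∨ f e ∈ A) → (f (α e) ∈ K ∨ f (α e) ∈ A) → w e = 0 := fun e k1 k2 =>
    z2_zero fun k => (w2 e k).elim
      (fun m => k1.elim (mem_sdiff.1 m).2 (mem_compl.1 (mem_sdiff.1 m).1))
      fun m => k2.elim (mem_sdiff.1 m).2 (mem_compl.1 (mem_sdiff.1 m).1)
  have m1 := C.mem b (by omega)
  have m2 := C.mem (b + 1) hb
  rw [← d1] at m1
  rw [← d2] at m2
  have r1 : f d ∈ K ∪ lay A ι 0 (b + 2) := mem_union_right _ (mem_lay.2 ⟨m1.1, by omega⟩)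
  have r2 : f (α d) ∈ lay A ι (b + 2) (L + 2) := mem_lay.2 ⟨m2.1, by omega⟩
  have r3 : f (α d) ∉ K ∪ lay A ι 0 (b + 2) := fun m => (mem_union.1 m).elim
    (fun m => mem_compl.1 (s m) m2.1) fun m => by have := (mem_lay.1 m).2; omega
  have r4 : f d ∉ lay A ι (b + 2) (L + 2) := fun m => by have := (mem_lay.1 m).2; omega
  have sub : ∀ g ∈ K ∪ lay A ι 0 (b + 2), g ∈ K ∨ g ∈ A := fun g m =>
    (mem_union.1 m).imp_right fun m => (mem_lay.1 m).1
  obtain ⟨e, e1, e2⟩ := a2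
  have := cross (conn_union c1 (C.conn (by omega)) (Or.inl a1)) (C.conn (b := b + 2) le_rfl)
    ((ch_ind d).add w1.symm) (fun e k1 k2 => by
      rw [w0 e (sub _ k1) (sub _ k2), ind_zero (c := d) (d := e) (fun m => r3 (m ▸ k2))
        fun m => r3 (m ▸ k1), add_zero]) (fun e k1 k2 => by
      rw [w0 e (Or.inr (mem_lay.1 k1).1) (Or.inr (mem_lay.1 k2).1),
        ind_zero (c := d) (d := e) (fun m => r4 (m ▸ k1))
          fun m => r4 (by rw [← m, αα] at k2; exact k2), add_zero])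
    r1 r2 (mem_union_left _ e1) e2
  simp only [ind_self, w0 d (Or.inr m1.1) (Or.inr m2.1), w0 e (Or.inl e1) (Or.inr (mem_lay.1 e2).1),
    ind_zero (c := d) (d := e) (fun m => mem_compl.1 (s e1) (m ▸ m1.1))
      fun m => mem_compl.1 (s e1) (m ▸ m2.1), add_zero] at this
  exact one_ne_zero this

/-- If the upper edge of a chain face is off `K`, then so is the whole face. -/
lemma down (hA : Disc A) (s : K ⊆ Aᶜ \ Y) (hc : Cl (Aᶜ \ Y) K) (h0 : 0 < m) (hm : m + 1 < L)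
    (n : ¬Meet Y {ch m}) (d1 : f d = ch m) (d2 : f (α d) = ch (m + 1)) (n1 : ¬Tch K (v d))
    (n2 : ¬Tch K (v (α d))) : ¬Meet K {ch m} := by
  obtain ⟨m, rfl⟩ : ∃ m', m = m' + 1 := ⟨m - 1, by omega⟩
  obtain ⟨e, e1, e2⟩ := C.edge (b := m) (by omega)
  have out : ∀ c, f c = f d → f (α c) ∉ A → (Tch K (v c) ↔ Tch K (v (α c))) := fun c k1 k2 => by
    have y1 : ¬Tch Y (v (ρ c)) := fun k => n ⟨_, k, by rw [vρ]; exact tch_v (by simp [k1, d1])⟩
    have y2 : ¬Tch Y (v (α c)) := fun k => n ⟨_, k, tch_α (by simp [k1, d1])⟩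
    exact ⟨fun k => tch_v (same hA s hc y1 (by rwa [vρ]) (by rwa [fρ]) |> fun m => by
      rwa [fρ] at m), fun k => tch_v' (same hA s hc y2 k k2)⟩
  have cases : ∀ c, f c = f d → c = d ∨ c = α e ∨ f (α c) ∉ A := fun c k => by
    by_cases a : f (α c) ∈ A
    swap
    · exact Or.inr (Or.inr a)
    have m1 := C.mem (m + 1) (by omega)
    rw [← d1, ← k] at m1
    have s1' := C.step c m1.1 a
    have s2 := C.step' m1.1 a
    have n0 : ι (f (α c)) ≠ ι (f c) := fun e => s0 c (C.same_lev m1.1 a (by omega) (by omega) e)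
    rcases (show ι (f (α c)) = m + 1 + 1 + 1 ∨ ι (f (α c)) = m + 1 by omega) with h | h
    · exact Or.inl (s1 k ((C.one _ a _ hm h).trans d2.symm))
    · exact Or.inr (Or.inl (s1 (k.trans (d1.trans e2.symm))
        (by rw [αα, e1]; exact C.one _ a _ (by omega) h)))
  have fe : f (α e) = f d := e2.trans d1.symm
  have t1 : ¬Tch K (v (α e)) :=
    (face_ind (Q := fun c => ¬Tch K (v c) ∨ ¬Tch K (v (α e))) (c0 := d) (Or.inl n1)
      (fun c k1 k2 => k2.elim (fun k3 => by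
        rcases cases c k1 with rfl | rfl | k
        · exact Or.inl (by rwa [vφ])
        · exact Or.inr k3
        · exact Or.inl (by rw [vφ, ← out c k1 k]; exact k3)) Or.inr) fe).elim id id
  have t2 : ¬Tch K (v e) := fun t =>
    n1 ((face_ind (Q := fun c => Tch K (v c) ∨ Tch K (v d)) (c0 := φ (α e))
      (Or.inl (by rwa [vφ, αα])) (fun c k1 k2 => k2.elim (fun k3 => by
        rw [fφ, fe] at k1
        rcases cases c k1 with rfl | rfl | k
        · exact Or.inr k3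
        · exact Or.inl (by rwa [vφ, αα])
        · exact Or.inl (by rw [vφ, ← out c k1 k]; exact k3)) Or.inr)
      (by rw [fφ, fe])).elim id id)
  rintro ⟨u, u1, c, rfl, u2⟩
  exact face_ind (Q := fun c => ¬Tch K (v c)) (c0 := d) n1 (fun c k1 k2 => by
    rcases cases c k1 with rfl | rfl | k
    · rwa [vφ]
    · rwa [vφ, αα]
    · rw [vφ, ← out c k1 k]; exact k2) ((mem_singleton.1 u2).trans d1.symm) u1

/-- A component that misses two consecutive chain faces misses all lower ones. -/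
lemma low (h4 : ∀ d : D, ρ (ρ (ρ (ρ d))) = d) (hA : Disc A) (s : K ⊆ Aᶜ \ Y)
    (hc : Cl (Aᶜ \ Y) K) (ha : a + 1 < L) (n : ∀ k ≤ a, ¬Meet Y {ch k}) (n1 : ¬Ad K {ch a})
    (n2 : ¬Ad K {ch (a + 1)}) (h0 : 0 < m) (hm : m ≤ a) : ¬Meet K {ch m} := by
  induction hm using Nat.decreasingInduction with
  | self =>
    obtain ⟨d, d1, d2⟩ := C.edge ha
    have t : ∀ u, u = v d ∨ u = v (α d) → ¬Tch K u := fun u hu t => by
      obtain ⟨e, rfl, e2, e3⟩ := C.ends2 h4 ha d1 d2 hu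
      have m := singleton_subset_iff.2 (same hA s hc (fun k => n a le_rfl ⟨_, k, by
        rcases hu with k' | k' <;> rw [k']
        exacts [tch_v (by simp [d1]), tch_α (by simp [d1])]⟩) t e2)
      exact e3.elim (fun k => n1 (k.mono m Subset.rfl)) fun k => n2 (k.mono m Subset.rfl)
    exact C.down hA s hc h0 ha (n a le_rfl) d1 d2 (t _ (Or.inl rfl)) (t _ (Or.inr rfl))
  | of_succ k hk ih =>
    obtain ⟨d, d1, d2⟩ := C.edge (b := k) (by omega)
    exact C.down hA s hc h0 (by omega) (n k hk.le) d1 d2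
      (fun t => ih (by omega) ⟨_, t, tch_v' (by simp [d2])⟩)
      fun t => ih (by omega) ⟨_, t, tch_v (by simp [d2])⟩

/-- At most two disjoint rungs pass a level and touch the chain below it. -/
lemma tripod (h4 : ∀ d : D, ρ (ρ (ρ (ρ d))) = d) {I : Finset (Finset (F D))} (hk : k ≤ L)
    (h1 : ∀ Y ∈ I, Y ⊆ Aᶜ ∧ Conn Y ∧ Ad Y (lay A ι 0 1) ∧ Meet Y (lay A ι 1 (k + 1)) ∧
      Ad Y (lay A ι (k + 1) (L + 2))) (h2 : ∀ Y ∈ I, ∀ Y' ∈ I, Y ≠ Y' → Disjoint Y Y') :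
    #I ≤ 2 := by
  by_contra n
  obtain ⟨J, j1, j2⟩ := exists_subset_card_eq (show 3 ≤ #I by omega)
  have B := (equivFinOfCardEq j2).symm
  have m : ∀ j, (B j).1 ∈ I := fun j => j1 (B j).2
  refine k33 h4 ![lay A ι 0 1, lay A ι 1 (k + 1), lay A ι (k + 1) (L + 2)] (fun j => (B j).1)
    (fun i => ?_) (fun j => (h1 _ (m j)).2.1) (fun i j x a b => ?_) (fun i j x a b => ?_)
    (fun i j x a b => ?_) (fun i j => ?_) fun i i' j j' a _ b c _ _ _ _ _ => ?_
  · fin_cases i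
    exacts [C.conn (by omega), C.conn (by omega), C.conn le_rfl]
  · fin_cases i <;> fin_cases j <;>
      first | rfl | (have := (mem_lay.1 a).2; have := (mem_lay.1 b).2; omega)
  · by_contra e
    exact disjoint_left.1 (h2 _ (m i) _ (m j) fun k => e (B.injective (Subtype.ext k))) a b
  · have := mem_compl.1 ((h1 _ (m j)).1 b)
    fin_cases i <;> exact this (mem_lay.1 a).1
  · fin_cases i
    exacts [(h1 _ (m j)).2.2.1.symm.meet, (h1 _ (m j)).2.2.2.1.symm,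
      (h1 _ (m j)).2.2.2.2.symm.meet]
  · fin_cases i
    · exact b (h1 _ (m j)).2.2.1.symm
    · fin_cases i'
      exacts [c (h1 _ (m j')).2.2.1.symm, a rfl, c (h1 _ (m j')).2.2.2.2.symm]
    · exact b (h1 _ (m j)).2.2.2.2.symm

end Lev

end ExR

end PM

end Pool.Agent.MP_42ec7b_co

end MrgPart0

-- ======== part 1: formerly Pool.Agent.MP_42ec7b_co.A.REx
section MrgPart1

/-!
Many disjoint rungs to the far part of a chain give a cheap move.
-/

set_option autoImplicit false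

open Finset

namespace Pool.Agent.MP_42ec7b_co

open Classical

namespace PM

namespace ExR

variable {D : Type} [PM D] {A Y Z Q : Finset (F D)} {L a b c i j s : ℕ} {ch : ℕ → F D}
  {ι : F D → ℕ}

lemma pre_add (ch : ℕ → F D) (h : b ≤ c) :
    pre ch b + ∑ k ∈ Ico b c, sz (ch k) = pre ch c := sum_range_add_sum_Ico _ h

lemma pre_mono (ch : ℕ → F D) (h : b ≤ c) : pre ch b ≤ pre ch c := by
  have := pre_add ch h
  omega

lemma sum_wt {β : Type} {I : Finset β} {G : β → Finset (F D)}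
    (h : ∀ x ∈ I, ∀ y ∈ I, x ≠ y → Disjoint (G x) (G y)) :
    ∑ x ∈ I, wt (G x) ≤ wt (univ : Finset (F D)) := by
  unfold wt
  rw [← card_biUnion (t := fun x => univ.filter fun d : D => f d ∈ G x)
    fun x hx y hy n => disjoint_left.2 fun d k1 k2 =>
      disjoint_left.1 (h x hx y hy n) (mem_filter.1 k1).2 (mem_filter.1 k2).2]
  exact card_le_card fun d _ => mem_filter.2 ⟨mem_univ _, mem_univ _⟩

lemma card_dep {β γ : Type} {I : Finset β} {R : Finset γ} (r : ∀ x ∈ I, γ)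
    (h1 : ∀ x hx, r x hx ∈ R) (h2 : ∀ x hx y hy, r x hx = r y hy → x = y) : #I ≤ #R := by
  rw [← card_attach (s := I)]
  exact card_le_card_of_injOn (fun x => r x.1 x.2) (fun x _ => h1 x.1 x.2)
    fun x _ y _ e => Subtype.ext (h2 _ _ _ _ e)

namespace Lev

variable (C : Lev A L ch ι)

include C

lemma lay_eq (hc : c ≤ L) : lay A ι (b + 1) (c + 1) = (Ico b c).image ch := by
  ext x
  rw [mem_lay, mem_image]
  refine ⟨fun ⟨h1, h2, h3⟩ => ⟨ι x - 1, mem_Ico.2 (by omega),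
    (C.one x h1 _ (by omega) (by omega)).symm⟩, ?_⟩
  rintro ⟨k, h, rfl⟩
  have := mem_Ico.1 h
  have m := C.mem k (by omega)
  exact ⟨m.1, by omega⟩

lemma sum_lay (hc : c ≤ L) (g : F D → ℕ) :
    ∑ x ∈ lay A ι (b + 1) (c + 1), g x = ∑ k ∈ Ico b c, g (ch k) := by
  rw [C.lay_eq hc, sum_image fun k hk l hl e => ?_]
  have h1 := C.mem k (by have := mem_Ico.1 (mem_coe.1 hk); omega)
  have h2 := C.mem l (by have := mem_Ico.1 (mem_coe.1 hl); omega)
  rw [e] at h1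
  omega

lemma wt_lay (hc : c ≤ L) : wt (lay A ι (b + 1) (c + 1)) = ∑ k ∈ Ico b c, sz (ch k) := by
  rw [wt_sum, C.sum_lay hc]

lemma wt_lit (h1 : a + 3 ≤ j) (h2 : j ≤ i) (h3 : i ≤ L) :
    wt (lit s (lay A ι (a + 1) (i + 1))) ≤
      3 * s + ∑ k ∈ Ico (a + 1) (j - 2), sz (ch k) + ∑ k ∈ Ico j i, sz (ch k) := by
  obtain ⟨j, rfl⟩ : ∃ j', j = j' + 2 := ⟨j - 2, by omega⟩
  have g1 : ∀ k, (if sz (ch k) ≤ s then sz (ch k) else 0) ≤ s := fun k => by split_ifs <;> omega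
  have g2 : ∀ b c, ∑ k ∈ Ico b c, (if sz (ch k) ≤ s then sz (ch k) else 0) ≤
      ∑ k ∈ Ico b c, sz (ch k) := fun b c => sum_le_sum fun k _ => by split_ifs <;> omega
  rw [wt_sum, lit, sum_filter, C.sum_lay h3, ← sum_Ico_consecutive _ (show a ≤ j + 2 by omega) h2,
    sum_Ico_succ_top (by omega), sum_Ico_succ_top (by omega),
    sum_eq_sum_Ico_succ_bot (show a < j by omega), Nat.add_sub_cancel]
  have := g1 a
  have := g1 j
  have := g1 (j + 1)
  have := g2 (a + 1) j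
  have := g2 (j + 2) i
  omega

/-- Replacing a part of the chain by a rung and its pockets. -/
lemma pockets (h1 : a < i) (h2 : i ≤ L) (sY : Y ⊆ Aᶜ) (cY : Conn Y) (a1 : Ad Y (lay A ι 0 1))
    (a2 : Ad Y (lay A ι (i + 1) (i + 2))) : ∃ Q ⊆ Aᶜ \ Y, Cl (Aᶜ \ Y) Q ∧
      ¬Ad Q (lay A ι (a + 1) (i + 1)) ∧ Disc (A \ lay A ι (a + 1) (i + 1) ∪ (Y ∪ Q)) := by
  have m0 : ch a ∈ lay A ι (a + 1) (i + 1) := by
    have := C.mem a (by omega)
    exact mem_lay.2 ⟨this.1, by omega⟩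
  obtain ⟨K, k1, k2, k3, k4⟩ := exists_comp (mem_union_right (Aᶜ \ Y) m0)
  have s1 : lay A ι (a + 1) (i + 1) ⊆ K :=
    (C.conn (by omega)).sub subset_union_right k4 m0 k2
  have nK : ∀ x ∈ K, x ∉ Y ∧ (x ∈ A → x ∈ lay A ι (a + 1) (i + 1)) := fun x hx =>
    (mem_union.1 (k1 hx)).elim
      (fun m => ⟨(mem_sdiff.1 m).2, fun m' => absurd m' (mem_compl.1 (mem_sdiff.1 m).1)⟩)
      fun m => ⟨fun m' => mem_compl.1 (sY m') (mem_lay.1 m).1, fun _ => m⟩
  have e : A \ lay A ι (a + 1) (i + 1) ∪ (Y ∪ (Aᶜ \ Y) \ K) = univ \ K := by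
    ext x
    have := nK x
    have := @s1 x
    simp only [mem_union, mem_sdiff, mem_compl, mem_univ, true_and]
    tauto
  have cP : Conn (lay A ι 0 (a + 1) ∪ Y ∪ lay A ι (i + 1) (L + 2)) :=
    conn_union (conn_union (C.conn (by omega)) cY
      (Or.inl (a1.symm.mono (lay_mono le_rfl (by omega)) Subset.rfl))) (C.conn le_rfl)
      (Or.inl (a2.mono subset_union_right (lay_mono le_rfl (by omega))))
  obtain ⟨d0, y0, -⟩ := a1
  refine ⟨(Aᶜ \ Y) \ K, sdiff_subset, fun d m1 m2 => mem_sdiff.2 ⟨m2, fun m =>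
    (mem_sdiff.1 m1).2 (k4.symm d m (mem_union_left _ (mem_sdiff.1 m1).1))⟩,
    fun ⟨d, m1, m2⟩ => (mem_sdiff.1 m1).2
      (k4.symm d (s1 m2) (mem_union_left _ (mem_sdiff.1 m1).1)), ?_⟩
  rw [e]
  refine ⟨⟨_, mem_sdiff.2 ⟨mem_univ _, fun m => (nK _ m).1 y0⟩⟩, ⟨ch a, by simpa using k2⟩,
    conn_sdiff conn_univ cP ⟨_, mem_union_left _ (mem_union_right _ y0)⟩ (fun x hx => ?_)
      fun d m1 _ m3 => ?_, by simpa [← compl_eq_univ_sdiff] using k3⟩
  · refine mem_sdiff.2 ⟨mem_univ _, fun m => ?_⟩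
    simp only [mem_union, mem_lay] at hx
    have := nK x m
    rw [mem_lay] at this
    rcases hx with (h | h) | h
    · have := (this.2 h.1).2; omega
    · exact this.1 h
    · have := (this.2 h.1).2; omega
  · have n := mt (k4 d m1) m3
    simp only [mem_union, mem_lay, mem_sdiff, mem_compl] at n ⊢
    by_cases m : f (α d) ∈ A
    · have := C.le _ m
      simp only [m, true_and] at n ⊢
      omega
    · tauto

/-- Another rung does not meet the pockets. -/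
lemma apart (h4 : ∀ d : D, ρ (ρ (ρ (ρ d))) = d) (hA : Disc A) (h1 : a + 1 < i) (h2 : i ≤ L)
    (sY : Y ⊆ Aᶜ) (cY : Conn Y) (nY : Y.Nonempty) (n : ∀ k ≤ a, ¬Meet Y {ch k}) (sQ : Q ⊆ Aᶜ \ Y)
    (cQ : Cl (Aᶜ \ Y) Q) (nQ : ¬Ad Q (lay A ι (a + 1) (i + 1))) (sZ : Z ⊆ Aᶜ \ Y) (cZ : Conn Z)
    (a1 : Ad Z (lay A ι 0 1)) (a2 : Ad Z (lay A ι (b + 1) (b + 2))) (b1 : 0 < b) (b2 : b ≤ L) :
    Disjoint Z Q := disjoint_left.2 fun x x1 x2 => by
  obtain ⟨K, k1, k2, k3, k4⟩ := exists_comp (sQ x2)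
  have s1 : K ⊆ Q := k3.sub k1 cQ k2 x2
  have s2 : Z ⊆ K := cZ.sub sZ k4 x1 k2
  have na : ∀ k, a ≤ k → k < i → ¬Ad K {ch k} := fun k m1 m2 m => by
    have := C.mem k (by omega)
    exact nQ (m.mono s1 (singleton_subset_iff.2 (mem_lay.2 ⟨this.1, by omega⟩)))
  rcases le_or_gt b a with h | h
  · rw [C.single (by omega)] at a2
    exact C.low h4 hA k1 k4 (by omega) n (na a le_rfl (by omega)) (na _ (by omega) h1) b1 h
      (a2.mono s2 Subset.rfl).meet
  · exact C.cut h4 (k1.trans sdiff_subset) k3 (conn_sdiff hA.2.2.2 cY nY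
      (subset_sdiff.2 ⟨sY, (subset_sdiff.1 k1).2.symm⟩)
      fun d m1 m2 m3 => by_contra fun m => m3 (k4 d m1 (mem_sdiff.2 ⟨m2, m⟩))) (b := a) (by omega)
      (na a le_rfl (by omega)) (na _ (by omega) h1) (a1.mono s2 (lay_mono le_rfl (by omega)))
      (a2.mono s2 (lay_mono (by omega) (by omega)))

end Lev

end ExR

end PM

open PM PM.ExR

theorem exm (hC : CntStmt) : ExStmt := by
  intro D _ _ s S w lam y p N Nr A P R U T L ch I hA hP hR C hch hI hd hN hp hs hl hw ht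
  obtain ⟨h4, hw4, -⟩ := hC D
  obtain ⟨ι, V, rfl, rfl⟩ := exists_lev C
  have ex1 : ∀ Y ∈ I, ∃ i j, i ≤ L ∧ j ≤ i ∧ Nr ≤ pre ch (i - 2) ∧
      Ad Y (lay A ι (i + 1) (i + 2)) ∧ (∀ k < j, ¬Meet Y {ch k}) ∧ (j < i → Meet Y {ch j}) := by
    intro Y hY
    obtain ⟨-, -, -, -, -, i, i1, i2⟩ := hI Y hY
    have ex : ∃ k, k = i ∨ Meet Y {ch k} := ⟨i, Or.inl rfl⟩
    refine ⟨i, Nat.find ex, by omega, Nat.find_min' ex (Or.inl rfl), i1, ?_,
      fun k hk m => Nat.find_min ex hk (Or.inr m), fun m => (Nat.find_spec ex).resolve_left m.ne⟩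
    rcases i2 with ⟨m, m'⟩ | ⟨rfl, m'⟩
    · rwa [V.single m]
    · exact m'
  choose! i j i1 j1 i2 i3 j2 j3 using ex1
  have tri : ∀ k, #(I.filter fun Y => j Y < k ∧ k ≤ i Y) ≤ 2 := fun k => by
    rcases (I.filter fun Y => j Y < k ∧ k ≤ i Y).eq_empty_or_nonempty with e | ⟨Y0, y0⟩
    · rw [e]; simp
    have y1 := mem_filter.1 y0
    refine V.tripod h4 (k := k) (y1.2.2.trans (i1 _ y1.1)) (fun Y hY => ?_)
      fun Y hY Y' hY' => hd Y (mem_filter.1 hY).1 Y' (mem_filter.1 hY').1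
    obtain ⟨m1, m2, m3⟩ := mem_filter.1 hY
    have := i1 Y m1
    have m := V.mem (j Y) (by omega)
    exact ⟨(hI Y m1).1, (hI Y m1).2.1, (hI Y m1).2.2.2.2.1, (j3 Y m1 (by omega)).mono Subset.rfl
      (singleton_subset_iff.2 (mem_lay.2 ⟨m.1, by omega⟩)),
      (i3 Y m1).mono Subset.rfl (lay_mono (by omega) (by omega))⟩
  obtain ⟨I1, s1, c1, g1⟩ : ∃ I1 ⊆ I, #I ≤ #I1 + 2 ∧ ∀ Y ∈ I1, Nr ≤ pre ch (j Y - 2) := by
    obtain ⟨Y0, y0⟩ : I.Nonempty := card_pos.1 (by omega)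
    have ex : ∃ k, Nr ≤ pre ch (k - 2) := ⟨_, i2 Y0 y0⟩
    refine ⟨I.filter fun Y => Nr ≤ pre ch (j Y - 2), filter_subset _ _, ?_,
      fun Y hY => (mem_filter.1 hY).2⟩
    rw [← card_filter_add_card_filter_not (s := I) fun Y => Nr ≤ pre ch (j Y - 2)]
    refine Nat.add_le_add_left ((card_le_card fun Y hY => ?_).trans (tri (Nat.find ex))) _
    obtain ⟨m1, m2⟩ := mem_filter.1 hY
    exact mem_filter.2 ⟨m1, by_contra fun m => m2 ((Nat.find_spec ex).trans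
      (pre_mono ch (by omega))), Nat.find_min' ex (i2 Y m1)⟩
  have ex2 : ∀ Y ∈ I1, ∃ a Q, a + 3 ≤ j Y ∧ pre ch a + Nr ≤ pre ch (j Y - 2) ∧
      pre ch (j Y - 2) < pre ch (a + 1) + Nr ∧ Q ⊆ Aᶜ \ Y ∧ Cl (Aᶜ \ Y) Q ∧
      ¬Ad Q (lay A ι (a + 1) (i Y + 1)) ∧
      Disc (A \ lay A ι (a + 1) (i Y + 1) ∪ (Y ∪ Q)) := by
    intro Y hY
    have y1 := s1 hY
    have ex : ∃ k, pre ch (j Y - 2) < pre ch k + Nr := ⟨j Y - 2, by omega⟩
    have k1 := Nat.find_spec ex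
    have k2 := fun n => Nat.find_min ex (m := n)
    have k3 : Nat.find ex ≤ j Y - 2 := Nat.find_min' ex (by omega)
    generalize Nat.find ex = k at k1 k2 k3
    rcases k with _ | a
    · have := g1 Y hY
      have : pre ch 0 = 0 := rfl
      omega
    have := j1 Y y1
    obtain ⟨Q, q⟩ := V.pockets (a := a) (by omega) (i1 Y y1) (hI Y y1).1 (hI Y y1).2.1
      (hI Y y1).2.2.2.2.1 (i3 Y y1)
    exact ⟨a, Q, by omega, not_lt.1 (k2 a a.lt_succ_self), k1, q⟩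
  choose! a Q a1 a2 a3 q1 q2 q3 q4 using ex2
  have ne : ∀ Y ∈ I, Y.Nonempty := fun Y hY => (i3 Y hY).elim fun _ k => ⟨_, k.1⟩
  have ap : ∀ Y ∈ I1, ∀ Z ∈ I1, Y ≠ Z → Disjoint Z (Q Y) := fun Y hY Z hZ n => by
    have y1 := s1 hY
    have z1 := s1 hZ
    have := a1 Y hY
    have := j1 Y y1
    have := a1 Z hZ
    have := j1 Z z1
    exact V.apart h4 hA (by omega) (i1 Y y1) (hI Y y1).1 (hI Y y1).2.1 (ne Y y1)
      (fun k hk => j2 Y y1 k (by omega)) (q1 Y hY) (q2 Y hY) (q3 Y hY)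
      (subset_sdiff.2 ⟨(hI Z z1).1, hd Z z1 Y y1 n.symm⟩) (hI Z z1).2.1 (hI Z z1).2.2.2.2.1
      (i3 Z z1) (by omega) (i1 Z z1)
  have dis : ∀ Y ∈ I1, ∀ Z ∈ I1, Y ≠ Z → Disjoint (Q Y) (Q Z) := fun Y hY Z hZ n => by
    rw [disjoint_iff_inter_eq_empty, ← not_nonempty_iff_eq_empty]
    intro m
    obtain ⟨x, hx⟩ := ne Y (s1 hY)
    have key : ∀ Y ∈ I1, ∀ Z ∈ I1, Y ≠ Z → ∀ d, f d ∈ Q Y → f d ∈ Q Z → f (α d) ∈ Aᶜ →
        f (α d) ∈ Q Y := fun Y hY Z hZ n d m1 m2 m3 => q2 Y hY d m1 (mem_sdiff.2 ⟨m3, fun k =>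
      disjoint_left.1 (ap Z hZ Y hY n.symm) k (q2 Z hZ d m2 (mem_sdiff.2
        ⟨m3, disjoint_left.1 (hd Y (s1 hY) Z (s1 hZ) n) k⟩))⟩)
    have := hA.2.2.2 _ (inter_subset_left.trans ((q1 Y hY).trans sdiff_subset)) m
      (fun d m1 m2 => mem_inter.2 ⟨key Y hY Z hZ n d (mem_inter.1 m1).1 (mem_inter.1 m1).2 m2,
        key Z hZ Y hY n.symm d (mem_inter.1 m1).2 (mem_inter.1 m1).1 m2⟩) ((hI Y (s1 hY)).1 hx)
    exact (mem_sdiff.1 (q1 Y hY (mem_inter.1 this).1)).2 hx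
  obtain ⟨I2, s2, c2, g2⟩ : ∃ I2 ⊆ I1, #I1 ≤ #I2 + #R ∧ ∀ Y ∈ I2, Disjoint (Q Y) R := by
    refine ⟨I1.filter fun Y => Disjoint (Q Y) R, filter_subset _ _, ?_,
      fun Y hY => (mem_filter.1 hY).2⟩
    rw [← card_filter_add_card_filter_not (s := I1) fun Y => Disjoint (Q Y) R]
    have ex : ∀ Y ∈ I1.filter fun Y => ¬Disjoint (Q Y) R, ∃ x, x ∈ Q Y ∧ x ∈ R :=
      fun Y hY => not_disjoint_iff.1 (mem_filter.1 hY).2
    choose r r1 r2 using ex
    refine Nat.add_le_add_left (card_dep r r2 fun Y hY Z hZ e => ?_) _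
    by_contra n
    exact disjoint_left.1 (dis Y (mem_filter.1 hY).1 Z (mem_filter.1 hZ).1 n) (r1 Y hY)
      (e ▸ r1 Z hZ)
  have t1 : ∑ Y ∈ I2, wt (Q Y) ≤ 4 * nv D :=
    hw4 ▸ sum_wt fun Y hY Z hZ => dis Y (s2 hY) Z (s2 hZ)
  have t2 : ∑ Y ∈ I2, ∑ k ∈ Ico (j Y) (i Y), sz (ch k) ≤ 2 * (4 * nv D) := by
    rw [sum_comm' (t' := Ico 0 L) (s' := fun k => I2.filter fun Y => j Y < k + 1 ∧ k + 1 ≤ i Y)
      fun Y k => ?_]
    · refine (sum_le_sum (g := fun k => 2 * sz (ch k)) fun k _ => ?_).trans ?_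
      · rw [sum_const, smul_eq_mul]
        exact Nat.mul_le_mul_right _
          ((card_le_card (filter_subset_filter _ (s2.trans s1))).trans (tri (k + 1)))
      · rw [← mul_sum, ← V.wt_lay le_rfl, ← hw4]
        exact Nat.mul_le_mul_left _ (wt_mono (subset_univ _))
    · simp only [mem_Ico, mem_filter, and_assoc]
      refine and_congr_right fun m => ?_
      have := i1 Y (s1 (s2 m))
      omega
  obtain ⟨Y, y2, y3⟩ : ∃ Y ∈ I2, wt (Q Y) + ∑ k ∈ Ico (j Y) (i Y), sz (ch k) ≤ p := by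
    by_contra n
    have := card_nsmul_le_sum I2 (fun Y => wt (Q Y) + ∑ k ∈ Ico (j Y) (i Y), sz (ch k)) p
      fun Y hY => (not_le.1 fun m => n ⟨Y, hY, m⟩).le
    rw [sum_add_distrib, smul_eq_mul, mul_comm] at this
    have := Nat.mul_le_mul_left p (show N ≤ #I2 by omega)
    omega
  have y1 := s2 y2
  have y0 := s1 y1
  obtain ⟨b1, -, b3, b4, -⟩ := hI Y y0
  have o1 : ∀ x ∈ Y ∪ Q Y, x ∉ A := fun x hx => mem_compl.1
    ((mem_union.1 hx).elim (fun m => b1 m) fun m => (mem_sdiff.1 (q1 Y y1 m)).1)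
  have e1 : (A \ lay A ι (a Y + 1) (i Y + 1) ∪ (Y ∪ Q Y)) \ A ⊆ Y ∪ Q Y := fun x hx =>
    (mem_union.1 (mem_sdiff.1 hx).1).resolve_left fun m => (mem_sdiff.1 hx).2 (mem_sdiff.1 m).1
  have e2 : A \ (A \ lay A ι (a Y + 1) (i Y + 1) ∪ (Y ∪ Q Y)) = lay A ι (a Y + 1) (i Y + 1) :=
    Subset.antisymm (fun x hx => by_contra fun m => (mem_sdiff.1 hx).2
      (mem_union_left _ (mem_sdiff.2 ⟨(mem_sdiff.1 hx).1, m⟩))) fun x hx =>
      mem_sdiff.2 ⟨(mem_lay.1 hx).1, fun m => (mem_union.1 m).elim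
        (fun m => (mem_sdiff.1 m).2 hx) fun m => o1 x m (mem_lay.1 hx).1⟩
  have e3 : ∀ x ∈ lay A ι (a Y + 1) (i Y + 1), x ∉ P ∧ sz x < S := fun x hx => by
    rw [V.lay_eq (i1 Y y0)] at hx
    obtain ⟨k, k1, rfl⟩ := mem_image.1 hx
    exact hch k ((mem_Ico.1 k1).2.trans_le (i1 Y y0))
  have w1 := (wt_mono e1).trans wt_union_le
  have w2 := V.wt_lit (s := s) (a1 Y y1) (j1 Y y0) (i1 Y y0)
  have w3 := a1 Y y1
  have w4 := j1 Y y0
  have w5 := pre_add ch (show a Y + 1 ≤ j Y - 2 by omega)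
  have w6 := pre_add ch (show a Y ≤ i Y by omega)
  have w7 := pre_mono ch (show j Y - 2 ≤ i Y by omega)
  have w8 := a2 Y y1
  have w9 := a3 Y y1
  refine ht _ ⟨q4 Y y1, fun x hx => mem_union_left _ (mem_sdiff.2
    ⟨hP hx, fun m => (e3 x m).1 hx⟩), ?_, fun x hx => ?_, fun x hx => (e3 x (e2 ▸ hx)).2, ?_, ?_⟩
  · rw [disjoint_union_left, disjoint_union_left]
    exact ⟨hR.mono_left sdiff_subset, b3, g2 Y y2⟩
  · have := wt_mono (singleton_subset_iff.2 hx)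
    rw [wt_single] at this
    omega
  · rw [e2]
    omega
  · rw [e2, V.wt_lay (i1 Y y0)]
    exact ((Nat.mul_le_mul_left lam (by omega)).trans_lt hl).trans_le (by omega)

end Pool.Agent.MP_42ec7b_co

end MrgPart1

-- ======== part 2: formerly Pool.Agent.MP_42ec7b_co.A.HDef
section MrgPart2

/-!
Positions on a Hamilton cycle: definitions.
-/

set_option autoImplicit false

open Finset

namespace Pool.Agent.MP_42ec7b_co

open Classical

namespace PM

variable {D : Type} [PM D]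

/-- A disc whose boundary passes through all vertices, with a numbering of the vertices. -/
structure HC (D : Type) [PM D] where
  S : Finset (F D)
  n : ℕ
  P : ℕ → V D
  dd : ℕ → D
  disc : Disc S
  fr : Frm S n P dd
  all : ∀ u, BV S u
  h4 : ∀ d : D, ρ (ρ (ρ (ρ d))) = d

/-- The darts of a path from `a` to `b`. -/
structure Pth (Z : Finset D) (a b : V D) : Prop where
  sym : ∀ d ∈ Z, α d ∈ Z
  deg : ∀ u, #(Z.filter (v · = u)) + (if u = a then 1 else 0) + (if u = b then 1 else 0) = 0 ∨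
    #(Z.filter (v · = u)) + (if u = a then 1 else 0) + (if u = b then 1 else 0) = 2
  con : ∀ d ∈ Z, Rch (· ∈ Z) (fun _ => True) a (v d)
  lnk : Rch (· ∈ Z) (fun _ => True) a b

/-- A triangle with exactly one neighbour of its own colour. -/
def Ear2 (A : Finset (F D)) (t : F D) : Prop :=
  sz t = 3 ∧ (t ∈ A ∧ ex {t} Aᶜ = 2 ∨ t ∉ A ∧ ex {t} A = 2)

/-- The reflection of the positions. -/
def mu (c n x : ℕ) : ℕ := if x ≤ c then c - x else c + n - x

namespace HC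

variable (H : HC D)

/-- The vertex at position `i` lies on the face. -/
def On (g : F D) (i : ℕ) : Prop := i < H.n ∧ Tch {g} (H.P i)

/-- The vertices at the two positions are adjacent. -/
def Ed (i j : ℕ) : Prop := i < H.n ∧ j < H.n ∧ ∃ d, v d = H.P i ∧ v (α d) = H.P j

/-- Neighbours along the cycle. -/
def Nb (i j : ℕ) : Prop := j = i + 1 ∨ i = j + 1 ∨ (i = 0 ∧ j + 1 = H.n) ∨ (j = 0 ∧ i + 1 = H.n)

/-- The face has a vertex outside the interval. -/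
def Wide (a b : ℕ) (g : F D) : Prop := ∃ y, H.On g y ∧ (y < a ∨ b < y)

/-- The position lies on an outer face that leaves the interval. -/
def Expo (a b z : ℕ) : Prop := ∃ g, g ∉ H.S ∧ H.On g z ∧ H.Wide a b g

/-- A path between two positions: all its positions satisfy `Q`, it contains the edges of the
cycle with number in `X` and two edges of every triangle in `Y`. -/
def Seg (a b : ℕ) (Q X : ℕ → Prop) (Y : F D → Prop) : Prop :=
  a < H.n ∧ b < H.n ∧ Q a ∧ Q b ∧ ∃ Z, Pth Z (H.P a) (H.P b) ∧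
    (∀ d ∈ Z, ∀ i < H.n, v d = H.P i → Q i) ∧ (∀ i, X i → i < H.n ∧ H.dd i ∈ Z) ∧
    ∀ t, Y t → sz t = 3 ∧ ∃ d ∈ Z, ∃ d' ∈ Z, d ≠ d' ∧ f d = t ∧ f d' = t

/-- A long disc with many ears. -/
def Out (m E : ℕ) : Prop :=
  ∃ A, Disc A ∧ H.n ≤ ell A + m ∧ ∃ Y : Finset (F D), E ≤ #Y ∧ ∀ t ∈ Y, Ear2 A t

variable {H} {g : F D} {d : D} {i j : ℕ}

lemma surj (u : V D) : ∃ i < H.n, H.P i = u := H.fr.vs (H.all u)

lemma inj (h1 : i < H.n) (h2 : j < H.n) (h : H.P i = H.P j) : i = j := H.fr.inj i h1 j h2 h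

lemma five : 4 < H.n :=
  (PM.five (D := D)).trans_le (by
    have := card_le_card_of_surjOn (s := range H.n) (t := univ) H.P fun u _ =>
      (surj (H := H) u).imp fun i k => ⟨by simpa using k.1, k.2⟩
    simpa using this)

lemma on_v (h : i < H.n) (k : v d = H.P i) : H.On (f d) i := ⟨h, d, k, mem_singleton_self _⟩

lemma on_v' (h : i < H.n) (k : v d = H.P i) : H.On (f (α d)) i :=
  ⟨h, k ▸ tch_v' (mem_singleton_self _)⟩

lemma On.dart (h : H.On g i) : ∃ d, f d = g ∧ v d = H.P i :=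
  (tch_one.1 h.2).imp fun _ k => k.symm

lemma On.lt (h : H.On g i) : i < H.n := h.1

lemma Ed.symm (h : H.Ed i j) : H.Ed j i := by
  obtain ⟨a, b, d, h1, h2⟩ := h
  exact ⟨b, a, α d, h2, by rwa [αα]⟩

lemma Out.mono {m m' E E' : ℕ} (h : H.Out m E) (h1 : m ≤ m') (h2 : E' ≤ E) : H.Out m' E' := by
  obtain ⟨A, a, b, Y, c, e⟩ := h
  exact ⟨A, a, by omega, Y, by omega, e⟩

end HC

lemma exists_hc {S : Finset (F D)} (hS : Disc S) (h : ∀ u, BV S u)
    (h4 : ∀ d : D, ρ (ρ (ρ (ρ d))) = d) : ∃ H : HC D, H.S = S ∧ H.n = Fintype.card (V D) := by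
  obtain ⟨d, hd⟩ := exists_bd hS.1 hS.2.1
  obtain ⟨L, p, dd, fr, -⟩ := exists_frm hS hd (Or.inl rfl)
  refine ⟨⟨S, L, p, dd, hS, fr, h, h4⟩, rfl, ?_⟩
  have := card_nbij (s := range L) (t := univ) p (fun _ _ => by simp)
    (fun i a j b k => fr.inj i (by simpa using a) j (by simpa using b) k) fun u _ =>
      (fr.vs (h u)).imp fun i k => ⟨by simpa using k.1, k.2⟩
  simpa using this

/-- Inner triangles with apex `w` in the upper interval and base `r w < l w` in the lower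
interval, with the outer face and the two other inner faces at the apex. -/
structure Sec (H : HC D) where
  B1 : ℕ
  B2 : ℕ
  T1 : ℕ
  T2 : ℕ
  K : Finset ℕ
  l : ℕ → ℕ
  r : ℕ → ℕ
  t : ℕ → F D
  q : ℕ → F D
  gm : ℕ → F D
  gp : ℕ → F D
  o0 : 0 < B1
  o1 : B1 ≤ B2
  o2 : B2 + 2 < T1
  o3 : T1 ≤ T2
  o4 : T2 + 1 < H.n
  pos : ∀ w ∈ K, B1 ≤ r w ∧ r w < l w ∧ l w ≤ B2 ∧ T1 ≤ w ∧ w ≤ T2
  tri : ∀ w ∈ K, t w ∈ H.S ∧ sz (t w) = 3 ∧ H.On (t w) w ∧ H.On (t w) (l w) ∧ H.On (t w) (r w)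
  out : ∀ w ∈ K, q w ∉ H.S ∧ H.On (q w) w
  lft : ∀ w ∈ K, gm w ∈ H.S ∧ gm w ≠ t w ∧ H.On (gm w) w ∧ H.On (gm w) (l w)
  rgt : ∀ w ∈ K, gp w ∈ H.S ∧ gp w ≠ t w ∧ H.On (gp w) w ∧ H.On (gp w) (r w)

namespace Sec

variable {H : HC D} (X : Sec H)

/-- The total length of the two intervals. -/
def loss : ℕ := (X.B2 - X.B1) + (X.T2 - X.T1)

/-- A path from position `j` to position `i` inside the interval that keeps the middle arc. -/
def St (j i : ℕ) (Y : F D → Prop) : Prop :=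
  X.B1 ≤ j ∧ j ≤ X.B2 ∧ X.T1 ≤ i ∧ i ≤ X.T2 ∧
    H.Seg j i (fun z => j ≤ z ∧ z ≤ i) (fun x => X.B2 ≤ x ∧ x < X.T1) Y

/-- The outer face at the apex meets both intervals and nothing else. -/
def Tube (w x y x' y' : ℕ) : Prop :=
  H.On (X.q w) x ∧ H.On (X.q w) y ∧ H.On (X.q w) x' ∧ H.On (X.q w) y' ∧ X.T1 ≤ x ∧ x < w ∧
    w < x' ∧ x' ≤ X.T2 ∧ X.B1 ≤ y' ∧ y' ≤ y ∧ y ≤ X.B2 ∧
    ∀ z, H.On (X.q w) z → (y' ≤ z ∧ z ≤ y) ∨ (x ≤ z ∧ z ≤ x')

/-- Every triangle touches at most one face of size more than `s`. -/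
def NS (s : ℕ) : Prop :=
  ∀ w ∈ X.K, ∀ g g' i j, s < sz g → s < sz g' → H.On (X.t w) i → H.On g i → H.On (X.t w) j →
    H.On g' j → g = g'

/-- Fewer triangles and a shorter upper interval. -/
def sub (K' : Finset ℕ) (a b : ℕ) (h : K' ⊆ X.K) (h1 : X.T1 ≤ a) (h2 : a ≤ b) (h3 : b ≤ X.T2)
    (h4 : ∀ w ∈ K', a ≤ w ∧ w ≤ b) : Sec H :=
  { X with
    K := K'
    T1 := a
    T2 := b
    o2 := X.o2.trans_le h1
    o3 := h2
    o4 := (Nat.succ_le_succ h3).trans_lt X.o4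
    pos := fun w hw => ⟨(X.pos w (h hw)).1, (X.pos w (h hw)).2.1, (X.pos w (h hw)).2.2.1, h4 w hw⟩
    tri := fun w hw => X.tri w (h hw)
    out := fun w hw => X.out w (h hw)
    lft := fun w hw => X.lft w (h hw)
    rgt := fun w hw => X.rgt w (h hw) }

end Sec

end PM

end Pool.Agent.MP_42ec7b_co

end MrgPart2

-- ======== part 3: formerly Pool.Agent.MP_42ec7b_co.A.HMir
section MrgPart3

/-!
Reflection of the positions.
-/

set_option autoImplicit false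

open Finset

namespace Pool.Agent.MP_42ec7b_co

open Classical

namespace PM

variable {D : Type} [PM D]

lemma mu_mu {c n x : ℕ} (hc : c < n) (h : x < n) : mu c n (mu c n x) = x := by
  unfold mu
  split_ifs <;> omega

lemma mu_lt {c n x : ℕ} (hc : c < n) (h : x < n) : mu c n x < n := by
  unfold mu
  split_ifs <;> omega

/-- The same cycle, numbered backwards from position `c`. -/
theorem HC.exists_mir (H : HC D) {c : ℕ} (hc : c < H.n) : ∃ H' : HC D, H'.S = H.S ∧ H'.n = H.n ∧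
    ∀ i, H'.P i = H.P (mu c H.n i) := by
  have lt : ∀ i < H.n, (if i < c then c - i - 1 else c + H.n - i - 1) < H.n := fun i hi => by
    split_ifs <;> omega
  refine ⟨⟨H.S, H.n, fun i => H.P (mu c H.n i),
    fun i => H.dd (if i < c then c - i - 1 else c + H.n - i - 1), H.disc,
    ⟨H.fr.three, fun i hi => H.fr.bd _ (lt i hi), fun i hi => ?_, fun i hi j hj k => ?_,
      fun i hi j hj k => ?_, ?_, fun d hd => ?_⟩, H.all, H.h4⟩, rfl, rfl, fun _ => rfl⟩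
  · have e1 : mu c H.n (i + 1) = if i < c then c - i - 1 else c + H.n - i - 1 := by
      unfold mu
      split_ifs <;> omega
    have e2 : H.P (mu c H.n i) = H.P ((if i < c then c - i - 1 else c + H.n - i - 1) + 1) := by
      rcases eq_or_ne i c with rfl | k
      · rw [if_neg (lt_irrefl i), show i + H.n - i - 1 + 1 = H.n by omega, H.fr.per]
        simp [mu]
      · congr 1
        unfold mu
        split_ifs <;> omega
    simp only [e1, e2]
    exact (H.fr.ends _ (lt i hi)).symm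
  · rw [← mu_mu hc hi, H.fr.inj _ (mu_lt hc hi) _ (mu_lt hc hj) k, mu_mu hc hj]
  · have := H.fr.dinj _ (lt i hi) _ (lt j hj) k
    split_ifs at this <;> omega
  · congr 1
    unfold mu
    split_ifs <;> omega
  · obtain ⟨i, hi, rfl⟩ := H.fr.sur d hd
    refine ⟨_, lt i hi, congrArg H.dd ?_⟩
    split_ifs <;> omega

/-- `H'` is the reflection of `H`. -/
def HC.Mir (H H' : HC D) (c : ℕ) : Prop :=
  c < H.n ∧ H'.S = H.S ∧ H'.n = H.n ∧ ∀ i, H'.P i = H.P (mu c H.n i)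

namespace HC.Mir

variable {H H' : HC D} {c i j m E : ℕ} {g : F D}

lemma on (h : H.Mir H' c) (k : H.On g i) : H'.On g (mu c H.n i) :=
  ⟨(mu_lt h.1 k.1).trans_eq h.2.2.1.symm, by rw [h.2.2.2, mu_mu h.1 k.1]; exact k.2⟩

lemma on' (h : H.Mir H' c) (k : H'.On g i) : H.On g (mu c H.n i) :=
  ⟨mu_lt h.1 (h.2.2.1 ▸ k.1), h.2.2.2 i ▸ k.2⟩

lemma ed (h : H.Mir H' c) (k : H.Ed i j) : H'.Ed (mu c H.n i) (mu c H.n j) :=
  ⟨(mu_lt h.1 k.1).trans_eq h.2.2.1.symm, (mu_lt h.1 k.2.1).trans_eq h.2.2.1.symm, by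
    rw [h.2.2.2, h.2.2.2, mu_mu h.1 k.1, mu_mu h.1 k.2.1]; exact k.2.2⟩

lemma out (h : H.Mir H' c) (k : H'.Out m E) : H.Out m E := by
  obtain ⟨A, a, b, e⟩ := k
  exact ⟨A, a, h.2.2.1 ▸ b, e⟩

end HC.Mir

/-- The reflection of a family of triangles. -/
theorem Sec.exists_mir {H : HC D} (X : Sec H) : ∃ (H' : HC D) (X' : Sec H') (μ : ℕ → ℕ),
    H.Mir H' (X.B2 + 1) ∧ μ = mu (X.B2 + 1) H.n ∧ X'.B1 = μ X.B2 ∧ X'.B2 = μ X.B1 ∧
    X'.T1 = μ X.T2 ∧ X'.T2 = μ X.T1 ∧ X'.loss = X.loss ∧ X'.K = X.K.image μ ∧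
    (∀ K' ⊆ X.K, #(K'.image μ) = #K') ∧
    ∀ w ∈ X.K, μ (μ w) = w ∧ X'.l (μ w) = μ (X.r w) ∧ X'.r (μ w) = μ (X.l w) ∧
      X'.t (μ w) = X.t w ∧ X'.q (μ w) = X.q w ∧ X'.gm (μ w) = X.gp w ∧
      X'.gp (μ w) = X.gm w := by
  have o0 := X.o0
  have o1 := X.o1
  have o2 := X.o2
  have o3 := X.o3
  have o4 := X.o4
  have hc : X.B2 + 1 < H.n := by omega
  obtain ⟨H', a1, a2, a3⟩ := H.exists_mir hc
  have hm : H.Mir H' (X.B2 + 1) := ⟨hc, a1, a2, a3⟩
  obtain ⟨μ, hμ⟩ : ∃ μ, μ = mu (X.B2 + 1) H.n := ⟨_, rfl⟩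
  have mm : ∀ w ∈ X.K, μ (μ w) = w := fun w hw =>
    hμ ▸ mu_mu hc (by have := X.pos w hw; omega)
  have on : ∀ {g i}, H.On g i → H'.On g (μ i) := fun k => hμ ▸ hm.on k
  have lo : ∀ x ≤ X.B2, μ x = X.B2 + 1 - x := fun x hx => by
    rw [hμ, mu, if_pos (by omega)]
  have hi : ∀ x, X.T1 ≤ x → μ x = X.B2 + 1 + H.n - x := fun x hx => by
    rw [hμ, mu, if_neg (by omega)]
  have b1 := lo _ o1
  have b2 := lo _ le_rfl
  have t1 := hi _ le_rfl
  have t2 := hi _ o3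
  refine ⟨H', ⟨μ X.B2, μ X.B1, μ X.T2, μ X.T1, X.K.image μ, fun w => μ (X.r (μ w)),
    fun w => μ (X.l (μ w)), fun w => X.t (μ w), fun w => X.q (μ w), fun w => X.gp (μ w),
    fun w => X.gm (μ w), by omega, by omega, by omega, by omega, by omega,
    forall_mem_image.2 fun w hw => ?_, forall_mem_image.2 fun w hw => ?_,
    forall_mem_image.2 fun w hw => ?_, forall_mem_image.2 fun w hw => ?_,
    forall_mem_image.2 fun w hw => ?_⟩, μ, hm, hμ, rfl, rfl, rfl, rfl, ?_, rfl, fun K' hK => ?_,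
    fun w hw => ?_⟩
  · have k := X.pos w hw
    have e1 := lo (X.r w) (by omega)
    have e2 := lo (X.l w) (by omega)
    have e3 := hi w (by omega)
    simp only [mm w hw]
    omega
  · obtain ⟨k1, k2, k3, k4, k5⟩ := X.tri w hw
    simp only [mm w hw, a1]
    exact ⟨k1, k2, on k3, on k5, on k4⟩
  · obtain ⟨k1, k2⟩ := X.out w hw
    simp only [mm w hw, a1]
    exact ⟨k1, on k2⟩
  · obtain ⟨k1, k2, k3, k4⟩ := X.rgt w hw
    simp only [mm w hw, a1]
    exact ⟨k1, k2, on k3, on k4⟩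
  · obtain ⟨k1, k2, k3, k4⟩ := X.lft w hw
    simp only [mm w hw, a1]
    exact ⟨k1, k2, on k3, on k4⟩
  · simp only [Sec.loss]
    omega
  · exact card_image_of_injOn fun w hw w' hw' k => by
      rw [← mm w (hK hw), k, mm w' (hK hw')]
  · simp only [mm w hw, and_self]

end PM

end Pool.Agent.MP_42ec7b_co

end MrgPart3

-- ======== part 4: formerly Pool.Agent.MP_42ec7b_co.A.HPth
section MrgPart4

/-!
Paths as sets of darts; a cycle bounds a disc.
-/

set_option autoImplicit false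

open Finset

namespace Pool.Agent.MP_42ec7b_co

open Classical

namespace PM

variable {D : Type} [PM D]

namespace Pth

variable {Z Z1 Z2 : Finset D} {a b c : V D} {d : D}

lemma refl (a : V D) : Pth (∅ : Finset D) a a :=
  ⟨fun _ h => absurd h (notMem_empty _), fun u => by by_cases h : u = a <;> simp [h],
    fun _ h => absurd h (notMem_empty _), Rch.refl⟩

lemma symm (h : Pth Z a b) : Pth Z b a :=
  have k : Rch (· ∈ Z) (fun _ => True) b a := h.lnk.rev h.sym (fun _ m => m) trivial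
  ⟨h.sym, fun u => by have := h.deg u; omega, fun e he => k.trans (h.con e he), k⟩

lemma card_edge (d : D) (u : V D) : #(({d, α d} : Finset D).filter (v · = u)) =
    (if u = v d then 1 else 0) + if u = v (α d) then 1 else 0 := by
  rw [card_filter, sum_pair (αne d).symm]
  simp only [eq_comm]

lemma edge (d : D) : Pth {d, α d} (v d) (v (α d)) := by
  have k : Rch (· ∈ ({d, α d} : Finset D)) (fun _ => True) (v d) (v (α d)) :=
    Rch.one trivial (mem_insert_self _ _)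
  refine ⟨fun e he => ?_, fun u => ?_, fun e he => ?_, k⟩
  · rcases mem_insert.1 he with rfl | m
    · simp
    · rw [mem_singleton.1 m]
      simp
  · rw [card_edge]
    by_cases h1 : u = v d
    · have h2 : u ≠ v (α d) := fun m => loop d (m.symm.trans h1)
      rw [if_pos h1, if_neg h2]
      omega
    · rw [if_neg h1]
      split_ifs <;> omega
  · rcases mem_insert.1 he with rfl | m
    · exact Rch.refl
    · rwa [mem_singleton.1 m]

lemma cat (h1 : Pth Z1 a b) (h2 : Pth Z2 b c)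
    (h : ∀ u, (u = a ∨ ∃ d ∈ Z1, v d = u) → (u = c ∨ ∃ d ∈ Z2, v d = u) → u = b) :
    Pth (Z1 ∪ Z2) a c := by
  have hd : Disjoint Z1 Z2 := disjoint_left.2 fun e m1 m2 =>
    loop e ((h _ (Or.inr ⟨_, h1.sym e m1, rfl⟩) (Or.inr ⟨_, h2.sym e m2, rfl⟩)).trans
      (h _ (Or.inr ⟨_, m1, rfl⟩) (Or.inr ⟨_, m2, rfl⟩)).symm)
  have m1 : ∀ {x y : V D}, Rch (· ∈ Z1) (fun _ => True) x y →
      Rch (· ∈ Z1 ∪ Z2) (fun _ => True) x y :=
    fun k => k.mono fun _ _ _ m => ⟨trivial, mem_union_left _ m⟩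
  have m2 : ∀ {x y : V D}, Rch (· ∈ Z2) (fun _ => True) x y →
      Rch (· ∈ Z1 ∪ Z2) (fun _ => True) x y :=
    fun k => k.mono fun _ _ _ m => ⟨trivial, mem_union_right _ m⟩
  refine ⟨fun e he => ?_, fun u => ?_, fun e he => ?_, (m1 h1.lnk).trans (m2 h2.lnk)⟩
  · exact (mem_union.1 he).elim (fun m => mem_union_left _ (h1.sym e m))
      fun m => mem_union_right _ (h2.sym e m)
  · rw [filter_union, card_union_of_disjoint (disjoint_filter_filter hd)]
    have k1 := h1.deg u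
    have k2 := h2.deg u
    by_cases hb : u = b
    · rw [if_pos hb] at k1 k2
      omega
    · rw [if_neg hb] at k1 k2
      by_cases p : u = a ∨ ∃ d ∈ Z1, v d = u
      · have q : ¬(u = c ∨ ∃ d ∈ Z2, v d = u) := fun q => hb (h u p q)
        rw [not_or] at q
        have q2 : #(Z2.filter (v · = u)) = 0 :=
          card_eq_zero.2 (filter_eq_empty_iff.2 fun e m k => q.2 ⟨e, m, k⟩)
        rw [if_neg q.1]
        omega
      · rw [not_or] at p
        have q2 : #(Z1.filter (v · = u)) = 0 :=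
          card_eq_zero.2 (filter_eq_empty_iff.2 fun e m k => p.2 ⟨e, m, k⟩)
        rw [if_neg p.1]
        omega
  · exact (mem_union.1 he).elim (fun m => m1 (h1.con e m))
      fun m => (m1 h1.lnk).trans (m2 (h2.con e m))

/-- A set of faces whose boundary is a connected set of darts of degree two is connected. -/
lemma conn_of {W : Finset D} {T : Finset (F D)} (hd : d ∈ W)
    (hW : ∀ e, e ∈ W ↔ ¬(f e ∈ T ↔ f (α e) ∈ T)) (deg : ∀ u, #(W.filter (v · = u)) ≤ 2)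
    (con : ∀ e ∈ W, Rch (· ∈ W) (fun _ => True) (v d) (v e)) : Conn T := by
  have hT : Tᶜ.Nonempty := by
    by_contra k
    rw [not_nonempty_iff_eq_empty, compl_eq_empty_iff] at k
    exact (hW d).1 hd (by simp [k])
  have one : ∀ K ⊆ T, K.Nonempty → Cl T K → f d ∈ K ∨ f (α d) ∈ K := by
    intro K hK hne hc
    let y : F D → ZMod 2 := fun g => if g ∈ K then 1 else 0
    let w : D → ZMod 2 := fun e => y (f e) + y (f (α e))
    have wα : ∀ e, w (α e) = w e := fun e => by simp only [w, αα', add_comm]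
    have w0 : ∀ e, e ∉ W → w e = 0 := fun e he => by
      have k := not_not.1 (mt (hW e).2 he)
      have k' : f e ∈ K ↔ f (α e) ∈ K :=
        ⟨fun m => hc e m (k.1 (hK m)), fun m => hc.symm e m (k.2 (hK m))⟩
      simp only [w, y, k', z2_add_self]
    have wv : ∀ e ∈ W, ∀ e' ∈ W, v e' = v e → w e' = w e := fun e he e' he' hv => by
      by_cases m : e' = e
      · rw [m]
      have k1 : ({e', e} : Finset D) = W.filter (v · = v e) :=
        eq_of_subset_of_card_le (insert_subset (mem_filter.2 ⟨he', hv⟩)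
          (singleton_subset_iff.2 (mem_filter.2 ⟨he, rfl⟩))) (by rw [card_pair m]; exact deg _)
      have k2 : ∑ x ∈ W.filter (v · = v e), w x = ∑ x with v x = v e, w x :=
        sum_subset (filter_subset_filter _ (subset_univ _)) fun x m1 m2 =>
          w0 x fun m3 => m2 (mem_filter.2 ⟨m3, (mem_filter.1 m1).2⟩)
      rw [← k1, sum_pair m, orth_v] at k2
      exact z2_add_eq.1 k2
    have wc : ∀ e ∈ W, w e = w d := fun e he =>
      (con e he).ind (P := fun u => ∀ x ∈ W, v x = u → w x = w d) (fun x m k => wv d hd x m k)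
        (fun c _ _ m1 m2 x m3 m4 => by
          rw [wv (α c) ((hW _).2 (by rw [αα]; exact fun k => (hW c).1 m1 k.symm)) x m3 m4, wα]
          exact m2 c m1 rfl) e he rfl
    obtain ⟨e, k1, k2⟩ := exists_bd hne (hT.mono (compl_subset_compl.2 hK))
    have k3 : w e = 1 := by simp [w, y, k1, k2]
    have k4 : e ∈ W := by_contra fun m => zero_ne_one ((w0 e m).symm.trans k3)
    rw [wc e k4] at k3
    by_contra k
    rw [not_or] at k
    simp [w, y, k.1, k.2] at k3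
  intro K hK hne hc
  by_contra k
  have k1 := one K hK hne hc
  have k2 := one (T \ K) sdiff_subset (sdiff_nonempty.2 k) fun e m1 m2 =>
    mem_sdiff.2 ⟨m2, fun m => (mem_sdiff.1 m1).2 (hc.symm e m (mem_sdiff.1 m1).1)⟩
  rw [mem_sdiff, mem_sdiff] at k2
  refine (hW d).1 hd ?_
  rcases k1 with k1 | k1 <;> rcases k2 with k2 | k2
  exacts [absurd k1 k2.2, iff_of_true (hK k1) k2.1, iff_of_true k2.1 (hK k1), absurd k1 k2.2]

theorem close (h : Pth Z a b) (h1 : v d = b) (h2 : v (α d) = a) (h3 : d ∉ Z) :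
    ∃ A, Disc A ∧ ∀ e, (Bd A e ∨ Bd A (α e)) ↔ e ∈ Z ∨ e = d ∨ e = α d := by
  have h4 : α d ∉ Z := fun m => h3 (by simpa using h.sym _ m)
  have hd : Disjoint Z {d, α d} := by simp [h3, h4]
  obtain ⟨W, hW⟩ : ∃ W, W = Z ∪ {d, α d} := ⟨_, rfl⟩
  have mem : ∀ e, e ∈ W ↔ e ∈ Z ∨ e = d ∨ e = α d := fun e => by
    rw [hW, mem_union, mem_insert, mem_singleton]
  have deg : ∀ u, #(W.filter (v · = u)) = 0 ∨ #(W.filter (v · = u)) = 2 := fun u => by
    rw [hW, filter_union, card_union_of_disjoint (disjoint_filter_filter hd), card_edge, h1, h2]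
    have := h.deg u
    omega
  have sy : ∀ e ∈ W, α e ∈ W := fun e he => by
    rcases (mem e).1 he with m | rfl | rfl
    · exact (mem _).2 (Or.inl (h.sym e m))
    · exact (mem _).2 (Or.inr (Or.inr rfl))
    · exact (mem _).2 (Or.inr (Or.inl (αα _)))
  have dW : d ∈ W := (mem _).2 (Or.inr (Or.inl rfl))
  have con : ∀ e ∈ W, Rch (· ∈ W) (fun _ => True) (v d) (v e) := fun e he => by
    have k : Rch (· ∈ W) (fun _ => True) (v d) (v (α d)) := Rch.one trivial dW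
    rcases (mem e).1 he with m | rfl | rfl
    · rw [h2] at k
      exact k.trans ((h.con e m).mono fun c _ _ m => ⟨trivial, (mem c).2 (Or.inl m)⟩)
    · exact Rch.refl
    · exact k
  obtain ⟨y, hy⟩ := exact_f (fun e => if e ∈ W then 1 else 0)
    (fun e => if_congr ⟨fun m => by simpa using sy _ m, sy e⟩ rfl rfl) fun u => by
      rw [sum_boole, filter_comm, filter_mem_eq_inter, univ_inter]
      rcases deg u with k | k <;> rw [k] <;> rfl
  have hA : ∀ e, e ∈ W ↔ ¬(f e ∈ univ.filter (y · = 1) ↔ f (α e) ∈ univ.filter (y · = 1)) :=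
    fun e => by
      simp only [mem_filter, mem_univ, true_and]
      rw [← z2_ne, ← hy]
      simp
  generalize univ.filter (y · = 1) = A at hA
  have d2 : ∀ u, #(W.filter (v · = u)) ≤ 2 := fun u => by have := deg u; omega
  refine ⟨A, ⟨?_, ?_, conn_of dW hA d2 con, conn_of dW (fun e => ?_) d2 con⟩, fun e => ?_⟩
  · by_contra k
    rw [not_nonempty_iff_eq_empty] at k
    exact (hA d).1 dW (by simp [k])
  · by_contra k
    rw [not_nonempty_iff_eq_empty, compl_eq_empty_iff] at k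
    exact (hA d).1 dW (by simp [k])
  · rw [hA, mem_compl, mem_compl, not_iff_not, not_iff_not]
  · rw [← mem, hA]
    unfold Bd
    rw [αα]
    tauto

end Pth

end PM

end Pool.Agent.MP_42ec7b_co

end MrgPart4

-- ======== part 5: formerly Pool.Agent.MP_42ec7b_co.A.HNc
section MrgPart5

/-!
Faces of one colour do not cross.
-/

set_option autoImplicit false

open Finset

namespace Pool.Agent.MP_42ec7b_co

open Classical

namespace PM

variable {D : Type} [PM D]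

section

variable {S R : Finset (F D)} {g g' : F D} {L a b a' b' : ℕ} {p : ℕ → V D} {dd : ℕ → D}

lemma hnc_compl (fr : Frm S L p dd) : Frm Sᶜ L p fun i => α (dd i) :=
  ⟨fr.three, fun i h => (fr.bd i h).compl, fun i h => by
    rw [αα]
    exact (fr.ends i h).symm.imp And.symm And.symm, fr.inj,
    fun i h j h' k => fr.dinj i h j h' (α.injective k), fr.per, fun d k => by
      obtain ⟨i, h, e⟩ := fr.sur (α d) (by simpa using k.compl)
      exact ⟨i, h, by rw [e, αα]⟩⟩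

/-- A face at a boundary vertex reaches one of the two boundary edges there. -/
lemma hnc_edge (h4 : ∀ d : D, ρ (ρ (ρ (ρ d))) = d) (hc : Cl (S.erase g) R) (h1 : g' ∈ R)
    (h2 : g' ∈ S) {u : V D} (h3 : Tch {g'} u) (h5 : BV S u) :
    ∃ d, Bd S d ∧ f d ∈ R ∧ (v d = u ∨ v (α d) = u) := by
  obtain ⟨e, rfl, e1, e2⟩ := (bv_compl.2 h5).out
  obtain ⟨c, c1, rfl⟩ := tch_one.1 h3
  rw [mem_compl] at e1
  rw [mem_compl, not_not] at e2
  have a1 : Bd S (α e) := ⟨e2, by rwa [αα]⟩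
  have a2 : f (α (ρ (ρ (ρ e)))) ∉ S := by rwa [← fρ, h4]
  rcases four h4 c1 with rfl | rfl | rfl | rfl
  · exact absurd h2 e1
  · exact ⟨α e, a1, by rwa [← fρ], Or.inr (by rw [αα])⟩
  · by_cases m : f (ρ (ρ (ρ e))) ∈ S
    · by_cases k : f (ρ e) = g
      · exact ⟨_, ⟨m, a2⟩, fρ (ρ (ρ e)) ▸ hc _ h1 (fρ (ρ (ρ e)) ▸ mem_erase.2 ⟨fun k' =>
          ρρne (ρ e) (eq_of_fv (k'.trans k.symm) (by simp)), m⟩), Or.inl (by simp)⟩
      · exact ⟨α e, a1, fρ e ▸ hc.symm (ρ e) (fρ (ρ e) ▸ h1)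
          (mem_erase.2 ⟨k, (fρ e).symm ▸ e2⟩), Or.inr (by rw [αα])⟩
    · exact ⟨_, ⟨h2, by rwa [← fρ]⟩, h1, Or.inl c1⟩
  · exact ⟨_, ⟨h2, a2⟩, h1, Or.inl c1⟩

lemma hnc_in (h4 : ∀ d : D, ρ (ρ (ρ (ρ d))) = d) (hS : Conn Sᶜ) (fr : Frm S L p dd)
    (hne : g ≠ g') (c1 : g ∈ S) (c2 : g' ∈ S) (h1 : Tch {g} (p a)) (h2 : Tch {g'} (p a'))
    (h3 : Tch {g} (p b)) (h5 : Tch {g'} (p b')) (k1 : a < a') (k2 : a' < b) (k3 : b < b')
    (k4 : b' < L) : False := by
  obtain ⟨R, r1, r2, r3, r4⟩ := exists_comp (mem_erase.2 ⟨hne.symm, c2⟩)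
  have key : ∀ z, 0 < z → z < L → Tch {g'} (p z) → ∃ m < L, f (dd m) ∈ R ∧ (z = m ∨ z = m + 1) :=
    fun z z1 z2 z3 => by
      obtain ⟨d, d1, d2, d3⟩ := hnc_edge h4 r4 r2 c2 z3 (fr.bv z2.le)
      obtain ⟨m, m1, rfl⟩ := fr.sur d d1
      refine ⟨m, m1, d2, ?_⟩
      have : p z = p m ∨ p z = p (m + 1) :=
        d3.elim (fun k => k ▸ fr.vend m1 (Or.inl rfl)) fun k => k ▸ fr.vend m1 (Or.inr rfl)
      exact this.imp (fr.inj z z2 m m1) (fr.inj' z1 z2.le m.succ_pos m1)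
  obtain ⟨m, m1, m2, m3⟩ := key a' (by omega) (by omega) h2
  obtain ⟨n, n1, n2, n3⟩ := key b' (by omega) k4 h5
  exact fr.arc_in (i := a) (j := b) hS r3 (r1.trans (erase_subset _ _)) (n1 := m) (n2 := n)
    (by omega) (by omega) (by omega) (by omega) n1 m2 n2
    ((facelk (conn_single g) h1 h3).mono fun d k => Or.inl (by
      rw [mem_singleton.1 k]
      exact ⟨c1, fun q => (mem_erase.1 (r1 q)).1 rfl⟩))

end

namespace HC

variable {H : HC D} {g g' : F D} {d : D} {a b a' b' i j x y z : ℕ}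

lemma hnc_ed (h : i < H.n) : ∃ d, v d = H.P i ∧ v (α d) = H.P (i + 1) :=
  (H.fr.ends i h).elim (fun k => ⟨_, k⟩) fun k => ⟨α (H.dd i), k.2, by rw [αα, k.1]⟩

lemma cedge (h : i + 1 < H.n) : H.Ed i (i + 1) := ⟨by omega, h, hnc_ed (by omega)⟩

lemma cedge0 (h : i + 1 = H.n) : H.Ed i 0 :=
  ⟨by omega, by omega, by rw [← H.fr.per, ← h]; exact hnc_ed (by omega)⟩

/-- The two faces at the edge number `i` of the cycle. -/
lemma on_dd (h : i + 1 < H.n) : H.On (f (H.dd i)) i ∧ H.On (f (H.dd i)) (i + 1) ∧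
    H.On (f (α (H.dd i))) i ∧ H.On (f (α (H.dd i))) (i + 1) :=
  have k : i < H.n := by omega
  have k1 := H.fr.tch k (Or.inl (mem_singleton_self _))
  have k2 := H.fr.tch k (Or.inr (mem_singleton_self _))
  ⟨⟨k, k1.1⟩, ⟨h, k1.2⟩, ⟨k, k2.1⟩, ⟨h, k2.2⟩⟩

lemma hnc_succ {m : ℕ} (h : m < H.n) (h1 : i < H.n) (k : H.P i = H.P (m + 1)) :
    i = m + 1 ∨ i = 0 ∧ m + 1 = H.n := by
  rcases (Nat.succ_le_of_lt h).lt_or_eq with e | e
  · exact Or.inl (inj h1 e k)
  · exact Or.inr ⟨inj h1 (by omega) (k.trans ((congrArg H.P e).trans H.fr.per)), e⟩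

lemma hnc_bd (h : Bd H.S d) (h1 : i < H.n) (h2 : j < H.n) (k1 : v d = H.P i)
    (k2 : v (α d) = H.P j) : H.Nb i j := by
  obtain ⟨m, m1, rfl⟩ := H.fr.sur d h
  unfold Nb
  rcases H.fr.ends m m1 with ⟨e1, e2⟩ | ⟨e1, e2⟩
  · have := inj h1 m1 (k1.symm.trans e1)
    have := hnc_succ m1 h2 (k2.symm.trans e2)
    omega
  · have := inj h2 m1 (k2.symm.trans e2)
    have := hnc_succ m1 h1 (k1.symm.trans e1)
    omega

lemma hnc_symm (h : H.Nb i j) : H.Nb j i := by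
  unfold Nb at *
  omega

lemma bd_pos (h : ¬(f d ∈ H.S ↔ f (α d) ∈ H.S)) (h1 : i < H.n) (h2 : j < H.n) (k1 : v d = H.P i)
    (k2 : v (α d) = H.P j) : H.Nb i j := by
  by_cases m : f d ∈ H.S
  · exact hnc_bd ⟨m, fun k => h (iff_of_true m k)⟩ h1 h2 k1 k2
  · exact hnc_symm (hnc_bd (d := α d) ⟨by_contra fun k => h (iff_of_false m k), by rwa [αα]⟩ h2 h1
      k2 (by rwa [αα]))

lemma hnc_nb (h1 : i < H.n) (k1 : v d = H.P i) (k2 : v (α d) = H.P (i + 1)) :
    ¬(f d ∈ H.S ↔ f (α d) ∈ H.S) := by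
  have b := H.fr.bd i h1
  rcases H.fr.ends i h1 with ⟨e1, e2⟩ | ⟨e1, e2⟩
  · rw [simple d _ (k1.trans e1.symm) (k2.trans e2.symm)]
    exact fun k => b.2 (k.1 b.1)
  · rw [simple d (α (H.dd i)) (k1.trans e2.symm) (by rw [αα, k2, e1]), αα]
    exact fun k => b.2 (k.2 b.1)

/-- An edge between neighbours on the cycle is an edge of the cycle. -/
lemma nb_bd (h : H.Nb i j) (h1 : i < H.n) (h2 : j < H.n) (k1 : v d = H.P i)
    (k2 : v (α d) = H.P j) : ¬(f d ∈ H.S ↔ f (α d) ∈ H.S) := by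
  have s : ∀ {m}, m < H.n → v (α d) = H.P m → v d = H.P (m + 1) →
      ¬(f d ∈ H.S ↔ f (α d) ∈ H.S) := fun m1 m2 m3 k =>
    hnc_nb (d := α d) m1 m2 (by rwa [αα]) (by rw [αα]; exact k.symm)
  rcases h with rfl | rfl | ⟨rfl, e⟩ | ⟨rfl, e⟩
  · exact hnc_nb h1 k1 k2
  · exact s h2 k2 k1
  · exact s h2 k2 (by rw [e, H.fr.per, k1])
  · exact hnc_nb h1 k1 (by rw [e, H.fr.per, k2])

theorem nc (hne : g ≠ g') (hc : g ∈ H.S ↔ g' ∈ H.S) (h1 : H.On g a) (h2 : H.On g' a')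
    (h3 : H.On g b) (h4 : H.On g' b') (k1 : a < a') (k2 : a' < b) (k3 : b < b') : False := by
  by_cases m : g ∈ H.S
  · exact hnc_in H.h4 H.disc.2.2.2 H.fr hne m (hc.1 m) h1.2 h2.2 h3.2 h4.2 k1 k2 k3 h4.1
  · exact hnc_in H.h4 H.disc.compl.2.2.2 (hnc_compl H.fr) hne (mem_compl.2 m)
      (mem_compl.2 (mt hc.2 m)) h1.2 h2.2 h3.2 h4.2 k1 k2 k3 h4.1

/-- Faces of different colours share only neighbours on the cycle. -/
theorem sh (hc : ¬(g ∈ H.S ↔ g' ∈ H.S)) (h1 : H.On g a) (h2 : H.On g' a) (h3 : H.On g b)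
    (h4 : H.On g' b) (k : a ≠ b) : H.Nb a b := by
  obtain ⟨d, rfl, rfl, e | e⟩ := two_v (fun e => hc (by rw [e])) (fun e => k (inj h1.1 h3.1 e))
    h1.2 h2.2 h3.2 h4.2
  · exact bd_pos hc h1.1 h3.1 e.1 e.2
  · exact hnc_symm (bd_pos hc h3.1 h1.1 e.1 e.2)

end HC

end PM

end Pool.Agent.MP_42ec7b_co

end MrgPart5

-- ======== part 6: formerly Pool.Agent.MP_42ec7b_co.A.HNc2
section MrgPart6

/-!
Counting positions and faces.
-/

set_option autoImplicit false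

open Finset

namespace Pool.Agent.MP_42ec7b_co

open Classical

namespace PM

variable {D : Type} [PM D]

namespace HC

variable {H : HC D} {g g' : F D} {a b x y z : ℕ}

lemma three_on (hne : g ≠ g') (h1 : H.On g x) (h2 : H.On g' x) (h3 : H.On g y) (h4 : H.On g' y)
    (h5 : H.On g z) (h6 : H.On g' z) (n1 : x ≠ y) (n2 : x ≠ z) : y = z :=
  inj h3.1 h5.1 (three_v hne (fun k => n1 (inj h1.1 h3.1 k)) (fun k => n2 (inj h1.1 h5.1 k))
    h1.2 h2.2 h3.2 h4.2 h5.2 h6.2)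

lemma card_on {T : Finset ℕ} (h : ∀ z ∈ T, H.On g z) : #T ≤ sz g := by
  obtain ⟨c0, -⟩ := f_surj g
  have : Nonempty D := ⟨c0⟩
  choose! e h1 h2 using fun z hz => (h z hz).dart
  refine card_le_card_of_injOn e (fun z hz => ?_) fun z hz z' hz' k => ?_
  · simpa using h1 z hz
  · exact inj (h z hz).1 (h z' hz').1 (by rw [← h2 z hz, ← h2 z' hz', k])

lemma tri_on (h : sz g = 3) (h1 : H.On g a) (h2 : H.On g b) (h3 : H.On g x) (n1 : a ≠ b)
    (n2 : a ≠ x) (n3 : b ≠ x) (k : H.On g z) : z = a ∨ z = b ∨ z = x := by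
  by_contra q
  simp only [not_or] at q
  have c := card_on (H := H) (g := g) (T := {z, a, b, x}) fun w hw => by
    simp only [mem_insert, mem_singleton] at hw
    rcases hw with rfl | rfl | rfl | rfl <;> assumption
  rw [card_insert_of_notMem (by simp [q]), card_insert_of_notMem (by simp [n1, n2]),
    card_pair n3] at c
  omega

lemma exists_three (g : F D) : ∃ a b c, a < b ∧ b < c ∧ H.On g a ∧ H.On g b ∧ H.On g c := by
  obtain ⟨d, rfl⟩ := f_surj g
  obtain ⟨i, hi, ei⟩ := surj (H := H) (v d)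
  obtain ⟨j, hj, ej⟩ := surj (H := H) (v (φ d))
  obtain ⟨k, hk, ek⟩ := surj (H := H) (v (φ (φ d)))
  have a1 : H.On (f d) i := on_v hi ei.symm
  have a2 : H.On (f d) j := fφ d ▸ on_v hj ej.symm
  have a3 : H.On (f d) k := by
    have := on_v hk ek.symm
    rwa [fφ, fφ] at this
  have n1 : i ≠ j := fun q => face_v1 d (by rw [← ei, ← ej, q])
  have n2 : j ≠ k := fun q => face_v1 (φ d) (by rw [← ek, ← ej, q])
  have n3 : i ≠ k := fun q => face_v2 d (by rw [← ei, ← ek, q])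
  rcases n1.lt_or_gt with b1 | b1 <;> rcases n2.lt_or_gt with b2 | b2 <;>
    rcases n3.lt_or_gt with b3 | b3
  · exact ⟨i, j, k, b1, b2, a1, a2, a3⟩
  · omega
  · exact ⟨i, k, j, b3, b2, a1, a3, a2⟩
  · exact ⟨k, i, j, b3, b1, a3, a1, a2⟩
  · exact ⟨j, i, k, b1, b3, a2, a1, a3⟩
  · exact ⟨j, k, i, b2, b3, a2, a3, a1⟩
  · omega
  · exact ⟨k, j, i, b2, b1, a3, a2, a1⟩

lemma hnc2_four {ι : Type} {T : Finset ι} {u : V D} (H : HC D) (e : ι → D)
    (h1 : ∀ t ∈ T, v (e t) = u) (h2 : ∀ t ∈ T, ∀ t' ∈ T, e t = e t' → t = t') : #T ≤ 4 := by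
  obtain ⟨c, rfl⟩ := v_surj u
  refine le_trans (card_le_card_of_injOn (t := {c, ρ c, ρ (ρ c), ρ (ρ (ρ c))}) e
    (fun t ht => ?_) fun t ht t' ht' k => h2 t ht t' ht' k) card_le_four
  simpa using four H.h4 (h1 t ht)

/-- At most four faces at a vertex. -/
lemma card_at {T : Finset (F D)} (h : ∀ g ∈ T, H.On g z) : #T ≤ 4 := by
  obtain ⟨c0, -⟩ := v_surj (H.P z)
  have : Nonempty D := ⟨c0⟩
  choose! e h1 h2 using fun g hg => (h g hg).dart
  exact hnc2_four H e h2 fun t ht t' ht' k => by rw [← h1 t ht, ← h1 t' ht', k]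

lemma hnc2_ed {T : Finset ℕ} (h : ∀ w ∈ T, H.Ed a w) : #T ≤ 4 := by
  obtain ⟨c0, -⟩ := v_surj (H.P a)
  have : Nonempty D := ⟨c0⟩
  choose! e h1 h2 using fun w hw => (h w hw).2.2
  exact hnc2_four H e h1 fun t ht t' ht' k =>
    inj (h t ht).2.1 (h t' ht').2.1 (by rw [← h2 t ht, ← h2 t' ht', k])

/-- At most two chords at a vertex. -/
lemma ch3 (h1 : H.Ed a x) (h2 : H.Ed a y) (h3 : H.Ed a z) (n1 : x ≠ y) (n2 : x ≠ z) (n3 : y ≠ z) :
    H.Nb a x ∨ H.Nb a y ∨ H.Nb a z := by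
  have ha := h1.1
  have h5 := five (H := H)
  obtain ⟨p, p1, p2⟩ : ∃ p, H.Ed a p ∧ (a = p + 1 ∨ (a = 0 ∧ p + 1 = H.n)) := by
    rcases a with _ | a
    · exact ⟨H.n - 1, (cedge0 (by omega)).symm, Or.inr ⟨rfl, by omega⟩⟩
    · exact ⟨a, (cedge ha).symm, Or.inl rfl⟩
  obtain ⟨s, s1, s2⟩ : ∃ s, H.Ed a s ∧ (s = a + 1 ∨ (s = 0 ∧ a + 1 = H.n)) := by
    rcases Nat.lt_or_ge (a + 1) H.n with k | k
    · exact ⟨a + 1, cedge k, Or.inl rfl⟩
    · exact ⟨0, cedge0 (by omega), Or.inr ⟨rfl, by omega⟩⟩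
  have np : H.Nb a p := p2.elim (fun k => Or.inr (Or.inl k)) fun k => Or.inr (Or.inr (Or.inl k))
  have ns : H.Nb a s := s2.elim Or.inl fun k => Or.inr (Or.inr (Or.inr k))
  have ps : p ≠ s := by omega
  by_contra q
  simp only [not_or] at q
  have e1 : ∀ w, ¬H.Nb a w → w ≠ p ∧ w ≠ s := fun w k =>
    ⟨fun e => k (e ▸ np), fun e => k (e ▸ ns)⟩
  have c := hnc2_ed (H := H) (a := a) (T := {x, y, z, p, s}) fun w hw => by
    simp only [mem_insert, mem_singleton] at hw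
    rcases hw with rfl | rfl | rfl | rfl | rfl <;> assumption
  rw [card_insert_of_notMem (by simp [n1, n2, e1 x q.1]),
    card_insert_of_notMem (by simp [n3, e1 y q.2.1]),
    card_insert_of_notMem (by simp [e1 z q.2.2]), card_pair ps] at c
  exact absurd c (by decide)

end HC

end PM

end Pool.Agent.MP_42ec7b_co

end MrgPart6

-- ======== part 7: formerly Pool.Agent.MP_42ec7b_co.A.HCons
section MrgPart7

/-!
The boundary of a face follows the order of the positions.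
-/

set_option autoImplicit false

open Finset

namespace Pool.Agent.MP_42ec7b_co

open Classical

namespace PM

variable {D : Type} [PM D]

namespace HC

variable {H : HC D} {g g' : F D} {d : D} {a b i j x y z : ℕ}

/-- Both ends of an edge lie on both of its faces. -/
lemma HCons_four (ha : a < H.n) (hb : b < H.n) (k1 : v d = H.P a) (k2 : v (α d) = H.P b) :
    H.On (f d) a ∧ H.On (f d) b ∧ H.On (f (α d)) a ∧ H.On (f (α d)) b :=
  ⟨on_v ha k1, by simpa using on_v' hb k2, on_v' ha k1, on_v hb k2⟩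

/-- An edge of a face does not separate two vertices of the face. -/
lemma edge_sep (h : f d = g ∨ f (α d) = g) (k1 : v d = H.P a) (k2 : v (α d) = H.P b) (hb : b < H.n)
    (h1 : H.On g x) (h2 : H.On g y) (m1 : a < x) (m2 : x < b) : a ≤ y ∧ y ≤ b := by
  have ha : a < H.n := by omega
  have hy := h2.lt
  by_cases hc : f d ∈ H.S ↔ f (α d) ∈ H.S
  · obtain ⟨c1, c2, c3, c4⟩ := HCons_four ha hb k1 k2
    obtain ⟨g', n, c, e1, e2⟩ : ∃ g', g ≠ g' ∧ (g ∈ H.S ↔ g' ∈ H.S) ∧ H.On g' a ∧ H.On g' b := by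
      rcases h with rfl | rfl
      exacts [⟨_, (s0 d).symm, hc, c3, c4⟩, ⟨_, s0 d, hc.symm, c1, c2⟩]
    by_contra k
    rcases (by omega : y < a ∨ b < y) with m | m
    · exact nc n c h2 e1 h1 e2 m m1 m2
    · exact nc n.symm c.symm e1 h1 e2 h2 m1 m2 m
  · have := bd_pos hc ha hb k1 k2
    unfold Nb at this
    omega

/-- The two edges of a face at one of its vertices. -/
lemma HCons_two (h : H.On g a) : ∃ d1 d2 j1 j2, (f d1 = g ∨ f (α d1) = g) ∧
    (f d2 = g ∨ f (α d2) = g) ∧ v d1 = H.P a ∧ v d2 = H.P a ∧ v (α d1) = H.P j1 ∧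
    v (α d2) = H.P j2 ∧ j1 ≠ j2 ∧ j1 ≠ a ∧ j2 ≠ a ∧ H.On g j1 ∧ H.On g j2 := by
  obtain ⟨d1, e1, e2⟩ := h.dart
  obtain ⟨e, rfl⟩ := (φ (D := D)).surjective d1
  obtain ⟨j1, m1, k1⟩ := surj (H := H) (v (α (φ e)))
  obtain ⟨j2, m2, k2⟩ := surj (H := H) (v e)
  have e3 : f e = g := by rwa [fφ] at e1
  have e4 : v (α e) = H.P a := by rwa [vφ] at e2
  refine ⟨φ e, α e, j1, j2, Or.inl e1, Or.inr (by rwa [αα]), e2, e4, k1.symm, by rw [αα, k2],
    ?_, ?_, ?_, ?_, e3 ▸ on_v m2 k2.symm⟩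
  · rintro rfl
    exact face_v2 e (by rw [vφ, ← k1, k2])
  · rintro rfl
    exact loop (φ e) (by rw [← k1, e2])
  · rintro rfl
    exact loop e (by rw [e4, k2])
  · exact e1 ▸ (HCons_four h.lt m1 e2 k1.symm).2.1

lemma HCons_flip (h : f d = g ∨ f (α d) = g) : f (α d) = g ∨ f (α (α d)) = g := by
  rw [αα]; exact h.symm

theorem cons (h1 : H.On g a) (h2 : H.On g b) (h : a < b) (k : ∀ x, H.On g x → ¬(a < x ∧ x < b)) :
    ∃ d, (f d = g ∨ f (α d) = g) ∧ v d = H.P a ∧ v (α d) = H.P b := by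
  have key : ∀ e j, (f e = g ∨ f (α e) = g) → v e = H.P a → v (α e) = H.P j → H.On g j → j ≠ a →
      j ≠ b → ∀ y, H.On g y → (b < j ∧ a ≤ y ∧ y ≤ j) ∨ (j < a ∧ ¬(j < y ∧ y < a)) := by
    intro e j c1 c2 c3 c4 n1 n2 y hy
    have := k j c4
    rcases (by omega : b < j ∨ j < a) with m | m
    · exact Or.inl ⟨m, edge_sep c1 c2 c3 c4.lt h2 hy h m⟩
    · refine Or.inr ⟨m, fun m' => ?_⟩
      have := edge_sep (HCons_flip c1) c3 (by rw [αα, c2]) h1.lt hy h2 m'.1 m'.2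
      omega
  obtain ⟨d1, d2, j1, j2, a1, a2, a3, a4, a5, a6, n1, n2, n3, o1, o2⟩ := HCons_two h1
  by_cases e1 : j1 = b
  · exact ⟨d1, a1, a3, e1 ▸ a5⟩
  by_cases e2 : j2 = b
  · exact ⟨d2, a2, a4, e2 ▸ a6⟩
  have b1 := key d1 j1 a1 a3 a5 o1 n2 e1 j2 o2
  have b2 := key d2 j2 a2 a4 a6 o2 n3 e2 j1 o1
  omega

theorem ext (h1 : H.On g a) (h2 : H.On g b) (h : a < b) (k : ∀ x, H.On g x → a ≤ x ∧ x ≤ b) :
    ∃ d, (f d = g ∨ f (α d) = g) ∧ v d = H.P a ∧ v (α d) = H.P b := by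
  obtain ⟨d1, d2, j1, j2, a1, a2, a3, a4, a5, a6, n1, n2, n3, o1, o2⟩ := HCons_two h1
  have b1 := k j1 o1
  have b2 := k j2 o2
  rcases lt_or_gt_of_ne n1 with m | m
  · have := edge_sep a2 a4 a6 o2.lt o1 h2 (by omega) m
    obtain rfl : j2 = b := by omega
    exact ⟨d2, a2, a4, a6⟩
  · have := edge_sep a1 a3 a5 o1.lt o2 h2 (by omega) m
    obtain rfl : j1 = b := by omega
    exact ⟨d1, a1, a3, a5⟩

lemma cons_ed (h1 : H.On g a) (h2 : H.On g b) (h : a < b)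
    (k : ∀ x, H.On g x → ¬(a < x ∧ x < b)) : H.Ed a b :=
  ⟨h1.lt, h2.lt, (cons h1 h2 h k).imp fun _ m => m.2⟩

lemma ext_ed (h1 : H.On g a) (h2 : H.On g b) (h : a < b) (k : ∀ x, H.On g x → a ≤ x ∧ x ≤ b) :
    H.Ed a b :=
  ⟨h1.lt, h2.lt, (ext h1 h2 h k).imp fun _ m => m.2⟩

/-- A wide face has no vertex between two vertices of another face inside the interval. -/
lemma between (hne : g ≠ g') (hc : g ∈ H.S ↔ g' ∈ H.S) (hw : H.Wide a b g') (h1 : H.On g x)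
    (h2 : H.On g y) (h3 : H.On g' z) (k1 : a ≤ x) (k2 : x < z) (k3 : z < y) (k4 : y ≤ b) :
    False := by
  obtain ⟨w, c, m | m⟩ := hw
  · exact nc hne.symm hc.symm c h1 h3 h2 (by omega) k2 k3
  · exact nc hne hc h1 h3 h2 c k2 k3 (by omega)

/-- The faces of one colour. -/
lemma HCons_col (g : F D) : ∃ T : Finset (F D), Conn T ∧ ∀ x, x ∈ T ↔ (g ∈ H.S ↔ x ∈ H.S) := by
  by_cases h : g ∈ H.S
  · exact ⟨H.S, H.disc.2.2.1, fun x => by simp [h]⟩
  · exact ⟨H.Sᶜ, H.disc.2.2.2, fun x => by simp [h]⟩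

/-- One of the two faces at a chord is not under the chord. -/
theorem side (hc : f d ∈ H.S ↔ f (α d) ∈ H.S) (k1 : v d = H.P a) (k2 : v (α d) = H.P b) (h : a < b)
    (hb : b < H.n) : H.Wide a b (f d) ∨ H.Wide a b (f (α d)) := by
  have ha : a < H.n := by omega
  by_contra k
  obtain ⟨w1, w2⟩ := not_or.1 k
  obtain ⟨c1, c2, -, -⟩ := HCons_four ha hb k1 k2
  obtain ⟨T, hT, mem⟩ := HCons_col (H := H) (f d)
  have key : T ⊆ T.filter fun x => ¬H.Wide a b x := by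
    refine hT _ (filter_subset _ _) ⟨f d, mem_filter.2 ⟨(mem _).2 Iff.rfl, w1⟩⟩ fun e e1 e2 => ?_
    refine mem_filter.2 ⟨e2, fun hw => ?_⟩
    have e3 := (mem_filter.1 e1).2
    obtain ⟨i, m1, p1⟩ := surj (H := H) (v e)
    obtain ⟨j, m2, p2⟩ := surj (H := H) (v (α e))
    obtain ⟨o1, o2, o3, o4⟩ := HCons_four m1 m2 p1.symm p2.symm
    have n : i ≠ j := by
      rintro rfl
      exact loop e (p2.symm.trans p1)
    have n1 : f d ≠ f (α e) := fun m => w1 (m ▸ hw)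
    have b1 : ¬(i < a ∨ b < i) := fun m => e3 ⟨i, o1, m⟩
    have b2 : ¬(j < a ∨ b < j) := fun m => e3 ⟨j, o2, m⟩
    have b3 : ¬(a < i ∧ i < b) := fun m =>
      between n1 ((mem _).1 e2) hw c1 c2 o3 le_rfl m.1 m.2 le_rfl
    have b4 : ¬(a < j ∧ j < b) := fun m =>
      between n1 ((mem _).1 e2) hw c1 c2 o4 le_rfl m.1 m.2 le_rfl
    rcases (by omega : i = a ∧ j = b ∨ i = b ∧ j = a) with ⟨rfl, rfl⟩ | ⟨rfl, rfl⟩
    · obtain rfl : e = d := simple _ _ (p1.symm.trans k1.symm) (p2.symm.trans k2.symm)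
      exact w2 hw
    · obtain rfl : α e = d := simple _ _ (p2.symm.trans k1.symm)
        (by rw [αα]; exact p1.symm.trans k2.symm)
      exact w1 hw
  have fin : ∀ i, i + 1 < H.n → ¬(i < a ∨ b < i + 1) := fun i hi m => by
    obtain ⟨o1, o2, o3, o4⟩ := on_dd hi
    obtain ⟨s1, s2⟩ := H.fr.bd i (by omega)
    by_cases c : f d ∈ H.S
    · exact (mem_filter.1 (key ((mem _).2 (iff_of_true c s1)))).2
        (m.elim (fun m => ⟨i, o1, Or.inl m⟩) fun m => ⟨i + 1, o2, Or.inr m⟩)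
    · exact (mem_filter.1 (key ((mem _).2 (iff_of_false c s2)))).2
        (m.elim (fun m => ⟨i, o3, Or.inl m⟩) fun m => ⟨i + 1, o4, Or.inr m⟩)
  have f1 := fin b
  have f2 := fin (a - 1)
  exact nb_bd (Or.inr (Or.inr (Or.inl (by omega)))) ha hb k1 k2 hc

/-- The greatest position of a face below a bound, and the least one above a bound. -/
lemma exists_max (h : H.On g z) (k : z ≤ b) :
    ∃ x, H.On g x ∧ z ≤ x ∧ x ≤ b ∧ ∀ y, H.On g y → y ≤ b → y ≤ x :=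
  ⟨Nat.findGreatest (H.On g) b, Nat.findGreatest_spec k h, Nat.le_findGreatest k h,
    Nat.findGreatest_le b, fun _ c m => Nat.le_findGreatest m c⟩

lemma exists_min (h : H.On g z) (k : a ≤ z) :
    ∃ x, H.On g x ∧ a ≤ x ∧ x ≤ z ∧ ∀ y, H.On g y → a ≤ y → x ≤ y := by
  have ex : ∃ x, H.On g x ∧ a ≤ x := ⟨z, h, k⟩
  exact ⟨Nat.find ex, (Nat.find_spec ex).1, (Nat.find_spec ex).2, Nat.find_min' ex ⟨h, k⟩,
    fun y c m => Nat.find_min' ex ⟨c, m⟩⟩

/-- A wide face that meets the interval has an edge that leaves the interval. -/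
lemma leave (hw : H.Wide a b g) (h : H.On g z) (k1 : a ≤ z) (k2 : z ≤ b) :
    ∃ x y, H.On g x ∧ H.On g y ∧ H.Ed x y ∧ a ≤ x ∧ x ≤ b ∧ (y < a ∨ b < y) := by
  obtain ⟨w, c, m | m⟩ := hw
  · obtain ⟨x, x1, x2, x3, x4⟩ := exists_min h k1
    obtain ⟨y, y1, y2, y3, y4⟩ := exists_max (b := a - 1) c (by omega)
    refine ⟨x, y, x1, y1, (cons_ed y1 x1 (by omega) fun t t1 t2 => ?_).symm, x2, by omega,
      Or.inl (by omega)⟩
    have := x4 t t1
    have := y4 t t1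
    omega
  · obtain ⟨x, x1, x2, x3, x4⟩ := exists_max h k2
    obtain ⟨y, y1, y2, y3, y4⟩ := exists_min (a := b + 1) c (by omega)
    refine ⟨x, y, x1, y1, cons_ed x1 y1 (by omega) fun t t1 t2 => ?_, by omega, x3,
      Or.inr (by omega)⟩
    have := x4 t t1
    have := y4 t t1
    omega

end HC

end PM

end Pool.Agent.MP_42ec7b_co

end MrgPart7

-- ======== part 8: formerly Pool.Agent.MP_42ec7b_co.A.HSeg
section MrgPart8

/-!
Paths between positions.
-/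

set_option autoImplicit false

open Finset

namespace Pool.Agent.MP_42ec7b_co

open Classical

namespace PM

variable {D : Type} [PM D]

namespace HC

variable {H : HC D} {g t : F D} {a b c : ℕ} {Q Q' X X' : ℕ → Prop} {Y Y' : F D → Prop}

lemma hseg_one {d : D} (ha : a < H.n) (hb : b < H.n) (k1 : v d = H.P a) (k2 : v (α d) = H.P b) :
    Pth {d, α d} (H.P a) (H.P b) ∧
      ∀ e ∈ ({d, α d} : Finset D), ∀ i < H.n, v e = H.P i → i = a ∨ i = b := by
  refine ⟨k1 ▸ k2 ▸ Pth.edge d, fun e he i hi k => ?_⟩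
  rcases mem_insert.1 he with m | m
  · exact Or.inl (inj hi ha (by rw [← k, m, k1]))
  · exact Or.inr (inj hi hb (by rw [← k, mem_singleton.1 m, k2]))

lemma hseg_cat {Z Z' : Finset D} (ha : a < H.n) (hc : c < H.n) (qa : Q a) (qc : Q' c)
    (p : Pth Z (H.P a) (H.P b)) (p' : Pth Z' (H.P b) (H.P c))
    (q : ∀ d ∈ Z, ∀ i < H.n, v d = H.P i → Q i) (q' : ∀ d ∈ Z', ∀ i < H.n, v d = H.P i → Q' i)
    (k : ∀ z, Q z → Q' z → z = b) : Pth (Z ∪ Z') (H.P a) (H.P c) := by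
  refine p.cat p' fun u h1 h2 => ?_
  obtain ⟨i, hi, rfl⟩ := surj (H := H) u
  have m1 : Q i := by
    rcases h1 with m | ⟨d, m, m'⟩
    · rwa [inj hi ha m]
    · exact q d m i hi m'
  have m2 : Q' i := by
    rcases h2 with m | ⟨d, m, m'⟩
    · rwa [inj hi hc m]
    · exact q' d m i hi m'
  rw [k i m1 m2]

lemma Seg.refl (h : a < H.n) : H.Seg a a (· = a) (fun _ => False) fun _ => False :=
  ⟨h, h, rfl, rfl, ∅, Pth.refl _, fun _ m => absurd m (notMem_empty _), fun _ => False.elim,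
    fun _ => False.elim⟩

lemma Seg.symm (h : H.Seg a b Q X Y) : H.Seg b a Q X Y := by
  obtain ⟨h1, h2, h3, h4, Z, p, r⟩ := h
  exact ⟨h2, h1, h4, h3, Z, p.symm, r⟩

lemma Seg.mono (h : H.Seg a b Q X Y) (h1 : ∀ z, Q z → Q' z) (h2 : ∀ z, X' z → X z)
    (h3 : ∀ s, Y' s → Y s) : H.Seg a b Q' X' Y' := by
  obtain ⟨m1, m2, m3, m4, Z, p, q, x, y⟩ := h
  exact ⟨m1, m2, h1 _ m3, h1 _ m4, Z, p, fun d m i hi k => h1 _ (q d m i hi k),
    fun i m => x i (h2 i m), fun s m => y s (h3 s m)⟩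

lemma Seg.cat (h : H.Seg a b Q X Y) (h' : H.Seg b c Q' X' Y') (k : ∀ z, Q z → Q' z → z = b) :
    H.Seg a c (fun z => Q z ∨ Q' z) (fun z => X z ∨ X' z) fun s => Y s ∨ Y' s := by
  obtain ⟨m1, -, m3, -, Z, p, q, x, y⟩ := h
  obtain ⟨-, n2, -, n4, Z', p', q', x', y'⟩ := h'
  refine ⟨m1, n2, Or.inl m3, Or.inr n4, Z ∪ Z', hseg_cat m1 n2 m3 n4 p p' q q' k,
    fun d m i hi e => ?_, fun i m => ?_, fun s m => ?_⟩
  · exact (mem_union.1 m).imp (fun m => q d m i hi e) fun m => q' d m i hi e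
  · rcases m with m | m
    · exact ⟨(x i m).1, mem_union_left _ (x i m).2⟩
    · exact ⟨(x' i m).1, mem_union_right _ (x' i m).2⟩
  · rcases m with m | m
    · obtain ⟨e, d, u, d', u', r⟩ := y s m
      exact ⟨e, d, mem_union_left _ u, d', mem_union_left _ u', r⟩
    · obtain ⟨e, d, u, d', u', r⟩ := y' s m
      exact ⟨e, d, mem_union_right _ u, d', mem_union_right _ u', r⟩

lemma Seg.edge (h : H.Ed a b) :
    H.Seg a b (fun z => z = a ∨ z = b) (fun _ => False) fun _ => False := by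
  obtain ⟨ha, hb, d, k1, k2⟩ := h
  obtain ⟨p, q⟩ := hseg_one ha hb k1 k2
  exact ⟨ha, hb, Or.inl rfl, Or.inr rfl, _, p, q, fun _ => False.elim, fun _ => False.elim⟩

lemma hseg_step (hb : b + 1 < H.n) :
    H.Seg b (b + 1) (fun z => z = b ∨ z = b + 1) (· = b) fun _ => False := by
  have h0 : b < H.n := by omega
  rcases H.fr.ends b h0 with ⟨k1, k2⟩ | ⟨k1, k2⟩
  · obtain ⟨p, q⟩ := hseg_one h0 hb k1 k2
    exact ⟨h0, hb, Or.inl rfl, Or.inr rfl, _, p, q,
      fun i m => by rw [m]; exact ⟨h0, mem_insert_self _ _⟩, fun _ => False.elim⟩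
  · obtain ⟨p, q⟩ := hseg_one hb h0 k1 k2
    exact ⟨h0, hb, Or.inl rfl, Or.inr rfl, _, p.symm, fun d m i hi e => (q d m i hi e).symm,
      fun i m => by rw [m]; exact ⟨h0, mem_insert_self _ _⟩, fun _ => False.elim⟩

lemma Seg.arc (h : a ≤ b) (hb : b < H.n) :
    H.Seg a b (fun z => a ≤ z ∧ z ≤ b) (fun z => a ≤ z ∧ z < b) fun _ => False := by
  induction b, h using Nat.le_induction with
  | base =>
    exact (Seg.refl hb).mono (fun z m => by omega) (fun z m => by omega) fun _ => False.elim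
  | succ b h ih =>
    exact ((ih (by omega)).cat (hseg_step hb) fun z m m' => by omega).mono
      (fun z m => by omega) (fun z m => by omega) fun _ => False.elim

lemma hseg_two {d : D} (h : sz t = 3) (ha : a < H.n) (hb : b < H.n) (hc : c < H.n) (k : f d = t)
    (k1 : v d = H.P a) (k2 : v (φ d) = H.P b) (k3 : v (φ (φ d)) = H.P c)
    (n2 : a ≠ c) : H.Seg a c (fun z => z = a ∨ z = b ∨ z = c) (fun _ => False) (· = t) := by
  obtain ⟨p, q⟩ := hseg_one ha hb k1 ((vφ d).symm.trans k2)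
  obtain ⟨p', q'⟩ := hseg_one hb hc k2 ((vφ _).symm.trans k3)
  refine ⟨ha, hc, Or.inl rfl, Or.inr (Or.inr rfl), _,
    hseg_cat (Q := fun z => z = a ∨ z = b) (Q' := fun z => z = b ∨ z = c) ha hc (Or.inl rfl)
      (Or.inr rfl) p p' q q' fun z m m' => by omega,
    fun e m i hi u => ?_, fun _ => False.elim, fun s m => ?_⟩
  · rcases mem_union.1 m with m | m
    · have := q e m i hi u
      omega
    · exact Or.inr (q' e m i hi u)
  · rw [m]
    exact ⟨h, d, mem_union_left _ (mem_insert_self _ _), φ d,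
      mem_union_right _ (mem_insert_self _ _), (φne d).symm, k, (fφ d).trans k⟩

lemma Seg.ear (h : sz t = 3) (h1 : H.On t a) (h2 : H.On t b) (h3 : H.On t c) (n1 : a ≠ b)
    (n2 : a ≠ c) (n3 : b ≠ c) :
    H.Seg a c (fun z => z = a ∨ z = b ∨ z = c) (fun _ => False) (· = t) := by
  obtain ⟨x, x1, x2⟩ := h1.dart
  obtain ⟨y, y1, y2⟩ := h2.dart
  obtain ⟨z, z1, z2⟩ := h3.dart
  obtain ⟨e, u⟩ := tri3 (e := x) (by rwa [x1])
  have m1 : y ≠ x := fun k => n1 (inj h1.lt h2.lt (by rw [← x2, ← y2, k]))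
  have m2 : z ≠ x := fun k => n2 (inj h1.lt h3.lt (by rw [← x2, ← z2, k]))
  have m3 : z ≠ y := fun k => n3 (inj h2.lt h3.lt (by rw [← y2, ← z2, k]))
  rcases (u y (y1.trans x1.symm)).resolve_left m1 with k | k <;>
    rcases (u z (z1.trans x1.symm)).resolve_left m2 with k' | k'
  · exact absurd (k'.trans k.symm) m3
  · exact hseg_two h h1.lt h2.lt h3.lt x1 x2 (k ▸ y2) (k' ▸ z2) n2
  · refine (hseg_two (d := z) h h3.lt h2.lt h1.lt z1 z2 ?_ ?_ n2.symm).symm.mono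
      (fun z m => by omega) (fun _ => id) fun _ => id
    · rw [k', ← k, y2]
    · rw [k', e, x2]
  · exact absurd (k'.trans k.symm) m3

lemma Seg.face (h1 : H.On g a) (h2 : H.On g b) (h : a ≤ b) :
    H.Seg a b (fun z => a ≤ z ∧ z ≤ b ∧ H.On g z) (fun _ => False) fun _ => False := by
  induction e : b - a using Nat.strong_induction_on generalizing a with | _ m ih => ?_
  rcases h.eq_or_lt with k | k
  · subst k
    exact (Seg.refl h1.lt).mono (fun z m => by rw [m]; exact ⟨le_rfl, le_rfl, h1⟩) (fun _ => id)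
      fun _ => id
  · obtain ⟨x, x1, x2, x3, x4⟩ := exists_min (a := a + 1) h2 k
    have ed : H.Ed a x := cons_ed h1 x1 x2 fun y m m' => by
      have := x4 y m m'.1
      omega
    refine ((Seg.edge ed).cat (ih (b - x) (by omega) x1 x3 rfl) fun z m m' => by omega).mono
      (fun z m => ?_) (fun _ => False.elim) fun _ => False.elim
    rcases m with (m | m) | m
    · rw [m]
      exact ⟨le_rfl, h, h1⟩
    · rw [m]
      exact ⟨by omega, x3, x1⟩
    · exact ⟨by omega, m.2⟩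

end HC

end PM

end Pool.Agent.MP_42ec7b_co

end MrgPart8

-- marker of a merged file
example : 731051 + 132416 = 731051 + 132416 := rfl
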