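import Pool.Agent.MP_42ec7b_co.A.RCh
import Pool.Agent.MP_42ec7b_co.A.Bridge

-- ======== part 0: formerly Pool.Agent.MP_42ec7b_co.A.RGood1
section MrgPart0

/-!
Local tools for discs without cheap moves: ends of the interval of corners, chains, counts.
-/

set_option autoImplicit false

open Finset

namespace Pool.Agent.MP_42ec7b_co

open Classical

namespace PM

namespace GoodRow

variable {D : Type} [PM D] {A U T J W G : Finset (F D)} {g g' x z : F D} {u : V D}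
  {L : ℕ} {ch : ℕ → F D}

/-- `g` is an end of the interval of corners of `A` at `u`. -/
def End (A : Finset (F D)) (g : F D) (u : V D) : Prop :=
  g ∈ A ∧ ∃ c, v c = u ∧ f c = g ∧ (f (ρ c) ∉ A ∨ f (ρ (ρ (ρ c))) ∉ A)

lemma End.tch (h : End A g u) : Tch {g} u := by
  obtain ⟨-, c, h1, h2, -⟩ := h
  exact ⟨c, h1, mem_singleton.2 h2⟩

lemma End.expo (h4 : ∀ d : D, ρ (ρ (ρ (ρ d))) = d) (h : End A g u) : Expo A g := by
  obtain ⟨h0, c, -, h2, h3 | h3⟩ := h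
  · exact ⟨h0, ad_ρ (mem_singleton.2 h2) (mem_compl.2 h3)⟩
  · exact ⟨h0, (ad_ρ (mem_compl.2 h3) (by rw [h4]; exact mem_singleton.2 h2)).symm⟩

lemma not_opp (hA : Disc A) {c : D} (h1 : f c ∈ A) (h2 : f (ρ c) ∉ A) (h3 : f (ρ (ρ c)) ∈ A)
    (h4 : f (ρ (ρ (ρ c))) ∉ A) : False :=
  ρρne c (uniq hA ⟨h3, by rwa [← fρ]⟩ ⟨h1, by rwa [← fρ]⟩ (by simp))

lemma two_ends (h4 : ∀ d : D, ρ (ρ (ρ (ρ d))) = d) (hA : Disc A) (h : BV A u) :
    ∃ g g', End A g u ∧ End A g' u ∧ (g = g' → Plain A g u) := by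
  obtain ⟨c, c1, c2, c3⟩ := h.out
  obtain ⟨d, d1, d2, d3⟩ := (bv_compl.2 h).out
  rw [mem_compl] at d2
  rw [mem_compl, not_not, ← fρ] at d3
  rw [← fρ] at c3
  refine ⟨f c, f (ρ d), ⟨c2, c, c1, rfl, Or.inl c3⟩,
    ⟨d3, ρ d, by rw [vρ, d1], rfl, Or.inr (by rwa [h4])⟩, fun k => ⟨c2, ⟨c, c1, mem_singleton_self _⟩, ?_⟩⟩
  obtain rfl : c = ρ d := eq_of_fv k (by rw [vρ, c1, d1])
  rintro x hx ⟨e, e1, e2⟩
  obtain rfl := mem_singleton.1 e2
  rcases four h4 (e1.trans c1.symm) with rfl | rfl | rfl | rfl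
  · rfl
  · exact absurd hx c3
  · exact (not_opp hA c2 c3 hx (by rwa [h4])).elim
  · rw [h4] at hx
    exact absurd hx d2

lemma end_out (h4 : ∀ d : D, ρ (ρ (ρ (ρ d))) = d) (hg : End A g u) (hx : x ∉ A)
    (ht : Tch {x} u) : Ad {x} {g} ∨ ∃ z1 z2, z1 ∉ A ∧ Ad {x} {z1} ∧ Ad {z1} {g} ∧ Ad {x} {z2} ∧
      Ad {z2} {g} ∧ Diag z1 z2 u ∧ Tch {z2} u := by
  obtain ⟨h0, c, rfl, rfl, h3⟩ := hg
  obtain ⟨e, e1, e2⟩ := ht
  obtain rfl := mem_singleton.1 e2
  have m := fun c : D => ad_ρ (mem_singleton_self (f c)) (mem_singleton_self (f (ρ c)))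
  have m3 := m (ρ (ρ (ρ c)))
  rw [h4] at m3
  rcases four h4 e1 with rfl | rfl | rfl | rfl
  · exact absurd h0 hx
  · exact Or.inl (m c).symm
  · have dg : Diag (f (ρ c)) (f (ρ (ρ (ρ c)))) (v c) :=
      ⟨ρ c, ρ (ρ (ρ c)), by simp, by simp, rfl, rfl, (ρρne _).symm, (ρne _).symm,
        by rw [h4]; exact (ρne _).symm⟩
    rcases h3 with h3 | h3
    · exact Or.inr ⟨_, _, h3, (m _).symm, (m c).symm, m _, m3, dg,
        ρ (ρ (ρ c)), by simp, mem_singleton_self _⟩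
    · exact Or.inr ⟨_, _, h3, m _, m3, (m _).symm, (m c).symm, dg.symm,
        ρ c, by simp, mem_singleton_self _⟩
  · exact Or.inl m3

lemma not_ad_self : ¬Ad {x} {x} := by
  rintro ⟨d, h1, h2⟩
  exact s0 d ((mem_singleton.1 h2).trans (mem_singleton.1 h1).symm)

/-- The neighbours of a face of a chain. -/
lemma nb (h : Chn A U T L ch) {j : ℕ} (h1 : j < L) (h2 : 0 < j) (hz : z ∈ A)
    (ha : Ad {z} {ch j}) : z ∈ T ∧ j + 1 = L ∨ ∃ t < L, ch t = z ∧ (t + 1 = j ∨ j + 1 = t) := by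
  rcases (h.part z).1 hz with k | k | ⟨t, k, rfl⟩
  · exact absurd (ha.mono (singleton_subset_iff.2 k) Subset.rfl) (h.sU j h1 h2)
  · refine Or.inl ⟨k, by_contra fun m => h.sT j (by omega)
      (ha.symm.mono Subset.rfl (singleton_subset_iff.2 k))⟩
  · refine Or.inr ⟨t, k, rfl, by_contra fun m => ?_⟩
    rcases lt_trichotomy t j with a | rfl | a
    · exact h.sep t j (by omega) h1 ha
    · exact not_ad_self ha
    · exact h.sep j t (by omega) k ha.symm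

lemma nb2 (h : Chn A U T L ch) {j : ℕ} (h1 : j + 2 < L) (h2 : 2 ≤ j) (hz : z ∈ A) (hg : g ∈ A)
    (ha : Ad {z} {ch j}) (hb : Ad {g} {z}) : ∃ t < L, ch t = g ∧ j ≤ t + 2 ∧ t ≤ j + 2 := by
  rcases nb h (by omega) (by omega) hz ha with ⟨-, k⟩ | ⟨t, k1, rfl, k2⟩
  · omega
  rcases nb h k1 (by omega) hg hb with ⟨-, k⟩ | ⟨t', k3, k4, k5⟩
  · omega
  exact ⟨t', k3, k4, by omega, by omega⟩

/-- An inner face of a chain meets only close faces of the chain. -/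
lemma meet_idx (h4 : ∀ d : D, ρ (ρ (ρ (ρ d))) = d) (hA : Disc A) (h : Chn A U T L ch) {j : ℕ}
    (h1 : j + 2 < L) (h2 : 2 ≤ j) (hg : g ∈ A) (hm : Meet {ch j} {g}) :
    ∃ t < L, ch t = g ∧ j ≤ t + 2 ∧ t ≤ j + 2 := by
  obtain ⟨u, ⟨c, rfl, c2⟩, e, e1, e2⟩ := hm
  have c3 := mem_singleton.1 c2
  obtain rfl := mem_singleton.1 e2
  have m := fun c : D => ad_ρ (mem_singleton_self (f c)) (mem_singleton_self (f (ρ c)))
  have m0 := (m c).symm
  have m3 := m (ρ (ρ (ρ c)))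
  rw [h4] at m3
  rw [c3] at m0 m3
  have one : Ad {f e} {ch j} → ∃ t < L, ch t = f e ∧ j ≤ t + 2 ∧ t ≤ j + 2 := fun k => by
    rcases nb h (by omega) (by omega) hg k with ⟨-, k⟩ | ⟨t, k1, k2, k3⟩
    · omega
    exact ⟨t, k1, k2, by omega, by omega⟩
  rcases four h4 e1 with rfl | rfl | rfl | rfl
  · exact ⟨j, by omega, c3.symm, by omega, by omega⟩
  · exact one m0
  · by_cases a : f (ρ c) ∈ A
    · exact nb2 h h1 h2 a hg m0 (m _).symm
    by_cases b : f (ρ (ρ (ρ c))) ∈ A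
    · exact nb2 h h1 h2 b hg m3 (m _)
    exact (not_opp hA (c3 ▸ (h.part _).2 (Or.inr (Or.inr ⟨j, by omega, rfl⟩))) a hg b).elim
  · exact one m3

lemma idx_card (h4 : ∀ d : D, ρ (ρ (ρ (ρ d))) = d) (hA : Disc A) (h : Chn A U T L ch)
    (hg : g ∈ A) : #{j ∈ range L | Meet {ch j} {g}} ≤ 9 := by
  obtain ⟨t0, ht⟩ : ∃ t0, ∀ t < L, ch t = g → t = t0 := by
    by_cases k : ∃ t < L, ch t = g
    · obtain ⟨t, k1, k2⟩ := k
      exact ⟨t, fun t' m1 m2 => h.inj _ m1 _ k1 (m2.trans k2.symm)⟩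
    · exact ⟨0, fun t m1 m2 => absurd ⟨t, m1, m2⟩ k⟩
  have : {j ∈ range L | Meet {ch j} {g}} ⊆ {0, 1, L - 2, L - 1} ∪ Icc (t0 - 2) (t0 + 2) := by
    intro j hj
    rw [mem_filter, mem_range] at hj
    simp only [mem_union, mem_insert, mem_singleton, mem_Icc]
    by_cases a : j + 2 < L ∧ 2 ≤ j
    · obtain ⟨t, k1, k2, k3, k4⟩ := meet_idx h4 hA h a.1 a.2 hg hj.2
      obtain rfl := ht t k1 k2
      omega
    · omega
  have k1 := (card_le_card this).trans (card_union_le _ _)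
  have k2 : #({0, 1, L - 2, L - 1} : Finset ℕ) ≤ 4 := card_le_four
  rw [Nat.card_Icc] at k1
  omega

lemma two_le (hne : g ≠ g') : #{u | Tch {g} u ∧ Tch {g'} u} ≤ 2 := by
  by_contra k
  obtain ⟨a, b, c, ha, hb, hc, h1, h2, h3⟩ := two_lt_card_iff.1 (not_le.1 k)
  simp only [mem_filter, mem_univ, true_and] at ha hb hc
  exact h3 (three_v hne h1 h2 ha.1 ha.2 hb.1 hb.2 hc.1 hc.2)

lemma sh_cnt (g : F D) (G : Finset (F D)) :
    #{u | Tch {g} u ∧ ∃ g' ∈ G, g' ≠ g ∧ Tch {g'} u} ≤ 2 * #G := by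
  have : ({u | Tch {g} u ∧ ∃ g' ∈ G, g' ≠ g ∧ Tch {g'} u} : Finset (V D)) ⊆
      (G.erase g).biUnion fun g' => {u | Tch {g} u ∧ Tch {g'} u} := by
    intro u hu
    simp only [mem_filter, mem_univ, true_and, mem_biUnion, mem_erase] at hu ⊢
    obtain ⟨h1, g', h2, h3, h4⟩ := hu
    exact ⟨g', ⟨h3, h2⟩, h1, h4⟩
  refine (card_le_card this).trans ((card_biUnion_le_card_mul _ _ 2 fun g' hg =>
    two_le (ne_of_mem_erase hg).symm).trans ?_)
  have := card_erase_le (s := G) (a := g)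
  omega

lemma pair_cnt (W : Finset (F D)) :
    #{u | ∃ g ∈ W, Tch {g} u ∧ ∃ g' ∈ W, g' ≠ g ∧ Tch {g'} u} ≤ #W * (2 * #W) := by
  have : ({u | ∃ g ∈ W, Tch {g} u ∧ ∃ g' ∈ W, g' ≠ g ∧ Tch {g'} u} : Finset (V D)) ⊆
      W.biUnion fun g => {u | Tch {g} u ∧ ∃ g' ∈ W, g' ≠ g ∧ Tch {g'} u} := by
    intro u hu
    simpa only [mem_filter, mem_univ, true_and, mem_biUnion] using hu
  exact (card_le_card this).trans (card_biUnion_le_card_mul _ _ _ fun g _ => sh_cnt g W)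

lemma card_le_wt (S : Finset (F D)) : #S ≤ wt S := by
  rw [wt_sum, card_eq_sum_ones]
  exact sum_le_sum fun g _ => le_trans (by omega) (three_le_sz g)

lemma wt_le_mul (S : Finset (F D)) (k : ℕ) (h : ∀ x ∈ S, sz x ≤ k) : wt S ≤ #S * k := by
  rw [wt_sum]
  exact sum_le_card_nsmul _ _ _ h

lemma wt_biUnion {ι : Type} (I : Finset ι) (Y : ι → Finset (F D)) (k : ℕ)
    (h : ∀ i ∈ I, wt (Y i) ≤ k) : wt (I.biUnion Y) ≤ #I * k := by
  induction I using Finset.induction_on with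
  | empty => simp [wt]
  | insert a I ha ih =>
    rw [biUnion_insert, card_insert_of_notMem ha, add_mul, one_mul]
    have h1 := h a (mem_insert_self _ _)
    have h2 := ih fun i hi => h i (mem_insert_of_mem hi)
    have h3 := wt_union_le (S := Y a) (T := I.biUnion Y)
    omega

/-- The number of vertices that are not plain. -/
lemma jn_le (h4 : ∀ d : D, ρ (ρ (ρ (ρ d))) = d) (hA : Disc A) {S c H : ℕ} {P Lg Br : Finset (F D)}
    {h : F D} {U T : ℕ → Finset (F D)} {L : ℕ → ℕ} {ch : ℕ → ℕ → F D} {o : ℕ → F D}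
    (hc : Cover S A P h c Br U T L ch o) (hL : #Lg ≤ 4) (hH : #(hvy S A) ≤ H) (hg : g ∈ A) :
    jn A g ≤ 2 * (wt (P \ Lg) + 4 + H + 10 * c) := by
  set G := (P \ Lg) ∪ Lg ∪ hvy S A ∪ Br ∪
    (range c).biUnion fun i => image (ch i) {j ∈ range (L i) | Meet {ch i j} {g}} with hG
  have h1 : #G ≤ wt (P \ Lg) + 4 + H + 10 * c := by
    have a1 : #((range c).biUnion fun i => image (ch i) {j ∈ range (L i) | Meet {ch i j} {g}}) ≤
        #(range c) * 9 := card_biUnion_le_card_mul _ _ _ fun i hi => card_image_le.trans (by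
      rcases Nat.eq_zero_or_pos (L i) with k | k
      · simp [k]
      · exact idx_card h4 hA (hc.chn i (mem_range.1 hi) k).1 hg)
    have a2 := card_le_wt (P \ Lg)
    have a3 := hc.cB
    rw [card_range] at a1
    have a4 := card_union_le (P \ Lg) Lg
    have a5 := card_union_le (P \ Lg ∪ Lg) (hvy S A)
    have a6 := card_union_le (P \ Lg ∪ Lg ∪ hvy S A) Br
    have a7 : #G ≤ _ := card_union_le _ _
    omega
  refine le_trans (card_le_card fun u hu => ?_) ((sh_cnt g G).trans (by omega))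
  simp only [mem_filter, mem_univ, true_and] at hu ⊢
  obtain ⟨u1, u2, u3⟩ := hu
  obtain ⟨g1, g2, k1, k2, k3⟩ := two_ends h4 hA ⟨u1.mono (singleton_subset_iff.2 hg), u2⟩
  obtain ⟨g', k4, k5⟩ : ∃ g', End A g' u ∧ g' ≠ g := by
    by_contra k
    push Not at k
    exact u3 (k g1 k1 ▸ k3 ((k g1 k1).trans (k g2 k2).symm))
  refine ⟨u1, g', ?_, k5, k4.tch⟩
  simp only [hG, mem_union, mem_sdiff, mem_biUnion, mem_image, mem_filter, mem_range, hvy]
  by_cases a : g' ∈ P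
  · tauto
  by_cases b : S ≤ sz g'
  · have := k4.1
    tauto
  rcases hc.cov g' (k4.expo h4) a (not_le.1 b) with m | ⟨i, m1, j, m2, rfl⟩
  · tauto
  · exact Or.inr ⟨i, m1, j, ⟨m2, u, k4.tch, u1⟩, rfl⟩

/-- A face of a ball lies on a short path from the centre. -/
lemma ball_path {k : ℕ} (hx : x ∈ ball U J k) :
    ∃ Y ⊆ U, Conn Y ∧ x ∈ Y ∧ #Y ≤ k + 1 ∧ ∃ j ∈ J, j ∈ Y := by
  induction k generalizing x with
  | zero =>
    obtain ⟨h1, h2⟩ := mem_inter.1 hx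
    exact ⟨{x}, singleton_subset_iff.2 h2, conn_single x, mem_singleton_self x, by simp, x, h1,
      mem_singleton_self x⟩
  | succ k ih =>
    rcases mem_union.1 hx with h | h
    · obtain ⟨Y, h1, h2, h3, h4, h5⟩ := ih h
      exact ⟨Y, h1, h2, h3, by omega, h5⟩
    · obtain ⟨h0, d, d1, d2⟩ := mem_filter.1 h
      obtain rfl := mem_singleton.1 d1
      obtain ⟨Y, h1, h2, h3, h4, j, h5, h6⟩ := ih d2
      exact ⟨insert (f d) Y, insert_subset h0 h1, conn_insert h2 h3, mem_insert_self _ _,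
        (card_insert_le _ _).trans (by omega), j, h5, mem_insert_of_mem h6⟩

lemma pre_mono (ch : ℕ → F D) {i j : ℕ} (h : i ≤ j) : pre ch i ≤ pre ch j :=
  sum_le_sum_of_subset (range_mono h)

/-- An initial part of a chain has at most three faces that are not light. -/
lemma seg (ch : ℕ → F D) {m s N : ℕ} (h : pre ch (m - 3) < N) (hs : N ≤ s) :
    #(big s (image ch (range m))) ≤ 3 ∧ wt (lit s (image ch (range m))) ≤ N + 3 * s := by
  have c3 : #(image ch (Ico (m - 3) m)) ≤ 3 := card_image_le.trans (by rw [Nat.card_Ico]; omega)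
  have w1 : wt (image ch (range (m - 3))) ≤ pre ch (m - 3) := by
    rw [wt_sum]
    exact sum_image_le_of_nonneg fun _ _ => Nat.zero_le _
  constructor
  · refine le_trans (card_le_card fun x hx => ?_) c3
    obtain ⟨h1, h2⟩ := mem_filter.1 hx
    obtain ⟨t, h3, rfl⟩ := mem_image.1 h1
    refine mem_image_of_mem _ (mem_Ico.2 ⟨by_contra fun k => ?_, mem_range.1 h3⟩)
    have : sz (ch t) ≤ pre ch (m - 3) :=
      single_le_sum (f := fun i => sz (ch i)) (fun _ _ => Nat.zero_le _) (mem_range.2 (not_le.1 k))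
    omega
  · have w2 := wt_le_mul (lit s (image ch (Ico (m - 3) m))) s fun x hx => (mem_filter.1 hx).2
    have w3 : #(lit s (image ch (Ico (m - 3) m))) * s ≤ 3 * s :=
      Nat.mul_le_mul_right _ ((card_filter_le _ _).trans c3)
    have w4 : lit s (image ch (range m)) ⊆
        image ch (range (m - 3)) ∪ lit s (image ch (Ico (m - 3) m)) := fun x hx => by
      obtain ⟨h1, h2⟩ := mem_filter.1 hx
      obtain ⟨t, h3, rfl⟩ := mem_image.1 h1
      by_cases k : t < m - 3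
      · exact mem_union_left _ (mem_image_of_mem _ (mem_range.2 k))
      · exact mem_union_right _ (mem_filter.2 ⟨mem_image_of_mem _
          (mem_Ico.2 ⟨not_lt.1 k, mem_range.1 h3⟩), h2⟩)
    have w5 := (wt_mono w4).trans wt_union_le
    omega

lemma conn_seg (h : Chn A U T L ch) {o : F D} (ho : Ad {o} {ch 0}) {m : ℕ} (hm : m ≤ L) :
    Conn (insert o (image ch (range m))) := by
  induction m with
  | zero => simpa using conn_single o
  | succ m ih =>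
    rw [range_add_one, image_insert, insert_comm, insert_eq]
    refine conn_union (conn_single _) (ih (by omega)) (Or.inl ?_)
    rcases m with _ | m
    · exact ho.symm.mono Subset.rfl (singleton_subset_iff.2 (mem_insert_self _ _))
    · exact (h.adj m hm).symm.mono Subset.rfl (singleton_subset_iff.2
        (mem_insert_of_mem (mem_image_of_mem _ (mem_range.2 (by omega)))))

/-- A face near the start of a chain is linked to the heavy face at the start. -/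
lemma link (h : Chn A U T L ch) {o : F D} (ho : Ad {o} {ch 0}) {s S N k j : ℕ} (hS : s < S)
    (h1 : S ≤ sz o) (h2 : ∀ t < L, sz (ch t) < S) {Z : Finset (F D)} (h3 : o ∈ Z)
    (h5 : ∀ t < L, ch t ∈ Z) (hj : j < L) (hp : pre ch (j - 2) < N) (hN : N ≤ k) (hk : k ≤ s) :
    Link s S (3 * s + k) Z (ch j) := by
  obtain ⟨a1, a2⟩ := seg ch (m := j + 1) (s := s) (N := N) hp (hN.trans hk)
  refine ⟨insert o (image ch (range (j + 1))), insert o (big s (image ch (range (j + 1)))),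
    insert_subset h3 (image_subset_iff.2 fun t ht => h5 t (by have := mem_range.1 ht; omega)),
    conn_seg h ho hj, mem_insert_of_mem (mem_image_of_mem _ (self_mem_range_succ j)),
    insert_subset_insert _ (filter_subset _ _), (card_insert_le _ _).trans (by omega), ?_,
    le_trans (wt_mono fun x hx => ?_) (a2.trans (by omega)), ?_⟩
  · intro x hx
    rcases mem_insert.1 hx with rfl | hx
    · omega
    · exact (mem_filter.1 hx).2
  · simp only [mem_sdiff, mem_insert, big, lit, mem_filter, not_or, not_and, not_lt] at hx ⊢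
    have := hx.1.resolve_left hx.2.1
    exact ⟨this, hx.2.2 this⟩
  · rw [card_eq_one]
    refine ⟨o, eq_singleton_iff_unique_mem.2 ⟨mem_filter.2 ⟨mem_insert_self _ _, h1⟩, ?_⟩⟩
    intro x hx
    obtain ⟨k1, k2⟩ := mem_filter.1 hx
    refine (mem_insert.1 k1).resolve_right fun k3 => ?_
    obtain ⟨t, k4, rfl⟩ := mem_image.1 k3
    have := h2 t (by have := mem_range.1 k4; omega)
    omega

/-- A maximal family of pairwise disjoint sets. -/
lemma exists_fam (Q : Finset (F D) → Prop) : ∃ I : Finset (Finset (F D)), (∀ Y ∈ I, Q Y) ∧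
    (∀ Y ∈ I, ∀ Y' ∈ I, Y ≠ Y' → Disjoint Y Y') ∧
      ∀ Y, Q Y → Y.Nonempty → ∃ Y' ∈ I, ¬Disjoint Y Y' := by
  obtain ⟨I, ⟨h1, h2⟩, hm⟩ := Set.exists_max_image {I : Finset (Finset (F D)) | (∀ Y ∈ I, Q Y) ∧
    ∀ Y ∈ I, ∀ Y' ∈ I, Y ≠ Y' → Disjoint Y Y'} card (Set.toFinite _) ⟨∅, by simp⟩
  refine ⟨I, h1, h2, fun Y k1 k2 => by_contra fun k => ?_⟩
  push Not at k
  have n : Y ∉ I := fun m => k2.ne_empty (disjoint_self.1 (k Y m))
  have := hm (insert Y I) ⟨(forall_mem_insert _ _ _).2 ⟨k1, h1⟩, fun Z hZ Z' hZ' hne => by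
    rcases mem_insert.1 hZ with rfl | a <;> rcases mem_insert.1 hZ' with rfl | b
    exacts [absurd rfl hne, k _ b, (k _ a).symm, h2 _ a _ b hne]⟩
  rw [card_insert_of_notMem n] at this
  omega

end GoodRow

end PM

end Pool.Agent.MP_42ec7b_co

end MrgPart0

-- ======== part 1: formerly Pool.Agent.MP_42ec7b_co.A.RGood
section MrgPart1

/-!
Discs without cheap moves: near a heavy face almost all outer faces see only plain vertices of walls.
-/

set_option autoImplicit false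

open Finset

namespace Pool.Agent.MP_42ec7b_co

open Classical

namespace PM

namespace GoodRow

variable {D : Type} [PM D] {A U T : Finset (F D)} {x : F D} {u : V D} {L : ℕ} {ch : ℕ → F D}

/-- An outer face at a vertex where a far face of a chain is an end. -/
lemma far (h4 : ∀ d : D, ρ (ρ (ρ (ρ d))) = d) (h : Chn A U T L ch) {m j N : ℕ} (hN : 0 < N)
    (hm : ∀ t, m ≤ t → t < L → N ≤ pre ch (t - 2)) (h1 : m ≤ j) (h2 : j < L)
    (hg : End A (ch j) u) (hx : x ∉ A) (ht : Tch {x} u) (X : Finset (F D)) :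
    (∃ k, N ≤ pre ch (k - 2) ∧ (k < L ∧ Ad {x} {ch k} ∨ k = L ∧ Ad {x} T)) ∨
      (∃ z, z ∉ A ∧ z ∉ X ∧ Ad {x} {z} ∧ Ad {z} {ch j}) ∨
      (∃ g ∈ X, ∃ g' ∈ X, Diag g g' u) ∨ j = m ∧ ∃ t < m, Tch {ch t} u := by
  have pj := hm j h1 h2
  rcases end_out h4 hg hx ht with k | ⟨z1, z2, k1, k2, k3, k4, k5, k6, k7⟩
  · exact Or.inl ⟨j, pj, Or.inl ⟨h2, k⟩⟩
  by_cases a : z1 ∈ X
  swap
  · exact Or.inr (Or.inl ⟨z1, k1, a, k2, k3⟩)
  by_cases b : z2 ∈ A
  · have j0 : 0 < j := Nat.pos_of_ne_zero fun e => by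
      rw [e] at pj
      simp only [pre, Nat.zero_sub, range_zero, sum_empty] at pj
      omega
    rcases nb h h2 j0 b k5 with ⟨m1, m2⟩ | ⟨t, m1, rfl, m2⟩
    · exact Or.inl ⟨L, pj.trans (pre_mono ch (by omega)), Or.inr ⟨rfl,
        k4.mono Subset.rfl (singleton_subset_iff.2 m1)⟩⟩
    · by_cases e : m ≤ t
      · exact Or.inl ⟨t, hm t e m1, Or.inl ⟨m1, k4⟩⟩
      · exact Or.inr (Or.inr (Or.inr ⟨by omega, t, not_le.1 e, k7⟩))
  by_cases e : z2 ∈ X
  · exact Or.inr (Or.inr (Or.inl ⟨z1, a, z2, e, k6⟩))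
  · exact Or.inr (Or.inl ⟨z2, b, e, k4, k5⟩)

/-- The number of near faces of a chain. -/
lemma exists_near (ch : ℕ → F D) (L : ℕ) {N : ℕ} (hN : 0 < N) : ∃ m ≤ L, pre ch (m - 3) < N ∧
    (∀ t < m, pre ch (t - 2) < N) ∧ ∀ t, m ≤ t → t < L → N ≤ pre ch (t - 2) := by
  have ex : ∃ j, L ≤ j ∨ N ≤ pre ch (j - 2) := ⟨L, Or.inl le_rfl⟩
  have lo : ∀ t < Nat.find ex, pre ch (t - 2) < N := fun t ht =>
    not_le.1 fun k => Nat.find_min ex ht (Or.inr k)
  refine ⟨Nat.find ex, Nat.find_min' ex (Or.inl le_rfl), ?_, lo, fun t h1 h2 =>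
    ((Nat.find_spec ex).resolve_left (by omega)).trans (pre_mono ch (by omega))⟩
  rcases Nat.eq_zero_or_pos (Nat.find ex) with k | k
  · rw [k]
    simpa [pre] using hN
  · exact lo (Nat.find ex - 1) (by omega)

/-- The geometric part: the exceptional set works. -/
lemma good_of (h4 : ∀ d : D, ρ (ρ (ρ (ρ d))) = d) (hA : Disc A) {K dep N c : ℕ}
    {R Wl E1 W2 FF Om : Finset (F D)} {h : F D} {U T : ℕ → Finset (F D)} {L m : ℕ → ℕ}
    {ch : ℕ → ℕ → F D} (hN : 0 < N) (hch : ∀ i < c, 0 < L i → Chn A (U i) (T i) (L i) (ch i))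
    (hm : ∀ i t, m i ≤ t → t < L i → N ≤ pre (ch i) (t - 2))
    (cov : ∀ g, Expo A g → g ∈ Wl ∨ g ∈ E1 ∨ ∃ i < c, ∃ j < L i, ch i j = g)
    (near : ∀ i < c, ∀ t < m i, ch i t ∈ Wl ∨ ch i t ∈ E1)
    (w1 : Wl ⊆ W2) (w2 : ∀ i < c, ch i (m i) ∈ W2)
    (o1 : ∀ x, K < sz x → x ∈ Om) (o2 : R ⊆ Om)
    (o3 : ∀ x u, Tch {x} u → Tch E1 u → x ∈ Om)
    (o4 : ∀ x u, Tch {x} u → ∀ g ∈ W2, Tch {g} u → ∀ g' ∈ W2, g' ≠ g → Tch {g'} u → x ∈ Om)
    (o5 : ∀ x u, Tch {x} u → ∀ g ∈ big K univ ∪ R, ∀ g' ∈ big K univ ∪ R, Diag g g' u → x ∈ Om)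
    (o6 : FF ⊆ Om) (o7 : ∀ x, Meet {x} FF → x ∈ Om)
    (mx : ∀ Y, Y ⊆ Aᶜ → Conn Y → Disjoint Y R → wt Y ≤ (dep + 2) * K → Ad Y {h} →
      ∀ i < c, 0 < L i → ∀ k, N ≤ pre (ch i) (k - 2) →
        (k < L i ∧ Ad Y {ch i k} ∨ k = L i ∧ Ad Y (T i)) → ¬Disjoint Y FF) :
    Good A R h K dep Om Wl := by
  intro x hx
  obtain ⟨Y, y1, y2, y3, y4, j0, y5, y6⟩ := ball_path hx
  have yA : Y ⊆ Aᶜ := y1.trans sdiff_subset
  have yO : ∀ z ∈ Y, z ∉ Om := fun z hz => (mem_sdiff.1 (y1 hz)).2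
  have yK : ∀ z ∈ Y, sz z ≤ K := fun z hz => not_lt.1 fun k => yO z hz (o1 z k)
  have yh : Ad Y {h} := (mem_filter.1 y5).2.mono (singleton_subset_iff.2 y6) Subset.rfl
  have xA : x ∉ A := mem_compl.1 (yA y3)
  have xO := yO x y3
  refine ⟨yK x y3, fun k => xO (o2 k), fun u u1 u2 => ?_⟩
  have nE : ∀ g ∈ E1, ¬Tch {g} u := fun g k1 k2 =>
    xO (o3 x u u1 (k2.mono (singleton_subset_iff.2 k1)))
  have wall : ∀ g, End A g u → g ∈ Wl := fun g hg => by
    rcases cov g (hg.expo h4) with k | k | ⟨i, hi, j, hj, rfl⟩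
    · exact k
    · exact absurd hg.tch (nE g k)
    by_cases e : j < m i
    · exact (near i hi j e).resolve_right fun k => nE _ k hg.tch
    have l0 : 0 < L i := by omega
    exfalso
    rcases far h4 (hch i hi l0) hN (hm i) (not_lt.1 e) hj hg xA u1 (big K univ ∪ R) with
      ⟨k, k1, k2⟩ | ⟨z, k1, k2, k3, k4⟩ | ⟨g, k1, g', k2, k3⟩ | ⟨rfl, t, k1, k2⟩
    · refine mx Y yA y2 (disjoint_left.2 fun z a b => yO z a (o2 b))
        ((wt_le_mul Y K yK).trans (Nat.mul_le_mul_right _ (by omega))) yh i hi l0 k k1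
        (k2.imp (And.imp_right fun a => a.mono (singleton_subset_iff.2 y3) Subset.rfl)
          (And.imp_right fun a => a.mono (singleton_subset_iff.2 y3) Subset.rfl))
        (disjoint_left.2 fun z a b => yO z a (o6 b))
    · simp only [mem_union, big, mem_filter, mem_univ, true_and, not_or, not_lt] at k2
      refine mx (insert z Y) (insert_subset (mem_compl.2 k1) yA) ?_
        (disjoint_insert_left.2 ⟨k2.2, disjoint_left.2 fun z a b => yO z a (o2 b)⟩)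
        ((wt_le_mul _ K ((forall_mem_insert _ _ _).2 ⟨k2.1, yK⟩)).trans
          (Nat.mul_le_mul_right _ ((card_insert_le _ _).trans (by omega))))
        (yh.mono (subset_insert _ _) Subset.rfl) i hi l0 j (hm i j (not_lt.1 e) hj)
        (Or.inl ⟨hj, k4.mono (singleton_subset_iff.2 (mem_insert_self _ _)) Subset.rfl⟩)
        (disjoint_insert_left.2 ⟨fun a => xO (o7 x (k3.mono Subset.rfl
          (singleton_subset_iff.2 a)).tch), disjoint_left.2 fun z a b => yO z a (o6 b)⟩)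
      rw [insert_eq]
      exact conn_union (conn_single z) y2
        (Or.inl (k3.symm.mono Subset.rfl (singleton_subset_iff.2 y3)))
    · exact xO (o5 x u u1 g k1 g' k2 k3)
    · refine xO (o4 x u u1 _ (w2 i hi) hg.tch _
        (w1 ((near i hi t k1).resolve_right fun k => nE _ k k2)) (fun k => ?_) k2)
      have := (hch i hi l0).inj t (by omega) _ hj k
      omega
  obtain ⟨g, g', k1, k2, k3⟩ :=
    two_ends h4 hA ⟨u2, u1.mono (singleton_subset_iff.2 (mem_compl.2 xA))⟩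
  refine ⟨g, wall g k1, k3 (by_contra fun k => xO (o4 x u u1 g (w1 (wall g k1)) k1.tch g'
    (w1 (wall g' k2)) (Ne.symm k) k2.tch))⟩

lemma arith {a c n r s B W y q N M b : ℕ} (hq : q = a * (y * c))
    (hb : b = 85 * a + 60 * q + 100 * (a * c) + 40 * (a * (W * W)))
    (h1 : b * r ≤ n) (h2 : b * s ≤ n) (h3 : 0 < s) (h4 : (260 * a + 1) * B ≤ 4 * n)
    (h5 : N = n / (15 * q + 1) + 1)
    (h6 : M ≤ B + r + 4 * (r + 5 * (c * s) + W * (2 * W) + 3 * (B + r)) +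
      3 * (c * (r + 1 + N) * y)) : a * M ≤ n := by
  have k1 : (15 * q + 1) * (n / (15 * q + 1)) ≤ n := Nat.mul_div_le _ _
  obtain ⟨t, ht⟩ : ∃ t, t = n / (15 * q + 1) := ⟨_, rfl⟩
  rw [← ht] at k1 h5
  have k2 : b ≤ n := le_trans (Nat.le_mul_of_pos_right _ h3) h2
  have k3 : a * M ≤ 13 * (a * B) + 17 * (a * r) + 20 * (a * c * s) + 8 * (a * (W * W)) +
      3 * (q * r) + 6 * q + 3 * (q * t) := by
    refine (Nat.mul_le_mul_left a h6).trans (le_of_eq ?_)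
    rw [h5, hq]
    ring
  have k4 : 85 * (a * r) + 15 * (q * r) ≤ n :=
    le_trans (le_of_eq (by ring)) ((Nat.mul_le_mul_right r
      (show 85 * a + 15 * q ≤ b by omega)).trans h1)
  have k5 : 100 * (a * c * s) ≤ n :=
    le_trans (le_of_eq (by ring)) ((Nat.mul_le_mul_right s
      (show 100 * (a * c) ≤ b by omega)).trans h2)
  have k6 : 65 * (a * B) ≤ n := by nlinarith
  have k7 : 15 * (q * t) ≤ n := by nlinarith
  omega

end GoodRow

end PM

open PM PM.GoodRow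

theorem good (hC : CntStmt) (hE : EulStmt) (hX : ExStmt) : GoodStmt := by
  intro H c dep lam a
  obtain ⟨K, hK⟩ : ∃ K, K = 260 * a := ⟨_, rfl⟩
  obtain ⟨y, hy⟩ : ∃ y, y = (dep + 2) * K := ⟨_, rfl⟩
  obtain ⟨q, hq⟩ : ∃ q, q = a * (y * c) := ⟨_, rfl⟩
  obtain ⟨p, hp⟩ : ∃ p, p = 12 * (15 * q + 1) := ⟨_, rfl⟩
  obtain ⟨Nr, hNr⟩ : ∃ Nr, Nr = lam * (y + p) + 1 := ⟨_, rfl⟩
  obtain ⟨W, hW⟩ : ∃ W, W = H + 4 + 5 * c := ⟨_, rfl⟩
  obtain ⟨b, hb⟩ : ∃ b, b = 85 * a + 60 * q + 100 * (a * c) + 40 * (a * (W * W)) := ⟨_, rfl⟩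
  refine ⟨K, Nr + 2 * p + y + 2 * (4 + H + 10 * c), b, ?_⟩
  intro D _ _ s S w r A P R Lg Br h U T L ch o b1 b2 b3 b4 hS hA hP hR cR sL cL bL wP cH hh _ hT hc
  obtain ⟨h4, c1, -, -, c2, c3, c4, c5, -⟩ := hC D
  have N0 : 0 < Nr := by omega
  have Ns : Nr ≤ s := by omega
  obtain ⟨N, hN⟩ : ∃ N, N = nv D / (15 * q + 1) + 1 := ⟨_, rfl⟩
  choose m m1 m2 m3 m4 using fun i => exists_near (ch i) (L i) N0
  have sg := fun i => seg (ch i) (m2 i) Ns
  have chA : ∀ i < c, ∀ t < m i, ch i t ∈ A := fun i hi t ht =>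
    have l : t < L i := lt_of_lt_of_le ht (m1 i)
    ((hc.chn i hi (by omega)).1.part _).2 (Or.inr (Or.inr ⟨t, l, rfl⟩))
  obtain ⟨I, i1, i2, i3⟩ := exists_fam (D := D) fun Y => ∃ i < c, 0 < L i ∧ Y ⊆ Aᶜ ∧ Conn Y ∧
    Disjoint Y R ∧ wt Y ≤ y ∧ Ad Y (U i) ∧ ∃ k, Nr ≤ pre (ch i) (k - 2) ∧
      (k < L i ∧ Ad Y {ch i k} ∨ k = L i ∧ Ad Y (T i))
  have cI : #I ≤ c * (r + 1 + N) := by
    have : I ⊆ (range c).biUnion fun i => I.filter fun Y => 0 < L i ∧ Y ⊆ Aᶜ ∧ Conn Y ∧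
        Disjoint Y R ∧ wt Y ≤ y ∧ Ad Y (U i) ∧ ∃ k, Nr ≤ pre (ch i) (k - 2) ∧
          (k < L i ∧ Ad Y {ch i k} ∨ k = L i ∧ Ad Y (T i)) := fun Y hY => by
      obtain ⟨i, k1, k2⟩ := i1 Y hY
      exact mem_biUnion.2 ⟨i, mem_range.2 k1, mem_filter.2 ⟨hY, k2⟩⟩
    refine (card_le_card this).trans ((card_biUnion_le_card_mul _ _ (r + 1 + N)
      fun i hi => by_contra fun k => ?_).trans (by rw [card_range]))
    obtain ⟨Y, hY⟩ := card_pos.1 (lt_of_le_of_lt (Nat.zero_le _) (not_le.1 k))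
    obtain ⟨k1, -, -, -, k2⟩ := hc.chn i (mem_range.1 hi) (mem_filter.1 hY).2.1
    refine hX D s S w lam y p N Nr A P R (U i) (T i) (L i) (ch i) _ hA hP hR k1 k2
      (fun Y hY => (mem_filter.1 hY).2.2)
      (fun Y hY Y' hY' => i2 Y (mem_filter.1 hY).1 Y' (mem_filter.1 hY').1)
      (le_trans (by omega) (not_le.1 k)) ?_ (by omega) (by omega) (by omega) hT
    have := Nat.lt_mul_div_succ (nv D) (show 0 < 15 * q + 1 by omega)
    rw [hp, hN, mul_assoc]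
    omega
  have wF : wt (I.biUnion id) ≤ c * (r + 1 + N) * y :=
    (wt_biUnion I id y fun Y hY => by
      obtain ⟨i, -, -, -, -, -, k, -⟩ := i1 Y hY
      exact k).trans (Nat.mul_le_mul_right _ cI)
  obtain ⟨FF, hF⟩ : ∃ FF, FF = I.biUnion id := ⟨_, rfl⟩
  obtain ⟨Wl, hWl⟩ : ∃ Wl, Wl = hvy S A ∪ Lg ∪ big s Br ∪
    (range c).biUnion fun i => big s (image (ch i) (range (m i))) := ⟨_, rfl⟩
  obtain ⟨E1, hE1⟩ : ∃ E1, E1 = (P \ Lg) ∪ lit s Br ∪
    (range c).biUnion fun i => lit s (image (ch i) (range (m i))) := ⟨_, rfl⟩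
  obtain ⟨W2, hW2⟩ : ∃ W2, W2 = Wl ∪ image (fun i => ch i (m i)) (range c) := ⟨_, rfl⟩
  obtain ⟨X, hXd⟩ : ∃ X, X = big K (univ : Finset (F D)) ∪ R := ⟨_, rfl⟩
  obtain ⟨Bad, hB⟩ : ∃ Bad : Finset (V D), Bad = (univ.filter fun u => Tch E1 u) ∪
    (univ.filter fun u => ∃ g ∈ W2, Tch {g} u ∧ ∃ g' ∈ W2, g' ≠ g ∧ Tch {g'} u) ∪
    (univ.filter fun u => ∃ g ∈ X, ∃ g' ∈ X, Diag g g' u) := ⟨_, rfl⟩
  have mW : ∀ g, g ∈ Wl ↔ (g ∈ A ∧ S ≤ sz g) ∨ g ∈ Lg ∨ (g ∈ Br ∧ s < sz g) ∨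
      ∃ i < c, (∃ t < m i, ch i t = g) ∧ s < sz g := fun g => by
    simp only [hWl, mem_union, hvy, big, mem_filter, mem_biUnion, mem_range, mem_image, or_assoc]
  have mE : ∀ g, g ∈ E1 ↔ (g ∈ P ∧ g ∉ Lg) ∨ (g ∈ Br ∧ sz g ≤ s) ∨
      ∃ i < c, (∃ t < m i, ch i t = g) ∧ sz g ≤ s := fun g => by
    simp only [hE1, mem_union, lit, mem_filter, mem_biUnion, mem_range, mem_image, or_assoc,
      mem_sdiff]
  have cB := hc.cB
  have cW : #Wl ≤ H + 4 + 4 * c := by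
    have a1 := card_biUnion_le_card_mul (range c) _ 3 fun i _ => (sg i).1
    have a2 : #(big s Br) ≤ #Br := card_filter_le _ _
    have a3 := card_union_le (hvy S A) Lg
    have a4 := card_union_le (hvy S A ∪ Lg) (big s Br)
    have a5 : #Wl ≤ _ := hWl ▸ card_union_le _ _
    rw [card_range] at a1
    omega
  have sW : Wl ⊆ big s A := fun g hg => mem_filter.2 (by
    rcases (mW g).1 hg with k | k | k | ⟨i, hi, ⟨t, ht, rfl⟩, k⟩
    exacts [⟨k.1, by omega⟩, ⟨hP (sL k), bL g k⟩, ⟨hc.sB k.1, k.2⟩, ⟨chA i hi t ht, k⟩])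
  refine ⟨X ∪ (univ.filter fun x => ∃ u ∈ Bad, Tch {x} u) ∪ FF ∪ (univ.filter fun x => x ∉ FF ∧ Meet {x} FF), Wl, ?_, ?_, sW,
    fun g hg => (mW g).2 (Or.inl (mem_filter.1 hg)), cW, fun g hg => ?_, ?_⟩
  · have ob : ∀ x u, Tch {x} u → u ∈ Bad → x ∈ X ∪ (univ.filter fun x => ∃ u ∈ Bad, Tch {x} u) ∪ FF ∪
        (univ.filter fun x => x ∉ FF ∧ Meet {x} FF) := fun x u k1 k2 => mem_union_left _ (mem_union_left _
          (mem_union_right _ (mem_filter.2 ⟨mem_univ _, u, k2, k1⟩)))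
    have oX : X ⊆ X ∪ (univ.filter fun x => ∃ u ∈ Bad, Tch {x} u) ∪ FF ∪ (univ.filter fun x => x ∉ FF ∧ Meet {x} FF) :=
      fun x k => mem_union_left _ (mem_union_left _ (mem_union_left _ k))
    have oF : FF ⊆ X ∪ (univ.filter fun x => ∃ u ∈ Bad, Tch {x} u) ∪ FF ∪ (univ.filter fun x => x ∉ FF ∧ Meet {x} FF) :=
      fun x k => mem_union_left _ (mem_union_right _ k)
    refine good_of (E1 := E1) (W2 := W2) (FF := FF) h4 hA N0 (fun i hi k => (hc.chn i hi k).1) m4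
      (fun g hg => ?_) (fun i hi t ht => ?_) (hW2 ▸ subset_union_left)
      (fun i hi => hW2 ▸ mem_union_right _ (mem_image_of_mem _ (mem_range.2 hi)))
      (fun x k => oX (hXd ▸ mem_union_left _ (mem_filter.2 ⟨mem_univ _, k⟩)))
      (fun x k => oX (hXd ▸ mem_union_right _ k))
      (fun x u k1 k2 => ob x u k1 (hB ▸ mem_union_left _ (mem_union_left _
        (mem_filter.2 ⟨mem_univ _, k2⟩))))
      (fun x u k1 g k2 k3 g' k4 k5 k6 => ob x u k1 (hB ▸ mem_union_left _ (mem_union_right _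
        (mem_filter.2 ⟨mem_univ _, g, k2, k3, g', k4, k5, k6⟩))))
      (fun x u k1 g k2 g' k3 k4 => ob x u k1 (hB ▸ mem_union_right _
        (mem_filter.2 ⟨mem_univ _, g, hXd ▸ k2, g', hXd ▸ k3, k4⟩)))
      oF (fun x k => ?_) fun Y y1 y2 y3 y4 y5 i hi l0 k k1 k2 k3 => ?_
    · rw [mW, mE]
      by_cases e1 : g ∈ P
      · tauto
      by_cases e2 : S ≤ sz g
      · exact Or.inl (Or.inl ⟨hg.1, e2⟩)
      rcases hc.cov g hg e1 (not_le.1 e2) with k | k
      · rcases lt_or_ge s (sz g) with e | e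
        exacts [Or.inl (Or.inr (Or.inr (Or.inl ⟨k, e⟩))), Or.inr (Or.inl (Or.inr (Or.inl ⟨k, e⟩)))]
      · exact Or.inr (Or.inr k)
    · rw [mW, mE]
      rcases lt_or_ge s (sz (ch i t)) with e | e
      exacts [Or.inl (Or.inr (Or.inr (Or.inr ⟨i, hi, ⟨t, ht, rfl⟩, e⟩))),
        Or.inr (Or.inr (Or.inr ⟨i, hi, ⟨t, ht, rfl⟩, e⟩))]
    · by_cases e : x ∈ FF
      · exact oF e
      · exact mem_union_right _ (mem_filter.2 ⟨mem_univ _, e, k⟩)
    · obtain ⟨Y', z1, z2⟩ := i3 Y ⟨i, hi, l0, y1, y2, y3, hy ▸ y4,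
        y5.mono Subset.rfl (singleton_subset_iff.2 (hc.chn i hi l0).2.1), k, k1, k2⟩
        (y5.elim fun d hd => ⟨_, hd.1⟩)
      exact z2 (k3.mono_right (hF ▸ subset_biUnion_of_mem id z1))
  · have a1 : (260 * a + 1) * #(big K (univ : Finset (F D))) ≤ 4 * nv D :=
      (c2 _ _ fun x hx => by have := (mem_filter.1 hx).2; omega).trans
        (c1 ▸ wt_mono (subset_univ _))
    have a2 : #X ≤ #(big K (univ : Finset (F D))) + r :=
      hXd ▸ (card_union_le _ _).trans (by omega)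
    have a3 : wt E1 ≤ r + 5 * (c * s) := by
      have e1 := wt_biUnion (range c) _ (4 * s) fun i _ => (sg i).2.trans (by omega)
      have e2 : wt (lit s Br) ≤ c * s := (wt_le_mul _ s fun x hx => (mem_filter.1 hx).2).trans
        (Nat.mul_le_mul_right _ ((card_filter_le _ _).trans cB))
      have e3 := wt_union_le (S := P \ Lg) (T := lit s Br)
      have e4 : wt E1 ≤ _ := hE1 ▸ wt_union_le
      rw [card_range, mul_left_comm] at e1
      omega
    have a4 : #W2 ≤ W := by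
      have e1 : #(image (fun i => ch i (m i)) (range c)) ≤ c := card_image_le.trans (by simp)
      have e2 : #W2 ≤ _ := hW2 ▸ card_union_le _ _
      omega
    have a5 := (pair_cnt W2).trans (Nat.mul_le_mul a4 (Nat.mul_le_mul_left 2 a4))
    have a6 := (hE D).2 X
    have a7 := c3 E1
    have a8 : #Bad ≤ _ := hB ▸ (card_union_le _ _).trans
      (Nat.add_le_add_right (card_union_le _ _) _)
    have a9 := c4 Bad
    have a10 := c5 FF
    have a11 := card_le_wt FF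
    rw [← hF] at wF
    refine arith hq hb b1 b2 (by omega) a1 hN ((card_union_le _ _).trans
      ((Nat.add_le_add_right ((card_union_le _ _).trans
        (Nat.add_le_add_right (card_union_le _ _) _)) _).trans ?_))
    omega
  · exact (jn_le h4 hA hc cL cH (mem_filter.1 (sW hg)).1).trans (by omega)
  · intro Z hBr hZ g hg
    rcases (mW g).1 hg with k | k | k | ⟨i, hi, ⟨t, ht, rfl⟩, k⟩
    · exact Or.inl k.2
    · exact Or.inr (Or.inl (sL k))
    · exact absurd (hBr ▸ k.1) (notMem_empty _)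
    · have l : t < L i := lt_of_lt_of_le ht (m1 i)
      obtain ⟨k1, -, -, k2, k3⟩ := hc.chn i hi (by omega)
      obtain ⟨k4, k5, k6⟩ := hZ i hi (by omega)
      exact Or.inr (Or.inr (link k1 k2 hS k4 (fun t ht => (k3 t ht).2) k5 k6 l (m3 i t ht)
        (by omega) b3))

end Pool.Agent.MP_42ec7b_co

end MrgPart1

-- marker of a merged file
example : 731051 + 835453 = 731051 + 835453 := rfl
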