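import Pool.Agent.MP_42ec7b_co.A.RCh
import Pool.Agent.MP_42ec7b_co.A.TAtt
import Pool.Agent.MP_42ec7b_co.A.Bridge
import Pool.Agent.MP_42ec7b_co.A.PD2
import Pool.Agent.MP_42ec7b_co.A.RTop2

-- ======== part 0: formerly Pool.Agent.MP_42ec7b_co.A.RAdd
section MrgPart0

/-!
Adding sets of faces to a disc.
-/

set_option autoImplicit false

open Finset

namespace Pool.Agent.MP_42ec7b_co

open Classical PM

namespace AddA

variable {D : Type} [PM D]

lemma handshake (z : D → ZMod 2) (hz : ∀ d, z (α d) = z d) :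
    ∑ u : V D, ∑ d with v d = u, z d = 0 := by
  rw [sum_fiberwise_of_maps_to (fun d _ => mem_univ (v d))]
  exact sum_involution (fun d _ => α d) (fun d _ => by rw [hz, z2_add_self])
    (fun d _ _ => αne d) (fun _ _ => mem_univ _) (fun d _ => αα d)

/-- A chain with prescribed odd vertices. -/
lemma pair_up {E : D → Prop} {u0 : V D} (T : V D → ZMod 2) (h0 : ∑ u, T u = 0)
    (h : ∀ u, T u = 1 → Lk E u u0) : ∃ w : D → ZMod 2, (∀ d, w (α d) = w d) ∧
      (∀ u, ∑ d with v d = u, w d = T u) ∧ ∀ d, w d = 1 → E d ∨ E (α d) := by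
  have k : ∀ u, ∃ z : D → ZMod 2, (∀ d, z (α d) = z d) ∧ (∀ r, ∑ d with v d = r, z d =
      T u * ((if r = u then 1 else 0) + if r = u0 then 1 else 0)) ∧
      ∀ d, z d = 1 → E d ∨ E (α d) := by
    intro u
    rcases z2_cases (T u) with m | m
    · exact ⟨fun _ => 0, fun _ => rfl, fun r => by simp [m], fun _ k => absurd k zero_ne_one⟩
    · obtain ⟨z, z1, z2⟩ := h u m
      exact ⟨z, z1.1, fun r => by rw [m, one_mul]; exact z1.2 r, z2⟩
  choose z z1 z2 z3 using k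
  refine ⟨fun d => ∑ u, z u d, fun d => sum_congr rfl fun u _ => z1 u d, fun r => ?_,
    fun d hd => ?_⟩
  · rw [sum_comm]
    simp only [z2, mul_add, sum_add_distrib]
    rw [← sum_mul, h0]
    simp
  · by_contra k
    exact zero_ne_one ((sum_eq_zero fun u _ => z2_zero fun m => k (z3 u d m)).symm.trans hd)

/-- Two sets that do not separate and meet in a connected set do not separate together. -/
theorem jan {P Q : Finset (F D)} (hP : Conn Pᶜ) (hQ : Conn Qᶜ) (u0 : V D)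
    (h : ∀ u, Tch P u → Tch Q u → Lk (fun d => InE P d ∧ InE Q d) u u0) : Conn (P ∪ Q)ᶜ := by
  rintro K hK ⟨x, hx⟩ hc x' hx'
  let y : F D → ZMod 2 := fun g => if g ∈ K then 1 else 0
  let z : D → ZMod 2 := fun d => y (f d) + y (f (α d))
  have hz : ∀ d, z d = 1 → InE P d ∨ InE Q d := by
    intro d m
    by_contra k
    simp only [InE, not_or] at k
    have a : f d ∈ (P ∪ Q)ᶜ := by simp [k.1.1, k.2.1]
    have b : f (α d) ∈ (P ∪ Q)ᶜ := by simp [k.1.2, k.2.2]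
    have : y (f d) = y (f (α d)) := if_congr ⟨fun m => hc d m b, fun m => hc.symm d m a⟩ rfl rfl
    exact zero_ne_one ((show z d = 0 by simp only [z]; rw [this, z2_add_self]).symm.trans m)
  have zs : ∀ d, z (α d) = z d := fun d => by simp only [z]; rw [αα, add_comm]
  let z1 : D → ZMod 2 := fun d => if InE P d then z d else 0
  have z1s : ∀ d, z1 (α d) = z1 d := fun d =>
    if_congr ⟨fun m => by simpa using m.symm, InE.symm⟩ (zs d) rfl
  obtain ⟨w, w1, w2, w3⟩ := pair_up (E := fun d => InE P d ∧ InE Q d) (u0 := u0)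
    (fun u => ∑ d with v d = u, z1 d) (handshake z1 z1s) (fun u m => by
      refine h u (by_contra fun k => ?_) (by_contra fun k => ?_)
      · refine zero_ne_one ((sum_eq_zero fun d hd => if_neg fun a => k ?_).symm.trans m)
        exact (mem_filter.1 hd).2 ▸ a.tch
      · refine zero_ne_one (((sum_congr rfl fun d hd => ?_).trans (orth_v y u)).symm.trans m)
        by_cases a : InE P d
        · exact if_pos a
        · refine (if_neg a).trans (z2_zero fun b => k ?_).symm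
          exact (mem_filter.1 hd).2 ▸ ((hz d b).resolve_left a).tch)
  have w4 : ∀ d, w d = 1 → InE P d ∧ InE Q d := fun d m =>
    (w3 d m).elim id fun k => ⟨by simpa using k.1.symm, by simpa using k.2.symm⟩
  obtain ⟨y1, hy1⟩ := exact_f (fun d => z1 d + w d) (fun d => by rw [z1s, w1])
    (fun u => by rw [sum_add_distrib, w2, z2_add_self])
  have nP : ∀ g, g ∈ (P ∪ Q)ᶜ → g ∈ Pᶜ ∧ g ∈ Qᶜ := fun g m => by simpa using m
  have e1 : y1 x = y1 x' := by
    refine const_on hP y1 (fun d a b => ?_) (nP _ (hK hx)).1 (nP _ hx').1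
    have c : ¬InE P d := fun m => m.elim (mem_compl.1 a) (mem_compl.1 b)
    have := hy1 d
    rw [show z1 d = 0 from if_neg c, z2_zero fun m => c (w4 d m).1, add_zero] at this
    exact z2_add_eq.1 this.symm
  have e2 : y1 x + y x = y1 x' + y x' := by
    refine const_on hQ (fun g => y1 g + y g) (fun d a b => ?_) (nP _ (hK hx)).2 (nP _ hx').2
    have c : ¬InE Q d := fun m => m.elim (mem_compl.1 a) (mem_compl.1 b)
    have := hy1 d
    have e : z1 d = z d := by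
      by_cases m : InE P d
      · exact if_pos m
      · exact (if_neg m).trans (z2_zero fun k => (hz d k).elim m c).symm
    rw [e, z2_zero fun m => c (w4 d m).2, add_zero] at this
    refine z2_add_eq.1 ?_
    rw [add_add_add_comm, ← this]
    exact z2_add_self _
  rw [e1, add_right_inj] at e2
  by_contra k
  simp [y, hx, k] at e2

theorem shell {A P : Finset (F D)} (hA : Disc A) (hP : Conn P) (hne : P.Nonempty) (h : P ⊆ A)
    {x : F D} (hx : Expo A x) (hx' : x ∉ P) : ∃ x ∈ A, x ∉ P ∧ Disc (A.erase x) := by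
  have h1 : Aᶜ ⊆ Pᶜ := compl_subset_compl.2 h
  obtain ⟨b, hb⟩ := hA.2.1
  obtain ⟨K, k1, k2, k3, k4⟩ := exists_comp (h1 hb)
  have h2 : Aᶜ ⊆ K := hA.2.2.2.sub h1 k4 hb k2
  have h3 : P ⊆ Kᶜ := fun g m => mem_compl.2 fun m' => mem_compl.1 (k1 m') m
  have h4 : Conn Kᶜ := by
    rw [compl_eq_univ_sdiff] at h3 ⊢
    exact conn_sdiff conn_univ hP hne h3 fun d m1 _ m3 =>
      by_contra fun m => m3 (k4 d m1 (mem_compl.2 m))
  have h5 : x ∈ K := by
    obtain ⟨d, m1, m2⟩ := hx.2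
    obtain rfl := mem_singleton.1 m1
    exact k4.symm d (h2 m2) (mem_compl.2 hx')
  obtain ⟨d, m1, m2, m3⟩ := shrink1 (S := Kᶜ) (T := A)
    ⟨hne.mono h3, by rw [compl_compl]; exact ⟨b, k2⟩, h4, by rwa [compl_compl]⟩ hA
    (fun g m => by_contra fun m' => mem_compl.1 m (h2 (mem_compl.2 m')))
    (fun m => mem_compl.1 (m hx.1) h5)
  exact ⟨f d, m1.1, fun m => m2 (h3 m), m3⟩

theorem add_disc {A Y : Finset (F D)} {d : D} (hA : Disc A) (hY : Conn Y) (hY' : Conn Yᶜ)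
    (h1 : f d ∈ Y) (h2 : f (α d) ∈ A)
    (h : ∀ u, Tch Y u → Tch A u → u = v d ∨ u = v (α d)) : Disc (A ∪ Y) := by
  refine ⟨hA.1.mono subset_union_left, ?_,
    conn_union hA.2.2.1 hY (Or.inl ⟨α d, h2, by rwa [αα]⟩), jan hA.2.2.2 hY' (v d) ?_⟩
  · by_contra k
    have hs : Aᶜ ⊆ Y := fun g m => by_contra fun m' => k ⟨g, by simp [mem_compl.1 m, m']⟩
    obtain ⟨b, hb⟩ := exists_bd hA.1 hA.2.1
    obtain ⟨L, p, dd, fr, -⟩ := exists_frm hA hb (Or.inl rfl)
    have t := fr.three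
    have key : ∀ i < L, p i = v d ∨ p i = v (α d) := fun i m =>
      h _ ((fr.bv m.le).2.mono hs) (fr.bv m.le).1
    have ne : ∀ i < L, ∀ j < L, i ≠ j → p i ≠ p j := fun i a j b c e => c (fr.inj i a j b e)
    have n1 := ne 0 (by omega) 1 (by omega) (by omega)
    have n2 := ne 0 (by omega) 2 (by omega) (by omega)
    have n3 := ne 1 (by omega) 2 (by omega) (by omega)
    rcases key 0 (by omega) with a | a <;> rcases key 1 (by omega) with b | b <;>
      rcases key 2 (by omega) with c | c <;> simp_all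
  · intro u a b
    rcases h u b a with rfl | rfl
    · exact Lk.refl
    · exact (Lk.one (d := d) ⟨Or.inr h2, Or.inl h1⟩).symm

theorem add_many {A : Finset (F D)} {bs : F D → F D} (hA : Disc A) (N : Finset (F D))
    (h : Addable A N bs) : Disc (A ∪ N) ∧ ell A + #N ≤ ell (A ∪ N) := by
  induction N using Finset.induction_on with
  | empty => simpa using hA
  | insert y N hy ih =>
    obtain ⟨i1, i2⟩ := ih ⟨fun x m => h.1 x (mem_insert_of_mem m),
      fun x m x' m' => h.2 x (mem_insert_of_mem m) x' (mem_insert_of_mem m')⟩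
    obtain ⟨a1, a2, ⟨d, a3, a4⟩, a5⟩ := h.1 y (mem_insert_self _ _)
    rw [mem_singleton] at a3 a4
    subst a3
    have key : ∀ r, Tch {f d} r → Tch (A ∪ N) r → r = v d ∨ r = v (α d) := by
      intro r m1 m2
      refine sun_ends m1 ?_
      obtain ⟨x, m3, m4⟩ := tch_iff.1 m2
      rcases mem_union.1 m3 with m3 | m3
      · rw [a4, ← a5 x m3 ⟨r, m1, m4⟩]; exact m4
      · obtain ⟨-, -, ⟨e, b3, b4⟩, -⟩ := h.1 x (mem_insert_of_mem m3)
        rw [mem_singleton] at b3 b4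
        have := h.2 _ (mem_insert_self _ _) x (mem_insert_of_mem m3) ⟨r, m1, m4⟩
        exact sun_disj (d := α d) (d' := α e) (by rw [a4, b4, this])
          (fun m => hy (by rw [α.injective m, b3]; exact m3)) (by rwa [αα]) (by rwa [αα, b3])
    have hn : f d ∉ A ∪ N := fun m => (mem_union.1 m).elim a1 hy
    have hx : ex {f d} (A ∪ N) ≤ 1 := by
      refine (card_le_card (t := {d}) fun e m => mem_singleton.2 ?_).trans (by simp)
      obtain ⟨m1, m2⟩ := (mem_filter.1 m).2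
      rcases key _ (tch_v m1) (tch_v' m2) with k | k
      · exact eq_of_fv (mem_singleton.1 m1) k
      · rcases key _ (tch_α m1) (tch_v m2) with k' | k'
        · have : e = α d := simple _ _ k (by rw [αα]; exact k')
          exact absurd (this ▸ mem_singleton.1 m1) (s0 d)
        · exact absurd (k'.trans k.symm) (loop e)
    have e1 := ell_insert hn
    have e2 := three_le_sz (f d)
    rw [union_insert, card_insert_of_notMem hy]
    exact ⟨add1 i1 (mem_union_left _ (a4 ▸ a2)) key, by omega⟩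

theorem join {A Y Y' : Finset (F D)} (hA : Disc A) (h1 : Disjoint A Y)
    (k1 : Disc (A ∪ Y)) (k2 : Disc (A ∪ Y')) (h : ¬Meet Y Y') : Disc (A ∪ Y ∪ Y') := by
  have e : A ∪ Y ∪ Y' = (A ∪ Y) ∪ (A ∪ Y') := by ext g; simp only [mem_union]; tauto
  obtain ⟨a, ha⟩ := hA.1
  obtain ⟨d0, rfl⟩ := f_surj a
  refine ⟨⟨_, mem_union_left _ (mem_union_left _ ha)⟩, ?_, ?_, ?_⟩
  · by_contra k
    have hs : ∀ g, g ∉ A → g ∉ Y → g ∈ Y' := fun g m m' =>
      by_contra fun m'' => k ⟨g, by simp [m, m', m'']⟩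
    obtain ⟨b, hb⟩ := k1.2.1
    obtain ⟨c, hc⟩ := k2.2.1
    simp only [mem_compl, mem_union, not_or] at hb hc
    refine hb.2 (hA.2.2.2 Y (fun g m => mem_compl.2 fun m' => disjoint_left.1 h1 m' m)
      ⟨c, by_contra fun m => hc.2 (hs c hc.1 m)⟩ (fun d m1 m2 => by_contra fun m3 =>
        h ⟨v d, tch_v m1, tch_v' (hs _ (mem_compl.1 m2) m3)⟩) (mem_compl.2 hb.1))
  · rw [e]
    exact conn_union k1.2.2.1 k2.2.2.1 (Or.inr ⟨_, mem_union_left _ ha, mem_union_left _ ha⟩)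
  · rw [e]
    refine jan k1.2.2.2 k2.2.2.2 (v d0) fun u a b => ?_
    have t : Tch A u := by
      obtain ⟨c, c1, c2⟩ := a
      obtain ⟨c', c3, c4⟩ := b
      rcases mem_union.1 c2 with m | m
      · exact ⟨c, c1, m⟩
      rcases mem_union.1 c4 with m' | m'
      · exact ⟨c', c3, m'⟩
      · exact absurd ⟨u, ⟨c, c1, m⟩, c', c3, m'⟩ h
    exact (facelk hA.2.2.1 t (tch_v ha)).mono fun d m =>
      Or.inl ⟨Or.inl (mem_union_left _ m), Or.inl (mem_union_left _ m)⟩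

end AddA

theorem add (_hC : CntStmt) : AddStmt := fun _ _ _ =>
  ⟨fun _ _ hA hP hne h ⟨_, hx, hx'⟩ => AddA.shell hA hP hne h hx hx',
    fun _ _ _ hA hY hY' _ h1 h2 h => AddA.add_disc hA hY hY' h1 h2 h,
    fun _ N _ hA h => AddA.add_many hA N h,
    fun _ _ _ hA h1 _ k1 k2 h => AddA.join hA h1 k1 k2 h⟩

end Pool.Agent.MP_42ec7b_co

end MrgPart0

-- ======== part 1: formerly Pool.Agent.MP_42ec7b_co.A.RCnt
section MrgPart1

/-!
Counting in 4-regular maps.
-/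

set_option autoImplicit false

open Finset

namespace Pool.Agent.MP_42ec7b_co

open Classical PM

namespace RCnt

variable {D : Type} [PM D]

lemma rho4 [Q4 D] (d : D) : ρ (ρ (ρ (ρ d))) = d := by
  have h1 : ({d, ρ d, ρ (ρ d), ρ (ρ (ρ d))} : Finset D) ⊆ univ.filter fun c => v c = v d := by
    intro c hc
    simp only [mem_insert, mem_singleton] at hc
    rcases hc with rfl | rfl | rfl | rfl <;> simp
  have h2 : #({d, ρ d, ρ (ρ d), ρ (ρ (ρ d))} : Finset D) = 4 :=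
    card_eq_four.2 ⟨_, _, _, _, (ρne d).symm, (ρρne d).symm, (ρρρne d).symm, (ρne _).symm,
      (ρρne _).symm, (ρne _).symm, rfl⟩
  have h3 := eq_of_subset_of_card_le h1 (by rw [h2, Q4.four])
  have h4 : ρ (ρ (ρ (ρ d))) ∈ ({d, ρ d, ρ (ρ d), ρ (ρ (ρ d))} : Finset D) := by
    rw [h3]; simp
  simp only [mem_insert, mem_singleton] at h4
  rcases h4 with h | h | h | h
  exacts [h, absurd h (ρρρne _), absurd h (ρρne _), absurd h (ρne _)]

lemma four_cases [Q4 D] {c d : D} (h : v c = v d) :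
    c = d ∨ c = ρ d ∨ c = ρ (ρ d) ∨ c = ρ (ρ (ρ d)) :=
  vert_ind (Q := fun c => c = d ∨ c = ρ d ∨ c = ρ (ρ d) ∨ c = ρ (ρ (ρ d))) (Or.inl rfl)
    (fun c _ m => by
      rcases m with rfl | rfl | rfl | rfl
      exacts [Or.inr (Or.inl rfl), Or.inr (Or.inr (Or.inl rfl)), Or.inr (Or.inr (Or.inr rfl)),
        Or.inl (rho4 _)]) h

lemma card_at [Q4 D] (W : Finset (V D)) : #{d : D | v d ∈ W} = 4 * #W := by
  rw [card_eq_sum_card_fiberwise (f := v) (s := {d : D | v d ∈ W}) (t := W)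
    fun d hd => mem_coe.2 (mem_filter.1 (mem_coe.1 hd)).2, mul_comm, ← smul_eq_mul, ← sum_const]
  refine sum_congr rfl fun u hu => ?_
  rw [← Q4.four u]
  congr 1
  ext d
  simp only [mem_filter, mem_univ, true_and, and_iff_right_iff_imp]
  rintro rfl
  exact hu

lemma wt_univ [Q4 D] : wt (univ : Finset (F D)) = 4 * nv D := by
  simpa [wt, nv] using card_at (univ : Finset (V D))

lemma wt_univ' : wt (univ : Finset (F D)) = 2 * Fintype.card (E D) := by
  rw [wt, card_eq_sum_card_fiberwise (f := ed) (t := univ) fun d _ => mem_coe.2 (mem_univ _),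
    mul_comm, ← smul_eq_mul, ← card_univ, ← sum_const]
  refine sum_congr rfl fun e _ => ?_
  obtain ⟨c, rfl⟩ := ed_surj e
  rw [← card_pair (αne c).symm]
  congr 1
  ext d
  simp only [mem_filter, mem_univ, true_and, mem_insert, mem_singleton]
  rw [eq_comm, ed_eq]

lemma card_F [Q4 D] : Fintype.card (F D) = nv D + 2 := by
  have h1 := wt_univ (D := D)
  have h2 := wt_univ' (D := D)
  have h3 : nv D + Fintype.card (F D) = Fintype.card (E D) + 2 := euler
  omega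

lemma excess [Q4 D] : (∑ x : F D, (sz x - 4)) + 8 = #(tri (univ : Finset (F D))) := by
  have h1 : ∑ x : F D, (sz x + if sz x = 3 then 1 else 0) = ∑ x : F D, (sz x - 4 + 4) :=
    sum_congr rfl fun x _ => by
      have := three_le_sz x
      split_ifs <;> omega
  rw [sum_add_distrib, sum_add_distrib, ← wt_sum, wt_univ, sum_const, card_univ, card_F,
    ← card_filter, smul_eq_mul] at h1
  rw [tri]
  omega

lemma mul_card_le (S : Finset (F D)) (k : ℕ) (h : ∀ x ∈ S, k ≤ sz x) : k * #S ≤ wt S := by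
  rw [wt_sum, mul_comm]
  exact card_nsmul_le_sum _ _ _ h

lemma wt_le_mul (S : Finset (F D)) (k : ℕ) (h : ∀ x ∈ S, sz x ≤ k) : wt S ≤ k * #S := by
  rw [wt_sum, mul_comm]
  exact sum_le_card_nsmul _ _ _ h

lemma card_le_wt {X : Type} (S : Finset (F D)) (g : D → X) (T : Finset X)
    (h : ∀ x ∈ T, ∃ d, f d ∈ S ∧ g d = x) : #T ≤ wt S :=
  card_le_card_of_surjOn g fun x hx => by
    obtain ⟨d, h1, h2⟩ := h x hx
    exact ⟨d, by simpa using h1, h2⟩

lemma tch_le (S : Finset (F D)) : #{u | Tch S u} ≤ wt S :=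
  card_le_wt S v _ fun _ hu => by
    obtain ⟨c, h1, h2⟩ := (mem_filter.1 hu).2
    exact ⟨c, h2, h1⟩

lemma faces_at [Q4 D] (W : Finset (V D)) : #{x : F D | ∃ u ∈ W, Tch {x} u} ≤ 4 * #W := by
  rw [← card_at]
  refine card_le_card_of_surjOn f fun x hx => ?_
  obtain ⟨u, h1, c, rfl, h2⟩ := (mem_filter.1 (mem_coe.1 hx)).2
  exact ⟨c, by simpa using h1, mem_singleton.1 h2⟩

lemma meet_le [Q4 D] (S : Finset (F D)) : #{x : F D | x ∉ S ∧ Meet {x} S} ≤ 2 * wt S := by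
  have h : ({x : F D | x ∉ S ∧ Meet {x} S} : Finset (F D)) ⊆
      (univ.filter fun x => ∃ d, f d ∈ S ∧ f (α d) = x) ∪
        univ.filter fun x => ∃ d, f d ∈ S ∧ f (ρ (ρ d)) = x := fun x hx => by
    obtain ⟨h1, u, ⟨c', h2, h3⟩, c, rfl, h4⟩ := (mem_filter.1 hx).2
    obtain rfl := mem_singleton.1 h3
    simp only [mem_union, mem_filter, mem_univ, true_and]
    rcases four_cases h2 with rfl | rfl | rfl | rfl
    · exact absurd h4 h1
    · exact Or.inl ⟨c, h4, (fρ c).symm⟩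
    · exact Or.inr ⟨c, h4, rfl⟩
    · exact Or.inl ⟨α (ρ (ρ (ρ c))), by rwa [← fρ, rho4], by rw [αα]⟩
  rw [two_mul]
  exact (card_le_card h).trans ((card_union_le _ _).trans (add_le_add
    (card_le_wt S _ _ fun x hx => (mem_filter.1 hx).2)
    (card_le_wt S _ _ fun x hx => (mem_filter.1 hx).2)))

/-- A vertex lies on at most two neighbours of a face. -/
lemma suns_at (h : F D) (u : V D) : #{x ∈ suns h | Tch {x} u} ≤ 2 := by
  have key : ∀ x ∈ ({x ∈ suns h | Tch {x} u} : Finset (F D)),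
      ∃ d, f d = h ∧ f (α d) = x ∧ Tch {f (α d)} u := fun x hx => by
    obtain ⟨h1, h2⟩ := mem_filter.1 hx
    obtain ⟨d, h3, h4⟩ := (mem_filter.1 h1).2
    obtain rfl := mem_singleton.1 h3
    exact ⟨α d, mem_singleton.1 h4, by rw [αα], by rwa [αα]⟩
  by_cases hu : Tch {h} u
  · obtain ⟨c, rfl, rfl⟩ := tch_one.1 hu
    refine (card_le_card (t := {f (α c), f (ρ.symm c)}) fun x hx => ?_).trans card_le_two
    obtain ⟨d, h1, rfl, h2⟩ := key x hx
    rw [mem_insert, mem_singleton]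
    rcases sun_ends (by rwa [h1]) h2 with k | k
    · rw [eq_of_fv h1 k.symm]
      exact Or.inl rfl
    · rw [← eq_of_fv (d := φ d) (d' := c) (by rw [fφ, h1]) (by rw [vφ, k]), φ_def,
        Equiv.symm_apply_apply]
      exact Or.inr rfl
  · refine (card_le_one.2 fun x hx y hy => ?_).trans one_le_two
    obtain ⟨d, h1, rfl, h2⟩ := key x hx
    obtain ⟨d', h3, rfl, h4⟩ := key y hy
    by_contra k
    exact hu (h1 ▸ sun_disj (h1.trans h3.symm) (fun m => k (by rw [m])) h2 h4)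

lemma suns_le (h : F D) (S : Finset (F D)) : #{x ∈ suns h | Meet {x} S} ≤ 2 * wt S := by
  have k : ({x ∈ suns h | Meet {x} S} : Finset (F D)) ⊆
      ({u | Tch S u} : Finset (V D)).biUnion fun u => {x ∈ suns h | Tch {x} u} := fun x hx => by
    obtain ⟨h1, u, h2, h3⟩ := mem_filter.1 hx
    exact mem_biUnion.2 ⟨u, mem_filter.2 ⟨mem_univ _, h3⟩, mem_filter.2 ⟨h1, h2⟩⟩
  refine (card_le_card k).trans ((card_biUnion_le_card_mul _ _ 2 fun u _ => suns_at h u).trans ?_)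
  rw [mul_comm]
  exact Nat.mul_le_mul_left _ (tch_le S)

lemma ell_le (A A' : Finset (F D)) : ell A ≤ ell A' + wt (A \ A') + wt (A' \ A) := by
  have h1 : wt (A' \ A) = #{d | f (α d) ∈ A' \ A} := (card_equiv α fun d => by simp).symm
  rw [h1]
  refine (card_le_card fun d hd => ?_).trans ((card_union_le _ _).trans
    (add_le_add_left (card_union_le _ _) _))
  simp only [Bd, mem_filter, mem_univ, true_and, mem_union, mem_sdiff] at hd ⊢
  tauto

lemma ball_le (U J : Finset (F D)) (K k : ℕ) (h : ∀ x ∈ ball U J k, sz x ≤ K) :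
    #(ball U J k) ≤ (K + 1) ^ k * #J := by
  induction k with
  | zero => simpa [ball] using card_le_card inter_subset_left
  | succ k ih =>
    have h1 : ∀ x ∈ ball U J k, sz x ≤ K := fun x hx => h x (mem_union_left _ hx)
    have h2 : #{x ∈ U | Ad {x} (ball U J k)} ≤ wt (ball U J k) :=
      card_le_wt _ (fun d => f (α d)) _ fun x hx => by
        obtain ⟨d, k1, k2⟩ := (mem_filter.1 hx).2
        exact ⟨α d, k2, by rw [αα, mem_singleton.1 k1]⟩
    calc #(ball U J (k + 1)) ≤ #(ball U J k) + K * #(ball U J k) :=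
          (card_union_le _ _).trans (add_le_add_right (h2.trans (wt_le_mul _ _ h1)) _)
      _ = (K + 1) * #(ball U J k) := by ring
      _ ≤ (K + 1) * ((K + 1) ^ k * #J) := Nat.mul_le_mul_left _ (ih h1)
      _ = (K + 1) ^ (k + 1) * #J := by ring

lemma ell_nv {A : Finset (F D)} (h : Disc A) : ell A ≤ nv D ∧ ((∀ u, BV A u) → ell A = nv D) := by
  have e : ell A = #(univ.filter (BV A)) :=
    card_nbij v (fun d hd => by simpa using (mem_filter.1 (mem_coe.1 hd)).2.bv)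
      (fun d hd d' hd' k => uniq h (mem_filter.1 (mem_coe.1 hd)).2
        (mem_filter.1 (mem_coe.1 hd')).2 k) fun u hu => by
      obtain ⟨d, k1, k2⟩ := (mem_filter.1 (mem_coe.1 hu)).2.out
      exact ⟨d, by simpa using k2, k1⟩
  rw [e]
  exact ⟨card_le_univ _, fun k => by rw [filter_true_of_mem fun u _ => k u, card_univ, nv]⟩

end RCnt

theorem cnt : CntStmt := fun _ _ _ =>
  ⟨RCnt.rho4, RCnt.wt_univ, RCnt.card_F, RCnt.excess, RCnt.mul_card_le, RCnt.tch_le,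
    RCnt.faces_at, RCnt.meet_le, fun h S _ => RCnt.suns_le h S, RCnt.ell_le, RCnt.ball_le,
    fun _ => RCnt.ell_nv⟩

end Pool.Agent.MP_42ec7b_co

end MrgPart1

-- ======== part 2: formerly Pool.Agent.MP_42ec7b_co.A.RDense
section MrgPart2

/-! Many pure triangles give a seed that misses few of them. -/

set_option autoImplicit false

open Finset

namespace Pool.Agent.MP_42ec7b_co

open Classical PM

namespace DenseA

lemma pack {α : Type} (I : Finset ℕ) (S : ℕ → Finset α) (T : Finset α) (k : ℕ)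
    (h1 : ∀ u ∈ I, S u ⊆ T) (h2 : ∀ u ∈ I, k ≤ #(S u))
    (h3 : ∀ u ∈ I, ∀ u' ∈ I, u < u' → Disjoint (S u) (S u')) : #I * k ≤ #T := by
  have a : #(I.biUnion S) = ∑ u ∈ I, #(S u) := card_biUnion fun u hu u' hu' hne =>
    (lt_or_gt_of_ne hne).elim (h3 u hu u' hu') fun k => (h3 u' hu' u hu k).symm
  calc #I * k ≤ ∑ u ∈ I, #(S u) := card_nsmul_le_sum I _ k h2
    _ = #(I.biUnion S) := a.symm
    _ ≤ #T := card_le_card (biUnion_subset.2 h1)

variable {D : Type} [PM D] {A W : Finset (F D)} {h g : F D} {M : ℕ}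
  {Y Lf Rt : ℕ → Finset (F D)} {Bad : Finset ℕ} {t : ℕ → F D}

lemma rev (c : Cor A h g M Y Lf Rt Bad) :
    Cor A h g M (fun k => Y (M - 1 - k)) (fun k => Rt (M - 1 - k)) (fun k => Lf (M - 1 - k))
      (Bad.image fun k => M - 2 - k) where
  rung i hi := c.rung _ (by omega)
  cL i hi := c.cR _ (by omega)
  cR i hi := c.cL _ (by omega)
  dis i hi := (c.dis _ (by omega)).symm
  nest i j h1 h2 x hx := by
    by_contra k
    exact (mem_sdiff.1 hx).2 (c.nest (M - 1 - j) (M - 1 - i) (by omega) (by omega)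
      (mem_sdiff.2 ⟨(mem_sdiff.1 hx).1, k⟩))
  thru i hi Z h1 h2 := (c.thru _ (by omega) Z h1 h2).symm
  clean i j h1 h2 hb u k1 k2 := c.clean (M - 1 - j) (M - 1 - i) (by omega) (by omega)
    (fun k hk => by have := hb _ (mem_image_of_mem _ hk); omega) u (by rwa [inter_comm]) k2
  band i j h1 h2 hb q hq := by
    obtain ⟨Z, k1, k2, k3, k4, k5⟩ := c.band (M - 1 - j) (M - 1 - i) (by omega) (by omega)
      (fun k hk => by have := hb _ (mem_image_of_mem _ hk); omega) q hq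
    exact ⟨Z, k1, k2, by rwa [union_comm], fun x hx => by rw [union_comm]; exact k4 x hx,
      fun x hx => k5 x (by rwa [inter_comm])⟩

lemma lf_rt (c : Cor A h g M Y Lf Rt Bad) {i j : ℕ} (h1 : i < j) (h2 : j < M) {x : F D}
    (k1 : x ∈ Lf i) (k2 : x ∈ Rt j) : False :=
  disjoint_left.1 (c.dis j h2) (c.nest i j h1 h2 (mem_sdiff.2
    ⟨(mem_sdiff.1 ((c.cL i (by omega)).1 k1)).1, disjoint_left.1 (c.dis i (by omega)) k1⟩)) k2

lemma ad_plain {x q : F D} (hq : q ∈ A) (k : Ad {x} {q}) : ∃ u, Tch {x} u ∧ Tch {q} u ∧ Tch A u := by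
  obtain ⟨d, k1, k2⟩ := k
  exact ⟨v d, tch_v k1, tch_v' k2, (tch_v' k2).mono (singleton_subset_iff.2 hq)⟩

lemma rung_of (hh : h ∈ A) (hg : g ∈ A) {y : F D} (p : Pure A {h, g} y) : Rung A h g {y} := by
  obtain ⟨p1, -, p3, h', a1, g', a2, a3, a4, u', b1, b2⟩ := p
  have m : ∀ z ∈ ({h, g} : Finset (F D)), z ∈ A := fun z hz => by
    rcases mem_insert.1 hz with rfl | k
    · exact hh
    · rw [mem_singleton.1 k]; exact hg
  have pl : ∀ z ∈ A, ∀ u, Tch {y} u → Tch {z} u → Plain A z u := fun z hz u k1 k2 => by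
    obtain ⟨q, hq⟩ := p3 u k1 (k2.mono (singleton_subset_iff.2 hz))
    rwa [hq.2.2 z hz k2]
  obtain ⟨u, c1, c2, -⟩ := ad_plain (m h' a1) a4
  have e1 := pl h' (m h' a1) u c1 c2
  have e2 := pl g' (m g' a2) u' b1 b2
  refine ⟨singleton_subset_iff.2 (mem_compl.2 p1), conn_single y, ?_⟩
  simp only [mem_insert, mem_singleton] at a1 a2
  rcases a1 with rfl | rfl <;> rcases a2 with rfl | rfl
  · exact absurd rfl a3
  · exact ⟨⟨u, c1, e1⟩, u', b1, e2⟩
  · exact ⟨⟨u', b1, e2⟩, u, c1, e1⟩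
  · exact absurd rfl a3

lemma core [Q4 D] (hC : CntStmt) (hD : DwStmt) {w e r b x U k1 : ℕ} (hA : Disc A) (hne : h ≠ g)
    (hh : h ∈ W) (hg : g ∈ W) (hW : W ⊆ A) (c : Cor A h g M (fun k => {t k}) Lf Rt Bad)
    (hp : ∀ k < M, Pure A {h, g} (t k)) (hall : ∀ y, Pure A {h, g} y → ∃ k < M, t k = y)
    (hr : nv D ≤ b * r) (h3 : 3 ≤ r)
    (hx : #{d | f d ∉ A ∧ f (α d) ∈ W ∧ ¬Pure A W (f d) ∧
      ∀ u, Tch {f d} u → Tch A u → ∃ g ∈ W, Plain A g u} ≤ x * (e + 1))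
    (hU : #Bad + 4 * b + x < U) (hk : U * (2 * w + 2) ≤ k1) (hM : k1 < M) :
    ∃ i < k1, ∃ P R, Seed0 w e r (Rt i) P R := by
  let Z : ℕ → Finset (F D) := fun u => Rt (u * (2 * w + 2)) ∩ Lf (u * (2 * w + 2) + 2 * w + 1)
  have hlt : ∀ u < U, u * (2 * w + 2) + 2 * w + 1 < k1 := fun u hu => by
    have := Nat.mul_le_mul_right (2 * w + 2) (Nat.succ_le_of_lt hu)
    rw [Nat.succ_mul] at this
    omega
  have hdis : ∀ u < U, ∀ u' < U, u < u' → ∀ y, y ∈ Z u → y ∈ Z u' → False :=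
    fun u _ u' hu' k y k1 k2 => by
      have a := Nat.mul_le_mul_right (2 * w + 2) (Nat.succ_le_of_lt k)
      rw [Nat.succ_mul] at a
      have := hlt u' hu'
      exact lf_rt c (by omega) (by omega) (mem_inter.1 k1).2 (mem_inter.1 k2).1
  let B1 : Finset ℕ := Bad.image fun k => k / (2 * w + 2)
  let B2 : Finset ℕ := (range U).filter fun u => r < wt (Z u)
  let Dt : ℕ → Finset D := fun u => {d | f d ∈ Z u ∧ f (α d) ∈ A ∧ ∀ k < M, f d ≠ t k}
  let B3 : Finset ℕ := (range U).filter fun u => u ∉ B1 ∧ e < #(Dt u)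
  have hb : ∀ u, u ∉ B1 → ∀ k ∈ Bad, k < u * (2 * w + 2) ∨ u * (2 * w + 2) + 2 * w + 1 ≤ k := by
    intro u hu k hk
    by_contra m
    refine hu (mem_image.2 ⟨k, hk, Nat.div_eq_of_lt_le (by omega) ?_⟩)
    rw [Nat.succ_mul]
    omega
  have a1 : #B1 ≤ #Bad := card_image_le
  have a2 : #B2 ≤ 4 * b := by
    have k := pack B2 (fun u => {d : D | f d ∈ Z u}) {d : D | f d ∈ (univ : Finset (F D))} (r + 1)
      (fun u _ d _ => by simp) (fun u hu => (mem_filter.1 hu).2)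
      (fun u hu u' hu' k => disjoint_left.2 fun d k1 k2 =>
        hdis u (mem_range.1 (mem_filter.1 hu).1) u' (mem_range.1 (mem_filter.1 hu').1) k _
          (mem_filter.1 k1).2 (mem_filter.1 k2).2)
    have k2 : #{d : D | f d ∈ (univ : Finset (F D))} = 4 * nv D := (hC D).2.1
    rw [k2] at k
    refine Nat.le_of_mul_le_mul_right (c := r + 1) (k.trans ?_) (by omega)
    nlinarith
  have a3 : #B3 ≤ x := by
    refine Nat.le_of_mul_le_mul_right (c := e + 1) (le_trans (pack B3 Dt _ (e + 1)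
      (fun u hu d hd => ?_) (fun u hu => (mem_filter.1 hu).2.2)
      (fun u hu u' hu' k => disjoint_left.2 fun d k1 k2 =>
        hdis u (mem_range.1 (mem_filter.1 hu).1) u' (mem_range.1 (mem_filter.1 hu').1) k _
          (mem_filter.1 k1).2.1 (mem_filter.1 k2).2.1)) hx) (by omega)
    obtain ⟨-, d1, d2, d3⟩ := mem_filter.1 hd
    have hu1 := hlt u (mem_range.1 (mem_filter.1 hu).1)
    have cl : ∀ y, Tch {f d} y → Tch A y → Plain A h y ∨ Plain A g y := fun y k1 k2 =>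
      c.clean _ _ (by omega) (by omega) (hb u (mem_filter.1 hu).2.1) y
        (k1.mono (singleton_subset_iff.2 d1)) k2
    have two : ∀ z ∈ A, ∀ y, Tch {f d} y → Tch {z} y → z ∈ ({h, g} : Finset (F D)) :=
      fun z hz y k1 k2 => by
        rcases cl y k1 (k2.mono (singleton_subset_iff.2 hz)) with k | k
        · rw [k.2.2 z hz k2]; simp
        · rw [k.2.2 z hz k2]; simp
    refine mem_filter.2 ⟨mem_univ _, mem_compl.1
      (mem_sdiff.1 ((c.cR _ (by omega)).1 (mem_inter.1 d1).1)).1, ?_, ?_, fun y k1 k2 => ?_⟩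
    · have := two _ d2 (v d) (tch_v (mem_singleton_self _)) (tch_v' (mem_singleton_self _))
      rcases mem_insert.1 this with k | k
      · rwa [k]
      · rwa [mem_singleton.1 k]
    · rintro ⟨p1, p2, p3, h', q1, g', q2, q3, q4, y', q5, q6⟩
      obtain ⟨y, m1, m2, -⟩ := ad_plain (hW q1) q4
      obtain ⟨k, k1, k2⟩ := hall (f d) ⟨p1, p2, p3, h', two _ (hW q1) y m1 m2, g',
        two _ (hW q2) y' q5 q6, q3, q4, y', q5, q6⟩
      exact d3 k k1 k2.symm
    · exact (cl y k1 k2).elim (fun k => ⟨h, hh, k⟩) fun k => ⟨g, hg, k⟩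
  obtain ⟨u, hu, hn⟩ : ∃ u ∈ range U, u ∉ B1 ∪ B2 ∪ B3 := by
    refine exists_mem_notMem_of_card_lt_card ?_
    have := card_union_le (B1 ∪ B2) B3
    have := card_union_le B1 B2
    rw [card_range]
    omega
  simp only [mem_union, not_or] at hn
  have hu1 := hlt u (mem_range.1 hu)
  refine ⟨u * (2 * w + 2), by omega, hD D A h g M t Lf Rt Bad _ w e r hA hne c hp (by omega)
    (hb u hn.1.1) ?_ ?_ h3⟩
  · exact not_lt.1 fun k => hn.2 (mem_filter.2 ⟨hu, hn.1.1, k⟩)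
  · exact not_lt.1 fun k => hn.1.2 (mem_filter.2 ⟨hu, k⟩)

lemma side {r0 : F D} {C : Finset (F D)} (h1 : C ⊆ Aᶜ) (h2 : Conn C) (h3 : C = ∅ ∨ r0 ∈ C)
    (c : Cor A h g M (fun k => {t k}) Lf Rt Bad) {i k : ℕ} (hk : k < M) (hi : i < k)
    (ht : t k ∉ C) (hr : r0 ∈ Rt k) : Rt i ⊆ Aᶜ ∧ Conn (Rt i) ∧ r0 ∈ Rt i ∧ #C < #(Rt i) := by
  have a : Rt k ⊆ Rt i := fun x hx => by_contra fun m => disjoint_left.1 (c.dis k hk)
    (c.nest i k hi hk (mem_sdiff.2 ⟨(mem_sdiff.1 ((c.cR k hk).1 hx)).1, m⟩)) hx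
  have b : C ⊆ Rt k := by
    rcases h3 with rfl | m
    · exact empty_subset _
    · exact h2.sub (subset_sdiff.2 ⟨h1, disjoint_singleton_right.2 ht⟩) (c.cR k hk).2.2.2 m hr
  have e : t k ∈ Rt i := by_contra fun m => (mem_sdiff.1 ((c.cL k hk).1 (c.nest i k hi hk
    (mem_sdiff.2 ⟨(c.rung k hk).1 (mem_singleton_self _), m⟩)))).2 (mem_singleton_self _)
  exact ⟨(c.cR i (by omega)).1.trans sdiff_subset, (c.cR i (by omega)).2.2.1, a hr,
    card_lt_card ⟨b.trans a, fun m => ht (m e)⟩⟩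

lemma num {n a H q T w e y : ℕ} (h1 : (16 * (a * H ^ 2) * q + 1) * (e + 1) * y ≤ n)
    (h2 : w ≤ q * e) (h3 : 32 * (a * H ^ 2) * T * w ≤ n) (h4 : 4 * (a * H ^ 2 + a) ≤ n)
    (h5 : 1 ≤ w) : a * (H ^ 2 * (2 * ((T + y) * (2 * w + 2)) + 1) + 1) ≤ n := by
  have e1 : a * (H ^ 2 * (2 * ((T + y) * (2 * w + 2)) + 1) + 1) =
      a * H ^ 2 * (2 * ((T + y) * (2 * w + 2))) + (a * H ^ 2 + a) := by ring
  rw [e1]
  generalize a * H ^ 2 = G at *
  have e2 : G * (2 * ((T + y) * (2 * w + 2))) ≤ G * (2 * ((T + y) * (4 * w))) := by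
    gcongr; omega
  have e3 : 16 * G * w * y ≤ (16 * G * q + 1) * (e + 1) * y := by
    refine Nat.mul_le_mul_right _ ?_
    calc 16 * G * w ≤ 16 * G * (q * e) := Nat.mul_le_mul_left _ h2
      _ = 16 * G * q * e := by ring
      _ ≤ _ := Nat.mul_le_mul (by omega) (by omega)
  have e4 : 4 * (G * (2 * ((T + y) * (4 * w)))) = 32 * G * T * w + 2 * (16 * G * w * y) := by ring
  omega

end DenseA

theorem dense (hC : CntStmt) (hO : OrdStmt) (hD : DwStmt) : DenseStmt := by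
  intro H q a
  refine ⟨16 * (a * H ^ 2) * q + 1, fun b j =>
    ⟨32 * (a * H ^ 2) * (2 * j + 4 * b + 2) + 4 * (a * H ^ 2 + a) + 3 * b + 1, ?_⟩⟩
  intro D _ _ w e r A W n1 n2 n3 n4 n5 hA hW hH hj hNP hP
  have h3 : 3 ≤ r := by
    by_contra m
    have := Nat.mul_le_mul_left b (show r ≤ 2 by omega)
    omega
  have ha : 0 < a := Nat.pos_of_ne_zero fun m => by
    rw [m, zero_mul] at hP
    omega
  obtain ⟨y, hy⟩ : ∃ y, y = nv D / ((16 * (a * H ^ 2) * q + 1) * (e + 1)) := ⟨_, rfl⟩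
  have y1 : (16 * (a * H ^ 2) * q + 1) * (e + 1) * y ≤ nv D := hy ▸ Nat.mul_div_le _ _
  have y2 : nv D < (16 * (a * H ^ 2) * q + 1) * (e + 1) * (y + 1) :=
    hy ▸ Nat.lt_mul_div_succ _ (by positivity)
  have hx := Nat.le_of_mul_le_mul_left (hNP.trans (y2.le.trans (le_of_eq
    (show _ = (16 * (a * H ^ 2) * q + 1) * ((y + 1) * (e + 1)) by ring)))) (by omega)
  obtain ⟨N, hN⟩ : ∃ N, N = (2 * j + 4 * b + 2 + y) * (2 * w + 2) := ⟨_, rfl⟩
  have hl : H ^ 2 * (2 * N + 1) + 1 ≤ nv D / a := by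
    rw [Nat.le_div_iff_mul_le ha, mul_comm, hN]
    exact DenseA.num y1 n4 ((Nat.mul_le_mul_right _ (by omega)).trans n2) (by omega) (by omega)
  obtain ⟨r0, hr0⟩ := hA.2.1
  obtain ⟨C, ⟨c1, c2, c3, c4⟩, cm⟩ := Set.exists_max_image
    {C : Finset (F D) | C ⊆ Aᶜ ∧ Conn C ∧ (C = ∅ ∨ r0 ∈ C) ∧
      nv D / a ≤ #{t | Pure A W t ∧ t ∉ C}} card (Set.toFinite _)
    ⟨∅, empty_subset _, fun _ _ _ _ => empty_subset _, Or.inl rfl,
      (Nat.div_le_of_le_mul hP).trans (card_le_card fun t ht =>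
        mem_filter.2 ⟨mem_univ _, (mem_filter.1 ht).2, notMem_empty _⟩)⟩
  obtain ⟨⟨h, g⟩, hp, hbig⟩ : ∃ p ∈ W ×ˢ W,
      2 * N + 1 < #{t | p.1 ≠ p.2 ∧ Pure A {p.1, p.2} t ∧ t ∉ C} := by
    by_contra m
    push Not at m
    have s : ({t | Pure A W t ∧ t ∉ C} : Finset (F D)) ⊆ (W ×ˢ W).biUnion fun p =>
        {t | p.1 ≠ p.2 ∧ Pure A {p.1, p.2} t ∧ t ∉ C} := by
      intro t ht
      obtain ⟨-, ⟨p1, p2, p3, h, q1, g, q2, q3, q4, q5⟩, k⟩ := mem_filter.1 ht
      exact mem_biUnion.2 ⟨(h, g), mem_product.2 ⟨q1, q2⟩, mem_filter.2 ⟨mem_univ _, q3,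
        ⟨p1, p2, p3, h, by simp, g, by simp, q3, q4, q5⟩, k⟩⟩
    have s2 := (card_le_card s).trans (card_biUnion_le_card_mul _ _ _ m)
    rw [card_product] at s2
    have s3 : #W * #W * (2 * N + 1) ≤ H ^ 2 * (2 * N + 1) :=
      Nat.mul_le_mul_right _ (by rw [sq]; exact Nat.mul_le_mul hH hH)
    omega
  obtain ⟨hh, hg⟩ : h ∈ W ∧ g ∈ W := mem_product.1 hp
  have hne : h ≠ g := by
    obtain ⟨t, ht⟩ := card_pos.1 (lt_of_le_of_lt (Nat.zero_le _) hbig)
    exact (mem_filter.1 ht).2.1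
  obtain ⟨Y, Lf, Rt, Bad, c, o1, o2, o3⟩ := hO D A h g
    ((univ.filter fun t => Pure A {h, g} t).image fun t => ({t} : Finset (F D))) hA hne
    (fun Y hY => by
      obtain ⟨t, ht, rfl⟩ := mem_image.1 hY
      exact ⟨DenseA.rung_of (hW hh) (hW hg) (mem_filter.1 ht).2, (mem_filter.1 ht).2.2.2.1⟩)
    (fun Y hY Y' hY' k => by
      obtain ⟨t, -, rfl⟩ := mem_image.1 hY
      obtain ⟨t', -, rfl⟩ := mem_image.1 hY'
      exact disjoint_singleton.2 fun m => k (by rw [m]))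
  generalize #((univ.filter fun t => Pure A {h, g} t).image fun t => ({t} : Finset (F D))) = M
    at c o1 o2
  have ht : ∀ k, ∃ t, k < M → Pure A {h, g} t ∧ {t} = Y k := fun k => by
    by_cases m : k < M
    · obtain ⟨t, k1, k2⟩ := mem_image.1 (o1 k m)
      exact ⟨t, fun _ => ⟨(mem_filter.1 k1).2, k2⟩⟩
    · exact ⟨h, fun m' => absurd m' m⟩
  choose t ht using ht
  have c' : Cor A h g M (fun k => {t k}) Lf Rt Bad :=
    ⟨fun i hi => (ht i hi).2 ▸ c.rung i hi, fun i hi => (ht i hi).2 ▸ c.cL i hi,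
      fun i hi => (ht i hi).2 ▸ c.cR i hi, c.dis, c.nest, fun i hi => (ht i hi).2 ▸ c.thru i hi,
      c.clean, fun i k h1 h2 => (ht i (h1.trans h2)).2 ▸ (ht k h2).2 ▸ c.band i k h1 h2⟩
  have hall : ∀ z, Pure A {h, g} z → ∃ k < M, t k = z := fun z hz => by
    obtain ⟨k, k1, k2⟩ := o2 {z} (mem_image_of_mem _ (mem_filter.2 ⟨mem_univ _, hz⟩))
    exact ⟨k, k1, singleton_injective ((ht k k1).2.trans k2)⟩
  have hB : #Bad + 4 * b + (y + 1) < 2 * j + 4 * b + 2 + y := by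
    have := hj h hh
    have := hj g hg
    omega
  obtain ⟨k1, k2, m1, m2, m3, m4, m5⟩ : ∃ k1 k2, N ≤ k1 ∧ k1 < k2 ∧ k2 + N < M ∧ t k1 ∉ C ∧
      t k2 ∉ C := by
    let I : Finset ℕ := (range M).filter fun k => N ≤ k ∧ k + N < M ∧ t k ∉ C
    have s : ({t | h ≠ g ∧ Pure A {h, g} t ∧ t ∉ C} : Finset (F D)) ⊆
        (I ∪ range N ∪ Ico (M - N) M).image t := by
      intro z hz
      obtain ⟨k, k1, rfl⟩ := hall z (mem_filter.1 hz).2.2.1
      refine mem_image_of_mem _ ?_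
      by_cases m : N ≤ k ∧ k + N < M
      · exact mem_union_left _ (mem_union_left _
          (mem_filter.2 ⟨mem_range.2 k1, m.1, m.2, (mem_filter.1 hz).2.2.2⟩))
      · simp only [mem_union, mem_range, mem_Ico]
        omega
    have s1 := (card_le_card s).trans card_image_le
    have s2 := card_union_le (I ∪ range N) (Ico (M - N) M)
    have s3 := card_union_le I (range N)
    rw [Nat.card_Ico] at s2
    rw [card_range] at s3
    have s4 : 1 < #I := by
      dsimp only at hbig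
      omega
    obtain ⟨u, hu, u', hu', k⟩ := one_lt_card.1 s4
    obtain ⟨-, a1, a2, a3⟩ := mem_filter.1 hu
    obtain ⟨-, b1, b2, b3⟩ := mem_filter.1 hu'
    rcases lt_or_gt_of_ne k with k | k
    · exact ⟨u, u', a1, k, b2, a3, b3⟩
    · exact ⟨u', u, b1, k, a2, b3, a3⟩
  have fin : ∀ X : Finset (F D), (X ⊆ Aᶜ ∧ Conn X ∧ r0 ∈ X ∧ #C < #X) →
      (∃ P R, Seed0 w e r X P R) →
      ∃ A' P R, A' ⊆ Aᶜ ∧ Seed0 w e r A' P R ∧ a * #{t | Pure A W t ∧ t ∉ A'} ≤ nv D := by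
    rintro X ⟨x1, x2, x3, x4⟩ ⟨P, R, x5⟩
    refine ⟨X, P, R, x1, x5, le_trans (Nat.mul_le_mul_left _ ?_) (Nat.mul_div_le _ a)⟩
    by_contra m
    exact absurd (cm X ⟨x1, x2, Or.inr x3, (not_le.1 m).le⟩) (not_le.2 x4)
  by_cases hr : r0 ∈ Rt k1
  · obtain ⟨i, hi, s⟩ := DenseA.core hC hD hA hne hh hg hW c' (fun k hk => (ht k hk).1) hall n5 h3
      hx hB (hN ▸ m1) (by omega)
    exact fin _ (DenseA.side c1 c2 c3 c' (by omega) hi m4 hr) s
  · have hr' : r0 ∈ Lf k2 := c.nest k1 k2 m2 (by omega) (mem_sdiff.2 ⟨hr0, hr⟩)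
    have e2 : M - 1 - (M - 1 - k2) = k2 := by omega
    obtain ⟨i, hi, s⟩ := DenseA.core (w := w) (k1 := M - 1 - k2) (t := fun k => t (M - 1 - k)) hC hD
      hA hne hh hg hW (DenseA.rev c') (fun k hk => (ht _ (by omega)).1)
      (fun z hz => by
        obtain ⟨k, a1, a2⟩ := hall z hz
        exact ⟨M - 1 - k, by omega, by rwa [show M - 1 - (M - 1 - k) = k by omega]⟩)
      n5 h3 hx (lt_of_le_of_lt (Nat.add_le_add_right (Nat.add_le_add_right card_image_le _) _) hB)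
      (by omega) (by omega)
    exact fin _ (DenseA.side (t := fun k => t (M - 1 - k)) c1 c2 c3 (DenseA.rev c') (by omega) hi
      (by rwa [e2]) (by rwa [e2])) s

end Pool.Agent.MP_42ec7b_co

end MrgPart2

-- ======== part 3: formerly Pool.Agent.MP_42ec7b_co.A.RDw
section MrgPart3

/-!
A window of pure triangles is a seed.
-/

set_option autoImplicit false

open Finset

namespace Pool.Agent.MP_42ec7b_co

open Classical

open PM

namespace Dw

variable {D : Type} [PM D]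

/-- A component of the outside minus a face is adjacent to that face. -/
lemma cmp_ad {A Z : Finset (F D)} {τ : F D} (hA : Conn Aᶜ) (hτ : τ ∉ A)
    (hZ : Cmp (Aᶜ \ {τ}) Z) : Ad {τ} Z := by
  obtain ⟨d, d1, d2, d3⟩ := hA.exit (hZ.1.trans sdiff_subset) hZ.2.1
    fun m => (mem_sdiff.1 (hZ.1 (m (mem_compl.2 hτ)))).2 (mem_singleton_self _)
  exact Ad.symm ⟨d, d1, by_contra fun m => d3 (hZ.2.2.2 d d1 (mem_sdiff.2 ⟨d2, m⟩))⟩

/-- A triangle that cuts the outside of a disc and is adjacent to the disc. -/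
lemma tri_cut {A L R : Finset (F D)} {τ : F D} (hA : Conn Aᶜ) (hτ : τ ∉ A) (h3 : sz τ = 3)
    (ha : Ad {τ} A) (hL : Cmp (Aᶜ \ {τ}) L) (hR : Cmp (Aᶜ \ {τ}) R) (hd : Disjoint L R) :
    ex {τ} A = 1 ∧ ex {τ} R = 1 ∧ ∀ x, x ∉ A → x = τ ∨ x ∈ L ∨ x ∈ R := by
  have a1 := ex_pos.2 ha
  have a2 := ex_pos.2 (cmp_ad hA hτ hL)
  have a3 := ex_pos.2 (cmp_ad hA hτ hR)
  have dA : Disjoint A (L ∪ R) := disjoint_left.2 fun x x1 x2 => (mem_union.1 x2).elim
    (fun m => mem_compl.1 (mem_sdiff.1 (hL.1 m)).1 x1)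
    fun m => mem_compl.1 (mem_sdiff.1 (hR.1 m)).1 x1
  have e1 := wt_split (S := {τ}) (T := A ∪ (L ∪ R))
  rw [wt_single, ex_union dA, ex_union hd] at e1
  refine ⟨by omega, by omega, fun x hx => ?_⟩
  by_contra k
  simp only [not_or] at k
  obtain ⟨Z, z1, z2⟩ := exists_cmp (S := Aᶜ \ {τ}) (x := x)
    (mem_sdiff.2 ⟨mem_compl.2 hx, fun m => k.1 (mem_singleton.1 m)⟩)
  obtain ⟨d, d1, d2⟩ := cmp_ad hA hτ z1
  have : 0 < ex {τ} (A ∪ (L ∪ R))ᶜ := ex_pos.2 ⟨d, d1, mem_compl.2 fun m => by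
    rcases mem_union.1 m with m | m
    · exact mem_compl.1 (mem_sdiff.1 (z1.1 d2)).1 m
    · rcases mem_union.1 m with m | m
      · exact k.2.1 (z1.eq hL d2 m ▸ z2)
      · exact k.2.2 (z1.eq hR d2 m ▸ z2)⟩
  omega

/-- The facts about a corridor of triangles that are used. -/
structure Tc (A : Finset (F D)) (M : ℕ) (t : ℕ → F D) (Lf Rt : ℕ → Finset (F D)) : Prop where
  nA : ∀ k < M, t k ∉ A
  cL : ∀ k < M, Cmp (Aᶜ \ {t k}) (Lf k)
  cR : ∀ k < M, Cmp (Aᶜ \ {t k}) (Rt k)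
  dis : ∀ k < M, Disjoint (Lf k) (Rt k)
  nest : ∀ i j, i < j → j < M → Aᶜ \ Rt i ⊆ Lf j
  eA : ∀ k < M, ex {t k} A = 1
  eR : ∀ k < M, ex {t k} (Rt k) = 1
  part : ∀ k < M, ∀ x, x ∉ A → x = t k ∨ x ∈ Lf k ∨ x ∈ Rt k

namespace Tc

variable {A : Finset (F D)} {M : ℕ} {t : ℕ → F D} {Lf Rt : ℕ → Finset (F D)} {a b : ℕ}
  {x : F D} {d : D}

lemma rA (c : Tc A M t Lf Rt) (ha : a < M) (hx : x ∈ Rt a) : x ∉ A :=
  mem_compl.1 (mem_sdiff.1 ((c.cR a ha).1 hx)).1

lemma tR (c : Tc A M t Lf Rt) (ha : a < M) : t a ∉ Rt a := fun m =>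
  (mem_sdiff.1 ((c.cR a ha).1 m)).2 (mem_singleton_self _)

lemma tL (c : Tc A M t Lf Rt) (ha : a < M) : t a ∉ Lf a := fun m =>
  (mem_sdiff.1 ((c.cL a ha).1 m)).2 (mem_singleton_self _)

lemma inL (c : Tc A M t Lf Rt) (hab : a < b) (hb : b < M) (h1 : x ∉ A) (h2 : x ∉ Rt a) :
    x ∈ Lf b := c.nest a b hab hb (mem_sdiff.2 ⟨mem_compl.2 h1, h2⟩)

lemma anti (c : Tc A M t Lf Rt) (hab : a ≤ b) (hb : b < M) : Rt b ⊆ Rt a := by
  rcases hab.eq_or_lt with rfl | hab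
  · exact Subset.rfl
  · exact fun x hx => by_contra fun m =>
      disjoint_left.1 (c.dis b hb) (c.inL hab hb (c.rA hb hx) m) hx

lemma tin (c : Tc A M t Lf Rt) (hab : a < b) (hb : b < M) : t b ∈ Rt a :=
  by_contra fun m => c.tL hb (c.inL hab hb (c.nA b hb) m)

lemma out (c : Tc A M t Lf Rt) (ha : a < M) (h1 : f d ∈ Rt a) (h2 : f (α d) ∉ A)
    (h3 : f (α d) ∉ Rt a) : f (α d) = t a :=
  by_contra fun m => h3 ((c.cR a ha).2.2.2 d h1
    (mem_sdiff.2 ⟨mem_compl.2 h2, fun k => m (mem_singleton.1 k)⟩))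

lemma nad (c : Tc A M t Lf Rt) (hb : b < M) (h1 : f d ∈ Lf b) : f (α d) ∉ Rt b := fun m =>
  disjoint_left.1 (c.dis b hb) ((c.cL b hb).2.2.2 d h1 ((c.cR b hb).1 m)) m

lemma conn (c : Tc A M t Lf Rt) (hab : a < b) (hb : b < M) : Conn (Rt a \ Rt b) :=
  conn_sdiff (c.cR a (hab.trans hb)).2.2.1 (conn_single (t b)) (singleton_nonempty _)
    (singleton_subset_iff.2 (mem_sdiff.2 ⟨c.tin hab hb, c.tR hb⟩)) fun _ d1 d2 d3 =>
      mem_singleton.2 (c.out hb d1 (c.rA (hab.trans hb) d2) d3)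

lemma disc (c : Tc A M t Lf Rt) (hA : Disc A) (ha : a < M) : Disc (Rt a) := by
  refine ⟨(c.cR a ha).2.1, ⟨t a, mem_compl.2 (c.tR ha)⟩, (c.cR a ha).2.2.1, ?_⟩
  have e : (Rt a)ᶜ = ({t a} ∪ A) ∪ Lf a := by
    ext x
    simp only [mem_compl, mem_union, mem_singleton]
    constructor
    · intro m
      by_cases k : x ∈ A
      · exact Or.inl (Or.inr k)
      · rcases c.part a ha x k with k | k | k
        exacts [Or.inl (Or.inl k), Or.inr k, absurd k m]
    · rintro ((rfl | k) | k) m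
      exacts [c.tR ha m, c.rA ha m k, disjoint_left.1 (c.dis a ha) k m]
  rw [e]
  exact conn_union (conn_union (conn_single _) hA.2.2.1
    (Or.inl (ex_pos.1 (by rw [c.eA a ha]; exact one_pos)))) (c.cL a ha).2.2.1
    (Or.inl ((cmp_ad hA.2.2.2 (c.nA a ha) (c.cL a ha)).mono subset_union_left Subset.rfl))

/-- One edge from a window to the first triangle. -/
lemma ex_first (c : Tc A M t Lf Rt) (hab : a < b) (hb : b < M) :
    ex (Rt a \ Rt b) {t a} = 1 := by
  rw [ex_comm, ← c.eR a (hab.trans hb)]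
  unfold ex
  congr 1
  ext d
  simp only [mem_filter, mem_univ, true_and, mem_singleton, mem_sdiff]
  refine and_congr_right fun m => ⟨fun k => k.1, fun k => ⟨k, c.nad hb ?_⟩⟩
  rw [m]
  exact c.inL hab hb (c.nA a (hab.trans hb)) (c.tR (hab.trans hb))

/-- One edge from a window to the rest. -/
lemma ex_last (c : Tc A M t Lf Rt) (hab : a < b) (hb : b < M) :
    ex (Rt a \ Rt b) (Rt b) = 1 := by
  rw [← c.eR b hb]
  unfold ex
  congr 1
  ext d
  simp only [mem_filter, mem_univ, true_and, mem_singleton, mem_sdiff]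
  refine and_congr_left fun m => ⟨fun k => ?_, fun k => ?_⟩
  · have := c.out (d := α d) hb m (by rw [αα]; exact c.rA (hab.trans hb) k.1)
      (by rw [αα]; exact k.2)
    rwa [αα] at this
  · rw [k]
    exact ⟨c.tin hab hb, c.tR hb⟩

/-- Removing an initial part of a window. -/
lemma cut (c : Tc A M t Lf Rt) {j : ℕ} {S : Finset (F D)} (hab : a < b) (hbj : b < j)
    (hj : j < M) (hS : Disc S) (h1 : Rt a \ Rt j ⊆ S) (h2 : t a ∉ S)
    (h3 : ∀ d, f d ∈ Rt a \ Rt b → f (α d) ∈ A → f (α d) ∉ S) :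
    Disc (S \ (Rt a \ Rt b)) ∧ ell (S \ (Rt a \ Rt b)) + ex (Rt a \ Rt b) A = ell S := by
  have hb := hbj.trans hj
  have ha := hab.trans hb
  have s1 : Rt a \ Rt b ⊆ S := (sdiff_subset_sdiff Subset.rfl (c.anti hbj.le hj)).trans h1
  have s2 : Rt b \ Rt j ⊆ S := (sdiff_subset_sdiff (c.anti hab.le hb) Subset.rfl).trans h1
  have nb : ∀ d, f d ∈ Rt a \ Rt b → f (α d) ∉ Rt a \ Rt b →
      f (α d) ∈ A ∨ f (α d) = t a ∨ f (α d) ∈ Rt b \ Rt j := fun d d1 d2 => by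
    by_cases k : f (α d) ∈ A
    · exact Or.inl k
    by_cases k' : f (α d) ∈ Rt a
    · exact Or.inr (Or.inr (mem_sdiff.2 ⟨by_contra fun m => d2 (mem_sdiff.2 ⟨k', m⟩),
        c.nad hj (c.inL hbj hj (c.rA ha (mem_sdiff.1 d1).1) (mem_sdiff.1 d1).2)⟩))
    · exact Or.inr (Or.inl (c.out ha (mem_sdiff.1 d1).1 k k'))
  have tj : t j ∈ Rt b \ Rt j := mem_sdiff.2 ⟨c.tin hbj hj, c.tR hj⟩
  have s3 : Rt b \ Rt j ⊆ S \ (Rt a \ Rt b) := fun x hx =>
    mem_sdiff.2 ⟨s2 hx, fun m => (mem_sdiff.1 m).2 (mem_sdiff.1 hx).1⟩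
  have dA : Disjoint A {t a} := disjoint_singleton_right.2 (c.nA a ha)
  refine ⟨⟨⟨_, s3 tj⟩, ⟨t a, mem_compl.2 fun m => h2 (mem_sdiff.1 m).1⟩,
    conn_sdiff hS.2.2.1 (c.conn hbj hj) ⟨_, tj⟩ s3 fun d d1 d2 d3 => ?_, ?_⟩, ?_⟩
  · rcases nb d d1 d3 with k | k | k
    exacts [absurd d2 (h3 d d1 k), absurd (k ▸ d2) h2, k]
  · have e : (S \ (Rt a \ Rt b))ᶜ = (Rt a \ Rt b) ∪ Sᶜ := by
      ext x
      simp only [mem_compl, mem_union, mem_sdiff]
      tauto
    rw [e]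
    exact conn_union (c.conn hab hb) hS.2.2.2 (Or.inl ((ex_pos.1 (by
      rw [c.ex_first hab hb]
      exact one_pos)).mono Subset.rfl (singleton_subset_iff.2 (mem_compl.2 h2))))
  · have e1 : ex (Rt a \ Rt b) Sᶜ = ex (Rt a \ Rt b) (A ∪ {t a}) := by
      unfold ex
      congr 1
      ext d
      simp only [mem_filter, mem_univ, true_and, mem_compl, mem_union, mem_singleton]
      refine and_congr_right fun m => ⟨fun k => ?_, fun k => ?_⟩
      · rcases nb d m fun k' => k (s1 k') with k' | k' | k'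
        exacts [Or.inl k', Or.inr k', absurd (s2 k') k]
      · rcases k with k | k
        exacts [h3 d m k, k ▸ h2]
    have e2 : ex (Rt a \ Rt b) (Rt a \ Rt b)ᶜ = ex (Rt a \ Rt b) ((A ∪ {t a}) ∪ Rt b) := by
      unfold ex
      congr 1
      ext d
      simp only [mem_filter, mem_univ, true_and, mem_compl, mem_union, mem_singleton]
      refine and_congr_right fun m => ⟨fun k => ?_, fun k k' => ?_⟩
      · rcases nb d m k with k' | k' | k'
        exacts [Or.inl (Or.inl k'), Or.inl (Or.inr k'), Or.inr (mem_sdiff.1 k').1]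
      · rcases k with (k | k) | k
        exacts [c.rA ha (mem_sdiff.1 k').1 k, c.tR ha (k ▸ (mem_sdiff.1 k').1),
          (mem_sdiff.1 k').2 k]
    have e3 := ell_sdiff s1
    rw [ell_eq (S := Rt a \ Rt b), e1, e2, ex_union (disjoint_right.2 fun x x1 x2 =>
      (mem_union.1 x2).elim (c.rA hb x1) fun m =>
        c.tR ha ((mem_singleton.1 m : x = t a) ▸ c.anti hab.le hb x1)), ex_union dA,
      c.ex_first hab hb, c.ex_last hab hb] at e3
    omega

lemma lt (c : Tc A M t Lf Rt) {i : ℕ} (hi : i ≤ a) (hab : a < b) (hb : b < M) :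
    ex (Rt i \ Rt a) A < ex (Rt i \ Rt b) A := by
  have e := ex_union' (A := Rt i \ Rt a) (B := {t b}) (S := A)
    (disjoint_singleton_right.2 fun m => (mem_sdiff.1 m).2 (c.tin hab hb))
  have := ex_mono (S := Rt i \ Rt a ∪ {t b}) (A := Rt i \ Rt b) (T := A) (union_subset
    (sdiff_subset_sdiff Subset.rfl (c.anti hab.le hb))
    (singleton_subset_iff.2 (mem_sdiff.2 ⟨c.tin (hi.trans_lt hab) hb, c.tR hb⟩))) Subset.rfl
  rw [c.eA b hb] at e
  omega

lemma le (c : Tc A M t Lf Rt) {j : ℕ} (hbj : b < j) (hj : j < M) (ha : a < M) :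
    ex (Rt a \ Rt b) A ≤ (b - a) +
      #{d | f d ∈ Rt a ∩ Lf j ∧ f (α d) ∈ A ∧ ∀ k < M, f d ≠ t k} := by
  refine (card_le_card (t := (Ioc a b).biUnion
    (fun m => univ.filter fun d => f d ∈ ({t m} : Finset (F D)) ∧ f (α d) ∈ A) ∪
    univ.filter fun d => f d ∈ Rt a ∩ Lf j ∧ f (α d) ∈ A ∧ ∀ k < M, f d ≠ t k)
    fun d hd => ?_).trans ((card_union_le _ _).trans (Nat.add_le_add_right ?_ _))
  · obtain ⟨-, d1, d2⟩ := mem_filter.1 hd
    obtain ⟨d0, d1⟩ := mem_sdiff.1 d1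
    by_cases k : ∀ k < M, f d ≠ t k
    · exact mem_union_right _ (mem_filter.2 ⟨mem_univ _,
        mem_inter.2 ⟨d0, c.inL hbj hj (c.rA ha d0) d1⟩, d2, k⟩)
    · simp only [not_forall, not_not] at k
      obtain ⟨m, m1, m2⟩ := k
      refine mem_union_left _ (mem_biUnion.2 ⟨m, mem_Ioc.2 ⟨?_, ?_⟩,
        mem_filter.2 ⟨mem_univ _, mem_singleton.2 m2, d2⟩⟩)
      · by_contra k
        exact c.tR m1 (m2 ▸ c.anti (not_lt.1 k) ha d0)
      · by_contra k
        exact d1 (m2 ▸ c.tin (not_le.1 k) m1)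
  · refine card_biUnion_le.trans ?_
    rw [← Nat.card_Ioc, card_eq_sum_ones]
    exact sum_le_sum fun m hm => (c.eA m (((mem_Ioc.1 hm).2.trans_lt hbj).trans hj)).le

end Tc

end Dw

theorem dw (_hC : CntStmt) : DwStmt := by
  intro D _ _ A h g M t Lf Rt Bad i w e r hA _ hc hp hM hB he hr h3
  have hi : i < M := by omega
  have hA' : h ∈ A ∧ g ∈ A := by
    obtain ⟨-, -, ⟨_, -, k1⟩, _, -, k2⟩ := hc.rung i hi
    exact ⟨k1.1, k2.1⟩
  have tc : ∀ k < M, ex {t k} A = 1 ∧ ex {t k} (Rt k) = 1 ∧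
      ∀ x, x ∉ A → x = t k ∨ x ∈ Lf k ∨ x ∈ Rt k := fun k hk => by
    obtain ⟨p1, p2, -, q, q1, -, -, -, q2, -⟩ := hp k hk
    refine Dw.tri_cut hA.2.2.2 p1 p2 (q2.mono Subset.rfl (singleton_subset_iff.2 ?_))
      (hc.cL k hk) (hc.cR k hk) (hc.dis k hk)
    rcases mem_insert.1 q1 with rfl | q1
    exacts [hA'.1, mem_singleton.1 q1 ▸ hA'.2]
  have c : Dw.Tc A M t Lf Rt := ⟨fun k hk => (hp k hk).1, hc.cL, hc.cR, hc.dis, hc.nest,
    fun k hk => (tc k hk).1, fun k hk => (tc k hk).2.1, fun k hk => (tc k hk).2.2⟩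
  obtain ⟨j, hj⟩ : ∃ j, j = i + 2 * w + 1 := ⟨_, rfl⟩
  rw [← hj] at hM hB he hr
  have hij : i < j := by omega
  refine ⟨Rt i \ Rt j, {h, g, t i}, c.disc hA hi, sdiff_subset, c.conn hij hM,
    ⟨t j, mem_sdiff.2 ⟨c.tin hij hM, c.tR hM⟩⟩, disjoint_left.2 fun x x1 x2 => ?_,
    card_le_three.trans h3, ⟨t j, (wt_mono fun x hx => ?_).trans hr⟩,
    (Ico i (i + (2 * w + 1 - e))).image fun k => ex (Rt i \ Rt k) A, fun x hx => ?_, ?_,
    fun S hS s1 s2 x hx => ?_⟩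
  · simp only [mem_insert, mem_singleton] at x2
    rcases x2 with rfl | rfl | rfl
    exacts [c.rA hi x1 hA'.1, c.rA hi x1 hA'.2, c.tR hi x1]
  · obtain ⟨x1, x2⟩ := mem_erase.1 hx
    obtain ⟨x2, x3⟩ := mem_sdiff.1 x2
    exact mem_inter.2 ⟨x2, ((c.part j hM x (c.rA hi x2)).resolve_left x1).resolve_right x3⟩
  · obtain ⟨k, k1, rfl⟩ := mem_image.1 hx
    rw [mem_Ico] at k1
    have := c.le (b := k) (by omega : k < j) hM hi
    rw [mem_range]
    omega
  · rw [card_image_of_injOn, Nat.card_Ico]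
    · omega
    · intro a ha b hb hab
      rw [mem_coe, mem_Ico] at ha hb
      by_contra k
      rcases Nat.lt_or_gt_of_ne k with k | k
      · exact (c.lt ha.1 k (by omega)).ne hab
      · exact (c.lt hb.1 k (by omega)).ne hab.symm
  · obtain ⟨k, k1, rfl⟩ := mem_image.1 hx
    rw [mem_Ico] at k1
    rcases k1.1.eq_or_lt with rfl | k2
    · have : ex (Rt i \ Rt i) A = 0 := by simp [ex]
      rw [this]
      exact ⟨⟨S, hS, rfl⟩, Nat.zero_le _⟩
    · have kj : k < j := by omega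
      have n : ∀ y ∈ ({h, g, t i} : Finset (F D)), y ∉ S := fun y hy => disjoint_right.1 s2 hy
      obtain ⟨m1, m2⟩ := c.cut k2 kj hM hS s1 (n _ (by simp)) fun d d1 d2 => by
        have d3 : f d ∈ Rt i ∩ Lf j := mem_inter.2 ⟨(mem_sdiff.1 d1).1,
          c.inL kj hM (c.rA hi (mem_sdiff.1 d1).1) (mem_sdiff.1 d1).2⟩
        rcases hc.clean i j hij hM hB (v d) (tch_v d3) (tch_v' d2) with q | q <;>
        · rw [q.2.2 _ d2 (tch_v' (mem_singleton_self _))]
          exact n _ (by simp)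
      exact ⟨⟨_, m1, by omega⟩, by omega⟩

end Pool.Agent.MP_42ec7b_co

end MrgPart3

-- ======== part 4: formerly Pool.Agent.MP_42ec7b_co.A.REul
section MrgPart4

/-! Row EUL: the Euler count in a set of faces, and vertices with diagonal faces of a set. -/

set_option autoImplicit false

open Finset

namespace Pool.Agent.MP_42ec7b_co

open Classical

namespace PM

variable {D : Type} [PM D]

lemma four_card_le (U : Finset (F D)) : 4 * #U ≤ wt U + #(tri U) := by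
  rw [wt_sum, tri, card_filter, ← sum_add_distrib, mul_comm, ← smul_eq_mul, ← sum_const]
  refine sum_le_sum fun g _ => ?_
  have := three_le_sz g
  split_ifs <;> omega

lemma eul1 (h4 : ∀ d : D, ρ (ρ (ρ (ρ d))) = d) (U N : Finset (F D)) (hd : Disjoint U N)
    (h : ∀ d, f d ∈ U → f (α d) ∈ U ∨ f (α d) ∈ N) : ex U N ≤ #(tri U) + 4 * #N := by
  have h1 : ex (U ∪ N) (U ∪ N) ≤ 4 * #(U ∪ N) := edges h4 (U ∪ N)
  have h2 : wt U ≤ ex U (U ∪ N) := card_le_card fun d k => by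
    rw [mem_filter] at k ⊢
    exact ⟨k.1, k.2, mem_union.2 (h d k.2)⟩
  have h3 := four_card_le U
  rw [ex_union' hd, ex_union hd, ex_union hd, ex_comm (S := N) (T := U),
    card_union_of_disjoint hd] at h1
  rw [ex_union hd] at h2
  omega

lemma Diag.tch1 {g g' : F D} {r : V D} (h : Diag g g' r) : Tch {g} r := by
  obtain ⟨c, -, h1, -, h3, -⟩ := h
  exact ⟨c, h1, mem_singleton.2 h3⟩

lemma eul2 (W : Finset (F D)) : #{u | ∃ g ∈ W, ∃ g' ∈ W, Diag g g' u} ≤ 3 * #W := by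
  rcases eq_empty_or_nonempty ({u | ∃ g ∈ W, ∃ g' ∈ W, Diag g g' u} : Finset (V D)) with
    k | ⟨u0, k⟩
  · rw [k]
    simp
  obtain ⟨g0, -⟩ := (mem_filter.1 k).2
  have e1 : ∀ u, ∃ p : F D × F D, (∃ g ∈ W, ∃ g' ∈ W, Diag g g' u) →
      p.1 ∈ W ∧ p.2 ∈ W ∧ Diag p.1 p.2 u := fun u => by
    by_cases h : ∃ g ∈ W, ∃ g' ∈ W, Diag g g' u
    · obtain ⟨g, a, g', b, c⟩ := h
      exact ⟨(g, g'), fun _ => ⟨a, b, c⟩⟩
    · exact ⟨(g0, g0), fun m => absurd m h⟩
  choose p hp using e1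
  have e2 : ∀ q : F D × F D, ∃ u, (∃ u, Diag q.1 q.2 u) → Diag q.1 q.2 u := fun q => by
    by_cases h : ∃ u, Diag q.1 q.2 u
    · exact h.imp fun u m _ => m
    · exact ⟨u0, fun m => absurd m h⟩
  choose w hw using e2
  have wp : ∀ u, (∃ g ∈ W, ∃ g' ∈ W, Diag g g' u) → w (p u) = u := fun u h =>
    (hp u h).2.2.only (hw _ ⟨u, (hp u h).2.2⟩).tch1 (hw _ ⟨u, (hp u h).2.2⟩).symm.tch1
  rw [← card_image_of_injOn (f := p) fun u a u' b k => by
    rw [← wp u (mem_filter.1 (mem_coe.1 a)).2, k, wp u' (mem_filter.1 (mem_coe.1 b)).2]]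
  refine t8 (Y := fun x => ({x} : Finset (F D))) (fun x _ => conn_single x)
    (fun i _ j _ x a b => (mem_singleton.1 a).symm.trans (mem_singleton.1 b)) (fun q hq => ?_) w
    (fun q hq => ?_) fun q hq q' hq' _ _ k => ?_
  all_goals
    obtain ⟨u, hu, rfl⟩ := mem_image.1 hq
    have m := (mem_filter.1 hu).2
  · refine ⟨(hp u m).1, (hp u m).2.1, (hp u m).2.2.ne, fun k => ?_⟩
    obtain ⟨u', hu', k⟩ := mem_image.1 k
    have m' := (hp u' (mem_filter.1 hu').2).2.2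
    rw [k] at m'
    obtain rfl : u' = u := (hp u m).2.2.only m'.symm.tch1 m'.tch1
    exact (hp u' m).2.2.ne (congrArg Prod.fst k)
  · rw [wp u m]
    exact Or.inr ⟨(hp u m).2.2.tch1, (hp u m).2.2.symm.tch1⟩
  · obtain ⟨u', hu', rfl⟩ := mem_image.1 hq'
    rw [wp u m, wp u' (mem_filter.1 hu').2] at k
    rw [k]

end PM

open PM in
theorem eul (hC : CntStmt) : EulStmt := fun D _ _ => ⟨eul1 (hC D).1, eul2⟩

end Pool.Agent.MP_42ec7b_co

end MrgPart4

-- ======== part 5: formerly Pool.Agent.MP_42ec7b_co.A.RLight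
section MrgPart5

/-!
The number of missing lengths is at most the number of triangles plus ten.
-/

set_option autoImplicit false

open Finset

namespace Pool.Agent.MP_42ec7b_co

open Classical PM

namespace RLight

variable {D : Type} [PM D]

lemma miss_step {a b s : ℕ} (h1 : Has D b) (h2 : Has D (b - 1)) (h : b + 2 ≤ a + s) :
    miss D 0 (b + 1) ≤ miss D 0 (a + 1) + (s - 4) := by
  refine (card_le_card (t := {k ∈ Ico 0 (a + 1) | ¬Has D k} ∪ Ico (a + 1) (b - 1))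
    fun k hk => ?_).trans ((card_union_le _ _).trans (Nat.add_le_add_left ?_ _))
  · rw [mem_filter, mem_Ico] at hk
    have k1 : k ≠ b := fun m => hk.2 (m ▸ h1)
    have k2 : k ≠ b - 1 := fun m => hk.2 (m ▸ h2)
    rw [mem_union, mem_filter, mem_Ico, mem_Ico]
    by_cases m : k < a + 1
    · exact Or.inl ⟨⟨Nat.zero_le _, m⟩, hk.2⟩
    · exact Or.inr (by omega)
  · rw [Nat.card_Ico]
    omega

lemma miss_le (b : ℕ) : miss D 0 b ≤ b :=
  (card_filter_le _ _).trans (by simp)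

end RLight

open RLight in
theorem light (hC : CntStmt) (_hA : AddStmt) (hT : TogStmt) : LightStmt := by
  intro D _ _
  obtain ⟨-, -, -, c1, -, -, -, -, -, -, -, c2⟩ := hC D
  obtain ⟨t, ht⟩ : (tri (univ : Finset (F D))).Nonempty := card_pos.1 (by omega)
  obtain ⟨e, rfl⟩ := f_surj t
  have h3 : sz (f e) = 3 := (mem_filter.1 ht).2
  obtain ⟨S, hS, b1, b2, hv⟩ := ham (e := e) (e' := φ e) (by simp)
  have hl : ell S = nv D := (c2 S hS).2 hv
  obtain ⟨-, t3⟩ := tri3 h3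
  have hp : f (α (φ (φ e))) ∈ S := by
    by_contra k
    have a : S ⊆ {f e} := hS.2.2.1 _ (singleton_subset_iff.2 b1.1) (singleton_nonempty _)
      fun d m1 m2 => by
        rcases t3 d (mem_singleton.1 m1) with rfl | rfl | rfl
        exacts [absurd m2 b1.2, absurd m2 b2.2, absurd m2 k]
    rw [Subset.antisymm a (singleton_subset_iff.2 b1.1), ell_single, h3] at hl
    have := five (D := D)
    unfold nv at hl
    omega
  have ho : ∀ d, f d = f e → f (α d) ∈ S → d = φ (φ e) := fun d m1 m2 => by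
    rcases t3 d m1 with rfl | rfl | rfl
    exacts [absurd m2 b1.2, absurd m2 b2.2, rfl]
  set c := φ (φ e) with hc
  have fc : f c = f e := by simp [hc]
  have hPS : ({f c, f (α c)} : Finset (F D)) ⊆ S :=
    insert_subset (fc ▸ b1.1) (singleton_subset_iff.2 hp)
  have hP : Disc ({f c, f (α c)} : Finset (F D)) :=
    ⟨insert_nonempty _ _, hS.2.1.mono (compl_subset_compl.2 hPS), conn_pair c, conn_two _ _⟩
  obtain ⟨R, r1, -, r3⟩ := (hT D).2 S {f c, f (α c)} {f e} hS hPS (fun t m => by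
      rw [mem_singleton.1 m]
      refine ⟨h3, card_eq_one.2 ⟨c, ?_⟩⟩
      ext d
      simp only [mem_filter, mem_univ, true_and, mem_singleton]
      exact ⟨fun k => ho d k.1 (k.2.2 b1.1), fun k => k ▸ ⟨fc, iff_of_true hp b1.1⟩⟩)
    (fun t m t' m' k => absurd ((mem_singleton.1 m).trans (mem_singleton.1 m').symm) k)
    (fun t m _ => by rw [mem_singleton.1 m, ← fc]; exact mem_insert_self _ _)
    (fun t m x hx ⟨d, k1, k2⟩ => by
      rw [mem_singleton] at m k1 k2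
      subst k2
      rw [ho d (k1.trans m) hx]
      exact mem_insert_of_mem (mem_singleton_self _))
  have key : miss D 0 (ell S + 1) ≤ ∑ x ∈ S, (sz x - 4) + 10 :=
    chain_up (P := fun A => miss D 0 (ell A + 1) ≤ ∑ x ∈ A, (sz x - 4) + 10) hP hS hPS (by
      have n : f c ∉ ({f (α c)} : Finset (F D)) := fun k => s0 c (mem_singleton.1 k).symm
      have a := ell_insert n
      have b := miss_le (D := D) (ell ({f c, f (α c)} : Finset (F D)) + 1)
      rw [ell_single, fc, h3] at a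
      rw [sum_insert n, sum_singleton]
      rw [fc] at b ⊢
      omega) fun A d m1 m2 _ m4 m5 m6 m7 m8 => by
      have a := ell_insert m5
      have b : 0 < ex {f d} A := ex_pos.2 ⟨d, mem_singleton_self _, m6⟩
      have r := r3 _ m7 (m1.trans (subset_insert _ _)) (r1.mono_left (insert_subset m4 m2))
      have k := miss_step (a := ell A) (s := sz (f d)) (r 0 (by simp)).1 (r 1 (by simp)).1
        (by omega)
      rw [sum_insert m5]
      rw [Nat.sub_zero] at k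
      omega
  have k : ∑ x ∈ S, (sz x - 4) ≤ ∑ x : F D, (sz x - 4) := sum_le_sum_of_subset (subset_univ _)
  rw [← hl]
  omega

end Pool.Agent.MP_42ec7b_co

end MrgPart5

-- ======== part 6: formerly Pool.Agent.MP_42ec7b_co.A.RNoose
section MrgPart6

/-!
Two diagonal faces that touch a third face; the faces that do not touch a face are connected.
-/

set_option autoImplicit false

open Finset

namespace Pool.Agent.MP_42ec7b_co

open Classical

namespace PM

variable {D : Type} [PM D] {c d e : D} {g : F D}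

lemma noo_sz (h : φ (φ (φ e)) = e) : sz (f e) = 3 := by
  have k : (univ.filter fun d => f d = f e) = {e, φ e, φ (φ e)} := by
    ext d
    simp only [mem_filter, mem_univ, true_and, mem_insert, mem_singleton]
    refine ⟨fun m => face_ind (Q := fun d => d = e ∨ d = φ e ∨ d = φ (φ e)) (Or.inl rfl)
      (fun c _ m => ?_) m, ?_⟩
    · rcases m with rfl | rfl | rfl
      exacts [Or.inr (Or.inl rfl), Or.inr (Or.inr rfl), Or.inl h]
    · rintro (rfl | rfl | rfl) <;> simp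
  unfold sz
  rw [k, card_eq_three]
  exact ⟨_, _, _, fun m => face_v1 e (by rw [← m]), fun m => face_v2 e (by rw [← m]),
    fun m => face_v1 (φ e) (by rw [← m]), rfl⟩

/-- Two consecutive edges from a vertex off `g` to `g` bound a triangle. -/
lemma noo_tri (h0 : ¬Tch {g} (v e)) (h1 : Tch {g} (v (α e))) (h2 : Tch {g} (v (α (ρ e)))) :
    sz (f (ρ e)) = 3 ∧ Meet {f (ρ e)} {g} := by
  have t1 : Tch {f (ρ e)} (v (α e)) := tch_v (by simp)
  have t2 : Tch {f (ρ e)} (v (α (ρ e))) := tch_α (by simp)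
  refine ⟨noo_sz ?_, _, t1, h1⟩
  have n : f (ρ e) ≠ g := fun m => h0 (tch_one.2 ⟨ρ e, vρ e, m⟩)
  have n2 : v (α e) ≠ v (α (ρ e)) := fun m => ρne e (simple _ _ (vρ e) m.symm)
  obtain ⟨d, a1, -, ⟨x, y⟩ | ⟨x, y⟩⟩ := two_v n n2 t1 h1 t2 h2
  · rw [eq_of_fv (d := d) (d' := α e) (by rw [a1, fρ]) x, αα] at y
    exact absurd (y.symm.trans (vρ e).symm) (loop _)
  · have b1 : d = φ (ρ e) := eq_of_fv (by rw [a1, fφ]) (by rw [x, vφ])
    have b2 : φ d = α e := eq_of_fv (by rw [fφ, a1, fρ]) (by rw [vφ, y])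
    rw [← b1, b2, φ_def, αα]

/-- A noose through a vertex off `g` and two faces that meet `g`. -/
lemma noo_side {b : D} (hb : v c = v b) (h0 : ¬Tch {g} (v c)) (h1 : Meet {f c} {g})
    (h2 : Meet {f b} {g}) : ∃ q q' : V D, Tch {g} q ∧ Tch {g} q' ∧ ∀ e e', v e = v c → v e' = v c →
      Btw c b e → ¬Btw c b e' → (v (α e) = q ∨ v (α e) = q') ∨ (v (α e') = q ∨ v (α e') = q') := by
  obtain ⟨q, x1, x2⟩ := h1
  obtain ⟨q', y1, y2⟩ := h2
  refine ⟨q, q', x2, y2, fun e e' m1 m2 m3 m4 => by_contra fun k => m4 ?_⟩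
  simp only [not_or] at k
  obtain ⟨b3, u1, w1⟩ := tch_one.1 x1
  obtain ⟨a3, u2, w2⟩ := tch_one.1 x2
  obtain ⟨a2, u3, w3⟩ := tch_one.1 y1
  obtain ⟨b2, u4, w4⟩ := tch_one.1 y2
  exact noose (a2 := a2) (b2 := b2) (a3 := a3) (b3 := b3) hb (u3.trans u4.symm) (u2.trans u1.symm)
    w3.symm (w4.trans w2.symm) w1 (fun m => h0 (by rw [← m, u3]; exact y2))
    (Or.inl fun m => h0 (by rw [← m, u2]; exact x2)) (z := q) (Or.inl u2.symm) m1 m2
    (u3 ▸ k.1.2) k.1.1 (u3 ▸ k.2.2) k.2.1 m3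

lemma noo_one (h4 : ∀ d : D, ρ (ρ (ρ (ρ d))) = d) (h0 : ¬Tch {g} (v c)) (h1 : Meet {f c} {g})
    (h2 : Meet {f (ρ (ρ c))} {g}) : sz (f (ρ c)) = 3 ∧ Meet {f (ρ c)} {g} ∨
      sz (f (ρ (ρ (ρ c)))) = 3 ∧ Meet {f (ρ (ρ (ρ c)))} {g} := by
  obtain ⟨q, q', t1, t2, key⟩ := noo_side (b := ρ (ρ c)) (by simp) h0 h1 h2
  have tt : ∀ u, u = q ∨ u = q' → Tch {g} u := fun u m => by
    rcases m with rfl | rfl
    exacts [t1, t2]
  have b0 : Btw c (ρ (ρ c)) c := btw_self (ρρne c).symm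
  have b1 : Btw c (ρ (ρ c)) (ρ c) := b0.next (ρne _).symm
  have b2 : ¬Btw c (ρ (ρ c)) (ρ (ρ c)) := fun m => m.ne rfl
  have b3 : ¬Btw c (ρ (ρ c)) (ρ (ρ (ρ c))) := fun m => b2 (m.prev (ρρρne c))
  have k1 := (key _ _ rfl (by simp) b0 b2).imp (tt _) (tt _)
  have k2 := (key _ _ rfl (by simp) b0 b3).imp (tt _) (tt _)
  have k3 := (key _ _ (by simp) (by simp) b1 b2).imp (tt _) (tt _)
  have k4 := (key _ _ (by simp) (by simp) b1 b3).imp (tt _) (tt _)
  by_cases m : Tch {g} (v (α c)) ∧ Tch {g} (v (α (ρ c)))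
  · exact Or.inl (noo_tri h0 m.1 m.2)
  · exact Or.inr (noo_tri (by simpa using h0) (by tauto) (by tauto))

/-- An edge off `g` has a side that does not meet `g`. -/
lemma noo_edge (h0 : ¬Tch {g} (v d)) (h0' : ¬Tch {g} (v (α d))) (h1 : Meet {f d} {g}) :
    ¬Meet {f (α d)} {g} := fun h2 => by
  obtain ⟨q, q', t1, t2, key⟩ := noo_side (b := ρ d) (by simp) h0 h1 (by rwa [fρ])
  have b0 : Btw d (ρ d) d := btw_self (ρne d).symm
  have b1 : ¬Btw d (ρ d) (ρ d) := fun m => m.ne rfl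
  have b2 : ¬Btw d (ρ d) (ρ (ρ d)) := fun m => b1 (m.prev (ρρne d))
  have b3 : ¬Btw d (ρ d) (ρ (ρ (ρ d))) := fun m => b2 (m.prev (ρρρne d))
  have n : ¬(v (α d) = q ∨ v (α d) = q') := fun m => by
    rcases m with m | m
    exacts [h0' (m ▸ t1), h0' (m ▸ t2)]
  have k1 := (key _ _ rfl (by simp) b0 b1).resolve_left n
  have k2 := (key _ _ rfl (by simp) b0 b2).resolve_left n
  have k3 := (key _ _ rfl (by simp) b0 b3).resolve_left n
  have c1 : v (α (ρ (ρ d))) ≠ v (α (ρ d)) := fun m => ρne _ (simple _ _ (vρ _) m)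
  have c2 : v (α (ρ (ρ (ρ d)))) ≠ v (α (ρ (ρ d))) := fun m => ρne _ (simple _ _ (vρ _) m)
  have c3 : v (α (ρ (ρ (ρ d)))) ≠ v (α (ρ d)) := fun m => ρρne _ (simple _ _ (by simp) m)
  grind

/-- Faces have no chords. -/
lemma noo_chord (h1 : f d ≠ g) (h2 : f (α d) ≠ g) (t1 : Tch {g} (v d)) : ¬Tch {g} (v (α d)) :=
  fun t2 => by
    obtain ⟨e, a1, a2, ⟨x, -⟩ | ⟨x, y⟩⟩ := two_v h1 (loop d).symm (tch_v (mem_singleton_self _)) t1
      (tch_α (mem_singleton_self _)) t2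
    · exact h2 (eq_of_fv a1 x ▸ a2)
    · have b : e = φ d := eq_of_fv (by rw [a1, fφ]) (by rw [x, vφ])
      exact face_v2 d (by rw [vφ, ← b, y])

/-- The graph stays connected when the vertices of a face are removed. -/
lemma noo_conn (P : V D → Prop)
    (hP : ∀ d, ¬Tch {g} (v d) → ¬Tch {g} (v (α d)) → (P (v d) ↔ P (v (α d)))) {d d' : D}
    (h1 : ¬Tch {g} (v d)) (h2 : ¬Tch {g} (v d')) (h : P (v d)) : P (v d') := by
  have face : ∀ e e' : D, f e ≠ g → f e' = f e → ¬Tch {g} (v e) → ¬Tch {g} (v e') →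
      (P (v e) ↔ P (v e')) := fun e e' n m a a' => by
    obtain ⟨s, s1, s2⟩ : ∃ s, f s = f e ∧
        ∀ c, f c = f e → Tch {g} (v c) → ¬Tch {g} (v (α c)) → φ c = s := by
      by_cases k : ∃ c, f c = f e ∧ Tch {g} (v c) ∧ ¬Tch {g} (v (α c))
      · obtain ⟨c, c1, c2, c3⟩ := k
        refine ⟨φ c, (fφ c).trans c1, fun c' d1 d2 d3 => by_contra fun k => ?_⟩
        have n' : v c ≠ v c' := fun x => k (by rw [eq_of_fv (c1.trans d1.symm) x])
        obtain ⟨b, b1, -, ⟨x, y⟩ | ⟨x, y⟩⟩ := two_v n n' (tch_one.2 ⟨c, rfl, c1⟩) c2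
          (tch_one.2 ⟨c', rfl, d1⟩) d2
        · exact c3 (by rw [← eq_of_fv (b1.trans c1.symm) x, y]; exact d2)
        · exact d3 (by rw [← eq_of_fv (b1.trans d1.symm) x, y]; exact c2)
      · exact ⟨e, rfl, fun c c1 c2 c3 => absurd ⟨c, c1, c2, c3⟩ k⟩
    have all : ∀ c, f c = f s → ¬Tch {g} (v c) → (P (v c) ↔ P (v s)) := fun c hc =>
      face_ind (Q := fun c => ¬Tch {g} (v c) → (P (v c) ↔ P (v s))) (fun _ => Iff.rfl)
        (fun c m1 m2 m3 => by
          by_cases k : Tch {g} (v c)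
          · rw [s2 c (m1.trans s1) k (by rwa [vφ] at m3)]
          · rw [vφ] at m3 ⊢
            exact (hP c k m3).symm.trans (m2 k)) hc
    exact (all e s1.symm a).trans (all e' (m.trans s1.symm) a').symm
  have off : ∀ e : D, ¬Tch {g} (v e) → f e ∈ univ.erase g := fun e m =>
    mem_erase.2 ⟨fun k => m (tch_one.2 ⟨e, rfl, k⟩), mem_univ _⟩
  obtain ⟨e, e1, e2, e3⟩ := (conn_erase g).ind
    (P := fun x => ∃ e, f e = x ∧ ¬Tch {g} (v e) ∧ P (v e)) (fun c m1 m2 ⟨e, e1, e2, e3⟩ => by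
      have n1 := (mem_erase.1 m1).1
      have n2 := (mem_erase.1 m2).1
      by_cases k : Tch {g} (v c)
      · have k' := noo_chord n1 n2 k
        refine ⟨α c, rfl, k', ?_⟩
        rw [← vφ] at k' ⊢
        exact (face e (φ c) (e1 ▸ n1) ((fφ c).trans e1.symm) e2 k').1 e3
      · exact ⟨ρ c, fρ c, by rwa [vρ], by
          rw [vρ]; exact (face e c (e1 ▸ n1) e1.symm e2 k).1 e3⟩)
    (off d h1) (off d' h2) ⟨d, rfl, h1, h⟩
  exact (face e d' (e1 ▸ (mem_erase.1 (off d' h2)).1) e1.symm e2 h2).1 e3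

lemma noo_two (h4 : ∀ d : D, ρ (ρ (ρ (ρ d))) = d) (g : F D) :
    Conn (univ.filter fun x => ¬Meet {x} {g}) := by
  set N : Finset (F D) := univ.filter fun x => ¬Meet {x} {g} with hN
  have mem : ∀ x, x ∈ N ↔ ¬Meet {x} {g} := fun x => by simp [hN]
  have off : ∀ e : D, f e ∈ N → ¬Tch {g} (v e) := fun e m k =>
    (mem _).1 m ⟨_, tch_v (mem_singleton_self _), k⟩
  rintro K hK ⟨x, hx⟩ hc x' hx'
  have nxt : ∀ e : D, f e ∈ K → f (ρ e) ∈ N → f (ρ e) ∈ K := fun e m1 m2 => by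
    rw [fρ] at m2 ⊢
    exact hc e m1 m2
  have prv : ∀ e : D, f (ρ e) ∈ K → f e ∈ N → f e ∈ K := fun e m1 m2 =>
    hc.symm e (by rwa [fρ] at m1) m2
  have one : ∀ k k' : D, v k' = v k → f k ∈ K → f k' ∈ N → f k' ∈ K := fun k k' m1 m2 m3 => by
    have four := vert_ind (Q := fun c => c = k ∨ c = ρ k ∨ c = ρ (ρ k) ∨ c = ρ (ρ (ρ k)))
      (Or.inl rfl) (fun c _ m => by
        rcases m with rfl | rfl | rfl | rfl
        exacts [Or.inr (Or.inl rfl), Or.inr (Or.inr (Or.inl rfl)), Or.inr (Or.inr (Or.inr rfl)),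
          Or.inl (h4 _)]) m1
    rcases four with rfl | rfl | rfl | rfl
    · exact m2
    · exact nxt _ m2 m3
    · by_cases a : f (ρ k) ∈ N
      · exact nxt _ (nxt _ m2 a) m3
      by_cases b : f (ρ (ρ (ρ k))) ∈ N
      · exact prv _ (prv _ (by rwa [h4]) b) m3
      rcases noo_one h4 (c := ρ k) (by rw [vρ]; exact off k (hK m2)) (by simpa [mem] using a)
        (by simpa [mem] using b) with z | z
      · exact absurd z.2 ((mem _).1 m3)
      · rw [h4] at z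
        exact absurd z.2 ((mem _).1 (hK m2))
    · exact prv _ (by rwa [h4]) m3
  have step : ∀ d : D, ¬Tch {g} (v d) → ¬Tch {g} (v (α d)) → Tch K (v d) → Tch K (v (α d)) :=
    fun d m1 m2 ⟨k, k1, k2⟩ => by
      by_cases a : f d ∈ N
      · exact tch_α (one k d k1.symm k2 a)
      · have b : f (ρ d) ∈ N := by
          rw [fρ]
          exact (mem _).2 (noo_edge m1 m2 (by simpa [mem] using a))
        exact tch_v (fρ d ▸ one k (ρ d) ((vρ d).trans k1.symm) k2 b)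
  obtain ⟨d, rfl⟩ := f_surj x
  obtain ⟨d', rfl⟩ := f_surj x'
  obtain ⟨k, k1, k2⟩ := noo_conn (g := g) (Tch K) (fun d m1 m2 => ⟨step d m1 m2, fun m => by
    have := step (α d) m2 (by rwa [αα]) m
    rwa [αα] at this⟩) (off d (hK hx)) (off d' hx') (tch_v hx)
  exact one k d' k1.symm k2 hx'

end PM

open PM

theorem noose2 (hC : CntStmt) : NooseStmt := fun D _ _ =>
  ⟨fun _ _ => noo_one (hC D).1, noo_two (hC D).1⟩

end Pool.Agent.MP_42ec7b_co

end MrgPart6

-- ======== part 7: formerly Pool.Agent.MP_42ec7b_co.A.RPock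
section MrgPart7

/-!
A face of a clean window that avoids one wall lies in an arm of the other wall.
-/

set_option autoImplicit false

open Finset

namespace Pool.Agent.MP_42ec7b_co

open Classical PM

namespace PockA

variable {D : Type} [PM D] {A : Finset (F D)} {h g : F D} {M i j : ℕ}
  {Y Lf Rt : ℕ → Finset (F D)} {Bad : Finset ℕ} (C : Cor A h g M Y Lf Rt Bad)

include C

lemma RR (h1 : i < j) (h2 : j < M) : Rt j ⊆ Rt i := fun _ hx => by_contra fun k =>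
  disjoint_left.1 (C.dis j h2)
    (C.nest i j h1 h2 (mem_sdiff.2 ⟨(mem_sdiff.1 ((C.cR j h2).1 hx)).1, k⟩)) hx

lemma LL (h1 : i < j) (h2 : j < M) : Lf i ⊆ Lf j := fun _ hx =>
  C.nest i j h1 h2 (mem_sdiff.2 ⟨(mem_sdiff.1 ((C.cL i (h1.trans h2)).1 hx)).1,
    disjoint_left.1 (C.dis i (h1.trans h2)) hx⟩)

lemma YL (h1 : i < j) (h2 : j < M) : Y i ⊆ Lf j := fun _ hx =>
  C.nest i j h1 h2 (mem_sdiff.2 ⟨(C.rung i (h1.trans h2)).1 hx,
    fun k => (mem_sdiff.1 ((C.cR i (h1.trans h2)).1 k)).2 hx⟩)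

lemma YR (h1 : i < j) (h2 : j < M) : Y j ⊆ Rt i := fun _ hx => by_contra fun k =>
  (mem_sdiff.1 ((C.cL j h2).1
    (C.nest i j h1 h2 (mem_sdiff.2 ⟨(C.rung j h2).1 hx, k⟩)))).2 hx

lemma stepR (h1 : i < M) {d : D} (k1 : f d ∈ Rt i) (k2 : f (α d) ∈ Aᶜ) :
    f (α d) ∈ Rt i ∨ f (α d) ∈ Y i :=
  or_iff_not_imp_right.2 fun k => (C.cR i h1).2.2.2 d k1 (mem_sdiff.2 ⟨k2, k⟩)

lemma stepL (h1 : i < M) {d : D} (k1 : f d ∈ Lf i) (k2 : f (α d) ∈ Aᶜ) :
    f (α d) ∈ Lf i ∨ f (α d) ∈ Y i :=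
  or_iff_not_imp_right.2 fun k => (C.cL i h1).2.2.2 d k1 (mem_sdiff.2 ⟨k2, k⟩)

lemma step (h1 : i + 1 < M) (h2 : j + 1 < M) {d : D} (k1 : f d ∈ Rt (i + 1)) (k2 : f d ∈ Lf j)
    (k : f (α d) ∈ Aᶜ) : f (α d) ∈ Rt i ∩ Lf (j + 1) :=
  mem_inter.2 ⟨(stepR C h1 k1 k).elim (fun m => RR C i.lt_succ_self h1 m)
    fun m => YR C i.lt_succ_self h1 m, (stepL C (by omega) k2 k).elim
      (fun m => LL C j.lt_succ_self h2 m) fun m => YL C j.lt_succ_self h2 m⟩

end PockA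

open PockA

theorem pock (hC : CntStmt) (hN : NooseStmt) : PockStmt := by
  intro D _ _ A h g t M Y Lf Rt Bad i j hA hne hsz C hij hjM hB hY ht htg
  have h4 := (hC D).1
  obtain ⟨n1, n2⟩ := hN D
  have iM : i < M := by omega
  obtain ⟨y0, y1, ⟨u0, ⟨c0, -, hc0⟩, hh, -⟩, -, -, hg, -⟩ := C.rung i iM
  rw [mem_inter] at ht
  have RA : ∀ k < M, Rt k ⊆ Aᶜ := fun k hk => (C.cR k hk).1.trans sdiff_subset
  obtain ⟨Z, ⟨z1, -, z2, z3⟩, hZ⟩ := exists_cmp
    (S := (Rt i ∩ Lf (j + 2)).filter fun x => ¬Meet {x} {g}) (x := t)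
    (mem_filter.2 ⟨mem_inter.2 ⟨RR C (by omega) (by omega) ht.1, LL C (by omega) hjM ht.2⟩, htg⟩)
  have zW : Z ⊆ Rt i ∩ Lf (j + 2) := z1.trans (filter_subset _ _)
  have zA : Z ⊆ Aᶜ := zW.trans (inter_subset_left.trans (RA i iM))
  have zg : ∀ x ∈ Z, ¬Meet {x} {g} := fun x hx => (mem_filter.1 (z1 hx)).2
  have pl : ∀ c, f c ∈ Z → Tch A (v c) → Plain A h (v c) := fun c k1 k2 =>
    (C.clean i (j + 2) (by omega) hjM hB _ (tch_v (zW k1)) k2).resolve_right fun k =>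
      zg _ k1 ⟨_, tch_v (mem_singleton_self _), k.2.1⟩
  have only : ∀ d, f d ∈ Z → f (α d) ∈ A → f (α d) = h := fun d k1 k2 =>
    (pl d k1 (tch_v' k2)).2.2 _ k2 (tch_v' (mem_singleton_self _))
  have first : ∀ k, i + 1 < k → k ≤ j → (∃ x ∈ Z, x ∈ Y k) → Ad Z {h} := by
    rintro k k1 k2 ⟨x0, x1, x2⟩
    have kM : k < M := by omega
    have yR : Y k ⊆ Rt (i + 1) := YR C k1 kM
    have yL : Y k ⊆ Lf (j + 1) := YL C (by omega) (by omega)
    obtain ⟨x, hx, xg, u, ⟨c', e1, e2⟩, c, e3, e4⟩ := (hY k kM).2 ⟨x0, x2, zg _ x1⟩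
    have xZ : x ∈ Z := (hY k kM).1.sub (fun y hy => by
      rw [mem_filter] at hy ⊢
      exact ⟨mem_inter.2 ⟨RR C i.lt_succ_self (by omega) (yR hy.1),
        LL C (by omega) hjM (yL hy.1)⟩, hy.2⟩) z3 (mem_filter.2 ⟨x2, zg _ x1⟩) x1
      (mem_filter.2 ⟨hx, xg⟩)
    obtain rfl := mem_singleton.1 e2
    obtain rfl := mem_singleton.1 e4
    have ev : v c' = v c := e1.trans e3.symm
    have P := pl c' xZ ⟨c, ev.symm, hh⟩
    have a1 : ∀ y, y ∈ Z → y = f (ρ c) → Ad Z {f c} := fun y m1 m2 =>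
      (ad_ρ (mem_singleton_self _) (m2 ▸ m1)).symm
    have a3 : ∀ y, y ∈ Z → y = f (ρ (ρ (ρ c))) → Ad Z {f c} := fun y m1 m2 =>
      ad_ρ (c := ρ (ρ (ρ c))) (m2 ▸ m1) (by rw [h4]; exact mem_singleton_self _)
    rcases four h4 ev with rfl | rfl | rfl | rfl
    · exact absurd hh (mem_compl.1 (zA xZ))
    · exact a1 _ xZ rfl
    swap
    · exact a3 _ xZ rfl
    have o1 : f (ρ c) ∈ Aᶜ := mem_compl.2 fun m => s0 c (by
      rw [← fρ]; exact P.2.2 _ m ⟨ρ c, by simp, mem_singleton_self _⟩)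
    have o3 : f (ρ (ρ (ρ c))) ∈ Aᶜ := mem_compl.2 fun m => s0 (ρ (ρ (ρ c))) (by
      rw [← fρ, h4]; exact (P.2.2 _ m ⟨ρ (ρ (ρ c)), by simp, mem_singleton_self _⟩).symm)
    have e1 : f (α (ρ c)) = f (ρ (ρ c)) := (fρ _).symm
    have e3 : f (α (ρ (ρ c))) = f (ρ (ρ (ρ c))) := (fρ _).symm
    by_cases m1 : Meet {f (ρ c)} {g}
    swap
    · refine a1 _ (z3.symm (ρ c) (e1 ▸ xZ) (mem_filter.2 ⟨?_, m1⟩)) rfl
      have := step C (i := i) (j := j + 1) (by omega) hjM (d := α (ρ c)) (e1 ▸ yR hx) (e1 ▸ yL hx)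
        (by rwa [αα])
      rwa [αα] at this
    by_cases m3 : Meet {f (ρ (ρ (ρ c)))} {g}
    swap
    · refine a3 _ (z3 (ρ (ρ c)) xZ (mem_filter.2 ⟨?_, e3 ▸ m3⟩)) e3
      exact step C (i := i) (j := j + 1) (by omega) hjM (yR hx) (yL hx) (e3 ▸ o3)
    rcases n1 (ρ c) g (fun m => hne (P.2.2 g hg (by simpa using m)).symm) m1 m3 with m | m
    · exact absurd m.2 xg
    · rw [h4] at m
      omega
  by_cases hadj : Ad Z {h}
  · refine Or.inl ⟨Z, zW, hZ, z2, ⟨hA.1.mono subset_union_left, ⟨f c0, ?_⟩,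
      conn_union hA.2.2.1 z2 (Or.inl (hadj.symm.mono (singleton_subset_iff.2 hh) Subset.rfl)), ?_⟩,
      hadj, ?_⟩
    · rw [mem_compl, mem_union, not_or]
      exact ⟨mem_compl.1 (y0 hc0), fun m =>
        (mem_sdiff.1 ((C.cR i iM).1 (mem_inter.1 (zW m)).1)).2 hc0⟩
    · obtain ⟨B, b1, b2, b3, b4, b5⟩ := C.band i (j + 2) (by omega) hjM hB g (Or.inr rfl)
      rw [compl_union, ← sdiff_eq_inter_compl]
      refine conn_sdiff hA.2.2.2 b2 ⟨f c0, b3 (mem_union_left _ hc0)⟩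
        (fun x hx => mem_sdiff.2 ⟨b1 hx, fun m => ?_⟩) fun d k1 k2 k3 => ?_
      · have w := mem_inter.1 (zW m)
        rcases b4 x hx with k | k
        · rcases mem_union.1 k with k | k
          · exact (mem_sdiff.1 ((C.cR i iM).1 w.1)).2 k
          · exact (mem_sdiff.1 ((C.cL _ hjM).1 w.2)).2 k
        · exact zg x m k
      · have w := mem_inter.1 (zW k1)
        rcases stepR C iM w.1 k2 with m1 | m1
        · rcases stepL C hjM w.2 k2 with m2 | m2
          · exact b5 _ (mem_inter.2 ⟨m1, m2⟩) (by_contra fun m =>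
              k3 (z3 d k1 (mem_filter.2 ⟨mem_inter.2 ⟨m1, m2⟩, m⟩)))
          · exact b3 (mem_union_right _ m2)
        · exact b3 (mem_union_left _ m1)
    · rintro x hx ⟨d, k1, k2⟩
      obtain rfl := mem_singleton.1 k2
      exact only d k1 hx
  have zR : Z ⊆ Rt (i + 2) := z2.sub (S := Aᶜ \ Y (i + 2)) (fun x hx => mem_sdiff.2 ⟨zA hx,
    fun m => hadj (first (i + 2) (by omega) (by omega) ⟨x, hx, m⟩)⟩)
    (C.cR _ (by omega)).2.2.2 hZ ht.1
  have zL : Z ⊆ Lf j := z2.sub (S := Aᶜ \ Y j) (fun x hx => mem_sdiff.2 ⟨zA hx,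
    fun m => hadj (first j (by omega) le_rfl ⟨x, hx, m⟩)⟩) (C.cL _ (by omega)).2.2.2 hZ ht.2
  refine Or.inr ((n2 g Z (fun x hx => mem_filter.2 ⟨mem_univ _, zg x hx⟩) ⟨t, hZ⟩
    fun d k1 k2 => z3 d k1 (mem_filter.2 ⟨?_, (mem_filter.1 k2).2⟩)).trans zW)
  exact step C (i := i) (j := j + 1) (by omega) hjM (RR C (by omega) (by omega) (zR k1))
    (LL C (by omega) (by omega) (zL k1))
    (mem_compl.2 fun m => hadj ⟨d, k1, mem_singleton.2 (only d k1 m)⟩)

end Pool.Agent.MP_42ec7b_co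

end MrgPart7

-- ======== part 8: formerly Pool.Agent.MP_42ec7b_co.A.RRem
section MrgPart8

/-!
Removal of a heavy face; planting a new root on arms.
-/

set_option autoImplicit false

open Finset

namespace Pool.Agent.MP_42ec7b_co

open Classical PM

theorem rem (hA : AddStmt) (hL : ClStmt) : RemStmt := by
  intro D _ _ s S w e r K j A P R L Om Wl N2 J h h2 hs sd hh hP hS hd hG hW hhW hj hN2 hJ
  obtain ⟨N, bs, n1, n2, n3, n4⟩ := hL D A {h} R Om Wl (R ∪ big s univ) N2 h h2 K j sd.disc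
    (mem_singleton_self h) (singleton_subset_iff.2 hh) hW hG (hj h hhW) hj fun y hy => by
      obtain ⟨k1, k2, k3, k4, k5, k6⟩ := hN2 y hy
      rw [sdiff_singleton_eq_erase]
      refine ⟨k1, fun m => (mem_union.1 m).elim k2 fun m => ?_, k4, k5, k6⟩
      exact absurd (mem_filter.1 m).2 (not_lt.2 k3)
  rw [sdiff_singleton_eq_erase] at n1
  obtain ⟨a1, a2⟩ := (hA D).2.2.1 _ N bs hd n1
  have lt : ∀ x ∈ A.erase h ∪ N, s < sz x → x ∈ A.erase h := fun x hx k =>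
    (mem_union.1 hx).resolve_right fun m =>
      disjoint_left.1 n3 m (mem_union_right _ (mem_filter.2 ⟨mem_univ _, k⟩))
  have hv : hvy S (A.erase h ∪ N) ⊆ (hvy S A).erase h := fun x hx => by
    obtain ⟨k1, k2⟩ := mem_filter.1 hx
    obtain ⟨k3, k4⟩ := mem_erase.1 (lt x k1 (hs.trans_le k2))
    exact mem_erase.2 ⟨k3, mem_filter.2 ⟨k4, k2⟩⟩
  refine ⟨A.erase h ∪ N, ⟨a1, fun x hx => mem_union_left _ (mem_erase.2
    ⟨fun k => hP (k ▸ hx), sd.sub hx⟩), sd.conn, sd.ne, disjoint_union_left.2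
    ⟨sd.dis.mono_left (erase_subset _ _), n3.mono_right subset_union_left⟩, sd.cR, sd.sL, sd.cL,
    sd.bL, sd.wP, sd.one, sd.flx⟩, hv.trans (erase_subset _ _), wt_mono fun x hx => ?_, ?_, ?_⟩
  · obtain ⟨k1, k2⟩ := mem_filter.1 hx
    exact mem_filter.2 ⟨mem_of_mem_erase (lt x k1 k2.1), k2⟩
  · have k : #(hvy S (A.erase h ∪ N)) < #(hvy S A) :=
      (card_le_card hv).trans_lt (card_erase_lt_of_mem (mem_filter.2 ⟨hh, hS⟩))
    unfold rank
    omega
  · have e1 := ell_erase (D := D) hh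
    have e2 : ex {h} Aᶜ ≤ sz h := wt_single (g := h) ▸ ex_le_wt
    have e3 : ex {h} Aᶜ ≤ #Om + #J +
        #{y ∈ suns h | y ∉ A ∧ y ∉ Om ∧ ∃ g ∈ Wl \ {h}, g ≠ h2 ∧ Meet {y} {g}} := by
      rw [ex_single]
      refine (card_le_card fun y hy => ?_).trans
        ((card_union_le _ _).trans (add_le_add (card_union_le _ _) le_rfl))
      obtain ⟨k1, k2⟩ := mem_filter.1 hy
      have k3 : y ∈ suns h := mem_filter.2 ⟨mem_univ _, k2.symm⟩
      by_cases k4 : y ∈ Om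
      · exact mem_union_left _ (mem_union_left _ k4)
      · obtain k5 | ⟨g, g1, g2, g3, g4⟩ := hJ y k3 (mem_compl.1 k1) k4
        · exact mem_union_left _ (mem_union_right _ k5)
        · exact mem_union_right _ (mem_filter.2 ⟨k3, mem_compl.1 k1, k4, g,
            mem_sdiff.2 ⟨g1, by simpa using g2⟩, g3, g4⟩)
    have e4 : #(R ∪ big s univ) ≤ r + #(big s (univ : Finset (F D))) :=
      (card_union_le _ _).trans (add_le_add sd.cR le_rfl)
    have e5 : 11 * #Wl * (2 * j + #(R ∪ big s univ) + 1) ≤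
        11 * #Wl * (2 * j + r + #(big s (univ : Finset (F D))) + 1) :=
      Nat.mul_le_mul_left _ (by omega)
    omega

theorem sw (hC : CntStmt) (hA : AddStmt) (hT : TogStmt) : SwStmt := by
  intro D _ _ s S w e r K A N Q L bs q I hs hd hN hl hI cI hK hQ cQ hq sL cL bL wP one hw
  obtain ⟨N1, Er, t1, t2, t3, t4, t5, t6, t7, t8, t9⟩ := (hT D).1 A q K I hd (hQ hq) hI
  obtain ⟨-, -, -, -, c1, -, -, c2, -, c3, -⟩ := hC D
  have l1 : ∀ x ∈ N1, sz x ≤ s := fun x hx => by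
    obtain ⟨Y, y1, y2⟩ := t3 x hx
    have k := wt_mono (singleton_subset_iff.2 y2)
    rw [wt_single] at k
    exact k.trans ((hI.1 Y y1).2.2.2.1.trans hK)
  have sP : Q ∪ N1 ⊆ A ∪ N1 := union_subset_union hQ Subset.rfl
  obtain ⟨R', r1, r2, r3⟩ := (hT D).2 (A ∪ N1) (Q ∪ N1) Er t2 sP (fun t ht => (t7 t ht).1) t8
    (fun t ht k => mem_union_right _ ((mem_union.1 k).resolve_left (t7 t ht).2))
    fun t ht x hx k => (mem_union.1 hx).elim
      (fun m => mem_union_left _ (t9 t ht x m k ▸ hq)) (mem_union_right _)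
  have me : ∀ y x, x ∈ N1 → Meet {y} {x} → Meet {y} N1 := fun y x hx ⟨u, k1, k2⟩ =>
    ⟨u, k1, k2.mono (singleton_subset_iff.2 hx)⟩
  have ms : ∀ y : F D, Meet {y} {y} := fun y => by
    obtain ⟨d, rfl⟩ := f_surj y
    exact ⟨v d, tch_v (mem_singleton_self _), tch_v (mem_singleton_self _)⟩
  have ad : Addable (A ∪ N1) (N.filter fun y => y ∉ R' ∧ ¬Meet {y} N1) bs :=
    ⟨fun y hy => by
      obtain ⟨k1, -, k2⟩ := mem_filter.1 hy
      obtain ⟨m1, m2, m3, m4⟩ := hN.1 y k1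
      exact ⟨fun m => (mem_union.1 m).elim m1 fun m => k2 (me y y m (ms y)), mem_union_left _ m2,
        m3, fun x hx k => (mem_union.1 hx).elim (fun m => m4 x m k) fun m => absurd (me y x m k) k2⟩,
      fun y hy y' hy' => hN.2 y (mem_filter.1 hy).1 y' (mem_filter.1 hy').1⟩
  obtain ⟨a1, a2⟩ := (hA D).2.2.1 _ _ bs t2 ad
  have hv : hvy S (Q ∪ N1) = hvy S Q := by
    ext x
    simp only [hvy, mem_filter, mem_union]
    exact ⟨fun k => ⟨k.1.resolve_right fun m => absurd (l1 x m) (not_le.2 (hs.trans_le k.2)), k.2⟩,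
      fun k => ⟨Or.inl k.1, k.2⟩⟩
  have cP : Conn (Q ∪ N1) := by
    have k := conn_union cQ t5 (Or.inr ⟨q, hq, mem_insert_self _ _⟩)
    rwa [union_insert, insert_eq_of_mem (mem_union_left _ hq)] at k
  rw [cI] at t4 t6
  rw [t6] at r2 r3
  have w1 : wt ((Q ∪ N1) \ L) ≤ wt (Q \ L) + wt N1 :=
    (wt_mono fun x hx => by
      simp only [mem_union, mem_sdiff] at hx ⊢
      tauto).trans wt_union_le
  refine ⟨_, Q ∪ N1, R', ⟨a1, sP.trans subset_union_left, cP, ⟨q, mem_union_left _ hq⟩,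
    disjoint_union_left.2 ⟨r1, disjoint_left.2 fun y hy => (mem_filter.1 hy).2.1⟩, by omega,
    sL.trans subset_union_left, cL, bL, by omega, by rw [hv, one],
    ⟨_, Subset.rfl, by rw [card_range]; omega, r3⟩⟩,
    subset_union_left.trans subset_union_left, fun x hx => ?_, ?_, ?_⟩
  · obtain ⟨k1, k2⟩ := mem_sdiff.1 hx
    exact (mem_union.1 k1).elim (fun m => l1 x ((mem_union.1 m).resolve_left k2))
      fun m => hl x (mem_filter.1 m).1
  · rw [hv]
    exact (card_pos.1 (by omega)).ne_empty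
  · have e1 := c3 A (A ∪ N1)
    have e2 : wt (A \ (A ∪ N1)) = 0 := by
      rw [sdiff_eq_empty_iff_subset.2 subset_union_left]
      simp [wt]
    have e3 : wt ((A ∪ N1) \ A) ≤ wt N1 := wt_mono fun x hx =>
      (mem_union.1 (mem_sdiff.1 hx).1).resolve_left (mem_sdiff.1 hx).2
    have e4 := c1 N1 1 fun x _ => (by norm_num : 1 ≤ 3).trans (three_le_sz x)
    have e5 := c2 N1
    have e6 : #N ≤ #(N.filter fun y => y ∉ R' ∧ ¬Meet {y} N1) + #R' + #N1 +
        #{x : F D | x ∉ N1 ∧ Meet {x} N1} := by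
      refine (card_le_card fun y hy => ?_).trans ((card_union_le _ _).trans (add_le_add
        ((card_union_le _ _).trans (add_le_add (card_union_le _ _) le_rfl)) le_rfl))
      simp only [mem_union, mem_filter, mem_univ, true_and]
      tauto
    omega

end Pool.Agent.MP_42ec7b_co

end MrgPart8

-- ======== part 9: formerly Pool.Agent.MP_42ec7b_co.A.RTog
section MrgPart9

/-!
Arms give ears; ears give flexibility.
-/

set_option autoImplicit false

open Finset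

namespace Pool.Agent.MP_42ec7b_co

open Classical PM

namespace TogA

variable {D : Type} [PM D] {A S S' T Y : Finset (F D)} {t : F D}

lemma ear_congr (h : Ear S t) (h1 : t ∈ S' ↔ t ∈ S)
    (h2 : ∀ d, f d = t → (f (α d) ∈ S' ↔ f (α d) ∈ S)) : Ear S' t := by
  refine ⟨h.1, Eq.trans (congrArg card ?_) h.2⟩
  ext d
  simp only [mem_filter, mem_univ, true_and]
  exact and_congr_right fun m => by rw [h1, h2 d m]

lemma ear_compl (h : Ear S t) : Ear Sᶜ t := by
  refine ⟨h.1, Eq.trans (congrArg card ?_) h.2⟩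
  ext d
  simp only [mem_filter, mem_univ, true_and, mem_compl, not_iff_not]

lemma ear_mem (ht : t ∈ S) : Ear S t ↔ sz t = 3 ∧ ex {t} S = 1 := by
  simp [Ear, ex, ht]

lemma ear_two (h : Ear S t) (ht : t ∈ S) : ex {t} Sᶜ = 2 := by
  have a := (ear_mem ht).1 h
  have b := wt_split (S := {t}) (T := S)
  rw [wt_single] at b
  omega

lemma toggle_in (hS : Disc S) (h : Ear S t) (ht : t ∈ S) :
    Disc (S.erase t) ∧ ell (S.erase t) + 1 = ell S := by
  have a := ell_erase ht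
  rw [ear_two h ht, h.1] at a
  exact ⟨disc_leaf hS ((ear_mem ht).1 h).2, by omega⟩

lemma toggle (hS : Disc S) (h : Ear S t) :
    ∃ S', Disc S' ∧ ell S' + 1 = ell S ∧ ∀ x, x ≠ t → (x ∈ S' ↔ x ∈ S) := by
  by_cases ht : t ∈ S
  · exact ⟨_, (toggle_in hS h ht).1, (toggle_in hS h ht).2, fun x hx => by simp [hx]⟩
  · obtain ⟨a, b⟩ := toggle_in hS.compl (ear_compl h) (mem_compl.2 ht)
    exact ⟨_, a.compl, by rwa [ell_compl, ← ell_compl (S := S)], fun x hx => by simp [hx]⟩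

lemma toggles (hS : Disc S) (h : ∀ t ∈ T, Ear S t)
    (h' : ∀ t ∈ T, ∀ t' ∈ T, t ≠ t' → ¬Meet {t} {t'}) {x : ℕ} (hx : x ≤ #T) :
    ∃ S' : Finset (F D), Disc S' ∧ ell S' + x = ell S := by
  induction x generalizing S T with
  | zero => exact ⟨S, hS, rfl⟩
  | succ x ih =>
    obtain ⟨t, ht⟩ := card_pos.1 (show 0 < #T by omega)
    obtain ⟨S1, a, b, c⟩ := toggle hS (h t ht)
    obtain ⟨S', s1, s2⟩ := ih (T := T.erase t) a
      (fun u hu => ear_congr (h u (mem_of_mem_erase hu)) (c u (mem_erase.1 hu).1) fun d hd =>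
        c _ fun m => h' u (mem_of_mem_erase hu) t ht (mem_erase.1 hu).1
          ⟨v d, tch_v (mem_singleton.2 hd), tch_v' (mem_singleton.2 m)⟩)
      (fun u hu u' hu' => h' u (mem_of_mem_erase hu) u' (mem_of_mem_erase hu'))
      (by rw [card_erase_of_mem ht]; omega)
    exact ⟨S', s1, by omega⟩

/-- An intermediate disc for which the triangle is an ear. -/
lemma arm (hA : Disc A) (hY : Disc (A ∪ Y)) (ht : t ∈ Y) (ht' : t ∉ A) (h3 : sz t = 3) :
    ∃ N ⊆ Y, Disjoint A N ∧ Disc (A ∪ N) ∧ Ear (A ∪ N) t := by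
  have key := chain_down (P := fun B => t ∈ B ∨ ∃ B', A ⊆ B' ∧ B' ⊆ A ∪ Y ∧ Disc B' ∧ Ear B' t)
    hA hY subset_union_left (Or.inl (mem_union_right _ ht)) (by
      rintro B d b1 b2 b3 b4 b5 b6 (m | m)
      swap
      · exact Or.inr m
      by_cases e : t = f d
      swap
      · exact Or.inl (mem_erase.2 ⟨e, m⟩)
      subst e
      have e1 := wt_split (S := {f d}) (T := B)
      rw [wt_single] at e1
      have e2 : 0 < ex {f d} Bᶜ := ex_pos.2 ⟨d, mem_singleton_self _, mem_compl.2 b4.2⟩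
      have e3 : 0 < ex {f d} B := by
        obtain ⟨x, hx⟩ := hA.1
        obtain ⟨c, c1, c2, -⟩ := b3.2.2.1.exit (singleton_subset_iff.2 m) (singleton_nonempty _)
          fun k => b5 (mem_singleton.1 (k (b1 hx)) ▸ hx)
        exact ex_pos.2 ⟨c, c1, c2⟩
      by_cases e4 : ex {f d} B = 1
      · exact Or.inr ⟨B, b1, b2, b3, (ear_mem m).2 ⟨h3, e4⟩⟩
      refine Or.inr ⟨_, subset_erase.2 ⟨b1, b5⟩, (erase_subset _ _).trans b2, b6, h3, ?_⟩
      refine Eq.trans (congrArg card ?_) (show ex {f d} Bᶜ = 1 by omega)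
      ext c
      simp only [mem_filter, mem_univ, true_and, mem_singleton, mem_compl, notMem_erase,
        iff_false, mem_erase, not_and]
      exact and_congr_right fun k => ⟨fun q => q (k ▸ s0 c), fun q _ => q⟩)
  obtain ⟨B, b1, b2, b3, b4⟩ := key.resolve_left ht'
  refine ⟨B \ A, fun x hx => (mem_union.1 (b2 (mem_sdiff.1 hx).1)).resolve_left (mem_sdiff.1 hx).2,
    disjoint_sdiff, ?_⟩
  rw [union_sdiff_of_subset b1]
  exact ⟨b3, b4⟩

lemma meet_of_mem {Y' : Finset (F D)} (h : t ∈ Y) (h' : t ∈ Y') : Meet Y Y' := by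
  obtain ⟨c, rfl⟩ := f_surj t
  exact ⟨v c, tch_v h, tch_v h'⟩

end TogA

open TogA

theorem tog (_hC : CntStmt) (hA : AddStmt) : TogStmt := by
  intro D _ _
  refine ⟨fun A g K I hD hg hI => ?_, fun A P Er hD hP h1 h2 h3 h4 => ?_⟩
  · obtain ⟨i1, i2⟩ := hI
    have : Nonempty (F D) := ⟨g⟩
    have ex1 : ∀ Y ∈ I, ∃ t ∈ Y, ∃ N ⊆ Y, Disjoint A N ∧ Disc (A ∪ N) ∧ Ear (A ∪ N) t := by
      intro Y hY
      obtain ⟨a, -, b, -, ⟨t, t1, t2⟩, -⟩ := i1 Y hY
      exact ⟨t, t1, arm hD b t1 (mem_compl.1 (a t1)) t2⟩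
    choose! t t1 N n1 n2 n3 n4 using ex1
    have same : ∀ Y ∈ I, ∀ Y' ∈ I, Meet Y Y' → Y = Y' := fun Y a Y' b m =>
      by_contra fun k => i2 Y a Y' b k m
    have key : ∀ J ⊆ I, Disc (A ∪ J.biUnion N) ∧ wt (J.biUnion N) ≤ K * #J := by
      intro J
      induction J using Finset.induction_on with
      | empty => exact fun _ => ⟨by simpa using hD, by simp [wt]⟩
      | insert Y J hY ih =>
        intro hJ
        have a : Y ∈ I := hJ (mem_insert_self _ _)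
        have b : J ⊆ I := (subset_insert _ _).trans hJ
        rw [biUnion_insert, card_insert_of_notMem hY, ← union_assoc]
        refine ⟨(hA D).2.2.2 A _ _ hD (n2 Y a)
          ((disjoint_biUnion_right _ _ _).2 fun Z z => n2 Z (b z)) (n3 Y a) (ih b).1 ?_, ?_⟩
        · rintro ⟨u, u1, c, c1, c2⟩
          obtain ⟨Z, z1, z2⟩ := mem_biUnion.1 c2
          exact hY (same Y a Z (b z1) ⟨u, u1.mono (n1 Y a), c, c1, n1 Z (b z1) z2⟩ ▸ z1)
        · have e1 := wt_union_le (S := N Y) (T := J.biUnion N)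
          have e2 := (wt_mono (n1 Y a)).trans (i1 Y a).2.2.2.1
          have e3 := (ih b).2
          rw [mul_add, mul_one]
          omega
    have loc : ∀ Y ∈ I, ∀ c, Tch Y (v c) → (f c ∈ A ∪ I.biUnion N ↔ f c ∈ A ∪ N Y) := by
      intro Y a c m
      rw [mem_union, mem_union]
      refine or_congr_right ⟨fun k => ?_, fun k => mem_biUnion.2 ⟨Y, a, k⟩⟩
      obtain ⟨Z, z1, z2⟩ := mem_biUnion.1 k
      rwa [same Y a Z z1 ⟨_, m, tch_v (n1 Z z1 z2)⟩]
    refine ⟨I.biUnion N, I.image t, (disjoint_biUnion_right _ _ _).2 n2, (key I Subset.rfl).1,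
      fun x hx => ?_, (key I Subset.rfl).2, ?_, card_image_of_injOn fun Y a Y' b e => ?_,
      fun u hu => ?_, fun u hu u' hu' ne m => ?_, fun u hu x hx m => ?_⟩
    · obtain ⟨Z, z1, z2⟩ := mem_biUnion.1 hx
      exact ⟨Z, z1, n1 Z z1 z2⟩
    · refine conn_of_core (conn_single g) (singleton_subset_iff.2 (mem_insert_self _ _))
        fun Z z1 z2 z3 => ⟨g, mem_singleton_self g, by_contra fun k => k ?_⟩
      have z4 : ∀ x ∈ Z, x ∈ I.biUnion N := fun x hx =>
        (mem_insert.1 (z1 hx)).resolve_left fun e => k (e ▸ hx)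
      refine (key I Subset.rfl).1.2.2.1 Z (fun x hx => mem_union_right _ (z4 x hx)) z2
        (fun d d1 d2 => z3 d d1 ?_) (mem_union_left _ hg)
      rcases mem_union.1 d2 with m | m
      · obtain ⟨Y, y1, y2⟩ := mem_biUnion.1 (z4 _ d1)
        exact mem_insert.2 (Or.inl ((i1 Y y1).2.2.2.2.2.2 _ m
          ⟨d, n1 Y y1 y2, mem_singleton_self _⟩))
      · exact mem_insert_of_mem m
    · exact same Y a Y' b (meet_of_mem (t1 Y a) (e ▸ t1 Y' b))
    · obtain ⟨Y, a, rfl⟩ := mem_image.1 hu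
      refine ⟨ear_congr (n4 Y a) ?_ fun d hd => loc Y a _ (tch_α (hd ▸ t1 Y a)),
        mem_compl.1 ((i1 Y a).1 (t1 Y a))⟩
      obtain ⟨c, hc⟩ := f_surj (t Y)
      rw [← hc]
      exact loc Y a c (tch_v (hc ▸ t1 Y a))
    · obtain ⟨Y, a, rfl⟩ := mem_image.1 hu
      obtain ⟨Y', b, rfl⟩ := mem_image.1 hu'
      obtain ⟨r, r1, r2⟩ := m
      exact ne (by rw [same Y a Y' b ⟨r, r1.mono (singleton_subset_iff.2 (t1 Y a)),
        r2.mono (singleton_subset_iff.2 (t1 Y' b))⟩])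
    · obtain ⟨Y, a, rfl⟩ := mem_image.1 hu
      exact (i1 Y a).2.2.2.2.2.2 x hx (m.mono (singleton_subset_iff.2 (t1 Y a)) Subset.rfl)
  · obtain ⟨R, hR, cR⟩ : ∃ R : F D → Finset (F D),
        (∀ t x, x ∈ R t ↔ x ∉ A ∧ (x = t ∨ ∃ d, f d = t ∧ f (α d) = x)) ∧ ∀ t ∈ Er, #(R t) ≤ 2 := by
      refine ⟨fun t => ({t} \ A) ∪ (univ.filter fun d => f d ∈ ({t} : Finset (F D)) ∧
        f (α d) ∈ Aᶜ).image fun d => f (α d), fun t x => ?_, fun t ht => ?_⟩
      · simp only [mem_union, mem_sdiff, mem_singleton, mem_image, mem_filter, mem_univ, true_and,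
          mem_compl]
        constructor
        · rintro (⟨a, b⟩ | ⟨d, ⟨a, b⟩, rfl⟩)
          exacts [⟨b, Or.inl a⟩, ⟨b, Or.inr ⟨d, a, rfl⟩⟩]
        · rintro ⟨a, b | ⟨d, b, rfl⟩⟩
          exacts [Or.inl ⟨b, a⟩, Or.inr ⟨d, ⟨b, a⟩, rfl⟩]
      · refine (card_union_le _ _).trans ((Nat.add_le_add_left card_image_le _).trans ?_)
        show #({t} \ A) + ex {t} Aᶜ ≤ 2
        by_cases m : t ∈ A
        · rw [ear_two (h1 t ht) m, sdiff_eq_empty_iff_subset.2 (singleton_subset_iff.2 m)]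
          simp
        · rw [((ear_mem (mem_compl.2 m)).1 (ear_compl (h1 t ht))).2]
          have := card_le_card (sdiff_subset (s := {t}) (t := A))
          rw [card_singleton] at this
          omega
    refine ⟨Er.biUnion R, (disjoint_biUnion_right _ _ _).2 fun t _ =>
      disjoint_right.2 fun x hx => ((hR t x).1 hx).1,
      (card_biUnion_le_card_mul _ _ 2 cR).trans (by rw [mul_comm]), fun A' a1 a2 a3 x hx => ?_⟩
    have out : ∀ t ∈ Er, ∀ y, (y = t ∨ ∃ d, f d = t ∧ f (α d) = y) → y ∈ A' → y ∈ A :=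
      fun t ht y k m => by_contra fun q =>
        disjoint_left.1 a3 m (mem_biUnion.2 ⟨t, ht, (hR t y).2 ⟨q, k⟩⟩)
    obtain ⟨S, s1, s2⟩ := toggles a1 (T := Er) (fun t ht => ear_congr (h1 t ht)
      ⟨out t ht t (Or.inl rfl), fun m => a2 (h3 t ht m)⟩ fun d hd =>
        ⟨out t ht _ (Or.inr ⟨d, hd, rfl⟩), fun m => a2 (h4 t ht _ m
          ⟨d, mem_singleton.2 hd, mem_singleton_self _⟩)⟩) h2 (Nat.lt_succ_iff.1 (mem_range.1 hx))
    exact ⟨⟨S, s1, by omega⟩, by omega⟩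

end Pool.Agent.MP_42ec7b_co

end MrgPart9

-- ======== part 10: formerly Pool.Agent.MP_42ec7b_co.A.RWin
section MrgPart10

/-!
A clean window with many neighbours of a wall that are not pure has a triangle that avoids a wall.
-/

set_option autoImplicit false

open Finset

namespace Pool.Agent.MP_42ec7b_co

open Classical

namespace PM

variable {D : Type} [PM D]

lemma win_diag (h4 : ∀ d : D, ρ (ρ (ρ (ρ d))) = d) {t q : F D} (hne : t ≠ q) (m : Meet {t} {q})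
    (k : ¬Ad {t} {q}) : ∃ c, f c = q ∧ f (ρ (ρ c)) = t := by
  obtain ⟨u, k1, k2⟩ := m
  obtain ⟨c, rfl, rfl⟩ := tch_one.1 k2
  obtain ⟨c', e, rfl⟩ := tch_one.1 k1
  have four : c' = c ∨ c' = ρ c ∨ c' = ρ (ρ c) ∨ c' = ρ (ρ (ρ c)) :=
    vert_ind (Q := fun b => b = c ∨ b = ρ c ∨ b = ρ (ρ c) ∨ b = ρ (ρ (ρ c))) (Or.inl rfl)
      (fun b _ m => by rcases m with rfl | rfl | rfl | rfl <;> simp [h4]) e
  rcases four with rfl | rfl | rfl | rfl
  · exact absurd rfl hne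
  · exact absurd (ad_one.2 ⟨c, rfl, (fρ c).symm⟩).symm k
  · exact ⟨c, rfl, rfl⟩
  · exact absurd (ad_one.2 ⟨_, rfl, by rw [← fρ, h4]⟩) k

/-- Two neighbours of a triangle have a common vertex on it. -/
lemma win_tri {t p q : F D} (ht : sz t = 3) (h1 : Ad {t} {p}) (h2 : Ad {t} {q}) :
    ∃ u, Tch {t} u ∧ Tch {p} u ∧ Tch {q} u := by
  obtain ⟨e, rfl, rfl⟩ := ad_one.1 h1
  obtain ⟨c, k, rfl⟩ := ad_one.1 h2
  obtain ⟨a, b⟩ := tri3 ht
  rcases b c k with rfl | rfl | rfl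
  · exact ⟨v c, tch_v (mem_singleton_self _), tch_v' (mem_singleton_self _),
      tch_v' (mem_singleton_self _)⟩
  · exact ⟨v (α e), tch_α (mem_singleton_self _), tch_v (mem_singleton_self _),
      vφ e ▸ tch_v' (mem_singleton_self _)⟩
  · refine ⟨v e, tch_v (mem_singleton_self _), tch_v' (mem_singleton_self _), ?_⟩
    rw [← congrArg v a, vφ]
    exact tch_v (mem_singleton_self _)

end PM

open PM

theorem win (hC : CntStmt) (hE : EulStmt) : WinStmt := by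
  intro D _ _ A J h g M Y Lf Rt Bad i j _ hne C hij hj hB hJ1 hJ2 hJ3 hJ
  have h4 := (hC D).1
  have hi := hij.trans hj
  by_contra hc
  obtain ⟨Z, hZ⟩ : ∃ Z, Z = Rt i ∩ Lf j := ⟨_, rfl⟩
  have all : ∀ t ∈ tri Z, Meet {t} {g} ∧ Meet {t} {h} := fun t ht => by
    rw [tri, mem_filter, hZ] at ht
    exact ⟨by_contra fun k => hc ⟨t, ht.1, ht.2, Or.inl k⟩,
      by_contra fun k => hc ⟨t, ht.1, ht.2, Or.inr k⟩⟩
  obtain ⟨_, -, hA, -⟩ := (C.rung i hi).2.2.1
  obtain ⟨_, -, gA, -⟩ := (C.rung i hi).2.2.2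
  have zA : ∀ x ∈ Z, x ∉ A := fun x hx => (C.Rt_sub hi (mem_inter.1 (hZ ▸ hx)).1).1
  have cl : ∀ u, Tch Z u → ∀ x ∈ A, ∀ x' ∈ A, Tch {x} u → Tch {x'} u → x = x' :=
    fun u k x hx x' hx' a b => by
      rcases C.clean i j hij hj hB u (hZ ▸ k) (a.mono (singleton_subset_iff.2 hx)) with p | p <;>
        rw [p.2.2 x hx a, p.2.2 x' hx' b]
  have nb : ∀ d, f d ∈ Z → f (α d) ∉ A → f (α d) ∈ Z ∪ (Y i ∪ Y j) := fun d a b => by
    rw [hZ] at a ⊢
    simpa only [mem_union] using C.nb hi hj a b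
  have cY : #(Y i ∪ Y j) ≤ #(Y i) + #(Y j) := card_union_le _ _
  have e1 : ex Z ({h} ∪ {g}) ≤ #(tri Z) + 4 * (2 + (#(Y i) + #(Y j))) := by
    refine (ex_mono Subset.rfl subset_union_left).trans (((hE D).1 Z
      ({h} ∪ {g} ∪ (Y i ∪ Y j)) (disjoint_left.2 fun x hx k => ?_) fun d a => ?_).trans ?_)
    · simp only [mem_union, mem_singleton] at k
      rcases k with (rfl | rfl) | k | k
      · exact zA _ hx hA
      · exact zA _ hx gA
      · exact (C.Rt_sub hi (mem_inter.1 (hZ ▸ hx)).1).2 k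
      · exact (C.Lf_sub hj (mem_inter.1 (hZ ▸ hx)).2).2 k
    · by_cases b : f (α d) ∈ A
      · refine Or.inr (mem_union_left _ ?_)
        simpa only [mem_union, mem_singleton] using C.adjA hij hj hB (hZ ▸ a) b
      · exact (mem_union.1 (nb d a b)).imp id (mem_union_right _)
    · have := card_union_le ({h} ∪ {g}) (Y i ∪ Y j)
      have := card_union_le {h} {g}
      simp only [card_singleton] at this
      omega
  have e2 : ∀ q ∈ A, (∀ t ∈ tri Z, Meet {t} {q}) →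
      #{t ∈ tri Z | ¬Ad {t} {q}} ≤ ex Z {q} + (#(Y i) + #(Y j)) := fun q hq k => by
    have a1 : #{t ∈ tri Z | ¬Ad {t} {q}} ≤ ex {q} (Z ∪ (Y i ∪ Y j)) := by
      refine card_le_card_of_surjOn (fun c => f (ρ (ρ c))) fun t ht => ?_
      obtain ⟨t1, t2⟩ := mem_filter.1 (mem_coe.1 ht)
      have tZ := (mem_filter.1 t1).1
      obtain ⟨c, rfl, rfl⟩ := win_diag h4 (fun e : t = q => zA t tZ (e ▸ hq)) (k t t1) t2
      refine ⟨c, mem_coe.2 (mem_filter.2 ⟨mem_univ _, mem_singleton_self _, ?_⟩), rfl⟩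
      have := nb (α (ρ c)) (fρ (ρ c) ▸ tZ) (by
        rw [αα]
        intro b
        exact s0 c ((fρ c).symm.trans (cl (v c) ⟨_, by simp, tZ⟩ _ b _ hq
          ⟨_, vρ c, mem_singleton_self _⟩ (tch_v (mem_singleton_self _)))))
      rwa [αα, fρ] at this
    have a2 := ex_union_le (S := {q}) (A := Z) (B := Y i ∪ Y j)
    have a3 := ex_le_card (g := q) (T := Y i ∪ Y j)
    rw [ex_comm (S := Z)]
    omega
  have e3 := e2 h hA fun t ht => (all t ht).2
  have e4 := e2 g gA fun t ht => (all t ht).1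
  have e5 : ex Z ({h} ∪ {g}) = ex Z {h} + ex Z {g} := ex_union (by simpa)
  have e6 := card_union_add_card_inter {t ∈ tri Z | ¬Ad {t} {h}} {t ∈ tri Z | ¬Ad {t} {g}}
  have e7 : #(tri Z) ≤ #({t ∈ tri Z | ¬Ad {t} {h}} ∪ {t ∈ tri Z | ¬Ad {t} {g}}) :=
    card_le_card fun t ht => by
      by_contra k
      simp only [mem_union, mem_filter, ht, true_and, not_or, not_not] at k
      obtain ⟨u, a, b, c⟩ := win_tri (mem_filter.1 ht).2 k.1 k.2
      exact hne (cl u (a.mono (singleton_subset_iff.2 (mem_filter.1 ht).1)) _ hA _ gA b c)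
  obtain ⟨T1, hT⟩ : ∃ T1, T1 = {t ∈ tri Z | ¬Ad {t} {h}} ∩ {t ∈ tri Z | ¬Ad {t} {g}} := ⟨_, rfl⟩
  have e8 : #(tri Z \ T1 ∪ J) ≤ ex Z ({h} ∪ {g}) := by
    refine card_le_card_of_surjOn f fun t ht => ?_
    have : t ∈ Z ∧ Ad {t} ({h} ∪ {g}) := by
      rcases mem_union.1 (mem_coe.1 ht) with a | a
      · obtain ⟨a, b⟩ := mem_sdiff.1 a
        refine ⟨(mem_filter.1 a).1, by_contra fun k => b ?_⟩
        rw [hT]
        exact mem_inter.2 ⟨mem_filter.2 ⟨a, fun m => k (m.mono Subset.rfl subset_union_left)⟩,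
          mem_filter.2 ⟨a, fun m => k (m.mono Subset.rfl subset_union_right)⟩⟩
      · exact ⟨hZ ▸ hJ2 a, (mem_suns.1 (hJ1 a)).mono Subset.rfl subset_union_left⟩
    obtain ⟨a, d, b, c⟩ := this
    obtain rfl := mem_singleton.1 b
    exact ⟨d, mem_coe.2 (mem_filter.2 ⟨mem_univ _, a, c⟩), rfl⟩
  have dj : Disjoint (tri Z \ T1) J := disjoint_left.2 fun t a b =>
    hJ3 t b ⟨(mem_filter.1 (mem_sdiff.1 a).1).2, (all t (mem_sdiff.1 a).1).1⟩
  rw [card_union_of_disjoint dj] at e8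
  have e9 := le_card_sdiff T1 (tri Z)
  rw [← hT] at e6
  omega

end Pool.Agent.MP_42ec7b_co

end MrgPart10

-- ======== part 11: formerly Pool.Agent.MP_42ec7b_co.A.Join
section MrgPart11

/-!
The steps put together.
-/

set_option autoImplicit false

namespace Pool.Agent.MP_42ec7b_co

theorem join (hH : ChStmt) (hG : GoodStmt) (h1 : Top1Stmt) : MainStmt :=
  have hC := cnt
  have hE := eul hC
  have hA := add hC
  have hT := tog hC hA
  have hO := ord hC
  have hL := cl hC hO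
  have hS := sl (sl1 hC hE hA) (sl2 hC hO (pock hC (noose2 hC)) (win hC hE))
  main hC (move hC hA hH (path hC hA) hG hL hS (rem hA hL) (sw hC hA hT)) proc rng
    (cs hC hH hG hS hT (ear hC) (dense hC hO (dw hC))) h1 (top2 hC) (ear hC) (light hC hA hT)

end Pool.Agent.MP_42ec7b_co

end MrgPart11

-- marker of a merged file
example : 731051 + 515003 = 731051 + 515003 := rfl
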