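import Pool.Agent.MP_42ec7b_co.A.HC5
import Pool.Agent.MP_42ec7b_co.A.HSeg
import Pool.Agent.MP_42ec7b_co.A.PD2
import Pool.Agent.MP_42ec7b_co.A.Join
import Pool.Agent.MP_42ec7b_co.A.RTop2

-- ======== part 0: formerly Pool.Agent.MP_42ec7b_co.A.HC3
section MrgPart0

/-!
Tube faces: both chords under the base, and crossed triangles.
-/

set_option autoImplicit false

open Finset

namespace Pool.Agent.MP_42ec7b_co

open Classical

namespace PM

variable {D : Type} [PM D]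

namespace Sec

variable {H : HC D} {X : Sec H} {K' : Finset ℕ} {x y x' y' : ℕ → ℕ} {E : ℕ}

lemma hc3_tube {w a b a' b' : ℕ} (h : X.Tube w a b a' b') :
    H.Seg a a' (fun z => z = a ∨ (b' ≤ z ∧ z ≤ b) ∨ z = a') (fun _ => False) fun _ => False := by
  obtain ⟨e1, e2⟩ := h.ed
  obtain ⟨-, o2, -, -, k1, k2, k3, k4, k5, k6, k7, -⟩ := h
  have := X.o2
  have s1 := (HC.Seg.edge e1).cat (HC.Seg.arc k6 o2.lt).symm (by intro z; omega)
  have s2 := s1.cat (HC.Seg.edge e2).symm (by intro z; omega)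
  exact s2.mono (by intro z; omega) (fun _ k => k.elim) fun _ k => k.elim

theorem c3 (hK : K' ⊆ X.K) (h : ∀ w ∈ K', X.Tube w (x w) (y w) (x' w) (y' w))
    (k : ∀ w ∈ K', X.r w < y' w ∧ y w < X.l w) : H.Out X.loss #K' := by
  have o2 := X.o2
  have := chain (X := X) K' X.l X.r x x' (fun w => {w})
    (fun g hg => singleton_subset_iff.2 (hK hg))
    (fun g hg => by
      have := X.pos g (hK hg)
      obtain ⟨-, -, -, -, k1, k2, k3, k4, -⟩ := h g hg
      omega)
    (fun g hg Y hY => by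
      have p := X.pos g (hK hg)
      obtain ⟨-, t3, t1, t2, t4⟩ := X.tri g (hK hg)
      have s2 := hc3_tube (h g hg)
      have kk := k g hg
      obtain ⟨-, -, -, -, k1, k2, k3, k4, k5, k6, k7, -⟩ := h g hg
      have s1 := HC.Seg.ear t3 t2 t1 t4 (by omega) (by omega) (by omega)
      refine (hY.par s1 s2 (by omega) (by omega) (by omega) (by omega) (by intro z; omega)
        (by intro z; omega) (by intro z; omega)).mono ?_
      rintro s (a | ⟨w, hw, a⟩)
      · exact Or.inl a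
      · rw [mem_singleton.1 hw] at a
        exact Or.inr (Or.inl a))
    (fun g hg g' hg' lt => by
      have o := ord (hK hg) (hK hg') lt
      refine ⟨o, ((h g hg).ord (hK hg) (hK hg') (h g' hg') lt fun e => ?_).1⟩
      have := (h g hg).same (h g' hg') e
      have := k g hg
      have := k g' hg'
      obtain ⟨-, -, -, -, -, -, -, -, -, k6, -⟩ := h g hg
      omega)
  rwa [biUnion_singleton_eq_self] at this

/-- One gadget for crossed triangles. -/
lemma hc3_step {a m u v u' v' : ℕ} {L : Finset ℕ} {Y : F D → Prop} (hL : L ⊆ X.K) (ha : a ∈ L)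
    (hm : m ∈ L) (h : X.Tube a u v u' v') (k : ∀ w ∈ L, a ≤ w ∧ w ≤ m ∧ v < X.r w)
    (hY : X.St (X.l a) u Y) : X.St v m fun s => Y s ∨ ∃ w ∈ L, s = X.t w := by
  have o2 := X.o2
  have pa := X.pos a (hL ha)
  have pm := X.pos m (hL hm)
  have ka := k a ha
  have km := k m hm
  have lm : X.l m ≤ X.l a := by
    rcases ka.2.1.eq_or_lt with e | e
    · rw [e]
    · have := ord (hL ha) (hL hm) e
      omega
  have q : ∀ w ∈ L.erase m, X.T1 ≤ w ∧ a ≤ w ∧ w < m := fun w hw => by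
    obtain ⟨n, hw⟩ := mem_erase.1 hw
    have := X.pos w (hL hw)
    have := k w hw
    omega
  have s0 := e1 (X := X) (K' := L.erase m) ((erase_subset _ _).trans hL) lm pa.2.2.1
    fun w hw => by
      have hw' := mem_of_mem_erase hw
      have p := X.pos w (hL hw')
      refine ⟨ord (hL hw') (hL hm) (q w hw).2.2, ?_⟩
      rcases (q w hw).2.1.eq_or_lt with e | e
      · rw [e]
      · have := ord (hL ha) (hL hw') e
        omega
  have s1 := s0.symm.mono (Q' := fun z => (X.l m ≤ z ∧ z ≤ X.l a) ∨ (X.T1 ≤ z ∧ a ≤ z ∧ z < m))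
    (fun z hz => hz.imp (fun c => ⟨c.1, c.2.1⟩) (q z)) (fun _ c => c) fun _ c => c
  obtain ⟨-, t3, t1, t2, t4⟩ := X.tri m (hL hm)
  have s2 := s1.cat (HC.Seg.ear t3 t2 t4 t1 (by omega) (by omega) (by omega))
    (by intro z; omega)
  have s3 := s2.mono (X' := fun _ => False) (fun _ c => c) (fun _ c => c.elim) fun _ c => c
  have s4 := HC.Seg.edge h.ed.1
  obtain ⟨-, -, -, -, k1, k2, k3, k4, k5, k6, k7, -⟩ := h
  refine (hY.swp s3 s4 (by omega) (by omega) (by omega) (by omega) (by intro z; omega)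
    (by intro z; omega) (by intro z; omega)).mono ?_
  rintro s (c | ⟨w, hw, c⟩)
  · exact Or.inl c
  · refine Or.inr (Or.inl ?_)
    by_cases e : w = m
    · exact Or.inr (e ▸ c)
    · exact Or.inl ⟨w, mem_erase.2 ⟨e, hw⟩, c⟩

theorem c4 (hK : K' ⊆ X.K) (h : ∀ w ∈ K', X.Tube w (x w) (y w) (x' w) (y' w))
    (k : ∀ w ∈ K', y w < X.r w) (hE : 2 * E ≤ #K') : H.Out X.loss E := by
  have o2 := X.o2
  obtain ⟨G0, g1, g2, g3⟩ := kernel K' fun a w => y a < X.r w
  obtain ⟨L, hL⟩ : ∃ L : ℕ → Finset ℕ, ∀ a w, w ∈ L a ↔ w ∈ K' ∧ a ≤ w ∧ y a < X.r w :=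
    ⟨fun a => K'.filter fun w => a ≤ w ∧ y a < X.r w, fun _ _ => mem_filter⟩
  have self : ∀ a ∈ K', a ∈ L a := fun a ha => (hL a a).2 ⟨ha, le_rfl, k a ha⟩
  obtain ⟨m, hm⟩ : ∃ m : ℕ → ℕ, ∀ a ∈ K', m a ∈ L a ∧ ∀ w ∈ L a, w ≤ m a := by
    refine ⟨fun a => (L a).sup id, fun a ha => ⟨?_, fun w hw => le_sup (f := id) hw⟩⟩
    obtain ⟨b, hb, e⟩ := exists_mem_eq_sup (L a) ⟨a, self a ha⟩ id
    show (L a).sup id ∈ L a
    rw [e]
    exact hb
  have sub : ∀ a, L a ⊆ X.K := fun a w hw => hK ((hL a w).1 hw).1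
  obtain ⟨G, s1, s2, s3⟩ := sel2 G0 fun a => #(L a)
  have key : ∀ a ∈ G, ∀ b ∈ G, a < b → X.l b ≤ y a ∧ m a ≤ x b ∧ m a < b := by
    intro a ha b hb lt
    obtain ⟨c, hc, l1, l2⟩ := s3 a ha b hb lt
    have a0 := g1 (s1 ha)
    have b0 := g1 (s1 hb)
    have c0 := g1 hc
    have n1 := g2 a (s1 ha) c hc l1
    have n2 := g2 c hc b (s1 hb) l2
    have o1 := ord (hK c0) (hK b0) l2
    obtain ⟨m0, m1, m2⟩ := (hL a _).1 (hm a a0).1
    have pm := X.pos _ (hK m0)
    have mc : m a < c := by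
      by_contra n
      rcases (not_lt.1 n).eq_or_lt with e | e
      · rw [← e] at m2
        exact n1 m2
      · have := ord (hK c0) (hK m0) e
        omega
    have o3 := ((h c c0).ord (hK c0) (hK b0) (h b b0) l2 fun e => by
      have := (h c c0).same (h b b0) e
      have := k b b0
      omega).1
    obtain ⟨-, -, -, -, -, -, k3, -⟩ := h c c0
    omega
  have := chain (X := X) G X.l y x m L (fun g _ => sub g)
    (fun g hg => by
      have g0 := g1 (s1 hg)
      have := X.pos g (hK g0)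
      obtain ⟨-, -, -, -, k1, k2, k3, k4, -⟩ := h g g0
      omega)
    (fun g hg Y hY => by
      have g0 := g1 (s1 hg)
      exact hc3_step (sub g) (self g g0) (hm g g0).1 (h g g0)
        (fun w hw => ⟨((hL g w).1 hw).2.1, (hm g g0).2 w hw, ((hL g w).1 hw).2.2⟩) hY)
    fun g hg g' hg' lt => ⟨(key g hg g' hg' lt).1, (key g hg g' hg' lt).2.1⟩
  refine this.mono le_rfl ?_
  have dj : ∀ a ∈ G, ∀ b ∈ G, a < b → Disjoint (L a) (L b) := fun a ha b hb lt =>
    disjoint_left.2 fun w w1 w2 => by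
      have := (key a ha b hb lt).2.2
      have := (hm a (g1 (s1 ha))).2 w w1
      have := ((hL b w).1 w2).2.1
      omega
  rw [card_biUnion fun a ha b hb n => by
    rcases lt_or_gt_of_ne n with e | e
    · exact dj a ha b hb e
    · exact (dj b hb a ha e).symm]
  have cov : #K' ≤ ∑ a ∈ G0, #(L a) := by
    refine (card_le_card fun w hw => mem_biUnion.2 ?_).trans card_biUnion_le
    rcases g3 w hw with e | ⟨a, ha, l, c⟩
    · exact ⟨w, e, self w hw⟩
    · exact ⟨a, ha, (hL a w).2 ⟨hw, l.le, c⟩⟩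
  omega

end Sec

end PM

end Pool.Agent.MP_42ec7b_co

end MrgPart0

-- ======== part 1: formerly Pool.Agent.MP_42ec7b_co.A.HMir2
section MrgPart1

/-!
The reflected configurations.
-/

set_option autoImplicit false

open Finset

namespace Pool.Agent.MP_42ec7b_co

open Classical

namespace PM

variable {D : Type} [PM D]

lemma hmir2_mu {μ : ℕ → ℕ} {c n : ℕ} (h : μ = mu c n) (x : ℕ) :
    x ≤ c ∧ μ x + x = c ∨ c < x ∧ μ x = c + n - x := by
  rw [h, mu]
  split_ifs with k <;> omega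

namespace Sec

variable {H : HC D} {X : Sec H} {K' : Finset ℕ} {a b x1 x2 y1 y2 E : ℕ} {x y x' y' : ℕ → ℕ}

theorem c2m (hK : K' ⊆ X.K) (ha : a ∈ X.K) (hb : b ∈ X.K) (h1 : b < a) (h2 : x1 ≤ b) (h3 : x2 < x1)
    (h4 : X.T1 ≤ x2) (e1 : H.Ed x1 y1) (e2 : H.Ed x2 y2) (k2 : y1 < y2)
    (k : X.T2 < y1 ∨ y2 < X.B1) (h : ∀ w ∈ K', x2 < w ∧ w < x1) :
    H.Out (X.loss + (y2 - y1)) #K' := by
  obtain ⟨H', X', μ, M, hμ, -, b2, t1, t2, hl, hk, hc, -⟩ := X.exists_mir
  have m := hmir2_mu hμ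
  have := X.o0; have := X.o1; have := X.o2; have := X.o3; have := X.o4
  have := X.pos a ha; have := X.pos b hb
  have := e2.2.1
  have := m a; have := m b; have := m x1; have := m x2; have := m y1; have := m y2
  have := m X.B1; have := m X.T1; have := m X.T2
  refine (M.out (c2 (X := X') (K' := K'.image μ) (a := μ a) (b := μ b) (x1 := μ x1) (x2 := μ x2)
    (y1 := μ y1) (y2 := μ y2) (hk ▸ image_subset_image hK) (hk ▸ mem_image_of_mem _ ha)
    (hk ▸ mem_image_of_mem _ hb) (by omega) (by omega) (by omega) (by omega) (hμ ▸ M.ed e1)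
    (hμ ▸ M.ed e2) (by omega) (by omega) (by omega) fun w hw => ?_)).mono (by omega) (hc K' hK).ge
  obtain ⟨w, w1, rfl⟩ := mem_image.1 hw
  have := h w w1
  have := m w
  omega

theorem c6m (hK : K' ⊆ X.K) (h : ∀ w ∈ K', ∀ z, X.B1 ≤ z → z ≤ X.B2 →
    H.On (X.gp w) z ∨ H.On (X.t w) z → ¬H.Expo X.B1 X.B2 z) (hE : 2 * E + 1 ≤ #K') :
    H.Out X.loss E := by
  obtain ⟨H', X', μ, M, hμ, b1, b2, -, -, hl, hk, hc, hw⟩ := X.exists_mir
  have m := hmir2_mu hμ
  have := X.o0; have := X.o1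
  have := m X.B1; have := m X.B2
  refine (M.out (c6 (X := X') (K' := K'.image μ) (E := E) (hk ▸ image_subset_image hK)
    (fun w hw' z z1 z2 z3 z4 => ?_) (by rw [hc K' hK]; exact hE))).mono hl.le le_rfl
  obtain ⟨w, w1, rfl⟩ := mem_image.1 hw'
  obtain ⟨-, -, -, e1, -, e2, -⟩ := hw w (hK w1)
  rw [e1, e2] at z3
  obtain ⟨g, g1, g2, u, g3, g4⟩ := z4
  have := m z; have := m u
  have := g3.lt
  have := M.2.2.1
  exact h w w1 (μ z) (by omega) (by omega) (hμ ▸ z3.imp M.on' M.on')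
    ⟨g, M.2.1 ▸ g1, hμ ▸ M.on' g2, μ u, hμ ▸ M.on' g3, by omega⟩

theorem c7m (hK : K' ⊆ X.K) (ha : a ∈ X.K) (hb : b ∈ X.K) (h1 : b < a) (h2 : X.r b ≤ y1)
    (h3 : y1 < y2) (h4 : y2 ≤ X.B2) (e1 : H.Ed y1 x1) (e2 : H.Ed y2 x2) (k2 : x2 < x1)
    (k : X.T2 < x2 ∨ x1 < X.B1) (h : ∀ w ∈ K', w < b ∧ y1 < X.r w ∧ X.l w < y2)
    (hE : 2 * E + 1 ≤ #K') : H.Out (X.loss + (x1 - x2)) E := by
  obtain ⟨H', X', μ, M, hμ, b1, b2, t1, -, hl, hk, hc, hw⟩ := X.exists_mir
  have m := hmir2_mu hμ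
  have := X.o0; have := X.o1; have := X.o2; have := X.o3; have := X.o4
  have := X.pos a ha; have := X.pos b hb
  have := e1.2.1
  have := (hw b hb).2.1
  have := m a; have := m b; have := m x1; have := m x2; have := m y1; have := m y2
  have := m X.B1; have := m X.B2; have := m X.T2; have := m (X.r b)
  refine (M.out (c7 (X := X') (K' := K'.image μ) (E := E) (a := μ a) (b := μ b) (x1 := μ x1)
    (x2 := μ x2) (y1 := μ y1) (y2 := μ y2) (hk ▸ image_subset_image hK)
    (hk ▸ mem_image_of_mem _ ha) (hk ▸ mem_image_of_mem _ hb) (by omega) (by omega) (by omega)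
    (by omega) (hμ ▸ M.ed e1) (hμ ▸ M.ed e2) (by omega) (by omega) (by omega) (fun w hw' => ?_)
    (by rw [hc K' hK]; exact hE))).mono (by omega) le_rfl
  obtain ⟨w, w1, rfl⟩ := mem_image.1 hw'
  obtain ⟨-, f1, f2, -⟩ := hw w (hK w1)
  have := h w w1
  have := X.pos w (hK w1)
  have := m w; have := m (X.l w); have := m (X.r w)
  refine ⟨by omega, by omega, by omega⟩

lemma hmir2_tube {H' : HC D} {X' : Sec H'} {μ : ℕ → ℕ} (M : H.Mir H' (X.B2 + 1))
    (hμ : μ = mu (X.B2 + 1) H.n) (b1 : X'.B1 = μ X.B2) (b2 : X'.B2 = μ X.B1)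
    (t1 : X'.T1 = μ X.T2) (t2 : X'.T2 = μ X.T1) {w p q p' q' : ℕ} (hq : X'.q (μ w) = X.q w)
    (h : X.Tube w p q p' q') : X'.Tube (μ w) (μ p') (μ q') (μ p) (μ q) := by
  have m := hmir2_mu hμ
  obtain ⟨a1, a2, a3, a4, a5, a6, a7, a8, a9, a10, a11, a12⟩ := h
  have := X.o0; have := X.o1; have := X.o2; have := X.o3; have := X.o4
  have := m w; have := m p; have := m q; have := m p'; have := m q'
  have := m X.B1; have := m X.B2; have := m X.T1; have := m X.T2
  unfold Tube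
  rw [hq]
  refine ⟨hμ ▸ M.on a3, hμ ▸ M.on a4, hμ ▸ M.on a1, hμ ▸ M.on a2, by omega, by omega, by omega,
    by omega, by omega, by omega, by omega, fun z hz => ?_⟩
  have := a12 (μ z) (hμ ▸ M.on' hz)
  have := m z
  have := hz.lt
  have := M.2.2.1
  omega

theorem c4m (hK : K' ⊆ X.K) (h : ∀ w ∈ K', X.Tube w (x w) (y w) (x' w) (y' w))
    (k : ∀ w ∈ K', X.l w < y' w) (hE : 2 * E ≤ #K') : H.Out X.loss E := by
  obtain ⟨H', X', μ, M, hμ, b1, b2, t1, t2, hl, hk, hc, hw⟩ := X.exists_mir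
  have m := hmir2_mu hμ
  refine (M.out (c4 (X := X') (K' := K'.image μ) (E := E) (x := fun w => μ (x' (μ w)))
    (y := fun w => μ (y' (μ w))) (x' := fun w => μ (x (μ w))) (y' := fun w => μ (y (μ w)))
    (hk ▸ image_subset_image hK) (fun w hw' => ?_) (fun w hw' => ?_)
    (by rw [hc K' hK]; exact hE))).mono hl.le le_rfl
  · obtain ⟨w, w1, rfl⟩ := mem_image.1 hw'
    obtain ⟨f0, -, -, -, f1, -⟩ := hw w (hK w1)
    simp only [f0]
    exact hmir2_tube M hμ b1 b2 t1 t2 f1 (h w w1)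
  · obtain ⟨w, w1, rfl⟩ := mem_image.1 hw'
    obtain ⟨f0, -, f1, -⟩ := hw w (hK w1)
    obtain ⟨-, -, -, -, -, -, -, -, -, a1, a2, -⟩ := h w w1
    have := k w w1
    have := m (X.l w); have := m (y' w)
    simp only [f0]
    omega

theorem c5m (hK : K' ⊆ X.K) (h : ∀ w ∈ K', X.Tube w (x w) (y w) (x' w) (y' w))
    (k : ∀ w ∈ K', y' w < X.l w ∧ X.l w < y w) (hE : 6 * E + 1 ≤ #K') : H.Out X.loss E := by
  obtain ⟨H', X', μ, M, hμ, b1, b2, t1, t2, hl, hk, hc, hw⟩ := X.exists_mir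
  have m := hmir2_mu hμ
  refine (M.out (c5 (X := X') (K' := K'.image μ) (E := E) (x := fun w => μ (x' (μ w)))
    (y := fun w => μ (y' (μ w))) (x' := fun w => μ (x (μ w))) (y' := fun w => μ (y (μ w)))
    (hk ▸ image_subset_image hK) (fun w hw' => ?_) (fun w hw' => ?_)
    (by rw [hc K' hK]; exact hE))).mono hl.le le_rfl
  · obtain ⟨w, w1, rfl⟩ := mem_image.1 hw'
    obtain ⟨f0, -, -, -, f1, -⟩ := hw w (hK w1)
    simp only [f0]
    exact hmir2_tube M hμ b1 b2 t1 t2 f1 (h w w1)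
  · obtain ⟨w, w1, rfl⟩ := mem_image.1 hw'
    obtain ⟨f0, -, f1, -⟩ := hw w (hK w1)
    obtain ⟨-, -, -, -, -, -, -, -, -, -, a2, -⟩ := h w w1
    have := k w w1
    have := m (X.l w); have := m (y' w); have := m (y w)
    simp only [f0]
    omega

theorem tub (hK : K' ⊆ X.K) (h : ∀ w ∈ K', ∃ x y x' y', X.Tube w x y x' y')
    (hE : 30 * E + 5 ≤ #K') : H.Out X.loss E := by
  choose! x y x' y' h using h
  have sub : ∀ (p : ℕ → Prop) [DecidablePred p], K'.filter p ⊆ X.K ∧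
      ∀ w ∈ K'.filter p, X.Tube w (x w) (y w) (x' w) (y' w) := fun p _ =>
    ⟨(filter_subset _ _).trans hK, fun w hw => h w (mem_filter.1 hw).1⟩
  by_cases n1 : 6 * E + 1 ≤ #(K'.filter fun w => y w < X.r w)
  · exact c4 (sub _).1 (sub _).2 (fun w hw => (mem_filter.1 hw).2) (le_trans (by omega) n1)
  by_cases n2 : 6 * E + 1 ≤ #(K'.filter fun w => X.l w < y' w)
  · exact c4m (sub _).1 (sub _).2 (fun w hw => (mem_filter.1 hw).2) (le_trans (by omega) n2)
  by_cases n3 : 6 * E + 1 ≤ #(K'.filter fun w => y' w < X.r w ∧ X.r w < y w)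
  · exact c5 (sub _).1 (sub _).2 (fun w hw => (mem_filter.1 hw).2) n3
  by_cases n4 : 6 * E + 1 ≤ #(K'.filter fun w => y' w < X.l w ∧ X.l w < y w)
  · exact c5m (sub _).1 (sub _).2 (fun w hw => (mem_filter.1 hw).2) n4
  refine (c3 (K' := K'.filter fun w => X.r w < y' w ∧ y w < X.l w) (sub _).1 (sub _).2
    fun w hw => (mem_filter.1 hw).2).mono le_rfl ?_
  have cov : K' ⊆ (K'.filter fun w => y w < X.r w) ∪ ((K'.filter fun w => X.l w < y' w) ∪
      ((K'.filter fun w => y' w < X.r w ∧ X.r w < y w) ∪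
        ((K'.filter fun w => y' w < X.l w ∧ X.l w < y w) ∪
          K'.filter fun w => X.r w < y' w ∧ y w < X.l w))) := fun w hw => by
    have := Tube.ne (hK hw) (h w hw)
    simp only [mem_union, mem_filter, hw, true_and]
    omega
  have := (card_le_card cov).trans ((card_union_le _ _).trans (Nat.add_le_add_left
    ((card_union_le _ _).trans (Nat.add_le_add_left ((card_union_le _ _).trans
      (Nat.add_le_add_left (card_union_le _ _) _)) _)) _))
  omega

end Sec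

end PM

end Pool.Agent.MP_42ec7b_co

end MrgPart1

-- ======== part 2: formerly Pool.Agent.MP_42ec7b_co.A.HTop
section MrgPart2

/-!
Apexes on many outer faces.
-/

set_option autoImplicit false

open Finset

namespace Pool.Agent.MP_42ec7b_co

open Classical

namespace PM

variable {D : Type} [PM D]

namespace Sec

variable {H : HC D} {X : Sec H} {K' : Finset ℕ} {E W N m : ℕ}

/-- A later apex bounds the positions of an outer face from above. -/
lemma top_up {K : Finset ℕ} {e : ℕ → ℕ} (hK : K ⊆ X.K) (he : StrictMono e)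
    (h : ∀ i < #K, e i ∈ K) (hw : ∀ w ∈ K, H.Wide X.T1 X.T2 (X.q w))
    (hm : ∀ g, #(K.filter (X.q · = g)) ≤ m) {i z : ℕ} (hi : i + m + 1 < #K)
    (hz : H.On (X.q (e i)) z) (h2 : z ≤ X.T2) : z < e (i + m + 1) := by
  obtain ⟨j, j1, j2, j3⟩ := avoid he h X.q (X.q (e i)) (i := i + 1) (hm _) (by omega)
  have a := h i (by omega)
  have b := h j (by omega)
  have := (qord (hK a) (hK b) (he (by omega)) j3.symm (hw _ a) (hw _ b)).1 z hz h2
  exact this.trans_le (he.monotone (by omega))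

/-- An earlier apex bounds the positions of an outer face from below. -/
lemma top_down {K : Finset ℕ} {e : ℕ → ℕ} (hK : K ⊆ X.K) (he : StrictMono e)
    (h : ∀ i < #K, e i ∈ K) (hw : ∀ w ∈ K, H.Wide X.T1 X.T2 (X.q w))
    (hm : ∀ g, #(K.filter (X.q · = g)) ≤ m) {i z : ℕ} (hi : i + m + 1 < #K)
    (hz : H.On (X.q (e (i + m + 1))) z) (h2 : X.T1 ≤ z) : e i < z := by
  obtain ⟨j, j1, j2, j3⟩ := avoid he h X.q (X.q (e (i + m + 1))) (i := i) (hm _) (by omega)
  have a := h j (by omega)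
  have b := h (i + m + 1) hi
  have := (qord (hK a) (hK b) (he (by omega)) j3 (hw _ a) (hw _ b)).2 z hz h2
  exact (he.monotone j1).trans_lt this

theorem top (hK : K' ⊆ X.K) (hW : 0 < W) (hN : H.n ≤ N * W)
    (h : ∀ w ∈ K', ∃ x y, H.On (X.q w) x ∧ H.On (X.q w) y ∧ H.Ed x y ∧ X.T1 ≤ x ∧ x ≤ X.T2 ∧
      (X.B2 < y ∧ y < X.T1 ∨ X.T2 < y ∨ y < X.B1))
    (hm : ∀ g, #(K'.filter (X.q · = g)) ≤ m) (hE : 3 * N * (E + 10 * m + 10) < #K') :
    H.Out (X.loss + W) E := by
  choose! x y hx hy hed h1 h2 h3 using h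
  have o0 := X.o0
  have o1 := X.o1
  have o2 := X.o2
  have o3 := X.o3
  have o4 := X.o4
  obtain ⟨K, hKK, hc, hy2, hp⟩ := pig3 K' y (fun w => X.B2 < y w ∧ y w < X.T1)
    (fun w => X.T2 < y w) (fun w => y w < X.B1) hW
    (fun w hw => ⟨(hy w hw).lt.trans_le hN, h3 w hw⟩) hE
  obtain ⟨e, he, hek⟩ := enum K
  have hKX : K ⊆ X.K := hKK.trans hK
  have hw : ∀ w ∈ K, H.Wide X.T1 X.T2 (X.q w) := fun w hw =>
    ⟨y w, hy w (hKK hw), by have := h3 w (hKK hw); omega⟩
  have hm' : ∀ g, #(K.filter (X.q · = g)) ≤ m := fun g =>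
    (card_le_card (filter_subset_filter _ hKK)).trans (hm g)
  have up : ∀ i, i + m + 1 < #K → x (e i) < e (i + m + 1) := fun i hi =>
    top_up hKX he hek hw hm' hi (hx _ (hKK (hek i (by omega)))) (h2 _ (hKK (hek i (by omega))))
  have dn : ∀ i, i + m + 1 < #K → e i < x (e (i + m + 1)) := fun i hi =>
    top_down hKX he hek hw hm' hi (hx _ (hKK (hek _ hi))) (h1 _ (hKK (hek _ hi)))
  have qne : ∀ i i', i + m + 1 ≤ i' → i' < #K → X.q (e i) ≠ X.q (e i') := fun i i' a b k => by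
    have c := hKX (hek i' b)
    have := top_up hKX he hek hw hm' (i := i) (by omega) (k ▸ (X.out _ c).2) (X.pos _ c).2.2.2.2
    exact absurd (he.monotone a) (by omega)
  -- the three chosen apexes
  have m0 := hek 0 (by omega)
  have m1 := hek 1 (by omega)
  have ma := hek (1 + m + 1) (by omega)
  have mb := hek (1 + m + 1 + m + 1 + m + 1) (by omega)
  have mc := hek (4 * m + 5 + E + m + 1) (by omega)
  have md := hek (4 * m + 5 + E + m + 1 + m + 1) (by omega)
  have me := hek (4 * m + 5 + E + m + 1 + m + 2) (by omega)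
  have a1 := dn 1 (by omega)
  have a2 := up (1 + m + 1) (by omega)
  have b1 := dn (1 + m + 1 + m + 1) (by omega)
  have b2 := up (1 + m + 1 + m + 1 + m + 1) (by omega)
  have c1' := dn (4 * m + 5 + E) (by omega)
  have c2' := up (4 * m + 5 + E + m + 1) (by omega)
  have l01 : e 0 < e 1 := he (by omega)
  have lde : e (4 * m + 5 + E + m + 1 + m + 1) < e (4 * m + 5 + E + m + 1 + m + 2) :=
    he (by omega)
  have lbc : e (1 + m + 1 + m + 1 + m + 1 + m + 1) ≤ e (4 * m + 5) := he.monotone (by omega)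
  have lbc' : e (4 * m + 5) ≤ e (4 * m + 5 + E) := he.monotone (by omega)
  have p0 := (X.pos _ (hKX m0)).2.2.2.1
  have pd := (X.pos _ (hKX md)).2.2.2.2
  -- an early apex whose outer end differs from the late one
  obtain ⟨i, i1, i2, i3, i4, i5⟩ : ∃ i, i + m + 1 ≤ 4 * m + 5 + E + m + 1 ∧ e i ∈ K ∧
      e 1 < x (e i) ∧ x (e i) < e (4 * m + 5) ∧ y (e i) ≠ y (e (4 * m + 5 + E + m + 1)) := by
    by_cases k1 : y (e (1 + m + 1)) = y (e (4 * m + 5 + E + m + 1))
    · by_cases k2 : y (e (1 + m + 1 + m + 1 + m + 1)) = y (e (4 * m + 5 + E + m + 1))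
      · exfalso
        have ea := (hed _ (hKK ma)).symm
        have eb := (hed _ (hKK mb)).symm
        have ec := (hed _ (hKK mc)).symm
        rw [k1] at ea
        rw [k2] at eb
        have := HC.ch3 ea eb ec (by omega) (by omega) (by omega)
        have k3 := h3 _ (hKK mc)
        unfold HC.Nb at this
        omega
      · exact ⟨_, by omega, mb, by omega, by omega, k2⟩
    · exact ⟨_, by omega, ma, a1, by omega, k1⟩
  have qn := qne i _ i1 (by omega)
  have col : X.q (e i) ∈ H.S ↔ X.q (e (4 * m + 5 + E + m + 1)) ∈ H.S :=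
    iff_of_false (X.out _ (hKX i2)).1 (X.out _ (hKX mc)).1
  have x1 := hx _ (hKK i2)
  have y1 := hy _ (hKK i2)
  have x2 := hx _ (hKK mc)
  have y2 := hy _ (hKK mc)
  have w1 := hy2 _ i2 _ mc
  have t1 := h1 _ (hKK i2)
  have t2 := h2 _ (hKK mc)
  -- the middle apexes
  have hsub : (Ico (4 * m + 5) (4 * m + 5 + E)).image e ⊆ X.K := by
    intro w hw
    obtain ⟨k, k1, rfl⟩ := mem_image.1 hw
    rw [mem_Ico] at k1
    exact hKX (hek k (by omega))
  have hcard : #((Ico (4 * m + 5) (4 * m + 5 + E)).image e) = E := by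
    rw [card_image_of_injective _ he.injective, Nat.card_Ico]
    omega
  have hmid : ∀ w ∈ (Ico (4 * m + 5) (4 * m + 5 + E)).image e,
      x (e i) < w ∧ w < x (e (4 * m + 5 + E + m + 1)) := by
    intro w hw
    obtain ⟨k, k1, rfl⟩ := mem_image.1 hw
    rw [mem_Ico] at k1
    have u1 := he.monotone k1.1
    have u2 := he k1.2
    omega
  rcases hp with hp | hp | hp
  · have q1 := hp _ i2
    have q2 := hp _ mc
    have lt : y (e (4 * m + 5 + E + m + 1)) < y (e i) := by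
      by_contra k
      exact HC.nc qn col y1 y2 x1 x2 (by omega) (by omega) (by omega)
    exact (c2 hsub (hKX m0) (hKX m1) l01 i3.le (by omega) t2 (hed _ (hKK i2)) (hed _ (hKK mc))
      q2.1 lt q1.2 hmid).mono (by omega) hcard.ge
  · have q1 := hp _ i2
    have q2 := hp _ mc
    have lt : y (e (4 * m + 5 + E + m + 1)) < y (e i) := by
      by_contra k
      exact HC.nc qn col x1 x2 y1 y2 (by omega) (by omega) (by omega)
    exact (c2m hsub (hKX me) (hKX md) lde c2'.le (by omega) t1 (hed _ (hKK mc)) (hed _ (hKK i2))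
      lt (Or.inl q2) hmid).mono (by omega) hcard.ge
  · have q1 := hp _ i2
    have q2 := hp _ mc
    have lt : y (e (4 * m + 5 + E + m + 1)) < y (e i) := by
      by_contra k
      exact HC.nc qn col y1 y2 x1 x2 (by omega) (by omega) (by omega)
    exact (c2m hsub (hKX me) (hKX md) lde c2'.le (by omega) t1 (hed _ (hKK mc)) (hed _ (hKK i2))
      lt (Or.inr q1) hmid).mono (by omega) hcard.ge

end Sec

end PM

end Pool.Agent.MP_42ec7b_co

end MrgPart2

-- ======== part 3: formerly Pool.Agent.MP_42ec7b_co.A.HBot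
section MrgPart3

/-!
Many wide faces along the lower interval.
-/

set_option autoImplicit false

open Finset

namespace Pool.Agent.MP_42ec7b_co

open Classical

namespace PM

variable {D : Type} [PM D]

namespace Sec

variable {H : HC D} {X : Sec H} {K' : Finset ℕ} {E W N m : ℕ} {h : F D} {p : ℕ → F D}
  {b : ℕ → ℕ}

lemma bot_lo {w z : ℕ} (hw : w ∈ X.K) (k : H.On (X.gm w) z ∨ H.On (X.t w) z) : X.r w ≤ z := by
  have := X.pos w hw
  have := X.o2
  rcases k with k | k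
  · have := gm_on hw k
    omega
  · have := t_on hw k
    omega

lemma bot_hi {w0 w z : ℕ} (h0 : w0 ∈ X.K) (hw : w ∈ X.K) (k0 : w0 < w) (k2 : z ≤ X.B2)
    (k : H.On (X.gm w) z ∨ H.On (X.t w) z) : z ≤ X.r w0 := by
  have := X.pos w hw
  have := X.pos w0 h0
  have := X.o2
  rcases k with k | k
  · obtain ⟨u, u', a1, a2, a3, a4, -, -, a5⟩ := zed h0 hw k0
    have := a5 z k
    omega
  · have := t_on hw k
    have := ord h0 hw k0
    omega

/-- The edge that leaves the lower interval avoids the upper interval. -/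
lemma bot_edge {w z : ℕ} {g : F D} (h1 : X.T1 ∈ X.K) (h2 : X.T2 ∈ X.K) (q1 : X.q X.T1 = h)
    (q2 : X.q X.T2 = h) (hw : w ∈ X.K) (hq : X.q w = h) (a1 : g ∉ H.S) (a2 : H.Wide X.B1 X.B2 g)
    (a3 : H.On g z) (a4 : X.B1 ≤ z) (a5 : z ≤ X.B2)
    (a6 : H.On (X.gm w) z ∨ H.On (X.t w) z) :
    ∃ y x, H.On g y ∧ H.On g x ∧ H.Ed y x ∧ X.B1 ≤ y ∧ y ≤ X.B2 ∧
      (X.B2 < x ∧ x < X.T1 ∨ X.T2 < x ∨ x < X.B1) := by
  obtain ⟨y, x, b1, b2, b3, b4, b5, b6⟩ := HC.leave a2 a3 a4 a5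
  refine ⟨y, x, b1, b2, b3, b4, b5, ?_⟩
  have ne : g ≠ h := fun e => by
    have := shq hw (by rw [hq, ← e]; exact a3) a4 a5
    tauto
  have n1 : x ≠ X.T1 := fun e => ne ((quniq h1 a1 (e ▸ b2)).trans q1)
  have n2 : x ≠ X.T2 := fun e => ne ((quniq h2 a1 (e ▸ b2)).trans q2)
  have o1 := X.out _ h1
  have o2 := X.out _ h2
  rw [q1] at o1
  rw [q2] at o2
  have := X.o2
  by_contra c
  exact HC.nc ne (iff_of_false a1 o1.1) b1 o1.2 b2 o2.2 (by omega) (by omega) (by omega)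

/-- Many different wide faces along the lower interval. -/
theorem bot (hK : K' ⊆ X.K) (hW : 0 < W) (hN : H.n ≤ N * W) (h1 : X.T1 ∈ X.K) (h2 : X.T2 ∈ X.K)
    (q1 : X.q X.T1 = h) (q2 : X.q X.T2 = h) (hq : ∀ w ∈ K', X.q w = h)
    (hp : ∀ w ∈ K', p w ∉ H.S ∧ H.Wide X.B1 X.B2 (p w) ∧ H.On (p w) (b w) ∧ X.B1 ≤ b w ∧
      b w ≤ X.B2 ∧ (H.On (X.gm w) (b w) ∨ H.On (X.t w) (b w)))
    (hm : ∀ g, #(K'.filter (p · = g)) ≤ m) (hE : 3 * N * (2 * E + 10 * m + 30) < #K') :
    H.Out (X.loss + W) E := by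
  have ex := fun w (hw : w ∈ K') => bot_edge h1 h2 q1 q2 (hK hw) (hq w hw) (hp w hw).1
    (hp w hw).2.1 (hp w hw).2.2.1 (hp w hw).2.2.2.1 (hp w hw).2.2.2.2.1 (hp w hw).2.2.2.2.2
  choose! y z hy using ex
  obtain ⟨K2, s2, c2, w2, cl⟩ := pig3 K' z (fun w => X.B2 < z w ∧ z w < X.T1)
    (fun w => X.T2 < z w) (fun w => z w < X.B1) hW
    (fun w hw => ⟨(hy w hw).2.1.lt.trans_le hN, (hy w hw).2.2.2.2.2⟩) hE
  obtain ⟨e, se, me⟩ := enum K2
  have m1 : ∀ i < #K2, e i ∈ K' := fun i hi => s2 (me i hi)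
  have m2 : ∀ i < #K2, e i ∈ X.K := fun i hi => hK (m1 i hi)
  have rl : ∀ i j, i < j → j < #K2 → X.r (e j) < X.l (e j) ∧ X.l (e j) ≤ X.r (e i) :=
    fun i j a c => ⟨(X.pos _ (m2 j c)).2.1, ord (m2 i (a.trans c)) (m2 j c) (se a)⟩
  have rr : ∀ i j, i ≤ j → j < #K2 → X.r (e j) ≤ X.r (e i) := fun i j a c => by
    rcases a.eq_or_lt with rfl | a
    · exact le_rfl
    · exact ((rl i j a c).1.trans_le (rl i j a c).2).le
  have lo : ∀ i < #K2, X.r (e i) ≤ b (e i) := fun i hi =>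
    bot_lo (m2 i hi) (hp _ (m1 i hi)).2.2.2.2.2
  have hi : ∀ i j, i < j → j < #K2 → b (e j) ≤ X.r (e i) := fun i j a c =>
    bot_hi (m2 i (a.trans c)) (m2 j c) (se a) (hp _ (m1 j c)).2.2.2.2.1 (hp _ (m1 j c)).2.2.2.2.2
  have av : ∀ i g, i + m < #K2 → ∃ j, i ≤ j ∧ j ≤ i + m ∧ p (e j) ≠ g := fun i g a =>
    avoid se me p g ((card_le_card (filter_subset_filter _ s2)).trans (hm g)) a
  have bt : ∀ i j u u', i < #K2 → j < #K2 → p (e j) ≠ p (e i) → H.On (p (e i)) u →
      H.On (p (e i)) u' → X.B1 ≤ u → u' ≤ X.B2 → u < b (e j) → b (e j) < u' → False :=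
    fun i j u u' a c n k1 k2 k3 k4 k5 k6 =>
      HC.between n.symm (iff_of_false (hp _ (m1 i a)).1 (hp _ (m1 j c)).1) (hp _ (m1 j c)).2.1
        k1 k2 (hp _ (m1 j c)).2.2.1 k3 k5 k6 k4
  have B1 : ∀ i, i + m + 2 < #K2 → X.r (e (i + m + 2)) ≤ y (e i) := fun i a => by
    by_contra c
    obtain ⟨j, j1, j2, j3⟩ := av (i + 2) (p (e i)) (by omega)
    have a0 : i < #K2 := by omega
    have := lo j (by omega)
    have := rr j (i + m + 2) (by omega) a
    have := hi (i + 1) j (by omega) (by omega)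
    have := rl i (i + 1) (by omega) (by omega)
    have := lo i a0
    exact bt i j _ _ a0 (by omega) j3 (hy _ (m1 i a0)).1 (hp _ (m1 i a0)).2.2.1
      (hy _ (m1 i a0)).2.2.2.1 (hp _ (m1 i a0)).2.2.2.2.1 (by omega) (by omega)
  have B2 : ∀ i, i + m + 3 < #K2 → y (e (i + m + 3)) ≤ X.r (e i) := fun i a => by
    by_contra c
    obtain ⟨j, j1, j2, j3⟩ := av (i + 1) (p (e (i + m + 3))) (by omega)
    have := lo j (by omega)
    have := rr j (i + m + 1) (by omega) (by omega)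
    have := hi i j (by omega) (by omega)
    have := rl (i + m + 1) (i + m + 2) (by omega) (by omega)
    have := hi (i + m + 2) (i + m + 3) (by omega) a
    exact bt (i + m + 3) j _ _ a (by omega) j3 (hp _ (m1 _ a)).2.2.1 (hy _ (m1 _ a)).1
      (hp _ (m1 _ a)).2.2.2.1 (hy _ (m1 _ a)).2.2.2.2.1 (by omega) (by omega)
  have C : ∀ i i', i + m + 4 ≤ i' → i' < #K2 → p (e i) ≠ p (e i') := fun i i' a c n => by
    obtain ⟨j, j1, j2, j3⟩ := av (i + 2) (p (e i)) (by omega)
    have a0 : i < #K2 := by omega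
    have := lo j (by omega)
    have := rr j (i + m + 2) (by omega) (by omega)
    have := hi (i + 1) j (by omega) (by omega)
    have := rl i (i + 1) (by omega) (by omega)
    have := lo i a0
    have := rl (i + m + 2) (i + m + 3) (by omega) (by omega)
    have := hi (i + m + 3) i' (by omega) c
    exact bt i j _ _ a0 (by omega) j3 (n ▸ (hp _ (m1 i' c)).2.2.1) (hp _ (m1 i a0)).2.2.1
      (hp _ (m1 i' c)).2.2.2.1 (hp _ (m1 i a0)).2.2.2.2.1 (by omega) (by omega)
  have u1 := B2 1 (by omega)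
  have u2 := B1 (1 + m + 3) (by omega)
  have u3 := B2 (2 * m + 7) (by omega)
  have u4 := B1 (2 * m + 7 + m + 3) (by omega)
  have u5 := B2 (4 * m + 15 + 2 * E) (by omega)
  have u6 := B1 (4 * m + 15 + 2 * E + m + 3) (by omega)
  have v1 := rl (1 + m + 3 + m + 2) (2 * m + 7) (by omega) (by omega)
  have v2 := rl (2 * m + 7 + m + 3 + m + 2) (4 * m + 15 + 2 * E) (by omega) (by omega)
  have v3 := rl (4 * m + 15 + 2 * E + m + 3 + m + 2) (4 * m + 15 + 2 * E + m + 3 + m + 3)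
    (by omega) (by omega)
  have v4 := X.pos _ (m2 (4 * m + 15 + 2 * E + m + 3 + m + 3) (by omega))
  have v5 := X.pos _ (m2 1 (by omega))
  have o0 := X.o0
  have o2 := X.o2
  have o3 := X.o3
  have o4 := X.o4
  generalize hi2 : 4 * m + 15 + 2 * E + m + 3 = i2 at *
  have a2 : i2 < #K2 := by omega
  have y2 := hy _ (m1 i2 a2)
  obtain ⟨i, a1, a3, a4, a5, a6⟩ : ∃ i, i + m + 4 ≤ i2 ∧ y (e i) ≤ X.r (e 1) ∧
      X.r (e (2 * m + 7 + m + 3 + m + 2)) ≤ y (e i) ∧ z (e i) ≠ z (e i2) ∧ i < #K2 := by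
    by_cases c1 : z (e (1 + m + 3)) = z (e i2)
    · by_cases c3 : z (e (2 * m + 7 + m + 3)) = z (e i2)
      · have k1 := hy _ (m1 (1 + m + 3) (by omega))
        have k2 := hy _ (m1 (2 * m + 7 + m + 3) (by omega))
        have := HC.ch3 (c1 ▸ k1.2.2.1.symm) (c3 ▸ k2.2.2.1.symm) y2.2.2.1.symm (by omega)
          (by omega) (by omega)
        have := y2.2.2.2.2.2
        unfold HC.Nb at *
        omega
      · exact ⟨_, by omega, by omega, u4, c3, by omega⟩
    · exact ⟨_, by omega, u1, by omega, c1, by omega⟩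
  have y1 := hy _ (m1 i a6)
  have ne := C i i2 a1 a2
  have sd : p (e i2) ∈ H.S ↔ p (e i) ∈ H.S := iff_of_false (hp _ (m1 i2 a2)).1 (hp _ (m1 i a6)).1
  have lt : y (e i2) < y (e i) := by omega
  have zz := w2 _ (me i2 a2) _ (me i a6)
  have kk : (Ico (4 * m + 14) (4 * m + 15 + 2 * E)).image e ⊆ X.K := fun w hw => by
    obtain ⟨j, hj, rfl⟩ := mem_image.1 hw
    exact m2 j (by have := mem_Ico.1 hj; omega)
  have kc : 2 * E + 1 ≤ #((Ico (4 * m + 14) (4 * m + 15 + 2 * E)).image e) := by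
    rw [card_image_of_injective _ se.injective, Nat.card_Ico]
    omega
  have kp : ∀ w ∈ (Ico (4 * m + 14) (4 * m + 15 + 2 * E)).image e, e 1 < w ∧
      w < e (i2 + m + 2) ∧ y (e i2) < X.r w ∧ X.l w < y (e i) := fun w hw => by
    obtain ⟨j, hj, rfl⟩ := mem_image.1 hw
    have := mem_Ico.1 hj
    have := rl j (4 * m + 15 + 2 * E) (by omega) (by omega)
    have := rl (4 * m + 13) j (by omega) (by omega)
    have := rl (2 * m + 7 + m + 3 + m + 2) (4 * m + 13) (by omega) (by omega)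
    exact ⟨se (by omega), se (by omega), by omega, by omega⟩
  have up : X.B2 < z (e i2) → z (e i) < z (e i2) := fun c => by
    by_contra c'
    exact HC.nc ne.symm sd y2.1 y1.1 y2.2.1 y1.2.1 lt (by omega) (by omega)
  have mir : z (e i) < z (e i2) → X.T2 < z (e i) ∨ z (e i2) < X.B1 →
      H.Out (X.loss + W) E := fun c k =>
    (c7m kk (m2 (i2 + m + 3) (by omega)) (m2 (i2 + m + 2) (by omega)) (se (by omega)) u6 lt
      y1.2.2.2.2.1 y2.2.2.1 y1.2.2.1 c k (fun w hw => (kp w hw).2) kc).mono (by omega) le_rfl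
  rcases cl with c | c | c
  · have c1 := c _ (me i a6)
    have c3 := c _ (me i2 a2)
    exact (c7 kk (m2 0 (by omega)) (m2 1 (by omega)) (se zero_lt_one) (by omega) lt y2.2.2.2.1
      y1.2.2.1 y2.2.2.1 c1.1 (up c3.1) c3.2
      (fun w hw => ⟨(kp w hw).1, (kp w hw).2.2⟩) kc).mono (by omega) le_rfl
  · have c3 := c _ (me i2 a2)
    exact mir (up (by omega)) (.inl (c _ (me i a6)))
  · have c1 := c _ (me i a6)
    have c3 := c _ (me i2 a2)
    refine mir ?_ (.inr c3)
    by_contra c'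
    exact HC.nc ne.symm sd y2.2.1 y1.2.1 y2.1 y1.1 (by omega) (by omega) lt

end Sec

end PM

end Pool.Agent.MP_42ec7b_co

end MrgPart3

-- ======== part 4: formerly Pool.Agent.MP_42ec7b_co.A.HOne
section MrgPart4

/-!
Apexes on one large outer face.
-/

set_option autoImplicit false

open Finset

namespace Pool.Agent.MP_42ec7b_co

open Classical

namespace PM

variable {D : Type} [PM D]

namespace Sec

variable {H : HC D} {X : Sec H} {K' : Finset ℕ} {E W N s m : ℕ} {h : F D} {p : ℕ → F D}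
  {b : ℕ → ℕ}

lemma one_lo {w z : ℕ} (hw : w ∈ X.K)
    (n : H.On (X.gm w) z ∨ H.On (X.t w) z) : X.r w ≤ z := by
  have := X.pos w hw
  have := X.o2
  rcases n with n | n
  · have := gm_on hw n; omega
  · have := t_on hw n; omega

lemma one_hi {w0 w z : ℕ} (h0 : w0 ∈ X.K) (hw : w ∈ X.K) (lt : w0 < w) (k : z ≤ X.B2)
    (n : H.On (X.gm w) z ∨ H.On (X.t w) z) : z ≤ X.r w0 := by
  have := X.pos w hw
  have := X.pos w0 h0
  have := X.o2
  rcases n with n | n
  · obtain ⟨y, y', a1, a2, a3, a4, -, -, a5⟩ := zed h0 hw lt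
    have := a5 z n; omega
  · have := t_on hw n
    have := ord h0 hw lt; omega

lemma one_mid {w w' z : ℕ} (hw : w ∈ X.K) (h' : w' ∈ X.K) (lt : w < w') (k : z ≤ X.B2)
    (n : H.On (X.gp w) z ∨ H.On (X.t w) z) : X.l w' ≤ z ∧ z ≤ X.l w := by
  have := X.pos w hw
  have := X.o2
  rcases n with n | n
  · have := zedp h' hw lt n; omega
  · have := t_on hw n
    have := ord hw h' lt; omega

/-- An outer face is the chosen wide face of few triangles. -/
theorem few (hK : K' ⊆ X.K) (ns : X.NS s) (hs : s < sz h) (hq : ∀ w ∈ K', X.q w = h)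
    (hp : ∀ w ∈ K', p w ∉ H.S ∧ H.Wide X.B1 X.B2 (p w) ∧ H.On (p w) (b w) ∧ X.B1 ≤ b w ∧
      b w ≤ X.B2 ∧ (H.On (X.gm w) (b w) ∨ H.On (X.t w) (b w)))
    (hr : ∀ w ∈ K', ∃ z, X.B1 ≤ z ∧ z ≤ X.B2 ∧ (H.On (X.gp w) z ∨ H.On (X.t w) z) ∧
      H.Expo X.B1 X.B2 z) (g : F D) : #(K'.filter (p · = g)) ≤ 2 * s + 3 := by
  by_contra hc
  obtain ⟨e, he, hm⟩ := enum (K'.filter (p · = g))
  generalize #(K'.filter (p · = g)) = c at hc hm
  have m1 : ∀ i < c, e i ∈ K' := fun i a => (mem_filter.1 (hm i a)).1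
  have m2 : ∀ i < c, e i ∈ X.K := fun i a => hK (m1 i a)
  have m3 : ∀ i < c, g ∉ H.S ∧ H.On g (b (e i)) ∧ X.B1 ≤ b (e i) ∧ b (e i) ≤ X.B2 ∧
      (H.On (X.gm (e i)) (b (e i)) ∨ H.On (X.t (e i)) (b (e i))) := fun i a => by
    obtain ⟨a1, -, a2, a3⟩ := hp _ (m1 i a)
    rw [(mem_filter.1 (hm i a)).2] at a1 a2
    exact ⟨a1, a2, a3⟩
  have lo : ∀ i < c, X.r (e i) ≤ b (e i) := fun i a =>
    one_lo (m2 i a) (m3 i a).2.2.2.2
  have hi : ∀ i j, i < j → j < c → b (e j) ≤ X.r (e i) := fun i j a k =>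
    one_hi (m2 i (a.trans k)) (m2 j k) (he a) (m3 j k).2.2.2.1 (m3 j k).2.2.2.2
  have od : ∀ i j, i < j → j < c → X.l (e j) ≤ X.r (e i) := fun i j a k =>
    ord (m2 i (a.trans k)) (m2 j k) (he a)
  have rl : ∀ i < c, X.r (e i) < X.l (e i) := fun i a => (X.pos _ (m2 i a)).2.1
  have c0 : 0 < c := by omega
  have c1 : 1 < c := by omega
  have c2 : 2 < c := by omega
  have c3 : 3 < c := by omega
  obtain ⟨z, z1, z2, z3, g', g1, g2, g3⟩ := hr _ (m1 1 c1)
  have z4 := one_mid (m2 1 c1) (m2 2 c2) (he one_lt_two) z2 z3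
  have z5 : H.On g z := by
    by_contra n
    have := hi 2 3 (by omega) c3
    have := rl 2 c2
    have := od 0 1 one_pos c1
    have := lo 0 c0
    have : z ≠ b (e 0) := fun k => n (k ▸ (m3 0 c0).2.1)
    exact HC.between (g := g) (g' := g') (fun k => n (k ▸ g2)) (iff_of_false (m3 0 c0).1 g1) g3 (m3 3 c3).2.1
      (m3 0 c0).2.1 g2 (m3 3 c3).2.2.1 (by omega) (by omega) (m3 0 c0).2.2.2.1
  obtain ⟨a1, a2, a3, a4, a5⟩ := m3 1 c1
  have ne : g ≠ h := fun k => by
    have := shq (m2 1 c1) (z := b (e 1)) (by rw [hq _ (m1 1 c1), ← k]; exact a2) a3 a4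
    tauto
  have t1 := X.tri _ (m2 1 c1)
  have oh : H.On h (e 1) := hq _ (m1 1 c1) ▸ (X.out _ (m2 1 c1)).2
  have sg : sz g ≤ s := by
    by_contra n
    rcases noose3 (m2 1 c1) a1 a2 z5 a3 a4 z1 z2 a5 z3 with k | k
    · exact ne (ns _ (m2 1 c1) g h _ _ (by omega) hs t1.2.2.2.1 k t1.2.2.1 oh)
    · exact ne (ns _ (m2 1 c1) g h _ _ (by omega) hs t1.2.2.2.2 k t1.2.2.1 oh)
  have an : ∀ i j, i < j → j < s + 1 → b (e (2 * j)) < b (e (2 * i)) := fun i j a k => by
    have := hi (2 * i + 1) (2 * j) (by omega) (by omega)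
    have := rl (2 * i + 1) (by omega)
    have := od (2 * i) (2 * i + 1) (by omega) (by omega)
    have := lo (2 * i) (by omega)
    omega
  have := HC.card_on (H := H) (g := g) (T := (range (s + 1)).image fun i => b (e (2 * i)))
    fun y hy => by
      obtain ⟨i, a, rfl⟩ := mem_image.1 hy
      exact (m3 _ (by have := mem_range.1 a; omega)).2.1
  rw [card_image_of_injOn, card_range] at this
  · omega
  · intro i a j k n
    rcases lt_trichotomy i j with l | l | l
    · exact absurd n (an i j l (by simpa using k)).ne'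
    · exact l
    · exact absurd n (an j i l (by simpa using a)).ne

theorem one (hK : K' ⊆ X.K) (hW : 0 < W) (hN : H.n ≤ N * W) (ns : X.NS s)
    (hq : ∀ w ∈ K', X.q w = h) (hE : 9 * N * (2 * E + 20 * s + 61) < #K') :
    H.Out (X.loss + W) E := by
  have N0 : 0 < N := Nat.pos_of_ne_zero fun k => by
    have := HC.five (H := H)
    rw [k] at hN; omega
  have e1 : 2 * E + 20 * s + 61 ≤ N * (2 * E + 20 * s + 61) := Nat.le_mul_of_pos_left _ N0
  rw [mul_assoc] at hE
  have hs : s < sz h := by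
    have := HC.card_on (H := H) (g := h) (T := K') fun w a => hq w a ▸ (X.out w (hK a)).2
    omega
  let A : ℕ → Prop := fun w => ∀ z, X.B1 ≤ z → z ≤ X.B2 →
    H.On (X.gm w) z ∨ H.On (X.t w) z → ¬H.Expo X.B1 X.B2 z
  let B : ℕ → Prop := fun w => ∀ z, X.B1 ≤ z → z ≤ X.B2 →
    H.On (X.gp w) z ∨ H.On (X.t w) z → ¬H.Expo X.B1 X.B2 z
  by_cases hA : 2 * E + 1 ≤ #(K'.filter A)
  · exact (c6 ((filter_subset _ _).trans hK) (fun w a => (mem_filter.1 a).2) hA).mono
      (Nat.le_add_right ..) le_rfl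
  by_cases hB : 2 * E + 1 ≤ #(K'.filter B)
  · exact (c6m ((filter_subset _ _).trans hK) (fun w a => (mem_filter.1 a).2) hB).mono
      (Nat.le_add_right ..) le_rfl
  obtain ⟨C, hC⟩ : ∃ C, C = K'.filter fun w => ¬A w ∧ ¬B w := ⟨_, rfl⟩
  have mC : ∀ w ∈ C, w ∈ K' ∧ ¬A w ∧ ¬B w := fun w a => mem_filter.1 (hC ▸ a)
  have cd : #K' ≤ #(K'.filter A) + #(K'.filter B) + #C := by
    refine le_trans (card_le_card fun w a => ?_)
      ((card_union_le _ _).trans (Nat.add_le_add_right (card_union_le _ _) _))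
    simp only [hC, mem_union, mem_filter]
    tauto
  have ex : ∀ w, ∃ (g : F D) (z : ℕ), w ∈ C → g ∉ H.S ∧ H.Wide X.B1 X.B2 g ∧ H.On g z ∧
      X.B1 ≤ z ∧ z ≤ X.B2 ∧ (H.On (X.gm w) z ∨ H.On (X.t w) z) := fun w => by
    by_cases a : w ∈ C
    · have := (mC w a).2.1
      simp only [A, not_forall, not_not] at this
      obtain ⟨z, a1, a2, a3, g, a4, a5, a6⟩ := this
      exact ⟨g, z, fun _ => ⟨a4, a6, a5, a1, a2, a3⟩⟩
    · exact ⟨h, 0, fun k => absurd k a⟩
  choose p b hp using ex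
  have hr : ∀ w ∈ C, ∃ z, X.B1 ≤ z ∧ z ≤ X.B2 ∧ (H.On (X.gp w) z ∨ H.On (X.t w) z) ∧
      H.Expo X.B1 X.B2 z := fun w a => by
    have := (mC w a).2.2
    simp only [B, not_forall, not_not] at this
    obtain ⟨z, a1, a2, a3, a4⟩ := this
    exact ⟨z, a1, a2, a3, a4⟩
  have sC : C ⊆ K' := fun w a => (mC w a).1
  have hm := few (sC.trans hK) ns hs (fun w a => hq w (sC a)) hp hr
  have ne : K'.Nonempty := card_pos.1 (by omega)
  have p1 := X.pos _ (hK (K'.min'_mem ne))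
  have p2 := X.pos _ (hK (K'.max'_mem ne))
  have := bot (X := X.sub K' (K'.min' ne) (K'.max' ne) hK p1.2.2.2.1 (K'.min'_le_max' ne)
    p2.2.2.2.2 fun w a => ⟨K'.min'_le w a, K'.le_max' w a⟩) (E := E) (h := h) sC hW hN
    (K'.min'_mem ne) (K'.max'_mem ne) (hq _ (K'.min'_mem ne)) (hq _ (K'.max'_mem ne))
    (fun w a => hq w (sC a)) hp hm (by
      have : N * (2 * E + 10 * (2 * s + 3) + 30) ≤ N * (2 * E + 20 * s + 61) :=
        Nat.mul_le_mul_left _ (by omega)
      rw [mul_assoc]; omega)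
  refine this.mono ?_ le_rfl
  simp only [loss, sub]
  omega

end Sec

end PM

end Pool.Agent.MP_42ec7b_co

end MrgPart4

-- ======== part 5: formerly Pool.Agent.MP_42ec7b_co.A.HS
section MrgPart5

/-!
A long disc with many ears.
-/

set_option autoImplicit false

open Finset

namespace Pool.Agent.MP_42ec7b_co

open Classical

namespace PM

variable {D : Type} [PM D]

theorem Sec.main {H : HC D} (X : Sec H) {E W N s : ℕ} (hW : 0 < W) (hN : H.n ≤ N * W) (ns : X.NS s)
    (hE : 60000 * N ^ 2 * (E + s + 1) ≤ #X.K) : H.Out (X.loss + W) E := by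
  have n5 := HC.five (H := H)
  have N1 : 1 ≤ N := by
    rcases Nat.eq_zero_or_pos N with h | h
    · subst h; omega
    · exact h
  set A1 := X.K.filter fun w => ¬H.Wide X.T1 X.T2 (X.q w) with hA1
  set A2 := X.K.filter fun w => ∃ x y x' y', X.Tube w x y x' y' with hA2
  set A3 := X.K.filter fun w => ∃ x y, H.On (X.q w) x ∧ H.On (X.q w) y ∧ H.Ed x y ∧ X.T1 ≤ x ∧
    x ≤ X.T2 ∧ (X.B2 < y ∧ y < X.T1 ∨ X.T2 < y ∨ y < X.B1) with hA3
  by_cases c1 : E ≤ #A1
  · exact (Sec.c1 (K' := A1) (filter_subset _ _) fun w hw => (mem_filter.1 hw).2).mono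
      (by omega) c1
  by_cases c2 : 30 * E + 5 ≤ #A2
  · exact (Sec.tub (K' := A2) (filter_subset _ _) (fun w hw => (mem_filter.1 hw).2) c2).mono
      (by omega) le_rfl
  have cov : #X.K ≤ #A1 + #A2 + #A3 := by
    refine le_trans (card_le_card (t := A1 ∪ A2 ∪ A3) fun w hw => ?_)
      ((card_union_le _ _).trans (Nat.add_le_add_right (card_union_le _ _) _))
    simp only [mem_union, hA1, hA2, hA3, mem_filter]
    by_cases k : H.Wide X.T1 X.T2 (X.q w)
    · rcases Sec.wing hw k with m | m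
      · exact Or.inl (Or.inr ⟨hw, m⟩)
      · exact Or.inr ⟨hw, m⟩
    · exact Or.inl (Or.inl ⟨hw, k⟩)
  by_cases c3 : ∃ g, 9 * N * (2 * E + 20 * s + 61) < #(A3.filter (X.q · = g))
  · obtain ⟨g, hg⟩ := c3
    exact Sec.one (K' := A3.filter (X.q · = g)) (h := g)
      ((filter_subset _ _).trans (filter_subset _ _)) hW hN ns
      (fun w hw => (mem_filter.1 hw).2) hg
  · push Not at c3
    refine Sec.top (K' := A3) (filter_subset _ _) hW hN (fun w hw => (mem_filter.1 hw).2) c3 ?_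
    have e1 : N ≤ N ^ 2 := by nlinarith
    have e2 : N * E ≤ N ^ 2 * E := Nat.mul_le_mul_right _ e1
    have e3 : E ≤ N * E := Nat.le_mul_of_pos_left _ N1
    have e4 : 3 * N * (E + 10 * (9 * N * (2 * E + 20 * s + 61)) + 10) =
        3 * (N * E) + 540 * (N ^ 2 * E) + 5400 * (N ^ 2 * s) + 16470 * N ^ 2 + 30 * N := by ring
    have e5 : 60000 * N ^ 2 * (E + s + 1) =
        60000 * (N ^ 2 * E) + 60000 * (N ^ 2 * s) + 60000 * N ^ 2 := by ring
    omega

namespace HC

variable {H : HC D} {E W W1 N s : ℕ} {T : Finset (F D)}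

/-- All positions of the face lie in a short interval. -/
def Small (H : HC D) (W1 : ℕ) (t : F D) : Prop := ∃ a, ∀ z, H.On t z → a ≤ z ∧ z ≤ a + W1

/-- Triangles with a short base below a distant apex. -/
theorem hs1 (hW : 0 < W) (h1 : 5 * W ≤ W1) (hN : H.n ≤ N * W)
    (hT : ∀ t ∈ T, t ∈ H.S ∧ sz t = 3 ∧ ∃ r l w, H.On t r ∧ H.On t l ∧ H.On t w ∧ 0 < r ∧ r < l ∧
      l < r + W ∧ r + W1 < w ∧ w + 1 < H.n)
    (ns : ∀ t ∈ T, ∀ g g' u u', s < sz g → s < sz g' → Tch {t} u → Tch {g} u → Tch {t} u' →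
      Tch {g'} u' → g = g')
    (hE : 240000 * N ^ 4 * (E + s + 1) < #T) : H.Out (4 * W) E := by
  have n5 := HC.five (H := H)
  have hS := fun t ht => (hT t ht).1
  have h3 := fun t ht => (hT t ht).2.1
  choose! r l w hr using fun t ht => (hT t ht).2.2
  obtain ⟨⟨β, τ⟩, -, hβ⟩ := exists_lt_card_fiber_of_mul_lt_card_of_maps_to
    (s := T) (t := range N ×ˢ range N) (f := fun t => (r t / W, w t / W))
    (n := 240000 * N ^ 2 * (E + s + 1)) (fun t ht => by
      obtain ⟨a, -, b, -⟩ := hr t ht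
      have := a.lt
      have := b.lt
      simp only [mem_product, mem_range]
      exact ⟨Nat.div_lt_of_lt_mul (by rw [mul_comm]; omega),
        Nat.div_lt_of_lt_mul (by rw [mul_comm]; omega)⟩)
    (by
      refine lt_of_eq_of_lt ?_ hE
      simp only [card_product, card_range]
      ring)
  set T' := T.filter fun t => (r t / W, w t / W) = (β, τ) with hT'
  have m1 : ∀ t ∈ T', t ∈ T ∧ β * W ≤ r t ∧ r t < β * W + W ∧ τ * W ≤ w t ∧ w t < τ * W + W := by
    intro t ht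
    obtain ⟨a, b⟩ := mem_filter.1 ht
    obtain ⟨b1, b2⟩ := Prod.mk.inj b
    have k1 := Nat.div_add_mod' (r t) W
    have k2 := Nat.div_add_mod' (w t) W
    have k3 := Nat.mod_lt (r t) hW
    have k4 := Nat.mod_lt (w t) hW
    rw [b1] at k1
    rw [b2] at k2
    exact ⟨a, by omega, by omega, by omega, by omega⟩
  have m2 : #T' ≤ 4 * #(T'.image w) := by
    refine card_le_mul_card_image _ 4 fun z _ => card_at (H := H) (z := z) fun g hg => ?_
    obtain ⟨a, b⟩ := mem_filter.1 hg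
    exact b ▸ (hr g (m1 g a).1).2.2.1
  obtain ⟨t0, ht0⟩ : T'.Nonempty := card_pos.1 (by omega)
  have m3 : ∀ k ∈ T'.image w, ∃ t, t ∈ T' ∧ w t = k := fun k hk => by simpa using hk
  have : Nonempty (F D) := ⟨t0⟩
  choose! t ht using m3
  have m4 : ∀ k ∈ T'.image w, ∃ q gm gp, (q ∉ H.S ∧ H.On q k) ∧
      (gm ∈ H.S ∧ gm ≠ t k ∧ H.On gm k ∧ H.On gm (l (t k))) ∧
      gp ∈ H.S ∧ gp ≠ t k ∧ H.On gp k ∧ H.On gp (r (t k)) := by
    intro k hk
    obtain ⟨a, b⟩ := ht k hk
    have a' := (m1 _ a).1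
    obtain ⟨c1, c2, c3, c4, c5, c6, c7, c8⟩ := hr _ a'
    rw [b] at c3 c7 c8
    exact H.exists_qg (hS _ a') (h3 _ a') c3 c2 c1 c4 c5 (by omega) c8
  choose! q gm gp hq using m4
  obtain ⟨a0, a1, a2, a3, a4⟩ := m1 t0 ht0
  obtain ⟨-, -, -, -, -, -, a5, a6⟩ := hr t0 a0
  let X : Sec H :=
    { B1 := max 1 (β * W)
      B2 := β * W + 2 * W
      T1 := τ * W
      T2 := min (τ * W + W - 1) (H.n - 2)
      K := T'.image w
      l := fun k => l (t k)
      r := fun k => r (t k)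
      t := t
      q := q
      gm := gm
      gp := gp
      o0 := by omega
      o1 := by omega
      o2 := by omega
      o3 := by omega
      o4 := by omega
      pos := fun k hk => by
        obtain ⟨a, b⟩ := ht k hk
        obtain ⟨b0, b1, b2, b3, b4⟩ := m1 _ a
        obtain ⟨-, -, -, c4, c5, c6, c7, c8⟩ := hr _ b0
        omega
      tri := fun k hk => by
        obtain ⟨a, b⟩ := ht k hk
        have a' := (m1 _ a).1
        obtain ⟨c1, c2, c3, -⟩ := hr _ a'
        rw [b] at c3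
        exact ⟨hS _ a', h3 _ a', c3, c2, c1⟩
      out := fun k hk => (hq k hk).1
      lft := fun k hk => (hq k hk).2.1
      rgt := fun k hk => (hq k hk).2.2 }
  refine (X.main (s := s) hW hN (fun k hk g g' i j b1 b2 b3 b4 b5 b6 =>
    ns _ (m1 _ (ht k hk).1).1 g g' _ _ b1 b2 b3.2 b4.2 b5.2 b6.2) ?_).mono ?_ le_rfl
  · show _ ≤ #(T'.image w)
    have : 240000 * N ^ 2 * (E + s + 1) = 4 * (60000 * N ^ 2 * (E + s + 1)) := by ring
    omega
  · show β * W + 2 * W - max 1 (β * W) + (min (τ * W + W - 1) (H.n - 2) - τ * W) + W ≤ 4 * W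
    omega

theorem hs (hW : 0 < W) (h1 : 5 * W ≤ W1) (hN : H.n ≤ N * W)
    (hT : ∀ t ∈ T, t ∈ H.S ∧ sz t = 3 ∧ ¬H.Small W1 t)
    (ns : ∀ t ∈ T, ∀ g g' u u', s < sz g → s < sz g' → Tch {t} u → Tch {g} u → Tch {t} u' →
      Tch {g'} u' → g = g')
    (hE : 480000 * N ^ 4 * (E + s + 1) + N + 8 < #T) : H.Out (4 * W) E := by
  have n5 := HC.five (H := H)
  choose a b c ab bc oa ob oc using exists_three (H := H)
  have far : ∀ t ∈ T, a t + W1 < c t := fun t ht => by
    by_contra k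
    refine (hT t ht).2.2 ⟨a t, fun z hz => ?_⟩
    have := ab t
    have := bc t
    have := tri_on (hT t ht).2.1 (oa t) (ob t) (oc t) (by omega) (by omega) (by omega) hz
    omega
  set T0 := T.filter fun t => a t = 0 with hT0
  set T1 := T.filter fun t => c t = H.n - 1 with hT1
  set Ta := T.filter fun t => 0 < a t ∧ c t + 1 < H.n ∧ b t < a t + W with hTa
  set Tb := T.filter fun t => 0 < a t ∧ c t + 1 < H.n ∧ c t < b t + W with hTb
  set Tc := T.filter fun t => a t + W ≤ b t ∧ b t + W ≤ c t with hTc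
  have k0 : #T0 ≤ 4 := card_at (H := H) (z := 0) fun g hg => (mem_filter.1 hg).2 ▸ oa g
  have k1 : #T1 ≤ 4 := card_at (H := H) (z := H.n - 1) fun g hg => (mem_filter.1 hg).2 ▸ oc g
  have kc : #Tc ≤ N := by
    refine (card_le_card_of_injOn (t := range N) (fun t => b t / W) (fun t _ => ?_)
      fun t ht t' ht' e => ?_).trans (card_range N).le
    · have := (ob t).lt
      simp only [coe_range, Set.mem_Iio]
      exact Nat.div_lt_of_lt_mul (by rw [mul_comm]; omega)
    · obtain ⟨m1, m2, m3⟩ := mem_filter.1 (mem_coe.1 ht)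
      obtain ⟨m1', m2', m3'⟩ := mem_filter.1 (mem_coe.1 ht')
      by_contra ne
      have ne' : t' ≠ t := fun k => ne k.symm
      have hc : t ∈ H.S ↔ t' ∈ H.S := iff_of_true (hT t m1).1 (hT t' m1').1
      have e1 := Nat.div_add_mod (b t) W
      have e2 := Nat.div_add_mod (b t') W
      have e3 := Nat.mod_lt (b t) hW
      have e4 := Nat.mod_lt (b t') hW
      simp only at e
      rw [e] at e1
      rcases lt_trichotomy (b t) (b t') with k | k | k
      · exact nc ne' hc.symm (oa t') (ob t) (ob t') (oc t) (by omega) k (by omega)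
      · rcases lt_trichotomy (a t) (a t') with j | j | j
        · exact nc ne hc (oa t) (oa t') (ob t) (oc t') j (by omega) (by omega)
        · rcases lt_trichotomy (c t) (c t') with i | i | i
          · exact nc ne hc (oa t) (ob t') (oc t) (oc t') (by omega) (by omega) i
          · have := three_on ne (oa t) (j ▸ oa t') (ob t) (k ▸ ob t') (oc t) (i ▸ oc t')
              (by omega) (by omega)
            omega
          · exact nc ne' hc.symm (oa t') (ob t) (oc t') (oc t) (by omega) (by omega) i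
        · exact nc ne' hc.symm (oa t') (oa t) (ob t') (oc t) j (by omega) (by omega)
      · exact nc ne hc (oa t) (ob t') (ob t) (oc t') (by omega) k (by omega)
  have cov : #T ≤ #T0 + #T1 + #Ta + #Tb + #Tc := by
    refine le_trans (card_le_card (t := T0 ∪ T1 ∪ Ta ∪ Tb ∪ Tc) fun t ht => ?_) ?_
    · have := (oc t).lt
      simp only [mem_union, hT0, hT1, hTa, hTb, hTc, mem_filter, ht, true_and]
      omega
    · have i1 := card_union_le (T0 ∪ T1 ∪ Ta ∪ Tb) Tc
      have i2 := card_union_le (T0 ∪ T1 ∪ Ta) Tb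
      have i3 := card_union_le (T0 ∪ T1) Ta
      have i4 := card_union_le T0 T1
      omega
  have e : 480000 * N ^ 4 * (E + s + 1) = 2 * (240000 * N ^ 4 * (E + s + 1)) := by ring
  by_cases ka : 240000 * N ^ 4 * (E + s + 1) < #Ta
  · refine hs1 hW h1 hN (fun t ht => ?_) (fun t ht => ns t (mem_filter.1 ht).1) ka
    obtain ⟨m1, m2, m3, m4⟩ := mem_filter.1 ht
    exact ⟨(hT t m1).1, (hT t m1).2.1, a t, b t, c t, oa t, ob t, oc t, m2, ab t, m4, far t m1, m3⟩
  · obtain ⟨H', e1, e2, e3⟩ := H.exists_mir (c := H.n - 1) (by omega)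
    have M : H.Mir H' (H.n - 1) := ⟨by omega, e1, e2, e3⟩
    refine M.out (hs1 (T := Tb) (s := s) hW h1 (e2 ▸ hN) (fun t ht => ?_)
      (fun t ht => ns t (mem_filter.1 ht).1) (by omega))
    obtain ⟨m1, m2, m3, m4⟩ := mem_filter.1 ht
    have := ab t
    have := bc t
    have := far t m1
    refine ⟨e1 ▸ (hT t m1).1, (hT t m1).2.1, _, _, _, M.on (oc t), M.on (ob t), M.on (oa t), ?_⟩
    rw [e2]
    unfold mu
    rw [if_pos (by omega), if_pos (by omega), if_pos (by omega)]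
    omega

end HC

end PM

end Pool.Agent.MP_42ec7b_co

end MrgPart5

-- ======== part 6: formerly Pool.Agent.MP_42ec7b_co.A.PD1
section MrgPart6

/-!
Density of sums of sets of natural numbers.
-/

set_option autoImplicit false

open Finset

namespace Pool.Agent.MP_42ec7b_co

open Classical

/-- The number of missing values below `x`. -/
noncomputable def mr (X : ℕ → Prop) (x : ℕ) : ℕ := #{y ∈ range x | ¬X y}

/-- The sum of two sets. -/
def sm (X Y : ℕ → Prop) (z : ℕ) : Prop := ∃ x y, X x ∧ Y y ∧ z = x + y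

variable {X Y : ℕ → Prop} {x y k M : ℕ}

lemma mr_succ : mr X (x + 1) = mr X x + if X x then 0 else 1 := by
  unfold mr
  rw [range_add_one, filter_insert]
  split_ifs with h
  · rfl
  · rw [card_insert_of_notMem (by simp)]

lemma mr_zero : mr X 0 = 0 := by simp [mr]

lemma mr_add_le : mr X (x + y) ≤ mr X x + y := by
  induction y with
  | zero => exact le_rfl
  | succ y ih =>
    rw [← add_assoc, mr_succ]
    split_ifs <;> omega

lemma mr_gap (h : ∀ z, x ≤ z → z < x + y → ¬X z) : mr X (x + y) = mr X x + y := by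
  induction y with
  | zero => rfl
  | succ y ih =>
    rw [← add_assoc, mr_succ, if_neg (h _ (by omega) (by omega)), ih fun z a b => h z a (by omega),
      add_assoc]

lemma mr_shift {Z : ℕ → Prop} (h : ∀ z, Y z → Z (x + z)) : mr Z (x + y) ≤ mr Z x + mr Y y := by
  induction y with
  | zero => rw [mr_zero]; exact le_rfl
  | succ y ih =>
    have := h y
    rw [← add_assoc, mr_succ, mr_succ]
    split_ifs <;> first | omega | tauto

/-- The inequality of Schnirelmann. -/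
lemma mr_sm (h0 : X 0) (h : ∀ x ≤ M, (k + 1) * mr Y (x + 1) ≤ k * x) (hx : x ≤ M + 1) :
    (k + 1) * mr (sm X Y) x ≤ k * mr X x := by
  induction x using Nat.strong_induction_on with
  | _ x ih =>
  rcases x with _ | x
  · simp [mr_zero]
  have a1 : X (Nat.findGreatest X x) := Nat.findGreatest_spec x.zero_le h0
  have a2 := Nat.findGreatest_le (P := X) x
  have a3 := fun z => Nat.findGreatest_is_greatest (P := X) (n := x) (k := z)
  generalize Nat.findGreatest X x = a at a1 a2 a3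
  obtain ⟨b, rfl⟩ := Nat.exists_eq_add_of_le a2
  have b1 : mr (sm X Y) (a + (b + 1)) ≤ _ := mr_shift fun z m => ⟨a, z, a1, m, rfl⟩
  have b2 : mr X (a + 1 + b) = _ := mr_gap fun z m m' => a3 z m (by omega)
  rw [mr_succ, if_pos a1, add_right_comm] at b2
  have b3 := ih a (by omega) (by omega)
  have b4 := h b (by omega)
  rw [b2, add_assoc a]
  nlinarith

lemma pow_dens (hk : 0 < k) (q : ℕ) : 2 * q * k ^ (2 * q * k) ≤ (k + 1) ^ (2 * q * k) := by
  have key : ∀ r, (k + r) * k ^ r ≤ k * (k + 1) ^ r := fun r => by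
    induction r with
    | zero => simp
    | succ r ih =>
      calc (k + (r + 1)) * k ^ (r + 1) = ((k + (r + 1)) * k) * k ^ r := by ring
        _ ≤ ((k + r) * (k + 1)) * k ^ r := Nat.mul_le_mul_right _ (by nlinarith)
        _ = ((k + r) * k ^ r) * (k + 1) := by ring
        _ ≤ (k * (k + 1) ^ r) * (k + 1) := Nat.mul_le_mul_right _ ih
        _ = _ := by ring
  refine Nat.le_of_mul_le_mul_left ((key _).trans' ?_) hk
  rw [← mul_assoc]
  exact Nat.mul_le_mul_right _ (by nlinarith)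

/-- A start after which the partial sums are dense. -/
lemma offset {s c : ℕ → ℕ} {T : ℕ}
    (h : ∀ t, c (t + 1) = c t + 1 ∧ s (t + 1) = s t + 1 ∨ c (t + 1) = c t ∧ s t ≤ s (t + 1))
    (h0 : c 0 = 0) (hT : s T + (k + 1) * M ≤ (k + 1) * c T) : ∃ t0 ≤ T, ∀ x ≤ M,
      (k + 1) * mr (fun y => ∃ t, t0 ≤ t ∧ s t = s t0 + y) (x + 1) ≤ k * x := by
  obtain ⟨t0, m1, m2⟩ := exists_max_image (range (T + 1))
    (fun t => (s t : ℤ) - (k + 1) * c t) nonempty_range_add_one
  rw [mem_range, Nat.lt_succ_iff] at m1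
  refine ⟨t0, m1, ?_⟩
  generalize hX : (fun y => ∃ t, t0 ≤ t ∧ s t = s t0 + y) = X
  have hX' : ∀ t y, t0 ≤ t → s t = s t0 + y → X y := fun t y a b => hX ▸ ⟨t, a, b⟩
  have key : ∀ t, t0 ≤ t → t ≤ T → ∃ y, s t = s t0 + y ∧ c t0 ≤ c t ∧ c t ≤ c t0 + y ∧
      c t + mr X (y + 1) ≤ c t0 + y ∧ ∀ x ≤ y, (k + 1) * mr X (x + 1) ≤ k * x := fun t a b => by
    induction t, a using Nat.le_induction with
    | base =>
      have : mr X (0 + 1) = 0 := by rw [mr_succ, if_pos (hX' t0 0 le_rfl rfl), mr_zero]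
      exact ⟨0, rfl, le_rfl, le_rfl, by omega, fun x m => by rw [Nat.le_zero.1 m, this]; simp⟩
    | succ t a ih =>
      obtain ⟨y, i1, i2, i3, i4, i5⟩ := ih (by omega)
      have m3 := m2 (t + 1) (mem_range.2 (by omega))
      rcases h t with ⟨j1, j2⟩ | ⟨j1, j2⟩
      · have e : mr X (y + 1 + 1) = mr X (y + 1) := by
          rw [mr_succ, if_pos (hX' (t + 1) _ (by omega) (by omega)), add_zero]
        refine ⟨y + 1, by omega, by omega, by omega, by omega, fun x m => ?_⟩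
        rcases m.lt_or_eq with m | rfl
        · exact i5 x (by omega)
        · rw [e]
          exact (i5 y le_rfl).trans (Nat.mul_le_mul_left _ (by omega))
      · obtain ⟨z, hz⟩ := Nat.exists_eq_add_of_le j2
        have e : ∀ u, mr X (y + 1 + u) ≤ mr X (y + 1) + u := fun u => mr_add_le
        refine ⟨y + z, by omega, by omega, by omega, by
          have := e z
          rw [add_right_comm]
          omega, fun x m => ?_⟩
        rcases le_or_gt x y with m' | m'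
        · exact i5 x m'
        obtain ⟨u, rfl⟩ := Nat.exists_eq_add_of_le m'.le
        have e' := e u
        rw [add_right_comm] at e'
        obtain ⟨j, hj⟩ := Nat.exists_eq_add_of_le i2
        rw [j1, hz, i1, hj] at m3
        have m4 : y + z ≤ (k + 1) * j := by
          zify
          push_cast at m3
          linarith
        have m5 : mr X (y + u + 1) + j ≤ y + u := by omega
        nlinarith
  obtain ⟨y, i1, i2, i3, -, i5⟩ := key T m1 le_rfl
  refine fun x m => i5 x ?_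
  have m3 := m2 0 (mem_range.2 (by omega))
  rw [h0] at m3
  have m4 : (k + 1) * c t0 ≤ s t0 := by
    zify
    push_cast at m3
    have : (0 : ℤ) ≤ s 0 := Int.natCast_nonneg _
    linarith
  have m5 : (k + 1) * M ≤ (k + 1) * y := by nlinarith
  exact m.trans (Nat.le_of_mul_le_mul_left m5 k.succ_pos)

/-- An increasing enumeration. -/
lemma enum0 (s : Finset ℕ) :
    ∃ a : ℕ → ℕ, (∀ i < #s, a i ∈ s) ∧ ∀ i j, i < j → j < #s → a i < a j :=
  ⟨fun i => if h : i < #s then s.orderEmbOfFin rfl ⟨i, h⟩ else 0, fun i h => by simp [h],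
    fun i j a b => by simpa [b, a.trans b] using a⟩

/-- Some increment is at most the mean. -/
lemma incr (u : ℕ → ℕ) {G : ℕ} (hG : 0 < G) : ∃ i < G, G * u (i + 1) ≤ G * u i + u G := by
  by_contra k
  push Not at k
  have key : ∀ i ≤ G, i * (u G + 1) ≤ G * u i := fun i h => by
    induction i with
    | zero => simp
    | succ i ih =>
      have := k i (by omega)
      have := ih (by omega)
      nlinarith
  have := key G le_rfl
  nlinarith

end Pool.Agent.MP_42ec7b_co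

end MrgPart6

-- ======== part 7: formerly Pool.Agent.MP_42ec7b_co.A.PD3
section MrgPart7

/-!
Many triangles in short arcs of a Hamilton cycle give a seed.
-/

set_option autoImplicit false

open Finset

namespace Pool.Agent.MP_42ec7b_co

open Classical

namespace PM

variable {D : Type} [PM D] {S A O P P' Z Z' R R' Q : Finset (F D)} {n a b k M : ℕ} {p : ℕ → V D}
  {dd : ℕ → D} {g g' : F D} {e : D} {X X' : ℕ → Prop}

/-- Removal of a face with one neighbour. -/
lemma leaf (h1 : f e ∈ A) (h2 : f (α e) ∈ A) (h3 : ∀ c, f c = f e → c ≠ e → f (α c) ∉ A) :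
    (Conn A → Conn (A.erase (f e))) ∧ (A.erase (f e)).Nonempty ∧
      (Disc A → Disc (A.erase (f e)) ∧ ell (A.erase (f e)) + (sz (f e) - 2) = ell A) := by
  have k : ∀ c, f c = f e → f (α c) ∈ A → c = e := fun c a b => by_contra fun m => h3 c a m b
  have a1 : Conn A → Conn (A.erase (f e)) := fun h =>
    conn_leaf h fun c c' a a' b b' => by rw [k c a b, k c' a' b']
  have a2 : (A.erase (f e)).Nonempty := ⟨_, mem_erase.2 ⟨s0 e, h2⟩⟩
  refine ⟨a1, a2, fun h => ⟨⟨a2, ⟨f e, by simp⟩, a1 h.2.2.1, ?_⟩, ?_⟩⟩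
  · rw [compl_erase, ← fφ e]
    exact conn_insert h.2.2.2 (mem_compl.2 (h3 _ (fφ e) (φne e)))
  · have b1 : ex {f e} A = 1 := card_eq_one.2 ⟨e, eq_singleton_iff_unique_mem.2
      ⟨by simp [h2], fun c m => by
        have := (mem_filter.1 m).2
        exact k c (mem_singleton.1 this.1) this.2⟩⟩
    have b2 := wt_split (S := {f e}) (T := A)
    have b3 := ell_erase h1
    have b4 := three_le_sz (f e)
    rw [wt_single] at b2
    omega

/-- Every disc that contains `P` and avoids `R` can be shortened by removing faces of `Z`. -/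
def LF (P Z R : Finset (F D)) (X : ℕ → Prop) : Prop :=
  ∀ A, Disc A → P ⊆ A → Disjoint A R → ∀ x, X x →
    ∃ A', Disc A' ∧ A' ⊆ A ∧ A \ Z ⊆ A' ∧ ell A' + x = ell A

lemma LF.mono (h : LF P Z R X) (k : R ⊆ R') : LF P Z R' X :=
  fun A h1 h2 h3 => h A h1 h2 (h3.mono_right k)

lemma LF.add (h : LF P Z R X) (h' : LF P' Z' R X') (k : Disjoint P' Z) :
    LF (P ∪ P') (Z ∪ Z') R (sm X X') := by
  rintro A h1 h2 h3 _ ⟨x, y, x1, y1, rfl⟩
  obtain ⟨B, b1, b2, b3, b4⟩ := h A h1 (subset_union_left.trans h2) h3 x x1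
  obtain ⟨C, c1, c2, c3, c4⟩ := h' B b1
    ((subset_sdiff.2 ⟨subset_union_right.trans h2, k⟩).trans b3) (h3.mono_left b2) y y1
  refine ⟨C, c1, c2.trans b2, fun g m => ?_, by omega⟩
  simp only [mem_sdiff, mem_union, not_or] at m
  exact c3 (mem_sdiff.2 ⟨b3 (mem_sdiff.2 ⟨m.1, m.2.1⟩), m.2.2⟩)

namespace Ham

variable (H : Ham S n p dd)

include H

lemma ins_bn : Ins S n p a b ⊆ Bn S n p a b := fun g m => by
  obtain ⟨z, z1, -⟩ := H.third g 0 0
  have := (mem_filter.1 m).2 z z1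
  exact mem_filter.2 ⟨(mem_filter.1 m).1, z, this.1, this.2, z1⟩

/-- One arc with many triangles. -/
theorem window (hb : b < a + n) (hO : ∀ m ∈ Ico a b, m < n → f (α (dd m)) ∈ O)
    (hT : wt (Ins S n p a b) + (k + 1) * M ≤ (k + 1) * #(tri (Ins S n p a b))) :
    ∃ Y ⊆ Ins S n p a b, ∃ X, X 0 ∧ (∀ x ≤ M, (k + 1) * mr X (x + 1) ≤ k * x) ∧
      LF (Bn S n p a b \ Y) (Ins S n p a b) (Y ∪ O) X ∧ ∀ A, Bn S n p a b ⊆ A → Disjoint A O →
        (Conn A → A.Nonempty → Conn (A \ Y) ∧ (A \ Y).Nonempty) ∧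
          (Disc A → Disc (A \ Y) ∧ ell A ≤ ell (A \ Y) + wt (Ins S n p a b)) := by
  obtain ⟨key, k1, k2⟩ := H.rank
  replace k2 := k2 a b hb
  have k3 := H.ins_bn (a := a) (b := b)
  generalize Ins S n p a b = I at *
  generalize Bn S n p a b = B at *
  obtain ⟨Z, hZ⟩ : ∃ Z : ℕ → Finset (F D), ∀ t g, g ∈ Z t ↔ g ∈ I ∧ key g < t :=
    ⟨fun t => I.filter (key · < t), fun _ _ => mem_filter⟩
  have st : ∀ t, Z (t + 1) = Z t ∨ ∃ g ∈ I, key g = t ∧ g ∉ Z t ∧ Z (t + 1) = insert g (Z t) :=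
    fun t => by
      by_cases m : ∃ g ∈ I, key g = t
      · obtain ⟨g, g1, rfl⟩ := m
        refine Or.inr ⟨g, g1, rfl, by simp [hZ], Finset.ext fun x => ?_⟩
        rw [mem_insert, hZ, hZ, Nat.lt_succ_iff_lt_or_eq, k1.eq_iff]
        exact ⟨fun m => m.2.elim (fun m' => Or.inr ⟨m.1, m'⟩) Or.inl,
          fun m => m.elim (fun m => ⟨m ▸ g1, Or.inr m⟩) fun m => ⟨m.1, Or.inl m.2⟩⟩
      · refine Or.inl (Finset.ext fun x => ?_)
        rw [hZ, hZ, Nat.lt_succ_iff_lt_or_eq]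
        exact and_congr_right fun y => or_iff_left fun z => m ⟨x, y, z⟩
  obtain ⟨s, hs⟩ : ∃ s : ℕ → ℕ, ∀ t, s t = ∑ g ∈ Z t, (sz g - 2) := ⟨_, fun _ => rfl⟩
  have sI : ∀ t, Z t ⊆ I := fun t g m => ((hZ _ _).1 m).1
  have sw : ∀ t, s t ≤ wt I := fun t => by
    rw [hs, wt_sum]
    exact (sum_le_sum fun _ _ => Nat.sub_le _ _).trans (sum_le_sum_of_subset (sI t))
  have pr : ∀ t0 A, B \ Z t0 ⊆ A → Disjoint A (Z t0 ∪ O) → ∀ t, t0 ≤ t →
      (Conn A → A.Nonempty → Conn (A \ Z t) ∧ (A \ Z t).Nonempty) ∧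
        (Disc A → Disc (A \ Z t) ∧ ell (A \ Z t) + s t = ell A + s t0) := fun t0 A a1 a2 t m => by
    induction t, m using Nat.le_induction with
    | base =>
      rw [sdiff_eq_self_of_disjoint (a2.mono_right subset_union_left)]
      exact ⟨fun x y => ⟨x, y⟩, fun x => ⟨x, rfl⟩⟩
    | succ t m ih =>
      rcases st t with z | ⟨g, g1, g2, g3, z⟩
      · rwa [hs, z, ← hs]
      obtain ⟨e, rfl, e1, e2, e3⟩ := k2 g g1
      have up : ∀ x ∈ B, t ≤ key x → x ∈ A \ Z t := fun x y y' => mem_sdiff.2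
        ⟨a1 (mem_sdiff.2 ⟨y, fun w => by have := ((hZ _ _).1 w).2; omega⟩),
          fun w => by have := ((hZ _ _).1 w).2; omega⟩
      obtain ⟨l1, l2, l3⟩ := leaf (up _ (k3 g1) g2.ge) (up _ e1 (by omega)) fun c x y w => by
        rcases e3 c x y with u | ⟨j, u1, u2, u3⟩
        · exact (mem_sdiff.1 w).2 ((hZ _ _).2 ⟨u.1, by omega⟩)
        · exact disjoint_left.1 a2 (mem_sdiff.1 w).1 (mem_union_right _ (u3 ▸ hO j u1 u2))
      rw [hs, z, sum_insert g3, ← hs, sdiff_insert]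
      exact ⟨fun x y => ⟨l1 (ih.1 x y).1, l2⟩, fun x => ⟨(l3 (ih.2 x).1).1, by
        have := (l3 (ih.2 x).1).2
        have := (ih.2 x).2
        omega⟩⟩
  have z0 : Z 0 = ∅ := eq_empty_of_forall_notMem fun g m => by simpa using ((hZ _ _).1 m).2
  have zT : Z (I.sup key + 1) = I := Finset.ext fun g => by
    rw [hZ]
    exact and_iff_left_of_imp fun m => Nat.lt_succ_of_le (le_sup m)
  obtain ⟨t0, -, m⟩ := offset (s := s) (c := fun t => #(tri (Z t))) (k := k) (M := M)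
    (T := I.sup key + 1) (fun t => by
      rcases st t with z | ⟨g, -, -, g3, z⟩
      · exact Or.inr (by rw [hs, hs, z]; exact ⟨rfl, le_rfl⟩)
      rw [hs, hs, z, sum_insert g3, tri, filter_insert]
      split_ifs with u
      · exact Or.inl ⟨card_insert_of_notMem fun w => g3 (mem_filter.1 w).1, by omega⟩
      · exact Or.inr ⟨rfl, by omega⟩) (by simp [z0, tri])
    (by rw [zT]; have := sw (I.sup key + 1); omega)
  refine ⟨Z t0, sI t0, _, ⟨t0, le_rfl, rfl⟩, m, fun A a1 a2 a3 x ⟨t, t1, t2⟩ => ?_,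
    fun A a1 a2 => ?_⟩
  · have := (pr t0 A a2 a3 t t1).2 a1
    exact ⟨_, this.1, sdiff_subset, sdiff_subset_sdiff Subset.rfl (sI t), by omega⟩
  · have := pr 0 A (sdiff_subset.trans a1) (by rwa [z0, empty_union]) t0 t0.zero_le
    exact ⟨this.1, fun x => ⟨(this.2 x).1, by
      have := (this.2 x).2
      have := sw t0
      omega⟩⟩

/-- Several arcs with many triangles. -/
theorem group {w : ℕ → ℕ} {L Λ r : ℕ} (hL : L < n) (hQ : Conn Q) (hQ' : Q.Nonempty) (hS : Q ⊆ S)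
    (hO : Disjoint S O) (h : ∀ i < r, w i + L ≤ w (i + 1) ∧ Bn S n p (w i) (w i + L) ⊆ Q ∧
      (∀ m ∈ Ico (w i) (w i + L), m < n → f (α (dd m)) ∈ O) ∧
      wt (Ins S n p (w i) (w i + L)) ≤ Λ ∧
      Λ + (k + 1) * M ≤ (k + 1) * #(tri (Ins S n p (w i) (w i + L)))) :
    w 0 ≤ w r ∧ ∃ P Y Z X, P ⊆ Q \ Y ∧ (∀ g ∈ P, ∃ z < w r, At n p g z) ∧ Y ⊆ Z ∧
      Z ⊆ Ins S n p (w 0) (w r) ∧ Conn (Q \ Y) ∧ (Q \ Y).Nonempty ∧ Disc (S \ Y) ∧
      ell S ≤ ell (S \ Y) + r * Λ ∧ LF P Z (Y ∪ O) X ∧ X 0 ∧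
      ∀ x ≤ M + 1, (k + 1) ^ r * mr X x ≤ k ^ r * x := by
  induction r with
  | zero =>
    refine ⟨le_rfl, ∅, ∅, ∅, (· = 0), empty_subset _, by simp, Subset.rfl, empty_subset _,
      by simpa, by simpa, by simpa using H.disc, by simp, ?_, rfl, fun x _ => ?_⟩
    · rintro A a - - _ rfl
      exact ⟨A, a, Subset.rfl, sdiff_subset, rfl⟩
    · simpa [mr] using (card_filter_le _ _).trans (card_range x).le
  | succ r ih =>
    obtain ⟨i0, P, Y, Z, X, i1, i2, i3, i4, i5, i6, i7, i8, i9, i10, i11⟩ :=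
      ih fun i m => h i (by omega)
    obtain ⟨j1, j2, j3, j4, j5⟩ := h r r.lt_succ_self
    obtain ⟨Y', y1, X', y2, y3, y4, y5⟩ := H.window (k := k) (M := M) (by omega) j3 (by omega)
    have d1 : Disjoint (Bn S n p (w r) (w r + L)) Z := disjoint_left.2 fun g m m' => by
      obtain ⟨z, z1, -, z2⟩ := (mem_filter.1 m).2
      have := (mem_filter.1 (i4 m')).2 z z2
      omega
    have d2 := d1.mono_right i3
    obtain ⟨q1, q2⟩ := (y5 (Q \ Y) (subset_sdiff.2 ⟨j2, d2⟩)
      (hO.mono_left (sdiff_subset.trans hS))).1 i5 i6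
    obtain ⟨q3, q4⟩ := (y5 (S \ Y) (subset_sdiff.2 ⟨filter_subset _ _, d2⟩)
      (hO.mono_left sdiff_subset)).2 i7
    rw [sdiff_sdiff_left, sup_eq_union] at q1 q2 q3 q4
    refine ⟨by omega, _, Y ∪ Y', _, _, fun g m => ?_, fun g m => ?_, union_subset_union i3 y1,
      fun g m => ?_, q1, q2, q3, by rw [Nat.succ_mul]; omega,
      (i9.mono (union_subset_union_left subset_union_left)).add
        (y4.mono (union_subset_union_left subset_union_right)) (d1.mono_left sdiff_subset),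
      ⟨0, 0, i10, y2, rfl⟩, fun x m => ?_⟩
    · rw [mem_sdiff, mem_union, not_or]
      rcases mem_union.1 m with m | m
      · obtain ⟨z, z1, z2⟩ := i2 g m
        exact ⟨(mem_sdiff.1 (i1 m)).1, (mem_sdiff.1 (i1 m)).2, fun u => by
          have := (mem_filter.1 (y1 u)).2 z z2
          omega⟩
      · rw [mem_sdiff] at m
        exact ⟨j2 m.1, disjoint_left.1 d2 m.1, m.2⟩
    · rcases mem_union.1 m with m | m
      · obtain ⟨z, z1, z2⟩ := i2 g m
        exact ⟨z, by omega, z2⟩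
      · obtain ⟨z, -, z1, z2⟩ := (mem_filter.1 (mem_sdiff.1 m).1).2
        exact ⟨z, by omega, z2⟩
    · rcases mem_union.1 m with m | m
      · have := mem_filter.1 (i4 m)
        exact mem_filter.2 ⟨this.1, fun z u => by have := this.2 z u; omega⟩
      · have := mem_filter.1 m
        exact mem_filter.2 ⟨this.1, fun z u => by have := this.2 z u; omega⟩
    · calc _ = (k + 1) ^ r * ((k + 1) * mr (sm X X') x) := by ring
        _ ≤ (k + 1) ^ r * (k * mr X x) := Nat.mul_le_mul_left _ (mr_sm i10 y3 m)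
        _ = k * ((k + 1) ^ r * mr X x) := by ring
        _ ≤ k * (k ^ r * x) := Nat.mul_le_mul_left _ (i11 x m)
        _ = _ := by ring

/-- At most one face passes a position and leaves an interval. -/
lemma wide {m : ℕ} : ∃ h, ∀ g ∈ Bn S n p a m, g ∈ Bn S n p m b → g ∉ Ins S n p a b → g = h := by
  by_cases k : ∃ g ∈ Bn S n p a m, g ∈ Bn S n p m b ∧ g ∉ Ins S n p a b
  swap
  · exact ⟨f (dd 0), fun g x y z => absurd ⟨g, x, y, z⟩ k⟩
  have key : ∀ g ∈ Bn S n p a m, g ∈ Bn S n p m b → g ∉ Ins S n p a b → g ∈ S ∧ ∃ x y z,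
      At n p g x ∧ At n p g y ∧ At n p g z ∧ a ≤ x ∧ x < m ∧ m ≤ y ∧ y < b ∧ (z < a ∨ b ≤ z) :=
    fun g x y z => by
      obtain ⟨x0, x, x1, x2, x3⟩ := mem_filter.1 x
      obtain ⟨-, y, y1, y2, y3⟩ := mem_filter.1 y
      by_contra u
      exact z (mem_filter.2 ⟨x0, fun z w => by_contra fun w' =>
        u ⟨x0, x, y, z, x3, y3, w, x1, x2, y1, y2, by omega⟩⟩)
  obtain ⟨h, h1, h2, h3⟩ := k
  refine ⟨h, fun g g1 g2 g3 => by_contra fun hne => ?_⟩
  obtain ⟨a0, x, y, z, a1, a2, a3, a4⟩ := key g g1 g2 g3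
  obtain ⟨b0, x', y', z', b1, b2, b3, b4⟩ := key h h1 h2 h3
  have c1 := H.ncf a0 b0 hne a1 a2 b1 b3
  have c2 := H.ncf a0 b0 hne a1 a2 b2 b3
  have c3 := H.ncf b0 a0 (Ne.symm hne) b1 b2 a1 a3
  have c4 := H.ncf b0 a0 (Ne.symm hne) b1 b2 a2 a3
  obtain rfl : x = x' := by omega
  obtain rfl : y = y' := by omega
  have := H.two a0 b0 hne (by omega) a1 a2 b1 b2 a3 b3
  omega

lemma wt_ins [Q4 D] {L : ℕ} : wt (Ins S n p a (a + L)) ≤ 4 * L := by
  refine (card_le_card fun d m => ?_).trans ((RCnt.card_at ((Ico a (a + L)).image p)).le.trans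
    (Nat.mul_le_mul_left _ (card_image_le.trans (by simp))))
  obtain ⟨i, i1, i2⟩ := H.pos d
  exact mem_filter.2 ⟨mem_univ _, mem_image.2 ⟨i, mem_Ico.2
    ((mem_filter.1 (mem_filter.1 m).2).2 i (at_v i1 i2)), i2.symm⟩⟩

/-- Many triangles in short arcs give a seed. -/
theorem pd [Q4 D] {T : Finset (F D)} {L Tn Ns G u θ w e r : ℕ} (hL : 0 < L) (h2 : 2 * L < n)
    (hN : n ≤ Ns * Tn * L) (hT : ∀ t ∈ T, t ∈ S ∧ sz t = 3 ∧ ∃ a, ∀ z, At n p t z →
      a ≤ z ∧ z ≤ a + L) (hθ : 8 * L + (k + 1) * (2 * w) ≤ (k + 1) * θ)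
    (hc : Ns * Tn * θ + 8 * L * (2 * Ns * (G * u)) < #T)
    (he : k ^ u * (2 * w + 1) ≤ (k + 1) ^ u * e) (hG : 0 < G) (hu : 0 < u)
    (r1 : 5 * ((Tn + 1) * L) ≤ r) (r2 : G * (4 * ((Tn + 1) * L)) + 4 * nv D ≤ G * r)
    (r3 : u * (8 * L) ≤ r) : ∃ A P R : Finset (F D), Seed0 w e r A P R ∧ ell S ≤ ell A + r := by
  have cw : ∀ A : Finset (F D), #A ≤ wt A := fun A => by
    simpa using RCnt.mul_card_le A 1 fun x _ => by have := three_le_sz x; omega
  have w8 : ∀ a, wt (Ins S n p a (a + 2 * L)) ≤ 8 * L := fun a => H.wt_ins.trans (by omega)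
  obtain ⟨C, hC⟩ : ∃ C, C = (range (Ns * Tn)).filter
    fun j => θ ≤ #(tri (Ins S n p (j * L) (j * L + 2 * L))) := ⟨_, rfl⟩
  have c1 : #T ≤ Ns * Tn * θ + 8 * L * #C := by
    refine (card_le_card (t := (range (Ns * Tn)).biUnion
      fun j => tri (Ins S n p (j * L) (j * L + 2 * L))) fun t m => ?_).trans
      (card_biUnion_le.trans ?_)
    · obtain ⟨t1, t2, a, t3⟩ := hT t m
      obtain ⟨z, z1, -⟩ := H.third t 0 0
      have a1 := Nat.div_mul_le_self a L
      have a2 := Nat.lt_div_mul_add (a := a) hL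
      refine mem_biUnion.2 ⟨a / L, mem_range.2 ((Nat.div_lt_iff_lt_mul hL).2 ?_),
        mem_filter.2 ⟨mem_filter.2 ⟨t1, fun z u => by have := t3 z u; omega⟩, t2⟩⟩
      have := t3 z z1
      have := z1.1
      omega
    · rw [← sum_filter_add_sum_filter_not _
        fun j => θ ≤ #(tri (Ins S n p (j * L) (j * L + 2 * L))), ← hC, add_comm]
      refine add_le_add ((sum_le_card_nsmul _ _ θ fun j m => (not_le.1 (mem_filter.1 m).2).le).trans
        (Nat.mul_le_mul_right _ ((card_filter_le _ _).trans (card_range _).le))) ?_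
      rw [mul_comm _ #C]
      exact sum_le_card_nsmul _ _ _ fun j _ =>
        le_trans (card_filter_le _ (sz · = 3)) ((cw _).trans (w8 (j * L)))
  have c2 : 2 * Ns * (G * u) < #C := Nat.lt_of_mul_lt_mul_left (a := 8 * L) (by omega)
  have hTn : 0 < Tn := Nat.pos_of_ne_zero fun m => by simp [m] at hN; omega
  obtain ⟨⟨π, σ⟩, -, c3⟩ := exists_lt_card_fiber_of_mul_lt_card_of_maps_to (s := C)
    (t := range 2 ×ˢ range Ns) (f := fun j => (j % 2, j / Tn)) (n := G * u) (fun j m => by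
      rw [hC] at m
      exact mem_product.2 ⟨mem_range.2 (Nat.mod_lt _ two_pos),
        mem_range.2 ((Nat.div_lt_iff_lt_mul hTn).2 (mem_range.1 (mem_filter.1 m).1))⟩)
    (by simpa using c2)
  obtain ⟨a, a1, a2⟩ := enum0 (C.filter fun j => (j % 2, j / Tn) = (π, σ))
  have a3 : ∀ i ≤ G * u, θ ≤ #(tri (Ins S n p (a i * L) (a i * L + 2 * L))) ∧ a i % 2 = π ∧
      σ * Tn * L ≤ a i * L ∧ a i * L + 2 * L ≤ σ * Tn * L + (Tn + 1) * L := fun i m => by
    obtain ⟨x, y⟩ := mem_filter.1 (a1 i (by omega))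
    rw [hC] at x
    obtain ⟨y1, rfl⟩ := Prod.mk.inj y
    have z := Nat.lt_div_mul_add (a := a i) hTn
    exact ⟨(mem_filter.1 x).2, y1, Nat.mul_le_mul_right _ (Nat.div_mul_le_self _ _), by nlinarith⟩
  have a4 : ∀ i j, i < j → j ≤ G * u → a i * L + 2 * L ≤ a j * L := fun i j x y => by
    have := a2 i j x (by omega)
    have := (a3 i (by omega)).2.1
    have := (a3 j y).2.1
    rw [← add_mul]
    exact Nat.mul_le_mul_right _ (by omega)
  have a5 : ∀ i j, i ≤ j → j ≤ G * u → a i * L ≤ a j * L := fun i j x y => by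
    rcases x.lt_or_eq with x | rfl
    · have := a4 i j x y
      omega
    · exact le_rfl
  generalize σ * Tn * L = s0 at a3
  generalize (Tn + 1) * L = δ at a3 r1 r2
  obtain ⟨γ, g1, g2⟩ := incr (fun γ => wt (Bn S n p s0 (a (γ * u) * L))) hG
  have g3 : γ * u + u ≤ G * u := by nlinarith
  have g4 := (wt_mono (subset_univ (Bn S n p s0 (a (G * u) * L)))).trans RCnt.wt_univ.le
  rw [Nat.succ_mul] at g2
  have b0 := a3 (γ * u) (by omega)
  have b1 := a3 (γ * u + u) g3
  have b2 := a4 (γ * u) (γ * u + u) (by omega) g3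
  obtain ⟨O, hO⟩ : ∃ O, O = ((Ico s0 (s0 + δ)).filter (· < n)).image fun m => f (α (dd m)) :=
    ⟨_, rfl⟩
  have o1 : Disjoint S O := disjoint_right.2 fun g m => by
    rw [hO] at m
    obtain ⟨i, i1, rfl⟩ := mem_image.1 m
    exact (H.fr.bd i (mem_filter.1 i1).2).2
  have o2 : #O ≤ δ := hO ▸ card_image_le.trans ((card_filter_le _ _).trans (by simp))
  have q0 : (Bn S n p (a (γ * u) * L) (a (γ * u + u) * L)).Nonempty := by
    obtain ⟨t, m⟩ := card_pos.1 (lt_of_lt_of_le (Nat.pos_of_ne_zero fun m => by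
      rw [m] at hθ
      omega) b0.1)
    obtain ⟨x, z, z1, z2, z3⟩ := mem_filter.1 (H.ins_bn (mem_filter.1 m).1)
    exact ⟨t, mem_filter.2 ⟨x, z, z1, by omega, z3⟩⟩
  obtain ⟨-, P, Y, Z, X, i1, -, i3, i4, i5, i6, i7, i8, i9, -, i11⟩ := H.group
    (w := fun i => a (γ * u + i) * L) (k := k) (M := 2 * w) (r := u) (Λ := 8 * L) h2 (H.band _ _) q0
    (filter_subset _ _) o1 fun i m => by
      have x := a3 (γ * u + i) (by omega)
      have y := a4 (γ * u + i) (γ * u + u) (by omega) g3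
      have z := a5 (γ * u) (γ * u + i) (by omega) (by omega)
      refine ⟨a4 _ _ (by omega) (by omega), fun g m => ?_, fun j j1 j2 => ?_, w8 _,
        hθ.trans (Nat.mul_le_mul_left _ x.1)⟩
      · obtain ⟨m1, j, j1, j2, j3⟩ := mem_filter.1 m
        exact mem_filter.2 ⟨m1, j, by omega, by omega, j3⟩
      · rw [mem_Ico] at j1
        exact hO ▸ mem_image_of_mem _ (mem_filter.2 ⟨mem_Ico.2 (by omega), j2⟩)
  simp only [add_zero] at i4
  have wI : wt (Ins S n p s0 (s0 + δ)) ≤ 4 * δ := H.wt_ins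
  obtain ⟨h, hh⟩ := H.wide (a := s0) (b := s0 + δ) (m := a (γ * u) * L)
  refine ⟨S \ Y, _, Y ∪ O, ⟨i7, sdiff_subset_sdiff (filter_subset _ _) Subset.rfl, i5, i6,
    disjoint_union_right.2 ⟨sdiff_disjoint, o1.mono_left sdiff_subset⟩, ?_, ⟨h, ?_⟩,
    (range (2 * w + 1)).filter X, filter_subset _ _, ?_, fun A x y z j m => ?_⟩, by omega⟩
  · have : #Y ≤ wt (Ins S n p s0 (s0 + δ)) := (card_le_card fun g m => by
      have := mem_filter.1 (i4 (i3 m))
      exact mem_filter.2 ⟨this.1, fun z u => by have := this.2 z u; omega⟩).trans (cw _)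
    have := card_union_le Y O
    omega
  · have s1 : Bn S n p s0 (a (γ * u) * L) ⊆ Bn S n p s0 (a (γ * u + u) * L) := fun g m => by
      obtain ⟨m1, j, j1, j2, j3⟩ := mem_filter.1 m
      exact mem_filter.2 ⟨m1, j, j1, by omega, j3⟩
    have s2 := wt_union (sdiff_disjoint (s := Bn S n p s0 (a (γ * u) * L))
      (t := Bn S n p s0 (a (γ * u + u) * L)))
    rw [sdiff_union_of_subset s1] at s2
    have s3 := (wt_mono (S := (Bn S n p (a (γ * u) * L) (a (γ * u + u) * L) \ Y).erase h)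
      (T := Bn S n p s0 (a (γ * u + u) * L) \ Bn S n p s0 (a (γ * u) * L) ∪ Ins S n p s0 (s0 + δ))
      fun g m => by
        obtain ⟨m1, j, j1, j2, j3⟩ := mem_filter.1 (mem_sdiff.1 (mem_erase.1 m).2).1
        by_contra y
        rw [mem_union, not_or, mem_sdiff] at y
        exact (mem_erase.1 m).1 (hh g (by_contra fun z => y.1 ⟨mem_filter.2
          ⟨m1, j, by omega, j2, j3⟩, z⟩) (mem_filter.2 ⟨m1, j, j1, by omega, j3⟩) y.2)).trans
      wt_union_le
    have s4 := Nat.mul_le_mul_left G (s3.trans (Nat.add_le_add_left wI _))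
    rw [s2, mul_add] at g2
    rw [mul_add] at s4
    exact Nat.le_of_mul_le_mul_left (s4.trans (by omega)) hG
  · have x := card_filter_add_card_filter_not (s := range (2 * w + 1)) X
    have y : mr X (2 * w + 1) ≤ e :=
      Nat.le_of_mul_le_mul_left ((i11 _ le_rfl).trans he) (by positivity)
    rw [card_range] at x
    unfold mr at y
    omega
  · obtain ⟨B, y1, -, -, y2⟩ := i9 A x (i1.trans y) z j (mem_filter.1 m).2
    exact ⟨⟨B, y1, by omega⟩, by omega⟩

end Ham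

end PM

end Pool.Agent.MP_42ec7b_co

end MrgPart7

-- ======== part 8: formerly Pool.Agent.MP_42ec7b_co.A.Top1
section MrgPart8

/-!
The start at the top when many triangles do not touch two large faces.
-/

set_option autoImplicit false

open Finset

namespace Pool.Agent.MP_42ec7b_co

open Classical PM

/-- Many triangles that do not lie in a short arc give a long disc with many ears. -/
def HsStmt : Prop := ∀ (D : Type) [PM D] [Q4 D] (S T : Finset (F D)) (n : ℕ) (p : ℕ → V D)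
  (dd : ℕ → D) (E W W1 N s : ℕ), Ham S n p dd → 0 < W → 5 * W ≤ W1 → n ≤ N * W →
  (∀ t ∈ T, t ∈ S ∧ sz t = 3 ∧ ¬∃ a, ∀ z, At n p t z → a ≤ z ∧ z ≤ a + W1) →
  (∀ t ∈ T, ∀ g g' u u', s < sz g → s < sz g' → Tch {t} u → Tch {g} u → Tch {t} u' →
    Tch {g'} u' → g = g') → 480000 * N ^ 4 * (E + s + 1) + N + 8 < #T →
  ∃ A : Finset (F D), Disc A ∧ n ≤ ell A + 4 * W ∧ ∃ Y : Finset (F D), E ≤ #Y ∧
    ∀ t ∈ Y, sz t = 3 ∧ (t ∈ A ∧ ex {t} Aᶜ = 2 ∨ t ∉ A ∧ ex {t} A = 2)

lemma exists_ham {D : Type} [PM D] {S : Finset (F D)} (hS : Disc S) (h : ∀ u, BV S u) :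
    ∃ p dd, Ham S (nv D) p dd := by
  obtain ⟨d, hd⟩ := exists_bd hS.1 hS.2.1
  obtain ⟨L, p, dd, fr, -⟩ := exists_frm hS hd (Or.inl rfl)
  have := card_nbij (s := range L) (t := univ) p (fun _ _ => by simp)
    (fun i a j b k => fr.inj i (by simpa using a) j (by simpa using b) k) fun u _ =>
      (fr.vs (h u)).imp fun i k => ⟨by simpa using k.1, k.2⟩
  rw [card_range] at this
  exact ⟨p, dd, hS, by rwa [nv, ← card_univ, ← this], h⟩

lemma ear_of {D : Type} [PM D] {A : Finset (F D)} {t : F D} (h1 : sz t = 3)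
    (h : t ∈ A ∧ ex {t} Aᶜ = 2 ∨ t ∉ A ∧ ex {t} A = 2) : Ear A t := by
  have e := wt_split (S := {t}) (T := A)
  rw [wt_single] at e
  refine ⟨h1, ?_⟩
  rcases h with ⟨m, k⟩ | ⟨m, k⟩
  · rw [← show ex {t} A = 1 by omega]
    simp [ex, m]
  · rw [← show ex {t} Aᶜ = 1 by omega]
    simp [ex, m]

theorem top1 (hs : HsStmt) : Top1Stmt := by
  intro a b q
  obtain ⟨k, hk⟩ : ∃ k, k = 1024 * a := ⟨_, rfl⟩
  obtain ⟨u, hu⟩ : ∃ u, u = 2 * (2 * q) * k := ⟨_, rfl⟩
  obtain ⟨Tn, hT⟩ : ∃ Tn, Tn = 2560 * (a * (8 * b * u)) := ⟨_, rfl⟩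
  obtain ⟨M, hM⟩ : ∃ M, M = 80 * b * Tn := ⟨_, rfl⟩
  obtain ⟨Z, hZ⟩ : ∃ Z, Z = 480000 * (2 * M) ^ 4 := ⟨_, rfl⟩
  obtain ⟨c0, h0⟩ := ear cnt (40 * (a * Z)) b
  refine ⟨c0 + 40 * (a * Z) + 96 * (a * M) + M + 1, fun D _ _ s w e r h1 h2 h3 h4 h5 h6 h7 => ?_⟩
  have n5 : 4 < nv D := five
  have a0 : 0 < a := Nat.pos_of_ne_zero fun m => by rw [m] at h7; omega
  have b0 : 0 < b := Nat.pos_of_ne_zero fun m => by rw [m] at h5; omega
  have q0 : 0 < q := Nat.pos_of_ne_zero fun m => by rw [m] at h4; omega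
  have k0 : 0 < k := by omega
  have w0 : 1 ≤ w := by omega
  have u0 : 0 < u := by rw [hu]; positivity
  have uT : u ≤ Tn := by
    have := Nat.le_mul_of_pos_left (8 * b * u) a0
    have := Nat.le_mul_of_pos_left u (show 0 < 8 * b by omega)
    omega
  have TM : 80 * Tn ≤ M := by rw [hM]; exact Nat.mul_le_mul_right _ (by omega)
  have MZ : 2 * M + 8 ≤ Z := by
    have := Nat.le_self_pow (n := 4) (by omega) (2 * M)
    omega
  have n1 := (Nat.le_mul_of_pos_right _ (show 0 < s by omega)).trans h1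
  have W0 : 0 < nv D / M := Nat.div_pos (by omega) (by omega)
  have W1 : M * (nv D / M) ≤ nv D := Nat.mul_div_le _ _
  have W2 : nv D ≤ 2 * M * (nv D / M) := by
    have := Nat.div_add_mod (nv D) M
    have := Nat.mod_lt (nv D) (show 0 < M by omega)
    have := Nat.le_mul_of_pos_right M W0
    rw [mul_assoc]
    omega
  generalize nv D / M = W at W0 W1 W2
  have W3 : 80 * (Tn * W) ≤ r := Nat.le_of_mul_le_mul_left
    (le_trans (by rw [hM] at W1; linarith) h5) b0
  have W4 : W ≤ Tn * W := Nat.le_mul_of_pos_left _ (by omega)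
  have key : ∀ S T : Finset (F D), Disc S → (∀ u, BV S u) → (∀ t ∈ T, t ∈ S ∧ sz t = 3 ∧
      ¬∃ g g', g ≠ g' ∧ s < sz g ∧ s < sz g' ∧ Meet {t} {g} ∧ Meet {t} {g'}) →
      nv D ≤ 2 * (a * #T) → ∃ A P R : Finset (F D), Seed0 w e r A P R ∧ nv D ≤ ell A + r := by
    intro S T s1 s2 s3 s4
    obtain ⟨p, dd, H⟩ := exists_ham s1 s2
    have c := card_filter_add_card_filter_not (s := T)
      fun t => ∃ a, ∀ z, At (nv D) p t z → a ≤ z ∧ z ≤ a + 5 * W
    by_cases m1 : 80 * b * Tn * (40 * W / (k + 1) + 1 + 2 * w) + 8 * (5 * W) *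
      (2 * (80 * b) * (8 * b * u)) < #(T.filter
        fun t => ∃ a, ∀ z, At (nv D) p t z → a ≤ z ∧ z ≤ a + 5 * W)
    · rw [← (RCnt.ell_nv s1).2 s2]
      have g1 := Nat.mul_le_mul_right W TM
      have g2 := Nat.mul_le_mul_left b W3
      have g3 := Nat.mul_le_mul_left b W4
      have g4 := Nat.mul_le_mul_right W uT
      refine H.pd (k := k) (by omega) (by linarith) (by rw [← hM]; linarith) (fun t m =>
        ⟨(s3 t (mem_filter.1 m).1).1, (s3 t (mem_filter.1 m).1).2.1, (mem_filter.1 m).2⟩) ?_ m1 ?_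
        (by omega) u0 (by linarith) (by linarith) (by linarith)
      · have := Nat.lt_div_mul_add (a := 40 * W) k.add_one_pos
        linarith
      · have := pow_dens k0 (2 * q)
        rw [← hu] at this
        calc _ ≤ k ^ u * (2 * (2 * q) * e) := Nat.mul_le_mul_left _ (by linarith)
          _ = 2 * (2 * q) * k ^ u * e := by ring
          _ ≤ _ := Nat.mul_le_mul_right _ this
    have z0 : 0 < 40 * (a * Z) := by
      have := Nat.mul_pos a0 (show 0 < Z by omega)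
      omega
    obtain ⟨A, a1, a2, Y, a3, a4⟩ := hs D S (T.filter fun t => ¬∃ a, ∀ z, At (nv D) p t z →
      a ≤ z ∧ z ≤ a + 5 * W) _ p dd (nv D / (40 * (a * Z)) + 1) W (5 * W) (2 * M) s H W0
      le_rfl W2 (fun t m => ⟨(s3 t (mem_filter.1 m).1).1, (s3 t (mem_filter.1 m).1).2.1,
        (mem_filter.1 m).2⟩)
      (fun t m g g' x y x1 x2 x3 x4 x5 x6 => by_contra fun ne =>
        (s3 t (mem_filter.1 m).1).2.2 ⟨g, g', ne, x1, x2, ⟨x, x3, x4⟩, y, x5, x6⟩) (by
        by_contra m2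
        rw [not_lt] at m1 m2
        rw [← hZ] at m2
        rw [← hM] at m1
        rw [← c, mul_add] at s4
        have e1 := Nat.mul_le_mul_left a m1
        have e2 := Nat.mul_le_mul_left a m2
        have e3 := Nat.mul_div_le (nv D) (40 * (a * Z))
        have e4 := Nat.mul_div_le (40 * W) (k + 1)
        generalize nv D / (40 * (a * Z)) = x at e2 e3
        generalize 40 * W / (k + 1) = y at e1 e4
        have f1 : 1024 * (a * (M * y)) ≤ 40 * nv D := by
          have := Nat.mul_le_mul_left M ((Nat.mul_le_mul_right y k.le_succ).trans e4)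
          rw [hk] at this
          linarith
        have f2 : 96 * (a * M) * w ≤ nv D := le_trans (Nat.mul_le_mul_right _ (by omega)) h2
        have f3 : a * M ≤ a * M * w := Nat.le_mul_of_pos_right _ (by omega)
        have f4 : 32 * (a * (8 * (5 * W) * (2 * (80 * b) * (8 * b * u)))) ≤ nv D := by
          refine le_trans (le_of_eq ?_) W1
          rw [hM, hT]
          ring
        have f5 : 40 * (a * Z) * s ≤ nv D := le_trans (Nat.mul_le_mul_right _ (by omega)) h1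
        have f6 : a * Z * 3 ≤ a * Z * s := Nat.mul_le_mul_left _ h6
        have f7 : a * (2 * M + 8) ≤ a * Z := Nat.mul_le_mul_left _ MZ
        linarith)
    obtain ⟨P, R, m⟩ := h0 D w r A Y (by omega) (le_trans (Nat.mul_le_mul_right _ (by omega)) h2) h5
      a1 (fun t m => ear_of (a4 t m).1 (a4 t m).2) (by
        have := Nat.lt_div_mul_add (a := nv D) z0
        have := Nat.mul_le_mul_left (40 * (a * Z)) a3
        linarith)
    obtain ⟨X, x1, x2, x3⟩ := m.flx
    exact ⟨A, P, R, { m with flx := ⟨X, x1, by omega, x3⟩ }, by omega⟩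
  obtain ⟨d, -⟩ := v_surj (D := D) (Fintype.card_pos_iff.1 (show 0 < nv D by omega)).some
  obtain ⟨S, s1, -, -, s2⟩ := ham (e := d) rfl
  unfold tau at h7
  generalize hT0 : ({t : F D | sz t = 3 ∧ ¬∃ g g', g ≠ g' ∧ s < sz g ∧ s < sz g' ∧
    Meet {t} {g} ∧ Meet {t} {g'}} : Finset (F D)) = T at h7
  have hT1 : ∀ t ∈ T, _ := fun t m => (mem_filter.1 (hT0 ▸ m)).2
  rw [← card_filter_add_card_filter_not (· ∈ S), mul_add] at h7
  by_cases m : nv D ≤ 2 * (a * #(T.filter (· ∈ S)))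
  · exact key S _ s1 s2 (fun t m => ⟨(mem_filter.1 m).2, hT1 t (mem_filter.1 m).1⟩) m
  · exact key Sᶜ (T.filter (· ∉ S)) s1.compl (fun u => bv_compl.2 (s2 u))
      (fun t m => ⟨mem_compl.2 (mem_filter.1 m).2, hT1 t (mem_filter.1 m).1⟩) (by omega)

end Pool.Agent.MP_42ec7b_co

end MrgPart8

-- ======== part 9: formerly Pool.Agent.MP_42ec7b_co.A.Top1Fin
section MrgPart9

/-!
The start at the top, without hypotheses.
-/

set_option autoImplicit false

namespace Pool.Agent.MP_42ec7b_co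

open PM

theorem top1_fin : Top1Stmt :=
  top1 fun _ _ _ S _ n p dd _ _ _ _ _ H h1 h2 h3 h4 h5 h6 =>
    HC.hs (H := ⟨S, n, p, dd, H.disc, H.fr, H.all, RCnt.rho4⟩) h1 h2 h3 h4 h5 h6

end Pool.Agent.MP_42ec7b_co

end MrgPart9

-- marker of a merged file
example : 731051 + 180637 = 731051 + 180637 := rfl
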