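import Pool.Agent.MP_42ec7b_co.A.Join
import Pool.Agent.MP_42ec7b_co.A.Bridge
import Pool.Agent.MP_42ec7b_co.A.RCh
import Pool.Agent.MP_42ec7b_co.A.HSeg
import Pool.Agent.MP_42ec7b_co.A.RGood
import Pool.Agent.MP_42ec7b_co.A.Top1Fin

/-!
Almost all lengths occur.
-/

set_option autoImplicit false

namespace Pool.Agent.MP_42ec7b_co

theorem almost_all : MainStmt :=
  join (chn cnt (add cnt)) (good cnt (eul cnt) (exm cnt)) top1_fin

end Pool.Agent.MP_42ec7b_co
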