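import Pool.Agent.MP_42ec7b_co.A.HSeg

-- ======== part 0: formerly Pool.Agent.MP_42ec7b_co.A.HSec
section MrgPart0

/-!
The inner faces at the apex of a triangle.
-/

set_option autoImplicit false

open Finset

namespace Pool.Agent.MP_42ec7b_co

open Classical

namespace PM

variable {D : Type} [PM D]

/-- The other face at a chord of an inner face. -/
lemma HC.hsec_other {H : HC D} {t : F D} {d : D} {i j : ℕ} (h : t ∈ H.S)
    (hd : f d = t ∨ f (α d) = t) (h1 : i < H.n) (h2 : j < H.n) (k1 : v d = H.P i)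
    (k2 : v (α d) = H.P j) (hn : ¬H.Nb i j) : ∃ g, g ∈ H.S ∧ g ≠ t ∧ H.On g j ∧ H.On g i := by
  have hc : f d ∈ H.S ↔ f (α d) ∈ H.S := by
    by_contra k
    exact hn (HC.bd_pos k h1 h2 k1 k2)
  rcases hd with rfl | rfl
  · exact ⟨f (α d), hc.1 h, s0 d, HC.on_v h2 k2, HC.on_v' h1 k1⟩
  · refine ⟨f d, hc.2 h, (s0 d).symm, ?_, HC.on_v h1 k1⟩
    have := HC.on_v' h2 k2
    rwa [αα] at this

lemma HC.exists_qg (H : HC D) {t : F D} {w l r : ℕ} (h : t ∈ H.S) (h3 : sz t = 3) (h1 : H.On t w)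
    (h2 : H.On t l) (h4 : H.On t r) (k1 : 0 < r) (k2 : r < l) (k3 : l + 1 < w) (k4 : w + 1 < H.n) :
    ∃ q gm gp, (q ∉ H.S ∧ H.On q w) ∧ (gm ∈ H.S ∧ gm ≠ t ∧ H.On gm w ∧ H.On gm l) ∧
      gp ∈ H.S ∧ gp ≠ t ∧ H.On gp w ∧ H.On gp r := by
  have ht : ∀ x, H.On t x → x = w ∨ x = l ∨ x = r := fun x hx =>
    HC.tri_on h3 h1 h2 h4 (by omega) (by omega) (by omega) hx
  obtain ⟨d, a1, a2, a3⟩ := HC.cons h2 h1 (by omega) fun x hx => by
    have := ht x hx
    omega
  obtain ⟨e, b1, b2, b3⟩ := HC.ext h4 h1 (by omega) fun x hx => by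
    have := ht x hx
    omega
  obtain ⟨gm, hm⟩ := HC.hsec_other h a1 h2.lt h1.lt a2 a3 (by unfold HC.Nb; omega)
  obtain ⟨gp, hp⟩ := HC.hsec_other h b1 h4.lt h1.lt b2 b3 (by unfold HC.Nb; omega)
  exact ⟨f (α (H.dd w)), gm, gp, ⟨(H.fr.bd w h1.lt).2, (HC.on_dd k4).2.2.1⟩, hm, hp⟩

namespace Sec

variable {H : HC D} {X : Sec H} {w w0 w' z x y x' y' x2 y2 x2' y2' b b' : ℕ} {g : F D}

lemma t_on (h : w ∈ X.K) (k : H.On (X.t w) z) : z = w ∨ z = X.l w ∨ z = X.r w := by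
  obtain ⟨-, a, b, c, e⟩ := X.tri w h
  have p := X.pos w h
  have o := X.o2
  exact HC.tri_on a b c e (by omega) (by omega) (by omega) k

/-- A face at another apex is not the triangle. -/
lemma hsec_ne (h : w ∈ X.K) (h' : w' ∈ X.K) (k : w ≠ w') (m : H.On g w') : X.t w ≠ g := by
  rintro rfl
  have a := t_on h m
  have p := X.pos w h
  have p' := X.pos w' h'
  have o := X.o2
  omega

lemma tinj (h : w ∈ X.K) (h' : w' ∈ X.K) (k : X.t w = X.t w') : w = w' := by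
  by_contra m
  exact hsec_ne h h' m (X.tri w' h').2.2.1 k

lemma ord (h : w ∈ X.K) (h' : w' ∈ X.K) (k : w < w') : X.l w' ≤ X.r w := by
  by_contra m
  obtain ⟨a1, -, a2, -, a3⟩ := X.tri w h
  obtain ⟨b1, -, b2, b3, -⟩ := X.tri w' h'
  have p := X.pos w h
  have p' := X.pos w' h'
  have o := X.o2
  exact HC.nc (hsec_ne h h' k.ne b2) (iff_of_true a1 b1) a3 b3 a2 b2 (by omega) (by omega) k

lemma ed_l (h : w ∈ X.K) : H.Ed w (X.l w) := by
  have p := X.pos w h
  have o := X.o2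
  refine (HC.cons_ed (X.tri w h).2.2.2.1 (X.tri w h).2.2.1 (by omega) fun x hx => ?_).symm
  have := t_on h hx
  omega

lemma ed_r (h : w ∈ X.K) : H.Ed w (X.r w) := by
  have p := X.pos w h
  have o := X.o2
  refine (HC.ext_ed (X.tri w h).2.2.2.2 (X.tri w h).2.2.1 (by omega) fun x hx => ?_).symm
  have := t_on h hx
  omega

lemma gm_on (h : w ∈ X.K) (k : H.On (X.gm w) z) : X.l w ≤ z ∧ z ≤ w := by
  obtain ⟨a1, -, a2, a3, a4⟩ := X.tri w h
  obtain ⟨b1, b2, b3, b4⟩ := X.lft w h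
  have p := X.pos w h
  have o := X.o2
  refine ⟨not_lt.1 fun m => ?_, not_lt.1 fun m => ?_⟩
  · rcases lt_trichotomy z (X.r w) with c | rfl | c
    · exact HC.nc b2 (iff_of_true b1 a1) k a4 b4 a2 c p.2.1 (by omega)
    · exact p.2.1.ne' (HC.three_on b2 b3 a2 b4 a3 k a4 (by omega) (by omega))
    · exact HC.nc b2.symm (iff_of_true a1 b1) a4 k a3 b3 c m (by omega)
  · exact HC.nc b2.symm (iff_of_true a1 b1) a4 b4 a2 k p.2.1 (by omega) m

lemma gp_on (h : w ∈ X.K) (k : H.On (X.gp w) z) : z ≤ X.r w ∨ w ≤ z := by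
  obtain ⟨a1, -, a2, a3, a4⟩ := X.tri w h
  obtain ⟨b1, b2, b3, b4⟩ := X.rgt w h
  have p := X.pos w h
  have o := X.o2
  by_contra m
  rcases lt_trichotomy z (X.l w) with c | rfl | c
  · exact HC.nc b2.symm (iff_of_true a1 b1) a4 k a3 b3 (by omega) c (by omega)
  · exact p.2.1.ne' (HC.three_on b2 b3 a2 k a3 b4 a4 (by omega) (by omega))
  · exact HC.nc b2 (iff_of_true b1 a1) b4 a3 k a2 p.2.1 c (by omega)

lemma zed (h0 : w0 ∈ X.K) (h : w ∈ X.K) (k : w0 < w) : ∃ z z', X.l w ≤ z ∧ z ≤ X.r w0 ∧ w0 ≤ z' ∧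
    z' ≤ w ∧ H.On (X.gm w) z ∧ H.Ed z' z ∧
      ∀ y, H.On (X.gm w) y → (X.l w ≤ y ∧ y ≤ z) ∨ (z' ≤ y ∧ y ≤ w) := by
  obtain ⟨a1, -, a2, -, a4⟩ := X.tri w0 h0
  obtain ⟨b1, -, b3, b4⟩ := X.lft w h
  have p := X.pos w0 h0
  have o := X.o2
  obtain ⟨z, c1, c2, c3, c4⟩ := HC.exists_max b4 (ord h0 h k)
  obtain ⟨z', e1, e2, e3, e4⟩ := HC.exists_min b3 k.le
  have key : ∀ y, H.On (X.gm w) y → (X.l w ≤ y ∧ y ≤ z) ∨ (z' ≤ y ∧ y ≤ w) := fun y hy => by
    have m := gm_on h hy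
    rcases le_or_gt y (X.r w0) with u | u
    · exact Or.inl ⟨m.1, c4 y hy u⟩
    rcases le_or_gt w0 y with u' | u'
    · exact Or.inr ⟨e4 y hy u', m.2⟩
    exact (HC.nc (hsec_ne h0 h k.ne b3) (iff_of_true a1 b1) a4 hy a2 b3 u u' k).elim
  refine ⟨z, z', c2, c3, e2, e3, c1, (HC.cons_ed c1 e1 (by omega) fun y hy => ?_).symm, key⟩
  have := key y hy
  omega

/-- The right face stays between the triangle and a later one. -/
lemma zedp (h0 : w' ∈ X.K) (h : w ∈ X.K) (k : w < w') (m : H.On (X.gp w) y) :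
    (X.l w' ≤ y ∧ y ≤ X.r w) ∨ (w ≤ y ∧ y ≤ w') := by
  obtain ⟨a1, -, a2, a3, a4⟩ := X.tri w' h0
  obtain ⟨b1, -, b3, -⟩ := X.rgt w h
  have p := X.pos w h
  have p' := X.pos w' h0
  have o := X.o2
  have n := hsec_ne h0 h k.ne' b3
  refine (gp_on h m).imp (fun u => ⟨not_lt.1 fun c => ?_, u⟩) fun u => ⟨u, not_lt.1 fun c => ?_⟩
  · exact HC.nc n.symm (iff_of_true b1 a1) m a3 b3 a2 c (by omega) k
  · exact HC.nc n (iff_of_true a1 b1) a4 b3 a2 m (by omega) k c

end Sec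

end PM

end Pool.Agent.MP_42ec7b_co

end MrgPart0

-- ======== part 1: formerly Pool.Agent.MP_42ec7b_co.A.HSec2
section MrgPart1

/-!
The outer face at the apex of a triangle.
-/

set_option autoImplicit false

open Finset

namespace Pool.Agent.MP_42ec7b_co

open Classical

namespace PM

variable {D : Type} [PM D]

/-- A face that shares two vertices with the face of a corner is next to the corner. -/
lemma hsec2_adj {H : HC D} {c : D} {g : F D} {w j : ℕ} (hc : v c = H.P w) (hne : g ≠ f c)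
    (hw : w ≠ j) (h1 : H.On (f c) w) (h2 : H.On g w) (h3 : H.On (f c) j) (h4 : H.On g j) :
    f (ρ c) = g ∧ v (α c) = H.P j ∨ f (ρ (ρ (ρ c))) = g ∧ v (α (ρ (ρ (ρ c)))) = H.P j := by
  obtain ⟨d, a1, a2, ⟨a3, a4⟩ | ⟨a3, a4⟩⟩ :=
    two_v hne.symm (fun k => hw (HC.inj h1.1 h3.1 k)) h1.2 h2.2 h3.2 h4.2
  · obtain rfl : d = c := eq_of_fv a1 (a3.trans hc.symm)
    exact Or.inl ⟨(fρ d).trans a2, a4⟩
  · have e : ρ (α d) = c := eq_of_fv (by rw [fρ, αα, a1]) (by rw [vρ, a4, hc])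
    rw [← e, H.h4, αα]
    exact Or.inr ⟨a2, a3⟩

namespace Sec

variable {H : HC D} {X : Sec H} {w z b b' : ℕ} {g : F D}

/-- The corners at the apex and the ends of the two edges of the triangle. -/
lemma hsec2_corner (h : w ∈ X.K) : ∃ c, v c = H.P w ∧ f c = X.t w ∧
    (f (ρ c) = X.gm w ∧ f (ρ (ρ (ρ c))) = X.gp w ∧ v (α c) = H.P (X.l w) ∨
      f (ρ c) = X.gp w ∧ f (ρ (ρ (ρ c))) = X.gm w ∧ v (α (ρ (ρ (ρ c)))) = H.P (X.l w)) ∧
    ∀ g, g ∉ H.S → H.On g w → f (ρ (ρ c)) = g := by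
  obtain ⟨t1, -, t3, t4, t5⟩ := X.tri w h
  obtain ⟨m1, m2, m3, m4⟩ := X.lft w h
  obtain ⟨p1, p2, p3, p4⟩ := X.rgt w h
  have o := X.pos w h
  have o2 := X.o2
  obtain ⟨c, c1, c2⟩ := t3.dart
  have ne : X.gm w ≠ X.gp w := fun k => by
    have := gm_on h (k ▸ p4)
    omega
  rw [← c1] at t3 t4 t5 m2 p2
  have key : f (ρ c) = X.gm w ∧ f (ρ (ρ (ρ c))) = X.gp w ∧ v (α c) = H.P (X.l w) ∨
      f (ρ c) = X.gp w ∧ f (ρ (ρ (ρ c))) = X.gm w ∧ v (α (ρ (ρ (ρ c)))) = H.P (X.l w) := by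
    rcases hsec2_adj c2 m2 (by omega) t3 m3 t4 m4 with ⟨a, a'⟩ | ⟨a, a'⟩ <;>
      rcases hsec2_adj c2 p2 (by omega) t3 p3 t5 p4 with ⟨e, -⟩ | ⟨e, -⟩
    · exact absurd (a.symm.trans e) ne
    · exact Or.inl ⟨a, e, a'⟩
    · exact Or.inr ⟨e, a, a'⟩
    · exact absurd (a.symm.trans e) ne
  refine ⟨c, c2, c1, key, fun g g1 g2 => ?_⟩
  obtain ⟨e, rfl, e2⟩ := g2.dart
  rcases four H.h4 (e2.trans c2.symm) with rfl | rfl | rfl | rfl
  · exact absurd (c1 ▸ t1) g1
  · rcases key with k | k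
    exacts [absurd (k.1 ▸ m1) g1, absurd (k.1 ▸ p1) g1]
  · rfl
  · rcases key with k | k
    exacts [absurd (k.2.1 ▸ p1) g1, absurd (k.2.1 ▸ m1) g1]

/-- The corners at the apex. -/
lemma corner (h : w ∈ X.K) : ∃ c, v c = H.P w ∧ f c = X.t w ∧ f (ρ (ρ c)) = X.q w ∧
    (f (ρ c) = X.gm w ∧ f (ρ (ρ (ρ c))) = X.gp w ∨
      f (ρ c) = X.gp w ∧ f (ρ (ρ (ρ c))) = X.gm w) := by
  obtain ⟨c, c1, c2, c3, c4⟩ := hsec2_corner h
  exact ⟨c, c1, c2, c4 _ (X.out w h).1 (X.out w h).2,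
    c3.imp (fun k => ⟨k.1, k.2.1⟩) fun k => ⟨k.1, k.2.1⟩⟩

lemma quniq (h : w ∈ X.K) (h1 : g ∉ H.S) (h2 : H.On g w) : g = X.q w := by
  obtain ⟨c, -, -, -, c4⟩ := hsec2_corner h
  exact (c4 g h1 h2).symm.trans (c4 _ (X.out w h).1 (X.out w h).2)

lemma qnb (h : w ∈ X.K) : H.On (X.q w) (w - 1) ∧ H.On (X.q w) (w + 1) := by
  have o := X.pos w h
  have o2 := X.o2
  have o4 := X.o4
  have e : w - 1 + 1 = w := by omega
  obtain ⟨-, -, a1, a2⟩ := HC.on_dd (H := H) (i := w - 1) (by omega)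
  obtain ⟨-, -, b1, b2⟩ := HC.on_dd (H := H) (i := w) (by omega)
  rw [e] at a2
  exact ⟨quniq h (H.fr.bd _ (by omega)).2 a2 ▸ a1, quniq h (H.fr.bd _ (by omega)).2 b1 ▸ b2⟩

lemma shq (h : w ∈ X.K) (k : H.On (X.q w) z) (k1 : X.B1 ≤ z) (k2 : z ≤ X.B2) :
    ¬H.On (X.gm w) z ∧ ¬H.On (X.t w) z ∧ ¬H.On (X.gp w) z := by
  have o := X.pos w h
  have o0 := X.o0
  have o2 := X.o2
  have key : ∀ g, g ∈ H.S → H.On g w → ¬H.On g z := fun g g1 g2 g3 => by
    have := HC.sh (fun m => (X.out w h).1 (m.2 g1)) k g3 (X.out w h).2 g2 (by omega)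
    unfold HC.Nb at this
    omega
  exact ⟨key _ (X.lft w h).1 (X.lft w h).2.2.1, key _ (X.tri w h).1 (X.tri w h).2.2.1,
    key _ (X.rgt w h).1 (X.rgt w h).2.2.1⟩

/-- An outer face that meets both side faces in the lower interval meets the base. -/
theorem noose3 (h : w ∈ X.K) (h1 : g ∉ H.S) (k1 : H.On g b) (k2 : H.On g b') (m1 : X.B1 ≤ b)
    (m2 : b ≤ X.B2) (m3 : X.B1 ≤ b') (m4 : b' ≤ X.B2) (n1 : H.On (X.gm w) b ∨ H.On (X.t w) b)
    (n2 : H.On (X.gp w) b' ∨ H.On (X.t w) b') : H.On g (X.l w) ∨ H.On g (X.r w) := by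
  by_contra hn
  rw [not_or] at hn
  have o := X.pos w h
  have o0 := X.o0
  have o2 := X.o2
  have o4 := X.o4
  have nt : ∀ x, H.On g x → x ≤ X.B2 → x ≠ X.l w ∧ ¬H.On (X.t w) x := fun x a e =>
    ⟨fun k => hn.1 (k ▸ a), fun k => by
      rcases t_on h k with k | k | k
      exacts [by omega, hn.1 (k ▸ a), hn.2 (k ▸ a)]⟩
  obtain ⟨a2, fa2, va2⟩ := (n1.resolve_right (nt b k1 m2).2).dart
  obtain ⟨b3, fb3, vb3⟩ := (n2.resolve_right (nt b' k2 m4).2).dart
  obtain ⟨b2, fb2, vb2⟩ := k1.dart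
  obtain ⟨a3, fa3, va3⟩ := k2.dart
  obtain ⟨c, c1, -, c3, c4⟩ := hsec2_corner h
  have hw : w < H.n := by omega
  have hl : X.l w < H.n := by omega
  have pw : ∀ x, H.On g x → x ≤ X.B2 → H.P x ≠ H.P w := fun x a e k => by
    have := HC.inj a.1 hw k
    omega
  have pl : ∀ x, H.On g x → x ≤ X.B2 → H.P (X.l w) ≠ H.P x := fun x a e k =>
    (nt x a e).1 (HC.inj hl a.1 k).symm
  have pb : f (ρ c) ∈ H.S → ∀ x, H.On g x → x ≤ X.B2 → v (α (ρ c)) ≠ H.P x := fun m x a e k => by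
    have q := (X.out w h).1
    rw [← c4 _ q (X.out w h).2, fρ] at q
    have := HC.bd_pos (fun i => q (i.1 m)) hw a.1 ((vρ c).trans c1) k
    unfold HC.Nb at this
    omega
  have v1 : v (ρ c) = H.P w := (vρ c).trans c1
  have v3 : v (ρ (ρ (ρ c))) = H.P w := by rw [vρ, vρ, v1]
  rcases c3 with ⟨x1, x2, x3⟩ | ⟨x1, x2, x3⟩
  · have s : f (ρ c) ∈ H.S := x1 ▸ (X.lft w h).1
    have bt : Btw (ρ (ρ (ρ c))) (ρ c) c := by
      have := (btw_self (ρρne (ρ c))).next (by rw [H.h4]; exact (ρne c).symm)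
      rwa [H.h4] at this
    exact (noose (a1 := ρ (ρ (ρ c))) (b1 := ρ c) (e' := ρ c) (v3.trans v1.symm)
      (va2.trans vb2.symm) (va3.trans vb3.symm) (x1.trans fa2.symm) (fb2.trans fa3.symm)
      (fb3.trans x2.symm) (by rw [va2, v3]; exact pw b k1 m2)
      (Or.inl (by rw [va3, v3]; exact pw b' k2 m4)) (Or.inl va3.symm) (c1.trans v3.symm)
      (v1.trans v3.symm) (by rw [x3, va2]; exact pl b k1 m2) (by rw [x3]; exact pl b' k2 m4)
      (by rw [va2]; exact pb s b k1 m2) (pb s b' k2 m4) bt).ne rfl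
  · have s : f (ρ c) ∈ H.S := x1 ▸ (X.rgt w h).1
    exact (noose (a1 := ρ c) (b1 := ρ (ρ (ρ c))) (e' := ρ (ρ (ρ c))) (v1.trans v3.symm)
      (va2.trans vb2.symm) (va3.trans vb3.symm) (x2.trans fa2.symm) (fb2.trans fa3.symm)
      (fb3.trans x1.symm) (by rw [va2, v1]; exact pw b k1 m2)
      (Or.inl (by rw [va3, v1]; exact pw b' k2 m4)) (Or.inl va3.symm) rfl
      (v3.trans v1.symm) (by rw [va2]; exact pb s b k1 m2) (pb s b' k2 m4)
      (by rw [x3, va2]; exact pl b k1 m2) (by rw [x3]; exact pl b' k2 m4)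
      (btw_self (ρρne (ρ c)).symm)).ne rfl

end Sec

end PM

end Pool.Agent.MP_42ec7b_co

end MrgPart1

-- ======== part 2: formerly Pool.Agent.MP_42ec7b_co.A.HE
section MrgPart2

/-!
Walks along the two intervals.
-/

set_option autoImplicit false

open Finset

namespace Pool.Agent.MP_42ec7b_co

open Classical

namespace PM

variable {D : Type} [PM D]

namespace Sec

variable {H : HC D} {X : Sec H} {K' : Finset ℕ} {i i' j j' : ℕ}

/-- Along the lower interval, through the apexes. -/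
theorem e1 (hK : K' ⊆ X.K) (h : j' ≤ j) (hj : j ≤ X.B2) (k : ∀ w ∈ K', j' ≤ X.r w ∧ X.l w ≤ j) :
    H.Seg j' j (fun z => (j' ≤ z ∧ z ≤ j ∧ ∀ w ∈ K', ¬(X.r w < z ∧ z < X.l w)) ∨ z ∈ K')
      (fun _ => False) fun s => ∃ w ∈ K', s = X.t w := by
  have := X.o2
  have := X.o3
  have := X.o4
  induction K' using Finset.induction_on_max generalizing j' with
  | empty =>
    exact (HC.Seg.arc h (by omega)).mono (fun z a => Or.inl ⟨a.1, a.2, by simp⟩) (by simp) (by simp)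
  | insert w s m ih =>
    have hw := hK (mem_insert_self w s)
    have hs : s ⊆ X.K := (subset_insert w s).trans hK
    have p := X.pos w hw
    have t := X.tri w hw
    have kw := k w (mem_insert_self w s)
    have o : ∀ u ∈ s, X.l w ≤ X.r u ∧ X.T1 ≤ u ∧ u < w := fun u hu =>
      ⟨ord (hs hu) hw (m u hu), (X.pos u (hs hu)).2.2.2.1, m u hu⟩
    have a := ih hs kw.2 fun u hu => ⟨(o u hu).1, (k u (mem_insert_of_mem hu)).2⟩
    have b := (HC.Seg.arc kw.1 (by omega)).cat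
      (HC.Seg.ear t.2.1 t.2.2.2.2 t.2.2.1 t.2.2.2.1 (by omega) (by omega) (by omega))
      (fun z _ _ => by omega)
    refine (b.cat a fun z h1 h2 => ?_).mono (fun z h1 => ?_) (by simp) fun f hf => ?_
    · rcases h2 with h2 | h2
      · omega
      · have := o z h2
        omega
    · rcases h1 with (h1 | h1 | h1 | h1) | h1 | h1
      · refine Or.inl ⟨h1.1, by omega, fun u hu => ?_⟩
        rcases mem_insert.1 hu with rfl | hu
        · omega
        · have := o u hu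
          omega
      · refine Or.inl ⟨by omega, by omega, fun u hu => ?_⟩
        rcases mem_insert.1 hu with rfl | hu
        · omega
        · have := o u hu
          omega
      · exact Or.inr (h1 ▸ mem_insert_self w s)
      · refine Or.inl ⟨by omega, by omega, fun u hu => ?_⟩
        rcases mem_insert.1 hu with rfl | hu
        · omega
        · have := o u hu
          omega
      · refine Or.inl ⟨by omega, h1.2.1, fun u hu => ?_⟩
        rcases mem_insert.1 hu with rfl | hu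
        · omega
        · exact h1.2.2 u hu
      · exact Or.inr (mem_insert_of_mem h1)
    · obtain ⟨u, hu, rfl⟩ := hf
      rcases mem_insert.1 hu with rfl | hu
      · exact Or.inl (Or.inr rfl)
      · exact Or.inr ⟨u, hu, rfl⟩

/-- One detour around a left face. -/
lemma he_tail {w0 w : ℕ} (h0 : w0 ∈ X.K) (h : w ∈ X.K) (k : w0 < w) (h1 : w ≤ i')
    (h2 : i' ≤ X.T2) : H.Seg w0 i' (fun y => (w0 ≤ y ∧ y ≤ i') ∨ (X.r w ≤ y ∧ y ≤ X.r w0 ∧
      (H.On (X.gm w) y ∨ H.On (X.t w) y))) (fun _ => False) (· = X.t w) := by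
  have := X.o0
  have := X.o2
  have := X.o4
  have p := X.pos w h
  have p0 := X.pos w0 h0
  have t := X.tri w h
  have g := X.lft w h
  obtain ⟨z, z', a1, a2, a3, a4, a5, a6, a7⟩ := zed h0 h k
  have lt : z' ≠ w := by
    rintro rfl
    by_cases e : z = X.l z'
    · obtain ⟨a, b, c, n1, n2, b1, b2, b3⟩ := HC.exists_three (H := H) (X.gm z')
      have := a7 a b1
      have := a7 b b2
      have := a7 c b3
      omega
    · have := HC.ch3 a6 (ed_l h) (ed_r h) e (by omega) (by omega)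
      unfold HC.Nb at this
      omega
  have s1 := (HC.Seg.arc a3 (by omega)).cat (HC.Seg.edge a6) fun y _ _ => by omega
  have s2 := s1.cat (HC.Seg.face g.2.2.2 a5 a1).symm fun y _ _ => by omega
  have s3 := s2.cat (HC.Seg.ear t.2.1 t.2.2.2.1 t.2.2.2.2 t.2.2.1 (by omega) (by omega) (by omega))
    fun y _ _ => by omega
  have s4 := s3.cat (HC.Seg.arc h1 (by omega)) fun y _ _ => by omega
  refine s4.mono (fun y hy => ?_) (by simp) fun f hf => Or.inl (Or.inr hf)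
  rcases hy with (((hy | hy | hy) | hy) | hy | hy | hy) | hy
  · omega
  · omega
  · exact Or.inr ⟨by omega, by omega, Or.inl (hy ▸ a5)⟩
  · exact Or.inr ⟨by omega, by omega, Or.inl hy.2.2⟩
  · exact Or.inr ⟨by omega, by omega, Or.inl (hy ▸ g.2.2.2)⟩
  · exact Or.inr ⟨by omega, by omega, Or.inr (hy ▸ t.2.2.2.2)⟩
  · omega
  · omega

/-- Along the upper interval, with detours around the left faces. -/
theorem e2 (hK : K' ⊆ X.K) (hi : X.T1 ≤ i) (h : i ≤ i') (hi' : i' ≤ X.T2)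
    (k : ∀ w ∈ K', i ≤ w ∧ w ≤ i') : ∃ K2 ⊆ K', #K' ≤ 2 * #K2 + 1 ∧
    H.Seg i i' (fun z => (i ≤ z ∧ z ≤ i') ∨ ∃ w ∈ K', ∃ w0 ∈ K', w0 < w ∧ X.r w ≤ z ∧ z ≤ X.r w0 ∧
      (H.On (X.gm w) z ∨ H.On (X.t w) z)) (fun _ => False) fun s => ∃ w ∈ K2, s = X.t w := by
  have := X.o2
  have := X.o4
  induction hn : #K' using Nat.strong_induction_on generalizing K' i' with
  | _ n ih =>
    by_cases c : n ≤ 1
    · exact ⟨∅, empty_subset _, by omega,
        (HC.Seg.arc h (by omega)).mono (fun z a => Or.inl a) (by simp) (by simp)⟩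
    obtain ⟨w, hw, mw⟩ := K'.exists_max_image id (card_pos.1 (by omega))
    have c1 := card_erase_of_mem hw
    obtain ⟨w0, hw0, mw0⟩ := (K'.erase w).exists_max_image id (card_pos.1 (by omega))
    have c2 := card_erase_of_mem hw0
    obtain ⟨ne, hw0⟩ := mem_erase.1 hw0
    have lt : w0 < w := lt_of_le_of_ne (mw w0 hw0) ne
    have sb : (K'.erase w).erase w0 ⊆ K' := (erase_subset _ _).trans (erase_subset _ _)
    have o : ∀ u ∈ (K'.erase w).erase w0, u < w0 := fun u hu =>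
      lt_of_le_of_ne (mw0 u (mem_of_mem_erase hu)) (ne_of_mem_erase hu)
    have p0 := X.pos w0 (hK hw0)
    obtain ⟨K2, a1, a2, a3⟩ := ih _ (by omega) (sb.trans hK) (k w0 hw0).1 p0.2.2.2.2
      (fun u hu => ⟨(k u (sb hu)).1, (o u hu).le⟩) rfl
    have nw : w ∉ K2 := fun a => by
      have := o w (a1 a)
      omega
    have kw := k w hw
    have k0 := k w0 hw0
    refine ⟨insert w K2, insert_subset hw (a1.trans sb), by rw [card_insert_of_notMem nw]; omega,
      (a3.cat (he_tail (hK hw0) (hK hw) lt kw.2 hi') fun z h1 h2 => ?_).mono (fun z h1 => ?_)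
        (by simp) fun f hf => ?_⟩
    · rcases h1 with h1 | ⟨u, hu, u0, hu0, -, b1, b2, -⟩
      · omega
      · have := ord (hK (sb hu)) (hK hw0) (o u hu)
        have := X.pos u0 (hK (sb hu0))
        omega
    · rcases h1 with (h1 | ⟨u, hu, u0, hu0, b⟩) | h1 | h1
      · omega
      · exact Or.inr ⟨u, sb hu, u0, sb hu0, b⟩
      · omega
      · exact Or.inr ⟨w, hw, w0, hw0, lt, h1⟩
    · obtain ⟨u, hu, rfl⟩ := hf
      rcases mem_insert.1 hu with rfl | hu
      · exact Or.inr rfl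
      · exact Or.inl ⟨u, hu, rfl⟩

end Sec

end PM

end Pool.Agent.MP_42ec7b_co

end MrgPart2

-- ======== part 3: formerly Pool.Agent.MP_42ec7b_co.A.HFin
section MrgPart3

/-!
The path through the exposed positions; closing a path.
-/

set_option autoImplicit false

open Finset

namespace Pool.Agent.MP_42ec7b_co

open Classical

namespace PM

variable {D : Type} [PM D]

namespace HC

variable {H : HC D} {a b i j m : ℕ} {Q X : ℕ → Prop} {Y : F D → Prop}

lemma hfin_back {z : ℕ} (h0 : 0 < a) (h1 : a < z) (h2 : z ≤ b) (hb : b + 1 < H.n)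
    (hz : H.Expo a b z) : ∃ m, a ≤ m ∧ m < z ∧ H.Expo a b m ∧ H.Ed m z := by
  obtain ⟨p, p1, p2, p3⟩ := hz
  obtain ⟨z, rfl⟩ : ∃ y, z = y + 1 := ⟨z - 1, by omega⟩
  obtain ⟨-, -, o1, o2⟩ := on_dd (H := H) (i := z) (by omega)
  have o3 := (H.fr.bd z (by omega)).2
  by_cases k : H.Wide a b (f (α (H.dd z)))
  · exact ⟨z, by omega, by omega, ⟨_, o3, o1, k⟩, cedge (by omega)⟩
  have nw : ∀ {g y}, ¬H.Wide a b g → H.On g y → a ≤ y ∧ y ≤ b := fun k1 k2 => by
    by_contra q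
    exact k1 ⟨_, k2, by omega⟩
  have ex : ∃ m, m < z + 1 ∧ ∃ g, g ∉ H.S ∧ ¬H.Wide a b g ∧ H.On g (z + 1) ∧ H.On g m :=
    ⟨z, by omega, _, o3, k, o2, o1⟩
  obtain ⟨m1, g, g1, g2, g3, g4⟩ := Nat.find_spec ex
  have hm := fun n => Nat.find_min ex (m := n)
  generalize Nat.find ex = m at m1 g4 hm
  have m2 := nw g2 g4
  have nar : ∀ {g y}, g ∉ H.S → ¬H.Wide a b g → H.On g (z + 1) → H.On g m → H.On g y →
      m ≤ y ∧ y ≤ z + 1 := fun {g y} k1 k2 k3 k4 k5 =>
    ⟨not_lt.1 fun q => hm y q ⟨by omega, g, k1, k2, k3, k5⟩, not_lt.1 fun q =>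
      between (fun e : g = p => k2 (e ▸ p3)) (iff_of_false k1 p1) p3 k4 k5 p2 m2.1 m1 q (nw k2 k5).2⟩
  obtain ⟨d, d1, d2, d3⟩ := ext g4 g3 m1 fun x hx => nar g1 g2 g3 g4 hx
  have hc : f d ∈ H.S ↔ f (α d) ∈ H.S := by
    by_contra q
    have q1 := bd_pos q g4.1 g3.1 d2 d3
    obtain ⟨x, y, w, x1, x2, x3, x4, x5⟩ := exists_three (H := H) g
    have := nar g1 g2 g3 g4 x3
    have := nar g1 g2 g3 g4 x5
    unfold Nb at q1
    omega
  have fin : ∀ g', g' ∉ H.S → H.On g' m → H.On g' (z + 1) → H.Wide m (z + 1) g' →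
      H.Expo a b m := fun g' k1 k2 k3 ⟨y, k4, k5⟩ => ⟨g', k1, k2, by
    by_contra q
    have := nar k1 q k3 k2 k4
    omega⟩
  have n1 : f d ∉ H.S := d1.elim (fun e => e ▸ g1) fun e q => g1 (e ▸ hc.1 q)
  refine ⟨m, m2.1, m1, ?_, g4.1, g3.1, d, d2, d3⟩
  rcases side hc d2 d3 m1 g3.1 with q | q
  · exact fin _ n1 (on_v g4.1 d2) (by simpa using on_v' g3.1 d3) q
  · exact fin _ (fun e => n1 (hc.2 e)) (on_v' g4.1 d2) (on_v g3.1 d3) q

theorem Seg.exp (h0 : 0 < a) (h : a ≤ b) (hb : b + 1 < H.n) :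
    H.Seg a b (fun z => a ≤ z ∧ z ≤ b ∧ H.Expo a b z) (fun _ => False) fun _ => False := by
  have key : ∀ z, a ≤ z → z ≤ b → H.Expo a b z → H.Seg a z
      (fun y => a ≤ y ∧ y ≤ z ∧ H.Expo a b y) (fun _ => False) fun _ => False := by
    intro z
    induction z using Nat.strong_induction_on with
    | _ z ih =>
      intro k1 k2 k3
      rcases k1.eq_or_lt with rfl | k1
      · exact (Seg.refl (by omega)).mono (fun y e => ⟨e.ge, e.le, e ▸ k3⟩) (fun _ => id)
          fun _ => id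
      · obtain ⟨m, m1, m2, m3, m4⟩ := hfin_back h0 k1 k2 hb k3
        refine ((ih m m2 m1 (by omega) m3).cat (Seg.edge m4) fun y q1 q2 => by omega).mono
          (fun y q => ?_) (fun _ => Or.inl) fun _ => Or.inl
        rcases q with q | rfl | rfl
        exacts [⟨q.1, by omega, q.2.2⟩, ⟨m1, m2.le, m3⟩, ⟨k1.le, le_rfl, k3⟩]
  obtain ⟨-, -, o1, o2⟩ := on_dd hb
  exact key b h le_rfl ⟨_, (H.fr.bd b (by omega)).2, o1, _, o2, Or.inr (by omega)⟩

lemma hfin_ear {B : Finset (F D)} {t : F D} {c c' : D} (hB : Conn B) (ht : t ∈ B) (h3 : sz t = 3)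
    (n : c ≠ c') (h1 : f c = t) (h2 : f c' = t) (k1 : f (α c) ∉ B) (k2 : f (α c') ∉ B)
    (k : ¬B ⊆ {t}) : ex {t} Bᶜ = 2 := by
  have a1 : 1 < ex {t} Bᶜ := one_lt_card_iff.2 ⟨c, c', by simp [h1, k1], by simp [h2, k2], n⟩
  have a2 := wt_split (S := {t}) (T := B)
  have a3 : 0 < ex {t} B := by
    obtain ⟨d, d1, d2, -⟩ := hB.exit (singleton_subset_iff.2 ht) (singleton_nonempty t) k
    exact ex_pos.2 ⟨d, d1, d2⟩
  rw [wt_single] at a2
  omega

theorem Seg.fin (h : H.Seg j i Q X Y) (hQ : ∀ z, Q z → j ≤ z ∧ z ≤ i) (h0 : 0 < j) (h1 : j < i)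
    (h2 : i + 1 < H.n) {X' : Finset ℕ} (h3 : ∀ x ∈ X', X x ∧ j ≤ x ∧ x < i) (h4 : i ≤ j + #X' + m)
    {Y' : Finset (F D)} (h5 : ∀ t ∈ Y', Y t) : H.Out m #Y' := by
  obtain ⟨n, hn⟩ : ∃ n, H.n = n + 1 := ⟨H.n - 1, by omega⟩
  obtain ⟨-, -, -, -, Z, z1, -, z2, z3⟩ := ((Seg.arc (H := H) (Nat.zero_le j) (by omega)).cat h
    fun z q1 q2 => by have := hQ z q2; omega).cat (Seg.arc (H := H) (a := i) (b := n) (by omega)
      (by omega)) fun z q1 q2 => by
    rcases q1 with q1 | q1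
    · omega
    · have := hQ z q1
      omega
  obtain ⟨d, d1, d2, d3⟩ : ∃ d, v d = H.P n ∧ v (α d) = H.P 0 ∧
      (H.dd n = d ∨ H.dd n = α d) := by
    have e := H.fr.ends n (by omega)
    rw [← hn, H.fr.per] at e
    rcases e with e | e
    exacts [⟨_, e.1, e.2, Or.inl rfl⟩, ⟨α (H.dd n), e.2, by rw [αα, e.1], Or.inr (αα _).symm⟩]
  have ne : H.P 0 ≠ H.P n := fun e => by
    have := inj (by omega) (by omega) e
    omega
  have d4 : d ∉ Z := fun q => by
    obtain ⟨c, c1, c2, c3⟩ : ∃ c ∈ Z, v c = H.P 0 ∧ v (α c) = H.P 1 := by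
      have c0 := (z2 0 (Or.inl (Or.inl ⟨le_rfl, h0⟩))).2
      rcases H.fr.ends 0 (by omega) with e | e
      exacts [⟨_, c0, e⟩, ⟨_, z1.sym _ c0, e.2, by rw [αα, e.1]⟩]
    have a1 := z1.deg (H.P 0)
    rw [if_pos rfl, if_neg ne] at a1
    have a2 : 1 < #(Z.filter (v · = H.P 0)) := one_lt_card_iff.2 ⟨c, α d,
      mem_filter.2 ⟨c1, c2⟩, mem_filter.2 ⟨z1.sym _ q, d2⟩, fun e => by
        rw [e, αα, d1] at c3
        have := inj (by omega) (by omega) c3
        omega⟩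
    omega
  obtain ⟨A, hA, a1⟩ := z1.close d1 d2 d4
  have a2 : ∀ x, x < j ∨ x ∈ X' ∨ i ≤ x ∧ x ≤ n → Bd A (H.dd x) ∨ Bd A (α (H.dd x)) := by
    intro x hx
    rcases hx with hx | hx | hx
    · exact (a1 _).2 (Or.inl (z2 x (Or.inl (Or.inl ⟨Nat.zero_le _, hx⟩))).2)
    · exact (a1 _).2 (Or.inl (z2 x (Or.inl (Or.inr (h3 x hx).1))).2)
    · rcases hx.2.eq_or_lt with rfl | q
      · exact (a1 _).2 (Or.inr d3)
      · exact (a1 _).2 (Or.inl (z2 x (Or.inr ⟨hx.1, q⟩)).2)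
  refine ⟨A, hA, ?_, Y', le_rfl, fun t ht => ?_⟩
  · have b1 : ∀ x ∈ range j ∪ (X' ∪ Ico i (n + 1)), x < H.n ∧
        (x < j ∨ x ∈ X' ∨ i ≤ x ∧ x ≤ n) := fun x hx => by
      simp only [mem_union, mem_range, mem_Ico] at hx
      rcases hx with hx | hx | hx
      · exact ⟨by omega, Or.inl hx⟩
      · exact ⟨by have := h3 x hx; omega, Or.inr (Or.inl hx)⟩
      · exact ⟨by omega, Or.inr (Or.inr (by omega))⟩
    have b2 : #(range j ∪ (X' ∪ Ico i (n + 1))) ≤ ell A := card_le_card_of_injOn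
      (fun x => if Bd A (H.dd x) then H.dd x else α (H.dd x)) (fun x hx => by
        refine mem_coe.2 (mem_filter.2 ⟨mem_univ _, ?_⟩)
        beta_reduce
        split_ifs with q
        exacts [q, (a2 x (b1 x hx).2).resolve_left q]) fun x hx y hy e => by
      have x1 := (b1 x hx).1
      have y1 := (b1 y hy).1
      simp only at e
      split_ifs at e
      · exact H.fr.dinj x x1 y y1 e
      · exact absurd e ((H.fr.bd x x1).ne (H.fr.bd y y1))
      · exact absurd e.symm ((H.fr.bd y y1).ne (H.fr.bd x x1))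
      · exact H.fr.dinj x x1 y y1 (α.injective e)
    rw [card_union_of_disjoint (disjoint_left.2 fun x q1 q2 => by
      simp only [mem_union, mem_range, mem_Ico] at q1 q2
      rcases q2 with q2 | q2
      · have := h3 x q2
        omega
      · omega), card_union_of_disjoint (disjoint_left.2 fun x q1 q2 => by
      have := h3 x q1
      have := mem_Ico.1 q2
      omega), card_range, Nat.card_Ico] at b2
    omega
  · obtain ⟨t1, c, c1, c', c2, c3, c4, c5⟩ := z3 t (Or.inl (Or.inr (h5 t ht)))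
    have big : ¬(A ⊆ {t} ∨ Aᶜ ⊆ {t}) := fun q => by
      have on : ∀ x, x < j ∨ i ≤ x ∧ x < n → H.On t x ∧ H.On t (x + 1) := fun x hx => by
        obtain ⟨o1, o2, o3, o4⟩ := on_dd (H := H) (i := x) (by omega)
        have : f (H.dd x) = t ∨ f (α (H.dd x)) = t := by
          rcases a2 x (by omega) with e | e <;> rcases q with q | q
          · exact Or.inl (mem_singleton.1 (q e.1))
          · exact Or.inr (mem_singleton.1 (q (mem_compl.2 e.2)))
          · exact Or.inr (mem_singleton.1 (q e.1))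
          · exact Or.inl (mem_singleton.1 (q (mem_compl.2 (by simpa using e.2))))
        rcases this with e | e
        exacts [e ▸ ⟨o1, o2⟩, e ▸ ⟨o3, o4⟩]
      have := tri_on t1 (on 0 (by omega)).1 (on (j - 1) (by omega)).2 (on i (by omega)).1
        (by omega) (by omega) (by omega) (on i (by omega)).2
      omega
    have e1 := (a1 c).2 (Or.inl c1)
    have e2 := (a1 c').2 (Or.inl c2)
    simp only [Bd, αα', c4, c5] at e1 e2
    refine ⟨t1, ?_⟩
    by_cases q : t ∈ A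
    · exact Or.inl ⟨q, hfin_ear hA.2.2.1 q t1 c3 c4 c5 (by tauto) (by tauto)
        fun k => big (Or.inl k)⟩
    · have := hfin_ear hA.2.2.2 (mem_compl.2 q) t1 c3 c4 c5 (by rw [mem_compl]; tauto)
        (by rw [mem_compl]; tauto) fun k => big (Or.inr k)
      rw [compl_compl] at this
      exact Or.inr ⟨q, this⟩

end HC

end PM

end Pool.Agent.MP_42ec7b_co

end MrgPart3

-- ======== part 4: formerly Pool.Agent.MP_42ec7b_co.A.HSt
section MrgPart4

/-!
Chains of local changes.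
-/

set_option autoImplicit false

open Finset

namespace Pool.Agent.MP_42ec7b_co

open Classical

namespace PM

variable {D : Type} [PM D]

namespace Sec

variable {H : HC D} {X : Sec H} {K' : Finset ℕ} {i i' j j' a b : ℕ} {Y Y' Y1 Y2 : F D → Prop}
  {Q Q1 Q2 M : ℕ → Prop}

theorem fin (h : H.Seg X.B1 X.T2 Q M Y) (hQ : ∀ z, Q z → X.B1 ≤ z ∧ z ≤ X.T2)
    (hM : ∀ x, X.B2 ≤ x → x < X.T1 → ¬(a ≤ x ∧ x < b) → M x) (hK : K' ⊆ X.K)
    (hY : ∀ w ∈ K', Y (X.t w)) : H.Out (X.loss + (b - a)) #K' := by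
  have o0 := X.o0
  have o1 := X.o1
  have o2 := X.o2
  have o3 := X.o3
  have c : #(K'.image X.t) = #K' :=
    card_image_of_injOn fun w a w' b k => tinj (hK a) (hK b) k
  have s : Ico X.B2 X.T1 ⊆ (Ico X.B2 X.T1).filter (fun x => ¬(a ≤ x ∧ x < b)) ∪ Ico a b := by
    intro x hx
    by_cases k : a ≤ x ∧ x < b
    · exact mem_union_right _ (mem_Ico.2 k)
    · exact mem_union_left _ (mem_filter.2 ⟨hx, k⟩)
  have s1 := (card_le_card s).trans (card_union_le _ _)
  rw [Nat.card_Ico, Nat.card_Ico] at s1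
  rw [← c]
  refine h.fin hQ o0 (by omega) X.o4
    (X' := (Ico X.B2 X.T1).filter fun x => ¬(a ≤ x ∧ x < b)) (fun x hx => ?_) ?_ fun t ht => ?_
  · obtain ⟨k, k'⟩ := mem_filter.1 hx
    rw [mem_Ico] at k
    exact ⟨hM x k.1 k.2 k', by omega, by omega⟩
  · unfold loss
    omega
  · obtain ⟨w, k, rfl⟩ := mem_image.1 ht
    exact hY w k

lemma st0 (X : Sec H) : X.St X.B2 X.T1 fun _ => False := by
  have o2 := X.o2
  have o3 := X.o3
  have o4 := X.o4
  exact ⟨X.o1, le_rfl, le_rfl, o3, HC.Seg.arc (by omega) (by omega)⟩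

lemma St.mono (h : X.St j i Y) (k : ∀ s, Y' s → Y s) : X.St j i Y' :=
  ⟨h.1, h.2.1, h.2.2.1, h.2.2.2.1, h.2.2.2.2.mono (fun _ => id) (fun _ => id) k⟩

lemma St.par (h : X.St j i Y) (h1 : H.Seg j j' Q1 (fun _ => False) Y1)
    (h2 : H.Seg i i' Q2 (fun _ => False) Y2) (k0 : X.B1 ≤ j') (k1 : j' ≤ j) (k2 : i ≤ i')
    (k3 : i' ≤ X.T2) (m0 : ∀ z, Q1 z → ¬Q2 z)
    (m1 : ∀ z, Q1 z → z = j ∨ (j' ≤ z ∧ z < j) ∨ (i < z ∧ z ≤ i'))
    (m2 : ∀ z, Q2 z → z = i ∨ (j' ≤ z ∧ z < j) ∨ (i < z ∧ z ≤ i')) :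
    X.St j' i' fun s => Y s ∨ Y1 s ∨ Y2 s := by
  obtain ⟨a1, a2, a3, a4, h⟩ := h
  have o2 := X.o2
  refine ⟨k0, by omega, by omega, k3, ((h1.symm.cat h fun z p q => ?_).cat h2
    fun z p q => ?_).mono (fun z p => ?_) (fun z p => Or.inl (Or.inr p)) fun s p => by tauto⟩
  · have := m1 z p
    omega
  · have := m2 z q
    rcases p with p | p
    · exact (m0 z p q).elim
    · omega
  · rcases p with (p | p) | p
    · have := m1 z p
      omega
    · omega
    · have := m2 z p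
      omega

lemma St.swp (h : X.St j i Y) (h1 : H.Seg j i' Q1 (fun _ => False) Y1)
    (h2 : H.Seg i j' Q2 (fun _ => False) Y2) (k0 : X.B1 ≤ j') (k1 : j' ≤ j) (k2 : i ≤ i')
    (k3 : i' ≤ X.T2) (m0 : ∀ z, Q1 z → ¬Q2 z)
    (m1 : ∀ z, Q1 z → z = j ∨ (j' ≤ z ∧ z < j) ∨ (i < z ∧ z ≤ i'))
    (m2 : ∀ z, Q2 z → z = i ∨ (j' ≤ z ∧ z < j) ∨ (i < z ∧ z ≤ i')) :
    X.St j' i' fun s => Y s ∨ Y1 s ∨ Y2 s := by
  obtain ⟨a1, a2, a3, a4, h⟩ := h
  have o2 := X.o2
  refine ⟨k0, by omega, by omega, k3, ((h1.symm.cat h fun z p q => ?_).cat h2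
    fun z p q => ?_).symm.mono (fun z p => ?_) (fun z p => Or.inl (Or.inr p)) fun s p => by tauto⟩
  · have := m1 z p
    omega
  · have := m2 z q
    rcases p with p | p
    · exact (m0 z p q).elim
    · omega
  · rcases p with (p | p) | p
    · have := m1 z p
      omega
    · omega
    · have := m2 z p
      omega

lemma St.move (h : X.St j i Y) (k0 : X.B1 ≤ j') (k1 : j' ≤ j) (k2 : i ≤ i') (k3 : i' ≤ X.T2) :
    X.St j' i' Y := by
  have o2 := X.o2
  have o3 := X.o3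
  have o4 := X.o4
  have a2 := h.2.1
  have a3 := h.2.2.1
  exact (h.par
    ((HC.Seg.arc k1 (by omega)).symm.mono (fun _ => id) (fun _ => False.elim) fun _ => id)
    ((HC.Seg.arc k2 (by omega)).mono (fun _ => id) (fun _ => False.elim) fun _ => id)
    k0 k1 k2 k3 (fun z p q => by omega) (fun z p => by omega) fun z p => by omega).mono
    fun s => Or.inl

lemma hst_chain (j j' i i' : ℕ → ℕ) (L : ℕ → Finset ℕ) (G : Finset ℕ) :
    (∀ g ∈ G, X.B1 ≤ j g ∧ j g ≤ X.B2 ∧ X.T1 ≤ i g ∧ i g ≤ X.T2) →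
    (∀ g ∈ G, ∀ Y, X.St (j g) (i g) Y →
      X.St (j' g) (i' g) fun s => Y s ∨ ∃ w ∈ L g, s = X.t w) →
    (∀ g ∈ G, ∀ g' ∈ G, g < g' → j g' ≤ j' g ∧ i' g ≤ i g') →
    ∀ j0 i0, X.B1 ≤ j0 → j0 ≤ X.B2 → X.T1 ≤ i0 → i0 ≤ X.T2 →
      (∀ g ∈ G, j0 ≤ j' g ∧ i' g ≤ i0) →
      X.St j0 i0 fun s => ∃ w ∈ G.biUnion L, s = X.t w := by
  induction G using Finset.induction_on_max with
  | empty =>
    intro _ _ _ j0 i0 a1 a2 a3 a4 _
    exact ((st0 X).move a1 a2 a3 a4).mono fun s ⟨w, k, _⟩ => by simp at k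
  | insert g G hg ih =>
    intro hb step ho j0 i0 a1 a2 a3 a4 k
    have m := mem_insert_self g G
    obtain ⟨b1, b2, b3, b4⟩ := hb g m
    have r := step g m _ (ih (fun x p => hb x (mem_insert_of_mem p))
      (fun x p => step x (mem_insert_of_mem p))
      (fun x p y q => ho x (mem_insert_of_mem p) y (mem_insert_of_mem q)) _ _ b1 b2 b3 b4
      fun x p => ho x (mem_insert_of_mem p) g m (hg x p))
    refine (r.move a1 (k g m).1 (k g m).2 a4).mono fun s ⟨w, p, e⟩ => ?_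
    rw [biUnion_insert, mem_union] at p
    exact p.elim (fun p => Or.inr ⟨w, p, e⟩) fun p => Or.inl ⟨w, p, e⟩

/-- A chain of local changes. -/
theorem chain (G : Finset ℕ) (j j' i i' : ℕ → ℕ) (L : ℕ → Finset ℕ) (hL : ∀ g ∈ G, L g ⊆ X.K)
    (hb : ∀ g ∈ G, X.B1 ≤ j g ∧ j g ≤ X.B2 ∧ X.T1 ≤ i g ∧ i g ≤ X.T2)
    (step : ∀ g ∈ G, ∀ Y, X.St (j g) (i g) Y →
      X.St (j' g) (i' g) fun s => Y s ∨ ∃ w ∈ L g, s = X.t w)
    (ho : ∀ g ∈ G, ∀ g' ∈ G, g < g' → j g' ≤ j' g ∧ i' g ≤ i g') :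
    H.Out X.loss #(G.biUnion L) := by
  have r := hst_chain j j' i i' L G hb step ho X.B1 X.T2 le_rfl X.o1 X.o3 le_rfl fun g m => by
    obtain ⟨b1, b2, b3, b4⟩ := hb g m
    have := step g m _ ((st0 X).move b1 b2 b3 b4)
    exact ⟨this.1, this.2.2.2.1⟩
  exact fin (a := 0) (b := 0) r.2.2.2.2 (fun _ => id) (fun x p q _ => ⟨p, q⟩)
    (biUnion_subset.2 hL) fun w k => ⟨w, k, rfl⟩

end Sec

end PM

end Pool.Agent.MP_42ec7b_co

end MrgPart4

-- ======== part 5: formerly Pool.Agent.MP_42ec7b_co.A.HC1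
section MrgPart5

/-!
Covered apexes, covered bases and double bridges.
-/

set_option autoImplicit false

open Finset

namespace Pool.Agent.MP_42ec7b_co

open Classical

namespace PM

variable {D : Type} [PM D]

namespace Sec

variable {H : HC D} {X : Sec H} {K' : Finset ℕ} {a b x1 x2 y1 y2 E : ℕ}

theorem c1 (hK : K' ⊆ X.K) (h : ∀ w ∈ K', ¬H.Wide X.T1 X.T2 (X.q w)) : H.Out X.loss #K' := by
  have o0 := X.o0
  have o1 := X.o1
  have o2 := X.o2
  have o3 := X.o3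
  have o4 := X.o4
  have s1 := e1 hK X.o1 le_rfl fun w hw => ⟨(X.pos w (hK hw)).1, (X.pos w (hK hw)).2.2.1⟩
  have s2 := (HC.Seg.arc (H := H) (a := X.B2) (b := X.T1) (by omega) (by omega)).cat
    (HC.Seg.exp (by omega) o3 o4) fun z a b => by omega
  have := fin (a := 0) (b := 0) (s1.cat s2 fun z a b => by
    rcases a with a | a
    · rcases b with b | b <;> omega
    · have p := X.pos z (hK a)
      rcases b with b | ⟨-, -, g, g1, g2, g3⟩
      · exact absurd ⟨z - 1, (qnb (hK a)).1, Or.inl (by omega)⟩ (h z a)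
      · exact absurd (quniq (hK a) g1 g2 ▸ g3) (h z a))
    (fun z a => by
      rcases a with (a | a) | a | a
      · omega
      · have p := X.pos z (hK a)
        omega
      · omega
      · omega)
    (fun x a b _ => Or.inr (Or.inl ⟨a, b⟩)) hK fun w hw => Or.inl ⟨w, hw, rfl⟩
  exact this

theorem c2 (hK : K' ⊆ X.K) (ha : a ∈ X.K) (hb : b ∈ X.K) (h1 : a < b) (h2 : b ≤ x1) (h3 : x1 < x2)
    (h4 : x2 ≤ X.T2) (e1 : H.Ed x1 y1) (e2 : H.Ed x2 y2) (k1 : X.B2 < y2) (k2 : y2 < y1)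
    (k3 : y1 < X.T1) (h : ∀ w ∈ K', x1 < w ∧ w < x2) : H.Out (X.loss + (y1 - y2)) #K' := by
  have o4 := X.o4
  have pa := X.pos a ha
  have pb := X.pos b hb
  have ab := ord ha hb h1
  have s1 := (Sec.e1 hK (j' := X.B1) (j := X.l b) (by omega) (by omega) fun w hw => by
    have p := X.pos w (hK hw)
    have := ord hb (hK hw) (by have := h w hw; omega)
    omega).mono (Q' := fun z => (X.B1 ≤ z ∧ z ≤ X.l b) ∨ (x1 < z ∧ z < x2))
      (fun z k => k.imp (fun k => ⟨k.1, k.2.1⟩) (h z)) (fun _ => id) fun _ => id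
  have s2 := (s1.cat (HC.Seg.edge (ed_l hb).symm) fun z a b => by omega).cat
    (HC.Seg.arc h2 (by omega)) fun z a b => by omega
  have s3 := (s2.cat (HC.Seg.edge e1) fun z a b => by omega).cat
    (HC.Seg.arc (b := a) (by omega) (by omega)) fun z a b => by omega
  have s4 := (s3.cat (HC.Seg.edge (ed_l ha)) fun z a b => by omega).cat
    (HC.Seg.arc (b := y2) (by omega) (by omega)) fun z a b => by omega
  have s5 := (s4.cat (HC.Seg.edge e2.symm) fun z a b => by omega).cat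
    (HC.Seg.arc h4 (by omega)) fun z a b => by omega
  exact fin s5 (fun z a => by omega) (fun x a b c => by simp only [or_false, false_or]; omega) hK
    fun w hw => by
      simp only [or_false]
      exact ⟨w, hw, rfl⟩

theorem c6 (hK : K' ⊆ X.K) (h : ∀ w ∈ K', ∀ z, X.B1 ≤ z → z ≤ X.B2 →
    H.On (X.gm w) z ∨ H.On (X.t w) z → ¬H.Expo X.B1 X.B2 z) (hE : 2 * E + 1 ≤ #K') :
    H.Out X.loss E := by
  have o0 := X.o0
  have o1 := X.o1
  have o2 := X.o2
  have o3 := X.o3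
  have o4 := X.o4
  obtain ⟨K2, m1, m2, s3⟩ := e2 hK le_rfl o3 le_rfl fun w hw => (X.pos w (hK hw)).2.2.2
  have s3 := s3.mono (Q' := fun z => (X.T1 ≤ z ∧ z ≤ X.T2) ∨
      (X.B1 ≤ z ∧ z < X.B2 ∧ ¬H.Expo X.B1 X.B2 z)) (fun z k => k.imp id (by
    rintro ⟨w, w1, w0, w2, -, w3, w4, w5⟩
    have p := X.pos w (hK w1)
    have p0 := X.pos w0 (hK w2)
    exact ⟨by omega, by omega, h w w1 z (by omega) (by omega) w5⟩)) (fun _ => id) fun _ => id
  have s2 := (HC.Seg.arc (H := H) (a := X.B2) (b := X.T1) (by omega) (by omega)).cat s3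
    fun z a b => by rcases b with b | b <;> omega
  have := fin (a := 0) (b := 0) ((HC.Seg.exp o0 o1 (by omega)).cat s2 fun z a b => by
    rcases b with b | b | b
    · omega
    · omega
    · exact absurd a.2.2 b.2.2)
    (fun z a => by rcases a with a | a | a | a <;> omega)
    (fun x a b _ => Or.inr (Or.inl ⟨a, b⟩)) (m1.trans hK) fun w hw => Or.inr (Or.inr ⟨w, hw, rfl⟩)
  exact this.mono (by omega) (by omega)

theorem c7 (hK : K' ⊆ X.K) (ha : a ∈ X.K) (hb : b ∈ X.K) (h1 : a < b) (h2 : y1 ≤ X.l b)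
    (h3 : y2 < y1) (h4 : X.B1 ≤ y2) (e1 : H.Ed y1 x1) (e2 : H.Ed y2 x2) (k1 : X.B2 < x1)
    (k2 : x1 < x2) (k3 : x2 < X.T1) (h : ∀ w ∈ K', b < w ∧ y2 < X.r w ∧ X.l w < y1)
    (hE : 2 * E + 1 ≤ #K') : H.Out (X.loss + (x2 - x1)) E := by
  have o4 := X.o4
  have pa := X.pos a ha
  have pb := X.pos b hb
  have ab := ord ha hb h1
  obtain ⟨K2, m1, m2, s0⟩ := Sec.e2 hK (i := b) (by omega) (by omega) le_rfl fun w hw =>
    ⟨(h w hw).1.le, (X.pos w (hK hw)).2.2.2.2⟩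
  have s0 := s0.mono (Q' := fun z => (b ≤ z ∧ z ≤ X.T2) ∨ (y2 < z ∧ z < y1))
    (fun z k => k.imp id (by
      rintro ⟨w, w1, w0, w2, -, w3, w4, -⟩
      have p := h w w1
      have p0 := h w0 w2
      have p1 := X.pos w0 (hK w2)
      omega)) (fun _ => id) fun _ => id
  have s1 := ((HC.Seg.arc h4 (by omega)).cat (HC.Seg.edge e2) fun z a b => by omega).cat
    (HC.Seg.arc (b := a) (by omega) (by omega)) fun z a b => by omega
  have s2 := (s1.cat (HC.Seg.edge (ed_l ha)) fun z a b => by omega).cat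
    (HC.Seg.arc (b := x1) (by omega) (by omega)) fun z a b => by omega
  have s3 := (s2.cat (HC.Seg.edge e1.symm) fun z a b => by omega).cat
    (HC.Seg.arc h2 (by omega)) fun z a b => by omega
  have s4 := (s3.cat (HC.Seg.edge (ed_l hb).symm) fun z a b => by omega).cat s0
    fun z a b => by omega
  exact (fin (a := x1) (b := x2) s4 (fun z a => by omega)
    (fun x a b c => by simp only [or_false]; omega) (m1.trans hK) fun w hw =>
      Or.inr ⟨w, hw, rfl⟩).mono le_rfl (by omega)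

end Sec

end PM

end Pool.Agent.MP_42ec7b_co

end MrgPart5

-- ======== part 6: formerly Pool.Agent.MP_42ec7b_co.A.HTub0
section MrgPart6

/-!
The order of the outer faces at the apexes.
-/

set_option autoImplicit false

open Finset

namespace Pool.Agent.MP_42ec7b_co

open Classical

namespace PM

variable {D : Type} [PM D]

namespace Sec

variable {H : HC D} {X : Sec H} {w w0 w' z x y x' y' x2 y2 x2' y2' : ℕ} {g : F D}

lemma Tube.ed (h : X.Tube w x y x' y') : H.Ed x y ∧ H.Ed x' y' := by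
  obtain ⟨a, b, c, d, e1, e2, e3, e4, e5, e6, e7, e⟩ := h
  have := X.o2
  exact ⟨(HC.cons_ed b a (by omega) fun z k => by have := e z k; omega).symm,
    (HC.ext_ed d c (by omega) fun z k => by have := e z k; omega).symm⟩

lemma Tube.ne (hw : w ∈ X.K) (h : X.Tube w x y x' y') :
    y ≠ X.l w ∧ y ≠ X.r w ∧ y' ≠ X.l w ∧ y' ≠ X.r w := by
  obtain ⟨-, b, -, d, -, -, -, -, e5, e6, e7, -⟩ := h
  have k := (shq hw b (e5.trans e6) e7).2.1
  have k' := (shq hw d e5 (e6.trans e7)).2.1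
  obtain ⟨-, -, -, l, r⟩ := X.tri w hw
  exact ⟨fun e => k (e ▸ l), fun e => k (e ▸ r), fun e => k' (e ▸ l), fun e => k' (e ▸ r)⟩

lemma Tube.same (h : X.Tube w x y x' y') (h' : X.Tube w' x2 y2 x2' y2') (k : X.q w = X.q w') :
    x2 = x ∧ y2 = y ∧ x2' = x' ∧ y2' = y' := by
  obtain ⟨a, b, c, d, e1, e2, e3, e4, e5, e6, e7, e⟩ := h
  obtain ⟨a', b', c', d', f1, f2, f3, f4, f5, f6, f7, e'⟩ := h'
  rw [← k] at a' b' c' d' e'
  have := X.o2
  have := e _ a'
  have := e _ b'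
  have := e _ c'
  have := e _ d'
  have := e' _ a
  have := e' _ b
  have := e' _ c
  have := e' _ d
  omega

lemma tub0_qord (hw : w ∈ X.K) (hw' : w' ∈ X.K) (k : w < w') (n : X.q w ≠ X.q w')
    (h : H.Wide X.T1 X.T2 (X.q w)) (h' : H.Wide X.T1 X.T2 (X.q w')) :
    (∀ x, H.On (X.q w) x → x ≤ X.T2 → x < w') ∧ ∀ x, H.On (X.q w') x → X.T1 ≤ x → w < x := by
  obtain ⟨s, o⟩ := X.out w hw
  obtain ⟨s', o'⟩ := X.out w' hw'
  have p := X.pos w hw
  have p' := X.pos w' hw'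
  refine ⟨fun x a b => ?_, fun x a b => ?_⟩
  · rcases lt_trichotomy x w' with c | rfl | c
    · exact c
    · exact (n (quniq hw' s a)).elim
    · exact (HC.between n (iff_of_false s s') h' o a o' p.2.2.2.1 k c b).elim
  · rcases lt_trichotomy w x with c | rfl | c
    · exact c
    · exact (n (quniq hw s' a).symm).elim
    · exact (HC.between n.symm (iff_of_false s' s) h a o' o b c k p'.2.2.2.2).elim

lemma Tube.ord (hw : w ∈ X.K) (hw' : w' ∈ X.K) (h : X.Tube w x y x' y')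
    (h' : X.Tube w' x2 y2 x2' y2') (k : w < w') (n : X.q w ≠ X.q w') : x' ≤ x2 ∧ y2 ≤ y' := by
  obtain ⟨-, b, c, d, e1, e2, e3, e4, e5, e6, e7, -⟩ := h
  obtain ⟨a', b', -, -, f1, f2, f3, f4, f5, f6, f7, -⟩ := h'
  have := X.o2
  obtain ⟨s, o⟩ := X.out w hw
  obtain ⟨s', o'⟩ := X.out w' hw'
  obtain ⟨q1, q2⟩ := tub0_qord hw hw' k n ⟨y, b, by omega⟩ ⟨y2, b', by omega⟩
  exact ⟨not_lt.1 fun m => HC.nc n (iff_of_false s s') o a' c o' (q2 _ a' f1) m (q1 _ c e4),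
    not_lt.1 fun m => HC.nc n (iff_of_false s s') d b' o o' m (by omega) k⟩

/-- A wide face at an apex is a tube face or has an edge to the rest of the cycle. -/
lemma wing (hw : w ∈ X.K) (h : H.Wide X.T1 X.T2 (X.q w)) : (∃ x y x' y', X.Tube w x y x' y') ∨
    ∃ x y, H.On (X.q w) x ∧ H.On (X.q w) y ∧ H.Ed x y ∧ X.T1 ≤ x ∧ x ≤ X.T2 ∧
      (X.B2 < y ∧ y < X.T1 ∨ X.T2 < y ∨ y < X.B1) := by
  have o := (X.out w hw).2
  obtain ⟨-, -, -, p1, p2⟩ := X.pos w hw
  have := X.o2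
  obtain ⟨n1, n2⟩ := qnb hw
  obtain ⟨x, a, a1, a2, a3⟩ := HC.exists_min o p1
  obtain ⟨x', b, b1, b2, b3⟩ := HC.exists_max o p2
  by_cases c : ∃ z, H.On (X.q w) z ∧ x' < z
  · obtain ⟨z, c1, c2⟩ := c
    obtain ⟨y, d, d1, -, d3⟩ := HC.exists_min (a := x' + 1) c1 c2
    have := b3 y d
    exact Or.inr ⟨x', y, b, d, HC.cons_ed b d d1 fun u k => by have := d3 u k; omega, by omega, b2,
      by omega⟩
  have c' : ∀ z, H.On (X.q w) z → z ≤ x' := fun z k => not_lt.1 fun m => c ⟨z, k, m⟩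
  obtain ⟨z, z1, z2⟩ := h
  have := c' z z1
  obtain ⟨y, d, -, d2, d3⟩ := HC.exists_max (b := x - 1) z1 (by omega)
  obtain ⟨y', e, -, e2, e3⟩ := HC.exists_min (a := 0) z1 (Nat.zero_le _)
  have := a3 y d
  have := e3 y d (Nat.zero_le _)
  by_cases m : X.B2 < y
  · exact Or.inr ⟨x, y, a, d, (HC.cons_ed d a (by omega) fun u k => by
      have := d3 u k; omega).symm, a1, by omega, by omega⟩
  by_cases m' : y' < X.B1
  · exact Or.inr ⟨x', y', b, e, (HC.ext_ed e b (by omega) fun u k =>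
      ⟨e3 u k (Nat.zero_le _), c' u k⟩).symm, by omega, b2, by omega⟩
  have := d3 _ n1
  have := c' _ n2
  refine Or.inl ⟨x, y, x', y', a, d, b, e, a1, by omega, by omega, b2, by omega, by omega, by omega,
    fun u k => ?_⟩
  have := d3 u k
  have := e3 u k (Nat.zero_le _)
  have := c' u k
  omega

/-- Different wide faces meet the upper interval in the order of their apexes. -/
lemma qord (hw : w ∈ X.K) (hw' : w' ∈ X.K) (k : w < w') (n : X.q w ≠ X.q w')
    (h : H.Wide X.T1 X.T2 (X.q w)) (h' : H.Wide X.T1 X.T2 (X.q w')) :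
    (∀ x, H.On (X.q w) x → x ≤ X.T2 → x < w') ∧ ∀ x, H.On (X.q w') x → X.T1 ≤ x → w < x :=
  tub0_qord hw hw' k n h h'

end Sec

end PM

end Pool.Agent.MP_42ec7b_co

end MrgPart6

-- ======== part 7: formerly Pool.Agent.MP_42ec7b_co.A.HSel
section MrgPart7

/-!
Selection lemmas for finite sets of natural numbers.
-/

set_option autoImplicit false

open Finset

namespace Pool.Agent.MP_42ec7b_co

open Classical

/-- A kernel of an increasing relation. -/
lemma kernel (K : Finset ℕ) (cov : ℕ → ℕ → Prop) : ∃ G ⊆ K,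
    (∀ a ∈ G, ∀ b ∈ G, a < b → ¬cov a b) ∧ ∀ k ∈ K, k ∈ G ∨ ∃ a ∈ G, a < k ∧ cov a k := by
  induction K using Finset.induction_on_max with
  | empty => exact ⟨∅, Subset.rfl, by simp, by simp⟩
  | insert m s hm ih =>
    obtain ⟨G, h1, h2, h3⟩ := ih
    by_cases h : ∃ a ∈ G, cov a m
    · obtain ⟨a, ha, hc⟩ := h
      refine ⟨G, h1.trans (subset_insert _ _), h2, fun k hk => ?_⟩
      rcases mem_insert.1 hk with rfl | hk
      · exact Or.inr ⟨a, ha, hm a (h1 ha), hc⟩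
      · exact h3 k hk
    · refine ⟨insert m G, insert_subset_insert _ h1, fun a ha b hb hab => ?_, fun k hk => ?_⟩
      · rcases mem_insert.1 ha with ea | ha'
        · rcases mem_insert.1 hb with eb | hb'
          · omega
          · have := hm b (h1 hb')
            omega
        · rcases mem_insert.1 hb with eb | hb'
          · exact fun k => h ⟨a, ha', eb ▸ k⟩
          · exact h2 a ha' b hb' hab
      · rcases mem_insert.1 hk with rfl | hk
        · exact Or.inl (mem_insert_self _ _)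
        · rcases h3 k hk with k1 | ⟨a, ha, k1⟩
          · exact Or.inl (mem_insert_of_mem k1)
          · exact Or.inr ⟨a, mem_insert_of_mem ha, k1⟩

lemma HSel_gap (G : Finset ℕ) {a b : ℕ} (ha : a ∈ G) (hab : a < b)
    (h : #(G.filter (· < a)) % 2 = #(G.filter (· < b)) % 2) : ∃ c ∈ G, a < c ∧ c < b := by
  by_contra k
  have e : G.filter (· < b) = insert a (G.filter (· < a)) := by
    ext c
    simp only [mem_filter, mem_insert]
    constructor
    · rintro ⟨h1, h2⟩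
      rcases lt_trichotomy c a with h3 | h3 | h3
      · exact Or.inr ⟨h1, h3⟩
      · exact Or.inl h3
      · exact absurd ⟨c, h1, h3, h2⟩ k
    · rintro (rfl | ⟨h1, h2⟩)
      · exact ⟨ha, hab⟩
      · exact ⟨h1, h2.trans hab⟩
  rw [e, card_insert_of_notMem (by simp)] at h
  omega

/-- Every second element. -/
lemma sel2 (G : Finset ℕ) (ω : ℕ → ℕ) : ∃ G' ⊆ G, ∑ a ∈ G, ω a ≤ 2 * ∑ a ∈ G', ω a ∧
    ∀ a ∈ G', ∀ b ∈ G', a < b → ∃ c ∈ G, a < c ∧ c < b := by
  have e := sum_filter_add_sum_filter_not G (fun a => #(G.filter (· < a)) % 2 = 0) ω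
  by_cases h : ∑ a ∈ G.filter (fun a => ¬ #(G.filter (· < a)) % 2 = 0), ω a ≤
      ∑ a ∈ G.filter (fun a => #(G.filter (· < a)) % 2 = 0), ω a
  · refine ⟨G.filter (fun a => #(G.filter (· < a)) % 2 = 0), filter_subset _ _, by omega,
      fun a ha b hb hab => ?_⟩
    rw [mem_filter] at ha hb
    exact HSel_gap G ha.1 hab (by omega)
  · refine ⟨G.filter (fun a => ¬ #(G.filter (· < a)) % 2 = 0), filter_subset _ _, by omega,
      fun a ha b hb hab => ?_⟩
    rw [mem_filter] at ha hb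
    exact HSel_gap G ha.1 hab (by omega)

lemma enum (K : Finset ℕ) : ∃ e : ℕ → ℕ, StrictMono e ∧ ∀ i < #K, e i ∈ K := by
  induction K using Finset.induction_on_min with
  | empty => exact ⟨id, strictMono_id, by simp⟩
  | insert m s hm ih =>
    obtain ⟨e, h1, h2⟩ := ih
    have hn : m ∉ s := fun k => lt_irrefl _ (hm m k)
    by_cases h : s = ∅
    · subst h
      refine ⟨fun i => m + i, fun i j k => by simpa using k, fun i hi => ?_⟩
      have : i = 0 := by simpa using hi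
      simp [this]
    · have h0 : m < e 0 := hm _ (h2 0 (card_pos.2 (nonempty_iff_ne_empty.2 h)))
      refine ⟨fun i => if i = 0 then m else e (i - 1), fun i j k => ?_, fun i hi => ?_⟩
      · have hj : j ≠ 0 := by omega
        by_cases hi : i = 0
        · simp only [hi, hj, if_true, if_false]
          exact h0.trans_le (h1.monotone (Nat.zero_le _))
        · simp only [hi, hj, if_false]
          exact h1 (by omega)
      · rw [card_insert_of_notMem hn] at hi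
        by_cases h3 : i = 0
        · simp [h3]
        · simp only [h3, if_false]
          exact mem_insert_of_mem (h2 _ (by omega))

lemma avoid {β : Type} {K : Finset ℕ} {e : ℕ → ℕ} (he : StrictMono e) (h : ∀ i < #K, e i ∈ K)
    (p : ℕ → β) {m i : ℕ} (b : β) (hm : #(K.filter (p · = b)) ≤ m) (hi : i + m < #K) :
    ∃ j, i ≤ j ∧ j ≤ i + m ∧ p (e j) ≠ b := by
  by_contra k
  have h1 : (Icc i (i + m)).image e ⊆ K.filter (p · = b) := by
    intro x hx
    obtain ⟨j, hj, rfl⟩ := mem_image.1 hx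
    rw [mem_Icc] at hj
    refine mem_filter.2 ⟨h j (by omega), ?_⟩
    by_contra k1
    exact k ⟨j, hj.1, hj.2, k1⟩
  have h2 := card_le_card h1
  rw [card_image_of_injective _ he.injective, Nat.card_Icc] at h2
  omega

/-- Pigeonhole on the interval and the side of a position. -/
lemma pig3 (K : Finset ℕ) (y : ℕ → ℕ) (p1 p2 p3 : ℕ → Prop) {W N k : ℕ} (hW : 0 < W)
    (h : ∀ w ∈ K, y w < N * W ∧ (p1 w ∨ p2 w ∨ p3 w)) (hk : 3 * N * k < #K) :
    ∃ K' ⊆ K, k < #K' ∧ (∀ w ∈ K', ∀ w' ∈ K', y w < y w' + W) ∧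
      ((∀ w ∈ K', p1 w) ∨ (∀ w ∈ K', p2 w) ∨ ∀ w ∈ K', p3 w) := by
  obtain ⟨⟨a, c⟩, -, h1⟩ := exists_lt_card_fiber_of_mul_lt_card_of_maps_to
    (s := K) (t := range N ×ˢ range 3) (n := k)
    (f := fun w => (y w / W, if p1 w then 0 else if p2 w then 1 else 2))
    (fun w hw => by
      rw [mem_product, mem_range, mem_range]
      refine ⟨(Nat.div_lt_iff_lt_mul hW).2 (h w hw).1, ?_⟩
      split_ifs <;> omega)
    (by rw [card_product, card_range, card_range]; nlinarith)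
  refine ⟨_, filter_subset _ _, h1, fun w hw w' hw' => ?_, ?_⟩
  · rw [mem_filter, Prod.mk.injEq] at hw hw'
    have e1 := Nat.div_add_mod (y w) W
    have e2 := Nat.div_add_mod (y w') W
    have e3 := Nat.mod_lt (y w) hW
    rw [hw.2.1] at e1
    rw [hw'.2.1] at e2
    omega
  · rcases (show c = 0 ∨ c = 1 ∨ (c ≠ 0 ∧ c ≠ 1) by omega) with hc | hc | hc
    · refine Or.inl fun w hw => ?_
      rw [mem_filter, Prod.mk.injEq] at hw
      have := hw.2.2
      split_ifs at this with k1 k2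
      · exact k1
      · omega
      · omega
    · refine Or.inr (Or.inl fun w hw => ?_)
      rw [mem_filter, Prod.mk.injEq] at hw
      have := hw.2.2
      split_ifs at this with k1 k2
      · omega
      · exact k2
      · omega
    · refine Or.inr (Or.inr fun w hw => ?_)
      rw [mem_filter, Prod.mk.injEq] at hw
      have := hw.2.2
      split_ifs at this with k1 k2
      · omega
      · omega
      · exact ((h w hw.1).2.resolve_left k1).resolve_left k2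

end Pool.Agent.MP_42ec7b_co

end MrgPart7

-- ======== part 8: formerly Pool.Agent.MP_42ec7b_co.A.HC5
section MrgPart8

/-!
Tube faces that pass under the right end of the base.
-/

set_option autoImplicit false

open Finset

namespace Pool.Agent.MP_42ec7b_co

open Classical

namespace PM

variable {D : Type} [PM D]

namespace Sec

variable {H : HC D} {X : Sec H} {K' : Finset ℕ} {x y x' y' : ℕ → ℕ} {E : ℕ}

/-- The local change at one tube face. -/
lemma c5_step {p a x y x' y' : ℕ} {L : Finset ℕ} (hp : p ∈ X.K) (ha : a ∈ X.K) (h : p < a)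
    (ht : X.Tube a x y x' y') (k1 : y' < X.r a) (k2 : X.r a < y) (hL : L ⊆ X.K)
    (k3 : ∀ k ∈ L, a < k ∧ X.q a = X.q k ∧ k ≤ x' ∧ y' < X.r k) :
    ∃ z z', ∃ K2 ⊆ L, #L ≤ 2 * #K2 + 1 ∧ X.B1 ≤ z ∧ z ≤ X.r p ∧ p ≤ z' ∧ ∀ Y,
      X.St (max y z) (min x z') Y → X.St y' x' fun s => Y s ∨ ∃ w ∈ insert a K2, s = X.t w := by
  obtain ⟨z, z', z1, z2, z3, z4, z5, z6, z7⟩ := zed hp ha h
  obtain ⟨a1, a2, a3, a4, a5⟩ := X.pos a ha
  obtain ⟨p1, p2, p3, p4, p5⟩ := X.pos p hp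
  obtain ⟨e1, -⟩ := ht.ed
  obtain ⟨-, t2, -, t4, t5, t6, t7, t8, t9, t10, t11, -⟩ := ht
  have o0 := X.o0
  have o2 := X.o2
  have o4 := X.o4
  have z8 : z' < a := lt_of_le_of_ne z4 fun e => by
    subst e
    by_cases m : z = X.l z'
    · obtain ⟨u, v, w, m1, m2, m3, m4, m5⟩ := HC.exists_three (H := H) (X.gm z')
      have := z7 u m3
      have := z7 v m4
      have := z7 w m5
      omega
    · have := HC.ch3 z6 (ed_l ha) (ed_r ha) m (by omega) (by omega)
      unfold HC.Nb at this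
      omega
  have z9 : z ≠ y := fun e => (shq ha t2 (by omega) t11).1 (e ▸ z5)
  obtain ⟨K2, s1, s2, s3⟩ := e2 hL a4 t7.le t8 fun k hk => ⟨(k3 k hk).1.le, (k3 k hk).2.2.1⟩
  obtain ⟨-, b1, b2, b3, b4⟩ := X.tri a ha
  have s4 := s3.mono (Q' := fun u => (a ≤ u ∧ u ≤ x') ∨ (y' < u ∧ u < X.r a ∧ ¬H.On (X.q a) u))
    (fun u m => m.imp_right fun ⟨w, m1, w0, m2, _, m3, m4, m5⟩ => by
      have := (k3 w m1).2.2.2
      have := ord ha (hL m2) (k3 w0 m2).1
      have := (X.pos w0 (hL m2)).2.1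
      refine ⟨by omega, by omega, fun m6 => ?_⟩
      have := shq (hL m1) ((k3 w m1).2.1 ▸ m6) (by omega) (by omega)
      tauto) (fun _ m => m) fun _ m => m
  have U := ((HC.Seg.face (X.lft a ha).2.2.2 z5 z1).symm.cat
    ((HC.Seg.ear b1 b3 b4 b2 (by omega) (by omega) (by omega)).cat s4 fun u m m' => by omega)
    fun u m m' => by omega).mono
    (Q' := fun u => (a ≤ u ∧ u ≤ x') ∨ (y' < u ∧ u ≤ z ∧ ¬H.On (X.q a) u))
    (X' := fun _ => False) (Y' := fun s => ∃ w ∈ insert a K2, s = X.t w) (fun u m => by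
      rcases m with ⟨m1, m2, m3⟩ | (rfl | rfl | rfl) | m | ⟨m1, m2, m3⟩
      · exact Or.inr ⟨by omega, m2, fun m => (shq ha m (by omega) (by omega)).1 m3⟩
      · exact Or.inr ⟨by omega, z1, fun m => (shq ha m (by omega) (by omega)).2.1 b3⟩
      · exact Or.inr ⟨by omega, by omega, fun m => (shq ha m (by omega) (by omega)).2.1 b4⟩
      · exact Or.inl ⟨le_rfl, t7.le⟩
      · exact Or.inl m
      · exact Or.inr ⟨m1, by omega, m3⟩) (fun _ m => m.elim) fun s ⟨w, m, e⟩ =>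
      Or.inr ((mem_insert.1 m).imp (fun e' : w = a => e.trans (congrArg _ e'))
        fun m' => ⟨w, m', e⟩)
  have V := (HC.Seg.face t4 t2 t10).symm
  refine ⟨z, z', K2, s1, s2, by omega, z2, z3, fun Y st => ?_⟩
  rcases lt_or_gt_of_ne z9 with c | c
  · refine ((st.move (j' := y) (i' := z') (by omega) (by omega) (by omega) (by omega)).par V
      (((HC.Seg.edge z6).cat U fun u m m' => by omega).mono (fun _ m => m) (fun _ m => m.elim)
        fun _ m => Or.inr m) t9 t10 (by omega) t8 (fun u m m' => ?_) (fun u m => by omega)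
      fun u m => by omega).mono fun s m => m.imp_right Or.inr
    rcases m' with (rfl | rfl) | m' | m'
    exacts [by omega, (shq ha m.2.2 (by omega) (by omega)).1 z5, by omega, m'.2.2 m.2.2]
  · refine ((st.move (j' := z) (i' := x) (by omega) (by omega) (by omega) (by omega)).swp U
      (((HC.Seg.edge e1).cat V fun u m m' => by omega).mono (fun _ m => m) (fun _ m => m.elim)
        (Y' := fun _ => False) fun _ m => m.elim) t9 (by omega) (by omega) t8 (fun u m m' => ?_)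
      (fun u m => by omega) fun u m => by omega).mono fun s m => m.imp_right Or.inl
    rcases m with m | m
    · omega
    · rcases m' with (rfl | rfl) | m'
      exacts [by omega, m.2.2 t2, m.2.2 m'.2.2]

theorem c5 (hK : K' ⊆ X.K) (h : ∀ w ∈ K', X.Tube w (x w) (y w) (x' w) (y' w))
    (k : ∀ w ∈ K', y' w < X.r w ∧ X.r w < y w) (hE : 6 * E + 1 ≤ #K') : H.Out X.loss E := by
  have ne : K'.Nonempty := card_pos.1 (by omega)
  obtain ⟨G, g1, g2, g3⟩ := kernel (K'.erase (K'.min' ne)) fun a b => X.q a = X.q b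
  have gK : G ⊆ K' := g1.trans (erase_subset _ _)
  obtain ⟨L, hL⟩ : ∃ L : ℕ → Finset ℕ, ∀ a b, b ∈ L a ↔ b ∈ K' ∧ a < b ∧ X.q a = X.q b :=
    ⟨fun a => K'.filter fun b => a < b ∧ X.q a = X.q b, fun _ _ => mem_filter⟩
  obtain ⟨G', s1, s2, s3⟩ := sel2 G fun a => #(L a) + 1
  have ex : ∀ a, ∃ p z z', ∃ K2 : Finset ℕ, a ∈ G → p ∈ K' ∧ (∀ c ∈ K', c < a → c ≤ p) ∧
      K2 ⊆ L a ∧ #(L a) ≤ 2 * #K2 + 1 ∧ X.B1 ≤ z ∧ z ≤ X.r p ∧ p ≤ z' ∧ ∀ Y,
        X.St (max (y a) z) (min (x a) z') Y →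
          X.St (y' a) (x' a) fun s => Y s ∨ ∃ w ∈ insert a K2, s = X.t w := fun a => by
    by_cases ha : a ∈ G
    · have a1 := gK ha
      have n : (K'.filter (· < a)).Nonempty := ⟨_, mem_filter.2 ⟨min'_mem _ ne,
        lt_of_le_of_ne (min'_le _ _ a1) (mem_erase.1 (g1 ha)).1.symm⟩⟩
      obtain ⟨p1, p2⟩ := mem_filter.1 (max'_mem _ n)
      obtain ⟨z, z', K2, m⟩ := c5_step (L := L a) (hK p1) (hK a1) p2 (h a a1) (k a a1).1 (k a a1).2
        (fun b hb => hK ((hL a b).1 hb).1) fun b hb => by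
          obtain ⟨b1, b2, b3⟩ := (hL a b).1 hb
          obtain ⟨-, -, e1, e2⟩ := (h a a1).same (h b b1) b3
          exact ⟨b2, b3, e1 ▸ (h b b1).2.2.2.2.2.2.1.le, e2 ▸ (k b b1).1⟩
      exact ⟨_, z, z', K2, fun _ => ⟨p1, fun c c1 c2 => le_max' _ c (mem_filter.2 ⟨c1, c2⟩), m⟩⟩
    · exact ⟨0, 0, 0, ∅, fun m => absurd m ha⟩
  choose p z z' K2 hp using ex
  have qq : ∀ a ∈ G, ∀ b ∈ insert a (K2 a), b ∈ K' ∧ X.q a = X.q b := fun a ha b hb =>
    (mem_insert.1 hb).elim (fun e => by rw [e]; exact ⟨gK ha, rfl⟩) fun m =>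
      ((hL a b).1 ((hp a ha).2.2.1 m)).imp_right And.right
  refine (chain G' (fun a => max (y a) (z a)) y' (fun a => min (x a) (z' a)) x'
    (fun a => insert a (K2 a)) (fun a ha b hb => hK (qq a (s1 ha) b hb).1) (fun a ha => ?_)
    (fun a ha => (hp a (s1 ha)).2.2.2.2.2.2.2) fun a ha b hb ab => ?_).mono le_rfl ?_
  · obtain ⟨p1, -, -, -, p2, p3, p4, -⟩ := hp a (s1 ha)
    obtain ⟨-, -, -, -, t5, t6, t7, t8, t9, t10, t11, -⟩ := h a (gK (s1 ha))
    have := X.pos _ (hK p1)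
    omega
  · obtain ⟨c, c1, c2, c3⟩ := s3 a ha b hb ab
    obtain ⟨p1, p0, -, -, -, p3, p4, -⟩ := hp b (s1 hb)
    have a1 := gK (s1 ha)
    have b1 := gK (s1 hb)
    have c4 := gK c1
    have o1 := Tube.ord (hK a1) (hK b1) (h a a1) (h b b1) ab (g2 a (s1 ha) b (s1 hb) ab)
    have o2 := Tube.ord (hK a1) (hK c4) (h a a1) (h c c4) c2 (g2 a (s1 ha) c c1 c2)
    have o3 := (h c c4).2.2.2.2.2.1
    have o4 := (k c c4).2
    have o5 := p0 c c4 c3
    have o6 : X.r (p b) ≤ X.r c := o5.eq_or_lt.elim (fun e => e ▸ le_rfl) fun m =>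
      (X.pos _ (hK p1)).2.1.le.trans (ord (hK c4) (hK p1) m)
    omega
  · have c1 : #(K'.erase (K'.min' ne)) ≤ ∑ a ∈ G, (#(L a) + 1) :=
      (card_le_card (t := G.biUnion fun a => insert a (L a)) fun b hb => mem_biUnion.2
        ((g3 b hb).elim (fun m => ⟨b, m, mem_insert_self _ _⟩) fun ⟨a, m1, m2, m3⟩ =>
          ⟨a, m1, mem_insert_of_mem ((hL a b).2 ⟨mem_of_mem_erase hb, m2, m3⟩)⟩)).trans
        (card_biUnion_le.trans (sum_le_sum fun a _ => card_insert_le _ _))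
    have c2 : ∑ a ∈ G', (#(L a) + 1) ≤ 2 * ∑ a ∈ G', #(insert a (K2 a)) := by
      rw [mul_sum]
      refine sum_le_sum fun a ha => ?_
      obtain ⟨-, -, p1, p2, -⟩ := hp a (s1 ha)
      rw [card_insert_of_notMem fun m => lt_irrefl a ((hL a a).1 (p1 m)).2.1]
      omega
    rw [card_biUnion fun a ha b hb n => disjoint_left.2 fun c m m' => by
      have e := (qq a (s1 ha) c m).2.trans (qq b (s1 hb) c m').2.symm
      rcases lt_or_gt_of_ne n with o | o
      exacts [g2 a (s1 ha) b (s1 hb) o e, g2 b (s1 hb) a (s1 ha) o e.symm]]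
    rw [card_erase_of_mem (min'_mem _ ne)] at c1
    omega

end Sec

end PM

end Pool.Agent.MP_42ec7b_co

end MrgPart8

-- marker of a merged file
example : 731051 + 236080 = 731051 + 236080 := rfl
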